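import Pool.Agent.H94.PM.KD
import Pool.Agent.H94.PL.Syg

set_option autoImplicit false

/-!
# [H94 PM CLW] Lagrangian subspaces which are compatible with a connected graph of reflections

`X = XX m ℓ`, `B = BB m ℓ`.  `Det L i k`: some `L v` is `x ↦ d (x_i - x_k) (e_i - e_k)`, `d ≠ 0`.

`clw`.  Let `f_w(i) = (w.1 i, w.2 i)`.  A colour is a pair `(p, r)` of scalars: `(1, 0)`, `(0, 1)` and, if `ℓ = 2`, `(1, 1)`.  An
edge `{i, k}` has the colour `(p, r)` if `p (w.1 i - w.1 k) + r (w.2 i - w.2 k) = 0` for all `w ∈ W`.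
(1) Each detected edge `{i, k}` has a colour: by `hpol` with the `v` of `Det` (divide by `d`), for all `w, w' ∈ W`:
`(w.2 i - w.2 k) (w'.1 i - w'.1 k) + (w'.2 i - w'.2 k) (w.1 i - w.1 k) = 0`.  `ℓ` odd: `w = w'` gives `c(w) x(w) = 0` for all `w`, a product of two linear
forms on `W`, so one of them is zero (if `x(w) ≠ 0`, `c(w') ≠ 0` then `c(w) = 0`, `x(w') = 0`, and `w + w'` gives a contradiction).
`ℓ = 2`: if `x(w) ≠ 0` for some `w` and `c(w') ≠ 0` for some `w'`: then `c = x` on `W`: scalars are `0, 1`; the relation is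
`c(w) x(w') = c(w') x(w)`; with `x(w₀) = 1`: `c(w') = c(w₀) x(w')` for all `w'`, and `c ≠ 0` gives `c(w₀) = 1`.
(2) If `{i, k}` has the colour `(p, r)` then `e = (r • ep i k, p • ep i k) ∈ W`: `laB e w = B (p ep) w.1 + B w.2 (r ep)
= p (w.1 i - w.1 k) + r (w.2 i - w.2 k) = 0` for all `w ∈ W`, and `la_perp`.
(3) Two edges `{i, k}`, `{k, l}` with `i ≠ l` and colours `(p, r) ≠ (p', r')` cannot both exist: the elements of (2) are in `W`, so
`0 = laB e e' = (p r' + p' r) B (ep i k) (ep k l) = -(p r' + p' r)` (`i, k, l` distinct), but `p r' + p' r = 1` for two different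
colours of the list (for `ℓ = 2` also).  So every colour of `{k, l}` is `(p, r)`.
(4) If `m ≤ 1` all `w` are zero.  Otherwise there is a detected edge `{i₀, k₀}` (`hconn i₀ k₀` with `i₀ ≠ k₀`); let `(p, r)` be
its colour.  By induction along `ReflTransGen` from `i₀`: for every `j`, `{i₀, j}` has the colour `(p, r)` (as a relation, transitive) and every detected
edge `{j, l}` has the colour `(p, r)` ((3), or it is the previous edge).  So `p w.1 + r w.2` is constant on `Fin m` with sum zero, hence `0`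
(`XX_eq_zero`).  `(1,0)`: `w.1 = 0`; `(0,1)`: `w.2 = 0`; `(1,1)`, `ℓ = 2`: `w.1 = - w.2 = w.2`.
-/

namespace Pool.Agent.H94.PM

open Pool.Agent.H94.PL

variable {ℓ : ℕ} [hl : Fact ℓ.Prime] {m : ℕ} {S : Type} [Fintype (XX m ℓ)]

/-- `{i, k}` is detected by some `L v` -/
def Det (L : S → XX m ℓ →ₗ[ZMod ℓ] XX m ℓ) (i k : Fin m) : Prop :=
  i ≠ k ∧ ∃ (v : S) (d : ZMod ℓ), d ≠ 0 ∧ ∀ x, L v x = (d * (x.1 i - x.1 k)) • ep ℓ i k

/-- the colours -/
private def IsC (p r : ZMod ℓ) : Prop := (p = 1 ∧ r = 0) ∨ (p = 0 ∧ r = 1) ∨ (ℓ = 2 ∧ p = 1 ∧ r = 1)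

/-- `{i, k}` has the colour `(p, r)` -/
private def Col (W : Submodule (ZMod ℓ) (XX m ℓ × XX m ℓ)) (p r : ZMod ℓ) (i k : Fin m) : Prop :=
  ∀ w ∈ W, p * (w.1.1 i - w.1.1 k) + r * (w.2.1 i - w.2.1 k) = 0

omit [Fintype (XX m ℓ)] in
private theorem Col.symm {W : Submodule (ZMod ℓ) (XX m ℓ × XX m ℓ)} {p r : ZMod ℓ} {i k : Fin m}
    (h : Col W p r i k) : Col W p r k i := by
  intro w hw
  have h1 := h w hw
  calc p * (w.1.1 k - w.1.1 i) + r * (w.2.1 k - w.2.1 i) = -(p * (w.1.1 i - w.1.1 k) + r * (w.2.1 i - w.2.1 k)) := by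
        ring
    _ = 0 := by rw [h1, neg_zero]

omit [Fintype (XX m ℓ)] in
private theorem Col.trans {W : Submodule (ZMod ℓ) (XX m ℓ × XX m ℓ)} {p r : ZMod ℓ} {i k l : Fin m}
    (h : Col W p r i k) (h' : Col W p r k l) : Col W p r i l := by
  intro w hw
  have h1 := h w hw
  have h2 := h' w hw
  calc p * (w.1.1 i - w.1.1 l) + r * (w.2.1 i - w.2.1 l) = (p * (w.1.1 i - w.1.1 k) + r * (w.2.1 i - w.2.1 k)) +
        (p * (w.1.1 k - w.1.1 l) + r * (w.2.1 k - w.2.1 l)) := by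
        ring
    _ = 0 := by rw [h1, h2, add_zero]

private theorem z2a : ∀ a : ZMod 2, a ≠ 0 → a = 1 := by decide

private theorem z2b : ∀ a b : ZMod 2, a + b = 0 → b = a := by decide

private theorem z2c : ∀ a : ZMod 2, a + a = 0 := by decide

/-- the products of two linear forms -/
private theorem col_alg {ι : Type*} (X C : ι → ZMod ℓ) (h : ∀ w w', X w' * C w + X w * C w' = 0) :
    ∃ p r : ZMod ℓ, IsC p r ∧ ∀ w, p * X w + r * C w = 0 := by
  by_cases h1 : ∀ w, X w = 0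
  · exact ⟨1, 0, Or.inl ⟨rfl, rfl⟩, fun w => by rw [h1 w, mul_zero, zero_mul, add_zero]⟩
  by_cases h2 : ∀ w, C w = 0
  · exact ⟨0, 1, Or.inr (Or.inl ⟨rfl, rfl⟩), fun w => by rw [h2 w, mul_zero, zero_mul, add_zero]⟩
  push Not at h1 h2
  obtain ⟨w₀, hw₀⟩ := h1
  obtain ⟨w₁, hw₁⟩ := h2
  by_cases hl2 : ℓ = 2
  · subst hl2
    have e0 := z2a _ hw₀
    have h3 : ∀ w, C w = X w * C w₀ := by
      intro w
      have h4 := h w₀ w
      rw [e0, one_mul] at h4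
      exact z2b _ _ h4
    have h5 : C w₀ = 1 := by
      refine z2a _ fun h6 => hw₁ ?_
      rw [h3 w₁, h6, mul_zero]
    refine ⟨1, 1, Or.inr (Or.inr ⟨rfl, rfl, rfl⟩), fun w => ?_⟩
    rw [h3 w, h5, mul_one, one_mul]
    exact z2c _
  · exfalso
    have h3 := h w₀ w₀
    have h4 : (2 : ZMod ℓ) ≠ 0 := by
      intro h5
      have h6 : ((2 : ℕ) : ZMod ℓ) = 0 := by exact_mod_cast h5
      rw [ZMod.natCast_eq_zero_iff] at h6
      exact hl2 ((Nat.prime_dvd_prime_iff_eq hl.out Nat.prime_two).1 h6)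
    have h5 : C w₀ = 0 := by
      have h6 : (2 : ZMod ℓ) * (X w₀ * C w₀) = 0 := by rw [two_mul]; exact h3
      rcases mul_eq_zero.1 h6 with h7 | h7
      · exact absurd h7 h4
      · exact (mul_eq_zero.1 h7).resolve_left hw₀
    have h6 := h w₀ w₁
    rw [h5, mul_zero, zero_add] at h6
    rcases mul_eq_zero.1 h6 with h7 | h7
    · exact hw₀ h7
    · exact hw₁ h7

private theorem col_det (L : S → XX m ℓ →ₗ[ZMod ℓ] XX m ℓ) (W : Submodule (ZMod ℓ) (XX m ℓ × XX m ℓ))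
    (hpol : ∀ v, ∀ w ∈ W, ∀ w' ∈ W, BB m ℓ w.2 (L v w'.1) + BB m ℓ w'.2 (L v w.1) = 0) {i k : Fin m}
    (h : Det L i k) : ∃ p r : ZMod ℓ, IsC p r ∧ Col W p r i k := by
  obtain ⟨-, v, d, hd, hL⟩ := h
  obtain ⟨p, r, h1, h2⟩ := col_alg (ℓ := ℓ) (fun w : W => w.1.1.1 i - w.1.1.1 k) (fun w : W => w.1.2.1 i - w.1.2.1 k)
    (fun w w' => by
      have h3 := hpol v w.1 w.2 w'.1 w'.2
      rw [hL, hL, map_smul, map_smul, BB_ep, BB_ep, smul_eq_mul, smul_eq_mul] at h3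
      have h4 : d * ((w'.1.1.1 i - w'.1.1.1 k) * (w.1.2.1 i - w.1.2.1 k) +
          (w.1.1.1 i - w.1.1.1 k) * (w'.1.2.1 i - w'.1.2.1 k)) = 0 := by
        rw [← h3]
        ring
      exact (mul_eq_zero.1 h4).resolve_left hd)
  exact ⟨p, r, h1, fun w hw => h2 ⟨w, hw⟩⟩

private theorem col_mem (hm : Nat.Coprime m ℓ)
    (W : Submodule (ZMod ℓ) (XX m ℓ × XX m ℓ)) (hc : Nat.card W = Fintype.card (XX m ℓ))
    (hiso : ∀ x ∈ W, ∀ y ∈ W, laB (BB m ℓ) x y = 0) {p r : ZMod ℓ} {i k : Fin m} (h : Col W p r i k) :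
    (r • ep ℓ i k, p • ep ℓ i k) ∈ W := by
  refine la_perp (BB m ℓ) (BB_good hm) W hiso hc _ fun w hw => ?_
  rw [laB_apply]
  simp only [map_smul, LinearMap.smul_apply, smul_eq_mul]
  rw [ep_BB, BB_ep]
  exact h w hw

private theorem col_eq (hm : Nat.Coprime m ℓ)
    (W : Submodule (ZMod ℓ) (XX m ℓ × XX m ℓ)) (hc : Nat.card W = Fintype.card (XX m ℓ))
    (hiso : ∀ x ∈ W, ∀ y ∈ W, laB (BB m ℓ) x y = 0) {p r p' r' : ZMod ℓ} {i k l : Fin m} (hik : i ≠ k) (hkl : k ≠ l)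
    (hil : i ≠ l) (hC : IsC p r) (hC' : IsC p' r') (h : Col W p r i k) (h' : Col W p' r' k l) : p' = p ∧ r' = r := by
  have h1 := hiso _ (col_mem hm W hc hiso h) _ (col_mem hm W hc hiso h')
  rw [laB_apply] at h1
  simp only [map_smul, LinearMap.smul_apply, smul_eq_mul] at h1
  rw [BB_ep, BB_symm (ep ℓ k l) (ep ℓ i k), BB_ep] at h1
  have e1 : (ep ℓ i k).1 k = -1 := by
    rw [ep_apply, if_neg hik.symm, if_pos rfl]
    ring
  have e2 : (ep ℓ i k).1 l = 0 := by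
    rw [ep_apply, if_neg hil.symm, if_neg hkl.symm]
    ring
  rw [e1, e2] at h1
  have h2 : p * r' + p' * r = 0 := by
    have h3 : -(p * r' + p' * r) = 0 := by
      rw [← h1]
      ring
    exact neg_eq_zero.1 h3
  have hone : (1 : ZMod ℓ) ≠ 0 := one_ne_zero
  rcases hC with ⟨rfl, rfl⟩ | ⟨rfl, rfl⟩ | ⟨-, rfl, rfl⟩ <;>
    rcases hC' with ⟨rfl, rfl⟩ | ⟨rfl, rfl⟩ | ⟨-, rfl, rfl⟩ <;>
    first
      | exact ⟨rfl, rfl⟩
      | (exfalso; apply hone; simpa using h2)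

theorem clw (hm : Nat.Coprime m ℓ) (L : S → XX m ℓ →ₗ[ZMod ℓ] XX m ℓ)
    (hconn : ∀ i k, Relation.ReflTransGen (Det L) i k)
    (W : Submodule (ZMod ℓ) (XX m ℓ × XX m ℓ)) (hc : Nat.card W = Fintype.card (XX m ℓ))
    (hiso : ∀ x ∈ W, ∀ y ∈ W, laB (BB m ℓ) x y = 0)
    (hpol : ∀ v, ∀ w ∈ W, ∀ w' ∈ W, BB m ℓ w.2 (L v w'.1) + BB m ℓ w'.2 (L v w.1) = 0) :
    (∀ w ∈ W, w.1 = 0) ∨ (∀ w ∈ W, w.2 = 0) ∨ (ℓ = 2 ∧ ∀ w ∈ W, w.1 = w.2) := by
  by_cases hm1 : m ≤ 1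
  · left
    intro w _
    refine XX_eq_zero hm _ fun i j => ?_
    have : i = j := by
      apply Fin.ext
      have := i.2
      have := j.2
      omega
    rw [this]
  push Not at hm1
  set i₀ : Fin m := ⟨0, by omega⟩ with hi₀
  set i₁ : Fin m := ⟨1, hm1⟩ with hi₁
  have h01 : i₀ ≠ i₁ := by
    intro h
    have := congrArg Fin.val h
    simp [hi₀, hi₁] at this
  obtain ⟨k₀, hk₀⟩ : ∃ k₀, Det L i₀ k₀ := by
    rcases Relation.ReflTransGen.cases_head (hconn i₀ i₁) with h | ⟨k₀, hk, -⟩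
    · exact absurd h h01
    · exact ⟨k₀, hk⟩
  obtain ⟨p, r, hC, hcol⟩ := col_det L W hpol hk₀
  have hP : ∀ j, Col W p r i₀ j ∧ ∀ l, Det L j l → Col W p r j l := by
    intro j
    induction hconn i₀ j with
    | refl =>
      refine ⟨fun w _ => by ring, fun l hl' => ?_⟩
      by_cases hlk : k₀ = l
      · rw [← hlk]
        exact hcol
      · obtain ⟨p', r', hC', hcol'⟩ := col_det L W hpol hl'
        obtain ⟨e1, e2⟩ := col_eq hm W hc hiso hk₀.1.symm hl'.1 hlk hC hC' hcol.symm hcol'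
        rw [← e1, ← e2]
        exact hcol'
    | @tail j j' _ hjj ih =>
      obtain ⟨h1, h2⟩ := ih
      have h3 := h2 _ hjj
      refine ⟨h1.trans h3, fun l hl' => ?_⟩
      by_cases hlk : j = l
      · rw [← hlk]
        exact h3.symm
      · obtain ⟨p', r', hC', hcol'⟩ := col_det L W hpol hl'
        obtain ⟨e1, e2⟩ := col_eq hm W hc hiso hjj.1 hl'.1 hlk hC hC' h3 hcol'
        rw [← e1, ← e2]
        exact hcol'
  have hz : ∀ w ∈ W, p • w.1 + r • w.2 = 0 := by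
    intro w hw
    refine XX_eq_zero hm _ fun i j => ?_
    have h1 := ((hP i).1.symm.trans (hP j).1) w hw
    change p * w.1.1 i + r * w.2.1 i = p * w.1.1 j + r * w.2.1 j
    have h2 : (p * w.1.1 i + r * w.2.1 i) - (p * w.1.1 j + r * w.2.1 j) = 0 := by
      rw [← h1]
      ring
    exact sub_eq_zero.1 h2
  rcases hC with ⟨rfl, rfl⟩ | ⟨rfl, rfl⟩ | ⟨hl2, rfl, rfl⟩
  · left
    intro w hw
    simpa using hz w hw
  · right
    left
    intro w hw
    simpa using hz w hw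
  · right
    right
    refine ⟨hl2, fun w hw => ?_⟩
    have h1 := hz w hw
    rw [one_smul, one_smul] at h1
    subst hl2
    apply Subtype.ext
    funext k
    have h2 : w.1.1 k + w.2.1 k = 0 := congrFun (congrArg Subtype.val h1) k
    exact (z2b _ _ h2).symm

end Pool.Agent.H94.PM
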