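import Pool.Agent.H94.PM.LAP
import Pool.Agent.H94.PM.CLW

set_option autoImplicit false

/-!
# [H94 PM DC] The data of the equations for the twists of `z ^ ℓ = ∏ (x - A k)`

`S = pf (dl A)`, `N = card (XX m ℓ)`.
* `mlt_symm`: `multiplicity v (A k - A i) = multiplicity v (A i - A k)`.
* `Hs_symm`: cases `k < i`, `i < k`.  `Hs_eq`: `lc (A k - A i) = - lc (A i - A k)`, `lg_neg'`.
* `card_WC`: the map `z ↦ (fun v => locv v z, loci z)` is injective: `ε.2 v` and `ε.1` are components, then `ξ.1` from `loci` and `ξ.2 v` from `locv`.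
  So `Nat.card (WC ..) ≤ ∏ v, Nat.card (Wl v _) * Nat.card (Wi _)` (an injective map into the product of the subspaces).
* `det_DC`: `lap_single` with `e = 0`, `H = mlt v`; `d = mlt v i k ≠ 0`.
-/

namespace Pool.Agent.H94.PM

open Polynomial
open Pool.Agent.H94.PL
open Pool.Agent.H94.PC (Mo Sq Pr pf om Mn mem_Mo mem_Sq mem_Pr mem_pf mem_pf')

variable {F : Type} [Field F] [Finite F] {ℓ m : ℕ} [hl : Fact ℓ.Prime] (χ : LChar F ℓ)

theorem lg2 : χ.lg (-1) + χ.lg (-1) = 0 := lg_neg_add χ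

/-- the multiplicities -/
noncomputable def mlt (ℓ : ℕ) (A : Fin m → F[X]) (v : F[X]) (k i : Fin m) : ZMod ℓ :=
  ((multiplicity v (A k - A i) : ℕ) : ZMod ℓ)

theorem mlt_symm (A : Fin m → F[X]) (v : F[X]) (k i : Fin m) :
    mlt ℓ A v k i = 0 + mlt ℓ A v i k := by
  unfold mlt
  rw [zero_add, ← neg_sub (A i) (A k), multiplicity_neg]

/-- the logarithms of the leading coefficients of `A k - A i` -/
noncomputable def Hs (A : Fin m → F[X]) (k i : Fin m) : ZMod ℓ :=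
  if k < i then χ.lg (A k - A i).leadingCoeff else χ.lg (-1) + χ.lg (A i - A k).leadingCoeff

theorem Hs_symm (A : Fin m → F[X]) (k i : Fin m) (h : k ≠ i) :
    Hs χ A k i = χ.lg (-1) + Hs χ A i k := by
  unfold Hs
  rcases lt_or_gt_of_ne h with h1 | h1
  · rw [if_pos h1, if_neg (not_lt.2 h1.le), ← add_assoc, lg2 χ, zero_add]
  · rw [if_neg (not_lt.2 h1.le), if_pos h1]

theorem Hs_eq {A : Fin m → F[X]} {k i : Fin m} (h : A k ≠ A i) :
    Hs χ A k i = χ.lg (A k - A i).leadingCoeff := by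
  unfold Hs
  split_ifs with h1
  · rfl
  · have h2 : (A i - A k).leadingCoeff ≠ 0 := by
      rw [Ne, leadingCoeff_eq_zero, sub_eq_zero]
      exact fun h3 => h h3.symm
    rw [← lg_neg' χ h2, ← leadingCoeff_neg, neg_sub]

open Classical in
/-- the local data at `v` -/
noncomputable def locv {A : Fin m → F[X]} (v : pf (dl A)) :
    (EE (XX m ℓ) (pf (dl A)) × EE (XX m ℓ) (pf (dl A))) →ₗ[ZMod ℓ] (XX m ℓ × XX m ℓ) where
  toFun z := (z.1.2 v, (v.1.natDegree : ZMod ℓ) • z.1.1 +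
    ∑ v' ∈ Finset.univ.erase v, lm χ v'.1 v.1 • z.1.2 v' + z.2.2 v +
    (χ.lg (-1) * (v.1.natDegree : ZMod ℓ)) • z.2.1)
  map_add' z w := by
    refine Prod.ext rfl ?_
    simp only [Prod.fst_add, Prod.snd_add, Pi.add_apply, smul_add, Finset.sum_add_distrib]
    abel
  map_smul' c z := by
    refine Prod.ext rfl ?_
    simp only [Prod.smul_fst, Prod.smul_snd, Pi.smul_apply, RingHom.id_apply, smul_add,
      Finset.smul_sum]
    simp only [smul_comm c]

/-- the local data at infinity -/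
noncomputable def loci {A : Fin m → F[X]} :
    (EE (XX m ℓ) (pf (dl A)) × EE (XX m ℓ) (pf (dl A))) →ₗ[ZMod ℓ] (XX m ℓ × XX m ℓ) where
  toFun z := (-(∑ v : pf (dl A), (v.1.natDegree : ZMod ℓ) • z.1.2 v + z.2.1), z.1.1)
  map_add' z w := by
    refine Prod.ext ?_ rfl
    simp only [Prod.fst_add, Prod.snd_add, Pi.add_apply, smul_add, Finset.sum_add_distrib]
    abel
  map_smul' c z := by
    refine Prod.ext ?_ rfl
    simp only [Prod.smul_fst, Prod.smul_snd, Pi.smul_apply, RingHom.id_apply, smul_add, smul_neg,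
      Finset.smul_sum]
    simp only [smul_comm c]

/-- the unit logarithm of `c D` at `v`, for `D` of type `t` -/
noncomputable def cls (c : F) {A : Fin m → F[X]} (v : pf (dl A)) (t : Tp ℓ (pf (dl A))) : ZMod ℓ :=
  (v.1.natDegree : ZMod ℓ) * χ.lg c + t.2 v + χ.lg (-1) * ((v.1.natDegree : ZMod ℓ) * t.1)

/-- the local conditions -/
noncomputable def WC (c : F) {A : Fin m → F[X]}
    (Wl : pf (dl A) → ZMod ℓ → Submodule (ZMod ℓ) (XX m ℓ × XX m ℓ))
    (Wi : ZMod ℓ → Submodule (ZMod ℓ) (XX m ℓ × XX m ℓ)) (t : Tp ℓ (pf (dl A))) :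
    Submodule (ZMod ℓ) (EE (XX m ℓ) (pf (dl A)) × EE (XX m ℓ) (pf (dl A))) :=
  (⨅ v, (Wl v (cls χ c v t)).comap (locv χ v)) ⊓ (Wi (-t.1)).comap loci

theorem mem_WC {c : F} {A : Fin m → F[X]}
    {Wl : pf (dl A) → ZMod ℓ → Submodule (ZMod ℓ) (XX m ℓ × XX m ℓ)}
    {Wi : ZMod ℓ → Submodule (ZMod ℓ) (XX m ℓ × XX m ℓ)} {t : Tp ℓ (pf (dl A))}
    {z : EE (XX m ℓ) (pf (dl A)) × EE (XX m ℓ) (pf (dl A))} : z ∈ WC χ c Wl Wi t ↔
      (∀ v, locv χ v z ∈ Wl v (cls χ c v t)) ∧ loci z ∈ Wi (-t.1) := by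
  rw [WC, Submodule.mem_inf, Submodule.mem_iInf]
  rfl

theorem card_WC [Fintype (XX m ℓ)] (c : F) {A : Fin m → F[X]}
    {Wl : pf (dl A) → ZMod ℓ → Submodule (ZMod ℓ) (XX m ℓ × XX m ℓ)}
    {Wi : ZMod ℓ → Submodule (ZMod ℓ) (XX m ℓ × XX m ℓ)}
    (hWl : ∀ v b, Nat.card (Wl v b) ≤ Fintype.card (XX m ℓ))
    (hWi : ∀ b, Nat.card (Wi b) ≤ Fintype.card (XX m ℓ)) (t : Tp ℓ (pf (dl A))) :
    Nat.card (WC χ c Wl Wi t) ≤ Fintype.card (XX m ℓ) ^ (Fintype.card (pf (dl A)) + 1) := by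
  let f : WC χ c Wl Wi t → (∀ v : pf (dl A), Wl v (cls χ c v t)) × Wi (-t.1) := fun z =>
    (fun v => ⟨locv χ v z.1, ((mem_WC χ).1 z.2).1 v⟩, ⟨loci z.1, ((mem_WC χ).1 z.2).2⟩)
  have hf : Function.Injective f := by
    intro z z' h
    have h1 : ∀ v, locv χ v z.1 = locv χ v z'.1 := fun v =>
      congrArg Subtype.val (congrFun (congrArg Prod.fst h) v)
    have h2 : loci z.1 = loci z'.1 := congrArg Subtype.val (congrArg Prod.snd h)
    have a1 : ∀ v, z.1.1.2 v = z'.1.1.2 v := fun v => congrArg Prod.fst (h1 v)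
    have a1' : z.1.1.2 = z'.1.1.2 := funext a1
    have a2 : z.1.1.1 = z'.1.1.1 := congrArg Prod.snd h2
    have a3 : -(∑ v : pf (dl A), (v.1.natDegree : ZMod ℓ) • z.1.1.2 v + z.1.2.1) =
        -(∑ v : pf (dl A), (v.1.natDegree : ZMod ℓ) • z'.1.1.2 v + z'.1.2.1) :=
      congrArg Prod.fst h2
    have a4 : z.1.2.1 = z'.1.2.1 := by
      rw [neg_inj, a1'] at a3
      exact add_left_cancel a3
    have a5 : ∀ v, z.1.2.2 v = z'.1.2.2 v := by
      intro v
      have h3 := congrArg Prod.snd (h1 v)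
      simp only [locv, LinearMap.coe_mk, AddHom.coe_mk] at h3
      rw [a1', a2, a4] at h3
      exact add_left_cancel (add_right_cancel h3)
    exact Subtype.ext (Prod.ext (Prod.ext a2 a1') (Prod.ext a4 (funext a5)))
  have i1 : Finite (XX m ℓ × XX m ℓ) := inferInstance
  have i2 : ∀ v b, Finite (Wl v b) := fun v b => Subtype.finite
  have i3 : Finite (Wi (-t.1)) := Subtype.finite
  have i4 : Finite ((∀ v : pf (dl A), Wl v (cls χ c v t)) × Wi (-t.1)) := Finite.instProd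
  have h1 := Nat.card_le_card_of_injective f hf
  rw [Nat.card_prod, Nat.card_pi] at h1
  refine h1.trans ?_
  rw [pow_succ]
  refine Nat.mul_le_mul ?_ (hWi _)
  calc ∏ v : pf (dl A), Nat.card (Wl v (cls χ c v t)) ≤
      ∏ _v : pf (dl A), Fintype.card (XX m ℓ) := Finset.prod_le_prod' fun v _ => hWl v _
    _ = _ := by rw [Finset.prod_const, Finset.card_univ]

/-- the data -/
noncomputable def DC (c : F) (A : Fin m → F[X])
    (Wl : pf (dl A) → ZMod ℓ → Submodule (ZMod ℓ) (XX m ℓ × XX m ℓ))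
    (Wi : ZMod ℓ → Submodule (ZMod ℓ) (XX m ℓ × XX m ℓ)) : Dat ℓ (XX m ℓ) (pf (dl A)) where
  bet := lap (lg2 χ) (Hs χ A) (Hs_symm χ A) - (χ.lg (-1) + χ.lg c) • LinearMap.id
  L v := lap (add_zero 0) (mlt ℓ A v.1) (fun _ _ _ => mlt_symm A v.1 _ _)
  W := WC χ c Wl Wi

/-- the pair `{i, k}` is detected -/
def Dtc (ℓ : ℕ) {F : Type} [Field F] {m : ℕ} (A : Fin m → F[X]) (i k : Fin m) : Prop :=
  i ≠ k ∧ ∃ v : F[X], Irreducible v ∧ ¬ ℓ ∣ multiplicity v (A i - A k) ∧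
    ∀ a b, a ≠ b → ¬ (a = i ∧ b = k) → ¬ (a = k ∧ b = i) → ¬ v ∣ A a - A b

theorem det_DC (c : F) {A : Fin m → F[X]} (hA : ∀ i k, i ≠ k → A i ≠ A k)
    (Wl : pf (dl A) → ZMod ℓ → Submodule (ZMod ℓ) (XX m ℓ × XX m ℓ))
    (Wi : ZMod ℓ → Submodule (ZMod ℓ) (XX m ℓ × XX m ℓ)) {i k : Fin m} (h : Dtc ℓ A i k) :
    Det (DC χ c A Wl Wi).L i k := by
  obtain ⟨hik, v, hv, hm, h0⟩ := h
  have hAik : A i - A k ≠ 0 := sub_ne_zero.2 (hA i k hik)
  have hv0 : v ≠ 0 := hv.ne_zero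
  have hass0 : Associated (v * C v.leadingCoeff⁻¹) v :=
    associated_mul_unit_left _ _ (isUnit_C.2 (inv_ne_zero (leadingCoeff_ne_zero.2 hv0)).isUnit)
  have hmon0 : (v * C v.leadingCoeff⁻¹).Monic := monic_mul_leadingCoeff_inv hv0
  generalize v * C v.leadingCoeff⁻¹ = u at hass0 hmon0
  have hass : Associated u v := hass0
  have hirr : Irreducible u := hass.irreducible_iff.2 hv
  have hmul : ∀ a, multiplicity u a = multiplicity v a := fun a =>
    multiplicity_eq_of_associated_left hass.symm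
  have hdvd : u ∣ A i - A k := by
    apply dvd_of_multiplicity_pos
    rw [hmul]
    rcases Nat.eq_zero_or_pos (multiplicity v (A i - A k)) with h1 | h1
    · rw [h1] at hm
      exact absurd (dvd_zero ℓ) hm
    · exact h1
  have hdl : dl A ≠ 0 := by
    unfold dl
    rw [Finset.prod_ne_zero_iff]
    intro p hp
    exact sub_ne_zero.2 (hA _ _ (mem_prs.1 hp).ne)
  have hgen : ∀ p ∈ prs m, A p.1 - A p.2 ∣ dl A := by
    intro p hp
    unfold dl
    exact Finset.dvd_prod_of_mem _ hp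
  have hdd : u ∣ dl A := by
    rcases lt_or_gt_of_ne hik with h1 | h1
    · have h3 : (i, k) ∈ prs m := mem_prs.2 h1
      exact dvd_trans hdvd (hgen (i, k) h3)
    · have h3 : (k, i) ∈ prs m := mem_prs.2 h1
      have h2 : u ∣ A k - A i := by
        rw [← neg_sub]
        exact (dvd_neg).2 hdvd
      exact dvd_trans h2 (hgen (k, i) h3)
  refine ⟨hik, ⟨u, (mem_pf hdl).2 ⟨hmon0, hirr, hdd⟩⟩, mlt ℓ A (u) i k, ?_, ?_⟩
  · unfold mlt
    rw [hmul, Ne, ZMod.natCast_eq_zero_iff]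
    exact hm
  · intro x
    refine lap_single (add_zero 0) rfl (mlt ℓ A u) (fun _ _ _ => mlt_symm A u _ _) hik ?_ x
    intro a b hab h1 h2
    unfold mlt
    have h3 : ¬ u ∣ A a - A b := fun h => h0 a b hab h1 h2 ((hass.dvd_iff_dvd_left).1 h)
    rw [multiplicity_eq_zero.2 h3, Nat.cast_zero]

end Pool.Agent.H94.PM
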