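import Pool.Agent.H94.PL.Tvs

set_option autoImplicit false

/-!
# [H94 PM NRM] The descent map with the sign which is needed for `ℓ = 2`

`dvn α D P a = ((-D) ^ α) ^ deg P * P(a)`.
`norm_dvn`: as in `PL.Nrm.norm_dv`: with `n = deg P`, `D ^ n * N ^ ℓ = (-1) ^ (n m) * ∏ P (A k)` where `N` is the norm of `Q` in
`AdjoinRoot P` (copy the proof of `h4` there: it does not use that `ℓ` is odd).  So
`∏ dvn = (-D) ^ (α n m) * (-1) ^ (n m) * D ^ n * N ^ ℓ` up to the inverse sign, i.e.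
`= (-1) ^ (n (α m + m)) * D ^ (n (α m + 1)) * N ^ ℓ`.  `ℓ ∣ α m + 1`: `D ^ (n (α m + 1))` is an `ℓ`-th power.  If `ℓ` is odd,
`-1 = (-1) ^ ℓ`.  If `ℓ = 2` then `α m` is odd, so `α`, `m` are odd and `α m + m` is even: the sign is `1`.
-/

namespace Pool.Agent.H94.PM

open Polynomial
open Pool.Agent.H94.PL (fA IsMum)

variable {M : Type*} [Field M] {m : ℕ}

/-- the value of the descent map -/
noncomputable def dvn (α : ℕ) (D : M) (P : M[X]) (a : M) : M :=
  ((-D) ^ α) ^ P.natDegree * P.eval a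

theorem dvn_one (α : ℕ) (D a : M) : dvn α D 1 a = 1 := by
  rw [dvn, natDegree_one, pow_zero, eval_one, one_mul]

theorem dvn_mul (α : ℕ) (D : M) {P P' : M[X]} (hP : P.Monic) (hP' : P'.Monic) (a : M) :
    dvn α D (P * P') a = dvn α D P a * dvn α D P' a := by
  rw [dvn, dvn, dvn, hP.natDegree_mul hP', pow_add, eval_mul]
  ring

theorem norm_dvn {ℓ α : ℕ} (hℓ : ℓ.Prime) (hα : ℓ ∣ α * m + 1) (D : M) (A : Fin m → M) {P : M[X]}
    (hP : P.Monic) {Q : M[X]} (hPQ : P ∣ C D * Q ^ ℓ - fA A) :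
    ∃ y : M, ∏ k, dvn α D P (A k) = y ^ ℓ := by
  have hfreeP : Module.Free M (AdjoinRoot P) := hP.free_adjoinRoot
  have hfinP : Module.Finite M (AdjoinRoot P) := hP.finite_adjoinRoot
  have hrankP : Module.finrank M (AdjoinRoot P) = P.natDegree :=
    finrank_quotient_span_eq_natDegree' hP
  obtain ⟨h, hh⟩ := hα
  have h1 : AdjoinRoot.mk P (fA A) = algebraMap M (AdjoinRoot P) D * (AdjoinRoot.mk P Q) ^ ℓ := by
    have h0 : algebraMap M (AdjoinRoot P) D = AdjoinRoot.mk P (C D) := rfl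
    rw [h0, ← map_pow, ← map_mul, eq_comm, AdjoinRoot.mk_eq_mk]
    exact hPQ
  have h2 := H94.TC.norm_eq_resultant P hP (fA A)
  rw [h1, map_mul, Algebra.norm_algebraMap, hrankP, map_pow] at h2
  have h3 := H94.PL.res_prod P hP A
  have h4 : D ^ P.natDegree * Algebra.norm M (AdjoinRoot.mk P Q) ^ ℓ =
      (-1) ^ (P.natDegree * m) * ∏ k, P.eval (A k) := h2.trans h3
  set N : M := Algebra.norm M (AdjoinRoot.mk P Q) with hN
  set n : ℕ := P.natDegree with hn
  have h7 : (-1 : M) ^ (n * m) * (-1) ^ (n * m) = 1 := by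
    rw [← mul_pow]; simp
  have h5 : ∏ k, P.eval (A k) = (-1) ^ (n * m) * (D ^ n * N ^ ℓ) := by
    rw [h4, ← mul_assoc, h7, one_mul]
  have h6 : ∏ k, dvn α D P (A k) = (-D) ^ (α * n * m) * ∏ k, P.eval (A k) := by
    have h9 : (((-D) ^ α) ^ n) ^ m = (-D) ^ (α * n * m) := by
      rw [← pow_mul, ← pow_mul]
      congr 1
      ring
    unfold dvn
    rw [Finset.prod_mul_distrib, Finset.prod_const, Finset.card_univ, Fintype.card_fin, h9]
  have h8 : D ^ (α * n * m) * D ^ n = (D ^ (n * h)) ^ ℓ := by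
    rw [← pow_add, ← pow_mul]
    congr 1
    calc α * n * m + n = n * (α * m + 1) := by ring
      _ = n * (ℓ * h) := by rw [hh]
      _ = _ := by ring
  have h10 : ∏ k, dvn α D P (A k) =
      (-1) ^ (α * n * m + n * m) * ((D ^ (n * h)) ^ ℓ * N ^ ℓ) := by
    rw [h6, h5, neg_pow, pow_add, ← h8]
    ring
  have hsgn : ∃ ε : M, (-1 : M) ^ (α * n * m + n * m) = ε ^ ℓ := by
    rcases hℓ.eq_two_or_odd' with h2 | hodd
    · refine ⟨1, ?_⟩
      rw [one_pow]
      have he : Even (α * n * m + n * m) := by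
        have h11 : α * n * m + n * m = n * (m * (α + 1)) := by ring
        rw [h11]
        refine Even.mul_left ?_ n
        have h12 : Odd (α * m) := by
          rw [h2] at hh
          have : Even (α * m + 1) := ⟨h, by omega⟩
          rcases Nat.even_or_odd (α * m) with h13 | h13
          · exact absurd this (Nat.not_even_iff_odd.2 h13.add_one)
          · exact h13
        have h14 : Odd α := (Nat.odd_mul.1 h12).1
        exact Even.mul_left h14.add_one m
      exact he.neg_one_pow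
    · refine ⟨(-1) ^ (α * n * m + n * m), ?_⟩
      rw [← pow_mul, mul_comm _ ℓ, pow_mul, hodd.neg_one_pow]
  obtain ⟨ε, hε⟩ := hsgn
  refine ⟨ε * (D ^ (n * h) * N), ?_⟩
  rw [h10, hε, mul_pow, mul_pow]

end Pool.Agent.H94.PM
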