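import Pool.Agent.H94.PM.ISO1
import Pool.Agent.H94.PM.NRM

set_option autoImplicit false

/-!
# [H94 PM ISO] The image of the descent map is isotropic

`A'` killed by the prime `ℓ`, `ℓ ∣ α m + 1`.
Proof.  Both sides are additive in `P` and in `R` (`dvn_mul`, `Sy.mul_left`), so by `PL.LGood.mum_induct` (the values are nonzero:
`D ≠ 0`, `P (A_k) ≠ 0`) assume `P`, `R` irreducible.
(a) `P = R`: `s x x = s x (-1)`, `∑ s (δ_k) (-1) = s (∏ δ_k) (-1) = s (y ^ ℓ) (-1) = ℓ • _ = 0` (`norm_dvn`; `y ≠ 0`).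
(b) `P ≠ R`, degrees `n, n'`.  Let `P_k = P (A_k)`, `R_k = R (A_k)`, `E = -D`, `δ_k = E ^ (α n) P_k`, `δ'_k = E ^ (α n') R_k`.
`∑ s δ_k δ'_k = ∑ s P_k R_k + α n s E (∏ R_k) + α n' s (∏ P_k) E + α² n n' m s E E`.
From `norm_dvn`: `E ^ (α n' m) ∏ R_k = y ^ ℓ`, so `s E (∏ R_k) = - α n' m s E E` and `s (∏ P_k) E = - α n m s E E`.  Total:
`∑ s P_k R_k - α² n n' m s E E`, and by `iso_irr` `∑ s P_k R_k = n n' (m s (-1) (-1) + s (-1) D)`; `s E E = s E (-1) = s D (-1) + s (-1) (-1)`.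
If `ℓ` is odd: `2 s (-1) x = 0` and `ℓ s (-1) x = 0` give `s (-1) x = 0`, `s x (-1) = 0`, so everything is `0`.
If `ℓ = 2`: `α`, `m` odd, `A'` is killed by `2`: the total is
`n n' (s (-1) (-1) + s (-1) D + s D (-1) + s (-1) (-1)) = n n' (s (-1) D + s D (-1)) = 0` (`skew`).
-/

namespace Pool.Agent.H94.PM

open Polynomial
open Pool.Agent.H94.PL (fA IsMum)

variable {k A' : Type*} [Field k] [AddCommGroup A'] {m : ℕ}

private theorem iso_dvn_ne {α : ℕ} {D : k} (hD : D ≠ 0) {P : k[X]} {a : k} (h : P.eval a ≠ 0) :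
    dvn α D P a ≠ 0 :=
  mul_ne_zero (pow_ne_zero _ (pow_ne_zero _ (neg_ne_zero.2 hD))) h

private theorem iso_norm (s : Sy k A') {ℓ α : ℕ} (hℓ : ℓ.Prime) (hα : ℓ ∣ α * m + 1)
    (hA' : ∀ a : A', ℓ • a = 0) {D : k} (hD : D ≠ 0) (A : Fin m → k) {P Q : k[X]}
    (hP : P.Monic) (hPA : ∀ i, P.eval (A i) ≠ 0) (hPQ : P ∣ C D * Q ^ ℓ - fA A) (z : k)
    (hz : z ≠ 0) : s.s (∏ i, dvn α D P (A i)) z = 0 ∧ s.s z (∏ i, dvn α D P (A i)) = 0 := by
  obtain ⟨y, hy⟩ := norm_dvn hℓ hα D A hP hPQ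
  have h0 : ∏ i, dvn α D P (A i) ≠ 0 := Finset.prod_ne_zero_iff.2 fun i _ => iso_dvn_ne hD (hPA i)
  have hy0 : y ≠ 0 := by
    intro h
    rw [h, zero_pow hℓ.ne_zero] at hy
    exact h0 hy
  rw [hy]
  exact ⟨by rw [s.pow_left hy0 hz, hA'], by rw [s.pow_right hy0 hz, hA']⟩

private theorem iso_self (s : Sy k A') {ℓ α : ℕ} (hℓ : ℓ.Prime) (hα : ℓ ∣ α * m + 1)
    (hA' : ∀ a : A', ℓ • a = 0) {D : k} (hD : D ≠ 0) (A : Fin m → k) {P Q : k[X]}
    (hP : P.Monic) (hPA : ∀ i, P.eval (A i) ≠ 0) (hPQ : P ∣ C D * Q ^ ℓ - fA A) :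
    ∑ i, s.s (dvn α D P (A i)) (dvn α D P (A i)) = 0 := by
  have h1 : ∑ i, s.s (dvn α D P (A i)) (dvn α D P (A i)) =
      ∑ i, s.s (dvn α D P (A i)) (-1) :=
    Finset.sum_congr rfl fun i _ => s.self (iso_dvn_ne hD (hPA i))
  rw [h1, ← s.prod_left Finset.univ _ (fun i _ => iso_dvn_ne hD (hPA i))
    (neg_ne_zero.2 one_ne_zero)]
  exact (iso_norm s hℓ hα hA' hD A hP hPA hPQ (-1) (neg_ne_zero.2 one_ne_zero)).1

private theorem iso_smul {ℓ α n n' m : ℕ} (hℓ : ℓ.Prime) (hα : ℓ ∣ α * m + 1)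
    (hA' : ∀ a : A', ℓ • a = 0) {a b : A'} (ha : a + a = 0) (hb : b + b = 0) :
    ((n * n' * m) • a + (n * n') • b) - (α * n * (α * n' * m)) • (a + -b) = 0 := by
  rcases hℓ.eq_two_or_odd' with h2 | hodd
  · subst h2
    have hodd : Odd (α * m) := by
      obtain ⟨c, hc⟩ := hα
      refine Nat.not_even_iff_odd.1 fun h => ?_
      obtain ⟨e, he⟩ := h
      omega
    obtain ⟨h1, h2⟩ := Nat.odd_mul.1 hodd
    obtain ⟨x, hx⟩ := h1
    obtain ⟨y, hy⟩ := h2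
    have e1 : ∀ z : A', (α * n * (α * n' * m)) • z = (n * n') • z := by
      intro z
      have e2 : α * n * (α * n' * m) = n * n' * (2 * (α * α * y + 2 * x * x + 2 * x) + 1) := by
        have : α * n * (α * n' * m) = n * n' * (α * α * m) := by ring
        rw [this]
        congr 1
        rw [hy, mul_add, mul_one]
        have : α * α = 2 * (2 * x * x + 2 * x) + 1 := by rw [hx]; ring
        calc α * α * (2 * y) + α * α = α * α * (2 * y) + (2 * (2 * x * x + 2 * x) + 1) := by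
              rw [← this]
          _ = _ := by ring
      rw [e2, mul_smul (n * n'), add_smul, one_smul, mul_smul 2, hA', zero_add]
    have e3 : (n * n' * m) • a = (n * n') • a := by
      rw [mul_smul (n * n'), hy, add_smul, one_smul, mul_smul 2, hA', zero_add]
    rw [e1, e3, ← smul_add, ← smul_sub]
    have e4 : a + b - (a + -b) = b + b := by abel
    rw [e4, hb, smul_zero]
  · have key : ∀ z : A', z + z = 0 → z = 0 := by
      intro z hz
      obtain ⟨x, hx⟩ := hodd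
      have h1 := hA' z
      rw [hx, add_smul, one_smul, mul_comm, mul_smul, two_smul, hz, smul_zero, zero_add] at h1
      exact h1
    rw [key a ha, key b hb]
    simp

private theorem iso_pair (s : Sy k A') {ℓ α : ℕ} (hℓ : ℓ.Prime) (hα : ℓ ∣ α * m + 1)
    (hA' : ∀ a : A', ℓ • a = 0) {D : k} (hD : D ≠ 0) (A : Fin m → k) {P Q R Q' : k[X]}
    (hP : P.Monic) (hPi : Irreducible P) (hPA : ∀ i, P.eval (A i) ≠ 0)
    (hPQ : P ∣ C D * Q ^ ℓ - fA A) (hR : R.Monic) (hRi : Irreducible R)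
    (hRA : ∀ i, R.eval (A i) ≠ 0) (hRQ : R ∣ C D * Q' ^ ℓ - fA A) :
    ∑ i, s.s (dvn α D P (A i)) (dvn α D R (A i)) = 0 := by
  by_cases hne : P = R
  · subst hne
    exact iso_self s hℓ hα hA' hD A hP hPA hPQ
  have hE : -D ≠ 0 := neg_ne_zero.2 hD
  have h1 := iso_irr s hℓ.pos hA' hD A hP hPi hPA hPQ hR hRi hRA hRQ hne
  have hPp : ∏ i, P.eval (A i) ≠ 0 := Finset.prod_ne_zero_iff.2 fun i _ => hPA i
  have hRp : ∏ i, R.eval (A i) ≠ 0 := Finset.prod_ne_zero_iff.2 fun i _ => hRA i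
  set n := P.natDegree with hn
  set n' := R.natDegree with hn'
  have hprod : ∀ P : k[X], ∏ i, dvn α D P (A i) =
      (-D) ^ (α * P.natDegree * m) * ∏ i, P.eval (A i) := by
    intro P
    unfold dvn
    rw [Finset.prod_mul_distrib, Finset.prod_const, Finset.card_univ, Fintype.card_fin, ← pow_mul,
      ← pow_mul, mul_assoc]
  have h2 := (iso_norm s hℓ hα hA' hD A hP hPA hPQ (-D) hE).1
  have h3 := (iso_norm s hℓ hα hA' hD A hR hRA hRQ (-D) hE).2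
  rw [hprod, s.mul_left _ _ _ (pow_ne_zero _ hE) hPp hE, s.pow_left hE hE] at h2
  rw [hprod, s.mul_right _ _ _ hE (pow_ne_zero _ hE) hRp, s.pow_right hE hE] at h3
  have hterm : ∀ i, s.s (dvn α D P (A i)) (dvn α D R (A i)) =
      (α * n) • (α * n') • s.s (-D) (-D) + (α * n) • s.s (-D) (R.eval (A i)) +
        ((α * n') • s.s (P.eval (A i)) (-D) + s.s (P.eval (A i)) (R.eval (A i))) := by
    intro i
    unfold dvn
    rw [← pow_mul, ← pow_mul, s.mul_left _ _ _ (pow_ne_zero _ hE) (hPA i)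
      (mul_ne_zero (pow_ne_zero _ hE) (hRA i)), s.mul_right _ _ _ (pow_ne_zero _ hE)
      (pow_ne_zero _ hE) (hRA i), s.mul_right _ _ _ (hPA i) (pow_ne_zero _ hE) (hRA i),
      s.pow_left hE (pow_ne_zero _ hE), s.pow_right hE hE, s.pow_left hE (hRA i),
      s.pow_right hE (hPA i)]
  have hEE : s.s (-D) (-D) = s.s (-1) (-1) + -s.s (-1) D := by
    rw [s.self hE, ← s.skew hD (neg_ne_zero.2 one_ne_zero), ← s.mul_left _ _ _
      (neg_ne_zero.2 one_ne_zero) hD (neg_ne_zero.2 one_ne_zero), neg_one_mul]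
  rw [Finset.sum_congr rfl fun i _ => hterm i, Finset.sum_add_distrib, Finset.sum_add_distrib,
    Finset.sum_add_distrib, Finset.sum_const, Finset.card_univ, Fintype.card_fin,
    ← Finset.smul_sum, ← Finset.smul_sum, ← s.prod_right _ _ (fun i _ => hRA i) hE,
    ← s.prod_left _ _ (fun i _ => hPA i) hE, h1]
  have h4 : s.s (∏ i, P.eval (A i)) (-D) = -((α * n * m) • s.s (-D) (-D)) := by
    rw [eq_neg_iff_add_eq_zero, add_comm]
    exact h2
  have h5 : s.s (-D) (∏ i, R.eval (A i)) = -((α * n' * m) • s.s (-D) (-D)) := by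
    rw [eq_neg_iff_add_eq_zero, add_comm]
    exact h3
  rw [h4, h5]
  have h6 := iso_smul (n := n) (n' := n') hℓ hα hA' (s.neg_one (neg_ne_zero.2 one_ne_zero))
    (s.neg_one hD) (a := s.s (-1) (-1)) (b := s.s (-1) D)
  rw [← hEE] at h6
  rw [← h6]
  module

theorem iso (s : Sy k A') {ℓ α : ℕ} (hℓ : ℓ.Prime) (hα : ℓ ∣ α * m + 1)
    (hA' : ∀ a : A', ℓ • a = 0) {D : k} (hD : D ≠ 0) (A : Fin m → k) {P Q R Q' : k[X]}
    (h : IsMum ℓ D A P Q) (h' : IsMum ℓ D A R Q') :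
    ∑ i, s.s (dvn α D P (A i)) (dvn α D R (A i)) = 0 := by
  obtain ⟨hR, hRA, hRQ⟩ := id h'
  have step1 : ∀ P0 : k[X], P0.Monic → Irreducible P0 → (∀ i, P0.eval (A i) ≠ 0) →
      P0 ∣ C D * Q ^ ℓ - fA A → ∑ i, s.s (dvn α D P0 (A i)) (dvn α D R (A i)) = 0 := by
    intro P0 hP0 hP0i hP0A hP0Q
    refine (Pool.Agent.H94.PL.mum_induct ℓ D A Q' (fun R0 => (∀ i, R0.eval (A i) ≠ 0) ∧
      ∑ i, s.s (dvn α D P0 (A i)) (dvn α D R0 (A i)) = 0) ?_ ?_ ?_ h').2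
    · refine ⟨fun i => by rw [eval_one]; exact one_ne_zero, ?_⟩
      refine Finset.sum_eq_zero fun i _ => ?_
      rw [dvn_one, s.one_right (iso_dvn_ne hD (hP0A i))]
    · rintro R1 R2 hR1 hR2 ⟨h1, h2⟩ ⟨h3, h4⟩
      refine ⟨fun i => by rw [eval_mul]; exact mul_ne_zero (h1 i) (h3 i), ?_⟩
      have h5 : ∀ i, s.s (dvn α D P0 (A i)) (dvn α D (R1 * R2) (A i)) =
          s.s (dvn α D P0 (A i)) (dvn α D R1 (A i)) + s.s (dvn α D P0 (A i)) (dvn α D R2 (A i)) := by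
        intro i
        rw [dvn_mul α D hR1 hR2, s.mul_right _ _ _ (iso_dvn_ne hD (hP0A i))
          (iso_dvn_ne hD (h1 i)) (iso_dvn_ne hD (h3 i))]
      rw [Finset.sum_congr rfl fun i _ => h5 i, Finset.sum_add_distrib, h2, h4, add_zero]
    · intro R1 hR1 hR1i hR1A hR1Q
      exact ⟨hR1A, iso_pair s hℓ hα hA' hD A hP0 hP0i hP0A hP0Q hR1 hR1i hR1A hR1Q⟩
  refine (Pool.Agent.H94.PL.mum_induct ℓ D A Q (fun P0 => (∀ i, P0.eval (A i) ≠ 0) ∧
    ∑ i, s.s (dvn α D P0 (A i)) (dvn α D R (A i)) = 0) ?_ ?_ ?_ h).2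
  · refine ⟨fun i => by rw [eval_one]; exact one_ne_zero, ?_⟩
    refine Finset.sum_eq_zero fun i _ => ?_
    rw [dvn_one, s.one_left (iso_dvn_ne hD (hRA i))]
  · rintro R1 R2 hR1 hR2 ⟨h1, h2⟩ ⟨h3, h4⟩
    refine ⟨fun i => by rw [eval_mul]; exact mul_ne_zero (h1 i) (h3 i), ?_⟩
    have h5 : ∀ i, s.s (dvn α D (R1 * R2) (A i)) (dvn α D R (A i)) =
        s.s (dvn α D R1 (A i)) (dvn α D R (A i)) + s.s (dvn α D R2 (A i)) (dvn α D R (A i)) := by
      intro i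
      rw [dvn_mul α D hR1 hR2, s.mul_left _ _ _ (iso_dvn_ne hD (h1 i)) (iso_dvn_ne hD (h3 i))
        (iso_dvn_ne hD (hRA i))]
    rw [Finset.sum_congr rfl fun i _ => h5 i, Finset.sum_add_distrib, h2, h4, add_zero]
  · intro R1 hR1 hR1i hR1A hR1Q
    exact ⟨hR1A, step1 R1 hR1 hR1i hR1A hR1Q⟩

end Pool.Agent.H94.PM
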