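import Pool.Agent.H94.PM.NRM
import Pool.Agent.H94.PL.Tvs

set_option autoImplicit false

/-!
# [H94 PM TVN] Values of the descent map (sign `-D`), all `ℓ`

`IsVln` is `PL.IsVl` with `dvn` in place of `dv`.  Copy `PL.Tvs`.
* `isVln_ne`: `dvn α D (P i) (A k) ≠ 0`.
* `isVln_scale`: `IsMum ℓ D A P Q` gives `IsMum ℓ (D * y ^ ℓ) A P (C y⁻¹ * Q)`, and `dvn α (D * y ^ ℓ) P a = dvn α D P a * (y ^ (α * deg P)) ^ ℓ`.
* `isVln_T` (`m ≥ 1`, `m ≠ ℓ` as `m` is prime to `ℓ`; `D ≠ 0`, `A` injective): `P` the monic multiple of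
  `G = D (X - A i) ^ (ℓ - 1) - ∏ k ≠ i, (X - A k)`, `Q = X - A i`, `G` divides `D Q ^ ℓ - fA A = (X - A i) G`; this is `PL.isVl_T_poly`, which uses
  `ℓ ≠ 2` at most for `ℓ - 1 ≥ 1` (check; for `ℓ = 2`, `m = 1`: `G = D (X - A i) - 1`, fine).  Values, modulo `ℓ`-th powers, with `ℓ ∣ α m + 1`:
  - `ℓ < m` (`c = -1`, degree `m - 1`): `P (A k) = - D (A k - A i) ^ (ℓ - 1)` (`k ≠ i`), `P (A i) = ∏ (A i - A k')`, so
    `dvn = (-D) ^ (α (m - 1)) * (-D) * (A k - A i) ^ (ℓ - 1) = ((-D) ^ α * (A k - A i))⁻¹ * (..) ^ ℓ` as `α (m - 1) + 1 + α = α m + 1`,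
    and `dvn (A i) = (-D) ^ (α (m - 1)) * ∏ (A i - A k')`;
  - `m < ℓ` (`c = D`, degree `ℓ - 1`): `P (A k) = (A k - A i) ^ (ℓ - 1)`, `P (A i) = (-D)⁻¹ * ∏ (A i - A k')`:
    `dvn (A k) = (-D) ^ (α (ℓ - 1)) * (A k - A i) ^ (ℓ - 1)`, the same modulo `ℓ`-th powers; `dvn (A i) = (-D) ^ (α (ℓ - 1)) * (-D)⁻¹ * ∏`, and
    `α (ℓ - 1) - 1 = α (m - 1) + (α ℓ - (α m + 1))`.
* `isVln_tv`: copy of `PL.isVl_tv` with `-D` in place of `D`: the product over `i` of `T i ^ (- s i)` (or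
  the inverse of the product).  Component `k`: `(-D) ^ (- α (m - 1) s k + α ∑_{i ≠ k} s i) * ∏ i ≠ k, (A k - A i) ^ (s i - s k)` and
  `- α (m - 1) s k + α (S - s k) = - α m s k + α S = s k - (α m + 1) s k + α S`, `S = ∑ s` divisible by `ℓ`.
* `prod_of_isVln`: `norm_dvn`.
-/

namespace Pool.Agent.H94.PM

open Polynomial
open Pool.Agent.H94.PL

/-- values of the descent map -/
def IsVln {M : Type} [Field M] {m : ℕ} (ℓ α : ℕ) (D : M) (A δ : Fin m → M) : Prop :=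
  ∃ (r : ℕ) (P Q : Fin r → M[X]) (γ : Fin m → M),
    (∀ i, IsMum ℓ D A (P i) (Q i)) ∧ (∀ k, γ k ≠ 0) ∧
      ∀ k, δ k * γ k ^ ℓ = ∏ i, dvn α D (P i) (A k)

variable {M : Type} [Field M] {m ℓ α : ℕ}

theorem dvn_ne {D : M} (hD : D ≠ 0) {A : Fin m → M} {P Q : M[X]} (h : IsMum ℓ D A P Q)
    (k : Fin m) : dvn α D P (A k) ≠ 0 := by
  rw [dvn]
  exact mul_ne_zero (pow_ne_zero _ (pow_ne_zero _ (neg_ne_zero.2 hD))) (h.2.1 k)

theorem isVln_ne {D : M} (hD : D ≠ 0) {A δ : Fin m → M} (h : IsVln ℓ α D A δ) (k : Fin m) :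
    δ k ≠ 0 := by
  obtain ⟨r, P, Q, γ, h1, h2, h3⟩ := h
  intro h0
  have h4 := h3 k
  rw [h0, zero_mul] at h4
  exact Finset.prod_ne_zero_iff.2 (fun i _ => dvn_ne hD (h1 i) k) h4.symm

theorem isVln_one (D : M) (A : Fin m → M) : IsVln ℓ α D A 1 := by
  refine ⟨0, Fin.elim0, Fin.elim0, fun _ => 1, fun i => i.elim0, fun _ => one_ne_zero, fun k => ?_⟩
  rw [Pi.one_apply, one_pow, one_mul, Finset.univ_eq_empty, Finset.prod_empty]

theorem isVln_mul {D : M} {A δ δ' : Fin m → M} (h : IsVln ℓ α D A δ) (h' : IsVln ℓ α D A δ') :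
    IsVln ℓ α D A (δ * δ') := by
  obtain ⟨r, P, Q, γ, h1, h2, h3⟩ := h
  obtain ⟨r', P', Q', γ', h1', h2', h3'⟩ := h'
  refine ⟨r + r', Fin.append P P', Fin.append Q Q', fun k => γ k * γ' k, ?_,
    fun k => mul_ne_zero (h2 k) (h2' k), ?_⟩
  · intro i
    refine Fin.addCases (fun j => ?_) (fun j => ?_) i
    · rw [Fin.append_left, Fin.append_left]
      exact h1 j
    · rw [Fin.append_right, Fin.append_right]
      exact h1' j
  · intro k
    rw [Fin.prod_univ_add]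
    have e1 : ∏ i : Fin r, dvn α D (Fin.append P P' (Fin.castAdd r' i)) (A k) =
        ∏ i : Fin r, dvn α D (P i) (A k) :=
      Finset.prod_congr rfl fun i _ => by rw [Fin.append_left]
    have e2 : ∏ i : Fin r', dvn α D (Fin.append P P' (Fin.natAdd r i)) (A k) =
        ∏ i : Fin r', dvn α D (P' i) (A k) :=
      Finset.prod_congr rfl fun i _ => by rw [Fin.append_right]
    rw [e1, e2, ← h3 k, ← h3' k, Pi.mul_apply]
    ring

theorem isVln_congr {D : M} {A δ γ : Fin m → M} (h : IsVln ℓ α D A δ) (hγ : ∀ k, γ k ≠ 0) :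
    IsVln ℓ α D A (fun k => δ k * γ k ^ ℓ) := by
  obtain ⟨r, P, Q, γ₀, h1, h2, h3⟩ := h
  refine ⟨r, P, Q, fun k => γ₀ k / γ k, h1, fun k => div_ne_zero (h2 k) (hγ k), fun k => ?_⟩
  rw [← h3 k, div_pow]
  have h4 : γ k ^ ℓ ≠ 0 := pow_ne_zero _ (hγ k)
  field_simp

theorem isVln_pow {D : M} {A δ : Fin m → M} (h : IsVln ℓ α D A δ) (n : ℕ) :
    IsVln ℓ α D A (fun k => δ k ^ n) := by
  induction n with
  | zero =>
    have h1 := isVln_one (ℓ := ℓ) (α := α) D A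
    have h2 : (fun k => δ k ^ 0) = (1 : Fin m → M) := by
      funext k
      rw [pow_zero, Pi.one_apply]
    rw [h2]
    exact h1
  | succ n ih =>
    have h1 := isVln_mul ih h
    have h2 : (fun k => δ k ^ (n + 1)) = (fun k => δ k ^ n) * δ := by
      funext k
      rw [Pi.mul_apply, pow_succ]
    rw [h2]
    exact h1

theorem isVln_prod {D : M} {A : Fin m → M} {ι : Type*} (t : Finset ι) (δ : ι → Fin m → M)
    (h : ∀ i ∈ t, IsVln ℓ α D A (δ i)) : IsVln ℓ α D A (fun k => ∏ i ∈ t, δ i k) := by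
  classical
  induction t using Finset.induction_on with
  | empty =>
    have h1 := isVln_one (ℓ := ℓ) (α := α) D A
    have h2 : (fun k => ∏ i ∈ (∅ : Finset ι), δ i k) = (1 : Fin m → M) := by
      funext k
      rw [Finset.prod_empty, Pi.one_apply]
    rw [h2]
    exact h1
  | insert a t ha ih =>
    have h1 := isVln_mul (h a (Finset.mem_insert_self a t))
      (ih fun i hi => h i (Finset.mem_insert_of_mem hi))
    have h2 : (fun k => ∏ i ∈ insert a t, δ i k) = δ a * (fun k => ∏ i ∈ t, δ i k) := by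
      funext k
      rw [Pi.mul_apply, Finset.prod_insert ha]
    rw [h2]
    exact h1

theorem isVln_scale {D y : M} (hy : y ≠ 0) {A δ : Fin m → M} (h : IsVln ℓ α D A δ) :
    IsVln ℓ α (D * y ^ ℓ) A δ := by
  obtain ⟨r, P, Q, γ, h1, h2, h3⟩ := h
  refine ⟨r, P, fun i => C y⁻¹ * Q i, fun k => γ k * ∏ i, (y ^ α) ^ (P i).natDegree,
    fun i => ⟨(h1 i).1, (h1 i).2.1, ?_⟩, fun k => mul_ne_zero (h2 k)
    (Finset.prod_ne_zero_iff.2 fun i _ => pow_ne_zero _ (pow_ne_zero _ hy)), fun k => ?_⟩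
  · have e1 : C (D * y ^ ℓ) * (C y⁻¹ * Q i) ^ ℓ = C D * Q i ^ ℓ := by
      rw [mul_pow, ← C_pow, ← mul_assoc, ← C_mul, mul_assoc D, ← mul_pow, mul_inv_cancel₀ hy,
        one_pow, mul_one]
    rw [e1]
    exact (h1 i).2.2
  · rw [mul_pow, ← mul_assoc, h3 k, ← Finset.prod_pow, ← Finset.prod_mul_distrib]
    refine Finset.prod_congr rfl fun i _ => ?_
    have e2 : (-(D * y ^ ℓ)) = (-D) * y ^ ℓ := by ring
    rw [dvn, dvn, e2, mul_pow, mul_pow]
    have e3 : ((y ^ ℓ) ^ α) ^ (P i).natDegree = ((y ^ α) ^ (P i).natDegree) ^ ℓ := by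
      rw [← pow_mul, ← pow_mul, ← pow_mul, ← pow_mul]
      congr 1
      ring
    rw [e3]
    ring

/-- the polynomial of the class `T_i` -/
private theorem isVln_T_poly (hℓ : ℓ.Prime) (hm : Nat.Coprime m ℓ) {D : M}
    (hD : D ≠ 0) {A : Fin m → M} (hA : ∀ i k, i ≠ k → A i ≠ A k) (i : Fin m) :
    ∃ (P : M[X]) (c : M), IsMum ℓ D A P (X - C (A i)) ∧
      ((m < ℓ ∧ c = D ∧ P.natDegree = ℓ - 1) ∨ (ℓ < m ∧ c = -1 ∧ P.natDegree = m - 1)) ∧
      (∀ k, k ≠ i → P.eval (A k) = c⁻¹ * (D * (A k - A i) ^ (ℓ - 1))) ∧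
      P.eval (A i) = c⁻¹ * -∏ k' ∈ Finset.univ.erase i, (A i - A k') := by
  have hℓ1 : ℓ - 1 ≠ 0 := by
    have := hℓ.two_le
    omega
  have hm0 : 0 < m := i.pos
  obtain ⟨R, hR⟩ : ∃ R : M[X], R = ∏ k ∈ Finset.univ.erase i, (X - C (A k)) := ⟨_, rfl⟩
  have hRm : R.Monic := by
    rw [hR]
    exact monic_prod_of_monic _ _ fun k _ => monic_X_sub_C _
  have hRd : R.natDegree = m - 1 := by
    rw [hR, natDegree_prod_of_monic _ _ fun k _ => monic_X_sub_C _]
    simp [Finset.card_erase_of_mem]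
  have hRe : ∀ k, k ≠ i → R.eval (A k) = 0 := by
    intro k hk
    rw [hR, eval_prod]
    exact Finset.prod_eq_zero (Finset.mem_erase.2 ⟨hk, Finset.mem_univ _⟩) (by simp)
  have hRi : R.eval (A i) = ∏ k' ∈ Finset.univ.erase i, (A i - A k') := by
    rw [hR, eval_prod]
    refine Finset.prod_congr rfl fun k _ => by simp
  have hRi0 : ∏ k' ∈ Finset.univ.erase i, (A i - A k') ≠ 0 := by
    rw [Finset.prod_ne_zero_iff]
    intro k hk
    exact sub_ne_zero.2 (hA i k (Finset.ne_of_mem_erase hk).symm)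
  obtain ⟨S, hS⟩ : ∃ S : M[X], S = C D * (X - C (A i)) ^ (ℓ - 1) := ⟨_, rfl⟩
  have hSd : S.natDegree = ℓ - 1 := by
    rw [hS, natDegree_C_mul hD, natDegree_pow, natDegree_X_sub_C, mul_one]
  have hSl : S.leadingCoeff = D := by
    rw [hS, leadingCoeff_mul, leadingCoeff_C, leadingCoeff_pow, leadingCoeff_X_sub_C, one_pow,
      mul_one]
  have hS0 : S ≠ 0 := by
    intro h0
    rw [h0, leadingCoeff_zero] at hSl
    exact hD hSl.symm
  have hSe : ∀ k, S.eval (A k) = D * (A k - A i) ^ (ℓ - 1) := by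
    intro k
    rw [hS]
    simp
  obtain ⟨G, hG⟩ : ∃ G : M[X], G = S - R := ⟨_, rfl⟩
  have hGmul : (X - C (A i)) * G = C D * (X - C (A i)) ^ ℓ - fA A := by
    have h4 : fA A = (X - C (A i)) * R := by
      rw [fA, hR, Finset.mul_prod_erase Finset.univ (fun k => X - C (A k)) (Finset.mem_univ i)]
    have h5 : (X - C (A i)) ^ ℓ = (X - C (A i)) ^ (ℓ - 1) * (X - C (A i)) := by
      rw [← pow_succ]
      congr 1
      omega
    rw [h4, h5, hG, hS]
    ring
  have hmℓ : m ≠ ℓ := by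
    intro h0
    rw [h0, Nat.coprime_self] at hm
    exact hℓ.one_lt.ne' hm
  have hGk : ∀ k, k ≠ i → G.eval (A k) = D * (A k - A i) ^ (ℓ - 1) := by
    intro k hk
    rw [hG, eval_sub, hSe, hRe k hk, sub_zero]
  have hGi : G.eval (A i) = -∏ k' ∈ Finset.univ.erase i, (A i - A k') := by
    rw [hG, eval_sub, hSe, hRi, sub_self, zero_pow hℓ1, mul_zero, zero_sub]
  have hmain : ∀ c : M, c ≠ 0 → G.leadingCoeff = c →
      ((m < ℓ ∧ c = D ∧ G.natDegree = ℓ - 1) ∨ (ℓ < m ∧ c = -1 ∧ G.natDegree = m - 1)) →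
      ∃ (P : M[X]) (c : M), IsMum ℓ D A P (X - C (A i)) ∧
      ((m < ℓ ∧ c = D ∧ P.natDegree = ℓ - 1) ∨ (ℓ < m ∧ c = -1 ∧ P.natDegree = m - 1)) ∧
      (∀ k, k ≠ i → P.eval (A k) = c⁻¹ * (D * (A k - A i) ^ (ℓ - 1))) ∧
      P.eval (A i) = c⁻¹ * -∏ k' ∈ Finset.univ.erase i, (A i - A k') := by
    intro c hc hlc hcase
    have hc' : c⁻¹ ≠ 0 := inv_ne_zero hc
    refine ⟨C c⁻¹ * G, c, ⟨?_, ?_, ?_⟩, ?_, ?_, ?_⟩
    · rw [Monic, leadingCoeff_mul, leadingCoeff_C, hlc, inv_mul_cancel₀ hc]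
    · intro k
      rw [eval_mul, eval_C]
      refine mul_ne_zero hc' ?_
      by_cases hk : k = i
      · rw [hk, hGi]
        exact neg_ne_zero.2 hRi0
      · rw [hGk k hk]
        exact mul_ne_zero hD (pow_ne_zero _ (sub_ne_zero.2 (hA k i hk)))
    · rw [← hGmul]
      refine ⟨C c * (X - C (A i)), ?_⟩
      have h6 : (C c⁻¹ : M[X]) * C c = 1 := by
        rw [← C_mul, inv_mul_cancel₀ hc, C_1]
      linear_combination (-(X - C (A i)) * G) * h6
    · rw [natDegree_C_mul hc']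
      exact hcase
    · intro k hk
      rw [eval_mul, eval_C, hGk k hk]
    · rw [eval_mul, eval_C, hGi]
  rcases lt_or_gt_of_ne hmℓ with hlt | hlt
  · have hdeg : R.natDegree < S.natDegree := by
      rw [hRd, hSd]
      omega
    have hdeg' : R.degree < S.degree := degree_lt_degree hdeg
    refine hmain D hD ?_ (Or.inl ⟨hlt, rfl, ?_⟩)
    · rw [hG, leadingCoeff_sub_of_degree_lt hdeg', hSl]
    · rw [hG, natDegree_sub_eq_left_of_natDegree_lt hdeg, hSd]
  · have hdeg : S.natDegree < R.natDegree := by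
      rw [hRd, hSd]
      omega
    have hdeg' : S.degree < R.degree := degree_lt_degree hdeg
    refine hmain (-1) (neg_ne_zero.2 one_ne_zero) ?_ (Or.inr ⟨hlt, rfl, ?_⟩)
    · rw [hG, leadingCoeff_sub_of_degree_lt' hdeg', hRm.leadingCoeff]
    · rw [hG, natDegree_sub_eq_right_of_natDegree_lt hdeg, hRd]

theorem isVln_T (hℓ : ℓ.Prime) (hm : Nat.Coprime m ℓ) (hα : ℓ ∣ α * m + 1) {D : M}
    (hD : D ≠ 0) {A : Fin m → M} (hA : ∀ i k, i ≠ k → A i ≠ A k) (i : Fin m) :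
    IsVln ℓ α D A (fun k => if k = i then
      (-D) ^ (α * (m - 1)) * ∏ k' ∈ Finset.univ.erase i, (A i - A k')
      else ((-D) ^ α * (A k - A i))⁻¹) := by
  obtain ⟨P, c, hP, hcase, hk, hi⟩ := isVln_T_poly hℓ hm hD hA i
  obtain ⟨h, hh⟩ := hα
  have hm0 : 0 < m := i.pos
  have hℓ0 := hℓ.two_le
  have hdiff : ∀ k, k ≠ i → A k - A i ≠ 0 := fun k hki => sub_ne_zero.2 (hA k i hki)
  obtain ⟨E, hE⟩ : ∃ E : M, E = -D := ⟨_, rfl⟩
  have hE0 : E ≠ 0 := by
    rw [hE]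
    exact neg_ne_zero.2 hD
  rw [← hE]
  rcases hcase with ⟨hlt, hc, hdeg⟩ | ⟨hlt, hc, hdeg⟩
  · -- `m < ℓ`
    refine ⟨1, fun _ => P, fun _ => X - C (A i),
      fun k => if k = i then E ^ ((α : ℤ) - h) else E ^ α * (A k - A i), fun _ => hP, ?_, ?_⟩
    · intro k
      dsimp only
      by_cases hki : k = i
      · rw [if_pos hki]
        exact zpow_ne_zero _ hE0
      · rw [if_neg hki]
        exact mul_ne_zero (pow_ne_zero _ hE0) (hdiff k hki)
    · intro k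
      rw [Fin.prod_univ_one]
      dsimp only
      by_cases hki : k = i
      · have e0 : (E ^ ((α : ℤ) - h)) ^ ℓ = E ^ (((α : ℤ) - h) * (ℓ : ℤ)) := by
          rw [← zpow_natCast, ← zpow_mul]
        rw [if_pos hki, if_pos hki, hki, dvn, hi, hdeg, hc, e0, ← hE]
        obtain ⟨Pi1, hPi1⟩ : ∃ Pi1 : M, Pi1 = ∏ k' ∈ Finset.univ.erase i, (A i - A k') := ⟨_, rfl⟩
        rw [← hPi1]
        have e1 : E ^ (α * (m - 1)) * E ^ (((α : ℤ) - h) * (ℓ : ℤ)) = (E ^ α) ^ (ℓ - 1) * E⁻¹ := by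
          rw [← zpow_natCast E (α * (m - 1)), ← zpow_add₀ hE0, ← pow_mul, ← zpow_natCast,
            ← zpow_neg_one, ← zpow_add₀ hE0]
          congr 1
          have e2 : ((m - 1 : ℕ) : ℤ) = m - 1 := by
            rw [Nat.cast_sub hm0]
            norm_num
          have e3 : ((ℓ - 1 : ℕ) : ℤ) = ℓ - 1 := by
            rw [Nat.cast_sub hℓ.one_lt.le]
            norm_num
          have e4 : (α : ℤ) * m + 1 = ℓ * h := by exact_mod_cast hh
          push_cast [e2, e3]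
          linear_combination e4
        have e5 : D⁻¹ * -Pi1 = E⁻¹ * Pi1 := by
          rw [hE, inv_neg]
          ring
        rw [e5]
        linear_combination Pi1 * e1
      · rw [if_neg hki, if_neg hki, dvn, hk k hki, hdeg, hc, ← hE]
        have e1 : (E ^ α * (A k - A i)) ^ ℓ =
            (E ^ α * (A k - A i)) ^ (ℓ - 1) * (E ^ α * (A k - A i)) := by
          rw [← pow_succ]
          congr 1
          omega
        have e2 : E ^ α * (A k - A i) ≠ 0 := mul_ne_zero (pow_ne_zero _ hE0) (hdiff k hki)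
        rw [e1, mul_comm, mul_assoc, mul_inv_cancel₀ e2, mul_one, mul_pow, ← mul_assoc D⁻¹,
          inv_mul_cancel₀ hD, one_mul]
  · -- `ℓ < m`
    refine ⟨1, fun _ => P, fun _ => X - C (A i),
      fun k => if k = i then 1 else E ^ h * (A k - A i), fun _ => hP, ?_, ?_⟩
    · intro k
      dsimp only
      by_cases hki : k = i
      · rw [if_pos hki]
        exact one_ne_zero
      · rw [if_neg hki]
        exact mul_ne_zero (pow_ne_zero _ hE0) (hdiff k hki)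
    · intro k
      rw [Fin.prod_univ_one]
      dsimp only
      by_cases hki : k = i
      · rw [if_pos hki, if_pos hki, hki, dvn, hi, hdeg, hc, one_pow, ← pow_mul, ← hE]
        have e1 : (-1 : M)⁻¹ = -1 := by norm_num
        rw [e1]
        ring
      · rw [if_neg hki, if_neg hki, dvn, hk k hki, hdeg, hc, ← hE]
        have e0 : (-1 : M)⁻¹ * (D * (A k - A i) ^ (ℓ - 1)) = E * (A k - A i) ^ (ℓ - 1) := by
          have e1 : (-1 : M)⁻¹ = -1 := by norm_num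
          rw [e1, hE]
          ring
        have e1 : (A k - A i) ^ ℓ = (A k - A i) ^ (ℓ - 1) * (A k - A i) := by
          rw [← pow_succ]
          congr 1
          omega
        have e2 := hdiff k hki
        have e3 : E ^ α * ((E ^ α) ^ (m - 1) * E) = (E ^ h) ^ ℓ := by
          rw [← mul_assoc, ← pow_succ', ← pow_mul, ← pow_mul, ← pow_succ]
          congr 1
          have : m - 1 + 1 = m := by omega
          rw [this, hh]
          ring
        rw [e0, mul_pow, e1, ← e3]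
        field_simp

theorem isVln_tv (hℓ : ℓ.Prime) (hm : Nat.Coprime m ℓ) (hα : ℓ ∣ α * m + 1) {D : M}
    (hD : D ≠ 0) {A : Fin m → M} (hA : ∀ i k, i ≠ k → A i ≠ A k) (s : Fin m → ℤ)
    (hs : (ℓ : ℤ) ∣ ∑ k, s k) : IsVln ℓ α D A (tv (-D) A s) := by
  classical
  obtain ⟨N', hN'⟩ := hs
  obtain ⟨h, hh⟩ := hα
  have hℓZ : (0 : ℤ) < ℓ := by exact_mod_cast hℓ.pos
  obtain ⟨E, hE⟩ : ∃ E : M, E = -D := ⟨_, rfl⟩
  have hE0 : E ≠ 0 := by
    rw [hE]
    exact neg_ne_zero.2 hD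
  rw [← hE]
  -- the exponents
  have hn : ∀ k, ∃ (n : ℕ) (t : ℤ), (n : ℤ) = -s k + ℓ * t := by
    intro k
    refine ⟨((-s k) % ℓ).toNat, -((-s k) / ℓ), ?_⟩
    rw [Int.toNat_of_nonneg (Int.emod_nonneg _ hℓZ.ne')]
    have := Int.emod_add_mul_ediv (-s k) ℓ
    linear_combination this
  choose n t hnt using hn
  have hdiff : ∀ i k, i ≠ k → A i - A k ≠ 0 := fun i k hki => sub_ne_zero.2 (hA i k hki)
  have hV := isVln_prod (ℓ := ℓ) (α := α) (D := D) (A := A) Finset.univ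
    (fun i k => (if k = i then
      E ^ (α * (m - 1)) * ∏ k' ∈ Finset.univ.erase i, (A i - A k')
      else (E ^ α * (A k - A i))⁻¹) ^ n i)
    (fun i _ => isVln_pow (hE ▸ isVln_T hℓ hm ⟨h, hh⟩ hD hA i) (n i))
  -- the value at `k`
  have hval : ∀ k, ∏ i, (if k = i then
      E ^ (α * (m - 1)) * ∏ k' ∈ Finset.univ.erase i, (A i - A k')
      else (E ^ α * (A k - A i))⁻¹) ^ n i =
      E ^ ((α : ℤ) * m * n k - α * ∑ i, (n i : ℤ)) *
        ∏ i ∈ Finset.univ.erase k, (A k - A i) ^ ((n k : ℤ) - n i) := by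
    intro k
    have hm0 : 0 < m := k.pos
    rw [← Finset.mul_prod_erase Finset.univ _ (Finset.mem_univ k), if_pos rfl]
    have e1 : ∏ i ∈ Finset.univ.erase k, (if k = i then
        E ^ (α * (m - 1)) * ∏ k' ∈ Finset.univ.erase i, (A i - A k')
        else (E ^ α * (A k - A i))⁻¹) ^ n i =
        E ^ (-((α : ℤ) * ∑ i ∈ Finset.univ.erase k, (n i : ℤ))) *
          ∏ i ∈ Finset.univ.erase k, (A k - A i) ^ (-(n i : ℤ)) := by
      have e2 : E ^ (-((α : ℤ) * ∑ i ∈ Finset.univ.erase k, (n i : ℤ))) =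
          ∏ i ∈ Finset.univ.erase k, E ^ (-((α : ℤ) * n i)) := by
        rw [ldt_zprod hE0, Finset.sum_neg_distrib, Finset.mul_sum]
      rw [e2, ← Finset.prod_mul_distrib]
      refine Finset.prod_congr rfl fun i hi => ?_
      have hik : k ≠ i := (Finset.ne_of_mem_erase hi).symm
      rw [if_neg hik, ← zpow_natCast, inv_zpow, mul_zpow, mul_inv, ← zpow_natCast E α, ← zpow_mul,
        ← zpow_neg, ← zpow_neg]
    have e3 : ((m - 1 : ℕ) : ℤ) = m - 1 := by
      rw [Nat.cast_sub hm0]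
      norm_num
    have e4 : ∑ i, (n i : ℤ) = n k + ∑ i ∈ Finset.univ.erase k, (n i : ℤ) :=
      (Finset.add_sum_erase Finset.univ (fun i => (n i : ℤ)) (Finset.mem_univ k)).symm
    have e5 : E ^ ((α : ℤ) * m * n k - α * ∑ i, (n i : ℤ)) =
        (E ^ (α * (m - 1))) ^ n k * E ^ (-((α : ℤ) * ∑ i ∈ Finset.univ.erase k, (n i : ℤ))) := by
      rw [← pow_mul, ← zpow_natCast, ← zpow_add₀ hE0, e4]
      congr 1
      push_cast [e3]
      ring
    have e6 : ∏ i ∈ Finset.univ.erase k, (A k - A i) ^ ((n k : ℤ) - n i) =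
        (∏ i ∈ Finset.univ.erase k, (A k - A i)) ^ n k *
          ∏ i ∈ Finset.univ.erase k, (A k - A i) ^ (-(n i : ℤ)) := by
      rw [← Finset.prod_pow, ← Finset.prod_mul_distrib]
      refine Finset.prod_congr rfl fun i hi => ?_
      have hik : k ≠ i := (Finset.ne_of_mem_erase hi).symm
      rw [sub_eq_add_neg (n k : ℤ), zpow_add₀ (hdiff k i hik), zpow_natCast]
    rw [e1, e5, e6, mul_pow]
    ring
  have hNsum : ∑ i, (n i : ℤ) = ℓ * (∑ i, t i - N') := by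
    rw [Finset.sum_congr rfl fun i _ => hnt i, Finset.sum_add_distrib, Finset.sum_neg_distrib, hN',
      ← Finset.mul_sum]
    ring
  have hγ0 : ∀ k, E ^ (-((h : ℤ) * n k - t k - α * (∑ i, t i - N'))) *
      ∏ i ∈ Finset.univ.erase k, (A k - A i) ^ (-(t k - t i)) ≠ 0 := by
    intro k
    refine mul_ne_zero (zpow_ne_zero _ hE0) (Finset.prod_ne_zero_iff.2 fun i hi => ?_)
    exact zpow_ne_zero _ (hdiff k i (Finset.ne_of_mem_erase hi).symm)
  have hfin := isVln_congr hV hγ0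
  have hfun : (fun k => (∏ i, (if k = i then
      E ^ (α * (m - 1)) * ∏ k' ∈ Finset.univ.erase i, (A i - A k')
      else (E ^ α * (A k - A i))⁻¹) ^ n i) *
      (E ^ (-((h : ℤ) * n k - t k - α * (∑ i, t i - N'))) *
      ∏ i ∈ Finset.univ.erase k, (A k - A i) ^ (-(t k - t i))) ^ ℓ) = tv E A s := by
    funext k
    rw [hval k, tv, mul_pow, ← Finset.prod_pow]
    have e1 : E ^ ((α : ℤ) * m * n k - α * ∑ i, (n i : ℤ)) *
        (E ^ (-((h : ℤ) * n k - t k - α * (∑ i, t i - N')))) ^ ℓ = E ^ s k := by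
      rw [← zpow_natCast, ← zpow_mul, ← zpow_add₀ hE0]
      congr 1
      have e4 : (α : ℤ) * m + 1 = ℓ * h := by exact_mod_cast hh
      rw [hNsum]
      have e5 := hnt k
      linear_combination (n k : ℤ) * e4 - e5
    have e2 : (∏ i ∈ Finset.univ.erase k, (A k - A i) ^ ((n k : ℤ) - n i)) *
        ∏ i ∈ Finset.univ.erase k, ((A k - A i) ^ (-(t k - t i))) ^ ℓ =
        ∏ i ∈ Finset.univ.erase k, (A k - A i) ^ (s i - s k) := by
      rw [← Finset.prod_mul_distrib]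
      refine Finset.prod_congr rfl fun i hi => ?_
      have hik : k ≠ i := (Finset.ne_of_mem_erase hi).symm
      rw [← zpow_natCast, ← zpow_mul, ← zpow_add₀ (hdiff k i hik)]
      congr 1
      linear_combination hnt k - hnt i
    rw [← e1, ← e2]
    ring
  rw [hfun] at hfin
  exact hfin

theorem prod_of_isVln (hℓ : ℓ.Prime) (hα : ℓ ∣ α * m + 1) {D : M}
    {A δ : Fin m → M} (h : IsVln ℓ α D A δ) : ∃ y : M, ∏ k, δ k = y ^ ℓ := by
  obtain ⟨r, P, Q, γ, h1, hγ, h3⟩ := h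
  have hy : ∀ i, ∃ y : M, ∏ k, dvn α D (P i) (A k) = y ^ ℓ := fun i =>
    norm_dvn hℓ hα D A (h1 i).1 (h1 i).2.2
  choose y hy using hy
  refine ⟨(∏ i, y i) / ∏ k, γ k, ?_⟩
  have h4 : (∏ k, δ k) * (∏ k, γ k) ^ ℓ = (∏ i, y i) ^ ℓ := by
    rw [← Finset.prod_pow, ← Finset.prod_mul_distrib, Finset.prod_congr rfl fun k _ => h3 k,
      Finset.prod_comm, ← Finset.prod_pow]
    exact Finset.prod_congr rfl fun i _ => hy i
  rw [div_pow, ← h4, mul_div_cancel_right₀]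
  exact pow_ne_zero _ (Finset.prod_ne_zero_iff.2 fun k _ => hγ k)

end Pool.Agent.H94.PM
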