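import Pool.Agent.H94.PM.HEN
import Pool.Agent.H94.PM.TVN
import Pool.Agent.H94.PM.ISO
import Pool.Agent.H94.PL.Syg
import Pool.Agent.H94.PL.Sd

set_option autoImplicit false

/-!
# [H94 PM GAM] The group of the logarithms of the values over a local field

* `ee_nondeg`: take `g' = (0, u)`: `B g.1 u = 0` for all `u`, so `g.1 = 0` (`BB_good`); then `g' = (a, 0)`: `g.2 = 0`.
* `iso_card_le`: `W ≤ W.orthogonal` and `dim W + dim W^⊥ = dim V` (`LinearMap.BilinForm.finrank_orthogonal` or as in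
  `PL.la_fin_perp`; `b` need not be symmetric: use the right orthogonal `{y | ∀ x ∈ W, b x y = 0}`, e.g. the kernel of the surjective map `V → Dual W`,
  which is surjective since `V → Dual V` is bijective and `Dual V → Dual W` surjective).
* `lgs_fst`, `lgs_snd`: `PL.toX_apply`; the sum is zero: `∏ δ k = y ^ ℓ`, `vl`, `un` of it.
* `gam_iso`: for generators: `δ * γ ^ ℓ = ∏ dvn (P i)`, `δ' * γ' ^ ℓ = ∏ dvn (R j)`.  `∑ k, hs (δ k) (δ' k) = ∑ k, hs (δ k * γ k ^ ℓ) (δ' k * γ' k ^ ℓ)`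
  (`LU.hs_pow`) `= ∑ i, ∑ j, ∑ k, hs (dvn (P i) (A k)) (dvn (R j) (A k)) = 0` (`Sy.prod_left`, `prod_right`, `iso` with `U.sy`), and the first sum is
  `ee (un (-1)) (lgs δ) (lgs δ')`.  Then `Submodule.span_induction` twice.
* `gam_card`: `iso_card_le` with `V = XX × XX`: `card Gam ^ 2 ≤ card XX ^ 2`.
* `gam_congr`: `D' / D = y ^ ℓ` by `pow_of_lu`; `isVln_scale` (in both directions, `y⁻¹`).
* `vl_tv`, `un_tv`: `tv (-D) A s k = (-D) ^ s k * ∏ i ≠ k, (A k - A i) ^ (s i - s k)`.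
* `gam_D`: for `s : XX m ℓ` let `s' k = (s k).val` (or any integer lift, `ℓ ∣ ∑ s'`); `g_s = lgs (tv (-D) A s') ∈ Gam` (`isVln_tv`), its first component
  is `s` as `vl (-D) = 1` and `vl (A k - A i) = 0`.  So `s ↦ g_s` is injective `XX → Gam`, and bijective by `gam_card`.  For
  `g = g_s`: `un_tv`.
-/

namespace Pool.Agent.H94.PM

open WithZero
open Pool.Agent.H94.PL

/-- the local pairing -/
noncomputable def ee (m ℓ : ℕ) (e : ZMod ℓ) :
    (XX m ℓ × XX m ℓ) →ₗ[ZMod ℓ] (XX m ℓ × XX m ℓ) →ₗ[ZMod ℓ] ZMod ℓ :=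
  LinearMap.mk₂ (ZMod ℓ)
    (fun g g' => BB m ℓ g.2 g'.1 - BB m ℓ g.1 g'.2 + e * BB m ℓ g.1 g'.1)
    (fun u u' w => by
      simp only [Prod.snd_add, Prod.fst_add, map_add, LinearMap.add_apply]
      ring)
    (fun c u w => by
      simp only [Prod.smul_snd, Prod.smul_fst, map_smul, LinearMap.smul_apply, smul_eq_mul]
      ring)
    (fun u w w' => by
      simp only [Prod.snd_add, Prod.fst_add, map_add, LinearMap.add_apply]
      ring)
    (fun c u w => by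
      simp only [Prod.smul_snd, Prod.smul_fst, map_smul, LinearMap.smul_apply, smul_eq_mul]
      ring)

theorem ee_apply {m ℓ : ℕ} (e : ZMod ℓ) (g g' : XX m ℓ × XX m ℓ) :
    ee m ℓ e g g' = BB m ℓ g.2 g'.1 - BB m ℓ g.1 g'.2 + e * BB m ℓ g.1 g'.1 := rfl

theorem ee_nondeg {m ℓ : ℕ} [Fact ℓ.Prime] (hm : Nat.Coprime m ℓ) (e : ZMod ℓ)
    (g : XX m ℓ × XX m ℓ) (h : ∀ g', ee m ℓ e g g' = 0) : g = 0 := by
  have hB := BB_good (ℓ := ℓ) hm
  have h1 : g.1 = 0 := by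
    refine hB.nondeg _ fun u => ?_
    have h2 := h (0, u)
    rw [ee_apply, map_zero, map_zero, mul_zero, add_zero, zero_sub, neg_eq_zero] at h2
    exact h2
  have h2 : g.2 = 0 := by
    refine hB.nondeg _ fun u => ?_
    have h3 := h (u, 0)
    rw [ee_apply, h1, map_zero, map_zero, LinearMap.zero_apply, mul_zero, add_zero,
      sub_zero] at h3
    exact h3
  exact Prod.ext h1 h2

theorem iso_card_le {ℓ : ℕ} [Fact ℓ.Prime] {V : Type} [AddCommGroup V] [Module (ZMod ℓ) V]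
    [Finite V] (b : V →ₗ[ZMod ℓ] V →ₗ[ZMod ℓ] ZMod ℓ) (hb : ∀ x, (∀ y, b x y = 0) → x = 0)
    (W : Submodule (ZMod ℓ) V) (hW : ∀ x ∈ W, ∀ y ∈ W, b x y = 0) :
    Nat.card W ^ 2 ≤ Nat.card V := by
  have hfin : Module.Finite (ZMod ℓ) V := Module.Finite.of_finite
  have hk : LinearMap.ker b = ⊥ := by
    rw [LinearMap.ker_eq_bot']
    intro x hx
    refine hb x fun y => ?_
    rw [hx, LinearMap.zero_apply]
  have h := LinearMap.BilinForm.finrank_add_finrank_orthogonal' (B := b) W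
  rw [hk, inf_bot_eq, finrank_bot, add_zero] at h
  have hle : W ≤ LinearMap.BilinForm.orthogonal b W := by
    intro x hx
    rw [LinearMap.BilinForm.mem_orthogonal_iff]
    intro y hy
    exact hW y hy x hx
  have h2 := Submodule.finrank_mono hle
  rw [Module.natCard_eq_pow_finrank (K := ZMod ℓ), Module.natCard_eq_pow_finrank (K := ZMod ℓ)
    (V := V), Nat.card_zmod, ← pow_mul]
  exact Nat.pow_le_pow_right (Fact.out : ℓ.Prime).pos (by omega)

section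
variable {M : Type} [Field M] {v : Valuation M ℤᵐ⁰} {ℓ m : ℕ} [hl : Fact ℓ.Prime] (U : LU v ℓ)

/-- the logarithms of a tuple -/
noncomputable def lgs (δ : Fin m → M) : XX m ℓ × XX m ℓ :=
  (toX fun k => (vl v (δ k) : ZMod ℓ), toX fun k => U.un (δ k))

theorem lgs_fst {δ : Fin m → M} (hne : ∀ k, δ k ≠ 0) (h : ∃ y : M, ∏ k, δ k = y ^ ℓ)
    (k : Fin m) : (lgs U δ).1.1 k = (vl v (δ k) : ZMod ℓ) := by
  obtain ⟨y, hy⟩ := h
  have h1 := vl_prod (v := v) Finset.univ δ (fun k _ => hne k)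
  rw [hy, vl_pow] at h1
  have h2 : ∑ k, (vl v (δ k) : ZMod ℓ) = 0 := by
    have h3 := congrArg (Int.cast : ℤ → ZMod ℓ) h1
    push_cast at h3
    rw [ZMod.natCast_self, zero_mul] at h3
    exact h3.symm
  exact toX_apply h2 k

theorem lgs_snd {δ : Fin m → M} (hne : ∀ k, δ k ≠ 0) (h : ∃ y : M, ∏ k, δ k = y ^ ℓ)
    (k : Fin m) : (lgs U δ).2.1 k = U.un (δ k) := by
  obtain ⟨y, hy⟩ := h
  have hy0 : y ≠ 0 := by
    intro h0
    rw [h0, zero_pow hl.out.ne_zero] at hy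
    exact (Finset.prod_ne_zero_iff.2 fun k _ => hne k) hy
  have h1 := U.un_prod Finset.univ δ (fun k _ => hne k)
  rw [hy, U.un_pow hy0, ZMod.natCast_self, zero_mul] at h1
  exact toX_apply h1.symm k

/-- the group generated by the logarithms of the values -/
noncomputable def Gam (α : ℕ) (D : M) (A : Fin m → M) :
    Submodule (ZMod ℓ) (XX m ℓ × XX m ℓ) :=
  Submodule.span (ZMod ℓ) {g | ∃ δ, IsVln ℓ α D A δ ∧ g = lgs U δ}

theorem lgs_mem_Gam {α : ℕ} {D : M} {A δ : Fin m → M} (h : IsVln ℓ α D A δ) :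
    lgs U δ ∈ Gam U α D A := Submodule.subset_span ⟨δ, h, rfl⟩

theorem gam_ee {δ δ' : Fin m → M} (hne : ∀ k, δ k ≠ 0) (h : ∃ y : M, ∏ k, δ k = y ^ ℓ)
    (hne' : ∀ k, δ' k ≠ 0) (h' : ∃ y : M, ∏ k, δ' k = y ^ ℓ) :
    ee m ℓ (U.un (-1)) (lgs U δ) (lgs U δ') = ∑ k, U.hs (δ k) (δ' k) := by
  rw [ee_apply, BB_apply, BB_apply, BB_apply, Finset.mul_sum, ← Finset.sum_sub_distrib,
    ← Finset.sum_add_distrib]
  refine Finset.sum_congr rfl fun k _ => ?_
  rw [lgs_fst U hne h, lgs_snd U hne h, lgs_fst U hne' h', lgs_snd U hne' h']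
  unfold LU.hs
  ring

theorem gam_iso {α : ℕ} (hα : ℓ ∣ α * m + 1) {D : M} (hD : D ≠ 0) (A : Fin m → M) :
    ∀ g ∈ Gam U α D A, ∀ g' ∈ Gam U α D A, ee m ℓ (U.un (-1)) g g' = 0 := by
  have hA' : ∀ a : ZMod ℓ, ℓ • a = 0 := fun a => by
    rw [nsmul_eq_mul, ZMod.natCast_self, zero_mul]
  have key : ∀ δ δ' : Fin m → M, IsVln ℓ α D A δ → IsVln ℓ α D A δ' →
      ee m ℓ (U.un (-1)) (lgs U δ) (lgs U δ') = 0 := by
    intro δ δ' hδ hδ'
    rw [gam_ee U (fun k => isVln_ne hD hδ k) (prod_of_isVln hl.out hα hδ)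
      (fun k => isVln_ne hD hδ' k) (prod_of_isVln hl.out hα hδ')]
    obtain ⟨r, P, Q, γ, hPQ, hγ, hδγ⟩ := id hδ
    obtain ⟨r', R, Q', γ', hRQ, hγ', hδγ'⟩ := id hδ'
    have h1 : ∀ k, U.hs (δ k) (δ' k) = ∑ i, ∑ j,
        U.sy.s (dvn α D (P i) (A k)) (dvn α D (R j) (A k)) := by
      intro k
      rw [← U.hs_pow (isVln_ne hD hδ k) (hγ k) (isVln_ne hD hδ' k) (hγ' k), hδγ k, hδγ' k,
        ← U.sy_apply, U.sy.prod_left _ _ (fun i _ => dvn_ne hD (hPQ i) k)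
        (Finset.prod_ne_zero_iff.2 fun j _ => dvn_ne hD (hRQ j) k)]
      exact Finset.sum_congr rfl fun i _ => U.sy.prod_right _ _
        (fun j _ => dvn_ne hD (hRQ j) k) (dvn_ne hD (hPQ i) k)
    rw [Finset.sum_congr rfl fun k _ => h1 k, Finset.sum_comm]
    refine Finset.sum_eq_zero fun i _ => ?_
    rw [Finset.sum_comm]
    refine Finset.sum_eq_zero fun j _ => ?_
    exact iso U.sy hl.out hα hA' hD A (hPQ i) (hRQ j)
  intro g hg g' hg'
  have h1 : ∀ δ : Fin m → M, IsVln ℓ α D A δ → ee m ℓ (U.un (-1)) (lgs U δ) g' = 0 := by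
    intro δ hδ
    have hle : Gam U α D A ≤ LinearMap.ker (ee m ℓ (U.un (-1)) (lgs U δ)) := by
      unfold Gam
      rw [Submodule.span_le]
      rintro _ ⟨δ', hδ', rfl⟩
      rw [SetLike.mem_coe, LinearMap.mem_ker]
      exact key δ δ' hδ hδ'
    exact LinearMap.mem_ker.1 (hle hg')
  have hle : Gam U α D A ≤ LinearMap.ker ((ee m ℓ (U.un (-1))).flip g') := by
    unfold Gam
    rw [Submodule.span_le]
    rintro _ ⟨δ, hδ, rfl⟩
    rw [SetLike.mem_coe, LinearMap.mem_ker, LinearMap.flip_apply]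
    exact h1 δ hδ
  have h2 := LinearMap.mem_ker.1 (hle hg)
  rwa [LinearMap.flip_apply] at h2

theorem gam_card (hm : Nat.Coprime m ℓ) {α : ℕ} (hα : ℓ ∣ α * m + 1) {D : M} (hD : D ≠ 0)
    (A : Fin m → M) : Nat.card (Gam U α D A) ≤ Nat.card (XX m ℓ) := by
  have h := iso_card_le (ee m ℓ (U.un (-1))) (fun x hx => ee_nondeg hm _ x hx) (Gam U α D A)
    (gam_iso U hα hD A)
  rw [Nat.card_prod, ← pow_two] at h
  exact (Nat.pow_le_pow_iff_left two_ne_zero).1 h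

theorem vl_tv {D : M} (hD : D ≠ 0) {A : Fin m → M} (hA : ∀ i k, i ≠ k → A i ≠ A k)
    (s : Fin m → ℤ) (k : Fin m) : vl v (tv (-D) A s k) = s k * vl v D +
      ∑ i ∈ Finset.univ.erase k, (s i - s k) * vl v (A k - A i) := by
  have h1 : ∀ i ∈ Finset.univ.erase k, (A k - A i) ^ (s i - s k) ≠ 0 := fun i hi =>
    zpow_ne_zero _ (sub_ne_zero.2 (hA k i (Finset.ne_of_mem_erase hi).symm))
  unfold tv
  rw [vl_mul (zpow_ne_zero _ (neg_ne_zero.2 hD)) (Finset.prod_ne_zero_iff.2 h1), vl_zpow, vl_neg,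
    vl_prod _ _ h1]
  congr 1
  exact Finset.sum_congr rfl fun i _ => vl_zpow _ _

theorem un_tv {D : M} (hD : D ≠ 0) {A : Fin m → M} (hA : ∀ i k, i ≠ k → A i ≠ A k)
    (s : Fin m → ℤ) (k : Fin m) : U.un (tv (-D) A s k) = (s k : ZMod ℓ) * (U.un (-1) + U.un D) +
      ∑ i ∈ Finset.univ.erase k, ((s i : ZMod ℓ) - s k) * U.un (A k - A i) := by
  have h1 : ∀ i ∈ Finset.univ.erase k, (A k - A i) ^ (s i - s k) ≠ 0 := fun i hi =>
    zpow_ne_zero _ (sub_ne_zero.2 (hA k i (Finset.ne_of_mem_erase hi).symm))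
  unfold tv
  rw [U.mul _ _ (zpow_ne_zero _ (neg_ne_zero.2 hD)) (Finset.prod_ne_zero_iff.2 h1),
    U.un_zpow (neg_ne_zero.2 hD), U.un_neg hD, U.un_prod _ _ h1]
  congr 1
  refine Finset.sum_congr rfl fun i hi => ?_
  rw [U.un_zpow (sub_ne_zero.2 (hA k i (Finset.ne_of_mem_erase hi).symm))]
  push_cast
  ring

theorem gam_D (hm : Nat.Coprime m ℓ) {α : ℕ} (hα : ℓ ∣ α * m + 1) {D : M} (hD : D ≠ 0)
    (hD1 : vl v D = 1) {A : Fin m → M} (hAA : ∀ i k, i ≠ k → v (A i - A k) = 1)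
    {g : XX m ℓ × XX m ℓ} (hg : g ∈ Gam U α D A) (k : Fin m) :
    g.2.1 k = g.1.1 k * (U.un (-1) + U.un D) +
      ∑ i ∈ Finset.univ.erase k, (g.1.1 i - g.1.1 k) * U.un (A k - A i) := by
  have hA : ∀ i k, i ≠ k → A i ≠ A k := by
    intro i k hik he
    have h := hAA i k hik
    rw [he, sub_self, map_zero] at h
    exact zero_ne_one h
  have hv0 : ∀ i ∈ Finset.univ.erase k, vl v (A k - A i) = 0 := by
    intro i hi
    unfold vl
    rw [hAA k i (Finset.ne_of_mem_erase hi).symm, log_one, neg_zero]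
  obtain ⟨lift, hlift⟩ : ∃ f : XX m ℓ → Fin m → ℤ, ∀ s k, ((f s k : ℤ) : ZMod ℓ) = s.1 k :=
    ⟨fun s k => ((s.1 k).val : ℤ), fun s k => by
      rw [Int.cast_natCast, ZMod.natCast_zmod_val]⟩
  have hsum : ∀ s, (ℓ : ℤ) ∣ ∑ k, lift s k := by
    intro s
    rw [← ZMod.intCast_zmod_eq_zero_iff_dvd]
    push_cast
    rw [Finset.sum_congr rfl fun k _ => hlift s k]
    exact s.2
  have hIs : ∀ s, IsVln ℓ α D A (tv (-D) A (lift s)) := fun s =>
    isVln_tv hl.out hm hα hD hA (lift s) (hsum s)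
  have hfst : ∀ (s : XX m ℓ) (k : Fin m), (lgs U (tv (-D) A (lift s))).1.1 k = s.1 k := by
    intro s k
    rw [lgs_fst U (fun k => isVln_ne hD (hIs s) k) (prod_of_isVln hl.out hα (hIs s)),
      vl_tv hD hA, hD1]
    have h0 : ∑ i ∈ Finset.univ.erase k, (lift s i - lift s k) * vl v (A k - A i) = 0 := by
      refine Finset.sum_eq_zero fun i hi => ?_
      have h1 : vl v (A k - A i) = 0 := by
        unfold vl
        rw [hAA k i (Finset.ne_of_mem_erase hi).symm, log_one, neg_zero]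
      rw [h1, mul_zero]
    rw [h0, mul_one, add_zero]
    exact hlift s k
  have hinj : Function.Injective (fun s : XX m ℓ =>
      (⟨lgs U (tv (-D) A (lift s)), lgs_mem_Gam U (hIs s)⟩ : Gam U α D A)) := by
    intro s s' hss
    have h1 : lgs U (tv (-D) A (lift s)) = lgs U (tv (-D) A (lift s')) := congrArg Subtype.val hss
    apply Subtype.ext
    funext k
    rw [← hfst s k, h1, hfst s' k]
  obtain ⟨s, hs⟩ := (hinj.bijective_of_nat_card_le (gam_card U hm hα hD A)).2 ⟨g, hg⟩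
  have hgs : g = lgs U (tv (-D) A (lift s)) := (congrArg Subtype.val hs).symm
  have h1 : ∀ k, g.1.1 k = s.1 k := fun k => by rw [hgs]; exact hfst s k
  rw [h1 k, hgs, lgs_snd U (fun k => isVln_ne hD (hIs s) k) (prod_of_isVln hl.out hα (hIs s)),
    un_tv U hD hA, hlift s k]
  congr 1
  refine Finset.sum_congr rfl fun i _ => ?_
  rw [hlift s i, hfst s i]

end

theorem gam_le {M : Type} [Field M] [hv : Valued M ℤᵐ⁰] [CompleteSpace M] {ℓ m : ℕ}
    [hl : Fact ℓ.Prime] (U : LU (Valued.v : Valuation M ℤᵐ⁰) ℓ)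
    (hℓ : (Valued.v : Valuation M ℤᵐ⁰) (ℓ : M) = 1) {ϖ : M}
    (hϖ : (Valued.v : Valuation M ℤᵐ⁰) ϖ = exp (-1 : ℤ)) {α : ℕ} {D D' : M} (hD : D ≠ 0)
    (hD' : D' ≠ 0) (h1 : (vl Valued.v D : ZMod ℓ) = (vl Valued.v D' : ZMod ℓ))
    (h2 : U.un D = U.un D') (A : Fin m → M) : Gam U α D A ≤ Gam U α D' A := by
  have h3 : (ℓ : ℤ) ∣ vl (Valued.v : Valuation M ℤᵐ⁰) (D' / D) := by
    rw [vl_div hD' hD, ← ZMod.intCast_zmod_eq_zero_iff_dvd]
    push_cast
    rw [h1, sub_self]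
  obtain ⟨y, hy0, hy⟩ := pow_of_lu hℓ hϖ U (div_ne_zero hD' hD) h3
    (by rw [U.un_div hD' hD, h2, sub_self])
  have e : D' = D * y ^ ℓ := by
    rw [← hy]
    field_simp
  unfold Gam
  apply Submodule.span_mono
  rintro g ⟨δ, hδ, rfl⟩
  refine ⟨δ, ?_, rfl⟩
  rw [e]
  exact isVln_scale hy0 hδ

theorem gam_congr {M : Type} [Field M] [hv : Valued M ℤᵐ⁰] [CompleteSpace M] {ℓ m : ℕ}
    [hl : Fact ℓ.Prime] (U : LU (Valued.v : Valuation M ℤᵐ⁰) ℓ)
    (hℓ : (Valued.v : Valuation M ℤᵐ⁰) (ℓ : M) = 1) {ϖ : M}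
    (hϖ : (Valued.v : Valuation M ℤᵐ⁰) ϖ = exp (-1 : ℤ)) {α : ℕ} {D D' : M} (hD : D ≠ 0)
    (hD' : D' ≠ 0) (h1 : (vl Valued.v D : ZMod ℓ) = (vl Valued.v D' : ZMod ℓ))
    (h2 : U.un D = U.un D') (A : Fin m → M) : Gam U α D A = Gam U α D' A := by
  exact le_antisymm (gam_le U hℓ hϖ hD hD' h1 h2 A) (gam_le U hℓ hϖ hD' hD h1.symm h2.symm A)

end Pool.Agent.H94.PM
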