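import Pool.Agent.H94.PM.DC

set_option autoImplicit false

/-!
# [H94 PM LOCE] The local data determine the global data

`z ↦ ((locv v z) v, loci z)` is a bijection from `EE × EE` to `(S → X × X) × (X × X)`: the inverse sends `(g, (a, κ))` to `ε = (κ, fun v => (g v).1)`, `ξ.1 = - a - ∑ v, deg v • (g v).1`,
`ξ.2 v = (g v).2 - deg v • κ - ∑ v' ≠ v, lm v' v • (g v').1 - (lg (-1) * deg v) • ξ.1`.  `Z` is the preimage of the product.
-/

namespace Pool.Agent.H94.PM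

open Polynomial
open Pool.Agent.H94.PL
open Pool.Agent.H94.PC (Mo Sq Pr pf om Mn mem_Mo mem_Sq mem_Pr mem_pf mem_pf')

variable {F : Type} [Field F] [Finite F] {ℓ m : ℕ} [hl : Fact ℓ.Prime] (χ : LChar F ℓ)

theorem card_loc {A : Fin m → F[X]} (Zl : pf (dl A) → Submodule (ZMod ℓ) (XX m ℓ × XX m ℓ))
    (Zi : Submodule (ZMod ℓ) (XX m ℓ × XX m ℓ)) :
    Nat.card ((⨅ v, (Zl v).comap (locv χ v)) ⊓ Zi.comap loci :
      Submodule (ZMod ℓ) (EE (XX m ℓ) (pf (dl A)) × EE (XX m ℓ) (pf (dl A)))) =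
      (∏ v, Nat.card (Zl v)) * Nat.card Zi := by
  classical
  obtain ⟨Z, hZ⟩ : ∃ Z : Submodule (ZMod ℓ)
      (EE (XX m ℓ) (pf (dl A)) × EE (XX m ℓ) (pf (dl A))),
      Z = (⨅ v, (Zl v).comap (locv χ v)) ⊓ Zi.comap loci := ⟨_, rfl⟩
  have hmem : ∀ z, z ∈ Z ↔ (∀ v, locv χ v z ∈ Zl v) ∧ loci z ∈ Zi := by
    intro z
    rw [hZ, Submodule.mem_inf, Submodule.mem_iInf]
    rfl
  rw [← hZ, ← Nat.card_pi, ← Nat.card_prod]
  let f : Z → (∀ v : pf (dl A), Zl v) × Zi := fun z =>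
    (fun v => ⟨locv χ v z.1, ((hmem z.1).1 z.2).1 v⟩, ⟨loci z.1, ((hmem z.1).1 z.2).2⟩)
  refine Nat.card_eq_of_bijective f ⟨?_, ?_⟩
  · intro z z' h
    have h1 : ∀ v, locv χ v z.1 = locv χ v z'.1 := fun v =>
      congrArg Subtype.val (congrFun (congrArg Prod.fst h) v)
    have h2 : loci z.1 = loci z'.1 := congrArg Subtype.val (congrArg Prod.snd h)
    have a1 : ∀ v, z.1.1.2 v = z'.1.1.2 v := fun v => congrArg Prod.fst (h1 v)
    have a1' : z.1.1.2 = z'.1.1.2 := funext a1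
    have a2 : z.1.1.1 = z'.1.1.1 := congrArg Prod.snd h2
    have a3 : -(∑ v : pf (dl A), (v.1.natDegree : ZMod ℓ) • z.1.1.2 v + z.1.2.1) =
        -(∑ v : pf (dl A), (v.1.natDegree : ZMod ℓ) • z'.1.1.2 v + z'.1.2.1) :=
      congrArg Prod.fst h2
    have a4 : z.1.2.1 = z'.1.2.1 := by
      rw [neg_inj, a1'] at a3
      exact add_left_cancel a3
    have a5 : ∀ v, z.1.2.2 v = z'.1.2.2 v := by
      intro v
      have h3 := congrArg Prod.snd (h1 v)
      simp only [locv, LinearMap.coe_mk, AddHom.coe_mk] at h3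
      rw [a1', a2, a4] at h3
      exact add_left_cancel (add_right_cancel h3)
    exact Subtype.ext (Prod.ext (Prod.ext a2 a1') (Prod.ext a4 (funext a5)))
  · rintro ⟨g, h⟩
    obtain ⟨e, he⟩ : ∃ e : EE (XX m ℓ) (pf (dl A)), e = (h.1.2, fun v => (g v).1.1) := ⟨_, rfl⟩
    obtain ⟨a, ha⟩ : ∃ a : XX m ℓ,
      a = -h.1.1 - ∑ v : pf (dl A), (v.1.natDegree : ZMod ℓ) • e.2 v := ⟨_, rfl⟩
    obtain ⟨x, hx⟩ : ∃ x : EE (XX m ℓ) (pf (dl A)), x = (a, fun v => (g v).1.2 -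
      ((v.1.natDegree : ZMod ℓ) • e.1 +
        ∑ v' ∈ Finset.univ.erase v, lm χ v'.1 v.1 • e.2 v') -
      (χ.lg (-1) * (v.1.natDegree : ZMod ℓ)) • a) := ⟨_, rfl⟩
    have e1 : e.1 = h.1.2 := by rw [he]
    have e2 : ∀ v, e.2 v = (g v).1.1 := by
      intro v
      rw [he]
    have x1 : x.1 = a := by rw [hx]
    have x2 : ∀ v, x.2 v = (g v).1.2 -
      ((v.1.natDegree : ZMod ℓ) • e.1 +
        ∑ v' ∈ Finset.univ.erase v, lm χ v'.1 v.1 • e.2 v') -
      (χ.lg (-1) * (v.1.natDegree : ZMod ℓ)) • a := by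
      intro v
      rw [hx]
    have b1 : ∀ v, locv χ v (e, x) = (g v).1 := by
      intro v
      refine Prod.ext (e2 v) ?_
      have h3 : (locv χ v (e, x)).2 = (v.1.natDegree : ZMod ℓ) • e.1 +
        ∑ v' ∈ Finset.univ.erase v, lm χ v'.1 v.1 • e.2 v' + x.2 v +
        (χ.lg (-1) * (v.1.natDegree : ZMod ℓ)) • x.1 := by
        unfold locv
        congr!
      rw [h3, x2, x1]
      abel
    have b2 : loci (e, x) = h.1 := by
      refine Prod.ext ?_ e1
      have h3 : (loci (e, x)).1 =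
        -(∑ v : pf (dl A), (v.1.natDegree : ZMod ℓ) • e.2 v + x.1) := rfl
      rw [h3, x1, ha]
      abel
    refine ⟨⟨(e, x), (hmem _).2 ⟨fun v => ?_, ?_⟩⟩, ?_⟩
    · rw [b1]
      exact (g v).2
    · rw [b2]
      exact h.2
    · exact Prod.ext (funext fun v => Subtype.ext (b1 v)) (Subtype.ext b2)

theorem card_EE (A : Fin m → F[X]) : Nat.card (EE (XX m ℓ) (pf (dl A))) =
    Nat.card (XX m ℓ) ^ (Fintype.card (pf (dl A)) + 1) := by
  rw [EE, Nat.card_prod, Nat.card_fun, pow_succ, Nat.card_eq_fintype_card (α := pf (dl A)),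
    mul_comm]

theorem card_XX (hm : 1 ≤ m) : Nat.card (XX m ℓ) = ℓ ^ (m - 1) := by
  obtain ⟨n, rfl⟩ : ∃ n, m = n + 1 := ⟨m - 1, by omega⟩
  have e : XX (n + 1) ℓ ≃ (Fin n → ZMod ℓ) :=
    { toFun := fun x k => x.1 k.succ
      invFun := fun y => ⟨Fin.cons (-∑ k, y k) y, by
        change ∑ k, (Fin.cons (-∑ k, y k) y : Fin (n + 1) → ZMod ℓ) k = 0
        rw [Fin.sum_univ_succ]
        simp⟩
      left_inv := by
        intro x
        apply Subtype.ext
        funext k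
        have hx := XX_sum x
        rw [Fin.sum_univ_succ] at hx
        refine Fin.cases ?_ (fun j => ?_) k
        · simp only [Fin.cons_zero]
          rw [← sub_eq_zero]
          rw [← neg_eq_zero, neg_sub, sub_neg_eq_add]
          exact hx
        · simp only [Fin.cons_succ]
      right_inv := by
        intro y
        funext k
        simp only [Fin.cons_succ] }
  rw [Nat.card_congr e, Nat.card_fun, Nat.card_zmod, Nat.card_eq_fintype_card, Fintype.card_fin]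
  simp

end Pool.Agent.H94.PM
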