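import Pool.Agent.H94.PC.Alt

/-!
# [H94 PM PARA] Parity of the dimension of the solution space, abstract form

`E0`, `R` finite vector spaces over `ZMod 2` with nondegenerate symmetric forms `b0`, `b1`; `W ≤ E0 × E0`, `Y = {(ε, x) | (ε, ξ x) ∈ W}`, `Ω g g' = b1 g'.2 (η g.1 + G g.2)` on `Y`.
`Ω g g = 0` (hypothesis `h0`), so `Ω` is alternating and `PC.alt_card` gives `card Y = 4 ^ j * card (ker Ω)`.  Let `K1 = {ε | (ε, 0) ∈ W}`, `k = card {ε ∈ K1 | η ε = 0}`.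
(1) `pr₂ W` has orthogonal `K1` for `b0`: if `b0 η' ξ' = 0` for all `(ε', ξ') ∈ W` then `Er (η', 0) (ε', ξ') = b0 η' ξ' = 0` on `W`, so `(η', 0) ∈ W` (`W` is its own orthogonal: `Er = 0` on `W`,
`Er` nondegenerate, `card W = card E0`); conversely clear.  (`Er ((ε, ξ), (ε', ξ')) = b0 ε ξ' + b0 ξ ε' + b2 ξ ξ'`.)  So `pr₂ W = K1^⊥`.
(2) `Z' = {x | ξ x ∈ pr₂ W} = {x | ∀ η' ∈ K1, b0 η' (ξ x) = 0} = {x | ∀ η' ∈ K1, b1 x (η η') = 0} = (η K1)^⊥`.  So `card Z' = card R / card (η K1) = card R * k / card K1`.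
(3) `card Y = card K1 * card Z'` (`Y → Z'`, `(ε, x) ↦ x`, is onto with fibres cosets of `K1`) `= card R * k`.
(4) `ker Ω`: `g ∈ Y` with `b1 x' (η g.1 + G g.2) = 0` for all `x' ∈ Z'`, i.e. `η g.1 + G g.2 ∈ Z'^⊥ = η K1`; so `g - (η', 0) ∈ KM` for some `η' ∈ K1`: `ker Ω = KM + (K1 × 0)` (and conversely:
`(η', 0)` is in `Y`), `KM ∩ (K1 × 0)` has `k` elements.  So `card (ker Ω) * k = card KM * card K1`.
(5) `card R * k * k = 4 ^ j * card (ker Ω) * k = 4 ^ j * card KM * card K1`.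
-/

set_option autoImplicit false

namespace Pool.Agent.H94.PM

private theorem PARA_rn {V V' : Type} [AddCommGroup V] [Module (ZMod 2) V] [Finite V]
    [AddCommGroup V'] [Module (ZMod 2) V'] (f : V →ₗ[ZMod 2] V') (S : Submodule (ZMod 2) V) :
    Module.finrank (ZMod 2) (S.map f) +
      Module.finrank (ZMod 2) (S ⊓ LinearMap.ker f : Submodule (ZMod 2) V) =
      Module.finrank (ZMod 2) S := by
  have h1 := (f.domRestrict S).finrank_range_add_finrank_ker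
  rw [LinearMap.range_domRestrict, LinearMap.ker_domRestrict] at h1
  have h2 : (LinearMap.ker f).comap S.subtype =
      (S ⊓ LinearMap.ker f : Submodule (ZMod 2) V).comap S.subtype := by
    ext x
    simp only [Submodule.mem_comap, Submodule.subtype_apply, Submodule.mem_inf]
    exact ⟨fun h => ⟨x.2, h⟩, fun h => h.2⟩
  rw [h2, (Submodule.comapSubtypeEquivOfLe (inf_le_left : S ⊓ LinearMap.ker f ≤ S)).finrank_eq] at h1
  exact h1

private theorem PARA_nd {V : Type} [AddCommGroup V] [Module (ZMod 2) V]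
    (b : V →ₗ[ZMod 2] V →ₗ[ZMod 2] ZMod 2) (hs : ∀ x y, b x y = b y x)
    (hn : ∀ x, (∀ y, b x y = 0) → x = 0) :
    LinearMap.BilinForm.Nondegenerate b ∧ LinearMap.BilinForm.IsRefl b := by
  refine ⟨⟨hn, fun y h => hn y fun x => ?_⟩, fun x y h => ?_⟩
  · rw [hs]
    exact h x
  · rw [hs]
    exact h

private theorem PARA_card (V : Type) [AddCommGroup V] [Module (ZMod 2) V] [Finite V] :
    Nat.card V = 2 ^ Module.finrank (ZMod 2) V := by
  rw [Module.natCard_eq_pow_finrank (K := ZMod 2) (V := V), Nat.card_zmod]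

theorem para {E0 R : Type} [AddCommGroup E0] [Module (ZMod 2) E0] [Finite E0]
    [AddCommGroup R] [Module (ZMod 2) R] [Finite R]
    (b0 b2 : E0 →ₗ[ZMod 2] E0 →ₗ[ZMod 2] ZMod 2) (b1 : R →ₗ[ZMod 2] R →ₗ[ZMod 2] ZMod 2)
    (hs0 : ∀ x y, b0 x y = b0 y x) (hn0 : ∀ x, (∀ y, b0 x y = 0) → x = 0)
    (hs1 : ∀ x y, b1 x y = b1 y x) (hn1 : ∀ x, (∀ y, b1 x y = 0) → x = 0)
    (ξ : R →ₗ[ZMod 2] E0) (η : E0 →ₗ[ZMod 2] R) (hadj : ∀ x ε, b1 x (η ε) = b0 ε (ξ x))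
    (G : R →ₗ[ZMod 2] R) (W : Submodule (ZMod 2) (E0 × E0)) (hWc : Nat.card W = Nat.card E0)
    (hW : ∀ z ∈ W, ∀ z' ∈ W, b0 z.1 z'.2 + b0 z.2 z'.1 + b2 z.2 z'.2 = 0)
    (h0 : ∀ ε x, (ε, ξ x) ∈ W → b1 x (η ε + G x) = 0) :
    ∃ j k : ℕ, Nat.card {g : E0 × R // (g.1, ξ g.2) ∈ W ∧ η g.1 + G g.2 = 0} *
      Nat.card {ε : E0 // (ε, (0 : E0)) ∈ W} * 4 ^ j = Nat.card R * (2 ^ k) ^ 2 := by
  obtain ⟨nd0, rf0⟩ := PARA_nd b0 hs0 hn0
  obtain ⟨nd1, rf1⟩ := PARA_nd b1 hs1 hn1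
  -- the submodules
  obtain ⟨K1, hK1⟩ : ∃ K1 : Submodule (ZMod 2) E0, ∀ ε, ε ∈ K1 ↔ (ε, (0 : E0)) ∈ W :=
    ⟨W.comap (LinearMap.inl (ZMod 2) E0 E0), fun ε => Iff.rfl⟩
  obtain ⟨Y, hY⟩ : ∃ Y : Submodule (ZMod 2) (E0 × R), ∀ g, g ∈ Y ↔ (g.1, ξ g.2) ∈ W :=
    ⟨W.comap (LinearMap.prodMap LinearMap.id ξ), fun g => Iff.rfl⟩
  obtain ⟨M, hM⟩ : ∃ M : E0 × R →ₗ[ZMod 2] R, ∀ g, M g = η g.1 + G g.2 :=
    ⟨η.coprod G, fun g => rfl⟩
  -- dimension of W
  have dW : Module.finrank (ZMod 2) W = Module.finrank (ZMod 2) E0 := by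
    rw [PARA_card W, PARA_card E0] at hWc
    exact Nat.pow_right_injective le_rfl hWc
  -- (1)
  have e1 := PARA_rn (LinearMap.snd (ZMod 2) E0 E0) W
  have e2 : Module.finrank (ZMod 2)
      (W ⊓ LinearMap.ker (LinearMap.snd (ZMod 2) E0 E0) : Submodule (ZMod 2) (E0 × E0)) =
      Module.finrank (ZMod 2) K1 := by
    have h1 : (W ⊓ LinearMap.ker (LinearMap.snd (ZMod 2) E0 E0) :
        Submodule (ZMod 2) (E0 × E0)) = K1.map (LinearMap.inl (ZMod 2) E0 E0) := by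
      ext ⟨ε, ε'⟩
      simp only [Submodule.mem_inf, LinearMap.mem_ker, LinearMap.snd_apply, Submodule.mem_map,
        LinearMap.inl_apply, hK1, Prod.mk.injEq]
      constructor
      · rintro ⟨h1, rfl⟩
        exact ⟨ε, h1, rfl, rfl⟩
      · rintro ⟨x, h1, rfl, rfl⟩
        exact ⟨h1, rfl⟩
    rw [h1]
    exact (Submodule.equivMapOfInjective _ LinearMap.inl_injective K1).finrank_eq.symm
  have hP : W.map (LinearMap.snd (ZMod 2) E0 E0) = LinearMap.BilinForm.orthogonal b0 K1 := by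
    apply Submodule.eq_of_le_of_finrank_eq
    · rintro _ ⟨z, hz, rfl⟩
      rw [LinearMap.BilinForm.mem_orthogonal_iff]
      intro n hn
      have h1 := hW (n, 0) ((hK1 n).1 hn) z hz
      simpa using h1
    · have h1 := LinearMap.BilinForm.finrank_orthogonal nd0 K1
      rw [h1]
      omega
  -- (2)
  obtain ⟨κ, hκ⟩ : ∃ κ, κ = Module.finrank (ZMod 2)
    (K1 ⊓ LinearMap.ker η : Submodule (ZMod 2) E0) := ⟨_, rfl⟩
  have e3 := PARA_rn η K1
  rw [← hκ] at e3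
  have e4 := LinearMap.BilinForm.finrank_orthogonal nd1 (K1.map η)
  have hle : Module.finrank (ZMod 2) (K1.map η) ≤ Module.finrank (ZMod 2) R :=
    Submodule.finrank_le _
  -- (3)
  have e5 := PARA_rn (LinearMap.snd (ZMod 2) E0 R) Y
  have hZ : Y.map (LinearMap.snd (ZMod 2) E0 R) =
      LinearMap.BilinForm.orthogonal b1 (K1.map η) := by
    ext x
    rw [LinearMap.BilinForm.mem_orthogonal_iff]
    have h1 : x ∈ Y.map (LinearMap.snd (ZMod 2) E0 R) ↔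
        ξ x ∈ W.map (LinearMap.snd (ZMod 2) E0 E0) := by
      constructor
      · rintro ⟨g, hg, rfl⟩
        exact ⟨(g.1, ξ g.2), (hY g).1 hg, rfl⟩
      · rintro ⟨z, hz, hzx⟩
        refine ⟨(z.1, x), (hY _).2 ?_, rfl⟩
        have h2 : z.2 = ξ x := hzx
        show (z.1, ξ x) ∈ W
        rw [← h2]
        exact hz
    rw [h1, hP, LinearMap.BilinForm.mem_orthogonal_iff]
    constructor
    · rintro h _ ⟨ε, hε, rfl⟩
      rw [hs1, hadj]
      exact h ε hε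
    · intro h ε hε
      rw [← hadj, hs1]
      exact h _ ⟨ε, hε, rfl⟩
  have e6 : Module.finrank (ZMod 2)
      (Y ⊓ LinearMap.ker (LinearMap.snd (ZMod 2) E0 R) : Submodule (ZMod 2) (E0 × R)) =
      Module.finrank (ZMod 2) K1 := by
    have h1 : (Y ⊓ LinearMap.ker (LinearMap.snd (ZMod 2) E0 R) :
        Submodule (ZMod 2) (E0 × R)) = K1.map (LinearMap.inl (ZMod 2) E0 R) := by
      ext ⟨ε, x⟩
      simp only [Submodule.mem_inf, LinearMap.mem_ker, LinearMap.snd_apply, Submodule.mem_map,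
        LinearMap.inl_apply, hK1, hY, Prod.mk.injEq]
      constructor
      · rintro ⟨h1, rfl⟩
        rw [map_zero] at h1
        exact ⟨ε, h1, rfl, rfl⟩
      · rintro ⟨y, h1, rfl, rfl⟩
        rw [map_zero]
        exact ⟨h1, rfl⟩
    rw [h1]
    exact (Submodule.equivMapOfInjective _ LinearMap.inl_injective K1).finrank_eq.symm
  rw [hZ, e4, e6] at e5
  -- (4)
  obtain ⟨Ω, hΩ⟩ : ∃ Ω : Y →ₗ[ZMod 2] Y →ₗ[ZMod 2] ZMod 2,
      ∀ g g' : Y, Ω g g' = b1 g'.1.2 (M g.1) := by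
    refine ⟨(b1.flip.comp (M.comp Y.subtype)).compl₂
      ((LinearMap.snd (ZMod 2) E0 R).comp Y.subtype), fun g g' => rfl⟩
  have hΩ0 : ∀ g : Y, Ω g g = 0 := by
    intro g
    rw [hΩ, hM]
    exact h0 _ _ ((hY g.1).1 g.2)
  obtain ⟨j, hj⟩ := PC.alt_card Ω hΩ0
  obtain ⟨KM, hKM⟩ : ∃ KM : Submodule (ZMod 2) (E0 × R),
      ∀ g, g ∈ KM ↔ (g ∈ Y ∧ η g.1 + G g.2 = 0) := by
    refine ⟨Y ⊓ LinearMap.ker M, fun g => ?_⟩
    rw [Submodule.mem_inf, LinearMap.mem_ker, hM]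
  have hKM' : KM = Y ⊓ LinearMap.ker M := by
    ext g
    rw [hKM, Submodule.mem_inf, LinearMap.mem_ker, hM]
  have hker : ∀ g : Y, g ∈ LinearMap.ker Ω ↔ M g.1 ∈ K1.map η := by
    intro g
    rw [LinearMap.mem_ker, ← LinearMap.BilinForm.orthogonal_orthogonal nd1 rf1 (K1.map η), ← hZ,
      LinearMap.BilinForm.mem_orthogonal_iff]
    constructor
    · rintro h _ ⟨g', hg', rfl⟩
      have h1 := congrArg (fun L : Y →ₗ[ZMod 2] ZMod 2 => L ⟨g', hg'⟩) h
      have h2 : Ω g ⟨g', hg'⟩ = 0 := h1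
      rw [hΩ] at h2
      exact h2
    · intro h
      apply LinearMap.ext
      intro g'
      rw [hΩ]
      exact h _ ⟨g'.1, g'.2, rfl⟩
  -- dimension of the kernel
  have e7 := PARA_rn (M.comp Y.subtype) (LinearMap.ker Ω)
  have e8 : (LinearMap.ker Ω).map (M.comp Y.subtype) = K1.map η := by
    ext x
    constructor
    · rintro ⟨g, hg, rfl⟩
      exact (hker g).1 hg
    · rintro ⟨ε, hε, rfl⟩
      have h1 : ((ε, (0 : R)) : E0 × R) ∈ Y := by
        rw [hY]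
        show (ε, ξ 0) ∈ W
        rw [map_zero]
        exact (hK1 ε).1 hε
      have h2 : M (ε, (0 : R)) = η ε := by
        rw [hM]
        show η ε + G 0 = η ε
        rw [map_zero, add_zero]
      refine ⟨⟨_, h1⟩, (hker _).2 ?_, h2⟩
      show M (ε, (0 : R)) ∈ K1.map η
      rw [h2]
      exact ⟨ε, hε, rfl⟩
  have e9 : Module.finrank (ZMod 2)
      (LinearMap.ker Ω ⊓ LinearMap.ker (M.comp Y.subtype) : Submodule (ZMod 2) Y) =
      Module.finrank (ZMod 2) KM := by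
    have h1 : (LinearMap.ker Ω ⊓ LinearMap.ker (M.comp Y.subtype) : Submodule (ZMod 2) Y) =
        KM.comap Y.subtype := by
      ext g
      rw [Submodule.mem_inf, hker, LinearMap.mem_ker, Submodule.mem_comap, hKM' ,
        Submodule.mem_inf, LinearMap.mem_ker]
      constructor
      · rintro ⟨_, h⟩
        exact ⟨g.2, h⟩
      · rintro ⟨_, h⟩
        refine ⟨?_, h⟩
        have h3 : M g.1 = 0 := h
        rw [h3]
        exact zero_mem _
    rw [h1]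
    exact (Submodule.comapSubtypeEquivOfLe (by rw [hKM']; exact inf_le_left)).finrank_eq
  rw [e8, e9] at e7
  rw [PARA_card Y, PARA_card (LinearMap.ker Ω), show (4 : ℕ) = 2 ^ 2 by norm_num, ← pow_mul,
    ← pow_add] at hj
  have e10 := Nat.pow_right_injective le_rfl hj
  -- conclusion
  refine ⟨j, κ, ?_⟩
  have c1 : Nat.card {g : E0 × R // (g.1, ξ g.2) ∈ W ∧ η g.1 + G g.2 = 0} = Nat.card KM := by
    apply Nat.card_congr
    refine Equiv.subtypeEquivRight fun g => ?_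
    rw [hKM, hY]
  have c2 : Nat.card {ε : E0 // (ε, (0 : E0)) ∈ W} = Nat.card K1 := by
    apply Nat.card_congr
    refine Equiv.subtypeEquivRight fun ε => ?_
    rw [hK1]
  rw [c1, c2, PARA_card KM, PARA_card K1, PARA_card R, show (4 : ℕ) = 2 ^ 2 by norm_num,
    ← pow_mul, ← pow_mul, ← pow_add, ← pow_add, ← pow_add]
  congr 1
  omega

end Pool.Agent.H94.PM
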