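import Pool.Agent.H94.PC.Alt

set_option autoImplicit false

/-!
# [H94 PM QS] Totally singular subspaces of a quadratic space over `ZMod 2`

`Q (x + y) = Q x + Q y + E x y`, `E` nondegenerate.  `E` is symmetric, `Q 0 = 0`, `E x x = 0` (`Q (x + x) = Q 0`).  Dimensions over `ZMod 2`, `dim V = 2 d`; for a
submodule `W`: `dim W + dim W^⊥ = dim V`, `W^⊥^⊥ = W`, `(W ⊔ W')^⊥ = W^⊥ ⊓ W'^⊥`, `(W ⊓ W')^⊥ = W^⊥ ⊔ W'^⊥` (`LinearMap.BilinForm.orthogonal`, see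
`PL.la_fin_perp`).  If `Q = 0` on `W` then `E = 0` on `W × W`, `W ≤ W^⊥`; if moreover `card W ^ 2 = card V` then `dim W = d`, `W^⊥ = W`.
* `qs_ext`: `W = Γ ⊔ (U ⊓ Γ^⊥)`.  `Q (γ + u) = Q γ + Q u + E γ u = 0`.  `dim (U ⊓ Γ^⊥) = 2 d - dim (U ⊔ Γ) = 2 d - d - dim Γ + dim (U ⊓ Γ)`
  (`(U ⊓ Γ^⊥)^⊥ = U ⊔ Γ`), and `Γ ⊓ (U ⊓ Γ^⊥) = U ⊓ Γ` as `Γ ≤ Γ^⊥`, so `dim W = d`.
* `qs_tri`: `W12 = W1 ⊓ W2` etc., dimensions `d12, ..., d123`.  `K = {(w1, w2) ∈ W1 × W2 | w1 + w2 ∈ W3}` with the form `A (w) (w') = E w1 w2'`.  It is alternating: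
  `E w1 w2 = Q (w1 + w2) - Q w1 - Q w2 = 0`.  `PC.alt_card`: `card K = 4 ^ j * card (ker A)`.
  `card K`: `(w1, w2) ↦ w1 + w2` maps `K` onto `(W1 ⊔ W2) ⊓ W3`, with kernel `{(w, -w) | w ∈ W12}`; `dim (W1 ⊔ W2) = 2 d - d12`, `dim (W1 ⊔ W2 ⊔ W3) = 2 d - d123` (its orthogonal is
  `W1 ⊓ W2 ⊓ W3`), so `dim K = d12 + (2 d - d12) + d - (2 d - d123) = d + d123`.
  `ker A`: the `w2'` which occur form `W2 ⊓ (W1 ⊔ W3)`, whose orthogonal is `W2 ⊔ W13`.  So `(w1, w2) ∈ ker A` iff `w1 ∈ W1 ⊓ (W2 ⊔ W13) = W12 ⊔ W13` (modular law, `W13 ≤ W1`).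
  `(w1, w2) ↦ w1` maps `ker A` onto `W12 ⊔ W13` (`w1 = a + b`, `w2 = - a`, `w1 + w2 = b ∈ W3`), with kernel `{(0, c) | c ∈ W23}`.  So
  `dim ker A = d12 + d13 - d123 + d23`.  Hence `2 j + d12 + d13 + d23 = d + 2 d123`.
-/

namespace Pool.Agent.H94.PM

variable {V : Type} [AddCommGroup V] [Module (ZMod 2) V] [Finite V]
  (E : V →ₗ[ZMod 2] V →ₗ[ZMod 2] ZMod 2) (Q : V → ZMod 2)

private theorem qs_symm (hQ : ∀ x y, Q (x + y) = Q x + Q y + E x y) (x y : V) :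
    E x y = E y x := by
  have h1 := hQ x y
  have h2 := hQ y x
  rw [add_comm y x, h1, add_comm (Q y) (Q x)] at h2
  exact add_left_cancel h2

private theorem qs_ker (hE : ∀ x, (∀ y, E x y = 0) → x = 0) : LinearMap.ker E = ⊥ := by
  rw [LinearMap.ker_eq_bot']
  intro u hu
  apply hE
  intro y
  rw [hu]
  rfl

private theorem qs_fin (hE : ∀ x, (∀ y, E x y = 0) → x = 0) (W : Submodule (ZMod 2) V) :
    Module.finrank (ZMod 2) W +
      Module.finrank (ZMod 2) (LinearMap.BilinForm.orthogonal E W) =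
      Module.finrank (ZMod 2) V := by
  have h := LinearMap.BilinForm.finrank_add_finrank_orthogonal' (B := E) W
  have h2 : W ⊓ LinearMap.ker E = ⊥ := by rw [qs_ker E hE, inf_bot_eq]
  rw [h2, finrank_bot, add_zero] at h
  exact h

private theorem qs_mem (W : Submodule (ZMod 2) V) (x : V) :
    x ∈ LinearMap.BilinForm.orthogonal E W ↔ ∀ n ∈ W, E n x = 0 :=
  LinearMap.BilinForm.mem_orthogonal_iff

private theorem qs_perp_perp (hQ : ∀ x y, Q (x + y) = Q x + Q y + E x y)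
    (hE : ∀ x, (∀ y, E x y = 0) → x = 0) (W : Submodule (ZMod 2) V) :
    LinearMap.BilinForm.orthogonal E (LinearMap.BilinForm.orthogonal E W) = W := by
  symm
  refine Submodule.eq_of_le_of_finrank_eq ?_ ?_
  · intro x hx
    rw [qs_mem]
    intro n hn
    rw [qs_mem] at hn
    rw [qs_symm E Q hQ]
    exact hn x hx
  · have h1 := qs_fin E hE W
    have h2 := qs_fin E hE (LinearMap.BilinForm.orthogonal E W)
    omega

private theorem qs_sup (W W' : Submodule (ZMod 2) V) :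
    LinearMap.BilinForm.orthogonal E (W ⊔ W') =
      LinearMap.BilinForm.orthogonal E W ⊓ LinearMap.BilinForm.orthogonal E W' := by
  ext x
  rw [Submodule.mem_inf, qs_mem, qs_mem, qs_mem]
  constructor
  · intro h
    exact ⟨fun n hn => h n (Submodule.mem_sup_left hn), fun n hn => h n (Submodule.mem_sup_right hn)⟩
  · rintro ⟨h1, h2⟩ n hn
    obtain ⟨a, ha, b, hb, rfl⟩ := Submodule.mem_sup.1 hn
    rw [map_add, LinearMap.add_apply, h1 a ha, h2 b hb, add_zero]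

private theorem qs_inf (hQ : ∀ x y, Q (x + y) = Q x + Q y + E x y)
    (hE : ∀ x, (∀ y, E x y = 0) → x = 0) (W W' : Submodule (ZMod 2) V) :
    LinearMap.BilinForm.orthogonal E (W ⊓ W') =
      LinearMap.BilinForm.orthogonal E W ⊔ LinearMap.BilinForm.orthogonal E W' := by
  have h := qs_sup E (LinearMap.BilinForm.orthogonal E W) (LinearMap.BilinForm.orthogonal E W')
  rw [qs_perp_perp E Q hQ hE, qs_perp_perp E Q hQ hE] at h
  rw [← h, qs_perp_perp E Q hQ hE]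

private theorem qs_iso (hQ : ∀ x y, Q (x + y) = Q x + Q y + E x y)
    (W : Submodule (ZMod 2) V) (hW : ∀ w ∈ W, Q w = 0) (x y : V) (hx : x ∈ W) (hy : y ∈ W) :
    E x y = 0 := by
  have h := hQ x y
  rw [hW x hx, hW y hy, hW _ (W.add_mem hx hy), add_zero, zero_add] at h
  exact h.symm

private theorem qs_card (W : Submodule (ZMod 2) V) :
    Nat.card W = 2 ^ Module.finrank (ZMod 2) W := by
  rw [Module.natCard_eq_pow_finrank (K := ZMod 2), Nat.card_zmod]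

private theorem qs_half (W : Submodule (ZMod 2) V) :
    Nat.card W ^ 2 = Nat.card V ↔
      2 * Module.finrank (ZMod 2) W = Module.finrank (ZMod 2) V := by
  rw [qs_card, Module.natCard_eq_pow_finrank (K := ZMod 2) (V := V), Nat.card_zmod, ← pow_mul,
    mul_comm]
  exact (Nat.pow_right_injective (le_refl 2)).eq_iff

private theorem qs_self (hQ : ∀ x y, Q (x + y) = Q x + Q y + E x y)
    (hE : ∀ x, (∀ y, E x y = 0) → x = 0) (W : Submodule (ZMod 2) V) (hW : ∀ w ∈ W, Q w = 0)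
    (hc : Nat.card W ^ 2 = Nat.card V) : LinearMap.BilinForm.orthogonal E W = W := by
  symm
  refine Submodule.eq_of_le_of_finrank_eq ?_ ?_
  · intro x hx
    rw [qs_mem]
    exact fun n hn => qs_iso E Q hQ W hW n x hn hx
  · have h1 := qs_fin E hE W
    rw [qs_half] at hc
    omega

theorem qs_ext (hQ : ∀ x y, Q (x + y) = Q x + Q y + E x y) (hE : ∀ x, (∀ y, E x y = 0) → x = 0)
    (Γ U : Submodule (ZMod 2) V) (hΓ : ∀ w ∈ Γ, Q w = 0) (hU : ∀ w ∈ U, Q w = 0)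
    (hUc : Nat.card U ^ 2 = Nat.card V) :
    ∃ W : Submodule (ZMod 2) V, Γ ≤ W ∧ (∀ w ∈ W, Q w = 0) ∧ Nat.card W ^ 2 = Nat.card V := by
  have hd := (qs_half U).1 hUc
  have hU1 := qs_self E Q hQ hE U hU hUc
  refine ⟨Γ ⊔ (U ⊓ LinearMap.BilinForm.orthogonal E Γ), le_sup_left, ?_, ?_⟩
  · intro w hw
    obtain ⟨γ, hγ, u, hu, rfl⟩ := Submodule.mem_sup.1 hw
    obtain ⟨hu1, hu2⟩ := Submodule.mem_inf.1 hu
    rw [hQ, hΓ γ hγ, hU u hu1, (qs_mem E Γ u).1 hu2 γ hγ, add_zero, add_zero]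
  · rw [qs_half]
    have e1 : U ⊓ LinearMap.BilinForm.orthogonal E Γ =
        LinearMap.BilinForm.orthogonal E (U ⊔ Γ) := by
      rw [qs_sup, hU1]
    have e2 : Γ ⊓ (U ⊓ LinearMap.BilinForm.orthogonal E Γ) = U ⊓ Γ := by
      have h1 : Γ ≤ LinearMap.BilinForm.orthogonal E Γ := by
        intro x hx
        rw [qs_mem]
        exact fun n hn => qs_iso E Q hQ Γ hΓ n x hn hx
      rw [inf_left_comm, inf_eq_left.2 h1]
    have f1 := Submodule.finrank_sup_add_finrank_inf_eq Γ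
      (U ⊓ LinearMap.BilinForm.orthogonal E Γ)
    have f2 := Submodule.finrank_sup_add_finrank_inf_eq U Γ
    have f3 := qs_fin E hE (U ⊔ Γ)
    rw [e2] at f1
    rw [← e1] at f3
    omega

theorem qs_tri (hQ : ∀ x y, Q (x + y) = Q x + Q y + E x y) (hE : ∀ x, (∀ y, E x y = 0) → x = 0)
    (W1 W2 W3 : Submodule (ZMod 2) V) (h1 : ∀ w ∈ W1, Q w = 0) (h2 : ∀ w ∈ W2, Q w = 0)
    (h3 : ∀ w ∈ W3, Q w = 0) (c1 : Nat.card W1 ^ 2 = Nat.card V)
    (c2 : Nat.card W2 ^ 2 = Nat.card V) (c3 : Nat.card W3 ^ 2 = Nat.card V) :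
    ∃ j : ℕ, Nat.card (W1 ⊓ W2 : Submodule (ZMod 2) V) *
      Nat.card (W1 ⊓ W3 : Submodule (ZMod 2) V) * Nat.card (W2 ⊓ W3 : Submodule (ZMod 2) V) *
        4 ^ j = Nat.card W1 * Nat.card (W1 ⊓ W2 ⊓ W3 : Submodule (ZMod 2) V) ^ 2 := by
  have d1 := (qs_half W1).1 c1
  have d2 := (qs_half W2).1 c2
  have d3 := (qs_half W3).1 c3
  have o1 := qs_self E Q hQ hE W1 h1 c1
  have o2 := qs_self E Q hQ hE W2 h2 c2
  have o3 := qs_self E Q hQ hE W3 h3 c3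
  -- the space of the pairs
  obtain ⟨K, hK⟩ : ∃ K : Submodule (ZMod 2) (V × V), ∀ w, w ∈ K ↔
      w.1 ∈ W1 ∧ w.2 ∈ W2 ∧ w.1 + w.2 ∈ W3 := by
    refine ⟨(W1.comap (LinearMap.fst (ZMod 2) V V)) ⊓ ((W2.comap (LinearMap.snd (ZMod 2) V V)) ⊓
      W3.comap (LinearMap.fst (ZMod 2) V V + LinearMap.snd (ZMod 2) V V)), fun w => ?_⟩
    rfl
  obtain ⟨s, hs⟩ : ∃ s : K →ₗ[ZMod 2] V, ∀ w, s w = w.1.1 + w.1.2 :=
    ⟨(LinearMap.fst (ZMod 2) V V + LinearMap.snd (ZMod 2) V V) ∘ₗ K.subtype, fun _ => rfl⟩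
  obtain ⟨pa, hpa⟩ : ∃ pa : K →ₗ[ZMod 2] V, ∀ w, pa w = w.1.1 :=
    ⟨LinearMap.fst (ZMod 2) V V ∘ₗ K.subtype, fun _ => rfl⟩
  obtain ⟨pb, hpb⟩ : ∃ pb : K →ₗ[ZMod 2] V, ∀ w, pb w = w.1.2 :=
    ⟨LinearMap.snd (ZMod 2) V V ∘ₗ K.subtype, fun _ => rfl⟩
  have hneg : ∀ x y : V, x + y = 0 → y = x := by
    intro x y h
    have h0 : (2 : ZMod 2) = 0 := by decide
    have h1 : x + x = 0 := by
      rw [← two_smul (ZMod 2) x, h0, zero_smul]
    have h2 : x + y = x + x := by rw [h, h1]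
    exact add_left_cancel h2
  -- the dimension of the space of the pairs
  have rs : LinearMap.range s = (W1 ⊔ W2) ⊓ W3 := by
    ext x
    rw [LinearMap.mem_range, Submodule.mem_inf, Submodule.mem_sup]
    constructor
    · rintro ⟨w, rfl⟩
      obtain ⟨k1, k2, k3⟩ := (hK w.1).1 w.2
      rw [hs]
      exact ⟨⟨_, k1, _, k2, rfl⟩, k3⟩
    · rintro ⟨⟨a, ha, b, hb, rfl⟩, hab⟩
      exact ⟨⟨(a, b), (hK _).2 ⟨ha, hb, hab⟩⟩, hs _⟩
  have ks : Module.finrank (ZMod 2) (LinearMap.ker s) =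
      Module.finrank (ZMod 2) (W1 ⊓ W2 : Submodule (ZMod 2) V) := by
    have hinj : Function.Injective (pa ∘ₗ (LinearMap.ker s).subtype) := by
      rw [← LinearMap.ker_eq_bot, LinearMap.ker_eq_bot']
      intro w hw
      have e1 : (w.1.1.1 : V) = 0 := by
        have : pa w.1 = 0 := hw
        rw [hpa] at this
        exact this
      have e2 : w.1.1.1 + w.1.1.2 = 0 := by
        have := LinearMap.mem_ker.1 w.2
        rw [hs] at this
        exact this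
      have e3 := hneg _ _ e2
      apply Subtype.ext
      apply Subtype.ext
      exact Prod.ext e1 (e3.trans e1)
    rw [← LinearMap.finrank_range_of_inj hinj]
    suffices hr : LinearMap.range (pa ∘ₗ (LinearMap.ker s).subtype) = W1 ⊓ W2 by rw [hr]
    ext x
    rw [LinearMap.mem_range, Submodule.mem_inf]
    constructor
    · rintro ⟨w, rfl⟩
      obtain ⟨k1, k2, k3⟩ := (hK w.1.1).1 w.1.2
      have e2 : w.1.1.1 + w.1.1.2 = 0 := by
        have := LinearMap.mem_ker.1 w.2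
        rw [hs] at this
        exact this
      have e3 := hneg _ _ e2
      have e4 : (pa ∘ₗ (LinearMap.ker s).subtype) w = w.1.1.1 := hpa _
      rw [e4]
      exact ⟨k1, e3 ▸ k2⟩
    · rintro ⟨hx1, hx2⟩
      have h0 : (2 : ZMod 2) = 0 := by decide
      have hxx : x + x = 0 := by
        rw [← two_smul (ZMod 2) x, h0, zero_smul]
      have hm : ((x, x) : V × V) ∈ K := (hK _).2 ⟨hx1, hx2, by
        show x + x ∈ W3
        rw [hxx]
        exact W3.zero_mem⟩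
      exact ⟨⟨⟨(x, x), hm⟩, LinearMap.mem_ker.2 ((hs _).trans hxx)⟩, hpa _⟩
  have fK := LinearMap.finrank_range_add_finrank_ker s
  rw [rs, ks] at fK
  -- the form
  obtain ⟨A, hA⟩ : ∃ A : K →ₗ[ZMod 2] K →ₗ[ZMod 2] ZMod 2, ∀ w w', A w w' = E w.1.1 w'.1.2 := by
    refine ⟨E.compl₁₂ pa pb, fun w w' => ?_⟩
    rw [LinearMap.compl₁₂_apply, hpa, hpb]
  have hAalt : ∀ w, A w w = 0 := by
    intro w
    obtain ⟨k1, k2, k3⟩ := (hK w.1).1 w.2
    rw [hA]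
    have h := hQ w.1.1 w.1.2
    rw [h1 _ k1, h2 _ k2, h3 _ k3, add_zero, zero_add] at h
    exact h.symm
  obtain ⟨j, hj⟩ := Pool.Agent.H94.PC.alt_card A hAalt
  -- the radical
  have hkA : ∀ w : K, w ∈ LinearMap.ker A ↔ w.1.1 ∈ (W1 ⊓ W2) ⊔ (W1 ⊓ W3) := by
    intro w
    obtain ⟨k1, k2, k3⟩ := (hK w.1).1 w.2
    have e1 : LinearMap.BilinForm.orthogonal E (W2 ⊓ (W1 ⊔ W3)) = W2 ⊔ (W1 ⊓ W3) := by
      rw [qs_inf E Q hQ hE, qs_sup, o1, o2, o3]
    have e2 : (W1 ⊓ W3) ⊔ (W1 ⊓ W2) = W1 ⊓ (W2 ⊔ (W1 ⊓ W3)) := by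
      have h := sup_inf_assoc_of_le W2 (inf_le_left : W1 ⊓ W3 ≤ W1)
      rw [inf_comm W1 (W2 ⊔ (W1 ⊓ W3)), sup_comm W2, h, inf_comm W2 W1]
    rw [sup_comm, e2, Submodule.mem_inf, ← e1, qs_mem, LinearMap.mem_ker]
    constructor
    · intro hw
      refine ⟨k1, fun y hy => ?_⟩
      obtain ⟨hy2, hy13⟩ := Submodule.mem_inf.1 hy
      obtain ⟨a, ha, c, hc, hac⟩ := Submodule.mem_sup.1 hy13
      have h0 : (2 : ZMod 2) = 0 := by decide
      have haa : a + a = 0 := by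
        rw [← two_smul (ZMod 2) a, h0, zero_smul]
      have hm : ((a, y) : V × V) ∈ K := (hK _).2 ⟨ha, hy2, by
        show a + y ∈ W3
        rw [← hac, ← add_assoc, haa, zero_add]
        exact hc⟩
      have h := LinearMap.congr_fun hw ⟨(a, y), hm⟩
      rw [hA] at h
      rw [qs_symm E Q hQ]
      exact h
    · rintro ⟨_, hw⟩
      ext w'
      obtain ⟨l1, l2, l3⟩ := (hK w'.1).1 w'.2
      rw [hA, qs_symm E Q hQ]
      refine hw _ (Submodule.mem_inf.2 ⟨l2, ?_⟩)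
      have h0 : (2 : ZMod 2) = 0 := by decide
      have haa : w'.1.1 + w'.1.1 = 0 := by
        rw [← two_smul (ZMod 2) w'.1.1, h0, zero_smul]
      refine Submodule.mem_sup.2 ⟨_, l1, _, l3, ?_⟩
      rw [← add_assoc, haa, zero_add]
  obtain ⟨t, ht⟩ : ∃ t : LinearMap.ker A →ₗ[ZMod 2] V, ∀ w, t w = w.1.1.1 :=
    ⟨pa ∘ₗ (LinearMap.ker A).subtype, fun w => hpa _⟩
  obtain ⟨t2, ht2⟩ : ∃ t2 : LinearMap.ker t →ₗ[ZMod 2] V, ∀ w, t2 w = w.1.1.1.2 :=
    ⟨pb ∘ₗ ((LinearMap.ker A).subtype ∘ₗ (LinearMap.ker t).subtype), fun w => hpb _⟩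
  have rt : LinearMap.range t = (W1 ⊓ W2) ⊔ (W1 ⊓ W3) := by
    ext x
    rw [LinearMap.mem_range]
    constructor
    · rintro ⟨w, rfl⟩
      rw [ht]
      exact (hkA w.1).1 w.2
    · intro hx
      obtain ⟨a, ha, b, hb, hab⟩ := Submodule.mem_sup.1 hx
      obtain ⟨ha1, ha2⟩ := Submodule.mem_inf.1 ha
      obtain ⟨hb1, hb3⟩ := Submodule.mem_inf.1 hb
      have h0 : (2 : ZMod 2) = 0 := by decide
      have haa : a + a = 0 := by
        rw [← two_smul (ZMod 2) a, h0, zero_smul]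
      have hm : ((x, a) : V × V) ∈ K := by
        rw [hK]
        refine ⟨?_, ha2, ?_⟩
        · show x ∈ W1
          rw [← hab]
          exact W1.add_mem ha1 hb1
        · show x + a ∈ W3
          rw [← hab, add_comm a b, add_assoc, haa, add_zero]
          exact hb3
      exact ⟨⟨⟨(x, a), hm⟩, (hkA _).2 hx⟩, ht _⟩
  have kt : Module.finrank (ZMod 2) (LinearMap.ker t) =
      Module.finrank (ZMod 2) (W2 ⊓ W3 : Submodule (ZMod 2) V) := by
    have hinj : Function.Injective t2 := by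
      rw [← LinearMap.ker_eq_bot, LinearMap.ker_eq_bot']
      intro w hw
      rw [ht2] at hw
      have e1 := LinearMap.mem_ker.1 w.2
      rw [ht] at e1
      apply Subtype.ext
      apply Subtype.ext
      apply Subtype.ext
      exact Prod.ext e1 hw
    rw [← LinearMap.finrank_range_of_inj hinj]
    suffices hr : LinearMap.range t2 = W2 ⊓ W3 by rw [hr]
    ext x
    rw [LinearMap.mem_range, Submodule.mem_inf]
    constructor
    · rintro ⟨w, rfl⟩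
      obtain ⟨k1, k2, k3⟩ := (hK w.1.1.1).1 w.1.1.2
      have e1 := LinearMap.mem_ker.1 w.2
      rw [ht] at e1
      rw [ht2]
      rw [e1, zero_add] at k3
      exact ⟨k2, k3⟩
    · rintro ⟨hx2, hx3⟩
      have hm : ((0, x) : V × V) ∈ K := (hK _).2 ⟨W1.zero_mem, hx2, by
        show 0 + x ∈ W3
        rw [zero_add]
        exact hx3⟩
      have hm2 : (⟨(0, x), hm⟩ : K) ∈ LinearMap.ker A := (hkA _).2 (Submodule.zero_mem _)
      exact ⟨⟨⟨⟨(0, x), hm⟩, hm2⟩, LinearMap.mem_ker.2 (ht _)⟩, ht2 _⟩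
  have fA := LinearMap.finrank_range_add_finrank_ker t
  rw [rt, kt] at fA
  -- the dimensions
  have g1 := Submodule.finrank_sup_add_finrank_inf_eq (W1 ⊓ W2) (W1 ⊓ W3)
  have g1' : (W1 ⊓ W2) ⊓ (W1 ⊓ W3) = W1 ⊓ W2 ⊓ W3 := by
    rw [inf_inf_inf_comm, inf_idem, inf_assoc]
  rw [g1'] at g1
  have g2 := Submodule.finrank_sup_add_finrank_inf_eq (W1 ⊔ W2) W3
  have g3 := Submodule.finrank_sup_add_finrank_inf_eq W1 W2
  have g4 := qs_fin E hE (W1 ⊔ W2 ⊔ W3)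
  rw [qs_sup, qs_sup, o1, o2, o3] at g4
  have cK : Nat.card K = 2 ^ Module.finrank (ZMod 2) K := by
    rw [Module.natCard_eq_pow_finrank (K := ZMod 2), Nat.card_zmod]
  have cA : Nat.card (LinearMap.ker A) = 2 ^ Module.finrank (ZMod 2) (LinearMap.ker A) := by
    rw [Module.natCard_eq_pow_finrank (K := ZMod 2), Nat.card_zmod]
  rw [cK, cA] at hj
  have h4 : (4 : ℕ) ^ j = 2 ^ (2 * j) := by
    rw [pow_mul]
    norm_num
  rw [h4, ← pow_add] at hj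
  have hj2 := Nat.pow_right_injective (le_refl 2) hj
  refine ⟨j, ?_⟩
  rw [qs_card, qs_card, qs_card, qs_card, qs_card, h4, ← pow_add, ← pow_add, ← pow_add, ← pow_mul,
    ← pow_add]
  congr 1
  omega

end Pool.Agent.H94.PM
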