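import Pool.Agent.H94.PM.ID2
import Pool.Agent.H94.PM.LOCE
import Pool.Agent.H94.PM.PARA
import Pool.Agent.H94.PM.QS

set_option autoImplicit false

/-!
# [H94 PM PAR] Parity of the dimension of the group of classes, `ℓ = 2`

`X = XX m 2`, `N = card X`, `E0 = EE X (pf (dl A))`.
* `Qr_WC`: `id1`.  `card_WC2`: `card_loc`, `card_EE`.
* `par`: `para` with `b0 ε ε' = B ε.1 ε'.1 + ∑ v, B (ε.2 v) (ε'.2 v)`, `b2 ξ ξ' = lg (-1) B ξ.1 ξ'.1`, `R = pf D → X`, `b1 x x' = ∑ P, B (x P) (x' P)`, `ξ = xi χ (dl A) D`,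
  `(η ε) P = deg P • ε.1 + ∑ v, lm v P • ε.2 v`, `G x = EM (0, x)`, `W = WC ..`; `EM (ε, x) P = (η ε) P + (G x) P`; `hadj`: both sides are `∑ P, (deg P x P · κ + ∑ v, lm v P x P · y v)`;
  `hW`: `Er = 0` on `WC` by `Qr_WC`, `Qr_add`; `h0`: `b1 x (EM z) = Qr (ε, ξ x) = 0` (`id2`, `BB_symm`).
* `ev_dich`: `card X = 2 ^ (m - 1) = 4 ^ h` (`card_XX`, `m` odd), `card KM = 2 ^ i * card X` (`card KM` is a power of `2`, `≥ card X`), `card (pf D → X) = (4 ^ h) ^ r`.  In `par` all exponents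
  of `2` except `i` are even, so `i` is even: `i = 0` or `i ≥ 2`.
* `Ev_flip`: `qs_tri` in `V = E0 × E0` with `Q = Qr`, `E = Er`, `W1 = L = {z | z.2 = 0}` (`Qr = 0` on `L`, `card L = card E0`), `W2 = WC t`, `W3 = WC (flip v0 t)`; `card V = (card E0) ^ 2`.
  `card (L ⊓ W2) = card (K1 W2)`, the same for `W3`.  `cls v (flip t) = cls v t` for `v ≠ v0` and `cls v0 (flip t) = cls v0 t + 1`, `(flip t).1 = t.1`; so `W2 ⊓ W3` is
  the group of `card_loc` for `Zl v = Wl v (cls v t) ⊓ Wl v (cls v (flip t))` and `2 * card (W2 ⊓ W3) = N ^ (card S + 1)` by `hinf`.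
  `card (K1 W2) * card (K1 W3) * N ^ (card S + 1) * 4 ^ j = 2 * N ^ (card S + 1) * (power of 2) ^ 2`: so the exponents of `2` in `card (K1 W2)` and `card (K1 W3)` (powers of `2`) have an odd sum.
-/

namespace Pool.Agent.H94.PM

open Polynomial
open Pool.Agent.H94.PL
open Pool.Agent.H94.PC (Mo Sq Pr pf om Mn mem_Mo mem_Sq mem_Pr mem_pf mem_pf')

/-- the elements `ε` with `(ε, 0) ∈ W` -/
def K1 {E0 : Type} [AddCommGroup E0] [Module (ZMod 2) E0] (W : Submodule (ZMod 2) (E0 × E0)) :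
    Submodule (ZMod 2) E0 := W.comap (LinearMap.inl (ZMod 2) E0 E0)

/-- the dimension of `K1 W` is even -/
def Ev {E0 : Type} [AddCommGroup E0] [Module (ZMod 2) E0] (W : Submodule (ZMod 2) (E0 × E0)) :
    Prop := ∃ j : ℕ, Nat.card (K1 W) = 4 ^ j

variable {F : Type} [Field F] [Finite F] {m : ℕ} (χ : LChar F 2) (A : Fin m → F[X])
  (Wl : pf (dl A) → ZMod 2 → Submodule (ZMod 2) (XX m 2 × XX m 2))
  (Wi : ZMod 2 → Submodule (ZMod 2) (XX m 2 × XX m 2))

/-- the local conditions are maximal totally singular -/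
structure LOK : Prop where
  cl : ∀ v b, Nat.card (Wl v b) = Nat.card (XX m 2)
  ql : ∀ v b, ∀ g ∈ Wl v b,
    qf (χ.lg (-1) * (v.1.natDegree : ZMod 2)) (phV A v) (psV χ A v) g = 0
  ci : ∀ b, Nat.card (Wi b) = Nat.card (XX m 2)
  qi : ∀ b, ∀ g ∈ Wi b, qf (χ.lg (-1)) (phI A) (psI χ A) g = 0

open Classical in
/-- change the type at `v0` -/
noncomputable def flip {S : Type} (v0 : S) (t : Tp 2 S) : Tp 2 S :=
  (t.1, Function.update t.2 v0 (t.2 v0 + 1))

variable {χ A Wl Wi}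

theorem Qr_WC (hA : ∀ i k, i ≠ k → A i ≠ A k) (h : LOK χ A Wl Wi) (c : F)
    (t : Tp 2 (pf (dl A))) {z : EE (XX m 2) (pf (dl A)) × EE (XX m 2) (pf (dl A))}
    (hz : z ∈ WC χ c Wl Wi t) : Qr χ A z = 0 := by
  obtain ⟨h1, h2⟩ := (mem_WC χ).1 hz
  rw [id1 χ A hA z, h.qi _ _ h2, add_zero]
  exact Finset.sum_eq_zero fun v _ => h.ql v _ _ (h1 v)

theorem card_WC2 (h : LOK χ A Wl Wi) (c : F) (t : Tp 2 (pf (dl A))) :
    Nat.card (WC χ c Wl Wi t) = Nat.card (EE (XX m 2) (pf (dl A))) := by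
  have e := card_loc χ (fun v => Wl v (cls χ c v t)) (Wi (-t.1))
  rw [WC, e, h.ci, card_EE A, pow_succ, Finset.prod_congr rfl fun v _ => h.cl v _,
    Finset.prod_const, Finset.card_univ]

theorem par (hm : Nat.Coprime m 2) (hA : ∀ i k, i ≠ k → A i ≠ A k) (h : LOK χ A Wl Wi) (c : F)
    (D : F[X]) : ∃ j k : ℕ, Nat.card (KM χ (DC χ c A Wl Wi) D) *
      Nat.card (K1 (WC χ c Wl Wi (ty χ (dl A) D))) * 4 ^ j =
        Nat.card (pf D → XX m 2) * (2 ^ k) ^ 2 := by
  have hg := BB_good hm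
  obtain ⟨b0, hb0⟩ : ∃ b0 : EE (XX m 2) (pf (dl A)) →ₗ[ZMod 2] EE (XX m 2) (pf (dl A)) →ₗ[ZMod 2]
      ZMod 2, ∀ ε ε', b0 ε ε' = BB m 2 ε.1 ε'.1 + ∑ v, BB m 2 (ε.2 v) (ε'.2 v) := by
    refine ⟨LinearMap.mk₂ (ZMod 2)
      (fun ε ε' => BB m 2 ε.1 ε'.1 + ∑ v, BB m 2 (ε.2 v) (ε'.2 v)) ?_ ?_ ?_ ?_, fun _ _ => rfl⟩
    · intro u u' w
      simp only [Prod.snd_add, Prod.fst_add, Pi.add_apply, map_add, LinearMap.add_apply,
        Finset.sum_add_distrib]
      ring
    · intro c u w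
      simp only [Prod.smul_snd, Prod.smul_fst, Pi.smul_apply, map_smul, LinearMap.smul_apply,
        smul_eq_mul, Finset.mul_sum, mul_add]
    · intro u w w'
      simp only [Prod.snd_add, Prod.fst_add, Pi.add_apply, map_add,
        Finset.sum_add_distrib]
      ring
    · intro c u w
      simp only [Prod.smul_snd, Prod.smul_fst, Pi.smul_apply, map_smul,
        smul_eq_mul, Finset.mul_sum, mul_add]
  obtain ⟨b2, hb2⟩ : ∃ b2 : EE (XX m 2) (pf (dl A)) →ₗ[ZMod 2] EE (XX m 2) (pf (dl A)) →ₗ[ZMod 2]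
      ZMod 2, ∀ ε ε', b2 ε ε' = χ.lg (-1) * BB m 2 ε.1 ε'.1 := by
    refine ⟨LinearMap.mk₂ (ZMod 2)
      (fun ε ε' => χ.lg (-1) * BB m 2 ε.1 ε'.1) ?_ ?_ ?_ ?_, fun _ _ => rfl⟩
    · intro u u' w
      simp only [Prod.fst_add, map_add, LinearMap.add_apply]
      ring
    · intro c u w
      simp only [Prod.smul_fst, map_smul, LinearMap.smul_apply, smul_eq_mul]
      ring
    · intro u w w'
      simp only [Prod.fst_add, map_add]
      ring
    · intro c u w
      simp only [Prod.smul_fst, map_smul, smul_eq_mul]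
      ring
  obtain ⟨b1, hb1⟩ : ∃ b1 : (pf D → XX m 2) →ₗ[ZMod 2] (pf D → XX m 2) →ₗ[ZMod 2]
      ZMod 2, ∀ x x', b1 x x' = ∑ P, BB m 2 (x P) (x' P) := by
    refine ⟨LinearMap.mk₂ (ZMod 2)
      (fun x x' => ∑ P, BB m 2 (x P) (x' P)) ?_ ?_ ?_ ?_, fun _ _ => rfl⟩
    · intro u u' w
      simp only [Pi.add_apply, map_add, LinearMap.add_apply, Finset.sum_add_distrib]
    · intro c u w
      simp only [Pi.smul_apply, map_smul, LinearMap.smul_apply, smul_eq_mul, Finset.mul_sum]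
    · intro u w w'
      simp only [Pi.add_apply, map_add, Finset.sum_add_distrib]
    · intro c u w
      simp only [Pi.smul_apply, map_smul, smul_eq_mul, Finset.mul_sum]
  obtain ⟨ξ, hξ⟩ : ∃ ξ : (pf D → XX m 2) →ₗ[ZMod 2] EE (XX m 2) (pf (dl A)),
      ∀ x, ξ x = xi χ (dl A) D x := by
    refine ⟨{ toFun := fun x => xi χ (dl A) D x, map_add' := ?_, map_smul' := ?_ }, fun _ => rfl⟩
    · intro x y
      refine Prod.ext ?_ ?_
      · simp [xi, Finset.sum_add_distrib]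
      · funext v
        simp [xi, Finset.sum_add_distrib]
    · intro c x
      refine Prod.ext ?_ ?_
      · simp [xi, Finset.smul_sum, smul_comm c]
      · funext v
        simp [xi, Finset.smul_sum, smul_comm c]
  obtain ⟨η, hη⟩ : ∃ η : EE (XX m 2) (pf (dl A)) →ₗ[ZMod 2] (pf D → XX m 2),
      ∀ ε P, η ε P = (P.1.natDegree : ZMod 2) • ε.1 + ∑ v : pf (dl A), lm χ v.1 P.1 • ε.2 v := by
    refine ⟨{ toFun := fun ε P => (P.1.natDegree : ZMod 2) • ε.1 +
      ∑ v : pf (dl A), lm χ v.1 P.1 • ε.2 v, map_add' := ?_, map_smul' := ?_ }, fun _ _ => rfl⟩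
    · intro x y
      funext P
      simp only [Prod.fst_add, Prod.snd_add, Pi.add_apply, smul_add, Finset.sum_add_distrib]
      abel
    · intro c x
      funext P
      simp only [Prod.smul_fst, Prod.smul_snd, Pi.smul_apply, smul_add, Finset.smul_sum,
        RingHom.id_apply]
      simp only [smul_comm c]
  obtain ⟨G, hG⟩ : ∃ G : (pf D → XX m 2) →ₗ[ZMod 2] (pf D → XX m 2),
      ∀ x P, G x P = EM χ (DC χ c A Wl Wi) D (0, x) P := by
    refine ⟨{ toFun := fun x P => EM χ (DC χ c A Wl Wi) D (0, x) P, map_add' := ?_,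
              map_smul' := ?_ }, fun _ _ => rfl⟩
    · intro x y
      funext P
      simp only [EM, Prod.fst_zero, Prod.snd_zero, Pi.add_apply, Pi.zero_apply, map_add, smul_add,
        add_sub_add_comm, Finset.sum_add_distrib, zero_add]
      abel
    · intro c x
      funext P
      simp only [EM, Prod.fst_zero, Prod.snd_zero, Pi.smul_apply, Pi.zero_apply, map_smul,
        smul_add, Finset.smul_sum, RingHom.id_apply, zero_add]
      simp only [smul_comm c]
      simp only [smul_sub]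
  have hEM : ∀ (ε : EE (XX m 2) (pf (dl A))) (x : pf D → XX m 2) (P : pf D),
      EM χ (DC χ c A Wl Wi) D (ε, x) P = (η ε + G x) P := by
    intro ε x P
    rw [Pi.add_apply, hη, hG]
    simp only [EM, Prod.fst_zero, Prod.snd_zero, Pi.zero_apply, smul_add,
      Finset.sum_add_distrib, zero_add]
    abel
  have hn : ∀ x : XX m 2, (∀ y, BB m 2 x y = 0) → x = 0 := fun x h => hg.nondeg x h
  obtain ⟨j, k, hjk⟩ := para b0 b2 b1
    (fun x y => by
      rw [hb0, hb0, BB_symm x.1]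
      exact congrArg _ (Finset.sum_congr rfl fun v _ => BB_symm _ _))
    (fun x h => by
      classical
      refine Prod.ext (hn _ fun y => ?_) (funext fun v => hn _ fun y => ?_)
      · have h1 := h (y, 0)
        rw [hb0] at h1
        simpa using h1
      · have h1 := h (0, Pi.single v y)
        rw [hb0, Finset.sum_eq_single v] at h1
        · simpa using h1
        · intro w _ hw
          show BB m 2 (x.2 w) ((Pi.single v y : pf (dl A) → XX m 2) w) = 0
          rw [Pi.single_eq_of_ne hw, map_zero]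
        · intro hv
          exact absurd (Finset.mem_univ v) hv)
    (fun x y => by
      rw [hb1, hb1]
      exact Finset.sum_congr rfl fun v _ => BB_symm _ _)
    (fun x h => by
      classical
      refine funext fun v => hn _ fun y => ?_
      have h1 := h (Pi.single v y)
      rw [hb1, Finset.sum_eq_single v] at h1
      · simpa using h1
      · intro w _ hw
        rw [Pi.single_eq_of_ne hw, map_zero]
      · intro hv
        exact absurd (Finset.mem_univ v) hv)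
    ξ η
    (fun x ε => by
      rw [hb0, hb1, hξ]
      simp only [xi, hη, map_add, map_sum, map_smul, smul_eq_mul, Finset.sum_add_distrib]
      congr 1
      · exact Finset.sum_congr rfl fun P _ => by rw [BB_symm]
      · rw [Finset.sum_comm]
        exact Finset.sum_congr rfl fun v _ => Finset.sum_congr rfl fun P _ => by rw [BB_symm])
    G (WC χ c Wl Wi (ty χ (dl A) D)) (card_WC2 h c _)
    (fun z hz z' hz' => by
      have h1 := Qr_add χ A z z'
      rw [Qr_WC hA h c _ hz, Qr_WC hA h c _ hz', Qr_WC hA h c _ (Submodule.add_mem _ hz hz'),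
        add_zero, zero_add] at h1
      rw [hb0, hb0, hb2]
      exact h1.symm)
    (fun ε x hx => by
      rw [hξ] at hx
      have h1 := id2 χ A c Wl Wi (D := D) (ε, x)
      rw [Qr_WC hA h c _ hx] at h1
      rw [hb1, ← h1]
      exact Finset.sum_congr rfl fun P _ => by rw [hEM])
  refine ⟨j, k, ?_⟩
  rw [← hjk]
  congr 2
  · apply Nat.card_congr
    refine Equiv.subtypeEquivRight fun g => ?_
    rw [mem_KM, hξ]
    refine and_congr Iff.rfl ?_
    rw [funext_iff]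
    exact forall_congr' fun P => by rw [← hEM]; rfl

theorem ev_dich (hm : Nat.Coprime m 2) (hA : ∀ i k, i ≠ k → A i ≠ A k) (h : LOK χ A Wl Wi)
    (c : F) (D : F[X]) (hev : Ev (WC χ c Wl Wi (ty χ (dl A) D)))
    (hle : Nat.card (XX m 2) ≤ Nat.card (KM χ (DC χ c A Wl Wi) D)) :
    Nat.card (KM χ (DC χ c A Wl Wi) D) = Nat.card (XX m 2) ∨
      4 * Nat.card (XX m 2) ≤ Nat.card (KM χ (DC χ c A Wl Wi) D) := by
  obtain ⟨j, k, hjk⟩ := par hm hA h c D
  obtain ⟨j0, hj0⟩ := hev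
  have hodd : Odd m := Nat.coprime_two_right.1 hm
  obtain ⟨n, hn⟩ := hodd
  have hX : Nat.card (XX m 2) = 2 ^ (2 * n) := by
    rw [card_XX (by omega), hn]
    rfl
  have hK : Nat.card (KM χ (DC χ c A Wl Wi) D) =
      2 ^ Module.finrank (ZMod 2) (KM χ (DC χ c A Wl Wi) D) := by
    rw [Module.natCard_eq_pow_finrank (K := ZMod 2), Nat.card_zmod]
  generalize Module.finrank (ZMod 2) (KM χ (DC χ c A Wl Wi) D) = i at hK
  rw [hK, hX] at hle
  rw [hj0, hK, Nat.card_fun, hX] at hjk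
  have h4 : ∀ a : ℕ, 4 ^ a = 2 ^ (2 * a) := fun a => by
    rw [pow_mul]
    norm_num
  rw [h4, h4, ← pow_mul, ← pow_mul, ← pow_add, ← pow_add, ← pow_add] at hjk
  have h5 := Nat.pow_right_injective le_rfl hjk
  have h6 : 2 * n ≤ i := (Nat.pow_le_pow_iff_right (by norm_num)).1 hle
  have h7 : 2 * n * Nat.card (pf D) = 2 * (n * Nat.card (pf D)) := by ring
  rw [hK, hX]
  have h8 : i = 2 * n ∨ 2 + 2 * n ≤ i := by
    rw [h7] at h5
    omega
  rcases h8 with h8 | h8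
  · left
    rw [h8]
  · right
    calc 4 * 2 ^ (2 * n) = 2 ^ (2 + 2 * n) := by rw [pow_add]; norm_num
      _ ≤ 2 ^ i := Nat.pow_le_pow_right (by norm_num) h8

theorem Ev_flip (hm : Nat.Coprime m 2) (hA : ∀ i k, i ≠ k → A i ≠ A k) (h : LOK χ A Wl Wi)
    (c : F) (v0 : pf (dl A))
    (hinf : ∀ b, 2 * Nat.card (Wl v0 b ⊓ Wl v0 (b + 1) : Submodule (ZMod 2) (XX m 2 × XX m 2)) =
      Nat.card (XX m 2)) (t : Tp 2 (pf (dl A))) :
    Ev (WC χ c Wl Wi t) ↔ ¬ Ev (WC χ c Wl Wi (flip v0 t)) := by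
  classical
  have hV : ∀ W : Submodule (ZMod 2) (EE (XX m 2) (pf (dl A)) × EE (XX m 2) (pf (dl A))),
      Nat.card W = Nat.card (EE (XX m 2) (pf (dl A))) →
      Nat.card W ^ 2 = Nat.card (EE (XX m 2) (pf (dl A)) × EE (XX m 2) (pf (dl A))) := by
    intro W hW
    rw [hW, sq]
    exact (Nat.card_prod _ _).symm
  obtain ⟨L, hL⟩ : ∃ L : Submodule (ZMod 2)
      (EE (XX m 2) (pf (dl A)) × EE (XX m 2) (pf (dl A))), ∀ z, z ∈ L ↔ z.2 = 0 :=
    ⟨LinearMap.ker (LinearMap.snd (ZMod 2) _ _), fun z => LinearMap.mem_ker⟩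
  have hLc : Nat.card L = Nat.card (EE (XX m 2) (pf (dl A))) := by
    apply Nat.card_congr
    refine ⟨fun z => z.1.1, fun ε => ⟨(ε, 0), (hL _).2 rfl⟩, fun z => ?_, fun ε => rfl⟩
    exact Subtype.ext (Prod.ext rfl ((hL _).1 z.2).symm)
  have hLQ : ∀ w ∈ L, Qr χ A w = 0 := by
    intro w hw
    have h1 : w.2 = 0 := (hL w).1 hw
    unfold Qr
    rw [h1]
    simp [dot, c2]
  have hK : ∀ W : Submodule (ZMod 2) (EE (XX m 2) (pf (dl A)) × EE (XX m 2) (pf (dl A))),
      Nat.card (L ⊓ W : Submodule (ZMod 2)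
        (EE (XX m 2) (pf (dl A)) × EE (XX m 2) (pf (dl A)))) = Nat.card (K1 W) := by
    intro W
    apply Nat.card_congr
    refine ⟨fun z => ⟨z.1.1, ?_⟩, fun ε => ⟨(ε.1, 0), ⟨(hL _).2 rfl, ε.2⟩⟩, fun z => ?_,
      fun ε => rfl⟩
    · have h1 : z.1.2 = 0 := (hL _).1 z.2.1
      have h2 : z.1 ∈ W := z.2.2
      show (z.1.1, (0 : EE (XX m 2) (pf (dl A)))) ∈ W
      rw [← h1]
      exact h2
    · exact Subtype.ext (Prod.ext rfl ((hL _).1 z.2.1).symm)
  obtain ⟨j, hj⟩ := qs_tri (Er χ A) (Qr χ A) (Qr_add χ A) (Er_nondeg χ A hm) L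
    (WC χ c Wl Wi t) (WC χ c Wl Wi (flip v0 t)) hLQ (fun w hw => Qr_WC hA h c _ hw)
    (fun w hw => Qr_WC hA h c _ hw) (hV _ hLc) (hV _ (card_WC2 h c _)) (hV _ (card_WC2 h c _))
  rw [hK, hK, hLc] at hj
  have hfl1 : (flip v0 t).1 = t.1 := rfl
  have hfl2 : ∀ v, v ≠ v0 → cls χ c v (flip v0 t) = cls χ c v t := by
    intro v hv
    unfold cls
    have h1 : (flip v0 t).2 v = t.2 v := by
      simp only [flip]
      exact @Function.update_of_ne _ _ (fun a b => Classical.propDecidable (a = b)) _ _ hv _ _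
    rw [h1, hfl1]
  have hfl3 : cls χ c v0 (flip v0 t) = cls χ c v0 t + 1 := by
    unfold cls
    have h1 : (flip v0 t).2 v0 = t.2 v0 + 1 := by
      simp only [flip]
      exact @Function.update_self _ _ (fun a b => Classical.propDecidable (a = b)) _ _ _
    rw [h1, hfl1]
    ring
  have hcard : 2 * Nat.card (WC χ c Wl Wi t ⊓ WC χ c Wl Wi (flip v0 t) : Submodule (ZMod 2)
      (EE (XX m 2) (pf (dl A)) × EE (XX m 2) (pf (dl A)))) =
      Nat.card (EE (XX m 2) (pf (dl A))) := by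
    have h1 : (WC χ c Wl Wi t ⊓ WC χ c Wl Wi (flip v0 t) : Submodule (ZMod 2)
        (EE (XX m 2) (pf (dl A)) × EE (XX m 2) (pf (dl A)))) =
        ((⨅ v, (Wl v (cls χ c v t) ⊓ Wl v (cls χ c v (flip v0 t)) :
          Submodule (ZMod 2) (XX m 2 × XX m 2)).comap (locv χ v)) ⊓
          (Wi (-t.1)).comap loci : Submodule (ZMod 2)
        (EE (XX m 2) (pf (dl A)) × EE (XX m 2) (pf (dl A)))) := by
      ext z
      rw [Submodule.mem_inf, mem_WC, mem_WC, hfl1, Submodule.mem_inf, Submodule.mem_iInf]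
      simp only [Submodule.mem_comap, Submodule.mem_inf]
      constructor
      · rintro ⟨⟨a, b⟩, a', b'⟩
        exact ⟨fun v => ⟨a v, a' v⟩, b⟩
      · rintro ⟨a, b⟩
        exact ⟨⟨fun v => (a v).1, b⟩, fun v => (a v).2, b⟩
    have h2 := card_loc χ (fun v => (Wl v (cls χ c v t) ⊓ Wl v (cls χ c v (flip v0 t)) :
          Submodule (ZMod 2) (XX m 2 × XX m 2))) (Wi (-t.1))
    rw [h1, h2, h.ci, ← Finset.mul_prod_erase Finset.univ _ (Finset.mem_univ v0), ← mul_assoc,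
      ← mul_assoc, hfl3, hinf]
    have h3 : ∏ v ∈ Finset.univ.erase v0, Nat.card (Wl v (cls χ c v t) ⊓
        Wl v (cls χ c v (flip v0 t)) : Submodule (ZMod 2) (XX m 2 × XX m 2)) =
        Nat.card (XX m 2) ^ (Finset.univ.erase v0).card := by
      rw [Finset.prod_congr rfl fun v hv => ?_, Finset.prod_const]
      rw [hfl2 v (Finset.ne_of_mem_erase hv), inf_idem, h.cl]
    rw [h3, card_EE, Finset.card_erase_of_mem (Finset.mem_univ v0), Finset.card_univ,
      ← pow_succ', ← pow_succ]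
    have h4 : 0 < Fintype.card (pf (dl A)) := Fintype.card_pos_iff.2 ⟨v0⟩
    congr 1
    omega
  have hpos : 0 < Nat.card (EE (XX m 2) (pf (dl A))) := Nat.card_pos
  have hmain : Nat.card (K1 (WC χ c Wl Wi t)) * Nat.card (K1 (WC χ c Wl Wi (flip v0 t))) *
      4 ^ j = 2 * Nat.card (L ⊓ WC χ c Wl Wi t ⊓ WC χ c Wl Wi (flip v0 t) :
        Submodule (ZMod 2) (EE (XX m 2) (pf (dl A)) × EE (XX m 2) (pf (dl A)))) ^ 2 := by
    apply Nat.eq_of_mul_eq_mul_left hpos
    nth_rewrite 1 [← hcard]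
    calc _ = 2 * (Nat.card (K1 (WC χ c Wl Wi t)) * Nat.card (K1 (WC χ c Wl Wi (flip v0 t))) *
          Nat.card (WC χ c Wl Wi t ⊓ WC χ c Wl Wi (flip v0 t) : Submodule (ZMod 2)
            (EE (XX m 2) (pf (dl A)) × EE (XX m 2) (pf (dl A)))) * 4 ^ j) := by ring
      _ = _ := by rw [hj]; ring
  have hpw : ∀ W : Submodule (ZMod 2) (EE (XX m 2) (pf (dl A)) × EE (XX m 2) (pf (dl A))),
      Nat.card W = 2 ^ Module.finrank (ZMod 2) W := by
    intro W
    rw [Module.natCard_eq_pow_finrank (K := ZMod 2), Nat.card_zmod]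
  have hpw1 : ∀ W : Submodule (ZMod 2) (EE (XX m 2) (pf (dl A))),
      Nat.card W = 2 ^ Module.finrank (ZMod 2) W := by
    intro W
    rw [Module.natCard_eq_pow_finrank (K := ZMod 2), Nat.card_zmod]
  have h4 : ∀ a : ℕ, 4 ^ a = 2 ^ (2 * a) := fun a => by
    rw [pow_mul]
    norm_num
  rw [hpw, hpw1, hpw1, h4, ← pow_mul, ← pow_succ', ← pow_add, ← pow_add] at hmain
  have h5 := Nat.pow_right_injective le_rfl hmain
  have hEv : ∀ W : Submodule (ZMod 2) (EE (XX m 2) (pf (dl A)) × EE (XX m 2) (pf (dl A))),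
      Ev W ↔ Even (Module.finrank (ZMod 2) (K1 W)) := by
    intro W
    unfold Ev
    rw [hpw1]
    constructor
    · rintro ⟨a, ha⟩
      rw [h4] at ha
      exact ⟨a, (Nat.pow_right_injective le_rfl ha).trans (two_mul a)⟩
    · rintro ⟨a, ha⟩
      exact ⟨a, by rw [ha, h4, two_mul]⟩
  rw [hEv, hEv]
  have h6 : ∀ a b c d : ℕ, a + b + 2 * c = d * 2 + 1 → (Even a ↔ ¬ Even b) := by
    intro a b c d h
    rw [Nat.even_iff, Nat.even_iff]
    omega
  exact h6 _ _ _ _ h5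

end Pool.Agent.H94.PM
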