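import Pool.Agent.H94.PM.TY

set_option autoImplicit false

/-!
# [H94 PM FT] Fourier expansion of functions of types

`Tp ℓ S` is a finite abelian group and `chi` is a perfect pairing: `∑ b, chi a b = card` if `a = 0` and `0` otherwise
(`sum_chi`: product over the coordinates of `sum_ps_mul`; or: `a ≠ 0` gives `b₀` with `chi a b₀ ≠ 1`
(`ps_eq_one_iff`) and `∑ chi a b = ∑ chi a (b + b₀) = chi a b₀ * ∑`).
* `four`: `c ψ = card ^ (-|κ|) * ∑ τ, G τ * ∏ u, chi (ψ u) (-(τ u))`; inversion by `sum_chi` in each coordinate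
  (`∑ ψ, ∏ u, chi (ψ u) (τ u - τ' u) = ∏ u, ∑ a, chi a (τ u - τ' u)`: `Finset.prod_univ_sum`, `Fintype.piFinset_univ`).
* `four_avg`: `κ` nonempty, `u₀ : κ`. For `ψ : κ → Tp`, `∑ τ with ∑ τ = t, ∏ u, chi (ψ u) (τ u)`: substitute
  `τ u₀ = t - ∑_{u ≠ u₀} τ u` : it is `chi (ψ u₀) t * ∏_{u ≠ u₀} ∑ a, chi (ψ u - ψ u₀) a`, which is
  `card ^ (|κ| - 1) * chi (ψ u₀) t` if `ψ` is constant and `0` otherwise.  (Alternative without substitution: insert
  `[∑ τ = t] = card⁻¹ ∑ a, chi a (t - ∑ τ)` and use the factorisation over all `u`.)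
-/

namespace Pool.Agent.H94.PM

open Pool.Agent.H94.PL

variable {ℓ : ℕ} [hl : Fact ℓ.Prime] {S : Type} [Fintype S] [DecidableEq S]

theorem chi_add_right (a b b' : Tp ℓ S) : chi a (b + b') = chi a b * chi a b' := by
  unfold chi
  rw [← ps_add]
  congr 1
  simp only [Prod.fst_add, Prod.snd_add, Pi.add_apply, mul_add, Finset.sum_add_distrib]
  ring

theorem chi_add_left (a a' b : Tp ℓ S) : chi (a + a') b = chi a b * chi a' b := by
  unfold chi
  rw [← ps_add]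
  congr 1
  simp only [Prod.fst_add, Prod.snd_add, Pi.add_apply, add_mul, Finset.sum_add_distrib]
  ring

theorem chi_comm (a b : Tp ℓ S) : chi a b = chi b a := by
  unfold chi
  congr 1
  rw [mul_comm]
  congr 1
  exact Finset.sum_congr rfl fun v _ => mul_comm _ _

theorem chi_zero_right (a : Tp ℓ S) : chi a 0 = 1 := by
  unfold chi
  simp [ps_zero]

theorem norm_chi (a b : Tp ℓ S) : ‖chi a b‖ = 1 := norm_ps _

theorem sum_chi (a : Tp ℓ S) :
    ∑ b, chi a b = if a = 0 then (Fintype.card (Tp ℓ S) : ℂ) else 0 := by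
  by_cases h : a = 0
  · subst h
    rw [if_pos rfl]
    have h0 : ∀ b, chi (0 : Tp ℓ S) b = 1 := fun b => by rw [chi_comm, chi_zero_right]
    rw [Finset.sum_congr rfl fun b _ => h0 b, Finset.sum_const, Finset.card_univ, nsmul_eq_mul,
      mul_one]
  · rw [if_neg h]
    obtain ⟨b₀, hb⟩ : ∃ b₀, chi a b₀ ≠ 1 := by
      by_contra hcon
      push Not at hcon
      apply h
      have h1 : a.1 = 0 := by
        have h2 := hcon (1, 0)
        rw [chi, ps_eq_one_iff] at h2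
        simpa using h2
      have h2 : a.2 = 0 := by
        funext v
        have h3 := hcon (0, Pi.single v 1)
        rw [chi, ps_eq_one_iff] at h3
        simpa [Pi.single_apply] using h3
      exact Prod.ext h1 h2
    have h3 : ∑ b, chi a b = chi a b₀ * ∑ b, chi a b := by
      rw [Finset.mul_sum]
      calc ∑ b, chi a b = ∑ b, chi a (b + b₀) :=
            (Equiv.sum_comp (Equiv.addRight b₀) (chi a)).symm
        _ = _ := Finset.sum_congr rfl fun b _ => by rw [chi_add_right, mul_comm]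
    have h4 : (1 - chi a b₀) * ∑ b, chi a b = 0 := by linear_combination h3
    rcases mul_eq_zero.1 h4 with h5 | h5
    · exact absurd (sub_eq_zero.1 h5).symm hb
    · exact h5

variable {κ : Type} [Fintype κ] [DecidableEq κ]

private theorem ft_card_ne : (Fintype.card (Tp ℓ S) : ℂ) ≠ 0 :=
  Nat.cast_ne_zero.2 Fintype.card_ne_zero

private theorem ft_prod (N : ℂ) (ψ : κ → Tp ℓ S) (φ : κ → Tp ℓ S) :
    ∏ u, (if ψ u = φ u then N else 0) = if ψ = φ then N ^ Fintype.card κ else 0 := by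
  by_cases h : ψ = φ
  · subst h
    simp [Finset.card_univ]
  · rw [if_neg h]
    obtain ⟨u, hu⟩ := Function.ne_iff.1 h
    exact Finset.prod_eq_zero (Finset.mem_univ u) (if_neg hu)

private theorem ft_sum (φ : κ → Tp ℓ S) :
    ∑ ψ : κ → Tp ℓ S, ∏ u, chi (ψ u) (φ u) =
      if φ = 0 then (Fintype.card (Tp ℓ S) : ℂ) ^ Fintype.card κ else 0 := by
  rw [← Fintype.prod_sum (fun u a => chi a (φ u))]
  have h : ∀ u, ∑ a, chi a (φ u) = if φ u = (0 : κ → Tp ℓ S) u then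
      (Fintype.card (Tp ℓ S) : ℂ) else 0 := by
    intro u
    rw [Finset.sum_congr rfl fun a _ => chi_comm a (φ u), sum_chi]
    rfl
  rw [Finset.prod_congr rfl fun u _ => h u, ft_prod]

theorem four (G : (κ → Tp ℓ S) → ℂ) (hG : ∀ τ, ‖G τ‖ ≤ 1) :
    ∃ c : (κ → Tp ℓ S) → ℂ, (∀ ψ, ‖c ψ‖ ≤ 1) ∧
      ∀ τ, G τ = ∑ ψ, c ψ * ∏ u, chi (ψ u) (τ u) := by
  have hN := ft_card_ne (ℓ := ℓ) (S := S)
  refine ⟨fun ψ => ((Fintype.card (Tp ℓ S) : ℂ) ^ Fintype.card κ)⁻¹ *
    ∑ τ, G τ * ∏ u, chi (ψ u) (-(τ u)), ?_, ?_⟩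
  · intro ψ
    rw [norm_mul, norm_inv, norm_pow, Complex.norm_natCast]
    have h1 : ‖∑ τ : κ → Tp ℓ S, G τ * ∏ u, chi (ψ u) (-(τ u))‖ ≤
        (Fintype.card (Tp ℓ S) : ℝ) ^ Fintype.card κ := by
      refine (norm_sum_le _ _).trans ?_
      have h2 : ∀ τ ∈ (Finset.univ : Finset (κ → Tp ℓ S)),
          ‖G τ * ∏ u, chi (ψ u) (-(τ u))‖ ≤ 1 := by
        intro τ _
        rw [norm_mul, norm_prod, Finset.prod_eq_one fun u _ => norm_chi _ _, mul_one]
        exact hG τ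
      refine (Finset.sum_le_card_nsmul _ _ _ h2).trans ?_
      rw [Finset.card_univ, Fintype.card_fun, nsmul_eq_mul, mul_one, Nat.cast_pow]
    have h3 : (0 : ℝ) < (Fintype.card (Tp ℓ S) : ℝ) ^ Fintype.card κ :=
      pow_pos (Nat.cast_pos.2 Fintype.card_pos) _
    calc _ ≤ ((Fintype.card (Tp ℓ S) : ℝ) ^ Fintype.card κ)⁻¹ *
          (Fintype.card (Tp ℓ S) : ℝ) ^ Fintype.card κ :=
          mul_le_mul_of_nonneg_left h1 (inv_nonneg.2 h3.le)
      _ = 1 := inv_mul_cancel₀ h3.ne'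
  · intro τ
    have h1 : ∀ ψ : κ → Tp ℓ S, ((Fintype.card (Tp ℓ S) : ℂ) ^ Fintype.card κ)⁻¹ *
        (∑ τ', G τ' * ∏ u, chi (ψ u) (-(τ' u))) * ∏ u, chi (ψ u) (τ u) =
        ((Fintype.card (Tp ℓ S) : ℂ) ^ Fintype.card κ)⁻¹ *
          ∑ τ', G τ' * ∏ u, chi (ψ u) ((τ - τ') u) := by
      intro ψ
      rw [mul_assoc, Finset.sum_mul]
      congr 1
      refine Finset.sum_congr rfl fun τ' _ => ?_
      rw [mul_assoc, ← Finset.prod_mul_distrib]
      congr 1
      refine Finset.prod_congr rfl fun u _ => ?_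
      rw [← chi_add_right]
      congr 1
      rw [Pi.sub_apply]
      abel
    show G τ = ∑ ψ : κ → Tp ℓ S, ((Fintype.card (Tp ℓ S) : ℂ) ^ Fintype.card κ)⁻¹ *
        (∑ τ', G τ' * ∏ u, chi (ψ u) (-(τ' u))) * ∏ u, chi (ψ u) (τ u)
    rw [Finset.sum_congr rfl fun ψ _ => h1 ψ, ← Finset.mul_sum, Finset.sum_comm]
    have h2 : ∀ τ' : κ → Tp ℓ S, ∑ ψ : κ → Tp ℓ S, G τ' * ∏ u, chi (ψ u) ((τ - τ') u) =
        if τ = τ' then G τ' * (Fintype.card (Tp ℓ S) : ℂ) ^ Fintype.card κ else 0 := by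
      intro τ'
      rw [← Finset.mul_sum, ft_sum, mul_ite, mul_zero]
      simp only [sub_eq_zero]
    rw [Finset.sum_congr rfl fun τ' _ => h2 τ', Finset.sum_ite_eq, if_pos (Finset.mem_univ _)]
    rw [mul_comm (G τ), ← mul_assoc, inv_mul_cancel₀ (pow_ne_zero _ hN), one_mul]

open Classical in
theorem four_avg (c : (κ → Tp ℓ S) → ℂ) (hκ : 0 < Fintype.card κ) (t : Tp ℓ S) :
    (1 / (Fintype.card (Tp ℓ S) : ℂ) ^ (Fintype.card κ - 1)) *
      ∑ τ : κ → Tp ℓ S, (if ∑ u, τ u = t then ∑ ψ, c ψ * ∏ u, chi (ψ u) (τ u) else 0) =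
      ∑ a : Tp ℓ S, c (fun _ => a) * chi a t := by
  have hN := ft_card_ne (ℓ := ℓ) (S := S)
  have hsum : ∀ (a : Tp ℓ S) (τ : κ → Tp ℓ S), chi a (∑ u, τ u) = ∏ u, chi a (τ u) := by
    intro a τ
    induction (Finset.univ : Finset κ) using Finset.induction_on with
    | empty => rw [Finset.sum_empty, Finset.prod_empty, chi_zero_right]
    | insert x s hx ih => rw [Finset.sum_insert hx, Finset.prod_insert hx, chi_add_right, ih]
  have hsum' : ∀ (a : Tp ℓ S) (τ : κ → Tp ℓ S), chi a (t - ∑ u, τ u) =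
      chi a t * ∏ u, chi (-a) (τ u) := by
    intro a τ
    have h1 : chi a (t - ∑ u, τ u) * chi a (∑ u, τ u) = chi a t := by
      rw [← chi_add_right, sub_add_cancel]
    have h2 : (∏ u, chi (-a) (τ u)) * ∏ u, chi a (τ u) = 1 := by
      rw [← Finset.prod_mul_distrib]
      refine Finset.prod_eq_one fun u _ => ?_
      rw [← chi_add_left, neg_add_cancel, chi_comm, chi_zero_right]
    rw [← h1, hsum]
    linear_combination (-chi a (t - ∑ u, τ u)) * h2
  have hind : ∀ τ : κ → Tp ℓ S, (if ∑ u, τ u = t then (1 : ℂ) else 0) =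
      (Fintype.card (Tp ℓ S) : ℂ)⁻¹ * ∑ a : Tp ℓ S, chi a t * ∏ u, chi (-a) (τ u) := by
    intro τ
    rw [← Finset.sum_congr rfl fun a _ => hsum' a τ,
      Finset.sum_congr rfl fun a _ => chi_comm a (t - ∑ u, τ u), sum_chi]
    by_cases h : ∑ u, τ u = t
    · rw [if_pos h, if_pos (sub_eq_zero.2 h.symm), inv_mul_cancel₀ hN]
    · rw [if_neg h, if_neg (fun h1 => h (sub_eq_zero.1 h1).symm), mul_zero]
  have h1 : ∀ τ : κ → Tp ℓ S,
      (if ∑ u, τ u = t then ∑ ψ, c ψ * ∏ u, chi (ψ u) (τ u) else 0) =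
      (Fintype.card (Tp ℓ S) : ℂ)⁻¹ * ∑ ψ, ∑ a : Tp ℓ S, c ψ * chi a t *
        ∏ u, chi (τ u) ((fun u => ψ u - a) u) := by
    intro τ
    have e1 : (if ∑ u, τ u = t then ∑ ψ, c ψ * ∏ u, chi (ψ u) (τ u) else 0) =
        (if ∑ u, τ u = t then (1 : ℂ) else 0) * ∑ ψ, c ψ * ∏ u, chi (ψ u) (τ u) := by
      by_cases h : ∑ u, τ u = t
      · rw [if_pos h, if_pos h, one_mul]
      · rw [if_neg h, if_neg h, zero_mul]
    rw [e1, hind, mul_assoc]
    congr 1
    rw [Finset.mul_sum]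
    refine Finset.sum_congr rfl fun ψ _ => ?_
    rw [Finset.sum_mul]
    refine Finset.sum_congr rfl fun a _ => ?_
    have e2 : ∏ u, chi (τ u) ((fun u => ψ u - a) u) =
        (∏ u, chi (ψ u) (τ u)) * ∏ u, chi (-a) (τ u) := by
      rw [← Finset.prod_mul_distrib]
      refine Finset.prod_congr rfl fun u _ => ?_
      rw [← chi_add_left, chi_comm, ← sub_eq_add_neg]
    rw [e2]
    ring
  rw [Finset.sum_congr rfl fun τ _ => h1 τ, ← Finset.mul_sum, Finset.sum_comm]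
  have h2 : ∀ ψ : κ → Tp ℓ S, ∑ τ : κ → Tp ℓ S, ∑ a : Tp ℓ S, c ψ * chi a t *
        ∏ u, chi (τ u) ((fun u => ψ u - a) u) =
      ∑ a : Tp ℓ S, if ψ = (fun _ => a) then
        c ψ * chi a t * (Fintype.card (Tp ℓ S) : ℂ) ^ Fintype.card κ else 0 := by
    intro ψ
    rw [Finset.sum_comm]
    refine Finset.sum_congr rfl fun a _ => ?_
    rw [← Finset.mul_sum, ft_sum, mul_ite, mul_zero]
    have e3 : ((fun u => ψ u - a) = 0) ↔ ψ = fun _ => a := by
      constructor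
      · intro h
        funext u
        exact sub_eq_zero.1 (congrFun h u)
      · intro h
        funext u
        exact sub_eq_zero.2 (congrFun h u)
    simp only [e3]
  rw [Finset.sum_congr rfl fun ψ _ => h2 ψ, Finset.sum_comm]
  have h3 : ∀ a : Tp ℓ S, ∑ ψ : κ → Tp ℓ S, (if ψ = (fun _ => a) then
        c ψ * chi a t * (Fintype.card (Tp ℓ S) : ℂ) ^ Fintype.card κ else 0) =
      (c (fun _ => a) * chi a t) * (Fintype.card (Tp ℓ S) : ℂ) ^ Fintype.card κ := by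
    intro a
    rw [Finset.sum_ite_eq', if_pos (Finset.mem_univ _)]
  rw [Finset.sum_congr rfl fun a _ => h3 a, ← Finset.sum_mul]
  have h4 : (Fintype.card (Tp ℓ S) : ℂ) ^ Fintype.card κ =
      (Fintype.card (Tp ℓ S) : ℂ) ^ (Fintype.card κ - 1) * (Fintype.card (Tp ℓ S) : ℂ) := by
    rw [← pow_succ, Nat.sub_add_cancel hκ]
  rw [h4]
  have h5 := pow_ne_zero (Fintype.card κ - 1) hN
  field_simp

end Pool.Agent.H94.PM
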