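import Pool.Agent.H94.PM.KD
import Pool.Agent.H94.PM.FT

set_option autoImplicit false

/-!
# [H94 PM AVU] The averages `AU` of the function `GK`

`U ⊆ X × X`, `τ : U → Tp` extended by zero (`mgU U τ 0`); `tens`, `phs ε ·` are additive in `τ`, the sums over `X × X` reduce to `U`
(`PL.Spl.add_mgU`).
* `avu_zero`: in `AU` only `τ` with `∑ τ = t` occur and `∑ u, mgU U τ 0 u = ∑ τ = t`.
* `avu_non`: take `v, u₀, w, w'` from `Non` and `η : U → Tp`, `η = δ(u₀) - δ(u₀ + w) - δ(u₀ + w') + δ(u₀ + w + w')` in the coordinate `v`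
  (`δ(a)` = the function with value `1` at `a`; add them also if some of the points coincide), all other coordinates `0`.
  Then `∑ η = 0`, `tens η = 0` (as `u₀.1 - (u₀ + w).1 - (u₀ + w').1 + (u₀ + w + w').1 = 0`), the degrees do not change, and
  `phs ε (τ + η) = phs ε τ + lam`, `lam = B w.2 (L v w'.1) + B w'.2 (L v w.1)`.  So `τ ↦ τ + η` gives `AU = ps lam * AU`, `ps lam ≠ 1`.
* `avu_std1`: `U = {u | u.1 = x₀}`.  `Phi u w = B u.2 (w.1 - u.1) = 0` on `U`, so `rS = 0`.  If `∑ τ = t`: `tens τ = (t.1 • x₀, t.2 v • x₀)`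
  and `ps (phs ε τ) = ∏ u ∈ U, chi (a u) (τ u)`, `a u = (B u.2 (ε.1 + bet x₀), fun v => B u.2 (ε.2 v + L v x₀))`.  By `four_avg`
  (with `c` the indicator of the tuple `a`) the average over `τ` is `0` if `a` is not constant and `chi (a u) t` if it
  is.  `u.2` runs through `X`, so `a` constant means `a = 0` (take `u.2 = 0`), i.e. `ε.1 = - bet x₀`, `ε.2 v = - L v x₀`
  (`hB.nondeg`, symmetric): only one `ε`, with average `1`.  So `AU` is `0` or `1`.
* `avu_std2`: `‖AU‖ ≤ card(Tp)^(1-|U|) * #{(τ, ε) | ∑ τ = t, (ε, tens τ) ∈ W t}`.  The linear map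
  `Lam : (U → Tp) → Tp × EE X S`, `τ ↦ (∑ τ, tens τ)` is surjective: for each coordinate (degree or `v`) the map
  `(U → ZMod ℓ) → ZMod ℓ × X`, `τ ↦ (∑ τ u, ∑ τ u • u.1)` is surjective since `u.1` takes all values in `X`, also `0`
  (`(a, x)` is the image of `a δ(u_0) + δ(u_x) - δ(u_0)`, `u_x ∈ U` the element with first coordinate `x`).  So all its fibres have
  `card(Tp)^|U| / (card(Tp) * card (EE X S))` elements, `card (EE X S) = (card X)^(card S + 1)`, and the number of pairs is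
  `card (W t) * card(Tp)^(|U| - 1) / card (EE X S) ≤ card(Tp)^(|U| - 1)` by `hW`.  (`|U| ≥ 1` by `Std2` for `x = 0`.)
-/

namespace Pool.Agent.H94.PM

open Polynomial
open Pool.Agent.H94.PL
open Pool.Agent.H94.PC (Mo Sq Pr pf om Mn mem_Mo mem_Sq mem_Pr mem_pf mem_pf')

variable {ℓ : ℕ} [hl : Fact ℓ.Prime] {X : Type} [AddCommGroup X] [Module (ZMod ℓ) X] [Fintype X]
  [DecidableEq X] (B : X →ₗ[ZMod ℓ] X →ₗ[ZMod ℓ] ZMod ℓ)
  {F : Type} [Field F] [Finite F] (χ : LChar F ℓ) {Δ : F[X]} (dt : Dat ℓ X (pf Δ))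

section aux
variable {V : Type} [Fintype V] [DecidableEq V] (U : Finset V) {M : Type} [AddCommMonoid M]

private theorem avu_mg {M' : Type} [AddCommMonoid M'] (φ : V → M → M') (hφ : ∀ u, φ u 0 = 0)
    (τ : {u // u ∈ U} → M) :
    ∑ u, φ u (mgU U τ (fun _ => 0) u) = ∑ u : {u // u ∈ U}, φ u.1 (τ u) := by
  rw [add_mgU U (fun u => φ u (mgU U τ (fun _ => 0) u))]
  simp only [mgU_in, mgU_out, hφ, Finset.sum_const_zero, add_zero]

private theorem avu_sum0 (τ : {u // u ∈ U} → M) :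
    ∑ u, mgU U τ (fun _ => 0) u = ∑ u, τ u :=
  avu_mg U (fun _ m => m) (fun _ => rfl) τ

private theorem avu_mg_add (τ η : {u // u ∈ U} → M) :
    mgU U (τ + η) (fun _ => 0) = mgU U τ (fun _ => 0) + mgU U η (fun _ => 0) := by
  funext u
  by_cases h : u ∈ U
  · simp [mgU, h]
  · simp [mgU, h]

private theorem avu_mg_zero : mgU U (0 : {u // u ∈ U} → M) (fun _ => 0) = 0 := by
  funext u
  by_cases h : u ∈ U
  · simp [mgU, h]
  · simp [mgU, h]

end aux

section aux2
variable {S : Type}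

private theorem avu_tens_add (τ η : X × X → Tp ℓ S) : tens (τ + η) = tens τ + tens η := by
  refine Prod.ext ?_ ?_
  · simp only [tens, Pi.add_apply, Prod.fst_add, add_smul, Finset.sum_add_distrib]
  · funext v
    simp only [tens, Pi.add_apply, Prod.snd_add, add_smul, Finset.sum_add_distrib]

private theorem avu_tens_zero : tens (0 : X × X → Tp ℓ S) = 0 := by
  refine Prod.ext ?_ ?_
  · simp [tens]
  · funext v
    simp [tens]

private theorem avu_phs_add [Fintype S] (B : X →ₗ[ZMod ℓ] X →ₗ[ZMod ℓ] ZMod ℓ) (dt : Dat ℓ X S)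
    (ε : EE X S) (τ η : X × X → Tp ℓ S) :
    phs B dt ε (τ + η) = phs B dt ε τ + phs B dt ε η := by
  simp only [phs, Pi.add_apply, Prod.fst_add, Prod.snd_add, add_mul, Finset.sum_add_distrib]
  ring

/-- second difference -/
private def avuD (u₀ w w' : X × X) (u : X × X) : ZMod ℓ :=
  (if u = u₀ then 1 else 0) - (if u = u₀ + w then 1 else 0) - (if u = u₀ + w' then 1 else 0) +
    (if u = u₀ + w + w' then 1 else 0)

private theorem avu_dd {M : Type} [AddCommGroup M] [Module (ZMod ℓ) M] (u₀ w w' : X × X)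
    (f : X × X → M) :
    ∑ u, avuD (ℓ := ℓ) u₀ w w' u • f u = f u₀ - f (u₀ + w) - f (u₀ + w') + f (u₀ + w + w') := by
  simp only [avuD, add_smul, sub_smul, Finset.sum_add_distrib, Finset.sum_sub_distrib, ite_smul,
    one_smul, zero_smul, Finset.sum_ite_eq', Finset.mem_univ, if_true]

end aux2

private theorem avu_sum_inst {α M : Type*} [AddCommMonoid M] (i1 i2 : Fintype α) (f : α → M) :
    (@Finset.univ α i1).sum f = (@Finset.univ α i2).sum f := by
  rw [Subsingleton.elim i1 i2]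

private theorem avu_card_inst {α : Type*} (i1 i2 : Fintype α) :
    @Fintype.card α i1 = @Fintype.card α i2 := by
  rw [Subsingleton.elim i1 i2]

section gk
variable {S : Type} [Fintype S] (B : X →ₗ[ZMod ℓ] X →ₗ[ZMod ℓ] ZMod ℓ) (dt : Dat ℓ X S)

open Classical in
/-- one term of `GK` -/
private noncomputable def gkT (τ : X × X → Tp ℓ S) (ε : EE X S) : ℂ :=
  if (ε, tens τ) ∈ dt.W (∑ u, τ u) then ps (phs B dt ε τ) else 0

private theorem gk_pos [i : Fintype (EE X S)] (R : Tp ℓ S → Prop) (τ : X × X → Tp ℓ S)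
    (hR : R (∑ u, τ u)) : GK B dt R τ = ∑ ε : EE X S, gkT B dt τ ε := by
  unfold GK
  rw [if_pos hR]
  exact avu_sum_inst _ _ _

private theorem gk_neg (R : Tp ℓ S → Prop) (τ : X × X → Tp ℓ S)
    (hR : ¬ R (∑ u, τ u)) : GK B dt R τ = 0 := by
  unfold GK
  rw [if_neg hR]

private theorem gkT_pos {τ : X × X → Tp ℓ S} {ε : EE X S}
    (h : (ε, tens τ) ∈ dt.W (∑ u, τ u)) : gkT B dt τ ε = ps (phs B dt ε τ) := if_pos h

private theorem gkT_neg {τ : X × X → Tp ℓ S} {ε : EE X S}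
    (h : (ε, tens τ) ∉ dt.W (∑ u, τ u)) : gkT B dt τ ε = 0 := if_neg h

private theorem norm_gkT (τ : X × X → Tp ℓ S) (ε : EE X S) : ‖gkT B dt τ ε‖ ≤ 1 := by
  by_cases h : (ε, tens τ) ∈ dt.W (∑ u, τ u)
  · rw [gkT_pos B dt h, norm_ps]
  · rw [gkT_neg B dt h, norm_zero]
    exact zero_le_one

end gk

open Classical in
/-- one term of `AU` -/
private noncomputable def auT (C : CD (X × X) ℓ) (G : (X × X → Tp ℓ (pf Δ)) → ℂ)
    (U : Finset (X × X)) (t : Tp ℓ (pf Δ)) (τ : {u // u ∈ U} → Tp ℓ (pf Δ)) : ℂ :=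
  if ∑ u, τ u = t then
    G (mgU U τ fun _ => 0) * ps (χ.lg (-1) * rS C U fun u => (τ u).1) else 0

private theorem auT_pos (C : CD (X × X) ℓ) (G : (X × X → Tp ℓ (pf Δ)) → ℂ)
    (U : Finset (X × X)) {t : Tp ℓ (pf Δ)} {τ : {u // u ∈ U} → Tp ℓ (pf Δ)}
    (h : ∑ u, τ u = t) : auT χ C G U t τ =
      G (mgU U τ fun _ => 0) * ps (χ.lg (-1) * rS C U fun u => (τ u).1) := if_pos h

private theorem auT_neg (C : CD (X × X) ℓ) (G : (X × X → Tp ℓ (pf Δ)) → ℂ)
    (U : Finset (X × X)) {t : Tp ℓ (pf Δ)} {τ : {u // u ∈ U} → Tp ℓ (pf Δ)}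
    (h : ¬ ∑ u, τ u = t) : auT χ C G U t τ = 0 := if_neg h

private theorem au_eq [i : Fintype (Tp ℓ (pf Δ))] (C : CD (X × X) ℓ)
    (G : (X × X → Tp ℓ (pf Δ)) → ℂ) (U : Finset (X × X)) (t : Tp ℓ (pf Δ)) :
    AU χ C Δ G U t = (1 / (Fintype.card (Tp ℓ (pf Δ)) : ℂ) ^ (U.card - 1)) *
      ∑ τ : {u // u ∈ U} → Tp ℓ (pf Δ), auT χ C G U t τ := by
  unfold AU
  refine congrArg₂ (fun a b : ℂ => a * b) (congrArg (fun n : ℕ => 1 / (n : ℂ) ^ (U.card - 1))
    (avu_card_inst _ _)) ?_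
  refine (Finset.sum_congr rfl fun τ _ => ?_).trans (avu_sum_inst _ _ _)
  by_cases h : ∑ u, τ u = t
  · rw [if_pos h, auT_pos χ C G U h]
  · rw [if_neg h, auT_neg χ C G U h]

open Classical in
theorem norm_GK (R : Tp ℓ (pf Δ) → Prop) (τ : X × X → Tp ℓ (pf Δ)) :
    ‖GK B dt R τ‖ ≤ Fintype.card (EE X (pf Δ)) := by
  by_cases hR : R (∑ u, τ u)
  · rw [gk_pos B dt R τ hR]
    refine (norm_sum_le _ _).trans ?_
    refine (Finset.sum_le_card_nsmul _ _ _ (fun ε _ => norm_gkT B dt τ ε)).trans ?_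
    rw [Finset.card_univ, nsmul_eq_mul, mul_one]
  · rw [gk_neg B dt R τ hR, norm_zero]
    exact Nat.cast_nonneg _

theorem avu_zero (R : Tp ℓ (pf Δ) → Prop) (U : Finset (X × X)) (t : Tp ℓ (pf Δ)) (h : ¬ R t) :
    AU χ (CDX B) Δ (GK B dt R) U t = 0 := by
  classical
  rw [au_eq, Finset.sum_eq_zero, mul_zero]
  intro τ _
  by_cases h' : ∑ u, τ u = t
  · rw [auT_pos χ _ _ U h', gk_neg, zero_mul]
    rw [avu_sum0 U τ, h']
    exact h
  · rw [auT_neg χ _ _ U h']

theorem avu_non (R : Tp ℓ (pf Δ) → Prop) (U : Finset (X × X)) (hU : Non B dt U)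
    (t : Tp ℓ (pf Δ)) : AU χ (CDX B) Δ (GK B dt R) U t = 0 := by
  classical
  obtain ⟨v, u₀, w, w', h0, h1, h2, h3, hne⟩ := hU
  obtain ⟨ηV, hηV⟩ : ∃ ηV : X × X → Tp ℓ (pf Δ),
      ηV = fun u => (0, Pi.single v (avuD u₀ w w' u)) := ⟨_, rfl⟩
  obtain ⟨η, hη⟩ : ∃ η : {u // u ∈ U} → Tp ℓ (pf Δ), η = fun u => ηV u.1 := ⟨_, rfl⟩
  have hd : ∀ u, u ∉ U → avuD (ℓ := ℓ) u₀ w w' u = 0 := by
    intro u hu
    have e0 : u ≠ u₀ := fun h => hu (h ▸ h0)
    have e1 : u ≠ u₀ + w := fun h => hu (h ▸ h1)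
    have e2 : u ≠ u₀ + w' := fun h => hu (h ▸ h2)
    have e3 : u ≠ u₀ + w + w' := fun h => hu (h ▸ h3)
    simp [avuD, e0, e1, e2, e3]
  have hmg : mgU U η (fun _ => 0) = ηV := by
    funext u
    by_cases hu : u ∈ U
    · simp [mgU, hu, hη]
    · rw [mgU, dif_neg hu, hηV]
      simp only [hd u hu, Pi.single_zero]
      rfl
  have hsV : ∑ u, ηV u = 0 := by
    rw [hηV]
    refine Prod.ext ?_ ?_
    · simp [Prod.fst_sum]
    · funext v'
      rw [Prod.snd_sum, Finset.sum_apply]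
      by_cases hv : v' = v
      · subst hv
        simp only [Pi.single_eq_same]
        have e := avu_dd (ℓ := ℓ) u₀ w w' (fun _ : X × X => (1 : ZMod ℓ))
        simp only [smul_eq_mul, mul_one] at e
        rw [e]
        simp
      · simp [Pi.single_eq_of_ne hv]
  have hsum : ∑ u, η u = 0 := by
    rw [← avu_sum0 U η, hmg, hsV]
  have htV : tens ηV = 0 := by
    rw [hηV]
    refine Prod.ext ?_ ?_
    · simp [tens]
    · funext v'
      simp only [tens]
      by_cases hv : v' = v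
      · subst hv
        simp only [Pi.single_eq_same]
        rw [avu_dd u₀ w w' (fun u => u.1)]
        simp only [Prod.fst_add, Prod.snd_zero, Pi.zero_apply]
        abel
      · simp [Pi.single_eq_of_ne hv]
  have hpV : ∀ ε, phs B dt ε ηV = B w.2 (dt.L v w'.1) + B w'.2 (dt.L v w.1) := by
    intro ε
    rw [hηV]
    simp only [phs, zero_mul, zero_add]
    have e : ∀ u : X × X, ∑ v', (Pi.single v (avuD (ℓ := ℓ) u₀ w w' u) : pf Δ → ZMod ℓ) v' *
        B u.2 (ε.2 v' + dt.L v' u.1) =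
          avuD (ℓ := ℓ) u₀ w w' u • B u.2 (ε.2 v + dt.L v u.1) := by
      intro u
      rw [Finset.sum_eq_single v]
      · rw [Pi.single_eq_same, smul_eq_mul]
      · intro v' _ hv
        rw [Pi.single_eq_of_ne hv, zero_mul]
      · intro h
        exact absurd (Finset.mem_univ _) h
    rw [Finset.sum_congr rfl fun u _ => e u,
      avu_dd u₀ w w' (fun u => B u.2 (ε.2 v + dt.L v u.1))]
    simp only [Prod.fst_add, Prod.snd_add, map_add, LinearMap.add_apply]
    ring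
  have hG : ∀ τ' : X × X → Tp ℓ (pf Δ), GK B dt R (τ' + ηV) =
      ps (B w.2 (dt.L v w'.1) + B w'.2 (dt.L v w.1)) * GK B dt R τ' := by
    intro τ'
    have e1 : ∑ u, (τ' + ηV) u = ∑ u, τ' u := by
      simp only [Pi.add_apply, Finset.sum_add_distrib, hsV, add_zero]
    have e2 : tens (τ' + ηV) = tens τ' := by rw [avu_tens_add, htV, add_zero]
    have e3 : ∀ ε, phs B dt ε (τ' + ηV) =
        (B w.2 (dt.L v w'.1) + B w'.2 (dt.L v w.1)) + phs B dt ε τ' := by
      intro ε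
      rw [avu_phs_add, hpV, add_comm]
    by_cases hR : R (∑ u, τ' u)
    · rw [gk_pos B dt R τ' hR, gk_pos B dt R (τ' + ηV) (by rw [e1]; exact hR), Finset.mul_sum]
      refine Finset.sum_congr rfl fun ε _ => ?_
      by_cases hε : (ε, tens τ') ∈ dt.W (∑ u, τ' u)
      · rw [gkT_pos B dt hε, gkT_pos B dt (by rw [e1, e2]; exact hε), e3, ps_add]
      · rw [gkT_neg B dt hε, gkT_neg B dt (by rw [e1, e2]; exact hε), mul_zero]
    · rw [gk_neg B dt R τ' hR, gk_neg B dt R (τ' + ηV) (by rw [e1]; exact hR), mul_zero]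
  have key : AU χ (CDX B) Δ (GK B dt R) U t =
      ps (B w.2 (dt.L v w'.1) + B w'.2 (dt.L v w.1)) * AU χ (CDX B) Δ (GK B dt R) U t := by
    rw [au_eq]
    have e0 : ∑ τ, auT χ (CDX B) (GK B dt R) U t τ =
        ps (B w.2 (dt.L v w'.1) + B w'.2 (dt.L v w.1)) *
          ∑ τ, auT χ (CDX B) (GK B dt R) U t τ := by
      rw [Finset.mul_sum]
      conv_lhs => rw [← Equiv.sum_comp (Equiv.addRight η)]
      refine Finset.sum_congr rfl fun τ _ => ?_
      have e1 : ∑ u, (Equiv.addRight η τ) u = ∑ u, τ u := by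
        simp only [Equiv.coe_addRight, Pi.add_apply, Finset.sum_add_distrib, hsum, add_zero]
      have e2 : mgU U (Equiv.addRight η τ) (fun _ => 0) = mgU U τ (fun _ => 0) + ηV := by
        rw [Equiv.coe_addRight, avu_mg_add, hmg]
      have e3 : (fun u => ((Equiv.addRight η τ) u).1) = fun u => (τ u).1 := by
        funext u
        simp [hη, hηV]
      by_cases h : ∑ u, τ u = t
      · rw [auT_pos χ _ _ U h, auT_pos χ _ _ U (e1.trans h), e3, e2, hG]
        ring
      · rw [auT_neg χ _ _ U h, auT_neg χ _ _ U (fun h' => h (e1.symm.trans h')), mul_zero]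
    linear_combination (1 / (Fintype.card (Tp ℓ (pf Δ)) : ℂ) ^ (U.card - 1)) * e0
  have h4 : (1 - ps (B w.2 (dt.L v w'.1) + B w'.2 (dt.L v w.1))) *
      AU χ (CDX B) Δ (GK B dt R) U t = 0 := by linear_combination key
  rcases mul_eq_zero.1 h4 with h5 | h5
  · exact absurd (ps_eq_one_iff.1 (sub_eq_zero.1 h5).symm) hne
  · exact h5

theorem avu_std1 (hB : BGood B) (R : Tp ℓ (pf Δ) → Prop) (U : Finset (X × X)) (hU : Std1 U)
    (t : Tp ℓ (pf Δ)) : ‖AU χ (CDX B) Δ (GK B dt R) U t‖ ≤ 1 := by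
  classical
  by_cases hR : R t
  swap
  · rw [avu_zero B χ dt R U t hR, norm_zero]
    exact zero_le_one
  obtain ⟨x₀, hx⟩ := hU
  have hrs : ∀ d, rS (CDX B) U d = 0 := by
    intro d
    refine Finset.sum_eq_zero fun u _ => Finset.sum_eq_zero fun w _ => ?_
    have e : (CDX B).Phi u.1 w.1 = 0 := by
      show B u.1.2 (w.1.1 - u.1.1) = 0
      rw [(hx _).1 u.2, (hx _).1 w.2, sub_self, map_zero]
    rw [e, zero_mul, ite_self]
  obtain ⟨a, ha⟩ : ∃ a : EE X (pf Δ) → {u // u ∈ U} → Tp ℓ (pf Δ), a = fun ε u =>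
      (B u.1.2 (ε.1 + dt.bet x₀), fun v => B u.1.2 (ε.2 v + dt.L v x₀)) := ⟨_, rfl⟩
  obtain ⟨T, hTd⟩ : ∃ T : EE X (pf Δ), T = (t.1 • x₀, fun v => t.2 v • x₀) := ⟨_, rfl⟩
  have hT : ∀ τ : {u // u ∈ U} → Tp ℓ (pf Δ), ∑ u, τ u = t →
      tens (mgU U τ fun _ => 0) = T := by
    intro τ hτ
    rw [hTd]
    refine Prod.ext ?_ ?_
    · show ∑ u, (mgU U τ (fun _ => 0) u).1 • u.1 = t.1 • x₀
      rw [avu_mg U (fun u (s : Tp ℓ (pf Δ)) => s.1 • u.1) (fun u => zero_smul _ _)]
      have e : ∀ u : {u // u ∈ U}, (τ u).1 • u.1.1 = (τ u).1 • x₀ := fun u => by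
        rw [(hx _).1 u.2]
      rw [Finset.sum_congr rfl fun u _ => e u, ← Finset.sum_smul, ← hτ, Prod.fst_sum]
    · funext v
      show ∑ u, (mgU U τ (fun _ => 0) u).2 v • u.1 = t.2 v • x₀
      rw [avu_mg U (fun u (s : Tp ℓ (pf Δ)) => s.2 v • u.1) (fun u => zero_smul _ _)]
      have e : ∀ u : {u // u ∈ U}, (τ u).2 v • u.1.1 = (τ u).2 v • x₀ := fun u => by
        rw [(hx _).1 u.2]
      rw [Finset.sum_congr rfl fun u _ => e u, ← Finset.sum_smul, ← hτ, Prod.snd_sum,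
        Finset.sum_apply]
  have hP : ∀ ε τ, ps (phs B dt ε (mgU U τ fun _ => 0)) = ∏ u, chi (a ε u) (τ u) := by
    intro ε τ
    unfold phs
    rw [avu_mg U (fun u (s : Tp ℓ (pf Δ)) => s.1 * B u.2 (ε.1 + dt.bet u.1) +
      ∑ v, s.2 v * B u.2 (ε.2 v + dt.L v u.1)) (by intro u; simp), ps_sum]
    refine Finset.prod_congr rfl fun u _ => ?_
    unfold chi
    congr 1
    rw [ha]
    show _ = B u.1.2 (ε.1 + dt.bet x₀) * (τ u).1 +
      ∑ v, B u.1.2 (ε.2 v + dt.L v x₀) * (τ u).2 v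
    rw [(hx _).1 u.2, mul_comm]
    congr 1
    exact Finset.sum_congr rfl fun v _ => mul_comm _ _
  have h1 : AU χ (CDX B) Δ (GK B dt R) U t =
      ∑ ε : EE X (pf Δ), (if (ε, T) ∈ dt.W t then (1 : ℂ) else 0) *
        ((1 / (Fintype.card (Tp ℓ (pf Δ)) : ℂ) ^ (U.card - 1)) *
          ∑ τ : {u // u ∈ U} → Tp ℓ (pf Δ),
            (if ∑ u, τ u = t then ∏ u, chi (a ε u) (τ u) else 0)) := by
    rw [au_eq]
    have e : ∀ τ : {u // u ∈ U} → Tp ℓ (pf Δ), auT χ (CDX B) (GK B dt R) U t τ =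
        ∑ ε : EE X (pf Δ), (if (ε, T) ∈ dt.W t then (1 : ℂ) else 0) *
          (if ∑ u, τ u = t then ∏ u, chi (a ε u) (τ u) else 0) := by
      intro τ
      by_cases h : ∑ u, τ u = t
      · have e1 : ∑ u, mgU U τ (fun _ => 0) u = t := (avu_sum0 U τ).trans h
        rw [auT_pos χ _ _ U h, hrs, mul_zero, ps_zero, mul_one,
          gk_pos B dt R _ (by rw [e1]; exact hR)]
        refine Finset.sum_congr rfl fun ε _ => ?_
        by_cases h' : (ε, T) ∈ dt.W t
        · rw [if_pos h', if_pos h, one_mul, gkT_pos B dt (by rw [e1, hT τ h]; exact h'), hP]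
        · rw [if_neg h', zero_mul, gkT_neg B dt (by rw [e1, hT τ h]; exact h')]
      · rw [auT_neg χ _ _ U h]
        symm
        exact Finset.sum_eq_zero fun ε _ => by rw [if_neg h, mul_zero]
    rw [Finset.sum_congr rfl fun τ _ => e τ, Finset.sum_comm, Finset.mul_sum]
    refine Finset.sum_congr rfl fun ε _ => ?_
    rw [← Finset.mul_sum]
    ring
  have h2 : ∀ ε, (1 / (Fintype.card (Tp ℓ (pf Δ)) : ℂ) ^ (U.card - 1)) *
        ∑ τ : {u // u ∈ U} → Tp ℓ (pf Δ),
          (if ∑ u, τ u = t then ∏ u, chi (a ε u) (τ u) else 0) =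
      ∑ b : Tp ℓ (pf Δ), (if (fun _ => b) = a ε then (1 : ℂ) else 0) * chi b t := by
    intro ε
    have hk : 0 < Fintype.card {u // u ∈ U} := by
      rw [Fintype.card_coe]
      exact Finset.card_pos.2 ⟨(x₀, 0), (hx _).2 rfl⟩
    have e := four_avg (κ := {u // u ∈ U}) (fun ψ => if ψ = a ε then (1 : ℂ) else 0) hk t
    rw [Fintype.card_coe] at e
    rw [← e]
    congr 1
    refine Finset.sum_congr rfl fun τ _ => ?_
    by_cases h : ∑ u, τ u = t
    · rw [if_pos h, if_pos h, Finset.sum_eq_single (a ε)]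
      · rw [if_pos rfl, one_mul]
      · intro ψ _ hψ
        rw [if_neg hψ, zero_mul]
      · intro h'
        exact absurd (Finset.mem_univ _) h'
    · rw [if_neg h, if_neg h]
  have h3 : ∀ ε, ‖∑ b : Tp ℓ (pf Δ), (if (fun _ => b) = a ε then (1 : ℂ) else 0) * chi b t‖ ≤
      if ε = ((-dt.bet x₀, fun v => -dt.L v x₀) : EE X (pf Δ)) then 1 else 0 := by
    intro ε
    by_cases hc : ∃ b : Tp ℓ (pf Δ), (fun _ : {u // u ∈ U} => b) = a ε
    · obtain ⟨b, hb⟩ := hc
      have hb0 : b = 0 := by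
        have e := congrFun hb ⟨(x₀, 0), (hx _).2 rfl⟩
        refine e.trans ?_
        rw [ha]
        refine Prod.ext ?_ ?_
        · simp
        · funext v
          simp
      have hz : ∀ u : {u // u ∈ U}, a ε u = 0 := fun u => by
        rw [← hb, hb0]
      have hε : ε = ((-dt.bet x₀, fun v => -dt.L v x₀) : EE X (pf Δ)) := by
        rw [ha] at hz
        refine Prod.ext ?_ ?_
        · have e : ε.1 + dt.bet x₀ = 0 := hB.nondeg _ fun y => by
            rw [hB.symm]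
            exact congrArg Prod.fst (hz ⟨(x₀, y), (hx _).2 rfl⟩)
          exact eq_neg_of_add_eq_zero_left e
        · funext v
          have e : ε.2 v + dt.L v x₀ = 0 := hB.nondeg _ fun y => by
            rw [hB.symm]
            exact congrFun (congrArg Prod.snd (hz ⟨(x₀, y), (hx _).2 rfl⟩)) v
          exact eq_neg_of_add_eq_zero_left e
      rw [if_pos hε, Finset.sum_eq_single b]
      · rw [if_pos hb, one_mul, norm_chi]
      · intro b' _ hb'
        rw [if_neg, zero_mul]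
        intro h
        exact hb' (congrFun (h.trans hb.symm) ⟨(x₀, 0), (hx _).2 rfl⟩)
      · intro h'
        exact absurd (Finset.mem_univ _) h'
    · rw [Finset.sum_eq_zero]
      · rw [norm_zero]
        split_ifs
        · exact zero_le_one
        · exact le_rfl
      · intro b _
        rw [if_neg (fun h => hc ⟨b, h⟩), zero_mul]
  rw [h1]
  refine (norm_sum_le _ _).trans ?_
  have h4 : ∀ ε ∈ (Finset.univ : Finset (EE X (pf Δ))),
      ‖(if (ε, T) ∈ dt.W t then (1 : ℂ) else 0) *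
        ((1 / (Fintype.card (Tp ℓ (pf Δ)) : ℂ) ^ (U.card - 1)) *
          ∑ τ : {u // u ∈ U} → Tp ℓ (pf Δ),
            (if ∑ u, τ u = t then ∏ u, chi (a ε u) (τ u) else 0))‖ ≤
      if ε = ((-dt.bet x₀, fun v => -dt.L v x₀) : EE X (pf Δ)) then 1 else 0 := by
    intro ε _
    rw [norm_mul, h2]
    refine le_trans ?_ (h3 ε)
    have e : ‖(if (ε, T) ∈ dt.W t then (1 : ℂ) else 0)‖ ≤ 1 := by
      split_ifs
      · rw [norm_one]
      · rw [norm_zero]
        exact zero_le_one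
    exact mul_le_of_le_one_left (norm_nonneg _) e
  refine (Finset.sum_le_sum h4).trans ?_
  rw [Finset.sum_ite_eq', if_pos (Finset.mem_univ _)]

theorem avu_std2 (hW : ∀ t, Nat.card (dt.W t) ≤ Fintype.card X ^ (Fintype.card (pf Δ) + 1))
    (R : Tp ℓ (pf Δ) → Prop) (U : Finset (X × X)) (hU : Std2 U) (t : Tp ℓ (pf Δ)) :
    ‖AU χ (CDX B) Δ (GK B dt R) U t‖ ≤ 1 := by
  classical
  choose φ hφU hφ1 hφ2 using hU
  let Lam : ({u // u ∈ U} → Tp ℓ (pf Δ)) →+ Tp ℓ (pf Δ) × EE X (pf Δ) :=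
    { toFun := fun τ => (∑ u, τ u, tens (mgU U τ fun _ => 0))
      map_zero' := by
        rw [avu_mg_zero, avu_tens_zero]
        refine Prod.ext ?_ rfl
        simp
      map_add' := fun τ η => by
        rw [avu_mg_add, avu_tens_add]
        refine Prod.ext ?_ rfl
        simp [Finset.sum_add_distrib] }
  have hLd : ∀ τ, Lam τ = (∑ u, τ u, tens (mgU U τ fun _ => 0)) := fun τ => rfl
  have hsur : Function.Surjective Lam := by
    rintro ⟨s, T⟩
    let δ : X → {u // u ∈ U} → ZMod ℓ := fun x u => if u = ⟨φ x, hφU x⟩ then 1 else 0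
    have hδ1 : ∀ x, ∑ u, δ x u = 1 := fun x => by
      simp only [δ, Finset.sum_ite_eq', Finset.mem_univ, if_true]
    have hδ2 : ∀ x, ∑ u : {u // u ∈ U}, δ x u • u.1.1 = x := fun x => by
      simp only [δ, ite_smul, one_smul, zero_smul, Finset.sum_ite_eq', Finset.mem_univ, if_true]
      exact hφ1 x
    refine ⟨fun u => (s.1 * δ 0 u + δ T.1 u - δ 0 u,
      fun v => s.2 v * δ 0 u + δ (T.2 v) u - δ 0 u), ?_⟩
    rw [hLd]
    refine Prod.ext (Prod.ext ?_ ?_) (Prod.ext ?_ ?_)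
    · show (∑ u, _ : Tp ℓ (pf Δ)).1 = s.1
      rw [Prod.fst_sum]
      simp only [Finset.sum_sub_distrib, Finset.sum_add_distrib, ← Finset.mul_sum, hδ1]
      ring
    · funext v
      show (∑ u, _ : Tp ℓ (pf Δ)).2 v = s.2 v
      rw [Prod.snd_sum, Finset.sum_apply]
      simp only [Finset.sum_sub_distrib, Finset.sum_add_distrib, ← Finset.mul_sum, hδ1]
      ring
    · show ∑ u, (mgU U _ (fun _ => (0 : Tp ℓ (pf Δ))) u).1 • u.1 = T.1
      rw [avu_mg U (fun u (s : Tp ℓ (pf Δ)) => s.1 • u.1) (fun u => zero_smul _ _)]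
      simp only [add_smul, sub_smul, mul_smul, Finset.sum_sub_distrib, Finset.sum_add_distrib,
        ← Finset.smul_sum, hδ2, smul_zero, zero_add, sub_zero]
    · funext v
      show ∑ u, (mgU U _ (fun _ => (0 : Tp ℓ (pf Δ))) u).2 v • u.1 = T.2 v
      rw [avu_mg U (fun u (s : Tp ℓ (pf Δ)) => s.2 v • u.1) (fun u => zero_smul _ _)]
      simp only [add_smul, sub_smul, mul_smul, Finset.sum_sub_distrib, Finset.sum_add_distrib,
        ← Finset.smul_sum, hδ2, smul_zero, zero_add, sub_zero]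
  obtain ⟨c, hc⟩ : ∃ c : ℕ, c = (Finset.univ.filter fun τ => Lam τ = 0).card := ⟨_, rfl⟩
  have hfib : ∀ y, (Finset.univ.filter fun τ => Lam τ = y).card = c := by
    intro y
    rw [hc]
    exact AddMonoidHom.card_fiber_eq_of_mem_range Lam (hsur y) (hsur 0)
  have hcE : Fintype.card (EE X (pf Δ)) = Fintype.card X ^ (Fintype.card (pf Δ) + 1) := by
    rw [Fintype.card_prod, Fintype.card_fun, pow_succ, mul_comm]
  have hk : 0 < U.card := Finset.card_pos.2 ⟨φ 0, hφU 0⟩
  have htot : (Fintype.card (Tp ℓ (pf Δ))) ^ U.card =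
      Fintype.card (Tp ℓ (pf Δ)) * Fintype.card (EE X (pf Δ)) * c := by
    have e := Finset.card_eq_sum_card_fiberwise (f := Lam) (s := Finset.univ)
      (t := (Finset.univ : Finset (Tp ℓ (pf Δ) × EE X (pf Δ)))) (fun _ _ => Finset.mem_univ _)
    rw [Finset.sum_congr rfl fun y _ => hfib y, Finset.card_univ, Finset.sum_const,
      Finset.card_univ, Fintype.card_fun, Fintype.card_coe, Fintype.card_prod (Tp ℓ (pf Δ)) (EE X (pf Δ)),
      smul_eq_mul] at e
    exact e
  have hN : 0 < Fintype.card (Tp ℓ (pf Δ)) := Fintype.card_pos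
  have htot' : (Fintype.card (Tp ℓ (pf Δ))) ^ (U.card - 1) = Fintype.card (EE X (pf Δ)) * c := by
    have e : Fintype.card (Tp ℓ (pf Δ)) * (Fintype.card (Tp ℓ (pf Δ))) ^ (U.card - 1) =
        Fintype.card (Tp ℓ (pf Δ)) * (Fintype.card (EE X (pf Δ)) * c) := by
      rw [← pow_succ', Nat.sub_add_cancel hk, htot, mul_assoc]
    exact Nat.eq_of_mul_eq_mul_left hN e
  have hbd : ‖∑ τ : {u // u ∈ U} → Tp ℓ (pf Δ), auT χ (CDX B) (GK B dt R) U t τ‖ ≤
      ((Nat.card (dt.W t) * c : ℕ) : ℝ) := by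
    have : Fintype (dt.W t) := Fintype.ofFinite _
    refine (norm_sum_le _ _).trans ?_
    have e1 : ∀ τ : {u // u ∈ U} → Tp ℓ (pf Δ), ‖auT χ (CDX B) (GK B dt R) U t τ‖ ≤
        ∑ z : dt.W t, if Lam τ = (t, z.1.2) then (1 : ℝ) else 0 := by
      intro τ
      have h0 : 0 ≤ ∑ z : dt.W t, if Lam τ = (t, z.1.2) then (1 : ℝ) else 0 :=
        Finset.sum_nonneg fun z _ => by
          split_ifs
          · exact zero_le_one
          · exact le_rfl
      by_cases h : ∑ u, τ u = t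
      · have e1 : ∑ u, mgU U τ (fun _ => 0) u = t := (avu_sum0 U τ).trans h
        rw [auT_pos χ _ _ U h, norm_mul, norm_ps, mul_one]
        by_cases hR : R t
        · rw [gk_pos B dt R _ (by rw [e1]; exact hR)]
          refine (norm_sum_le _ _).trans ?_
          have e2 : ∀ ε : EE X (pf Δ), ‖gkT B dt (mgU U τ fun _ => 0) ε‖ ≤
              if (ε, tens (mgU U τ fun _ => 0)) ∈ dt.W t then (1 : ℝ) else 0 := by
            intro ε
            by_cases h' : (ε, tens (mgU U τ fun _ => 0)) ∈ dt.W t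
            · rw [if_pos h']
              exact norm_gkT _ _ _ _
            · rw [if_neg h', gkT_neg B dt (by rw [e1]; exact h'), norm_zero]
          refine (Finset.sum_le_sum fun ε _ => e2 ε).trans ?_
          rw [Finset.sum_boole, Finset.sum_boole, Nat.cast_le]
          refine Finset.card_le_card_of_injOn (fun ε =>
            if h' : (ε, tens (mgU U τ fun _ => 0)) ∈ dt.W t then
              (⟨(ε, tens (mgU U τ fun _ => 0)), h'⟩ : dt.W t) else 0) ?_ ?_
          · intro ε hε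
            have hε' : (ε, tens (mgU U τ fun _ => 0)) ∈ dt.W t := (Finset.mem_filter.1 hε).2
            refine Finset.mem_coe.2 (Finset.mem_filter.2 ⟨Finset.mem_univ _, ?_⟩)
            simp only [dif_pos hε']
            rw [hLd, h]
          · intro ε hε ε' hε' he
            have h1 : (ε, tens (mgU U τ fun _ => 0)) ∈ dt.W t := (Finset.mem_filter.1 hε).2
            have h2 : (ε', tens (mgU U τ fun _ => 0)) ∈ dt.W t := (Finset.mem_filter.1 hε').2
            simp only [dif_pos h1, dif_pos h2] at he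
            exact congrArg (fun z : dt.W t => z.1.1) he
        · rw [gk_neg B dt R _ (by rw [e1]; exact hR), norm_zero]
          exact h0
      · rw [auT_neg χ _ _ U h, norm_zero]
        exact h0
    refine (Finset.sum_le_sum fun τ _ => e1 τ).trans ?_
    rw [Finset.sum_comm]
    have e2 : ∀ z : dt.W t, ∑ τ : {u // u ∈ U} → Tp ℓ (pf Δ),
        (if Lam τ = (t, z.1.2) then (1 : ℝ) else 0) = c := by
      intro z
      rw [Finset.sum_boole, hfib]
    rw [Finset.sum_congr rfl fun z _ => e2 z, Finset.sum_const, Finset.card_univ, nsmul_eq_mul,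
      Nat.cast_mul, Nat.card_eq_fintype_card]
  rw [au_eq, norm_mul, norm_div, norm_one, norm_pow, Complex.norm_natCast]
  have hp : (0 : ℝ) < (Fintype.card (Tp ℓ (pf Δ)) : ℝ) ^ (U.card - 1) :=
    pow_pos (Nat.cast_pos.2 hN) _
  rw [one_div, inv_mul_le_iff₀ hp, mul_one]
  refine hbd.trans ?_
  have e : Nat.card (dt.W t) * c ≤ (Fintype.card (Tp ℓ (pf Δ))) ^ (U.card - 1) := by
    rw [htot', hcE]
    exact Nat.mul_le_mul_right _ (hW t)
  exact_mod_cast e

end Pool.Agent.H94.PM
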