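import Pool.Agent.H94.PM.GAM

set_option autoImplicit false

/-!
# [H94 PM QF] The local quadratic forms, `ℓ = 2`

`c2 x = ∑_{i < k} x i x k`, `dot x y = ∑ x i y i`.
* `c2_add`: `∑_{i < k} (x i y k + x k y i) = ∑_{i ≠ k} x i y k = (∑ x) (∑ y) - ∑ x i y i = dot x y` (in `ZMod 2`, `∑ x = 0`).
* `c2_smul`: `c * c = c`.  `dot_self`: `x i * x i = x i`.
* `qf_add`: `ee g g' = B g.2 g'.1 - B g.1 g'.2 + e B g.1 g'.1`, signs do not matter; `BB` is `dot`.
* `ee_alt`: `ee g g = e * dot g.1 g.1 = 0`; or from `qf_add`.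
* `sum_ph`: `φ i = ∑ k ≠ i, H i k` with `H` symmetric: each pair is counted twice.
* `exists_U`: `φ' = ⟨φ, _⟩ : XX m 2`, `U = {g | (g.1 = 0 ∨ g.1 = φ') ∧ dot g.2 φ = 0}` (or `(span {φ'}).prod (ker (B φ'))`).
  On `U`: `g.1 = 0`: `qf = dot g.2 φ = 0`.  `g.1 = φ'`: `qf = dot φ g.2 + e c2 φ + dot g.2 φ + dot φ ψ + e dot φ φ = e c2 φ + dot φ ψ = 0`.  Cardinality: if `φ' = 0`: all
  `(0, u)`.  Otherwise `2 * (card X / 2)`, since `u ↦ B φ' u` is a nonzero linear form (`BB_good`, `m` odd), so its kernel has `card X / 2` elements.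
-/

namespace Pool.Agent.H94.PM

open Pool.Agent.H94.PL

variable {m : ℕ}

/-- second elementary symmetric function -/
def c2 (x : Fin m → ZMod 2) : ZMod 2 := ∑ p ∈ prs m, x p.1 * x p.2

/-- dot product -/
def dot (x y : Fin m → ZMod 2) : ZMod 2 := ∑ i, x i * y i

private theorem qf_prs (f : Fin m → Fin m → ZMod 2) :
    ∑ p ∈ prs m, (f p.1 p.2 + f p.2 p.1) + ∑ i, f i i = ∑ i, ∑ k, f i k := by
  have h1 : ∑ i, ∑ k, f i k = ∑ p : Fin m × Fin m, f p.1 p.2 := by
    rw [Fintype.sum_prod_type]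
  have h2 := Finset.sum_filter_add_sum_filter_not (Finset.univ : Finset (Fin m × Fin m))
    (fun p => p.1 < p.2) (fun p => f p.1 p.2)
  have h3 := Finset.sum_filter_add_sum_filter_not
    (Finset.univ.filter fun p : Fin m × Fin m => ¬ p.1 < p.2)
    (fun p => p.2 < p.1) (fun p => f p.1 p.2)
  have h4 : ∑ p ∈ (Finset.univ.filter fun p : Fin m × Fin m => ¬ p.1 < p.2).filter
      (fun p => p.2 < p.1), f p.1 p.2 = ∑ p ∈ prs m, f p.2 p.1 := by
    refine Finset.sum_nbij' Prod.swap Prod.swap ?_ ?_ ?_ ?_ ?_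
    · intro p hp
      rw [Finset.mem_filter] at hp
      exact mem_prs.2 hp.2
    · intro p hp
      rw [mem_prs] at hp
      rw [Finset.mem_filter, Finset.mem_filter]
      exact ⟨⟨Finset.mem_univ _, not_lt_of_gt hp⟩, hp⟩
    · intro p _
      rfl
    · intro p _
      rfl
    · intro p _
      rfl
  have h5 : ∑ p ∈ (Finset.univ.filter fun p : Fin m × Fin m => ¬ p.1 < p.2).filter
      (fun p => ¬ p.2 < p.1), f p.1 p.2 = ∑ i, f i i := by
    refine Finset.sum_nbij' (fun p => p.1) (fun i => (i, i)) ?_ ?_ ?_ ?_ ?_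
    · intro p _
      exact Finset.mem_univ _
    · intro i _
      rw [Finset.mem_filter, Finset.mem_filter]
      exact ⟨⟨Finset.mem_univ _, lt_irrefl _⟩, lt_irrefl _⟩
    · intro p hp
      rw [Finset.mem_filter, Finset.mem_filter] at hp
      have : p.1 = p.2 := le_antisymm (not_lt.1 hp.2) (not_lt.1 hp.1.2)
      exact Prod.ext rfl this
    · intro i _
      rfl
    · intro p hp
      rw [Finset.mem_filter, Finset.mem_filter] at hp
      have : p.1 = p.2 := le_antisymm (not_lt.1 hp.2) (not_lt.1 hp.1.2)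
      rw [← this]
  rw [h1, ← h2, ← h3, h4, h5, Finset.sum_add_distrib]
  rw [add_assoc]
  rfl

theorem dot_add_left (x x' y : Fin m → ZMod 2) : dot (x + x') y = dot x y + dot x' y := by
  unfold dot
  rw [← Finset.sum_add_distrib]
  refine Finset.sum_congr rfl fun i _ => ?_
  rw [Pi.add_apply, add_mul]

theorem dot_add_right (x y y' : Fin m → ZMod 2) : dot x (y + y') = dot x y + dot x y' := by
  unfold dot
  rw [← Finset.sum_add_distrib]
  refine Finset.sum_congr rfl fun i _ => ?_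
  rw [Pi.add_apply, mul_add]

theorem dot_comm (x y : Fin m → ZMod 2) : dot x y = dot y x := by
  unfold dot
  exact Finset.sum_congr rfl fun i _ => mul_comm _ _

theorem BB_dot (x y : XX m 2) : BB m 2 x y = dot x.1 y.1 := by
  rfl

theorem c2_add {x y : Fin m → ZMod 2} (hx : ∑ i, x i = 0) (hy : ∑ i, y i = 0) :
    c2 (x + y) = c2 x + c2 y + dot x y := by
  have h := qf_prs (fun i k => x i * y k)
  have h1 : ∑ i, ∑ k, x i * y k = 0 := by
    rw [← Finset.sum_mul_sum, hx, zero_mul]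
  simp only [h1] at h
  have h2 : ∑ p ∈ prs m, (x p.1 * y p.2 + x p.2 * y p.1) = dot x y :=
    CharTwo.add_eq_zero.1 h
  rw [← h2]
  unfold c2
  rw [← Finset.sum_add_distrib, ← Finset.sum_add_distrib]
  refine Finset.sum_congr rfl fun p _ => ?_
  rw [Pi.add_apply, Pi.add_apply]
  ring

theorem c2_smul (c : ZMod 2) (x : Fin m → ZMod 2) : c2 (c • x) = c * c2 x := by
  have hc : c * c = c := by
    revert c
    decide
  unfold c2
  rw [Finset.mul_sum]
  refine Finset.sum_congr rfl fun p _ => ?_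
  rw [Pi.smul_apply, Pi.smul_apply, smul_eq_mul, smul_eq_mul]
  calc c * x p.1 * (c * x p.2) = (c * c) * (x p.1 * x p.2) := by ring
    _ = c * (x p.1 * x p.2) := by rw [hc]

theorem dot_self {x : Fin m → ZMod 2} (hx : ∑ i, x i = 0) : dot x x = 0 := by
  have hc : ∀ c : ZMod 2, c * c = c := by decide
  unfold dot
  rw [Finset.sum_congr rfl fun i _ => hc (x i)]
  exact hx

/-- the local quadratic form -/
def qf (e : ZMod 2) (φ ψ : Fin m → ZMod 2) (g : XX m 2 × XX m 2) : ZMod 2 :=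
  dot g.1.1 g.2.1 + e * c2 g.1.1 + dot g.2.1 φ + dot g.1.1 ψ + e * dot g.1.1 φ

theorem qf_add (e : ZMod 2) (φ ψ : Fin m → ZMod 2) (g g' : XX m 2 × XX m 2) :
    qf e φ ψ (g + g') = qf e φ ψ g + qf e φ ψ g' + ee m 2 e g g' := by
  rw [ee_apply, BB_dot, BB_dot, BB_dot, CharTwo.sub_eq_add]
  unfold qf
  have h1 : (g + g').1.1 = g.1.1 + g'.1.1 := rfl
  have h2 : (g + g').2.1 = g.2.1 + g'.2.1 := rfl
  rw [h1, h2, c2_add g.1.2 g'.1.2]
  simp only [dot_add_left, dot_add_right]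
  rw [dot_comm g.2.1 g'.1.1]
  ring

theorem qf_zero (e : ZMod 2) (φ ψ : Fin m → ZMod 2) : qf e φ ψ 0 = 0 := by
  have h1 : ((0 : XX m 2 × XX m 2)).1.1 = 0 := rfl
  have h2 : ((0 : XX m 2 × XX m 2)).2.1 = 0 := rfl
  unfold qf
  rw [h1, h2]
  simp [dot, c2]

theorem ee_symm (e : ZMod 2) (g g' : XX m 2 × XX m 2) : ee m 2 e g g' = ee m 2 e g' g := by
  rw [ee_apply, ee_apply, CharTwo.sub_eq_add, CharTwo.sub_eq_add, BB_symm g'.2 g.1,
    BB_symm g'.1 g.2, BB_symm g'.1 g.1]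
  ring

theorem sum_ph {H : Fin m → Fin m → ZMod 2} (hH : ∀ i k, H i k = H k i) :
    ∑ i, ∑ k ∈ Finset.univ.erase i, H i k = 0 := by
  have h := qf_prs H
  have h1 : ∑ p ∈ prs m, (H p.1 p.2 + H p.2 p.1) = 0 := by
    refine Finset.sum_eq_zero fun p _ => ?_
    rw [hH p.2 p.1]
    exact CharTwo.add_self_eq_zero _
  rw [h1, zero_add] at h
  have h2 : ∑ i, ∑ k, H i k = ∑ i, H i i + ∑ i, ∑ k ∈ Finset.univ.erase i, H i k := by
    rw [← Finset.sum_add_distrib]
    refine Finset.sum_congr rfl fun i _ => ?_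
    exact (Finset.add_sum_erase _ _ (Finset.mem_univ i)).symm
  rw [← h] at h2
  exact (left_eq_add.1 h2)

theorem exists_U (hm : Nat.Coprime m 2) (e : ZMod 2) {φ ψ : Fin m → ZMod 2}
    (hφ : ∑ i, φ i = 0) (h : dot φ ψ + e * c2 φ = 0) :
    ∃ U : Submodule (ZMod 2) (XX m 2 × XX m 2), (∀ g ∈ U, qf e φ ψ g = 0) ∧
      Nat.card U = Nat.card (XX m 2) := by
  have hprime : Fact (Nat.Prime 2) := ⟨Nat.prime_two⟩
  have hfin : Module.Finite (ZMod 2) (XX m 2) := Module.Finite.of_finite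
  have hUc : Nat.card ((Submodule.span (ZMod 2) {(⟨φ, hφ⟩ : XX m 2)}).prod
      (LinearMap.ker (BB m 2 ⟨φ, hφ⟩)) : Submodule (ZMod 2) (XX m 2 × XX m 2)) =
      Nat.card (Submodule.span (ZMod 2) {(⟨φ, hφ⟩ : XX m 2)}) *
      Nat.card (LinearMap.ker (BB m 2 ⟨φ, hφ⟩)) := by
    rw [← Nat.card_prod]
    exact Nat.card_congr (Equiv.Set.prod _ _)
  refine ⟨(Submodule.span (ZMod 2) {(⟨φ, hφ⟩ : XX m 2)}).prod
    (LinearMap.ker (BB m 2 ⟨φ, hφ⟩)), ?_, ?_⟩
  · intro g hg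
    obtain ⟨h1, h2⟩ := Submodule.mem_prod.1 hg
    obtain ⟨c, hc⟩ := Submodule.mem_span_singleton.1 h1
    rw [LinearMap.mem_ker, BB_dot] at h2
    have h2' : dot φ g.2.1 = 0 := h2
    have h3 : g.1.1 = c • φ := by rw [← hc]; rfl
    have h4 : ∀ y : Fin m → ZMod 2, dot (c • φ) y = c * dot φ y := by
      intro y
      unfold dot
      rw [Finset.mul_sum]
      refine Finset.sum_congr rfl fun i _ => ?_
      rw [Pi.smul_apply, smul_eq_mul, mul_assoc]
    unfold qf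
    rw [h3, h4, h4, h4, c2_smul, dot_comm g.2.1 φ, h2', dot_self hφ]
    have h5 : c * (dot φ ψ + e * c2 φ) = 0 := by rw [h, mul_zero]
    linear_combination h5
  · rw [hUc, Module.natCard_eq_pow_finrank (K := ZMod 2),
      Module.natCard_eq_pow_finrank (K := ZMod 2) (V := LinearMap.ker (BB m 2 ⟨φ, hφ⟩)),
      Module.natCard_eq_pow_finrank (K := ZMod 2) (V := XX m 2), ← pow_add]
    congr 1
    by_cases h0 : (⟨φ, hφ⟩ : XX m 2) = 0
    · rw [h0, map_zero, LinearMap.ker_zero, Submodule.span_zero_singleton, finrank_bot,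
        finrank_top, zero_add]
    · rw [finrank_span_singleton h0, add_comm]
      refine Module.Dual.finrank_ker_add_one_of_ne_zero ?_
      intro h1
      exact h0 ((BB_good hm).nondeg _ fun y => by rw [h1]; rfl)

end Pool.Agent.H94.PM
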