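import Pool.Agent.H94.PL.CardCls

set_option autoImplicit false

/-!
# [H94 PM CC1] A positive proportion of polynomials is squarefree and prime to `Δ`, `q ≥ 3`

As `PL.card_Cls_ge` (see the header of `PL.CardCls`), for `q ≥ 3`.  Let `N` be monic of degree `d` (`PL.cardl_Cls_normalize`), `R m` the number of monic polynomials of degree `m` prime to `N`: `R m = φ q ^ (m - d)` for `m ≥ d`
(`cardl_R_eq`, `φ = cardl_phi N ≥ 1`), `R m ≤ q ^ m`.  Every monic `A` prime to `N` which is not squarefree is `E ^ 2 * A'` with `E` monic nonconstant prime to `N`, or, as in `cardl_bad`, `P ^ 2 * A'` with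
`P` monic irreducible of degree `e`, `1 ≤ e ≤ n / 2`; the number of such `A` is at most `∑ e, #(Pr e) * R (n - 2 e)`.
For `e = 1`: `#(Pr 1) = q` gives `q * φ q ^ (n - 2 - d) = φ q ^ (n - d) / q`; for `e ≥ 2` use `#(Pr e) ≤ q ^ e / e`, or: `#(Pr e) ≤ q ^ e`:
`∑ e ≥ 1, q ^ e φ q ^ (n - 2 e - d) ≤ φ q ^ (n - d) ∑ e ≥ 1, q ^ (- e) = φ q ^ (n - d) / (q - 1) ≤ φ q ^ (n - d) / 2`, and the terms with `n - 2 e < d` contribute at most
`∑ q ^ e q ^ (n - 2 e) ≤ n q ^ ((n + d) / 2 + 1)`.  So `#(Cls N n) ≥ φ q ^ (n - d) / 2 - n q ^ ((n + d) / 2 + 1) ≥ q ^ n / (4 q ^ d)` for `n` large.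
(Only `cardl_geom`, `cardl_bad_card`, `cardl_large`, `cardl_monic` of `PL.CardCls` use `q ≥ 4`; copy them with `3 ≤ q`, `1 / 2` in place of `1 / 3`, and `1 / 4` for the final constant.)
-/

namespace Pool.Agent.H94.PM

open Polynomial
open Pool.Agent.H94.PL
open Pool.Agent.H94.PC (Mo Sq Pr pf om Mn mem_Mo mem_Sq mem_Pr mem_pf mem_pf')

theorem cc1_geom (q : ℝ) (hq : 3 ≤ q) (M : ℕ) :
    ∑ e ∈ Finset.Icc 1 M, (1 / q) ^ e ≤ 1 / 2 := by
  have hq0 : 0 < q := by linarith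
  have hq1 : 0 < q - 1 := by linarith
  have key : ∀ M : ℕ, ∑ e ∈ Finset.Icc 1 M, (1 / q) ^ e =
      1 / (q - 1) - (1 / q) ^ M / (q - 1) := by
    intro M
    induction M with
    | zero => simp
    | succ M ih =>
      rw [Finset.sum_Icc_succ_top (by omega), ih, pow_succ]
      field_simp
      ring
  rw [key M]
  have h1 : 0 ≤ (1 / q) ^ M / (q - 1) := by positivity
  have h2 : 1 / (q - 1) ≤ 1 / 2 := one_div_le_one_div_of_le (by norm_num) (by linarith)
  linarith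

theorem cc1_bad_card {F : Type} [Field F] [Finite F] (hq : 3 ≤ Nat.card F) {N : F[X]}
    (hN : N.Monic) (n : ℕ) (hn : N.natDegree ≤ n) (S : Finset F[X])
    (hS : ∀ D ∈ S, D ∈ cardl_R N n ∧ ¬ Squarefree D) :
    (S.card : ℝ) ≤ (cardl_phi N : ℝ) * (Nat.card F : ℝ) ^ (n - N.natDegree) / 2 +
      (n : ℝ) * (Nat.card F : ℝ) ^ ((n + N.natDegree) / 2) := by
  classical
  have hqr : (3 : ℝ) ≤ Nat.card F := by exact_mod_cast hq
  have hsub : S ⊆ (cardl_R N n).filter (fun D => ¬ Squarefree D) := by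
    intro D hD
    rw [Finset.mem_filter]
    exact hS D hD
  have h1 := Finset.card_le_card (hsub.trans (cardl_bad N n))
  have h3 : (S.card : ℝ) ≤ ∑ e ∈ Finset.Icc 1 (n / 2), ∑ _P ∈ Pr F e,
      ((cardl_R N (n - 2 * e)).card : ℝ) := by
    have h4 : S.card ≤ ∑ e ∈ Finset.Icc 1 (n / 2), ∑ _P ∈ Pr F e,
        (cardl_R N (n - 2 * e)).card := by
      refine h1.trans (Finset.card_biUnion_le.trans (Finset.sum_le_sum fun d _ => ?_))
      refine Finset.card_biUnion_le.trans (Finset.sum_le_sum fun P _ => ?_)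
      exact Finset.card_image_le
    exact_mod_cast h4
  refine h3.trans ?_
  refine (Finset.sum_le_sum fun e he => cardl_term hN n e hn he).trans ?_
  rw [Finset.sum_add_distrib, ← Finset.mul_sum, Finset.sum_const, Nat.card_Icc, nsmul_eq_mul]
  have h5 := cc1_geom (Nat.card F) hqr (n / 2)
  have h6 : (cardl_phi N : ℝ) * (Nat.card F : ℝ) ^ (n - N.natDegree) *
      ∑ e ∈ Finset.Icc 1 (n / 2), (1 / (Nat.card F : ℝ)) ^ e ≤
      (cardl_phi N : ℝ) * (Nat.card F : ℝ) ^ (n - N.natDegree) * (1 / 2) :=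
    mul_le_mul_of_nonneg_left h5 (by positivity)
  have h7 : ((n / 2 + 1 - 1 : ℕ) : ℝ) ≤ n := by
    have : n / 2 + 1 - 1 ≤ n := by omega
    exact_mod_cast this
  have h8 : ((n / 2 + 1 - 1 : ℕ) : ℝ) * (Nat.card F : ℝ) ^ ((n + N.natDegree) / 2) ≤
      (n : ℝ) * (Nat.card F : ℝ) ^ ((n + N.natDegree) / 2) :=
    mul_le_mul_of_nonneg_right h7 (by positivity)
  linarith

theorem cc1_large (q d n : ℕ) (hq : 3 ≤ q) (hn : 21 * d + 20 ≤ n) :
    4 * n * q ^ ((n + d) / 2) ≤ q ^ (n - d) := by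
  obtain ⟨k, hk⟩ : ∃ k, n - d = (n + d) / 2 + k := ⟨n - d - (n + d) / 2, by omega⟩
  have hk1 : n ≤ 2 * k + 3 * d + 1 := by omega
  have hk2 : 9 * d + 10 ≤ k := by omega
  have h1 : 4 * n ≤ 3 ^ k := by
    have h2 : ∀ j : ℕ, 2 ≤ j → (j + 1) * (j + 1) ≤ 3 ^ j := by
      intro j hj
      induction j, hj using Nat.le_induction with
      | base => norm_num
      | succ j hj ih =>
        rw [pow_succ]
        nlinarith
    refine le_trans ?_ (h2 k (by omega))
    have h5 : (9 * d + 10) * k ≤ k * k := Nat.mul_le_mul_right k hk2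
    have h6 : 9 * d * 2 ≤ 9 * d * k := Nat.mul_le_mul_left (9 * d) (by omega)
    nlinarith
  rw [hk, pow_add, mul_comm (4 * n)]
  apply Nat.mul_le_mul_left
  exact h1.trans (Nat.pow_le_pow_left hq k)

theorem cc1_monic {F : Type} [Field F] [Finite F] (hq : 3 ≤ Nat.card F) {N : F[X]}
    (hN : N.Monic) (n : ℕ) (hn : 21 * N.natDegree + 20 ≤ n) :
    1 / (4 * (Nat.card F : ℝ) ^ N.natDegree) * (Nat.card F : ℝ) ^ n ≤ ((Cls N n).card : ℝ) := by
  classical
  have hqr : (3 : ℝ) ≤ Nat.card F := by exact_mod_cast hq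
  have h3 : (cardl_R N n).filter (fun D => Squarefree D) ⊆ Cls N n := by
    intro D hD
    rw [Finset.mem_filter, cardl_mem] at hD
    rw [mem_Cls]
    exact ⟨hD.1.1.1, hD.1.1.2, hD.2, hD.1.2⟩
  have h4 := Finset.card_le_card h3
  have h5 := Finset.card_filter_add_card_filter_not (s := cardl_R N n)
    (fun D => Squarefree D)
  have h6 := cc1_bad_card hq hN n (by omega)
    ((cardl_R N n).filter (fun D => ¬ Squarefree D)) (fun D hD => by
      rw [Finset.mem_filter] at hD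
      exact hD)
  rw [cardl_R_eq hN (by omega)] at h5
  have h7 : (((cardl_R N n).filter (fun D => Squarefree D)).card : ℝ) +
      (((cardl_R N n).filter (fun D => ¬ Squarefree D)).card : ℝ) =
      (cardl_phi N : ℝ) * (Nat.card F : ℝ) ^ (n - N.natDegree) := by exact_mod_cast h5
  have h8 : (((cardl_R N n).filter (fun D => Squarefree D)).card : ℝ) ≤
      ((Cls N n).card : ℝ) := by exact_mod_cast h4
  have h9 : 1 / (4 * (Nat.card F : ℝ) ^ N.natDegree) * (Nat.card F : ℝ) ^ n =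
      (Nat.card F : ℝ) ^ (n - N.natDegree) / 4 := by
    have h10 : (Nat.card F : ℝ) ^ n =
        (Nat.card F : ℝ) ^ (n - N.natDegree) * (Nat.card F : ℝ) ^ N.natDegree := by
      rw [← pow_add]
      congr 1
      omega
    rw [h10]
    field_simp
  have h11 : 4 * (n : ℝ) * (Nat.card F : ℝ) ^ ((n + N.natDegree) / 2) ≤
      (Nat.card F : ℝ) ^ (n - N.natDegree) := by
    exact_mod_cast cc1_large (Nat.card F) N.natDegree n hq hn
  have h12 : (1 : ℝ) ≤ cardl_phi N := by exact_mod_cast cardl_phi_pos hN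
  have h13 : (Nat.card F : ℝ) ^ (n - N.natDegree) ≤
      (cardl_phi N : ℝ) * (Nat.card F : ℝ) ^ (n - N.natDegree) :=
    le_mul_of_one_le_left (by positivity) h12
  rw [h9]
  linarith

theorem card_Cls_ge3 {F : Type} [Field F] [Finite F] (hq : 3 ≤ Nat.card F) (Δ : F[X])
    (hΔ : Δ ≠ 0) : ∃ κ : ℝ, 0 < κ ∧ ∃ n₀ : ℕ, ∀ n : ℕ, n₀ ≤ n →
      κ * (Nat.card F : ℝ) ^ n ≤ ((Cls Δ n).card : ℝ) := by
  classical
  have hN : (normalize Δ).Monic := monic_normalize hΔ
  have hq0 : (0 : ℝ) < Nat.card F := by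
    have : 0 < Nat.card F := by omega
    exact_mod_cast this
  refine ⟨1 / (4 * (Nat.card F : ℝ) ^ (normalize Δ).natDegree), by positivity,
    21 * (normalize Δ).natDegree + 20, ?_⟩
  intro n hn
  rw [← cardl_Cls_normalize Δ n]
  exact cc1_monic hq hN n hn

end Pool.Agent.H94.PM
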