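import Pool.Agent.H94.PM.T1
import Pool.Agent.H94.PM.TVN
import Pool.Agent.H94.PL.LGood

set_option autoImplicit false

/-!
# [H94 PM LV] Valuations of the values when one difference is not a unit

* `vl_dvn`: `dvn α D P a = ((-D) ^ α) ^ n * P a`, `ℓ ∣ vl D`, so `vl (dvn α D P a) ≡ vl (P a)` modulo `ℓ`.
* `lv_irr`: `P` irreducible, `n = deg P ≥ 1`.  By `norm_dvn` the product of the `dvn α D P (A k)` is `y ^ ℓ`, so with `vl_dvn`: (N) `ℓ ∣ ∑ k, vl (P (A k))`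
  (`m` summands, all `P (A k) ≠ 0`).  `m ≥ 1`.  Let `j₀` maximize `vl (P (A j₀)) =: s`.  All `vl (A j - A j₀) ≥ 0` for `j ≠ j₀`, and `= 0`
  unless `{j, j₀} = {i, k}` (if `A j = A j₀` then `vl (P (A j)) = s` trivially).
  - `s < 0`: `t1_gt_vl` with `a = A j₀`: `vl (P (A j)) = s` for all `j`; (N): `ℓ ∣ m * s`, so `ℓ ∣ s`.
  - `s = 0`: for each `j ≠ j₀`: if `n * vl (A j - A j₀) > 0`, `t1_gt_vl`: `vl (P (A j)) = 0`.  If it is `0`: `t1_eq`: `0 ≤ vl (P (A j)) ≤ s = 0`.  So all are `0`.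
  - `s > 0`: if `j ≠ j₀` and `vl (A j - A j₀) = 0`: `t1_lt_vl`: `vl (P (A j)) = 0`.  For `j ∉ {i, k}`, `j ≠ j₀` this applies.  If `j = j₀ ∉ {i, k}` it applies to all the
    others, and (N) gives `ℓ ∣ s`.
* `lv`: `PL.LGood.mum_induct` gives `lv_irr` for all Mumford pairs (`dvn_one`, `dvn_mul`; nonzero values), then the product
  over the pairs, `vl (δ j * γ j ^ ℓ) = vl (δ j) + ℓ * vl (γ j)`.
* `lv_good`: `lv` with `i = k = i₀` for the `j ≠ i₀` and any `i₀`; if `m ≥ 2` take `i₀ ≠ j`.  If `m = 1`: `prod_of_isVln`: `δ j = y ^ ℓ`.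
-/

namespace Pool.Agent.H94.PM

open Polynomial WithZero
open Pool.Agent.H94.PL

variable {M : Type} [Field M] [hv : Valued M ℤᵐ⁰] [CompleteSpace M] {m : ℕ}

omit [CompleteSpace M] in
theorem vl_dvn {ℓ α : ℕ} {D : M} (hD0 : D ≠ 0) (hD : (ℓ : ℤ) ∣ vl (Valued.v : Valuation M ℤᵐ⁰) D)
    {P : M[X]} {a : M} (ha : P.eval a ≠ 0) :
    (ℓ : ℤ) ∣ vl (Valued.v : Valuation M ℤᵐ⁰) (dvn α D P a) -
      vl (Valued.v : Valuation M ℤᵐ⁰) (P.eval a) := by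
  have hD' : (-D) ≠ 0 := neg_ne_zero.2 hD0
  have h1 : vl (Valued.v : Valuation M ℤᵐ⁰) (dvn α D P a) =
      (P.natDegree : ℤ) * ((α : ℤ) * vl (Valued.v : Valuation M ℤᵐ⁰) D) +
        vl (Valued.v : Valuation M ℤᵐ⁰) (P.eval a) := by
    unfold dvn
    rw [vl_mul (pow_ne_zero _ (pow_ne_zero _ hD')) ha, vl_pow, vl_pow, vl_neg]
  rw [h1, add_sub_cancel_right]
  exact Dvd.dvd.mul_left (Dvd.dvd.mul_left hD _) _

omit [CompleteSpace M] in
private theorem lv_le {A : Fin m → M} {i k : Fin m}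
    (hik : (Valued.v : Valuation M ℤᵐ⁰) (A i - A k) ≤ 1)
    (hAA : ∀ a b, a ≠ b → ¬ (a = i ∧ b = k) → ¬ (a = k ∧ b = i) →
      (Valued.v : Valuation M ℤᵐ⁰) (A a - A b) = 1) (a b : Fin m) :
    (Valued.v : Valuation M ℤᵐ⁰) (A a - A b) ≤ 1 := by
  by_cases hab : a = b
  · rw [hab, sub_self, map_zero]
    exact zero_le_one
  by_cases h1 : a = i ∧ b = k
  · rw [h1.1, h1.2]
    exact hik
  by_cases h2 : a = k ∧ b = i
  · rw [h2.1, h2.2, Valuation.map_sub_swap]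
    exact hik
  exact (hAA a b hab h1 h2).le

omit [CompleteSpace M] in
private theorem vl_nonneg_of_le {x : M} (hx : x ≠ 0) (h : (Valued.v : Valuation M ℤᵐ⁰) x ≤ 1) :
    0 ≤ vl (Valued.v : Valuation M ℤᵐ⁰) x := by
  rw [val_vl (v := Valued.v) hx, ← exp_zero, exp_le_exp] at h
  linarith

omit [CompleteSpace M] in
private theorem vl_zero_of_eq {x : M} (h : (Valued.v : Valuation M ℤᵐ⁰) x = 1) :
    vl (Valued.v : Valuation M ℤᵐ⁰) x = 0 := by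
  unfold vl
  rw [h, log_one, neg_zero]

theorem lv_irr {ϖ : M} (hϖ : (Valued.v : Valuation M ℤᵐ⁰) ϖ = exp (-1 : ℤ)) {ℓ α : ℕ}
    (hℓ : ℓ.Prime) (hm : Nat.Coprime m ℓ) (hα : ℓ ∣ α * m + 1) {D : M} (hD0 : D ≠ 0)
    (hD : (ℓ : ℤ) ∣ vl (Valued.v : Valuation M ℤᵐ⁰) D) {A : Fin m → M} {i k : Fin m}
    (hik : (Valued.v : Valuation M ℤᵐ⁰) (A i - A k) ≤ 1)
    (hAA : ∀ a b, a ≠ b → ¬ (a = i ∧ b = k) → ¬ (a = k ∧ b = i) →
      (Valued.v : Valuation M ℤᵐ⁰) (A a - A b) = 1) {P Q : M[X]}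
    (hP : P.Monic) (hirr : Irreducible P) (hev : ∀ k, P.eval (A k) ≠ 0)
    (hd : P ∣ C D * Q ^ ℓ - fA A) (j : Fin m) (hji : j ≠ i) (hjk : j ≠ k) :
    (ℓ : ℤ) ∣ vl (Valued.v : Valuation M ℤᵐ⁰) (dvn α D P (A j)) := by
  have hD' : (-D) ≠ 0 := neg_ne_zero.2 hD0
  have hn : 0 < P.natDegree := hirr.natDegree_pos
  have hnz : (0 : ℤ) < (P.natDegree : ℤ) := by exact_mod_cast hn
  have hdvn0 : ∀ k, dvn α D P (A k) ≠ 0 := fun k =>
    mul_ne_zero (pow_ne_zero _ (pow_ne_zero _ hD')) (hev k)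
  obtain ⟨y, hy⟩ := norm_dvn hℓ hα D A hP hd
  -- the sum of the values is divisible
  have hN : (ℓ : ℤ) ∣ ∑ b, vl (Valued.v : Valuation M ℤᵐ⁰) (P.eval (A b)) := by
    have h1 : ∑ b, vl (Valued.v : Valuation M ℤᵐ⁰) (dvn α D P (A b))
        = (ℓ : ℤ) * vl (Valued.v : Valuation M ℤᵐ⁰) y := by
      rw [← vl_prod _ _ (fun b _ => hdvn0 b), hy, vl_pow]
    have h2 : ∑ b, vl (Valued.v : Valuation M ℤᵐ⁰) (P.eval (A b))
        = ∑ b, vl (Valued.v : Valuation M ℤᵐ⁰) (dvn α D P (A b)) -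
          ∑ b, (vl (Valued.v : Valuation M ℤᵐ⁰) (dvn α D P (A b)) -
            vl (Valued.v : Valuation M ℤᵐ⁰) (P.eval (A b))) := by
      rw [Finset.sum_sub_distrib]
      ring
    rw [h2, h1]
    exact dvd_sub (Dvd.intro _ rfl) (Finset.dvd_sum fun b _ => vl_dvn hD0 hD (hev b))
  -- it suffices to treat the value of P
  suffices hgoal : (ℓ : ℤ) ∣ vl (Valued.v : Valuation M ℤᵐ⁰) (P.eval (A j)) by
    have h1 := vl_dvn (α := α) hD0 hD (hev j)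
    have h2 := dvd_add h1 hgoal
    rwa [sub_add_cancel] at h2
  obtain ⟨j₀, -, hmax⟩ := Finset.exists_max_image (Finset.univ : Finset (Fin m))
    (fun b => vl (Valued.v : Valuation M ℤᵐ⁰) (P.eval (A b))) ⟨j, Finset.mem_univ j⟩
  have hmax' : ∀ b, vl (Valued.v : Valuation M ℤᵐ⁰) (P.eval (A b)) ≤
      vl (Valued.v : Valuation M ℤᵐ⁰) (P.eval (A j₀)) := fun b => hmax b (Finset.mem_univ b)
  obtain ⟨s, hs⟩ : ∃ s : ℤ, vl (Valued.v : Valuation M ℤᵐ⁰) (P.eval (A j₀)) = s := ⟨_, rfl⟩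
  rcases lt_trichotomy s 0 with hneg | hzero | hpos
  · -- s < 0
    have hall : ∀ b, vl (Valued.v : Valuation M ℤᵐ⁰) (P.eval (A b)) = s := by
      intro b
      rw [← hs]
      refine t1_gt_vl hϖ hP hirr (hev j₀) (hev b) (fun hne => ?_)
      have h1 := vl_nonneg_of_le (sub_ne_zero.2 hne) (lv_le hik hAA b j₀)
      have h2 : 0 ≤ (P.natDegree : ℤ) * vl (Valued.v : Valuation M ℤᵐ⁰) (A b - A j₀) :=
        mul_nonneg hnz.le h1
      linarith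
    rw [Finset.sum_congr rfl (fun b _ => hall b), Finset.sum_const, Finset.card_univ,
      Fintype.card_fin, nsmul_eq_mul] at hN
    rw [hall j]
    refine IsCoprime.dvd_of_dvd_mul_left ?_ hN
    exact (Nat.isCoprime_iff_coprime.2 hm).symm
  · -- s = 0
    have h0 : vl (Valued.v : Valuation M ℤᵐ⁰) (P.eval (A j)) = 0 := by
      by_cases hab : A j = A j₀
      · rw [hab, hs, hzero]
      have h1 := vl_nonneg_of_le (sub_ne_zero.2 hab) (lv_le hik hAA j j₀)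
      rcases lt_or_eq_of_le h1 with h2 | h2
      · have h3 := t1_gt_vl hϖ hP hirr (hev j₀) (hev j) (fun _ => by
          rw [hs, hzero]
          exact mul_pos hnz h2)
        rw [h3, hs, hzero]
      · have h3 := t1_eq hϖ hP hirr (hev j₀) (hev j) hab (by rw [hs, hzero, ← h2, mul_zero])
        have h4 := hmax' j
        rw [hs, hzero] at h3 h4
        exact le_antisymm h4 h3
    rw [h0]
    exact dvd_zero _
  · -- s > 0
    have hkey : ∀ a b : Fin m, a ≠ b → (Valued.v : Valuation M ℤᵐ⁰) (A a - A b) = 1 → b = j₀ →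
        vl (Valued.v : Valuation M ℤᵐ⁰) (P.eval (A a)) = 0 := by
      intro a b _ hv hb
      subst hb
      have hne : A a ≠ A b := by
        intro h
        rw [h, sub_self, map_zero] at hv
        exact zero_ne_one hv
      have h1 := t1_lt_vl hϖ hP hirr (hev b) (hev a) hne (by
        rw [vl_zero_of_eq hv, mul_zero, hs]
        exact hpos)
      rw [h1, vl_zero_of_eq hv, mul_zero]
    by_cases hj : j = j₀
    · have hrest : ∀ b, b ≠ j → vl (Valued.v : Valuation M ℤᵐ⁰) (P.eval (A b)) = 0 := by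
        intro b hb
        exact hkey b j hb (hAA b j hb (fun h => hjk h.2) (fun h => hji h.2)) hj
      rw [Finset.sum_eq_single j (fun b _ hb => hrest b hb)
        (fun h => absurd (Finset.mem_univ j) h)] at hN
      exact hN
    · rw [hkey j j₀ hj (hAA j j₀ hj (fun h => hji h.1) (fun h => hjk h.1)) rfl]
      exact dvd_zero _

theorem lv {ϖ : M} (hϖ : (Valued.v : Valuation M ℤᵐ⁰) ϖ = exp (-1 : ℤ)) {ℓ α : ℕ}
    (hℓ : ℓ.Prime) (hm : Nat.Coprime m ℓ) (hα : ℓ ∣ α * m + 1) {D : M} (hD0 : D ≠ 0)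
    (hD : (ℓ : ℤ) ∣ vl (Valued.v : Valuation M ℤᵐ⁰) D) {A : Fin m → M} {i k : Fin m}
    (hik : (Valued.v : Valuation M ℤᵐ⁰) (A i - A k) ≤ 1)
    (hAA : ∀ a b, a ≠ b → ¬ (a = i ∧ b = k) → ¬ (a = k ∧ b = i) →
      (Valued.v : Valuation M ℤᵐ⁰) (A a - A b) = 1) {δ : Fin m → M}
    (h : IsVln ℓ α D A δ) (j : Fin m) (hji : j ≠ i) (hjk : j ≠ k) :
    (ℓ : ℤ) ∣ vl (Valued.v : Valuation M ℤᵐ⁰) (δ j) := by
  have hD' : (-D) ≠ 0 := neg_ne_zero.2 hD0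
  have hδ : δ j ≠ 0 := isVln_ne hD0 h j
  obtain ⟨r, P, Q, γ, hM, hγ, hδγ⟩ := h
  have hne : ∀ (P : M[X]), (∀ k, P.eval (A k) ≠ 0) → ∀ k, dvn α D P (A k) ≠ 0 := fun P hP k =>
    mul_ne_zero (pow_ne_zero _ (pow_ne_zero _ hD')) (hP k)
  have hone : ∀ (P Q : M[X]), IsMum ℓ D A P Q →
      (ℓ : ℤ) ∣ vl (Valued.v : Valuation M ℤᵐ⁰) (dvn α D P (A j)) := by
    intro P Q hPQ
    have h1 : (∀ k, P.eval (A k) ≠ 0) ∧
        (ℓ : ℤ) ∣ vl (Valued.v : Valuation M ℤᵐ⁰) (dvn α D P (A j)) := by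
      refine mum_induct ℓ D A Q (fun P => (∀ k, P.eval (A k) ≠ 0) ∧
        (ℓ : ℤ) ∣ vl (Valued.v : Valuation M ℤᵐ⁰) (dvn α D P (A j))) ?_ ?_ ?_ hPQ
      · refine ⟨fun k => by rw [eval_one]; exact one_ne_zero, ?_⟩
        rw [dvn_one, vl_one]
        exact dvd_zero _
      · rintro P P' hP hP' ⟨h1, h2⟩ ⟨h3, h4⟩
        refine ⟨fun k => by rw [eval_mul]; exact mul_ne_zero (h1 k) (h3 k), ?_⟩
        rw [dvn_mul α D hP hP', vl_mul (hne P h1 j) (hne P' h3 j)]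
        exact dvd_add h2 h4
      · intro P hP hirr hev hd
        exact ⟨hev, lv_irr hϖ hℓ hm hα hD0 hD hik hAA hP hirr hev hd j hji hjk⟩
    exact h1.2
  have h2 : vl (Valued.v : Valuation M ℤᵐ⁰) (δ j) + (ℓ : ℤ) * vl (Valued.v : Valuation M ℤᵐ⁰) (γ j)
      = ∑ i, vl (Valued.v : Valuation M ℤᵐ⁰) (dvn α D (P i) (A j)) := by
    rw [← vl_prod _ _ (fun i _ => hne (P i) (hM i).2.1 j), ← hδγ j,
      vl_mul hδ (pow_ne_zero _ (hγ j)), vl_pow]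
  have h3 : (ℓ : ℤ) ∣ vl (Valued.v : Valuation M ℤᵐ⁰) (δ j) +
      (ℓ : ℤ) * vl (Valued.v : Valuation M ℤᵐ⁰) (γ j) := by
    rw [h2]
    exact Finset.dvd_sum fun i _ => hone (P i) (Q i) (hM i)
  exact (dvd_add_left (Dvd.intro _ rfl)).1 h3

theorem lv_good {ϖ : M} (hϖ : (Valued.v : Valuation M ℤᵐ⁰) ϖ = exp (-1 : ℤ)) {ℓ α : ℕ}
    (hℓ : ℓ.Prime) (hm : Nat.Coprime m ℓ) (hα : ℓ ∣ α * m + 1) {D : M} (hD0 : D ≠ 0)
    (hD : (ℓ : ℤ) ∣ vl (Valued.v : Valuation M ℤᵐ⁰) D) {A : Fin m → M}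
    (hAA : ∀ a b, a ≠ b → (Valued.v : Valuation M ℤᵐ⁰) (A a - A b) = 1) {δ : Fin m → M}
    (h : IsVln ℓ α D A δ) (j : Fin m) : (ℓ : ℤ) ∣ vl (Valued.v : Valuation M ℤᵐ⁰) (δ j) := by
  by_cases hex : ∃ i₀ : Fin m, j ≠ i₀
  · obtain ⟨i₀, hi₀⟩ := hex
    refine lv hϖ hℓ hm hα hD0 hD (i := i₀) (k := i₀) ?_ (fun a b hab _ _ => hAA a b hab) h j hi₀ hi₀
    rw [sub_self, map_zero]
    exact zero_le_one
  · push Not at hex
    obtain ⟨y, hy⟩ := prod_of_isVln hℓ hα h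
    rw [Finset.prod_eq_single j (fun b _ hb => absurd (hex b).symm hb)
      (fun h => absurd (Finset.mem_univ j) h)] at hy
    rw [hy, vl_pow]
    exact Dvd.intro _ rfl

end Pool.Agent.H94.PM
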