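import Pool.Agent.H94.PM.P2
import Pool.Agent.H94.PM.LV

set_option autoImplicit false

/-!
# [H94 PM QV] The local conditions at a place which separates one pair, `ℓ = 2`

`i ≠ k`, `vl (A i - A k) ≥ 1` odd, all other differences units, `m ≥ 3` odd, `vl D` even.  `WT i k θ = {(a, u) | ∃ s, a = s • ep i k, u i + u k = s θ}`.
* `card_WT`: `s` has two values, and for each `s` the `u ∈ XX` with `u i + u k = s θ` form a coset of the kernel of the nonzero form `u ↦ u i + u k = B u (ep i k)` (`BB_ep`; nonzero since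
  `m ≥ 3`: `u = ep i j`, `j ≠ i, k`): `2 * (card X / 2)`.  `card_WT_inf`: `WT θ ⊓ WT (θ + 1) = {(0, u) | u i + u k = 0}`: if `a = s ep` and `s θ = s (θ + 1)` then `s = 0`
  (`ep i k ≠ 0` determines `s`).
* `ph_one`: `phL A j = ∑ vl (A j - A j')` is `1` for `j = i, k` and `0` otherwise, i.e. `phL A = (ep 2 i k).1`.  `ps_one`: `psL i + psL k = un (h) + un (-h) + ∑ j ≠ i, k, (un (A i - A j) + un (A k - A j)) = e`,
  `(A i - A j) / (A k - A j) - 1 = (A i - A k) / (A k - A j)` has valuation `< 1`.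
* `qf_WT`: `g = (s ep, u)`, `u i + u k = s θ`: `dot a u = s (u i + u k)`, `c2 (s ep) = s`, `dot u φ = u i + u k`, `dot a ψ = s (ψ i + ψ k) = s e`, `dot a φ = 2 s = 0`:
  `qf = s (u i + u k) + e s + (u i + u k) + s e = (s + 1) s θ = 0`.
* `gam_WT`: `g ∈ Gam`.  By span induction and `lv` (`vl (δ j)` even for `j ≠ i, k`): `g.1 j = 0` for `j ≠ i, k`, so `g.1 = s ep` (`∑ g.1 = 0`).  `τ = lgs (tv (-D) A s₀) ∈ Gam` for
  `s₀ j = 1` (`j ≠ i`), `s₀ i = 2` (`∑ s₀ = m + 1` is even): by `vl_tv`: `τ.1 = ep` (`vl D` even; `j = i`: `∑_{j' ≠ i} (1 - 2) vl (A i - A j')`, odd; `j = k`: `(2 - 1) vl (A k - A i)`; others `0`), by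
  `un_tv`: `τ.2 i = ψ i` (`2 (e + un D) = 0`), `τ.2 k = (e + un D) + un (A k - A i)`.  `gam_iso`: `0 = ee g τ = dot g.2 ep + dot g.1 τ.2 + e dot (s ep) ep = (g.2 i + g.2 k) + s (τ.2 i + τ.2 k)`.
-/

namespace Pool.Agent.H94.PM

open Polynomial WithZero
open Pool.Agent.H94.PL

variable {m : ℕ}

/-- the local condition -/
def WT (i k : Fin m) (θ : ZMod 2) : Submodule (ZMod 2) (XX m 2 × XX m 2) where
  carrier := {g | ∃ s : ZMod 2, g.1 = s • ep 2 i k ∧ g.2.1 i + g.2.1 k = s * θ}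
  zero_mem' := ⟨0, by simp⟩
  add_mem' := by
    rintro g g' ⟨s, h1, h2⟩ ⟨s', h1', h2'⟩
    refine ⟨s + s', ?_, ?_⟩
    · rw [Prod.fst_add, h1, h1', add_smul]
    · rw [Prod.snd_add, add_mul, ← h2, ← h2']
      change g.2.1 i + g'.2.1 i + (g.2.1 k + g'.2.1 k) = _
      ring
  smul_mem' := by
    rintro c g ⟨s, h1, h2⟩
    refine ⟨c * s, ?_, ?_⟩
    · rw [Prod.smul_fst, h1, smul_smul]
    · rw [Prod.smul_snd, mul_assoc, ← h2]
      change c * g.2.1 i + c * g.2.1 k = _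
      ring

theorem mem_WT {i k : Fin m} {θ : ZMod 2} {g : XX m 2 × XX m 2} :
    g ∈ WT i k θ ↔ ∃ s : ZMod 2, g.1 = s • ep 2 i k ∧ g.2.1 i + g.2.1 k = s * θ := Iff.rfl

private theorem qv_ep_i {i k : Fin m} (hik : i ≠ k) : (ep 2 i k).1 i = 1 := by
  rw [ep_apply, if_pos rfl, if_neg hik, sub_zero]

private theorem qv_ep_k {i k : Fin m} (hik : i ≠ k) : (ep 2 i k).1 k = 1 := by
  rw [ep_apply, if_pos rfl, if_neg hik.symm, zero_sub, CharTwo.neg_eq]

private theorem qv_ep_j {i k j : Fin m} (h : j ≠ i) (h' : j ≠ k) : (ep 2 i k).1 j = 0 := by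
  rw [ep_apply, if_neg h, if_neg h', sub_zero]

private theorem qv_exists (hm : 3 ≤ m) (i k : Fin m) : ∃ j : Fin m, j ≠ i ∧ j ≠ k := by
  by_contra hcon
  push Not at hcon
  have h1 : (Finset.univ : Finset (Fin m)) ⊆ {i, k} := by
    intro j _
    by_cases h : j = i
    · rw [h]
      exact Finset.mem_insert_self _ _
    · rw [hcon j h]
      exact Finset.mem_insert_of_mem (Finset.mem_singleton_self _)
  have h2 := Finset.card_le_card h1
  rw [Finset.card_univ, Fintype.card_fin] at h2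
  have h3 := Finset.card_le_two (a := i) (b := k)
  omega

private theorem qv_u0 (hm : 3 ≤ m) {i k : Fin m} (hik : i ≠ k) :
    ∃ u : XX m 2, u.1 i + u.1 k = 1 := by
  obtain ⟨j, hj1, hj2⟩ := qv_exists hm i k
  refine ⟨ep 2 i j, ?_⟩
  rw [qv_ep_i hj1.symm, qv_ep_j hik.symm hj2.symm, add_zero]

private theorem qv_smul_i {i k : Fin m} (hik : i ≠ k) (s : ZMod 2) :
    (s • ep 2 i k : XX m 2).1 i = s := by
  change s * (ep 2 i k).1 i = s
  rw [qv_ep_i hik, mul_one]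

theorem card_WT (hm : 3 ≤ m) {i k : Fin m} (hik : i ≠ k) (θ : ZMod 2) :
    Nat.card (WT i k θ) = Nat.card (XX m 2) := by
  obtain ⟨u, hu⟩ := qv_u0 hm hik
  obtain ⟨f, hf⟩ : ∃ f : XX m 2 → WT i k θ, ∀ x, ((f x : WT i k θ) : XX m 2 × XX m 2) =
      ((x.1 i + x.1 k) • ep 2 i k, x + ((x.1 i + x.1 k) * (θ + 1)) • u) := by
    refine ⟨fun x => ⟨((x.1 i + x.1 k) • ep 2 i k, x + ((x.1 i + x.1 k) * (θ + 1)) • u),
      x.1 i + x.1 k, rfl, ?_⟩, fun x => rfl⟩
    change x.1 i + ((x.1 i + x.1 k) * (θ + 1)) * u.1 i +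
      (x.1 k + ((x.1 i + x.1 k) * (θ + 1)) * u.1 k) = (x.1 i + x.1 k) * θ
    have e1 : x.1 i + ((x.1 i + x.1 k) * (θ + 1)) * u.1 i +
      (x.1 k + ((x.1 i + x.1 k) * (θ + 1)) * u.1 k) =
      (x.1 i + x.1 k) + (x.1 i + x.1 k) * (θ + 1) * (u.1 i + u.1 k) := by ring
    rw [e1, hu]
    have e2 : ∀ a b : ZMod 2, a + a * (b + 1) * 1 = a * b := by decide
    exact e2 _ _
  symm
  refine Nat.card_congr (Equiv.ofBijective f ⟨?_, ?_⟩)
  · intro x y hxy
    have h1 := congrArg Subtype.val hxy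
    rw [hf, hf] at h1
    have h2 := congrArg Prod.fst h1
    have h3 : x.1 i + x.1 k = y.1 i + y.1 k := by
      have h4 := congrArg (fun z : XX m 2 => z.1 i) h2
      simp only at h4
      rwa [qv_smul_i hik, qv_smul_i hik] at h4
    have h5 := congrArg Prod.snd h1
    simp only at h5
    rw [h3] at h5
    exact add_right_cancel h5
  · rintro ⟨g, s, h1, h2⟩
    refine ⟨g.2 + (s * (θ + 1)) • u, ?_⟩
    apply Subtype.ext
    rw [hf]
    have h3 : (g.2 + (s * (θ + 1)) • u : XX m 2).1 i + (g.2 + (s * (θ + 1)) • u : XX m 2).1 k =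
        s := by
      change g.2.1 i + (s * (θ + 1)) * u.1 i + (g.2.1 k + (s * (θ + 1)) * u.1 k) = s
      have e1 : g.2.1 i + (s * (θ + 1)) * u.1 i + (g.2.1 k + (s * (θ + 1)) * u.1 k) =
        (g.2.1 i + g.2.1 k) + s * (θ + 1) * (u.1 i + u.1 k) := by ring
      rw [e1, hu, h2]
      have e2 : ∀ a b : ZMod 2, a * b + a * (b + 1) * 1 = a := by decide
      exact e2 _ _
    rw [h3]
    refine Prod.ext h1.symm ?_
    show g.2 + (s * (θ + 1)) • u + (s * (θ + 1)) • u = g.2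
    rw [add_assoc, ← add_smul, CharTwo.add_self_eq_zero, zero_smul, add_zero]

theorem card_WT_inf (hm : 3 ≤ m) {i k : Fin m} (hik : i ≠ k) (θ : ZMod 2) :
    2 * Nat.card (WT i k θ ⊓ WT i k (θ + 1) : Submodule (ZMod 2) (XX m 2 × XX m 2)) =
      Nat.card (XX m 2) := by
  obtain ⟨u, hu⟩ := qv_u0 hm hik
  have hmem : ∀ g : XX m 2 × XX m 2, g ∈ (WT i k θ ⊓ WT i k (θ + 1) :
      Submodule (ZMod 2) (XX m 2 × XX m 2)) ↔ g.1 = 0 ∧ g.2.1 i + g.2.1 k = 0 := by
    intro g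
    constructor
    · rintro ⟨⟨s, h1, h2⟩, s', h1', h2'⟩
      have h3 : s = s' := by
        have h4 : (s • ep 2 i k : XX m 2).1 i = (s' • ep 2 i k : XX m 2).1 i := by
          rw [← h1, ← h1']
        rwa [qv_smul_i hik, qv_smul_i hik] at h4
      rw [← h3, h2] at h2'
      have e2 : ∀ a b : ZMod 2, a * b = a * (b + 1) → a = 0 := by decide
      have h5 := e2 _ _ h2'
      rw [h5, zero_smul] at h1
      rw [h5, zero_mul] at h2
      exact ⟨h1, h2⟩
    · rintro ⟨h1, h2⟩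
      refine ⟨⟨0, by rw [h1, zero_smul], by rw [h2, zero_mul]⟩,
        ⟨0, by rw [h1, zero_smul], by rw [h2, zero_mul]⟩⟩
  have hc : Nat.card (ZMod 2 × (WT i k θ ⊓ WT i k (θ + 1) :
      Submodule (ZMod 2) (XX m 2 × XX m 2))) = Nat.card (XX m 2) := by
    refine Nat.card_congr (Equiv.ofBijective (fun x => x.2.1.2 + x.1 • u) ⟨?_, ?_⟩)
    · rintro ⟨t, g, hg⟩ ⟨t', g', hg'⟩ hxy
      have hxy' : g.2 + t • u = g'.2 + t' • u := hxy
      obtain ⟨h1, h2⟩ := (hmem g).1 hg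
      obtain ⟨h1', h2'⟩ := (hmem g').1 hg'
      have h3 : t = t' := by
        have h4 := congrArg (fun z : XX m 2 => z.1 i + z.1 k) hxy'
        change g.2.1 i + t * u.1 i + (g.2.1 k + t * u.1 k) =
          g'.2.1 i + t' * u.1 i + (g'.2.1 k + t' * u.1 k) at h4
        have e1 : ∀ a b c d x : ZMod 2, a + x * c + (b + x * d) = (a + b) + x * (c + d) := by
          intro a b c d x
          ring
        rw [e1, e1, h2, h2', hu, mul_one, mul_one, zero_add, zero_add] at h4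
        exact h4
      subst h3
      have h5 : g.2 = g'.2 := add_right_cancel hxy'
      have h6 : g = g' := Prod.ext (h1.trans h1'.symm) h5
      subst h6
      rfl
    · intro x
      refine ⟨(x.1 i + x.1 k, ⟨(0, x + (x.1 i + x.1 k) • u), (hmem _).2 ⟨rfl, ?_⟩⟩), ?_⟩
      · change x.1 i + (x.1 i + x.1 k) * u.1 i + (x.1 k + (x.1 i + x.1 k) * u.1 k) = 0
        have e1 : x.1 i + (x.1 i + x.1 k) * u.1 i + (x.1 k + (x.1 i + x.1 k) * u.1 k) =
          (x.1 i + x.1 k) + (x.1 i + x.1 k) * (u.1 i + u.1 k) := by ring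
        rw [e1, hu, mul_one, CharTwo.add_self_eq_zero]
      · show x + (x.1 i + x.1 k) • u + (x.1 i + x.1 k) • u = x
        rw [add_assoc, ← add_smul, CharTwo.add_self_eq_zero, zero_smul, add_zero]
  rw [Nat.card_prod, Nat.card_zmod] at hc
  exact hc

private theorem qv_dot (i k : Fin m) (y : Fin m → ZMod 2) :
    dot (ep 2 i k).1 y = y i + y k := by
  unfold dot
  simp only [ep_apply, sub_mul, ite_mul, one_mul, zero_mul, Finset.sum_sub_distrib,
    Finset.sum_ite_eq', Finset.mem_univ, if_true]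
  rw [CharTwo.sub_eq_add]

private theorem qv_c2_lt {i k : Fin m} (hik : i < k) (x : Fin m → ZMod 2) (hi : x i = 1)
    (hk : x k = 1) (hj : ∀ j, j ≠ i → j ≠ k → x j = 0) : c2 x = 1 := by
  unfold c2
  rw [Finset.sum_eq_single (i, k)]
  · rw [hi, hk, mul_one]
  · rintro ⟨a, b⟩ hab hne
    have hlt : a < b := mem_prs.1 hab
    show x a * x b = 0
    by_cases ha : a = i
    · have hb : b ≠ k := fun hb => hne (by rw [ha, hb])
      have hb' : b ≠ i := by
        rw [← ha]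
        exact hlt.ne'
      rw [hj b hb' hb, mul_zero]
    · by_cases ha' : a = k
      · have hb : b ≠ k := by
          rw [← ha']
          exact hlt.ne'
        have hb' : b ≠ i := by
          intro hb
          rw [hb, ha'] at hlt
          exact lt_asymm hlt hik
        rw [hj b hb' hb, mul_zero]
      · rw [hj a ha ha', zero_mul]
  · intro h
    exact absurd (mem_prs.2 hik) h

private theorem qv_c2 {i k : Fin m} (hik : i ≠ k) : c2 (ep 2 i k).1 = 1 := by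
  rcases lt_or_gt_of_ne hik with h | h
  · exact qv_c2_lt h _ (qv_ep_i hik) (qv_ep_k hik) fun j h1 h2 => qv_ep_j h1 h2
  · exact qv_c2_lt h _ (qv_ep_k hik) (qv_ep_i hik) fun j h1 h2 => qv_ep_j h2 h1

variable {M : Type} [Field M] [hv : Valued M ℤᵐ⁰] [CompleteSpace M]
  (U : LU (Valued.v : Valuation M ℤᵐ⁰) 2)

omit [CompleteSpace M] in
private theorem qv_vl1 {x : M} (h : (Valued.v : Valuation M ℤᵐ⁰) x = 1) :
    vl (Valued.v : Valuation M ℤᵐ⁰) x = 0 := by
  unfold vl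
  rw [h, log_one, neg_zero]

omit [CompleteSpace M] in
private theorem qv_lt {x : M} (h : 1 ≤ vl (Valued.v : Valuation M ℤᵐ⁰) x) :
    x ≠ 0 ∧ (Valued.v : Valuation M ℤᵐ⁰) x < 1 := by
  have hx : x ≠ 0 := by
    intro h0
    rw [h0] at h
    unfold vl at h
    rw [map_zero, log_zero] at h
    omega
  refine ⟨hx, ?_⟩
  rw [val_vl hx, ← exp_zero, exp_lt_exp]
  omega

omit [CompleteSpace M] in
private theorem qv_ne {A : Fin m → M} {i k : Fin m}
    (h1 : 1 ≤ vl (Valued.v : Valuation M ℤᵐ⁰) (A i - A k))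
    (hAA : ∀ a b, a ≠ b → ¬ (a = i ∧ b = k) → ¬ (a = k ∧ b = i) →
      (Valued.v : Valuation M ℤᵐ⁰) (A a - A b) = 1) (a b : Fin m) (hab : a ≠ b) :
    A a ≠ A b := by
  have hik : A i ≠ A k := sub_ne_zero.1 (qv_lt h1).1
  by_cases h3 : a = i ∧ b = k
  · rw [h3.1, h3.2]
    exact hik
  · by_cases h4 : a = k ∧ b = i
    · rw [h4.1, h4.2]
      exact hik.symm
    · intro h5
      have h6 := hAA a b hab h3 h4
      rw [h5, sub_self, map_zero] at h6
      exact zero_ne_one h6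

omit [CompleteSpace M] in
private theorem qv_odd {n : ℤ} (h : Odd n) : (n : ZMod 2) = 1 := by
  obtain ⟨k, rfl⟩ := h
  push_cast
  have e2 : ∀ a : ZMod 2, 2 * a + 1 = 1 := by decide
  exact e2 _

omit [CompleteSpace M] in
private theorem qv_ph_i {A : Fin m → M} {i k : Fin m} (hik : i ≠ k)
    (h2 : Odd (vl (Valued.v : Valuation M ℤᵐ⁰) (A i - A k)))
    (hAA : ∀ a b, a ≠ b → ¬ (a = i ∧ b = k) → ¬ (a = k ∧ b = i) →
      (Valued.v : Valuation M ℤᵐ⁰) (A a - A b) = 1) :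
    ∑ j ∈ Finset.univ.erase i, (vl (Valued.v : Valuation M ℤᵐ⁰) (A i - A j) : ZMod 2) = 1 := by
  rw [Finset.sum_eq_single k]
  · exact qv_odd h2
  · intro j hj hjk
    have hji : j ≠ i := Finset.ne_of_mem_erase hj
    rw [qv_vl1 (hAA i j hji.symm (fun h => hjk h.2) (fun h => hik h.1)), Int.cast_zero]
  · intro h
    exact absurd (Finset.mem_erase.2 ⟨hik.symm, Finset.mem_univ _⟩) h

omit [CompleteSpace M] in
private theorem qv_ph {A : Fin m → M} {i k : Fin m} (hik : i ≠ k)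
    (h2 : Odd (vl (Valued.v : Valuation M ℤᵐ⁰) (A i - A k)))
    (hAA : ∀ a b, a ≠ b → ¬ (a = i ∧ b = k) → ¬ (a = k ∧ b = i) →
      (Valued.v : Valuation M ℤᵐ⁰) (A a - A b) = 1) :
    phL (Valued.v : Valuation M ℤᵐ⁰) A = (ep 2 i k).1 := by
  funext j
  unfold phL
  by_cases hj : j = i
  · rw [hj, qv_ep_i hik]
    exact qv_ph_i hik h2 hAA
  · by_cases hj' : j = k
    · rw [hj', qv_ep_k hik]
      refine qv_ph_i hik.symm ?_ (fun a b h3 h4 h5 => hAA a b h3 h5 h4)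
      have e1 : A k - A i = -(A i - A k) := by ring
      rw [e1, vl_neg]
      exact h2
    · rw [qv_ep_j hj hj']
      refine Finset.sum_eq_zero fun j' hj1 => ?_
      have hjj : j' ≠ j := Finset.ne_of_mem_erase hj1
      rw [qv_vl1 (hAA j j' hjj.symm (fun h => hj h.1) (fun h => hj' h.1)), Int.cast_zero]

omit [CompleteSpace M] in
private theorem qv_psi {A : Fin m → M} {i k : Fin m} (hik : i ≠ k)
    (h1 : 1 ≤ vl (Valued.v : Valuation M ℤᵐ⁰) (A i - A k))
    (hAA : ∀ a b, a ≠ b → ¬ (a = i ∧ b = k) → ¬ (a = k ∧ b = i) →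
      (Valued.v : Valuation M ℤᵐ⁰) (A a - A b) = 1) :
    psL U A i + psL U A k = U.un (-1) := by
  obtain ⟨hne, hlt⟩ := qv_lt h1
  unfold psL
  have hki : k ∈ Finset.univ.erase i := Finset.mem_erase.2 ⟨hik.symm, Finset.mem_univ _⟩
  have hik' : i ∈ Finset.univ.erase k := Finset.mem_erase.2 ⟨hik, Finset.mem_univ _⟩
  rw [← Finset.add_sum_erase _ _ hki, ← Finset.add_sum_erase _ _ hik']
  have e1 : (Finset.univ.erase k).erase i = (Finset.univ.erase i).erase k :=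
    Finset.erase_right_comm
  have e2 : ∑ j ∈ (Finset.univ.erase i).erase k, U.un (A i - A j) =
      ∑ j ∈ (Finset.univ.erase i).erase k, U.un (A k - A j) := by
    refine Finset.sum_congr rfl fun j hj => ?_
    obtain ⟨hjk, hj2⟩ := Finset.mem_erase.1 hj
    have hji : j ≠ i := Finset.ne_of_mem_erase hj2
    have hkj : (Valued.v : Valuation M ℤᵐ⁰) (A k - A j) = 1 :=
      hAA k j hjk.symm (fun h => hik.symm h.1) (fun h => hji h.2)
    have hkj0 : A k - A j ≠ 0 := by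
      intro h0
      rw [h0, map_zero] at hkj
      exact zero_ne_one hkj
    refine U.un_congr hkj0 ?_
    have e3 : (A i - A j) / (A k - A j) - 1 = (A i - A k) / (A k - A j) := by
      field_simp
      ring
    rw [e3, map_div₀, hkj, div_one]
    exact hlt
  have e4 : U.un (A k - A i) = U.un (-1) + U.un (A i - A k) := by
    rw [← U.un_neg hne]
    congr 1
    ring
  rw [e1, e2, e4]
  have e5 : ∀ a b c : ZMod 2, a + b + (c + a + b) = c := by decide
  exact e5 _ _ _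

omit [CompleteSpace M] in
theorem qf_WT {A : Fin m → M} {i k : Fin m} (hik : i ≠ k)
    (h1 : 1 ≤ vl (Valued.v : Valuation M ℤᵐ⁰) (A i - A k))
    (h2 : Odd (vl (Valued.v : Valuation M ℤᵐ⁰) (A i - A k)))
    (hAA : ∀ a b, a ≠ b → ¬ (a = i ∧ b = k) → ¬ (a = k ∧ b = i) →
      (Valued.v : Valuation M ℤᵐ⁰) (A a - A b) = 1) (θ : ZMod 2) {g : XX m 2 × XX m 2}
    (hg : g ∈ WT i k θ) : qf (U.un (-1)) (phL Valued.v A) (psL U A) g = 0 := by
  obtain ⟨s, hs1, hs2⟩ := hg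
  have hφ := qv_ph hik h2 hAA
  have hψ := qv_psi U hik h1 hAA
  have hsm : ∀ y : Fin m → ZMod 2, dot g.1.1 y = s * (y i + y k) := by
    intro y
    rw [hs1, ← qv_dot i k y]
    unfold dot
    rw [Finset.mul_sum]
    refine Finset.sum_congr rfl fun j _ => ?_
    change s * (ep 2 i k).1 j * y j = s * ((ep 2 i k).1 j * y j)
    ring
  have hc2 : c2 g.1.1 = s := by
    have e1 : g.1.1 = s • (ep 2 i k).1 := by
      rw [hs1]
      rfl
    rw [e1, c2_smul, qv_c2 hik, mul_one]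
  unfold qf
  rw [hsm, hsm, hsm, hc2, hφ, dot_comm g.2.1, qv_dot, hψ, qv_ep_i hik, qv_ep_k hik, hs2]
  have e5 : ∀ s θ e : ZMod 2, s * (s * θ) + e * s + s * θ + s * e + e * (s * (1 + 1)) = 0 := by
    decide
  exact e5 _ _ _

theorem gam_WT {ϖ : M} (hϖ : (Valued.v : Valuation M ℤᵐ⁰) ϖ = exp (-1 : ℤ)) {α : ℕ}
    (hm : Nat.Coprime m 2) (hα : 2 ∣ α * m + 1) {D : M} (hD : D ≠ 0)
    (hD2 : (vl (Valued.v : Valuation M ℤᵐ⁰) D : ZMod 2) = 0) {A : Fin m → M} {i k : Fin m}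
    (hik : i ≠ k) (h1 : 1 ≤ vl (Valued.v : Valuation M ℤᵐ⁰) (A i - A k))
    (h2 : Odd (vl (Valued.v : Valuation M ℤᵐ⁰) (A i - A k)))
    (hAA : ∀ a b, a ≠ b → ¬ (a = i ∧ b = k) → ¬ (a = k ∧ b = i) →
      (Valued.v : Valuation M ℤᵐ⁰) (A a - A b) = 1) :
    Gam U α D A ≤ WT i k (U.un D + (U.un (-1) + U.un (A k - A i) + psL U A i)) := by
  have h2p : Nat.Prime 2 := Nat.prime_two
  have hA := qv_ne h1 hAA
  obtain ⟨hne, hlt⟩ := qv_lt h1
  have hD2' : ((2 : ℕ) : ℤ) ∣ vl (Valued.v : Valuation M ℤᵐ⁰) D :=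
    (ZMod.intCast_zmod_eq_zero_iff_dvd _ _).1 hD2
  -- the first coordinates
  have hfst : ∀ g ∈ Gam U α D A, ∀ j, j ≠ i → j ≠ k → g.1.1 j = 0 := by
    intro g hg j hji hjk
    unfold Gam at hg
    induction hg using Submodule.span_induction with
    | mem g hg =>
      obtain ⟨δ, hδ, rfl⟩ := hg
      rw [lgs_fst U (fun k => isVln_ne hD hδ k) (prod_of_isVln h2p hα hδ)]
      exact (ZMod.intCast_zmod_eq_zero_iff_dvd _ _).2
        (lv hϖ h2p hm hα hD hD2' hlt.le hAA hδ j hji hjk)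
    | zero => rfl
    | add x y _ _ hx hy =>
      change x.1.1 j + y.1.1 j = 0
      rw [hx, hy, add_zero]
    | smul c x _ hx =>
      change c * x.1.1 j = 0
      rw [hx, mul_zero]
  have hform : ∀ x : XX m 2, (∀ j, j ≠ i → j ≠ k → x.1 j = 0) → x = x.1 i • ep 2 i k := by
    intro x hx
    have hsum : x.1 i + x.1 k = 0 := by
      have h3 := XX_sum x
      rw [← Finset.add_sum_erase _ _ (Finset.mem_univ i), ← Finset.add_sum_erase _ _
        (Finset.mem_erase.2 ⟨hik.symm, Finset.mem_univ k⟩), Finset.sum_eq_zero, add_zero] at h3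
      · exact h3
      · intro j hj
        obtain ⟨hjk, hj2⟩ := Finset.mem_erase.1 hj
        exact hx j (Finset.ne_of_mem_erase hj2) hjk
    have hk' : x.1 k = x.1 i := by
      have e5 : ∀ a b : ZMod 2, a + b = 0 → b = a := by decide
      exact e5 _ _ hsum
    apply Subtype.ext
    funext j
    change x.1 j = x.1 i * (ep 2 i k).1 j
    by_cases hj : j = i
    · rw [hj, qv_ep_i hik, mul_one]
    · by_cases hj' : j = k
      · rw [hj', qv_ep_k hik, mul_one, hk']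
      · rw [qv_ep_j hj hj', mul_zero, hx j hj hj']
  -- the special element
  obtain ⟨s₀, hs₀⟩ : ∃ s₀ : Fin m → ℤ, ∀ j, s₀ j = if j = i then 2 else 1 := ⟨_, fun _ => rfl⟩
  have hs₀i : s₀ i = 2 := by rw [hs₀, if_pos rfl]
  have hs₀j : ∀ j, j ≠ i → s₀ j = 1 := fun j hj => by rw [hs₀, if_neg hj]
  have hsum₀ : ((2 : ℕ) : ℤ) ∣ ∑ j, s₀ j := by
    have e1 : ∑ j, s₀ j = (m : ℤ) + 1 := by
      have e2 : ∀ j, s₀ j = 1 + if j = i then 1 else 0 := by
        intro j
        rw [hs₀]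
        split_ifs <;> norm_num
      rw [Finset.sum_congr rfl fun j _ => e2 j, Finset.sum_add_distrib, Finset.sum_ite_eq',
        if_pos (Finset.mem_univ i)]
      simp
    rw [e1]
    have h3 : Odd m := Nat.coprime_two_right.1 hm
    obtain ⟨c, hc⟩ := h3
    exact ⟨(c : ℤ) + 1, by rw [hc]; push_cast; ring⟩
  have hV := isVln_tv h2p hm hα hD hA s₀ hsum₀
  have hVne : ∀ j, tv (-D) A s₀ j ≠ 0 := fun j => isVln_ne hD hV j
  have hVp := prod_of_isVln h2p hα hV
  obtain ⟨τ, hτ⟩ : ∃ τ, τ = lgs U (tv (-D) A s₀) := ⟨_, rfl⟩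
  have hτG : τ ∈ Gam U α D A := by
    rw [hτ]
    exact lgs_mem_Gam U hV
  have hτ1 : τ.1 = ep 2 i k := by
    have h3 := hform τ.1 (hfst τ hτG)
    have h4 : τ.1.1 i = 1 := by
      rw [hτ, lgs_fst U hVne hVp, vl_tv hD hA]
      push_cast
      rw [hD2, mul_zero, zero_add, hs₀i]
      have e1 : ∑ j ∈ Finset.univ.erase i, ((s₀ j : ZMod 2) - ((2 : ℤ) : ZMod 2)) *
          (vl (Valued.v : Valuation M ℤᵐ⁰) (A i - A j) : ZMod 2) =
          ∑ j ∈ Finset.univ.erase i, (vl (Valued.v : Valuation M ℤᵐ⁰) (A i - A j) : ZMod 2) := by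
        refine Finset.sum_congr rfl fun j hj => ?_
        rw [hs₀j j (Finset.ne_of_mem_erase hj)]
        have e5 : ∀ a : ZMod 2, (((1 : ℤ) : ZMod 2) - ((2 : ℤ) : ZMod 2)) * a = a := by decide
        exact e5 _
      rw [e1]
      exact qv_ph_i hik h2 hAA
    rw [h4, one_smul] at h3
    exact h3
  have hτi : τ.2.1 i = psL U A i := by
    rw [hτ, lgs_snd U hVne hVp, un_tv U hD hA, hs₀i]
    unfold psL
    have e1 : ∑ j ∈ Finset.univ.erase i, ((s₀ j : ZMod 2) - ((2 : ℤ) : ZMod 2)) *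
        U.un (A i - A j) = ∑ j ∈ Finset.univ.erase i, U.un (A i - A j) := by
      refine Finset.sum_congr rfl fun j hj => ?_
      rw [hs₀j j (Finset.ne_of_mem_erase hj)]
      have e5 : ∀ a : ZMod 2, (((1 : ℤ) : ZMod 2) - ((2 : ℤ) : ZMod 2)) * a = a := by decide
      exact e5 _
    rw [e1]
    have e5 : ∀ a b : ZMod 2, ((2 : ℤ) : ZMod 2) * a + b = b := by decide
    exact e5 _ _
  have hτk : τ.2.1 k = U.un (-1) + U.un D + U.un (A k - A i) := by
    rw [hτ, lgs_snd U hVne hVp, un_tv U hD hA, hs₀j k hik.symm, Finset.sum_eq_single i]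
    · rw [hs₀i]
      have e5 : ∀ a b : ZMod 2, ((1 : ℤ) : ZMod 2) * a +
        (((2 : ℤ) : ZMod 2) - ((1 : ℤ) : ZMod 2)) * b = a + b := by decide
      exact e5 _ _
    · intro j hj hji
      rw [hs₀j j hji, sub_self, zero_mul]
    · intro h
      exact absurd (Finset.mem_erase.2 ⟨hik, Finset.mem_univ _⟩) h
  intro g hg
  have hg1 := hform g.1 (hfst g hg)
  refine ⟨g.1.1 i, hg1, ?_⟩
  have h3 := gam_iso U hα hD A g hg τ hτG
  rw [ee_apply, hτ1, BB_ep, BB_ep] at h3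
  have h4 : BB m 2 g.1 τ.2 = g.1.1 i * (τ.2.1 i - τ.2.1 k) := by
    conv_lhs => rw [hg1]
    rw [map_smul, LinearMap.smul_apply, smul_eq_mul, ep_BB]
  have h5 : g.1.1 k = g.1.1 i := by
    have h6 : g.1.1 k = (g.1.1 i • ep 2 i k : XX m 2).1 k := by rw [← hg1]
    rw [h6]
    change g.1.1 i * (ep 2 i k).1 k = g.1.1 i
    rw [qv_ep_k hik, mul_one]
  rw [h4, h5, sub_self, mul_zero, add_zero, hτi, hτk] at h3
  have e5 : ∀ x y s a b c d : ZMod 2, x - y - s * (a - (b + c + d)) = 0 →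
      x + y = s * (c + (b + d + a)) := by decide
  exact e5 _ _ _ _ _ _ _ h3

end Pool.Agent.H94.PM
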