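import Pool.Agent.H94.PM.TRA

set_option autoImplicit false

/-!
# [H94 PM TRV] Selmer classes: the primes dividing the discriminant and infinity

`Δ = dl A`, `S = pf Δ`, `ty χ Δ D = (deg D, fun v => lm χ v D)`.
* `vl_DK_v`: `v ∤ C c * D`.  `un_DK_v`: `UP_poly` with `g = C c * D`: `lm χ (C c * D) v = deg v * lg c + lm χ D v` (`lm_mul_left`, `lm_C`), `lm_recip'`.
* `lgs_v`: components: `lgs_fst`, `vl_toP`; `lgs_snd`, `un_toP` with `P = v`, `T = (pf Δ).erase v ∪ pf D` (disjoint), `sln_good`; `lm χ P v = lm χ v P + deg P deg v lg (-1)`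
  (`lm_recip'`).  `locv` of `(ε, xi x)`: second component `deg v κ + ∑ v' ≠ v, lm v' v y_v' + ∑ P, lm v P x_P + lg (-1) deg v ∑ P, deg P x_P`.
* `lgs_i`: `vl_inf` with `T = pf D ∪ pf Δ`, `un_inf`.
* `zM_mem_W`: `lgs_mem_Gam` for the values at `v` and infinity, the hypotheses `OKl`, `OKi`; `(vl D' : ZMod ℓ) = - deg D` at infinity (`vl_inf_poly`),
  `un = χ.lg c` there (`UI_poly`, `D` monic).
* `zM_mem`: `mem_KM`, `zM_mem_W`, `em_zero`.
-/

namespace Pool.Agent.H94.PM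

open Polynomial WithZero IsDedekindDomain
open Pool.Agent.H94.PL
open Pool.Agent.H94.PC (Mo Sq Pr pf om Mn mem_Mo mem_Sq mem_Pr mem_pf mem_pf')

variable {F : Type} [Field F] [Finite F] {ℓ m : ℕ} [hl : Fact ℓ.Prime] (χ : LChar F ℓ)

/-- the unit logarithm at `v` -/
noncomputable def UV {Δ : F[X]} (v : pf Δ) : LU (wP v.1 (mem_pf' v.2).2.1) ℓ :=
  UP χ (mem_pf' v.2).1 (mem_pf' v.2).2.1

/-- the map to the completion at `v` -/
noncomputable def toV {Δ : F[X]} (v : pf Δ) :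
    RatFunc F →+* (LT.place v.1 (mem_pf' v.2).2.1).adicCompletion (RatFunc F) :=
  toP v.1 (mem_pf' v.2).2.1

/-- the spaces `Wl v b` contain the logarithms of the values at `v` -/
def OKl (α : ℕ) (A : Fin m → F[X])
    (Wl : pf (dl A) → ZMod ℓ → Submodule (ZMod ℓ) (XX m ℓ × XX m ℓ)) : Prop :=
  ∀ (v : pf (dl A)) (D' : (LT.place v.1 (mem_pf' v.2).2.1).adicCompletion (RatFunc F)),
    D' ≠ 0 → (vl (wP v.1 (mem_pf' v.2).2.1) D' : ZMod ℓ) = 0 →
      Gam (UV χ v) α D' (fun k => toV v (AK A k)) ≤ Wl v ((UV χ v).un D')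

/-- the spaces `Wi b` contain the logarithms of the values at infinity -/
def OKi [DecidableEq (RatFunc F)] (α : ℕ) (c : F) (A : Fin m → F[X])
    (Wi : ZMod ℓ → Submodule (ZMod ℓ) (XX m ℓ × XX m ℓ)) : Prop :=
  ∀ D' : RatFunc.CompletionAtInfty F, D' ≠ 0 → (UI χ).un D' = χ.lg c →
    Gam (UI χ) α D' (fun k => toI F (AK A k)) ≤ Wi (vl (wI F) D' : ZMod ℓ)

private theorem trv_coe_sum {ι : Type*} (s : Finset ι) (f : ι → XX m ℓ) (k : Fin m) :
    (∑ i ∈ s, f i).1 k = ∑ i ∈ s, (f i).1 k := by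
  classical
  induction s using Finset.induction_on with
  | empty => rfl
  | insert a s ha ih =>
    rw [Finset.sum_insert ha, Finset.sum_insert ha, ← ih]
    rfl

private theorem trv_dl0 {A : Fin m → F[X]} (hA : ∀ i k, i ≠ k → A i ≠ A k) : dl A ≠ 0 := by
  rw [dl, Finset.prod_ne_zero_iff]
  intro p hp
  exact sub_ne_zero.2 (hA _ _ (mem_prs.1 hp).ne)

open Classical in
private theorem trv_erase {Δ : F[X]} (v : pf Δ) (f : F[X] → ZMod ℓ) :
    ∑ v' ∈ Finset.univ.erase v, f v'.1 = ∑ Q ∈ (pf Δ).erase v.1, f Q := by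
  have h1 := Finset.add_sum_erase Finset.univ (fun v' : pf Δ => f v'.1) (Finset.mem_univ v)
  have h2 := Finset.add_sum_erase (pf Δ) f v.2
  have h3 : ∑ P : pf Δ, f P.1 = ∑ Q ∈ pf Δ, f Q := Finset.sum_coe_sort (pf Δ) f
  rw [← h2, ← h1] at h3
  exact add_left_cancel h3

theorem un_DK_v {c : F} (hc : c ≠ 0) {A : Fin m → F[X]} {D : F[X]} (hD : D.Monic)
    (hDA : IsCoprime D (dl A)) (v : pf (dl A)) :
    (UV χ v).un (toV v (DK c D)) = cls χ c v (ty χ (dl A) D) := by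
  have hv := mem_pf' v.2
  have hvD : ¬ v.1 ∣ D := tk_cop hDA.symm hv.2.1 hv.2.2
  have hvC : ¬ v.1 ∣ C c := fun h1 =>
    hv.2.1.not_isUnit (isUnit_of_dvd_unit h1 (isUnit_C.2 (isUnit_iff_ne_zero.2 hc)))
  have hvCD : ¬ v.1 ∣ C c * D := fun h1 => hvD (h1.trans (tk_C hc D))
  have h1 : (UV χ v).un (toV v (DK c D)) = lm χ (C c * D) v.1 := by
    rw [DK]
    exact UP_poly χ hv.1 hv.2.1 hvCD
  have cC : IsCoprime (C c) v.1 := (hv.2.1.coprime_iff_not_dvd.2 hvC).symm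
  have cD : IsCoprime D v.1 := (hv.2.1.coprime_iff_not_dvd.2 hvD).symm
  rw [h1, lm_mul_left χ hv.1 cC cD, lm_C χ hv.1 hc, lm_recip' χ hD hv.1 cD, cls, ty]
  ring

variable [DecidableEq (RatFunc F)] {α : ℕ} {c : F} {A : Fin m → F[X]} {D : F[X]}
  {δ : Fin m → RatFunc F}

theorem lgs_v (hm : Nat.Coprime m ℓ) (hα : ℓ ∣ α * m + 1) (hc : c ≠ 0)
    (hA : ∀ i k, i ≠ k → A i ≠ A k) (hD : D.Monic)
    (hDA : IsCoprime D (dl A)) (h : IsSln ℓ α c A D δ) (v : pf (dl A)) :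
    lgs (UV χ v) (fun k => toV v (δ k)) =
      locv χ v ((zM χ A D δ).1, xi χ (dl A) D (zM χ A D δ).2) := by
  classical
  have hv := mem_pf' v.2
  have hvD : ¬ v.1 ∣ D := tk_cop hDA.symm hv.2.1 hv.2.2
  have hdl0 := trv_dl0 hA
  have hne : ∀ k, toV v (δ k) ≠ 0 := fun k => (_root_.map_ne_zero _).2 (h.ne k)
  have hroot : ∃ y, ∏ k, toV v (δ k) = y ^ ℓ := by
    obtain ⟨y, hy⟩ := h.prod
    exact ⟨toV v y, by rw [← map_prod, hy, map_pow]⟩
  have hT : ∀ Q ∈ (pf (dl A)).erase v.1 ∪ pf D, Q.Monic ∧ Irreducible Q := by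
    intro Q hQ
    rcases Finset.mem_union.1 hQ with h1 | h1
    · exact ⟨(mem_pf' (Finset.mem_of_mem_erase h1)).1, (mem_pf' (Finset.mem_of_mem_erase h1)).2.1⟩
    · exact ⟨(mem_pf' h1).1, (mem_pf' h1).2.1⟩
  have hvT : v.1 ∉ (pf (dl A)).erase v.1 ∪ pf D := by
    intro h1
    rcases Finset.mem_union.1 h1 with h2 | h2
    · exact Finset.ne_of_mem_erase h2 rfl
    · exact hvD (mem_pf' h2).2.2
  have hdisj : Disjoint ((pf (dl A)).erase v.1) (pf D) := by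
    rw [Finset.disjoint_left]
    intro Q hQ1 hQ2
    have h1 := mem_pf' (Finset.mem_of_mem_erase hQ1)
    exact tk_cop hDA h1.2.1 (mem_pf' hQ2).2.2 h1.2.2
  refine Prod.ext ?_ ?_
  · change toX (fun k => (vl (wP v.1 (mem_pf' v.2).2.1) (toV v (δ k)) : ZMod ℓ)) =
      toX (fun k => ex ℓ v.1 (δ k))
    congr 1
    funext k
    exact vl_toP hv.2.1 (h.ne k)
  · apply Subtype.ext
    funext k
    have e0 : ((lgs (UV χ v) fun k => toV v (δ k)).2).1 k = (UV χ v).un (toV v (δ k)) :=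
      lgs_snd (UV χ v) hne hroot k
    have e1 : (UV χ v).un (toV v (δ k)) = (v.1.natDegree : ZMod ℓ) * kap χ (δ k) +
        ∑ Q ∈ (pf (dl A)).erase v.1 ∪ pf D, ex ℓ Q (δ k) * lm χ Q v.1 := by
      refine un_toP χ hv.1 hv.2.1 (h.ne k) _ hT hvT ?_
      intro Q hQm hQi hQT hQv
      refine sln_good hm hα hc hD h hQm hQi ?_ ?_ k
      · intro hd
        exact hQT (Finset.mem_union_right _ ((mem_pf hD.ne_zero).2 ⟨hQm, hQi, hd⟩))
      · intro hd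
        exact hQT (Finset.mem_union_left _
          (Finset.mem_erase.2 ⟨hQv, (mem_pf hdl0).2 ⟨hQm, hQi, hd⟩⟩))
    have hk : ∀ k, (toX fun k => kap χ (δ k)).1 k = kap χ (δ k) := toX_apply (sln_kap χ h)
    have hx : ∀ (P : pf D) k, (toX fun k => ex ℓ P.1 (δ k)).1 k = ex ℓ P.1 (δ k) := fun P =>
      toX_apply (sln_ex h (mem_pf' P.2).2.1)
    have hy : ∀ (P : pf (dl A)) k, (toX fun k => ex ℓ P.1 (δ k)).1 k = ex ℓ P.1 (δ k) :=
      fun P => toX_apply (sln_ex h (mem_pf' P.2).2.1)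
    have e2 : ((locv χ v ((zM χ A D δ).1, xi χ (dl A) D (zM χ A D δ).2)).2).1 k =
        (v.1.natDegree : ZMod ℓ) * kap χ (δ k) +
        (∑ v' ∈ Finset.univ.erase v, lm χ v'.1 v.1 * ex ℓ v'.1 (δ k)) +
        (∑ P : pf D, lm χ v.1 P.1 * ex ℓ P.1 (δ k)) +
        (χ.lg (-1) * (v.1.natDegree : ZMod ℓ)) *
          ∑ P : pf D, (P.1.natDegree : ZMod ℓ) * ex ℓ P.1 (δ k) := by
      change ((v.1.natDegree : ZMod ℓ) * (toX fun k => kap χ (δ k)).1 k +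
        (∑ v' ∈ Finset.univ.erase v, lm χ v'.1 v.1 • (toX fun k => ex ℓ v'.1 (δ k))).1 k +
        (∑ P : pf D, lm χ v.1 P.1 • (toX fun k => ex ℓ P.1 (δ k))).1 k +
        (χ.lg (-1) * (v.1.natDegree : ZMod ℓ)) *
          (∑ P : pf D, (P.1.natDegree : ZMod ℓ) • (toX fun k => ex ℓ P.1 (δ k))).1 k) = _
      rw [hk, trv_coe_sum, trv_coe_sum, trv_coe_sum]
      congr 1
      · congr 1
        · congr 1
          exact Finset.sum_congr rfl fun v' _ => congrArg (lm χ v'.1 v.1 * ·) (hy v' k)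
        · exact Finset.sum_congr rfl fun P _ => congrArg (lm χ v.1 P.1 * ·) (hx P k)
      · congr 1
        exact Finset.sum_congr rfl fun P _ => congrArg ((P.1.natDegree : ZMod ℓ) * ·) (hx P k)
    rw [e0, e1, Finset.sum_union hdisj]
    refine Eq.trans ?_ e2.symm
    have e3 : ∑ v' ∈ Finset.univ.erase v, lm χ v'.1 v.1 * ex ℓ v'.1 (δ k) =
        ∑ Q ∈ (pf (dl A)).erase v.1, lm χ Q v.1 * ex ℓ Q (δ k) :=
      trv_erase v fun Q => lm χ Q v.1 * ex ℓ Q (δ k)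
    have e4 : ∑ Q ∈ pf D, ex ℓ Q (δ k) * lm χ Q v.1 =
        (∑ P : pf D, lm χ v.1 P.1 * ex ℓ P.1 (δ k)) + (χ.lg (-1) * (v.1.natDegree : ZMod ℓ)) *
          ∑ P : pf D, (P.1.natDegree : ZMod ℓ) * ex ℓ P.1 (δ k) := by
      rw [← Finset.sum_coe_sort (pf D) (fun Q => ex ℓ Q (δ k) * lm χ Q v.1), Finset.mul_sum,
        ← Finset.sum_add_distrib]
      refine Finset.sum_congr rfl fun P _ => ?_
      have hP := mem_pf' P.2
      have hcop : IsCoprime P.1 v.1 := by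
        rw [hP.2.1.coprime_iff_not_dvd]
        intro h1
        have h2 := eq_of_monic_of_associated hP.1 hv.1 (hP.2.1.associated_of_dvd hv.2.1 h1)
        exact hvD (h2 ▸ hP.2.2)
      rw [lm_recip' χ hP.1 hv.1 hcop]
      ring
    rw [e3, e4]
    have e5 : ∑ Q ∈ (pf (dl A)).erase v.1, ex ℓ Q (δ k) * lm χ Q v.1 =
        ∑ Q ∈ (pf (dl A)).erase v.1, lm χ Q v.1 * ex ℓ Q (δ k) :=
      Finset.sum_congr rfl fun Q _ => mul_comm _ _
    rw [e5]
    ring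

theorem lgs_i (hm : Nat.Coprime m ℓ) (hα : ℓ ∣ α * m + 1) (hc : c ≠ 0)
    (hA : ∀ i k, i ≠ k → A i ≠ A k) (hD : D.Monic)
    (hDA : IsCoprime D (dl A)) (h : IsSln ℓ α c A D δ) :
    lgs (UI χ) (fun k => toI F (δ k)) =
      loci ((zM χ A D δ).1, xi χ (dl A) D (zM χ A D δ).2) := by
  classical
  have hdl0 := trv_dl0 hA
  have hne : ∀ k, toI F (δ k) ≠ 0 := fun k => (_root_.map_ne_zero _).2 (h.ne k)
  have hroot : ∃ y, ∏ k, toI F (δ k) = y ^ ℓ := by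
    obtain ⟨y, hy⟩ := h.prod
    exact ⟨toI F y, by rw [← map_prod, hy, map_pow]⟩
  have hT : ∀ Q ∈ pf (dl A) ∪ pf D, Q.Monic ∧ Irreducible Q := by
    intro Q hQ
    rcases Finset.mem_union.1 hQ with h1 | h1
    · exact ⟨(mem_pf' h1).1, (mem_pf' h1).2.1⟩
    · exact ⟨(mem_pf' h1).1, (mem_pf' h1).2.1⟩
  have hdisj : Disjoint (pf (dl A)) (pf D) := by
    rw [Finset.disjoint_left]
    intro Q hQ1 hQ2
    have h1 := mem_pf' hQ1
    exact tk_cop hDA h1.2.1 (mem_pf' hQ2).2.2 h1.2.2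
  refine Prod.ext ?_ ?_
  · apply Subtype.ext
    funext k
    have e0 : ((lgs (UI χ) fun k => toI F (δ k)).1).1 k = (vl (wI F) (toI F (δ k)) : ZMod ℓ) :=
      lgs_fst (UI χ) hne hroot k
    have e1 : (vl (wI F) (toI F (δ k)) : ZMod ℓ) =
        -∑ Q ∈ pf (dl A) ∪ pf D, ex ℓ Q (δ k) * (Q.natDegree : ZMod ℓ) := by
      refine vl_inf χ (h.ne k) _ hT ?_
      intro Q hQm hQi hQT
      refine sln_good hm hα hc hD h hQm hQi ?_ ?_ k
      · intro hd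
        exact hQT (Finset.mem_union_right _ ((mem_pf hD.ne_zero).2 ⟨hQm, hQi, hd⟩))
      · intro hd
        exact hQT (Finset.mem_union_left _ ((mem_pf hdl0).2 ⟨hQm, hQi, hd⟩))
    have hx : ∀ (P : pf D) k, (toX fun k => ex ℓ P.1 (δ k)).1 k = ex ℓ P.1 (δ k) := fun P =>
      toX_apply (sln_ex h (mem_pf' P.2).2.1)
    have hy : ∀ (P : pf (dl A)) k, (toX fun k => ex ℓ P.1 (δ k)).1 k = ex ℓ P.1 (δ k) :=
      fun P => toX_apply (sln_ex h (mem_pf' P.2).2.1)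
    have e2 : ((loci ((zM χ A D δ).1, xi χ (dl A) D (zM χ A D δ).2)).1).1 k =
        -((∑ v : pf (dl A), (v.1.natDegree : ZMod ℓ) * ex ℓ v.1 (δ k)) +
          ∑ P : pf D, (P.1.natDegree : ZMod ℓ) * ex ℓ P.1 (δ k)) := by
      change -((∑ v : pf (dl A), (v.1.natDegree : ZMod ℓ) •
          (toX fun k => ex ℓ v.1 (δ k))).1 k +
        (∑ P : pf D, (P.1.natDegree : ZMod ℓ) • (toX fun k => ex ℓ P.1 (δ k))).1 k) = _
      rw [trv_coe_sum, trv_coe_sum]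
      congr 1
      congr 1
      · exact Finset.sum_congr rfl fun P _ => congrArg ((P.1.natDegree : ZMod ℓ) * ·) (hy P k)
      · exact Finset.sum_congr rfl fun P _ => congrArg ((P.1.natDegree : ZMod ℓ) * ·) (hx P k)
    rw [e0, e1, Finset.sum_union hdisj]
    refine Eq.trans ?_ e2.symm
    rw [← Finset.sum_coe_sort (pf D) (fun Q => ex ℓ Q (δ k) * (Q.natDegree : ZMod ℓ)),
      ← Finset.sum_coe_sort (pf (dl A)) (fun Q => ex ℓ Q (δ k) * (Q.natDegree : ZMod ℓ))]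
    congr 1
    congr 1
    · exact Finset.sum_congr rfl fun P _ => mul_comm _ _
    · exact Finset.sum_congr rfl fun P _ => mul_comm _ _
  · change toX (fun k => (UI χ).un (toI F (δ k))) = toX (fun k => kap χ (δ k))
    congr 1
    funext k
    exact un_inf χ (h.ne k)

theorem zM_mem (hm : Nat.Coprime m ℓ) (hα : ℓ ∣ α * m + 1) (hc : c ≠ 0)
    (hA : ∀ i k, i ≠ k → A i ≠ A k) (hD : D.Monic) (hDs : Squarefree D)
    (hDA : IsCoprime D (dl A)) (h : IsSln ℓ α c A D δ)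
    {Wl : pf (dl A) → ZMod ℓ → Submodule (ZMod ℓ) (XX m ℓ × XX m ℓ)}
    {Wi : ZMod ℓ → Submodule (ZMod ℓ) (XX m ℓ × XX m ℓ)} (hWl : OKl χ α A Wl)
    (hWi : OKi χ α c A Wi) : zM χ A D δ ∈ KM χ (DC χ c A Wl Wi) D := by
  have hDK := DK_ne hc hD.ne_zero
  rw [mem_KM]
  refine ⟨?_, fun P => em_zero χ hm hα hc hA hD hDs hDA h Wl Wi P⟩
  change ((zM χ A D δ).1, xi χ (dl A) D (zM χ A D δ).2) ∈ WC χ c Wl Wi (ty χ (dl A) D)
  rw [mem_WC]
  constructor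
  · intro v
    have hv := mem_pf' v.2
    have hvD : ¬ v.1 ∣ D := tk_cop hDA.symm hv.2.1 hv.2.2
    rw [← lgs_v χ hm hα hc hA hD hDA h v, ← un_DK_v χ hc hD hDA v]
    refine hWl v (toV v (DK c D)) ((_root_.map_ne_zero _).2 hDK) ?_ (lgs_mem_Gam _ (IsSln_at h hv.2.1))
    have h1 : vl (wP v.1 (mem_pf' v.2).2.1) (toV v (DK c D)) = 0 := vl_DK_good hc hv.2.1 hvD
    rw [h1, Int.cast_zero]
  · rw [← lgs_i χ hm hα hc hA hD hDA h]
    have h1 : (UI χ).un (toI F (DK c D)) = χ.lg c := by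
      rw [un_inf χ hDK, tk_kapDK χ hc hD]
    have h2 := hWi (toI F (DK c D)) ((_root_.map_ne_zero _).2 hDK) h1 (lgs_mem_Gam _ h.inf)
    have h3 : (vl (wI F) (toI F (DK c D)) : ZMod ℓ) = -(ty χ (dl A) D).1 := by
      rw [DK, vl_inf_poly (mul_ne_zero (C_ne_zero.2 hc) hD.ne_zero), natDegree_C_mul hc]
      change ((-(D.natDegree : ℤ) : ℤ) : ZMod ℓ) = -(D.natDegree : ZMod ℓ)
      push_cast
      rfl
    rw [h3] at h2
    exact h2

end Pool.Agent.H94.PM
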