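import Pool.Agent.H94.PM.PAR
import Pool.Agent.H94.PM.QV
import Pool.Agent.H94.PM.TRV

set_option autoImplicit false

/-!
# [H94 PM WL2] Existence of the local conditions, `ℓ = 2`

* `phL_v`: `vl (toV v (AK i - AK k)) = ex v = mlt` modulo `2` (`vl_toP`, `ex_poly`).  `psL_v`: `un_toP` at `v` with `T = (pf (dl A)).erase v`, `x = AK A i - AK A k`, `kap = Hs χ A i k` (`Hs_eq`).
  `un1_v`: `un_minus_one`.  `phL_i`: `vl_inf_poly`; `psL_i`, `un1_i`: `UI_poly`, `Hs_eq`.
* `exists_L2`: for each `v` let `W v` be from `exists_W2` for the completion at `v` (`A' = toV v ∘ AK A`, injective; complete, uniformizer `toV v v`, `val_l_P`), `W∞` the same at infinity (`PL.complete_inf`, `unif_inf`, `val_l_inf`).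
  From `Dtc 2 A i k` we get `v0 ∈ pf (dl A)` (the monic multiple) with `multiplicity v0 (A i - A k)` odd and not dividing the other differences.  `vl (toV v0 (AK i - AK k))` is this multiplicity, the other
  differences are units there.  Put `Wl v b = W v 0 b` for `v ≠ v0`, `Wl v0 b = WT i k (b + const)`, `const = un (-1) + un (AK k - AK i) + psL i` at `v0` (`card_WT`, `qf_WT`, `gam_WT`, `card_WT_inf`;
  `b + 1 + const = b + const + 1`), `Wi b = W∞ b (χ.lg c)`.
-/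

namespace Pool.Agent.H94.PM

open Polynomial WithZero IsDedekindDomain
open Pool.Agent.H94.PL
open Pool.Agent.H94.PC (Mo Sq Pr pf om Mn mem_Mo mem_Sq mem_Pr mem_pf mem_pf')

variable {F : Type} [Field F] [Finite F] {m : ℕ} (χ : LChar F 2) {A : Fin m → F[X]}

theorem wl2_sub_v (v : pf (dl A)) (i k : Fin m) :
    toV v (AK A i) - toV v (AK A k) = toV v (algebraMap F[X] (RatFunc F) (A i - A k)) := by
  rw [AK, AK, map_sub, map_sub]

theorem wl2_sub_i [DecidableEq (RatFunc F)] (i k : Fin m) :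
    toI F (AK A i) - toI F (AK A k) = toI F (algebraMap F[X] (RatFunc F) (A i - A k)) := by
  rw [AK, AK, map_sub, map_sub]

theorem wl2_dl0 (hA : ∀ i k, i ≠ k → A i ≠ A k) : dl A ≠ 0 := by
  rw [dl, Finset.prod_ne_zero_iff]
  intro p hp
  exact sub_ne_zero.2 (hA _ _ (mem_prs.1 hp).ne)

theorem wl2_dvd {i k : Fin m} (hik : i ≠ k) {P : F[X]} (h : P ∣ A i - A k) : P ∣ dl A := by
  have hgen : ∀ p ∈ prs m, A p.1 - A p.2 ∣ dl A := by
    intro p hp
    unfold dl
    exact Finset.dvd_prod_of_mem _ hp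
  rcases lt_or_gt_of_ne hik with h1 | h1
  · have h3 : (i, k) ∈ prs m := mem_prs.2 h1
    exact dvd_trans h (hgen (i, k) h3)
  · have h3 : (k, i) ∈ prs m := mem_prs.2 h1
    have h2 : P ∣ A k - A i := by
      rw [← neg_sub]
      exact (dvd_neg).2 h
    exact dvd_trans h2 (hgen (k, i) h3)

open Classical in
theorem wl2_erase {Δ : F[X]} (v : pf Δ) (f : F[X] → ZMod 2) :
    ∑ v' ∈ Finset.univ.erase v, f v'.1 = ∑ Q ∈ (pf Δ).erase v.1, f Q := by
  have h1 := Finset.add_sum_erase Finset.univ (fun v' : pf Δ => f v'.1) (Finset.mem_univ v)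
  have h2 := Finset.add_sum_erase (pf Δ) f v.2
  have h3 : ∑ P : pf Δ, f P.1 = ∑ Q ∈ pf Δ, f Q := Finset.sum_coe_sort (pf Δ) f
  rw [← h2, ← h1] at h3
  exact add_left_cancel h3

theorem phL_v (hA : ∀ i k, i ≠ k → A i ≠ A k) (v : pf (dl A)) :
    phL (wP v.1 (mem_pf' v.2).2.1) (fun k => toV v (AK A k)) = phV A v := by
  funext i
  unfold phL phV
  refine Finset.sum_congr rfl fun k hk => ?_
  have hne : A i - A k ≠ 0 := sub_ne_zero.2 (hA i k (Finset.ne_of_mem_erase hk).symm)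
  simp only
  rw [wl2_sub_v, toV, vl_toP (ℓ := 2) (mem_pf' v.2).2.1 (RatFunc.algebraMap_ne_zero hne),
    ex_poly (mem_pf' v.2).2.1 hne]
  rfl

theorem psL_v (hA : ∀ i k, i ≠ k → A i ≠ A k) (v : pf (dl A)) :
    psL (UV χ v) (fun k => toV v (AK A k)) = psV χ A v := by
  classical
  funext i
  unfold psL psV
  refine Finset.sum_congr rfl fun k hk => ?_
  have hik : i ≠ k := (Finset.ne_of_mem_erase hk).symm
  have hne : A i - A k ≠ 0 := sub_ne_zero.2 (hA i k hik)
  have hx := RatFunc.algebraMap_ne_zero (K := F) hne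
  have hv := mem_pf' v.2
  simp only
  rw [wl2_sub_v]
  have e1 : (UV χ v).un (toV v (algebraMap F[X] (RatFunc F) (A i - A k))) =
      (v.1.natDegree : ZMod 2) * kap χ (algebraMap F[X] (RatFunc F) (A i - A k)) +
        ∑ Q ∈ (pf (dl A)).erase v.1,
          ex 2 Q (algebraMap F[X] (RatFunc F) (A i - A k)) * lm χ Q v.1 := by
    refine un_toP χ hv.1 hv.2.1 hx _ ?_ (Finset.notMem_erase _ _) ?_
    · intro Q hQ
      have h1 := mem_pf' (Finset.mem_of_mem_erase hQ)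
      exact ⟨h1.1, h1.2.1⟩
    · intro Q hQm hQi hQT hQv
      rw [ex_poly hQi hne]
      have h1 : ¬ Q ∣ A i - A k := fun h2 => hQT (Finset.mem_erase.2
        ⟨hQv, (mem_pf (wl2_dl0 hA)).2 ⟨hQm, hQi, wl2_dvd hik h2⟩⟩)
      rw [multiplicity_eq_zero.2 h1, Nat.cast_zero]
  rw [e1, kap_poly χ hne, ← Hs_eq χ (hA i k hik),
    ← wl2_erase v fun Q => ex 2 Q (algebraMap F[X] (RatFunc F) (A i - A k)) * lm χ Q v.1]
  congr 1
  refine Finset.sum_congr ?_ fun v' _ => ?_
  · congr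
  · rw [ex_poly (mem_pf' v'.2).2.1 hne]
    rfl

theorem un1_v (v : pf (dl A)) :
    (UV χ v).un (-1) = χ.lg (-1) * (v.1.natDegree : ZMod 2) := by
  have h := un_minus_one χ (mem_pf' v.2).1 (mem_pf' v.2).2.1
  rw [mul_comm]
  exact h

theorem phL_i [DecidableEq (RatFunc F)] (hA : ∀ i k, i ≠ k → A i ≠ A k) :
    phL (wI F) (fun k => toI F (AK A k)) = phI A := by
  funext i
  unfold phL phI
  refine Finset.sum_congr rfl fun k hk => ?_
  have hne : A i - A k ≠ 0 := sub_ne_zero.2 (hA i k (Finset.ne_of_mem_erase hk).symm)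
  simp only
  rw [wl2_sub_i, vl_inf_poly hne]
  push_cast
  rw [CharTwo.neg_eq]

theorem psL_i [DecidableEq (RatFunc F)] (hA : ∀ i k, i ≠ k → A i ≠ A k) :
    psL (UI χ) (fun k => toI F (AK A k)) = psI χ A := by
  funext i
  unfold psL psI
  refine Finset.sum_congr rfl fun k hk => ?_
  have hik : i ≠ k := (Finset.ne_of_mem_erase hk).symm
  have hne : A i - A k ≠ 0 := sub_ne_zero.2 (hA i k hik)
  simp only
  rw [wl2_sub_i, UI_poly χ hne, Hs_eq χ (hA i k hik)]

theorem un1_i [DecidableEq (RatFunc F)] : (UI χ).un (-1) = χ.lg (-1) := by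
  have h1 : (-1 : RatFunc.CompletionAtInfty F) = toI F (algebraMap F[X] (RatFunc F) (C (-1))) := by
    rw [C_neg, C_1, map_neg, map_neg, map_one, map_one]
  have h2 : (C (-1) : F[X]) ≠ 0 := C_ne_zero.2 (neg_ne_zero.2 one_ne_zero)
  rw [h1, UI_poly χ h2, leadingCoeff_C]

theorem wl2_place (hA : ∀ i k, i ≠ k → A i ≠ A k) {i k : Fin m} (h : Dtc 2 A i k) :
    ∃ v0 : pf (dl A), i ≠ k ∧ v0.1 ∣ A i - A k ∧ ¬ 2 ∣ multiplicity v0.1 (A i - A k) ∧
      ∀ a b, a ≠ b → ¬ (a = i ∧ b = k) → ¬ (a = k ∧ b = i) → ¬ v0.1 ∣ A a - A b := by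
  obtain ⟨hik, v, hv, hm, h0⟩ := h
  have hv0 : v ≠ 0 := hv.ne_zero
  have hass0 : Associated (v * C v.leadingCoeff⁻¹) v :=
    associated_mul_unit_left _ _ (isUnit_C.2 (inv_ne_zero (leadingCoeff_ne_zero.2 hv0)).isUnit)
  have hmon0 : (v * C v.leadingCoeff⁻¹).Monic := monic_mul_leadingCoeff_inv hv0
  generalize v * C v.leadingCoeff⁻¹ = u at hass0 hmon0
  have hirr : Irreducible u := hass0.irreducible_iff.2 hv
  have hmul : ∀ a, multiplicity u a = multiplicity v a := fun a =>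
    multiplicity_eq_of_associated_left hass0.symm
  have hdvd : u ∣ A i - A k := by
    apply dvd_of_multiplicity_pos
    rw [hmul]
    rcases Nat.eq_zero_or_pos (multiplicity v (A i - A k)) with h1 | h1
    · rw [h1] at hm
      exact absurd (dvd_zero 2) hm
    · exact h1
  refine ⟨⟨u, (mem_pf (wl2_dl0 hA)).2 ⟨hmon0, hirr, wl2_dvd hik hdvd⟩⟩, hik, hdvd, ?_, ?_⟩
  · rw [hmul]
    exact hm
  · intro a b hab h1 h2 h3
    exact h0 a b hab h1 h2 ((hass0.dvd_iff_dvd_left).1 h3)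

theorem exists_L2 [DecidableEq (RatFunc F)] (hq : 2 ∣ Nat.card F - 1) (hm : Nat.Coprime m 2)
    (hm3 : 3 ≤ m) {α : ℕ} (hα : 2 ∣ α * m + 1) (c : F) (hA : ∀ i k, i ≠ k → A i ≠ A k)
    {i k : Fin m} (hd : Dtc 2 A i k) :
    ∃ (Wl : pf (dl A) → ZMod 2 → Submodule (ZMod 2) (XX m 2 × XX m 2))
      (Wi : ZMod 2 → Submodule (ZMod 2) (XX m 2 × XX m 2)) (v0 : pf (dl A)),
      LOK χ A Wl Wi ∧ OKl χ α A Wl ∧ OKi χ α c A Wi ∧
      ∀ b, 2 * Nat.card (Wl v0 b ⊓ Wl v0 (b + 1) : Submodule (ZMod 2) (XX m 2 × XX m 2)) =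
        Nat.card (XX m 2) := by
  classical
  obtain ⟨v0, ⟨hik, hvik, hodd, hoth⟩⟩ := wl2_place hA hd
  -- the local spaces at the finite places
  have hAv : ∀ (v : pf (dl A)) (a b : Fin m), a ≠ b → toV v (AK A a) ≠ toV v (AK A b) := by
    intro v a b hab h
    have h1 := (toV v).injective h
    rw [AK, AK] at h1
    exact hA a b hab (RatFunc.algebraMap_injective F h1)
  have hAi : ∀ (a b : Fin m), a ≠ b → toI F (AK A a) ≠ toI F (AK A b) := by
    intro a b hab h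
    have h1 := (toI F).injective h
    rw [AK, AK] at h1
    exact hA a b hab (RatFunc.algebraMap_injective F h1)
  have hW : ∀ v : pf (dl A), ∃ W : ZMod 2 → ZMod 2 → Submodule (ZMod 2) (XX m 2 × XX m 2),
      (∀ a b, Nat.card (W a b) = Nat.card (XX m 2) ∧
        ∀ g ∈ W a b, qf ((UV χ v).un (-1)) (phL (wP v.1 (mem_pf' v.2).2.1)
          (fun k => toV v (AK A k))) (psL (UV χ v) (fun k => toV v (AK A k))) g = 0) ∧
      ∀ D, D ≠ 0 → Gam (UV χ v) α D (fun k => toV v (AK A k)) ≤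
        W (vl (wP v.1 (mem_pf' v.2).2.1) D : ZMod 2) ((UV χ v).un D) := by
    intro v
    exact exists_W2 (UV χ v) (val_l_P hq (mem_pf' v.2).2.1) (wP_self v.1 (mem_pf' v.2).2.1) hm hα
      (hAv v)
  choose W hW1 hW2 using hW
  obtain ⟨Wi, hWi1, hWi2⟩ : ∃ W : ZMod 2 → ZMod 2 → Submodule (ZMod 2) (XX m 2 × XX m 2),
      (∀ a b, Nat.card (W a b) = Nat.card (XX m 2) ∧
        ∀ g ∈ W a b, qf ((UI χ).un (-1)) (phL (wI F)
          (fun k => toI F (AK A k))) (psL (UI χ) (fun k => toI F (AK A k))) g = 0) ∧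
      ∀ D, D ≠ 0 → Gam (UI χ) α D (fun k => toI F (AK A k)) ≤
        W (vl (wI F) D : ZMod 2) ((UI χ).un D) := by
    haveI := complete_inf F
    exact exists_W2 (UI χ) (val_l_inf hq) (unif_inf (F := F)) hm hα hAi
  -- the place v0
  have hsub : A i - A k ≠ 0 := sub_ne_zero.2 (hA i k hik)
  have hvl : vl (wP v0.1 (mem_pf' v0.2).2.1) (toV v0 (AK A i) - toV v0 (AK A k)) =
      ((multiplicity v0.1 (A i - A k) : ℕ) : ℤ) := by
    rw [wl2_sub_v]
    have hne : toV v0 (algebraMap F[X] (RatFunc F) (A i - A k)) ≠ 0 :=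
      (_root_.map_ne_zero _).2 (RatFunc.algebraMap_ne_zero hsub)
    rw [vl_eq_iff hne]
    exact tr_pow (mem_pf' v0.2).2.1 hsub
  have hodd' : Odd (multiplicity v0.1 (A i - A k)) := Nat.not_even_iff_odd.1 fun h =>
    hodd h.two_dvd
  have h1 : 1 ≤ vl (wP v0.1 (mem_pf' v0.2).2.1) (toV v0 (AK A i) - toV v0 (AK A k)) := by
    rw [hvl]
    have := hodd'.pos
    omega
  have h2 : Odd (vl (wP v0.1 (mem_pf' v0.2).2.1) (toV v0 (AK A i) - toV v0 (AK A k))) := by
    rw [hvl]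
    exact_mod_cast hodd'
  have hAA : ∀ a b, a ≠ b → ¬ (a = i ∧ b = k) → ¬ (a = k ∧ b = i) →
      (wP v0.1 (mem_pf' v0.2).2.1) (toV v0 (AK A a) - toV v0 (AK A b)) = 1 := by
    intro a b hab h3 h4
    rw [wl2_sub_v]
    exact wP_eq_one (mem_pf' v0.2).2.1 (hoth a b hab h3 h4)
  obtain ⟨cst, hcst⟩ : ∃ cst : ZMod 2, cst = (UV χ v0).un (-1) +
      (UV χ v0).un (toV v0 (AK A k) - toV v0 (AK A i)) +
      psL (UV χ v0) (fun k => toV v0 (AK A k)) i := ⟨_, rfl⟩
  refine ⟨fun v b => if v = v0 then WT i k (b + cst) else W v 0 b, fun b => Wi b (χ.lg c), v0,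
    ⟨?_, ?_, ?_, ?_⟩, ?_, ?_, ?_⟩
  · intro v b
    by_cases hv : v = v0
    · simp only [if_pos hv]
      exact card_WT hm3 hik _
    · simp only [if_neg hv]
      exact (hW1 v 0 b).1
  · intro v b g hg
    by_cases hv : v = v0
    · simp only [if_pos hv] at hg
      have h3 := qf_WT (UV χ v0) (A := fun k => toV v0 (AK A k)) hik h1 h2 hAA _ hg
      rw [hv, ← un1_v χ v0, ← phL_v hA v0, ← psL_v χ hA v0]
      exact h3
    · simp only [if_neg hv] at hg
      rw [← un1_v χ v, ← phL_v hA v, ← psL_v χ hA v]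
      exact (hW1 v 0 b).2 g hg
  · intro b
    exact (hWi1 b (χ.lg c)).1
  · intro b g hg
    rw [← un1_i χ, ← phL_i hA, ← psL_i χ hA]
    exact (hWi1 b (χ.lg c)).2 g hg
  · intro v D' hD' hvD'
    by_cases hv : v = v0
    · simp only [if_pos hv]
      subst hv
      rw [hcst]
      exact gam_WT (UV χ v) (wP_self v.1 (mem_pf' v.2).2.1) hm hα hD' hvD' hik h1 h2 hAA
    · simp only [if_neg hv]
      have h3 := hW2 v D' hD'
      rw [hvD'] at h3
      exact h3
  · intro D' hD' hun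
    have h3 := hWi2 D' hD'
    rw [hun] at h3
    exact h3
  · intro b
    simp only [if_true]
    have h3 := card_WT_inf hm3 hik (b + cst)
    have h4 : b + 1 + cst = b + cst + 1 := by ring
    rw [h4]
    exact h3

end Pool.Agent.H94.PM
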