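import Pool.Agent.H94.PM.LS
import Pool.Agent.H94.PL.Tri

set_option autoImplicit false

/-!
# [H94 PM T1] Values of an irreducible polynomial at two points

`P` monic irreducible of degree `n` over the complete field `M`, `R = P.comp (X + C a)` (monic, irreducible, degree `n`, `R.coeff 0 = P.eval a`,
`P.eval b = R.eval (b - a)`; see the beginning of the proof of `PL.tri_red`).  Write `c i = R.coeff i`, `e = b - a`.
`PL.irr_coeff` for `R`: `v (c i) ^ n ≤ v (c 0) ^ (n - i)`, i.e. for `c i ≠ 0`: `n * vl (c i) ≥ (n - i) * vl (c 0)`, `c 0 = P a ≠ 0`.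
`P b = ∑ i ≤ n, c i * e ^ i`, `c n = 1`.
* `t1_lt`: `n vl e < vl (P a)`, `e ≠ 0`.  For `i < n`, `c i ≠ 0`: `n * vl (c i * e ^ i) ≥ (n - i) * vl (P a) + i * (n * vl e) > n * (n * vl e)`,
  so `v (c i * e ^ i) < v (e ^ n)`; `P b / e ^ n - 1 = ∑ i < n, c i * e ^ i / e ^ n` (`Valuation.map_sum_lt`).
* `t1_gt`: if `e = 0` then `P b = P a`.  Otherwise for `i ≥ 1`, `c i ≠ 0` (`i = n` also): `n * vl (c i * e ^ i) ≥ (n - i) * vl (P a) + i * (n * vl e) > n * vl (P a)`,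
  so `v (c i * e ^ i) < v (P a)`, and `P b / P a - 1 = ∑ i ≥ 1, c i * e ^ i / P a`.
* `t1_eq`: for all `i` with `c i ≠ 0`: `n * vl (c i * e ^ i) ≥ n * vl (P a)`, so `v (c i * e ^ i) ≤ v (P a)`, so `v (P b) ≤ v (P a)`.
-/

namespace Pool.Agent.H94.PM

open Polynomial WithZero
open Pool.Agent.H94.PL

variable {M : Type} [Field M] [hv : Valued M ℤᵐ⁰] [CompleteSpace M]

omit [CompleteSpace M] in
private theorem t1_vl_le {x y : M} (hx : x ≠ 0) (hy : y ≠ 0) :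
    (Valued.v : Valuation M ℤᵐ⁰) x ≤ (Valued.v : Valuation M ℤᵐ⁰) y ↔
      vl (Valued.v : Valuation M ℤᵐ⁰) y ≤ vl (Valued.v : Valuation M ℤᵐ⁰) x := by
  rw [val_vl (v := Valued.v) hx, val_vl (v := Valued.v) hy, exp_le_exp, neg_le_neg_iff]

omit [CompleteSpace M] in
private theorem t1_vl_lt {x y : M} (hx : x ≠ 0) (hy : y ≠ 0) :
    (Valued.v : Valuation M ℤᵐ⁰) x < (Valued.v : Valuation M ℤᵐ⁰) y ↔
      vl (Valued.v : Valuation M ℤᵐ⁰) y < vl (Valued.v : Valuation M ℤᵐ⁰) x := by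
  rw [val_vl (v := Valued.v) hx, val_vl (v := Valued.v) hy, exp_lt_exp, neg_lt_neg_iff]

omit [CompleteSpace M] in
private theorem t1_lt_of {x y : M} (hy : y ≠ 0)
    (h : x ≠ 0 → vl (Valued.v : Valuation M ℤᵐ⁰) y < vl (Valued.v : Valuation M ℤᵐ⁰) x) :
    (Valued.v : Valuation M ℤᵐ⁰) x < (Valued.v : Valuation M ℤᵐ⁰) y := by
  by_cases hx : x = 0
  · rw [hx, map_zero]
    exact zero_lt_iff.2 ((Valuation.ne_zero_iff _).2 hy)
  · exact (t1_vl_lt hx hy).2 (h hx)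

private theorem t1_key {ϖ : M} (hϖ : (Valued.v : Valuation M ℤᵐ⁰) ϖ = exp (-1 : ℤ)) {P : M[X]}
    (hP : P.Monic) (hirr : Irreducible P) {a : M} (b : M) (ha : P.eval a ≠ 0) :
    ∃ R : M[X], R.natDegree = P.natDegree ∧ R.coeff P.natDegree = 1 ∧
      R.coeff 0 = P.eval a ∧ P.eval b = R.eval (b - a) ∧
      ∀ i ≤ P.natDegree, R.coeff i ≠ 0 → b - a ≠ 0 →
        ((P.natDegree : ℤ) - i) * vl (Valued.v : Valuation M ℤᵐ⁰) (P.eval a) +
          i * ((P.natDegree : ℤ) * vl (Valued.v : Valuation M ℤᵐ⁰) (b - a)) ≤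
        (P.natDegree : ℤ) * vl (Valued.v : Valuation M ℤᵐ⁰) (R.coeff i * (b - a) ^ i) := by
  set R : M[X] := P.comp (X + C a) with hR
  have hRm : R.Monic := hP.comp_X_add_C a
  have hRd : R.natDegree = P.natDegree := by
    rw [hR, natDegree_comp, natDegree_X_add_C, mul_one]
  have hRi : Irreducible R := by
    have h1 : Irreducible (algEquivAevalXAddC a P) :=
      (MulEquiv.irreducible_iff (algEquivAevalXAddC a)).2 hirr
    rwa [algEquivAevalXAddC_apply, ← comp_eq_aeval] at h1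
  have hR0 : R.coeff 0 = P.eval a := by
    rw [coeff_zero_eq_eval_zero, hR, eval_comp, eval_add, eval_X, eval_C, zero_add]
  have hev : P.eval b = R.eval (b - a) := by
    rw [hR, eval_comp, eval_add, eval_X, eval_C, sub_add_cancel]
  refine ⟨R, hRd, by rw [← hRd]; exact hRm.coeff_natDegree, hR0, hev, fun i hi hci he => ?_⟩
  have h := irr_coeff ϖ (by rw [hϖ]; exact exp_ne_zero) (by rw [hϖ]; decide) R hRm hRi i
    (by rw [hRd]; exact hi)
  rw [hRd, hR0, ← map_pow, ← map_pow, t1_vl_le (pow_ne_zero _ hci) (pow_ne_zero _ ha), vl_pow,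
    vl_pow] at h
  rw [vl_mul hci (pow_ne_zero _ he), vl_pow]
  push_cast [Nat.cast_sub hi] at h
  linarith

theorem t1_lt {ϖ : M} (hϖ : (Valued.v : Valuation M ℤᵐ⁰) ϖ = exp (-1 : ℤ)) {P : M[X]}
    (hP : P.Monic) (hirr : Irreducible P) {a b : M} (ha : P.eval a ≠ 0) (hab : b ≠ a)
    (h : (P.natDegree : ℤ) * vl Valued.v (b - a) < vl (Valued.v : Valuation M ℤᵐ⁰) (P.eval a)) :
    (Valued.v : Valuation M ℤᵐ⁰) (P.eval b / (b - a) ^ P.natDegree - 1) < 1 := by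
  have hn : 0 < P.natDegree := hirr.natDegree_pos
  have he : b - a ≠ 0 := sub_ne_zero.2 hab
  obtain ⟨R, hRd, hRn, hR0, hev, hkey⟩ := t1_key hϖ hP hirr b ha
  have hen : (b - a) ^ P.natDegree ≠ 0 := pow_ne_zero _ he
  have h1 : P.eval b / (b - a) ^ P.natDegree - 1 =
      (∑ i ∈ Finset.range P.natDegree, R.coeff i * (b - a) ^ i) / (b - a) ^ P.natDegree := by
    rw [hev, eval_eq_sum_range, hRd, Finset.sum_range_succ, hRn, one_mul]
    field_simp
    ring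
  rw [h1, map_div₀]
  have hv0 : (Valued.v : Valuation M ℤᵐ⁰) ((b - a) ^ P.natDegree) ≠ 0 :=
    (Valuation.ne_zero_iff _).2 hen
  refine (div_lt_one₀ (zero_lt_iff.2 hv0)).2 ?_
  refine Valuation.map_sum_lt _ hv0 fun i hi => ?_
  have hi' := Finset.mem_range.1 hi
  refine t1_lt_of hen fun hne => ?_
  have hci : R.coeff i ≠ 0 := left_ne_zero_of_mul hne
  have h2 := hkey i hi'.le hci he
  rw [vl_pow]
  have hnz : (0 : ℤ) < (P.natDegree : ℤ) := by exact_mod_cast hn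
  have hiz : (0 : ℤ) < (P.natDegree : ℤ) - i := by
    have : (i : ℤ) < P.natDegree := by exact_mod_cast hi'
    linarith
  have h3 : 0 < ((P.natDegree : ℤ) - i) * (vl (Valued.v : Valuation M ℤᵐ⁰) (P.eval a) -
      (P.natDegree : ℤ) * vl (Valued.v : Valuation M ℤᵐ⁰) (b - a)) :=
    mul_pos hiz (by linarith)
  have h4 : 0 < (P.natDegree : ℤ) * (vl (Valued.v : Valuation M ℤᵐ⁰) (R.coeff i * (b - a) ^ i) -
      (P.natDegree : ℤ) * vl (Valued.v : Valuation M ℤᵐ⁰) (b - a)) := by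
    linarith
  have h5 := (mul_pos_iff_of_pos_left hnz).1 h4
  linarith

theorem t1_gt {ϖ : M} (hϖ : (Valued.v : Valuation M ℤᵐ⁰) ϖ = exp (-1 : ℤ)) {P : M[X]}
    (hP : P.Monic) (hirr : Irreducible P) {a b : M} (ha : P.eval a ≠ 0)
    (h : b ≠ a → vl (Valued.v : Valuation M ℤᵐ⁰) (P.eval a) <
      (P.natDegree : ℤ) * vl Valued.v (b - a)) :
    (Valued.v : Valuation M ℤᵐ⁰) (P.eval b / P.eval a - 1) < 1 := by
  have hn : 0 < P.natDegree := hirr.natDegree_pos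
  by_cases hab : b = a
  · rw [hab, div_self ha, sub_self, map_zero]
    exact zero_lt_one
  have he : b - a ≠ 0 := sub_ne_zero.2 hab
  have h' := h hab
  obtain ⟨R, hRd, hRn, hR0, hev, hkey⟩ := t1_key hϖ hP hirr b ha
  have h1 : P.eval b / P.eval a - 1 =
      (∑ i ∈ Finset.range P.natDegree, R.coeff (i + 1) * (b - a) ^ (i + 1)) / P.eval a := by
    rw [hev, eval_eq_sum_range, hRd, Finset.sum_range_succ', hR0, pow_zero, mul_one]
    field_simp
    ring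
  rw [h1, map_div₀]
  have hv0 : (Valued.v : Valuation M ℤᵐ⁰) (P.eval a) ≠ 0 := (Valuation.ne_zero_iff _).2 ha
  refine (div_lt_one₀ (zero_lt_iff.2 hv0)).2 ?_
  refine Valuation.map_sum_lt _ hv0 fun i hi => ?_
  have hi' := Finset.mem_range.1 hi
  refine t1_lt_of ha fun hne => ?_
  have hci : R.coeff (i + 1) ≠ 0 := left_ne_zero_of_mul hne
  have h2 := hkey (i + 1) hi' hci he
  push_cast at h2
  have hnz : (0 : ℤ) < (P.natDegree : ℤ) := by exact_mod_cast hn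
  have hiz : (0 : ℤ) < (i : ℤ) + 1 := by positivity
  have h3 : 0 < ((i : ℤ) + 1) * ((P.natDegree : ℤ) * vl (Valued.v : Valuation M ℤᵐ⁰) (b - a) -
      vl (Valued.v : Valuation M ℤᵐ⁰) (P.eval a)) :=
    mul_pos hiz (by linarith)
  have h4 : 0 < (P.natDegree : ℤ) *
      (vl (Valued.v : Valuation M ℤᵐ⁰) (R.coeff (i + 1) * (b - a) ^ (i + 1)) -
      vl (Valued.v : Valuation M ℤᵐ⁰) (P.eval a)) := by
    linarith
  have h5 := (mul_pos_iff_of_pos_left hnz).1 h4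
  linarith

theorem t1_eq {ϖ : M} (hϖ : (Valued.v : Valuation M ℤᵐ⁰) ϖ = exp (-1 : ℤ)) {P : M[X]}
    (hP : P.Monic) (hirr : Irreducible P) {a b : M} (ha : P.eval a ≠ 0) (hb : P.eval b ≠ 0)
    (hab : b ≠ a)
    (h : vl (Valued.v : Valuation M ℤᵐ⁰) (P.eval a) = (P.natDegree : ℤ) * vl Valued.v (b - a)) :
    vl (Valued.v : Valuation M ℤᵐ⁰) (P.eval a) ≤ vl (Valued.v : Valuation M ℤᵐ⁰) (P.eval b) := by
  have hn : 0 < P.natDegree := hirr.natDegree_pos
  have he : b - a ≠ 0 := sub_ne_zero.2 hab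
  obtain ⟨R, hRd, hRn, hR0, hev, hkey⟩ := t1_key hϖ hP hirr b ha
  rw [← t1_vl_le hb ha, hev, eval_eq_sum_range, hRd]
  refine Valuation.map_sum_le _ fun i hi => ?_
  have hi' : i ≤ P.natDegree := Nat.lt_succ_iff.1 (Finset.mem_range.1 hi)
  by_cases hci : R.coeff i = 0
  · rw [hci, zero_mul, map_zero]
    exact zero_le
  have h2 := hkey i hi' hci he
  rw [t1_vl_le (mul_ne_zero hci (pow_ne_zero _ he)) ha]
  have hnz : (0 : ℤ) < (P.natDegree : ℤ) := by exact_mod_cast hn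
  rw [← h] at h2
  have h4 : (P.natDegree : ℤ) * vl (Valued.v : Valuation M ℤᵐ⁰) (P.eval a) ≤
      (P.natDegree : ℤ) * vl (Valued.v : Valuation M ℤᵐ⁰) (R.coeff i * (b - a) ^ i) := by
    linarith
  exact le_of_mul_le_mul_left h4 hnz

/-- consequence of `t1_lt` -/
theorem t1_lt_vl {ϖ : M} (hϖ : (Valued.v : Valuation M ℤᵐ⁰) ϖ = exp (-1 : ℤ)) {P : M[X]}
    (hP : P.Monic) (hirr : Irreducible P) {a b : M} (ha : P.eval a ≠ 0) (hb : P.eval b ≠ 0)
    (hab : b ≠ a)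
    (h : (P.natDegree : ℤ) * vl Valued.v (b - a) < vl (Valued.v : Valuation M ℤᵐ⁰) (P.eval a)) :
    vl (Valued.v : Valuation M ℤᵐ⁰) (P.eval b) = (P.natDegree : ℤ) * vl Valued.v (b - a) := by
  have he : b - a ≠ 0 := sub_ne_zero.2 hab
  have h1 := vl_near (t1_lt hϖ hP hirr ha hab h)
  rw [vl_div hb (pow_ne_zero _ he), vl_pow] at h1
  linarith

/-- consequence of `t1_gt` -/
theorem t1_gt_vl {ϖ : M} (hϖ : (Valued.v : Valuation M ℤᵐ⁰) ϖ = exp (-1 : ℤ)) {P : M[X]}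
    (hP : P.Monic) (hirr : Irreducible P) {a b : M} (ha : P.eval a ≠ 0) (hb : P.eval b ≠ 0)
    (h : b ≠ a → vl (Valued.v : Valuation M ℤᵐ⁰) (P.eval a) <
      (P.natDegree : ℤ) * vl Valued.v (b - a)) :
    vl (Valued.v : Valuation M ℤᵐ⁰) (P.eval b) = vl (Valued.v : Valuation M ℤᵐ⁰) (P.eval a) := by
  have h1 := vl_near (t1_gt hϖ hP hirr ha h)
  rw [vl_div hb ha] at h1
  linarith

end Pool.Agent.H94.PM
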