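import Pool.Agent.H94.PM.UN
import Pool.Agent.H94.PM.GAM
import Pool.Agent.H94.PM.LV
import Pool.Agent.H94.PM.DC
import Pool.Agent.H94.PL.Sdg
import Pool.Agent.H94.PL.Sdi
import Pool.Agent.H94.PL.Fin

set_option autoImplicit false

/-!
# [H94 PM TRA] Selmer classes: good primes and primes dividing `D`

`M` = completion at `Q` or `P`, complete (as in `PL.sd_good`), uniformizer `toP P hP P` (`wP_self`).  The component at `P` of `IsSln.fin` is `IsSln_at`.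
* `vl_DK`: `wP (toP (DK c D))`: `P ∤ C c * D`: `1` (`wP_eq_one`); `P ∣ D`, `D` squarefree: `exp (-1)` (`wP_simple`).
* `sln_good`: `lv_good` with `D' = toP (DK c D)` (`vl = 0`), differences units (`PL.sd_diff`), and `vl_toP`.
* `un_at_D` (`P ∣ D`): `un_toP` with `T = (pf D).erase P`, `x = DK c D`, `kap = χ.lg c`, `ex Q x = 1` for `Q ∣ D` (`PL.ex_DK_D`), `0` for the other `Q`.
* `un_AK`: `un_toP` with `T = pf (dl A)`, `x = AK A k - AK A i = algebraMap (A k - A i)`, `kap_poly`, `ex_poly`; for `Q ∉ T` monic irreducible `Q ∤ A k - A i`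
  (`PL.dvd_dl`).
* `un_minus_one`: `lm_C`, `-1 = C (-1)`.
* `un_dl_P`: `un_toP` with `x = δ k`, `T = (pf D).erase P ∪ pf (dl A)` (disjoint, `D` prime to `dl A`; as in `PL.lq_of_cl`), `sln_good` for the other `Q`.
* `em_zero`: `g = lgs (UP ..) (toP ∘ δ) ∈ Gam` (`lgs_mem_Gam`, the value at `P`), `gam_D` with `vl (toP (DK c D)) = 1`.  Coordinate `k` of `EM` (use
  `(toX ..).1 k`, `PL.toX_apply`; the sums of `kap (δ k)` and `ex (δ k)` over `k` vanish since `∏ δ k` is an `ℓ`-th power):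
  `EM k = ∑ Q, lm Q P (x_Q k - x_P k) + deg P (κ k + bet x_P k) + ∑ v, lm v P (y_v k + L_v x_P k)`,
  `bet x k = ∑ i ≠ k, Hs k i (x k - x i) - (lg (-1) + lg c) x k`, `L_v x k = ∑ i ≠ k, mlt v k i (x k - x i)`, and `gam_D` says
  `un (δ k) = x_P k (un (-1) + un (c D)) + ∑ i ≠ k, (x_P i - x_P k) un (A k - A i)` with
  `un (δ k) = deg P κ k + ∑ Q ≠ P, lm Q P x_Q k + ∑ v, lm v P y_v k`, `un (-1) = deg P lg (-1)`, `un (c D) = deg P lg c + ∑ Q ≠ P, lm Q P`,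
  `un (A k - A i) = deg P Hs k i + ∑ v, mlt v k i lm v P`.  The difference of the two sides is `EM k`.
-/

namespace Pool.Agent.H94.PM

open Polynomial WithZero IsDedekindDomain
open Pool.Agent.H94.PL
open Pool.Agent.H94.PC (Mo Sq Pr pf om Mn mem_Mo mem_Sq mem_Pr mem_pf mem_pf')

/-- Selmer classes -/
structure IsSln {F : Type} [Field F] {m : ℕ} [DecidableEq (RatFunc F)] (ℓ α : ℕ) (c : F)
    (A : Fin m → F[X]) (D : F[X]) (δ : Fin m → RatFunc F) : Prop where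
  ne : ∀ k, δ k ≠ 0
  prod : ∃ y : RatFunc F, ∏ k, δ k = y ^ ℓ
  fin : ∀ v : HeightOneSpectrum F[X],
    IsVln ℓ α (algebraMap (RatFunc F) (v.adicCompletion (RatFunc F)) (DK c D))
      (fun k => algebraMap (RatFunc F) (v.adicCompletion (RatFunc F)) (AK A k))
      (fun k => algebraMap (RatFunc F) (v.adicCompletion (RatFunc F)) (δ k))
  inf : IsVln ℓ α (algebraMap (RatFunc F) (RatFunc.CompletionAtInfty F) (DK c D))
      (fun k => algebraMap (RatFunc F) (RatFunc.CompletionAtInfty F) (AK A k))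
      (fun k => algebraMap (RatFunc F) (RatFunc.CompletionAtInfty F) (δ k))

variable {F : Type} [Field F] [Finite F] {ℓ m : ℕ} [hl : Fact ℓ.Prime]

/-- the exponents and constants of a tuple -/
noncomputable def zM (χ : LChar F ℓ) (A : Fin m → F[X]) (D : F[X]) (δ : Fin m → RatFunc F) :
    EE (XX m ℓ) (pf (dl A)) × (pf D → XX m ℓ) :=
  ((toX fun k => kap χ (δ k), fun v => toX fun k => ex ℓ v.1 (δ k)),
    fun P => toX fun k => ex ℓ P.1 (δ k))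

section
variable [DecidableEq (RatFunc F)] {α : ℕ} {c : F} {A : Fin m → F[X]} {D : F[X]}
  {δ : Fin m → RatFunc F}

theorem IsSln_at (h : IsSln ℓ α c A D δ) {P : F[X]} (hP : Irreducible P) :
    IsVln ℓ α (toP P hP (DK c D)) (fun k => toP P hP (AK A k)) (fun k => toP P hP (δ k)) :=
  h.fin (LT.place P hP)

omit [DecidableEq (RatFunc F)] in
private theorem tra_vl0 {c : F} (hc : c ≠ 0) {D P : F[X]} (hP : Irreducible P) (h : ¬ P ∣ D) :
    vl (wP P hP) (toP P hP (DK c D)) = 0 := by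
  have h1 : wP P hP (toP P hP (DK c D)) = 1 := by
    refine wP_eq_one hP ?_
    intro h2
    exact h ((hP.prime.dvd_or_dvd h2).resolve_left fun h => hP.not_isUnit
      (isUnit_of_dvd_unit h (isUnit_C.2 (isUnit_iff_ne_zero.2 hc))))
  unfold vl
  rw [h1, log_one, neg_zero]

theorem sln_root (h : IsSln ℓ α c A D δ) : ∃ y : RatFunc F, y ≠ 0 ∧ ∏ k, δ k = y ^ ℓ := by
  obtain ⟨y, hy⟩ := h.prod
  refine ⟨y, ?_, hy⟩
  rintro rfl
  rw [zero_pow hl.out.ne_zero] at hy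
  exact (Finset.prod_ne_zero_iff.2 fun k _ => h.ne k) hy

theorem sln_kap (χ : LChar F ℓ) (h : IsSln ℓ α c A D δ) : ∑ k, kap χ (δ k) = 0 := by
  obtain ⟨y, hy0, hy⟩ := sln_root h
  rw [← kap_prod χ Finset.univ δ fun k _ => h.ne k, hy, kap_pow_l χ hy0]

theorem sln_ex (h : IsSln ℓ α c A D δ) {P : F[X]} (hP : Irreducible P) :
    ∑ k, ex ℓ P (δ k) = 0 := by
  obtain ⟨y, hy0, hy⟩ := sln_root h
  rw [← ex_prod hP Finset.univ δ fun k _ => h.ne k, hy, ex_pow_l hP hy0]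

theorem sln_good (hm : Nat.Coprime m ℓ) (hα : ℓ ∣ α * m + 1) (hc : c ≠ 0) (hD : D.Monic)
    (h : IsSln ℓ α c A D δ) {Q : F[X]} (hQm : Q.Monic) (hQ : Irreducible Q) (h1 : ¬ Q ∣ D)
    (h3 : ¬ Q ∣ dl A) (k : Fin m) : ex ℓ Q (δ k) = 0 := by
  have h4 := tra_vl0 hc hQ h1
  have h5 : (ℓ : ℤ) ∣ vl (wP Q hQ) (toP Q hQ (DK c D)) := by
    rw [h4]
    exact dvd_zero _
  have h6 : (ℓ : ℤ) ∣ vl (wP Q hQ) (toP Q hQ (δ k)) :=
    lv_good (A := fun k => toP Q hQ (AK A k)) (wP_self Q hQ) hl.out hm hα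
      ((map_ne_zero (toP Q hQ)).2 (DK_ne hc hD.ne_zero)) h5
      (fun i k hik => sd_diff hQ h3 hik) (IsSln_at h hQ) k
  rw [← vl_toP hQ (h.ne k)]
  exact (ZMod.intCast_zmod_eq_zero_iff_dvd _ _).2 h6

end

theorem vl_DK_good {c : F} (hc : c ≠ 0) {D P : F[X]} (hP : Irreducible P) (h : ¬ P ∣ D) :
    vl (wP P hP) (toP P hP (DK c D)) = 0 := by
  exact tra_vl0 hc hP h

theorem vl_DK_D {c : F} (hc : c ≠ 0) {D P : F[X]} (hD : Squarefree D) (hP : Irreducible P)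
    (h : P ∣ D) : vl (wP P hP) (toP P hP (DK c D)) = 1 := by
  have hu : IsUnit (C c : F[X]) := isUnit_C.2 (isUnit_iff_ne_zero.2 hc)
  have h1 : wP P hP (toP P hP (DK c D)) = exp (-1 : ℤ) := by
    refine wP_simple hP (Dvd.dvd.mul_left h _) ?_
    intro h2
    have h3 : P ^ 2 ∣ D := (hu.dvd_mul_left).1 h2
    rw [pow_two] at h3
    exact hP.not_isUnit (hD P h3)
  unfold vl
  rw [h1, log_exp, neg_neg]

section
variable (χ : LChar F ℓ)

open Classical in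
theorem un_at_D {c : F} (hc : c ≠ 0) {D P : F[X]} (hD : D.Monic) (hDs : Squarefree D)
    (hPm : P.Monic) (hP : Irreducible P) (h : P ∣ D) : (UP χ hPm hP).un (toP P hP (DK c D)) =
      (P.natDegree : ZMod ℓ) * χ.lg c + ∑ Q ∈ (pf D).erase P, lm χ Q P := by
  have hx : DK c D ≠ 0 := DK_ne hc hD.ne_zero
  rw [un_toP χ hPm hP hx ((pf D).erase P) (fun Q hQ =>
      ⟨(mem_pf' (Finset.mem_of_mem_erase hQ)).1, (mem_pf' (Finset.mem_of_mem_erase hQ)).2.1⟩)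
    (Finset.notMem_erase _ _) (by
      intro Q hQm hQ hQT hQP
      refine ex_DK_good hc hQ fun h4 => hQT (Finset.mem_erase.2 ⟨hQP, ?_⟩)
      exact (mem_pf hD.ne_zero).2 ⟨hQm, hQ, h4⟩)]
  congr 1
  · rw [DK, kap_poly χ (mul_ne_zero (C_ne_zero.2 hc) hD.ne_zero), leadingCoeff_mul,
      leadingCoeff_C, hD.leadingCoeff, mul_one]
  · refine Finset.sum_congr rfl fun Q hQ => ?_
    rw [ex_DK_D hc hDs ⟨Q, Finset.mem_of_mem_erase hQ⟩, one_mul]

theorem un_AK {A : Fin m → F[X]} (hA : ∀ i k, i ≠ k → A i ≠ A k) {P : F[X]} (hPm : P.Monic)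
    (hP : Irreducible P) (hPd : ¬ P ∣ dl A) {k i : Fin m} (hki : k ≠ i) :
    (UP χ hPm hP).un (toP P hP (AK A k) - toP P hP (AK A i)) =
      (P.natDegree : ZMod ℓ) * Hs χ A k i + ∑ v : pf (dl A), mlt ℓ A v.1 k i * lm χ v.1 P := by
  have hne : A k - A i ≠ 0 := sub_ne_zero.2 (hA k i hki)
  have hdl0 : dl A ≠ 0 := by
    rw [dl]
    refine Finset.prod_ne_zero_iff.2 fun p hp => sub_ne_zero.2 (hA _ _ ?_)
    exact (mem_prs.1 hp).ne
  have hx : AK A k - AK A i = algebraMap F[X] (RatFunc F) (A k - A i) := by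
    rw [AK, AK, map_sub]
  have hx0 : algebraMap F[X] (RatFunc F) (A k - A i) ≠ 0 := RatFunc.algebraMap_ne_zero hne
  rw [← map_sub, hx, un_toP χ hPm hP hx0 (pf (dl A)) (fun Q hQ =>
      ⟨(mem_pf' hQ).1, (mem_pf' hQ).2.1⟩) (fun h => hPd (mem_pf' h).2.2) (by
      intro Q hQm hQ hQT _
      refine ex_of_not_dvd hQ fun h4 => hQT ?_
      exact (mem_pf hdl0).2 ⟨hQm, hQ, h4.trans (dvd_dl hki)⟩)]
  congr 1
  · rw [kap_poly χ hne, Hs_eq χ (hA k i hki)]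
  · rw [← Finset.sum_coe_sort (pf (dl A))
      (fun Q => ex ℓ Q (algebraMap F[X] (RatFunc F) (A k - A i)) * lm χ Q P)]
    refine Finset.sum_congr rfl fun v _ => ?_
    rw [ex_poly (mem_pf' v.2).2.1 hne]
    rfl

theorem un_minus_one {P : F[X]} (hPm : P.Monic) (hP : Irreducible P) :
    (UP χ hPm hP).un (-1) = (P.natDegree : ZMod ℓ) * χ.lg (-1) := by
  have h1 : ¬ P ∣ C (-1 : F) := fun h => hP.not_isUnit
    (isUnit_of_dvd_unit h (isUnit_C.2 (isUnit_iff_ne_zero.2 (neg_ne_zero.2 one_ne_zero))))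
  have h2 := UP_poly χ hPm hP h1
  have h3 : toP P hP (algebraMap F[X] (RatFunc F) (C (-1 : F))) = -1 := by
    rw [map_neg, map_one, map_neg, map_one, map_neg, map_one]
  rw [h3] at h2
  rw [h2, lm_C χ hPm (neg_ne_zero.2 one_ne_zero)]

variable [DecidableEq (RatFunc F)] {α : ℕ} {c : F} {A : Fin m → F[X]} {D : F[X]}
  {δ : Fin m → RatFunc F}

open Classical in
theorem un_dl_P (hm : Nat.Coprime m ℓ) (hα : ℓ ∣ α * m + 1) (hc : c ≠ 0)
    (hA : ∀ i k, i ≠ k → A i ≠ A k) (hD : D.Monic)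
    (hDA : IsCoprime D (dl A)) (h : IsSln ℓ α c A D δ) {P : F[X]} (hPm : P.Monic)
    (hP : Irreducible P) (hPD : P ∣ D) (k : Fin m) : (UP χ hPm hP).un (toP P hP (δ k)) =
      (P.natDegree : ZMod ℓ) * kap χ (δ k) + (∑ Q ∈ (pf D).erase P, ex ℓ Q (δ k) * lm χ Q P +
        ∑ v : pf (dl A), ex ℓ v.1 (δ k) * lm χ v.1 P) := by
  have hdl0 : dl A ≠ 0 := by
    rw [dl]
    refine Finset.prod_ne_zero_iff.2 fun p hp => sub_ne_zero.2 (hA _ _ ?_)
    exact (mem_prs.1 hp).ne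
  have hdis : Disjoint ((pf D).erase P) (pf (dl A)) := by
    rw [Finset.disjoint_left]
    intro Q hQ hQ'
    have hQ := Finset.mem_of_mem_erase hQ
    exact (mem_pf' hQ).2.1.not_isUnit (hDA.isUnit_of_dvd' (mem_pf' hQ).2.2 (mem_pf' hQ').2.2)
  have hPdl : P ∉ pf (dl A) := fun h =>
    hP.not_isUnit (hDA.isUnit_of_dvd' hPD (mem_pf' h).2.2)
  rw [un_toP χ hPm hP (h.ne k) ((pf D).erase P ∪ pf (dl A)) (by
      intro Q hQ
      rcases Finset.mem_union.1 hQ with h | h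
      · exact ⟨(mem_pf' (Finset.mem_of_mem_erase h)).1,
          (mem_pf' (Finset.mem_of_mem_erase h)).2.1⟩
      · exact ⟨(mem_pf' h).1, (mem_pf' h).2.1⟩)
    (by
      rw [Finset.mem_union, not_or]
      exact ⟨Finset.notMem_erase _ _, hPdl⟩) (by
      intro Q hQm hQ hQT hQP
      rw [Finset.mem_union, not_or] at hQT
      refine sln_good hm hα hc hD h hQm hQ (fun h4 => hQT.1 (Finset.mem_erase.2 ⟨hQP, ?_⟩))
        (fun h4 => hQT.2 ((mem_pf hdl0).2 ⟨hQm, hQ, h4⟩)) k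
      exact (mem_pf hD.ne_zero).2 ⟨hQm, hQ, h4⟩)]
  rw [Finset.sum_union hdis, ← Finset.sum_coe_sort (pf (dl A))
    (fun Q => ex ℓ Q (δ k) * lm χ Q P)]

theorem em_zero (hm : Nat.Coprime m ℓ) (hα : ℓ ∣ α * m + 1) (hc : c ≠ 0)
    (hA : ∀ i k, i ≠ k → A i ≠ A k) (hD : D.Monic) (hDs : Squarefree D)
    (hDA : IsCoprime D (dl A)) (h : IsSln ℓ α c A D δ)
    (Wl : pf (dl A) → ZMod ℓ → Submodule (ZMod ℓ) (XX m ℓ × XX m ℓ))
    (Wi : ZMod ℓ → Submodule (ZMod ℓ) (XX m ℓ × XX m ℓ)) (P : pf D) :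
    EM χ (DC χ c A Wl Wi) D (zM χ A D δ) P = 0 := by
  classical
  have hPp := mem_pf' P.2
  have hPm : P.1.Monic := hPp.1
  have hP : Irreducible P.1 := hPp.2.1
  have hPD : P.1 ∣ D := hPp.2.2
  have hPdl : ¬ P.1 ∣ dl A := fun h => hP.not_isUnit (hDA.isUnit_of_dvd' hPD h)
  have hroot : ∃ y : (LT.place P.1 hP).adicCompletion (RatFunc F),
      ∏ k, toP P.1 hP (δ k) = y ^ ℓ := by
    obtain ⟨y, hy⟩ := h.prod
    refine ⟨toP P.1 hP y, ?_⟩
    rw [← map_prod, hy, map_pow]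
  have hne : ∀ k, toP P.1 hP (δ k) ≠ 0 := fun k => (map_ne_zero (toP P.1 hP)).2 (h.ne k)
  apply Subtype.ext
  funext k
  have hG := gam_D (UP χ hPm hP) hm hα ((map_ne_zero (toP P.1 hP)).2 (DK_ne hc hD.ne_zero))
    (vl_DK_D hc hDs hP hPD) (A := fun k => toP P.1 hP (AK A k))
    (fun i k hik => sd_diff hP hPdl hik)
    (lgs_mem_Gam (UP χ hPm hP) (IsSln_at h hP)) k
  have hf : ∀ i, (lgs (UP χ hPm hP) (fun k => toP P.1 hP (δ k))).1.1 i = ex ℓ P.1 (δ i) := by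
    intro i
    rw [lgs_fst (UP χ hPm hP) hne hroot i, vl_toP hP (h.ne i)]
  have hs : (lgs (UP χ hPm hP) (fun k => toP P.1 hP (δ k))).2.1 k =
      (UP χ hPm hP).un (toP P.1 hP (δ k)) := lgs_snd (UP χ hPm hP) hne hroot k
  simp only [hf] at hG
  rw [hs, un_dl_P χ hm hα hc hA hD hDA h hPm hP hPD k, un_minus_one χ hPm hP,
    un_at_D χ hc hD hDs hPm hP hPD] at hG
  have hAK : ∑ i ∈ Finset.univ.erase k, (ex ℓ P.1 (δ i) - ex ℓ P.1 (δ k)) *
        (UP χ hPm hP).un (toP P.1 hP (AK A k) - toP P.1 hP (AK A i)) =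
      -((P.1.natDegree : ZMod ℓ) * ∑ i ∈ Finset.univ.erase k,
          Hs χ A k i * (ex ℓ P.1 (δ k) - ex ℓ P.1 (δ i)) +
        ∑ v : pf (dl A), lm χ v.1 P.1 * ∑ i ∈ Finset.univ.erase k,
          mlt ℓ A v.1 k i * (ex ℓ P.1 (δ k) - ex ℓ P.1 (δ i))) := by
    simp only [Finset.mul_sum]
    rw [Finset.sum_comm, ← Finset.sum_add_distrib, ← Finset.sum_neg_distrib]
    refine Finset.sum_congr rfl fun i hi => ?_
    rw [un_AK χ hA hPm hP hPdl (Finset.ne_of_mem_erase hi).symm, mul_add, Finset.mul_sum,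
      neg_add, ← Finset.sum_neg_distrib]
    congr 1
    · ring
    · refine Finset.sum_congr rfl fun v _ => ?_
      ring
  rw [hAK] at hG
  -- coordinates
  have c1 : ∀ Q : pf D, ((zM χ A D δ).2 Q).1 k = ex ℓ Q.1 (δ k) := fun Q =>
    toX_apply (sln_ex h (mem_pf' Q.2).2.1) k
  have c1' : ∀ i, ((zM χ A D δ).2 P).1 i = ex ℓ P.1 (δ i) := fun i =>
    toX_apply (sln_ex h hP) i
  have c2 : ((zM χ A D δ).1.1).1 k = kap χ (δ k) := toX_apply (sln_kap χ h) k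
  have c3 : ∀ v : pf (dl A), ((zM χ A D δ).1.2 v).1 k = ex ℓ v.1 (δ k) := fun v =>
    toX_apply (sln_ex h (mem_pf' v.2).2.1) k
  have hev : ∀ w : XX m ℓ, w.1 k = ((LinearMap.proj k).comp (XM m ℓ).subtype) w := fun _ => rfl
  have e1 : (EM χ (DC χ c A Wl Wi) D (zM χ A D δ) P).1 k =
      ∑ Q : pf D, lm χ Q.1 P.1 * (ex ℓ Q.1 (δ k) - ex ℓ P.1 (δ k)) +
      (P.1.natDegree : ZMod ℓ) * (kap χ (δ k) + (∑ i ∈ Finset.univ.erase k,
          Hs χ A k i * (ex ℓ P.1 (δ k) - ex ℓ P.1 (δ i)) -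
            (χ.lg (-1) + χ.lg c) * ex ℓ P.1 (δ k))) +
      ∑ v : pf (dl A), lm χ v.1 P.1 * (ex ℓ v.1 (δ k) + ∑ i ∈ Finset.univ.erase k,
          mlt ℓ A v.1 k i * (ex ℓ P.1 (δ k) - ex ℓ P.1 (δ i))) := by
    rw [EM, hev, map_add, map_add, map_sum, map_sum, map_smul]
    congr 1
    · congr 1
      · refine Finset.sum_congr rfl fun Q _ => ?_
        rw [map_smul, map_sub, ← hev, ← hev, c1, c1, smul_eq_mul]
      · rw [map_add, ← hev, ← hev, c2, smul_eq_mul]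
        congr 2
        show ((lap (lg2 χ) (Hs χ A) (Hs_symm χ A) ((zM χ A D δ).2 P)).1 k -
          (χ.lg (-1) + χ.lg c) * ((zM χ A D δ).2 P).1 k) = _
        rw [lap_apply]
        simp only [c1']
    · refine Finset.sum_congr rfl fun v _ => ?_
      rw [map_smul, map_add, ← hev, ← hev, c3, smul_eq_mul]
      congr 2
      show (lap (add_zero 0) (mlt ℓ A v.1) (fun _ _ _ => mlt_symm A v.1 _ _)
        ((zM χ A D δ).2 P)).1 k = _
      rw [lap_apply]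
      simp only [c1']
  rw [e1]
  have e2 : ∑ Q : pf D, lm χ Q.1 P.1 * (ex ℓ Q.1 (δ k) - ex ℓ P.1 (δ k)) =
      ∑ Q ∈ (pf D).erase P.1, ex ℓ Q (δ k) * lm χ Q P.1 -
        ex ℓ P.1 (δ k) * ∑ Q ∈ (pf D).erase P.1, lm χ Q P.1 := by
    rw [Finset.sum_coe_sort (pf D)
      (fun Q => lm χ Q P.1 * (ex ℓ Q (δ k) - ex ℓ P.1 (δ k))),
      ← Finset.sum_erase (pf D) (f := fun Q => lm χ Q P.1 * (ex ℓ Q (δ k) - ex ℓ P.1 (δ k)))
        (a := P.1) (by rw [sub_self, mul_zero]), Finset.mul_sum, ← Finset.sum_sub_distrib]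
    refine Finset.sum_congr rfl fun Q _ => ?_
    ring
  have e3 : ∑ v : pf (dl A), lm χ v.1 P.1 * (ex ℓ v.1 (δ k) + ∑ i ∈ Finset.univ.erase k,
          mlt ℓ A v.1 k i * (ex ℓ P.1 (δ k) - ex ℓ P.1 (δ i))) =
      ∑ v : pf (dl A), ex ℓ v.1 (δ k) * lm χ v.1 P.1 +
        ∑ v : pf (dl A), lm χ v.1 P.1 * ∑ i ∈ Finset.univ.erase k,
          mlt ℓ A v.1 k i * (ex ℓ P.1 (δ k) - ex ℓ P.1 (δ i)) := by
    rw [← Finset.sum_add_distrib]
    refine Finset.sum_congr rfl fun v _ => ?_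
    ring
  rw [e2, e3]
  show _ = (0 : ZMod ℓ)
  linear_combination hG

end

end Pool.Agent.H94.PM
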