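import Pool.Agent.H94.PM.ANG
import Pool.Agent.H94.PL.AnaLim

set_option autoImplicit false

/-!
# [H94 PM ANL] The main asymptotic formula, limit form

As `PL.AnaLim.ana`: `anl_real` with `a = 2 ^ |V| * 2 * T * Cb`, `c = (2 ^ |V| + 1) * (2 ^ |V| * 6)`, `T = card (Tp) ^ |V| ≥ 1`, `k = |V|`, `N = C.N` and
`ε / T` instead of `ε` (the last term has the factor `T`: `a / T`, `c / T` as the constants, or apply `anl_real` with the same
`a`, `c` and `ε / T` and multiply by `T ≥ 1`).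
-/

namespace Pool.Agent.H94.PM

open Polynomial
open Pool.Agent.H94.PL
open Pool.Agent.H94.PC (Mo Sq Pr pf om Mn mem_Mo mem_Sq mem_Pr mem_pf mem_pf')

variable {F : Type} [Field F] [Finite F] {ℓ : ℕ} [hl : Fact ℓ.Prime]
  {V : Type} [Fintype V] [DecidableEq V]

theorem ang (χ : LChar F ℓ) (C : CD V ℓ) (hC : C.Good) (Δ : F[X]) (hΔ : Δ ≠ 0)
    (ε : ℝ) (hε : 0 < ε) : ∃ n₀ : ℕ, ∀ n : ℕ, n₀ ≤ n →
      ∀ G : (V → Tp ℓ (pf Δ)) → ℂ, (∀ τ, ‖G τ‖ ≤ 1) →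
      ‖∑ x : V → Mn F n, WG χ C Δ G n x -
        ∑ U ∈ MaxU C, ∑ D ∈ Cls Δ n, AU χ C Δ G U (ty χ Δ D)‖ ≤ ε * (Nat.card F : ℝ) ^ n := by
  classical
  have hC0 : 0 ≤ Cb ℓ V Δ := by
    have := one_le_Kc (ℓ := ℓ)
    rw [Cb]
    positivity
  have hq : (2 : ℝ) ≤ (Nat.card F : ℝ) := by
    exact_mod_cast (Finite.one_lt_card (α := F))
  have hqn : ∀ n : ℕ, (0 : ℝ) < (Nat.card F : ℝ) ^ n := fun n => by positivity
  have hT1 : (1 : ℝ) ≤ (Fintype.card (Tp ℓ (pf Δ)) : ℝ) ^ Fintype.card V := by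
    apply one_le_pow₀
    have : 0 < Fintype.card (Tp ℓ (pf Δ)) := Fintype.card_pos_iff.2 inferInstance
    exact_mod_cast this
  set T : ℝ := (Fintype.card (Tp ℓ (pf Δ)) : ℝ) ^ Fintype.card V with hTd
  have hT0 : 0 < T := by linarith
  obtain ⟨n₀, h⟩ := anl_real (2 ^ Fintype.card V * 2 * Cb ℓ V Δ)
    ((2 ^ Fintype.card V + 1) * (2 ^ Fintype.card V * 6)) (by positivity) (by positivity)
    (Fintype.card V) C.N hC.pos (Nat.card F : ℝ) hq (ε / T) (by positivity)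
  refine ⟨n₀, fun n hn G hG => ?_⟩
  obtain ⟨z, hz, hzn, hb⟩ := h n hn
  refine (ang_bound χ C hC Δ hΔ G hG n z hz hzn).trans ?_
  rw [← hTd]
  rw [le_div_iff₀ hT0] at hb
  have h1 := mul_le_mul_of_nonneg_right hb (hqn n).le
  have hc : 0 ≤ (2 ^ Fintype.card V + 1) * (2 ^ Fintype.card V * 6) *
      ((n : ℝ) ^ (-(1 / C.N) : ℝ) * (z : ℝ) ^ Fintype.card V) * (Nat.card F : ℝ) ^ n := by
    positivity
  have h2 := mul_le_mul_of_nonneg_left hT1 hc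
  refine le_trans ?_ h1
  have e1 : 2 ^ Fintype.card V * (2 * (T *
        (Cb ℓ V Δ * (z : ℝ) ^ (Fintype.card V + 1) * (Nat.card F : ℝ) ^ n *
          (n : ℝ) ^ (-(1 / (2 * C.N)) : ℝ)))) +
        (2 ^ Fintype.card V + 1) * (2 ^ Fintype.card V * (6 * (Nat.card F : ℝ) ^ n *
          (n : ℝ) ^ (-(1 / C.N) : ℝ) * (z : ℝ) ^ Fintype.card V)) +
        T * (((n : ℝ) + 1) ^ (Fintype.card V + 1) * (Nat.card F : ℝ) ^ n *
          (Nat.card F : ℝ) ^ (-(z : ℝ) / 4)) =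
      2 ^ Fintype.card V * 2 * Cb ℓ V Δ * (z : ℝ) ^ (Fintype.card V + 1) *
          (n : ℝ) ^ (-(1 / (2 * C.N)) : ℝ) * T * (Nat.card F : ℝ) ^ n +
        (2 ^ Fintype.card V + 1) * (2 ^ Fintype.card V * 6) *
      ((n : ℝ) ^ (-(1 / C.N) : ℝ) * (z : ℝ) ^ Fintype.card V) * (Nat.card F : ℝ) ^ n * 1 +
        ((n : ℝ) + 1) ^ (Fintype.card V + 1) * (Nat.card F : ℝ) ^ (-(z : ℝ) / 4) * T *
          (Nat.card F : ℝ) ^ n := by ring
  rw [e1]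
  linarith [h2]

end Pool.Agent.H94.PM
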