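import Pool.Agent.H94.PM.TOTM
import Pool.Agent.H94.PM.AVU
import Pool.Agent.H94.PM.ANL

set_option autoImplicit false

/-!
# [H94 PM AVM] The average number of classes

`C = CDX B` is good (`cdx_good'`).  Let `M = card (EE X (pf Δ)) ≥ 1`, `G = (1/M) • GK B dt R`, `‖G‖ ≤ 1` (`norm_GK`); `WG` and `AU` are linear in
`G`, so `ang` (with `ε / M`) gives `‖∑ x, WG (GK R) - ∑ U ∈ MaxU, ∑ D, AU (GK R) U (ty D)‖ ≤ ε q^n` for `n ≥ n₀` (`n₀` does not depend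
on `R`).  The left sum is the sum of the statement (`totm`), a real number `≥ 0`; for each `U` and `D`: `AU = 0` if `¬ R (ty D)`
(`avu_zero`) or `Non U` (`avu_non`), and `‖AU‖ ≤ 1` otherwise (`hcl`, `avu_std1`, `avu_std2`).  So the norm of the double sum is at most
`#{U ∈ MaxU | ¬ Non U} * #{D ∈ Cls Δ n | R (ty D)} ≤ k * card X * #{..}`.
-/

namespace Pool.Agent.H94.PM

open Polynomial
open Pool.Agent.H94.PL
open Pool.Agent.H94.PC (Mo Sq Pr pf om Mn mem_Mo mem_Sq mem_Pr mem_pf mem_pf' part)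

variable {ℓ : ℕ} [hl : Fact ℓ.Prime] {X : Type} [AddCommGroup X] [Module (ZMod ℓ) X] [Fintype X]
  [DecidableEq X] (B : X →ₗ[ZMod ℓ] X →ₗ[ZMod ℓ] ZMod ℓ)
  {F : Type} [Field F] [Finite F] (χ : LChar F ℓ) {Δ : F[X]}

theorem wg_smul (C : CD (X × X) ℓ) (c : ℂ) (G : (X × X → Tp ℓ (pf Δ)) → ℂ) (n : ℕ)
    (x : X × X → Mn F n) :
    WG χ C Δ (fun τ => c * G τ) n x = c * WG χ C Δ G n x := by
  unfold WG
  split_ifs
  · ring
  · rw [mul_zero]

theorem au_smul (C : CD (X × X) ℓ) (c : ℂ) (G : (X × X → Tp ℓ (pf Δ)) → ℂ)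
    (U : Finset (X × X)) (t : Tp ℓ (pf Δ)) :
    AU χ C Δ (fun τ => c * G τ) U t = c * AU χ C Δ G U t := by
  unfold AU
  rw [mul_left_comm]
  congr 1
  rw [Finset.mul_sum]
  apply Finset.sum_congr rfl
  intro τ _
  split_ifs
  · ring
  · rw [mul_zero]

open Classical in
theorem au_le (hB : BGood B) (dt : Dat ℓ X (pf Δ))
    (hW : ∀ t, Nat.card (dt.W t) ≤ Fintype.card X ^ (Fintype.card (pf Δ) + 1))
    (R : Tp ℓ (pf Δ) → Prop) (U : Finset (X × X)) (hU : Std1 U ∨ Std2 U ∨ Non B dt U)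
    (t : Tp ℓ (pf Δ)) :
    ‖AU χ (CDX B) Δ (GK B dt R) U t‖ ≤ (if ¬ Non B dt U then (1 : ℝ) else 0) *
      (if R t then (1 : ℝ) else 0) := by
  by_cases hR : R t
  · by_cases hn : Non B dt U
    · rw [avu_non B χ dt R U hn t, if_neg (not_not.2 hn), norm_zero, zero_mul]
    · rw [if_pos hn, if_pos hR, mul_one]
      rcases hU with h | h | h
      · exact avu_std1 B χ dt hB R U h t
      · exact avu_std2 B χ dt hW R U h t
      · exact absurd h hn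
  · rw [avu_zero B χ dt R U t hR]
    simp [hR]

open Classical in
theorem avm (hB : BGood B) (hΔ : Δ ≠ 0) (dt : Dat ℓ X (pf Δ))
    (hW : ∀ t, Nat.card (dt.W t) ≤ Fintype.card X ^ (Fintype.card (pf Δ) + 1)) (k : ℕ)
    (hcl : ∀ U ∈ MaxU (CDX B), Std1 U ∨ Std2 U ∨ Non B dt U)
    (hk : ((MaxU (CDX B)).filter fun U => ¬ Non B dt U).card ≤ k * Fintype.card X)
    (ε : ℝ) (hε : 0 < ε) : ∃ n₀ : ℕ, ∀ n : ℕ, n₀ ≤ n → ∀ R : Tp ℓ (pf Δ) → Prop,
      ∑ D ∈ Cls Δ n, (if R (ty χ Δ D) then (Nat.card (KM χ dt D) : ℝ) else 0) ≤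
        k * (Fintype.card X : ℝ) * (((Cls Δ n).filter fun D => R (ty χ Δ D)).card : ℝ) +
          ε * (Nat.card F : ℝ) ^ n := by
  have hM : 0 < Fintype.card (EE X (pf Δ)) := Fintype.card_pos_iff.2 ⟨0⟩
  set M : ℝ := (Fintype.card (EE X (pf Δ)) : ℝ) with hMd
  have hM0 : 0 < M := by rw [hMd]; exact_mod_cast hM
  obtain ⟨n₀, h⟩ := ang χ (CDX B) (cdx_good' B hB) Δ hΔ (ε / M) (by positivity)
  refine ⟨n₀, fun n hn R => ?_⟩
  have h1 := h n hn (fun τ => (M : ℂ)⁻¹ * GK B dt R τ) (by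
    intro τ
    rw [norm_mul, norm_inv, Complex.norm_real, Real.norm_of_nonneg hM0.le, inv_mul_le_iff₀ hM0,
      mul_one]
    exact norm_GK B dt R τ)
  have e1 : ∑ x : X × X → Mn F n, WG χ (CDX B) Δ (fun τ => (M : ℂ)⁻¹ * GK B dt R τ) n x =
      (M : ℂ)⁻¹ * ∑ x : X × X → Mn F n, WG χ (CDX B) Δ (GK B dt R) n x := by
    rw [Finset.mul_sum]
    exact Finset.sum_congr rfl fun x _ => wg_smul χ (CDX B) _ _ n x
  have e2 : ∑ U ∈ MaxU (CDX B), ∑ D ∈ Cls Δ n,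
      AU χ (CDX B) Δ (fun τ => (M : ℂ)⁻¹ * GK B dt R τ) U (ty χ Δ D) =
      (M : ℂ)⁻¹ * ∑ U ∈ MaxU (CDX B), ∑ D ∈ Cls Δ n,
        AU χ (CDX B) Δ (GK B dt R) U (ty χ Δ D) := by
    rw [Finset.mul_sum]
    refine Finset.sum_congr rfl fun U _ => ?_
    rw [Finset.mul_sum]
    exact Finset.sum_congr rfl fun D _ => au_smul χ (CDX B) _ _ U _
  rw [e1, e2, ← mul_sub, norm_mul, norm_inv, Complex.norm_real, Real.norm_of_nonneg hM0.le,
    inv_mul_le_iff₀ hM0] at h1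
  have h2 : M * (ε / M * (Nat.card F : ℝ) ^ n) = ε * (Nat.card F : ℝ) ^ n := by
    field_simp
  rw [h2, ← totm B χ dt hB R n] at h1
  have h3 : ‖∑ U ∈ MaxU (CDX B), ∑ D ∈ Cls Δ n, AU χ (CDX B) Δ (GK B dt R) U (ty χ Δ D)‖ ≤
      k * (Fintype.card X : ℝ) * (((Cls Δ n).filter fun D => R (ty χ Δ D)).card : ℝ) := by
    calc ‖∑ U ∈ MaxU (CDX B), ∑ D ∈ Cls Δ n, AU χ (CDX B) Δ (GK B dt R) U (ty χ Δ D)‖
        ≤ ∑ U ∈ MaxU (CDX B), ∑ D ∈ Cls Δ n, (if ¬ Non B dt U then (1 : ℝ) else 0) *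
            (if R (ty χ Δ D) then (1 : ℝ) else 0) := by
          refine (norm_sum_le _ _).trans (Finset.sum_le_sum fun U hU => ?_)
          refine (norm_sum_le _ _).trans (Finset.sum_le_sum fun D _ => ?_)
          exact au_le B χ hB dt hW R U (hcl U hU) _
      _ = (((MaxU (CDX B)).filter fun U => ¬ Non B dt U).card : ℝ) *
            (((Cls Δ n).filter fun D => R (ty χ Δ D)).card : ℝ) := by
          rw [← Finset.sum_mul_sum, Finset.sum_boole, Finset.sum_boole]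
      _ ≤ k * (Fintype.card X : ℝ) * (((Cls Δ n).filter fun D => R (ty χ Δ D)).card : ℝ) := by
          apply mul_le_mul_of_nonneg_right _ (Nat.cast_nonneg _)
          exact_mod_cast hk
  have h4 : ((∑ D ∈ Cls Δ n, (if R (ty χ Δ D) then (Nat.card (KM χ dt D) : ℝ) else 0) : ℝ) : ℂ) =
      ∑ D ∈ Cls Δ n, (if R (ty χ Δ D) then (Nat.card (KM χ dt D) : ℂ) else 0) := by
    rw [Complex.ofReal_sum]
    refine Finset.sum_congr rfl fun D _ => ?_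
    split_ifs
    · simp
    · simp
  have h5 : 0 ≤ ∑ D ∈ Cls Δ n, (if R (ty χ Δ D) then (Nat.card (KM χ dt D) : ℝ) else 0) := by
    refine Finset.sum_nonneg fun D _ => ?_
    split_ifs
    · exact Nat.cast_nonneg _
    · exact le_rfl
  have h6 : ∑ D ∈ Cls Δ n, (if R (ty χ Δ D) then (Nat.card (KM χ dt D) : ℝ) else 0) =
      ‖∑ D ∈ Cls Δ n, (if R (ty χ Δ D) then (Nat.card (KM χ dt D) : ℂ) else 0)‖ := by
    rw [← h4, Complex.norm_real, Real.norm_of_nonneg h5]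
  rw [h6]
  have h7 := norm_le_norm_add_norm_sub'
    (∑ D ∈ Cls Δ n, (if R (ty χ Δ D) then (Nat.card (KM χ dt D) : ℂ) else 0))
    (∑ U ∈ MaxU (CDX B), ∑ D ∈ Cls Δ n, AU χ (CDX B) Δ (GK B dt R) U (ty χ Δ D))
  linarith

end Pool.Agent.H94.PM
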