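import Pool.Agent.H94.PM.CC2
import Pool.Agent.H94.PM.PAR
import Pool.Agent.H94.PM.FT

set_option autoImplicit false

/-!
# [H94 PM CC3] A property of the types which changes with the type at `v0` holds for half of the polynomials

`σ t = 1` if `R t`, `-1` otherwise; `σ (flip v0 t) = - σ t`.  Fix `n`, `t = (n, τ)`, `τ : S → ZMod 2`, `s = card S`.  Fourier expansion on `S → ZMod 2`:
`σ (n, τ) = 2 ^ (- s) ∑ c, σ' c * ps (∑ v, c v * τ v)`, `σ' c = ∑ τ, σ (n, τ) * ps (- ∑ v, c v * τ v)`, `‖σ' c‖ ≤ 2 ^ s`, and `σ' c = 0` if `c v0 = 0` (replace `τ` by the flipped `τ`); so only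
`c ≠ 0` occur.  `∑ D ∈ Cls Δ n, σ (ty D) = 2 ^ (- s) ∑ c ≠ 0, σ' c * ∑ D, ps (∑ v, c v * lm v D)`, of absolute value at most `2 ^ s * ε' q ^ n` by `cc2` for `n ≥ n₀`
(maximum over `c`; `ε' = 2 ε / 2 ^ s`).  With `a = #{R (ty D)}`, `T = #Cls`: `∑ σ = a - (T - a) = 2 a - T ≥ - 2 ε q ^ n`.
(`ty χ Δ D = (deg D, fun v => lm χ v D)`.)
-/

namespace Pool.Agent.H94.PM

open Polynomial
open Pool.Agent.H94.PL
open Pool.Agent.H94.PC (Mo Sq Pr pf om Mn mem_Mo mem_Sq mem_Pr mem_pf mem_pf')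

private lemma sg_four {S : Type} [Fintype S] [DecidableEq S] (σ : Tp 2 S → ℂ) (t : Tp 2 S) :
    (Fintype.card (Tp 2 S) : ℂ) * σ t =
      ∑ a : Tp 2 S, (∑ t' : Tp 2 S, σ t' * chi a (-t')) * chi a t := by
  have : Fact (Nat.Prime 2) := ⟨Nat.prime_two⟩
  have h1 : ∀ a : Tp 2 S, (∑ t' : Tp 2 S, σ t' * chi a (-t')) * chi a t =
      ∑ t' : Tp 2 S, σ t' * chi (t - t') a := by
    intro a
    rw [Finset.sum_mul]
    refine Finset.sum_congr rfl fun t' _ => ?_
    rw [mul_assoc, ← chi_add_right, chi_comm, neg_add_eq_sub]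
  rw [Finset.sum_congr rfl fun a _ => h1 a, Finset.sum_comm]
  have h2 : ∀ t' : Tp 2 S, ∑ a : Tp 2 S, σ t' * chi (t - t') a =
      if t' = t then σ t * (Fintype.card (Tp 2 S) : ℂ) else 0 := by
    intro t'
    rw [← Finset.mul_sum, sum_chi]
    by_cases h : t' = t
    · subst h; simp
    · rw [if_neg h, if_neg (fun h' => h (sub_eq_zero.1 h').symm), mul_zero]
  rw [Finset.sum_congr rfl fun t' _ => h2 t', Finset.sum_ite_eq', if_pos (Finset.mem_univ _),
    mul_comm]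

private lemma sg_zero {S : Type} [Fintype S] [DecidableEq S] (σ : Tp 2 S → ℂ) (v0 : S)
    (hσ : ∀ t, σ (t + (0, Pi.single v0 1)) = - σ t) (a : Tp 2 S) (ha : a.2 v0 = 0) :
    ∑ t' : Tp 2 S, σ t' * chi a (-t') = 0 := by
  have : Fact (Nat.Prime 2) := ⟨Nat.prime_two⟩
  set e : Tp 2 S := (0, Pi.single v0 1) with he
  have h1 : chi a (-e) = 1 := by
    unfold chi
    rw [show a.1 * (-e).1 + ∑ v, a.2 v * (-e).2 v = 0 from ?_, ps_zero]
    rw [he]
    simp only [Prod.fst_neg, neg_zero, mul_zero, Prod.snd_neg, Pi.neg_apply, zero_add, mul_neg,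
      Finset.sum_neg_distrib, neg_eq_zero]
    refine Finset.sum_eq_zero fun v _ => ?_
    by_cases h : v = v0
    · rw [h, ha, zero_mul]
    · rw [Pi.single_eq_of_ne h, mul_zero]
  have h2 : ∑ t' : Tp 2 S, σ t' * chi a (-t') = ∑ t' : Tp 2 S, -(σ t' * chi a (-t')) := by
    rw [← Equiv.sum_comp (Equiv.addRight e) (fun t' => σ t' * chi a (-t'))]
    refine Finset.sum_congr rfl fun t' _ => ?_
    simp only [Equiv.coe_addRight]
    rw [hσ, neg_add, chi_add_right, h1, mul_one, neg_mul]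
  rw [Finset.sum_neg_distrib] at h2
  exact self_eq_neg.1 h2

open Classical in
theorem cc3 {F : Type} [Field F] [Finite F] (χ : LChar F 2) (hq : 3 ≤ Nat.card F) {Δ : F[X]}
    (hΔ : Δ ≠ 0) (v0 : pf Δ) (R : Tp 2 (pf Δ) → Prop) (hR : ∀ t, R t ↔ ¬ R (flip v0 t))
    (ε : ℝ) (hε : 0 < ε) : ∃ n₀ : ℕ, ∀ n : ℕ, n₀ ≤ n →
      (1 / 2) * ((Cls Δ n).card : ℝ) - ε * (Nat.card F : ℝ) ^ n ≤
        (((Cls Δ n).filter fun D => R (ty χ Δ D)).card : ℝ) := by
  have : Fact (Nat.Prime 2) := ⟨Nat.prime_two⟩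
  set N : ℝ := (Fintype.card (Tp 2 (pf Δ)) : ℝ) with hN
  have hN0 : 0 < N := by
    rw [hN]; exact_mod_cast Fintype.card_pos
  have hε' : 0 < 2 * ε / N := by positivity
  have hch : ∀ c : pf Δ → ZMod 2, ∃ n₀ : ℕ, c ≠ 0 → ∀ n : ℕ, n₀ ≤ n →
      ‖∑ D ∈ Cls Δ n, ps (∑ v, c v * lm χ v.1 D)‖ ≤ (2 * ε / N) * (Nat.card F : ℝ) ^ n := by
    intro c
    by_cases hc : c = 0
    · exact ⟨0, fun h => absurd hc h⟩
    · obtain ⟨n₀, h⟩ := cc2 χ hq hΔ c hc (2 * ε / N) hε'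
      exact ⟨n₀, fun _ => h⟩
  choose f hf using hch
  refine ⟨∑ c, f c, fun n hn => ?_⟩
  set σ : Tp 2 (pf Δ) → ℂ := fun t => if R t then 1 else -1 with hσ
  have hflip : ∀ t : Tp 2 (pf Δ), t + (0, Pi.single v0 1) = flip v0 t := by
    intro t
    refine Prod.ext ?_ ?_
    · simp [flip]
    · funext v
      by_cases h : v = v0
      · subst h
        simp [flip]
      · simp only [flip, Prod.snd_add, Pi.add_apply, Pi.single_eq_of_ne h, add_zero]
        unfold Function.update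
        rw [dif_neg h]
  have hσf : ∀ t, σ (t + (0, Pi.single v0 1)) = - σ t := by
    intro t
    rw [hflip]
    simp only [hσ]
    by_cases h : R t
    · rw [if_pos h, if_neg ((hR t).1 h)]
    · have h' : R (flip v0 t) := by
        by_contra h2
        exact h ((hR t).2 h2)
      rw [if_neg h, if_pos h', neg_neg]
  have hσn : ∀ t, ‖σ t‖ ≤ 1 := by
    intro t
    simp only [hσ]
    split_ifs <;> simp
  -- the bound of the sum of signs
  have hmain : ‖∑ D ∈ Cls Δ n, σ (ty χ Δ D)‖ ≤ 2 * ε * (Nat.card F : ℝ) ^ n := by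
    have h1 : (Fintype.card (Tp 2 (pf Δ)) : ℂ) * ∑ D ∈ Cls Δ n, σ (ty χ Δ D) =
        ∑ a : Tp 2 (pf Δ), (∑ t' : Tp 2 (pf Δ), σ t' * chi a (-t')) *
          ∑ D ∈ Cls Δ n, chi a (ty χ Δ D) := by
      rw [Finset.mul_sum, Finset.sum_congr rfl fun D _ => sg_four σ (ty χ Δ D), Finset.sum_comm]
      exact Finset.sum_congr rfl fun a _ => (Finset.mul_sum _ _ _).symm
    have h2 : ∀ a : Tp 2 (pf Δ), ‖(∑ t' : Tp 2 (pf Δ), σ t' * chi a (-t')) *
        ∑ D ∈ Cls Δ n, chi a (ty χ Δ D)‖ ≤ N * ((2 * ε / N) * (Nat.card F : ℝ) ^ n) := by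
      intro a
      by_cases ha : a.2 v0 = 0
      · rw [sg_zero σ v0 hσf a ha, zero_mul, norm_zero]
        positivity
      · have hc : a.2 ≠ 0 := fun h => ha (by rw [h]; rfl)
        rw [norm_mul]
        refine mul_le_mul ?_ ?_ (norm_nonneg _) hN0.le
        · refine (norm_sum_le _ _).trans ?_
          refine (Finset.sum_le_sum (g := fun _ => (1 : ℝ)) fun t _ => ?_).trans ?_
          · rw [norm_mul, norm_chi, mul_one]
            exact hσn t
          · rw [Finset.sum_const, Finset.card_univ, nsmul_eq_mul, mul_one]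
        · have h3 : ∑ D ∈ Cls Δ n, chi a (ty χ Δ D) =
              ps (a.1 * (n : ZMod 2)) * ∑ D ∈ Cls Δ n, ps (∑ v, a.2 v * lm χ v.1 D) := by
            rw [Finset.mul_sum]
            refine Finset.sum_congr rfl fun D hD => ?_
            rw [← ps_add]
            unfold chi ty
            rw [(mem_Cls.1 hD).2.1]
          rw [h3, norm_mul, norm_ps, one_mul]
          exact hf a.2 hc n (le_trans (Finset.single_le_sum (f := f) (fun _ _ => Nat.zero_le _)
            (Finset.mem_univ a.2)) hn)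
    have h4 : N * ‖∑ D ∈ Cls Δ n, σ (ty χ Δ D)‖ ≤ N * (N * ((2 * ε / N) *
        (Nat.card F : ℝ) ^ n)) := by
      have h5 : N * ‖∑ D ∈ Cls Δ n, σ (ty χ Δ D)‖ =
          ‖(Fintype.card (Tp 2 (pf Δ)) : ℂ) * ∑ D ∈ Cls Δ n, σ (ty χ Δ D)‖ := by
        rw [norm_mul, Complex.norm_natCast]
      rw [h5, h1]
      refine (norm_sum_le _ _).trans ((Finset.sum_le_sum fun a _ => h2 a).trans ?_)
      rw [Finset.sum_const, Finset.card_univ, nsmul_eq_mul]
    have h6 := le_of_mul_le_mul_left h4 hN0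
    refine h6.trans (le_of_eq ?_)
    field_simp
  -- counting
  have hcount : ∑ D ∈ Cls Δ n, σ (ty χ Δ D) =
      ((2 * (((Cls Δ n).filter fun D => R (ty χ Δ D)).card : ℝ) - ((Cls Δ n).card : ℝ) : ℝ) :
        ℂ) := by
    have h7 := Finset.card_filter_add_card_filter_not (s := Cls Δ n)
      (fun D => R (ty χ Δ D))
    simp only [hσ]
    rw [Finset.sum_ite, Finset.sum_const, Finset.sum_const, nsmul_eq_mul, nsmul_eq_mul]
    rw [← h7]
    push_cast
    ring
  rw [hcount, Complex.norm_real, Real.norm_eq_abs] at hmain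
  have h8 := neg_le_of_abs_le hmain
  linarith

end Pool.Agent.H94.PM
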