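import Pool.Agent.H94.PM.KD
import Pool.Agent.H94.PL.Tot

set_option autoImplicit false

/-!
# [H94 PM TOTM] The number of classes as a sum of weights

Fix `D ∈ Cls Δ n`, `N = card X`.  `Nat.card (KM χ dt D) = ∑ ε, ∑ x : pf D → X, [(ε, xi x) ∈ W (ty D)] * ∏ P, [EM (ε, x) P = 0]` and
`[e = 0] = (1/N) ∑ c, ps (B c e)` (`PL.Fou.ort_X`; `BGood` symmetric), so with `z P = (x P, c P)`
`Nat.card KM = ∑ z : pf D → X × X, (1/N) ^ om D * ∑ ε, [(ε, xi (z ·).1) ∈ W (ty D)] * ps (∑ P, B (z P).2 (EM (ε, (z ·).1) P))`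
(compare `PL.Fou.fou`; `om D = card (pf D)`).
Let `τ u = ty χ Δ (part D z u)`.  Then (`PL.Tot.tot_deg`, `tot_lmr`, `tot_pair`, `tot_grp`, `tot_grp2`, as in the proof of `tot_termL`,
`tot_term`):
* `∑ u, τ u = ty χ Δ D` (`∏ u, part D z u = D`, or the sums over `P`);
* `tens τ = xi χ Δ D (z ·).1`;
* `∑ P, B (z P).2 (EM (ε, (z ·).1) P) = phs B dt ε τ + ∑ u, ∑ w, Phi u w * lm (part w) (part u)`, since
  `∑ P, ∑ Q, lm Q P * B (z P).2 ((z Q).1 - (z P).1)` is the double sum with `Phi u w = B u.2 (w.1 - u.1)`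
  (the terms `z P = z Q` vanish), `∑ P, deg P * B (z P).2 (κ + bet (z P).1) = ∑ u, (τ u).1 * B u.2 (κ + bet u.1)`, and the same for
  the last part.
So `[R (ty D)] * Nat.card KM = ∑ z, (1/N) ^ om D * GK B dt R τ * ∏ u, ∏ w, ps (Phi u w * lm (part w) (part u))`, and
`PL.Sm.tupc` turns `∑ D ∈ Cls Δ n, ∑ z` into the sum over `x : X × X → Mn F n` of `WG` (`(CDX B).N = card X`).
-/

namespace Pool.Agent.H94.PM

open Polynomial
open Pool.Agent.H94.PL
open Pool.Agent.H94.PC (Mo Sq Pr pf om Mn mem_Mo mem_Sq mem_Pr mem_pf mem_pf' part)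

variable {ℓ : ℕ} [hl : Fact ℓ.Prime] {X : Type} [AddCommGroup X] [Module (ZMod ℓ) X] [Fintype X]
  [DecidableEq X] (B : X →ₗ[ZMod ℓ] X →ₗ[ZMod ℓ] ZMod ℓ)
  {F : Type} [Field F] [Finite F] (χ : LChar F ℓ) {Δ : F[X]} (dt : Dat ℓ X (pf Δ))

theorem totm_grpM {ι κ M : Type} [Fintype ι] [Fintype κ] [DecidableEq κ] [AddCommGroup M]
    [Module (ZMod ℓ) M] (z : ι → κ) (a : ι → ZMod ℓ) (f : κ → M) :
    ∑ u, (∑ P, if z P = u then a P else 0) • f u = ∑ P, a P • f (z P) := by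
  simp only [Finset.sum_smul, ite_smul, zero_smul]
  rw [Finset.sum_comm]
  refine Finset.sum_congr rfl fun P _ => ?_
  rw [Finset.sum_ite_eq]
  simp

theorem totm_cop {n : ℕ} {D : F[X]} (hD : D ∈ Cls Δ n) (P : pf D) (v : pf Δ) :
    IsCoprime v.1 P.1 := by
  obtain ⟨hD1, hD2, hD3, hD4⟩ := mem_Cls.1 hD
  have h1 : IsCoprime D v.1 := hD4.of_isCoprime_of_dvd_right (mem_pf' v.2).2.2
  exact (h1.of_isCoprime_of_dvd_left (mem_pf' P.2).2.2).symm

theorem totm_copp {κ : Type} [Fintype κ] [DecidableEq κ] {n : ℕ} {D : F[X]} (hD : D ∈ Cls Δ n)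
    (z : pf D → κ) (u : κ) (v : pf Δ) : IsCoprime v.1 (part D z u) := by
  unfold part
  apply IsCoprime.prod_right
  intro P _
  split_ifs with h
  · exact totm_cop hD P v
  · exact isCoprime_one_right

theorem totm_sum {κ : Type} [Fintype κ] [DecidableEq κ] {n : ℕ} {D : F[X]} (hD : D ∈ Cls Δ n)
    (z : pf D → κ) : ∑ u, ty χ Δ (part D z u) = ty χ Δ D := by
  obtain ⟨hD1, hD2, hD3, hD4⟩ := mem_Cls.1 hD
  refine Prod.ext ?_ ?_
  · rw [Prod.fst_sum]
    have h : D.natDegree = ∑ u, (part D z u).natDegree := by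
      conv_lhs => rw [← PC.part_prod hD1 hD3 z]
      exact natDegree_prod_of_monic _ _ (fun u _ => PC.part_monic D z u)
    show ∑ u, ((part D z u).natDegree : ZMod ℓ) = (D.natDegree : ZMod ℓ)
    rw [h, Nat.cast_sum]
  · rw [Prod.snd_sum]
    funext v
    rw [Finset.sum_apply]
    show ∑ u, lm χ v.1 (part D z u) = lm χ v.1 D
    conv_rhs => rw [← PC.part_prod hD1 hD3 z]
    rw [lm_prod_right]
    · intro u _
      exact PC.part_monic D z u
    · intro u _
      exact totm_copp hD z u v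

theorem totm_fst {κ : Type} [Fintype κ] [DecidableEq κ] {D : F[X]} (z : pf D → κ) (u : κ) :
    (ty χ Δ (part D z u)).1 = ∑ P : pf D, if z P = u then (P.1.natDegree : ZMod ℓ) else 0 :=
  tot_deg D z u

theorem totm_snd {κ : Type} [Fintype κ] [DecidableEq κ] {n : ℕ} {D : F[X]} (hD : D ∈ Cls Δ n)
    (z : pf D → κ) (u : κ) (v : pf Δ) :
    (ty χ Δ (part D z u)).2 v = ∑ P : pf D, if z P = u then lm χ v.1 P.1 else 0 :=
  tot_lmr χ D z u v.1 (fun P _ => totm_cop hD P v)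

theorem totm_tens {n : ℕ} {D : F[X]} (hD : D ∈ Cls Δ n) (z : pf D → X × X) :
    tens (fun u => ty χ Δ (part D z u)) = xi χ Δ D (fun P => (z P).1) := by
  refine Prod.ext ?_ ?_
  · show ∑ u : X × X, (ty χ Δ (part D z u)).1 • u.1 = ∑ P : pf D, (P.1.natDegree : ZMod ℓ) • (z P).1
    rw [Finset.sum_congr rfl fun u _ => by rw [totm_fst χ z u]]
    exact totm_grpM z (fun P => (P.1.natDegree : ZMod ℓ)) (fun u : X × X => u.1)
  · funext v
    show ∑ u : X × X, (ty χ Δ (part D z u)).2 v • u.1 = ∑ P : pf D, lm χ v.1 P.1 • (z P).1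
    rw [Finset.sum_congr rfl fun u _ => by rw [totm_snd χ hD z u v]]
    exact totm_grpM z (fun P => lm χ v.1 P.1) (fun u : X × X => u.1)

omit [AddCommGroup X] [Module (ZMod ℓ) X] in
theorem totm_pair (C : CD (X × X) ℓ) (hself : ∀ u, C.Phi u u = 0) (D : F[X])
    (z : pf D → X × X) :
    ∑ u, ∑ w, C.Phi u w * lm χ (part D z w) (part D z u) =
      ∑ P : pf D, ∑ Q : pf D, C.Phi (z P) (z Q) * lm χ Q.1 P.1 := by
  have h1 : ∀ u w, C.Phi u w * lm χ (part D z w) (part D z u)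
      = ∑ P : pf D, ∑ Q : pf D,
        (if z P = u then (if z Q = w then C.Phi u w * lm χ Q.1 P.1 else 0) else 0) := by
    intro u w
    by_cases h : u = w
    · subst h
      rw [hself, zero_mul]
      refine (Finset.sum_eq_zero fun P _ => Finset.sum_eq_zero fun Q _ => ?_).symm
      rw [zero_mul]
      split_ifs <;> rfl
    · rw [tot_pair χ D z u w h, Finset.mul_sum]
      refine Finset.sum_congr rfl fun P _ => ?_
      rw [Finset.mul_sum]
      refine Finset.sum_congr rfl fun Q _ => ?_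
      split_ifs <;> simp
  rw [Finset.sum_congr rfl fun u _ => Finset.sum_congr rfl fun w _ => h1 u w]
  exact tot_grp2 z (fun u w P Q => C.Phi u w * lm χ Q.1 P.1)

/-- the exponent -/
theorem totm_exp {n : ℕ} {D : F[X]} (hD : D ∈ Cls Δ n) (z : pf D → X × X)
    (ε : EE X (pf Δ)) :
    ∑ P : pf D, B (z P).2 (EM χ dt D (ε, fun P => (z P).1) P) =
      phs B dt ε (fun u => ty χ Δ (part D z u)) +
        ∑ u, ∑ w, (CDX B).Phi u w * lm χ (part D z w) (part D z u) := by
  rw [totm_pair χ (CDX B) (fun u => by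
    show B u.2 (u.1 - u.1) = 0
    rw [sub_self, map_zero]) D z]
  have e1 : ∀ P : pf D, B (z P).2 (EM χ dt D (ε, fun P => (z P).1) P) =
      ∑ Q : pf D, (CDX B).Phi (z P) (z Q) * lm χ Q.1 P.1 +
      ((P.1.natDegree : ZMod ℓ) * B (z P).2 (ε.1 + dt.bet (z P).1) +
        ∑ v : pf Δ, lm χ v.1 P.1 * B (z P).2 (ε.2 v + dt.L v (z P).1)) := by
    intro P
    unfold EM
    rw [map_add, map_add, map_sum, map_sum, map_smul, smul_eq_mul, add_assoc]
    congr 1
    · refine Finset.sum_congr rfl fun Q _ => ?_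
      rw [map_smul, smul_eq_mul, mul_comm]
      rfl
    · congr 1
      refine Finset.sum_congr rfl fun v _ => ?_
      rw [map_smul, smul_eq_mul]
  rw [Finset.sum_congr rfl fun P _ => e1 P, Finset.sum_add_distrib, add_comm]
  congr 1
  unfold phs
  rw [Finset.sum_add_distrib, Finset.sum_add_distrib]
  congr 1
  · have h := totm_grpM (ℓ := ℓ) z (fun P => (P.1.natDegree : ZMod ℓ))
      (fun u : X × X => B u.2 (ε.1 + dt.bet u.1))
    rw [Finset.sum_congr rfl fun (u : X × X) _ => by rw [totm_fst χ z u]]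
    exact h.symm
  · rw [Finset.sum_comm, Finset.sum_comm (s := (Finset.univ : Finset (X × X)))]
    refine Finset.sum_congr rfl fun v _ => ?_
    have h := totm_grpM (ℓ := ℓ) z (fun P => lm χ v.1 P.1)
      (fun u : X × X => B u.2 (ε.2 v + dt.L v u.1))
    rw [Finset.sum_congr rfl fun (u : X × X) _ => by rw [totm_snd χ hD z u v]]
    exact h.symm

theorem totm_inst {α : Type} (i1 i2 : Fintype α) (f : α → ℂ) :
    @Finset.sum α ℂ _ (@Finset.univ α i1) f = @Finset.sum α ℂ _ (@Finset.univ α i2) f := by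
  have h : i1 = i2 := Subsingleton.elim _ _
  rw [h]

open Classical in
/-- the Fourier expansion of the number of classes -/
theorem totm_fou (hB : BGood B) (D : F[X]) :
    (Nat.card (KM χ dt D) : ℂ) = ∑ z : pf D → X × X, (1 / (Fintype.card X : ℂ)) ^ om D *
      ∑ ε : EE X (pf Δ), if (ε, xi χ Δ D (fun P => (z P).1)) ∈ dt.W (ty χ Δ D) then
        ps (∑ P : pf D, B (z P).2 (EM χ dt D (ε, fun P => (z P).1) P)) else 0 := by
  have hN : (Fintype.card X : ℂ) ≠ 0 := by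
    have : Fintype.card X ≠ 0 := Fintype.card_ne_zero
    exact_mod_cast this
  have h1 : (Nat.card (KM χ dt D) : ℂ) =
      ∑ w : EE X (pf Δ) × (pf D → X), if w ∈ KM χ dt D then (1 : ℂ) else 0 := by
    rw [Finset.sum_boole]
    congr 1
    rw [Nat.card_eq_fintype_card]
    exact Fintype.card_subtype _
  have key : ∀ w : EE X (pf Δ) × (pf D → X), (if w ∈ KM χ dt D then (1 : ℂ) else 0) =
      ∑ c : pf D → X, (1 / (Fintype.card X : ℂ)) ^ om D *
        if (w.1, xi χ Δ D w.2) ∈ dt.W (ty χ Δ D) then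
          ps (∑ P : pf D, B (c P) (EM χ dt D w P)) else 0 := by
    intro w
    obtain ⟨e2, e2'⟩ := fou_prod (ι := pf D) (A := X)
      (fun P e => ps (B e (EM χ dt D w P))) (fun P => EM χ dt D w P = 0)
      (Fintype.card X : ℂ) (fun P hP => by rw [ort_X B hB, if_pos hP])
      (fun P hP => by rw [ort_X B hB, if_neg hP])
    by_cases ha : (w.1, xi χ Δ D w.2) ∈ dt.W (ty χ Δ D)
    · simp only [if_pos ha, ps_sum]
      rw [← Finset.mul_sum]
      by_cases hb : ∀ P, EM χ dt D w P = 0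
      · rw [if_pos ((mem_KM χ dt D).2 ⟨ha, hb⟩)]
        have e3 := e2 hb
        rw [Fintype.card_coe] at e3
        refine Eq.trans ?_ (congrArg (fun t => (1 / (Fintype.card X : ℂ)) ^ om D * t) e3.symm)
        show 1 = (1 / (Fintype.card X : ℂ)) ^ om D * (Fintype.card X : ℂ) ^ (pf D).card
        rw [om, ← mul_pow, one_div, inv_mul_cancel₀ hN, one_pow]
      · rw [if_neg (fun h => hb ((mem_KM χ dt D).1 h).2)]
        have e3 := e2' hb
        refine Eq.trans ?_ (congrArg (fun t => (1 / (Fintype.card X : ℂ)) ^ om D * t) e3.symm)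
        show 0 = (1 / (Fintype.card X : ℂ)) ^ om D * 0
        rw [mul_zero]
    · rw [if_neg (fun h => ha ((mem_KM χ dt D).1 h).1)]
      simp only [if_neg ha, mul_zero, Finset.sum_const_zero]
  let E : (EE X (pf Δ) × (pf D → X)) × (pf D → X) ≃ (pf D → X × X) × EE X (pf Δ) :=
    { toFun := fun a => (fun P => (a.1.2 P, a.2 P), a.1.1)
      invFun := fun b => ((b.2, fun P => (b.1 P).1), fun P => (b.1 P).2)
      left_inv := fun a => rfl
      right_inv := fun b => rfl }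
  let f : (EE X (pf Δ) × (pf D → X)) × (pf D → X) → ℂ := fun a =>
    (1 / (Fintype.card X : ℂ)) ^ om D *
        if (a.1.1, xi χ Δ D a.1.2) ∈ dt.W (ty χ Δ D) then
          ps (∑ P : pf D, B (a.2 P) (EM χ dt D a.1 P)) else 0
  let g : (pf D → X × X) × EE X (pf Δ) → ℂ := fun b =>
    (1 / (Fintype.card X : ℂ)) ^ om D *
        if (b.2, xi χ Δ D (fun P => (b.1 P).1)) ∈ dt.W (ty χ Δ D) then
          ps (∑ P : pf D, B (b.1 P).2 (EM χ dt D (b.2, fun P => (b.1 P).1) P)) else 0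
  have h0 : ∀ a, f a = g (E a) := fun a => rfl
  have h2 : ∑ w : EE X (pf Δ) × (pf D → X), ∑ c : pf D → X, f (w, c) = ∑ a, f a :=
    (Fintype.sum_prod_type f).symm
  have h3 : ∑ b, g b = ∑ z : pf D → X × X, ∑ ε : EE X (pf Δ), g (z, ε) :=
    Fintype.sum_prod_type g
  rw [h1, Finset.sum_congr rfl (fun w _ => key w)]
  refine Eq.trans (h2.trans ((Fintype.sum_equiv E f g h0).trans h3)) ?_
  refine Finset.sum_congr rfl fun z _ => ?_
  rw [Finset.mul_sum]

open Classical in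
theorem totm_one (hB : BGood B) (R : Tp ℓ (pf Δ) → Prop) {n : ℕ} {D : F[X]} (hD : D ∈ Cls Δ n) :
    (if R (ty χ Δ D) then (Nat.card (KM χ dt D) : ℂ) else 0) =
      ∑ z : pf D → X × X, (1 / (Fintype.card X : ℂ)) ^ om D *
        GK B dt R (fun u => ty χ Δ (part D z u)) *
        ∏ u, ∏ w, ps ((CDX B).Phi u w * lm χ (part D z w) (part D z u)) := by
  by_cases hR : R (ty χ Δ D)
  · rw [if_pos hR, totm_fou B χ dt hB D]
    refine Finset.sum_congr rfl fun z _ => ?_
    rw [mul_assoc]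
    congr 1
    rw [Finset.prod_congr rfl fun u _ => (ps_sum Finset.univ fun w =>
      (CDX B).Phi u w * lm χ (part D z w) (part D z u)).symm, ← ps_sum]
    unfold GK
    rw [totm_sum χ hD z, if_pos hR, totm_tens χ hD z, Finset.sum_mul]
    refine (Finset.sum_congr rfl fun ε _ => ?_).trans (totm_inst _ _ _)
    rw [totm_exp B χ dt hD z ε]
    split_ifs
    · rw [ps_add]
    · rw [zero_mul]
  · rw [if_neg hR]
    refine (Finset.sum_eq_zero fun z _ => ?_).symm
    unfold GK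
    rw [totm_sum χ hD z, if_neg hR, mul_zero, zero_mul]

open Classical in
theorem totm (hB : BGood B) (R : Tp ℓ (pf Δ) → Prop) (n : ℕ) :
    ∑ D ∈ Cls Δ n, (if R (ty χ Δ D) then (Nat.card (KM χ dt D) : ℂ) else 0) =
      ∑ x : X × X → Mn F n, WG χ (CDX B) Δ (GK B dt R) n x := by
  have h1 : ∀ D ∈ Cls Δ n, (if R (ty χ Δ D) then (Nat.card (KM χ dt D) : ℂ) else 0) =
      ∑ z : pf D → X × X, (fun (D : F[X]) (x : X × X → F[X]) => (1 / (Fintype.card X : ℂ)) ^ om D *
        GK B dt R (fun u => ty χ Δ (x u)) *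
        ∏ u, ∏ w, ps ((CDX B).Phi u w * lm χ (x w) (x u))) D (part D z) := fun D hD =>
    totm_one B χ dt hB R hD
  rw [Finset.sum_congr rfl h1]
  have h3 := tupc (κ := X × X) n (Cls Δ n) (fun D hD => by
    obtain ⟨h4, h5, h6, _⟩ := mem_Cls.1 hD
    exact ⟨h4, h6, h5.le⟩)
    (fun (D : F[X]) (x : X × X → F[X]) => (1 / (Fintype.card X : ℂ)) ^ om D *
        GK B dt R (fun u => ty χ Δ (x u)) *
        ∏ u, ∏ w, ps ((CDX B).Phi u w * lm χ (x w) (x u)))
  refine Eq.trans ?_ (h3.trans ?_)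
  · rfl
  · refine Finset.sum_congr rfl fun x _ => ?_
    unfold WG
    rfl

end Pool.Agent.H94.PM
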