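import Pool.Agent.H94.PM.TRV

set_option autoImplicit false

/-!
# [H94 PM WLO] Existence of the local conditions

* `exists_W`: `W a b = Gam U α D A` for a chosen `D ≠ 0` with `(vl D : ZMod ℓ) = a`, `un D = b` if there is one, and `⊥` otherwise; `gam_card`, `gam_congr`.
* `exists_OKl`: `exists_W` for the completion at `v` (complete, uniformizer `toV v v`, `wP_self`; `val_l_P`), `Wl v b = W 0 b`.
* `exists_OKi`: `exists_W` at infinity (`PL.complete_inf`, `unif_inf`, `val_l_inf`), `Wi b = W b (χ.lg c)`.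
-/

namespace Pool.Agent.H94.PM

open Polynomial WithZero IsDedekindDomain
open Pool.Agent.H94.PL
open Pool.Agent.H94.PC (Mo Sq Pr pf om Mn mem_Mo mem_Sq mem_Pr mem_pf mem_pf')

theorem exists_W {M : Type} [Field M] [hv : Valued M ℤᵐ⁰] [CompleteSpace M] {ℓ m : ℕ}
    [hl : Fact ℓ.Prime] (U : LU (Valued.v : Valuation M ℤᵐ⁰) ℓ)
    (hℓ : (Valued.v : Valuation M ℤᵐ⁰) (ℓ : M) = 1) {ϖ : M}
    (hϖ : (Valued.v : Valuation M ℤᵐ⁰) ϖ = exp (-1 : ℤ)) (hm : Nat.Coprime m ℓ) {α : ℕ}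
    (hα : ℓ ∣ α * m + 1) (A : Fin m → M) :
    ∃ W : ZMod ℓ → ZMod ℓ → Submodule (ZMod ℓ) (XX m ℓ × XX m ℓ),
      (∀ a b, Nat.card (W a b) ≤ Nat.card (XX m ℓ)) ∧
      ∀ D : M, D ≠ 0 → Gam U α D A ≤ W (vl Valued.v D : ZMod ℓ) (U.un D) := by
  classical
  refine ⟨fun a b => if h : ∃ D : M, D ≠ 0 ∧ (vl Valued.v D : ZMod ℓ) = a ∧ U.un D = b then
    Gam U α h.choose A else ⊥, ?_, ?_⟩
  · intro a b
    by_cases h : ∃ D : M, D ≠ 0 ∧ (vl Valued.v D : ZMod ℓ) = a ∧ U.un D = b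
    · simp only [dif_pos h]
      exact gam_card U hm hα h.choose_spec.1 A
    · simp only [dif_neg h]
      have h1 : Nat.card ((⊥ : Submodule (ZMod ℓ) (XX m ℓ × XX m ℓ)) : Type) = 1 :=
        Nat.card_unique
      rw [h1]
      haveI : NeZero ℓ := ⟨hl.out.ne_zero⟩
      haveI : Finite (XX m ℓ) := inferInstance
      exact Nat.card_pos
  · intro D hD
    have h : ∃ D' : M, D' ≠ 0 ∧ (vl Valued.v D' : ZMod ℓ) = (vl Valued.v D : ZMod ℓ) ∧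
        U.un D' = U.un D := ⟨D, hD, rfl, rfl⟩
    simp only [dif_pos h]
    exact (gam_congr U hℓ hϖ hD h.choose_spec.1 h.choose_spec.2.1.symm h.choose_spec.2.2.symm
      A).le

variable {F : Type} [Field F] [Finite F] {ℓ m : ℕ} [hl : Fact ℓ.Prime] (χ : LChar F ℓ)

theorem exists_OKl (hq : ℓ ∣ Nat.card F - 1) (hm : Nat.Coprime m ℓ) {α : ℕ}
    (hα : ℓ ∣ α * m + 1) (A : Fin m → F[X]) :
    ∃ Wl : pf (dl A) → ZMod ℓ → Submodule (ZMod ℓ) (XX m ℓ × XX m ℓ),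
      (∀ v b, Nat.card (Wl v b) ≤ Nat.card (XX m ℓ)) ∧ OKl χ α A Wl := by
  have h : ∀ v : pf (dl A), ∃ W : ZMod ℓ → ZMod ℓ → Submodule (ZMod ℓ) (XX m ℓ × XX m ℓ),
      (∀ a b, Nat.card (W a b) ≤ Nat.card (XX m ℓ)) ∧
      ∀ D : (LT.place v.1 (mem_pf' v.2).2.1).adicCompletion (RatFunc F), D ≠ 0 →
        Gam (UV χ v) α D (fun k => toV v (AK A k)) ≤
          W (vl (wP v.1 (mem_pf' v.2).2.1) D : ZMod ℓ) ((UV χ v).un D) := by
    intro v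
    exact exists_W (UV χ v) (val_l_P hq (mem_pf' v.2).2.1) (wP_self v.1 (mem_pf' v.2).2.1) hm hα
      (fun k => toV v (AK A k))
  choose W hW1 hW2 using h
  refine ⟨fun v b => W v 0 b, fun v b => hW1 v 0 b, ?_⟩
  intro v D' hD' h0
  have h1 := hW2 v D' hD'
  rw [h0] at h1
  exact h1

theorem exists_OKi [DecidableEq (RatFunc F)] (hq : ℓ ∣ Nat.card F - 1) (hm : Nat.Coprime m ℓ)
    {α : ℕ} (hα : ℓ ∣ α * m + 1) (c : F) (A : Fin m → F[X]) :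
    ∃ Wi : ZMod ℓ → Submodule (ZMod ℓ) (XX m ℓ × XX m ℓ),
      (∀ b, Nat.card (Wi b) ≤ Nat.card (XX m ℓ)) ∧ OKi χ α c A Wi := by
  haveI := complete_inf F
  obtain ⟨W, hW1, hW2⟩ := exists_W (UI χ) (val_l_inf hq) (unif_inf (F := F)) hm hα
    (fun k => toI F (AK A k))
  refine ⟨fun b => W b (χ.lg c), fun b => hW1 b _, ?_⟩
  intro D' hD' h0
  have h1 := hW2 D' hD'
  rw [h0] at h1
  exact h1

end Pool.Agent.H94.PM
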