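import Pool.Agent.H94.PM.LK
import Pool.Agent.H94.PM.FT
import Pool.Agent.H94.PL.Wsp

set_option autoImplicit false

/-!
# [H94 PM LKG] Two large linked variables, weights `WG`

Expand `G` (`four` with `κ = V`): `G = ∑ ψ, c ψ ∏ chi (ψ u) (τ u)`, so `WG χ C Δ G n x = ∑ ψ, c ψ * WL χ C Δ (fun u => (ψ u).1)
(fun u => (ψ u).2) n x` (`et χ Δ b g u A = chi (b u, g u) (ty χ Δ A)`: `PL.Wsp.wsp_et`), and use `lk_sum'` for each of the
`card (Tp) ^ |V|` characters `ψ` (`Fintype.card_fun`).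
-/

namespace Pool.Agent.H94.PM

open Polynomial
open Pool.Agent.H94.PL
open Pool.Agent.H94.PC (Mo Sq Pr pf om Mn mem_Mo mem_Sq mem_Pr mem_pf mem_pf')

variable {F : Type} [Field F] [Finite F] {ℓ : ℕ} [hl : Fact ℓ.Prime]
  {V : Type} [Fintype V] [DecidableEq V]

open Classical in
theorem lkg_exp (χ : LChar F ℓ) (C : CD V ℓ) (Δ : F[X])
    (G c : (V → Tp ℓ (pf Δ)) → ℂ) (hc : ∀ τ, G τ = ∑ ψ, c ψ * ∏ u, chi (ψ u) (τ u)) (n : ℕ) (x : V → Mn F n) :
    WG χ C Δ G n x = ∑ ψ : V → Tp ℓ (pf Δ), c ψ * WL χ C Δ (fun u => (ψ u).1) (fun u => (ψ u).2) n x := by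
  have het : ∀ (ψ : V → Tp ℓ (pf Δ)) (u : V) (A : F[X]),
      et χ Δ (fun u => (ψ u).1) (fun u => (ψ u).2) u A = chi (ψ u) (ty χ Δ A) := by
    intro ψ u A
    rw [wsp_et]
    rfl
  unfold WG WL
  by_cases h : (∏ u, (x u).1) ∈ Cls Δ n
  · rw [if_pos h, hc, Finset.mul_sum, Finset.sum_mul]
    refine Finset.sum_congr rfl fun ψ _ => ?_
    rw [if_pos h, termL]
    simp only [het]
    ring
  · rw [if_neg h]
    symm
    refine Finset.sum_eq_zero fun ψ _ => ?_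
    rw [if_neg h, mul_zero]

open Classical in
theorem lkg (χ : LChar F ℓ) (C : CD V ℓ) (hC : C.Good) (Δ : F[X])
    (G : (V → Tp ℓ (pf Δ)) → ℂ) (hG : ∀ τ, ‖G τ‖ ≤ 1) (n z : ℕ) (R : (V → ℕ) → Prop)
    (hR : ∀ d, R d → ∃ i j, C.lk i j ≠ 0 ∧ z ≤ d i ∧ z ≤ d j) :
    ‖∑ x : V → Mn F n, (if R fun u => (x u).1.natDegree then WG χ C Δ G n x else 0)‖ ≤
      (Fintype.card (Tp ℓ (pf Δ)) : ℝ) ^ Fintype.card V *
      (((n : ℝ) + 1) ^ (Fintype.card V + 1) * (Nat.card F : ℝ) ^ n *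
        (Nat.card F : ℝ) ^ (-(z : ℝ) / 4)) := by
  obtain ⟨c, hc1, hc⟩ := four G hG
  have h1 : ∑ x : V → Mn F n, (if R fun u => (x u).1.natDegree then WG χ C Δ G n x else 0) =
      ∑ ψ : V → Tp ℓ (pf Δ), c ψ * ∑ x : V → Mn F n, (if R fun u => (x u).1.natDegree then
        WL χ C Δ (fun u => (ψ u).1) (fun u => (ψ u).2) n x else 0) := by
    simp only [Finset.mul_sum]
    rw [Finset.sum_comm]
    refine Finset.sum_congr rfl fun x _ => ?_
    by_cases h : R fun u => (x u).1.natDegree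
    · simp only [if_pos h]
      exact lkg_exp χ C Δ G c hc n x
    · simp only [if_neg h, mul_zero, Finset.sum_const_zero]
  rw [h1]
  refine (norm_sum_le _ _).trans ?_
  have h2 : ∀ ψ ∈ (Finset.univ : Finset (V → Tp ℓ (pf Δ))),
      ‖c ψ * ∑ x : V → Mn F n, (if R fun u => (x u).1.natDegree then
        WL χ C Δ (fun u => (ψ u).1) (fun u => (ψ u).2) n x else 0)‖ ≤
      ((n : ℝ) + 1) ^ (Fintype.card V + 1) * (Nat.card F : ℝ) ^ n *
        (Nat.card F : ℝ) ^ (-(z : ℝ) / 4) := by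
    intro ψ _
    rw [norm_mul]
    have h3 := lk_sum' χ C hC Δ (fun u => (ψ u).1) (fun u => (ψ u).2) n z R hR
    calc _ ≤ 1 * ‖∑ x : V → Mn F n, (if R fun u => (x u).1.natDegree then
        WL χ C Δ (fun u => (ψ u).1) (fun u => (ψ u).2) n x else 0)‖ :=
          mul_le_mul_of_nonneg_right (hc1 ψ) (norm_nonneg _)
      _ ≤ _ := by
        rw [one_mul]
        exact h3
  refine (Finset.sum_le_card_nsmul _ _ _ h2).trans (le_of_eq ?_)
  rw [Finset.card_univ, Fintype.card_fun, nsmul_eq_mul]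
  push_cast
  rfl

end Pool.Agent.H94.PM
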