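import Pool.Agent.H94.PM.TUG
import Pool.Agent.H94.PM.LKG
import Pool.Agent.H94.PL.Ana

set_option autoImplicit false

/-!
# [H94 PM ANG] The main asymptotic formula

`ang_bound`: copy the proof of `PL.Ana.ana_bound` with `WG` instead of `WL`, `lkg` instead of `lk_sum`, `tug` instead of `tu_cst`/`tu_non`:
`‖WG‖ ≤ if ∏ ∈ Cls Δ n then (1/N)^om else 0` (as `norm_WL_le`), `few` for the configurations with less than `N` large variables.
The sets `U` of the decomposition are exactly the elements of `MaxU C`.  With `T = card (Tp) ^ |V|`, `E` the bound of `few`: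
the total error is at most `E + T * (...) + 2^|V| * (2 T (...) + E)`.
`ang`: choose `z` by `PL.AnaLim.anl_real` as in the proof of `PL.AnaLim.ana`.
-/

namespace Pool.Agent.H94.PM

open Polynomial
open Pool.Agent.H94.PL
open Pool.Agent.H94.PC (Mo Sq Pr pf om Mn mem_Mo mem_Sq mem_Pr mem_pf mem_pf')

variable {F : Type} [Field F] [Finite F] {ℓ : ℕ} [hl : Fact ℓ.Prime]
  {V : Type} [Fintype V] [DecidableEq V]

open Classical in
private theorem ang_norm_WG (χ : LChar F ℓ) (C : CD V ℓ) (Δ : F[X])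
    (G : (V → Tp ℓ (pf Δ)) → ℂ) (hG : ∀ τ, ‖G τ‖ ≤ 1) (n : ℕ) (x : V → Mn F n) :
    ‖WG χ C Δ G n x‖ ≤ if (∏ u, (x u).1) ∈ Cls Δ n then
      (1 / (C.N : ℝ)) ^ om (∏ u, (x u).1) else 0 := by
  unfold WG
  by_cases hc : (∏ u, (x u).1) ∈ Cls Δ n
  · rw [if_pos hc, if_pos hc]
    have h2 : ‖∏ u, ∏ w, ps (C.Phi u w * lm χ (x w).1 (x u).1)‖ = 1 := by
      rw [norm_prod]
      refine Finset.prod_eq_one fun u _ => ?_
      rw [norm_prod]
      exact Finset.prod_eq_one fun w _ => norm_ps _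
    rw [norm_mul, norm_mul, h2, mul_one, norm_pow, norm_div, norm_one, Complex.norm_natCast]
    exact mul_le_of_le_one_right (by positivity) (hG _)
  · rw [if_neg hc, if_neg hc, norm_zero]

open Classical in
private theorem ang_few (χ : LChar F ℓ) (C : CD V ℓ) (hC : C.Good) (Δ : F[X])
    (G : (V → Tp ℓ (pf Δ)) → ℂ) (hG : ∀ τ, ‖G τ‖ ≤ 1) (n z : ℕ) (hz : 1 ≤ z)
    (hn : 2 * (Fintype.card V + 1) * z ≤ n) (R : (V → Mn F n) → Prop)
    [DecidablePred R]
    (hR : ∀ x, R x → (Finset.univ.filter fun u => z ≤ (x u).1.natDegree).card < C.N) :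
    ‖∑ x : V → Mn F n, (if R x then WG χ C Δ G n x else 0)‖ ≤
      2 ^ Fintype.card V * (6 * (Nat.card F : ℝ) ^ n * (n : ℝ) ^ (-(1 / C.N) : ℝ) *
        (z : ℝ) ^ Fintype.card V) := by
  refine (norm_sum_le _ _).trans (le_trans (Finset.sum_le_sum fun x _ => ?_)
    (few hC.pos n z hz hn Δ))
  by_cases h1 : R x
  · rw [if_pos h1]
    refine (ang_norm_WG χ C Δ G hG n x).trans ?_
    by_cases h2 : (∏ u, (x u).1) ∈ Cls Δ n
    · rw [if_pos h2, if_pos ⟨h2, hR x h1⟩]
    · rw [if_neg h2, if_neg (fun h => h2 h.1)]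
  · rw [if_neg h1, norm_zero]
    split_ifs
    · positivity
    · exact le_rfl

open Classical in
theorem ang_bound (χ : LChar F ℓ) (C : CD V ℓ) (hC : C.Good) (Δ : F[X]) (hΔ : Δ ≠ 0)
    (G : (V → Tp ℓ (pf Δ)) → ℂ) (hG : ∀ τ, ‖G τ‖ ≤ 1) (n z : ℕ) (hz : 1 ≤ z)
    (hn : 2 * (Fintype.card V + 1) * z ≤ n) :
    ‖∑ x : V → Mn F n, WG χ C Δ G n x -
        ∑ U ∈ MaxU C, ∑ D ∈ Cls Δ n, AU χ C Δ G U (ty χ Δ D)‖ ≤
      2 ^ Fintype.card V * (2 * ((Fintype.card (Tp ℓ (pf Δ)) : ℝ) ^ Fintype.card V *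
        (Cb ℓ V Δ * (z : ℝ) ^ (Fintype.card V + 1) * (Nat.card F : ℝ) ^ n *
          (n : ℝ) ^ (-(1 / (2 * C.N)) : ℝ)))) +
        (2 ^ Fintype.card V + 1) * (2 ^ Fintype.card V * (6 * (Nat.card F : ℝ) ^ n *
          (n : ℝ) ^ (-(1 / C.N) : ℝ) * (z : ℝ) ^ Fintype.card V)) +
        (Fintype.card (Tp ℓ (pf Δ)) : ℝ) ^ Fintype.card V *
        (((n : ℝ) + 1) ^ (Fintype.card V + 1) * (Nat.card F : ℝ) ^ n *
          (Nat.card F : ℝ) ^ (-(z : ℝ) / 4)) := by
  classical
  obtain ⟨FE, hFE⟩ : ∃ FE : ℝ, FE = 2 ^ Fintype.card V * (6 * (Nat.card F : ℝ) ^ n *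
      (n : ℝ) ^ (-(1 / C.N) : ℝ) * (z : ℝ) ^ Fintype.card V) := ⟨_, rfl⟩
  obtain ⟨TE, hTE⟩ : ∃ TE : ℝ, TE = 2 * ((Fintype.card (Tp ℓ (pf Δ)) : ℝ) ^ Fintype.card V *
      (Cb ℓ V Δ * (z : ℝ) ^ (Fintype.card V + 1) * (Nat.card F : ℝ) ^ n *
        (n : ℝ) ^ (-(1 / (2 * C.N)) : ℝ))) := ⟨_, rfl⟩
  have hFE0 : 0 ≤ FE := by
    rw [hFE]
    positivity
  have hTE0 : 0 ≤ TE := by
    have h1 : 0 ≤ Cb ℓ V Δ := by
      unfold Cb Kc
      positivity
    rw [hTE]
    positivity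
  rw [← hFE, ← hTE]
  obtain ⟨J, hJ⟩ : ∃ J : (V → Mn F n) → Finset V,
      J = fun x => Finset.univ.filter fun u => z ≤ (x u).1.natDegree := ⟨_, rfl⟩
  have hJm : ∀ x u, u ∈ J x ↔ z ≤ (x u).1.natDegree := by
    intro x u
    rw [hJ]
    simp
  have hJc : ∀ x, (Finset.univ.filter fun u => z ≤ (x u).1.natDegree) = J x := by
    intro x
    rw [hJ]
  obtain ⟨LU, hLU⟩ : ∃ LU : Finset (Finset V),
      LU = MaxU C := ⟨_, rfl⟩
  have hLUm : ∀ U, U ∈ LU ↔ C.Unl U ∧ U.card = C.N := by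
    intro U
    rw [hLU]
    exact mem_MaxU
  obtain ⟨Lp, hLp⟩ : ∃ Lp : (V → ℕ) → Prop, Lp = fun d =>
      (C.N ≤ (Finset.univ.filter fun u => z ≤ d u).card) ∧
        ∃ i j, C.lk i j ≠ 0 ∧ z ≤ d i ∧ z ≤ d j := ⟨_, rfl⟩
  -- the decomposition
  have hdec : ∀ x : V → Mn F n, WG χ C Δ G n x =
      (if (J x).card < C.N then WG χ C Δ G n x else 0) +
      (if Lp (fun u => (x u).1.natDegree) then WG χ C Δ G n x else 0) +
      ∑ U ∈ LU, (if J x = U then WG χ C Δ G n x else 0) := by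
    intro x
    by_cases h1 : (J x).card < C.N
    · have h3 : ¬ Lp (fun u => (x u).1.natDegree) := by
        rw [hLp]
        intro h
        have h4 := h.1
        rw [hJc x] at h4
        omega
      have h5 : ∑ U ∈ LU, (if J x = U then WG χ C Δ G n x else 0) = 0 := by
        refine Finset.sum_eq_zero fun U hU => ?_
        rw [if_neg]
        rintro rfl
        have := ((hLUm _).1 hU).2
        omega
      rw [if_pos h1, if_neg h3, h5, add_zero, add_zero]
    · by_cases h3 : Lp (fun u => (x u).1.natDegree)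
      · have h5 : ∑ U ∈ LU, (if J x = U then WG χ C Δ G n x else 0) = 0 := by
          refine Finset.sum_eq_zero fun U hU => ?_
          rw [if_neg]
          rintro rfl
          have h6 := ((hLUm _).1 hU).1
          rw [hLp] at h3
          obtain ⟨_, i, j, hij, hi, hj⟩ := h3
          exact hij (h6 i ((hJm x i).2 hi) j ((hJm x j).2 hj))
        rw [if_neg h1, if_pos h3, h5, zero_add, add_zero]
      · have h6 : C.Unl (J x) := by
          intro i hi j hj
          by_contra hcon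
          apply h3
          rw [hLp]
          refine ⟨?_, i, j, hcon, (hJm x i).1 hi, (hJm x j).1 hj⟩
          rw [hJc x]
          omega
        have h7 : (J x).card = C.N := by
          have := hC.card_le (J x) h6
          omega
        rw [if_neg h1, if_neg h3, zero_add, zero_add]
        rw [Finset.sum_eq_single (J x)]
        · rw [if_pos rfl]
        · intro U _ hU
          rw [if_neg (Ne.symm hU)]
        · intro h
          exact absurd ((hLUm _).2 ⟨h6, h7⟩) h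
  have e1 : ∑ x : V → Mn F n, WG χ C Δ G n x =
      ∑ x : V → Mn F n, (if (J x).card < C.N then WG χ C Δ G n x else 0) +
      ∑ x : V → Mn F n, (if Lp (fun u => (x u).1.natDegree) then WG χ C Δ G n x else 0) +
      ∑ U ∈ LU, ∑ x : V → Mn F n, (if J x = U then WG χ C Δ G n x else 0) := by
    rw [Finset.sum_comm, ← Finset.sum_add_distrib, ← Finset.sum_add_distrib]
    exact Finset.sum_congr rfl fun x _ => hdec x
  have b1 : ‖∑ x : V → Mn F n, (if (J x).card < C.N then WG χ C Δ G n x else 0)‖ ≤ FE := by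
    rw [hFE]
    refine ang_few χ C hC Δ G hG n z hz hn (fun x => (J x).card < C.N) fun x hx => ?_
    rw [hJc x]
    exact hx
  have b2 : ‖∑ x : V → Mn F n,
      (if Lp (fun u => (x u).1.natDegree) then WG χ C Δ G n x else 0)‖ ≤
      (Fintype.card (Tp ℓ (pf Δ)) : ℝ) ^ Fintype.card V *
      (((n : ℝ) + 1) ^ (Fintype.card V + 1) * (Nat.card F : ℝ) ^ n *
        (Nat.card F : ℝ) ^ (-(z : ℝ) / 4)) := by
    refine le_trans (le_of_eq ?_) (lkg χ C hC Δ G hG n z Lp fun d hd => ?_)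
    · congr 1
    · rw [hLp] at hd
      exact hd.2
  have b3 : ∀ U ∈ LU, ‖∑ x : V → Mn F n, (if J x = U then WG χ C Δ G n x else 0) -
      ∑ D ∈ Cls Δ n, AU χ C Δ G U (ty χ Δ D)‖ ≤ TE + FE := by
    intro U hU
    obtain ⟨hU1, hU2⟩ := (hLUm U).1 hU
    have hsub : ∀ x : V → Mn F n, (∀ w, w ∉ U → (x w).1.natDegree < z) → J x ⊆ U := by
      intro x hx u hu
      by_contra hcon
      have h3 := hx u hcon
      have h4 := (hJm x u).1 hu
      omega
    have h3 : ∀ x : V → Mn F n, (if J x = U then WG χ C Δ G n x else 0) =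
        (if ∀ w, w ∉ U → (x w).1.natDegree < z then WG χ C Δ G n x else 0) -
        (if (∀ w, w ∉ U → (x w).1.natDegree < z) ∧ J x ≠ U then WG χ C Δ G n x else 0) := by
      intro x
      by_cases h4 : J x = U
      · have h5 : ∀ w, w ∉ U → (x w).1.natDegree < z := by
          intro w hw
          rw [← h4, hJm x w] at hw
          omega
        rw [if_pos h4, if_pos h5, if_neg (fun h => h.2 h4), sub_zero]
      · by_cases h5 : ∀ w, w ∉ U → (x w).1.natDegree < z
        · rw [if_neg h4, if_pos h5, if_pos ⟨h5, h4⟩, sub_self]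
        · rw [if_neg h4, if_neg h5, if_neg (fun h => h5 h.1), sub_zero]
    rw [Finset.sum_congr rfl fun x _ => h3 x, Finset.sum_sub_distrib, sub_right_comm]
    refine (norm_sub_le _ _).trans (add_le_add ?_ ?_)
    · rw [hTE]
      exact tug χ C hC Δ hΔ G hG U hU1 hU2 n z hz hn
    · rw [hFE]
      refine ang_few χ C hC Δ G hG n z hz hn
        (fun x => (∀ w, w ∉ U → (x w).1.natDegree < z) ∧ J x ≠ U) fun x hx => ?_
      rw [hJc x, ← hU2]
      exact Finset.card_lt_card (lt_of_le_of_ne (hsub x hx.1) hx.2)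
  have b4 : ‖∑ U ∈ LU, (∑ x : V → Mn F n, (if J x = U then WG χ C Δ G n x else 0) -
      ∑ D ∈ Cls Δ n, AU χ C Δ G U (ty χ Δ D))‖ ≤ 2 ^ Fintype.card V * (TE + FE) := by
    refine (norm_sum_le _ _).trans ((Finset.sum_le_sum b3).trans ?_)
    rw [Finset.sum_const, nsmul_eq_mul]
    refine mul_le_mul_of_nonneg_right ?_ (add_nonneg hTE0 hFE0)
    have h5 : LU.card ≤ 2 ^ Fintype.card V := by
      rw [← Fintype.card_finset, ← Finset.card_univ]
      exact Finset.card_le_card (Finset.subset_univ _)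
    exact_mod_cast h5
  rw [e1, ← hLU]
  rw [Finset.sum_sub_distrib] at b4
  have b5 := norm_add_le (∑ x : V → Mn F n, (if (J x).card < C.N then WG χ C Δ G n x else 0) +
      ∑ x : V → Mn F n, (if Lp (fun u => (x u).1.natDegree) then WG χ C Δ G n x else 0))
      (∑ U ∈ LU, ∑ x : V → Mn F n, (if J x = U then WG χ C Δ G n x else 0) -
        ∑ U ∈ LU, ∑ D ∈ Cls Δ n, AU χ C Δ G U (ty χ Δ D))
  have b6 := norm_add_le (∑ x : V → Mn F n, (if (J x).card < C.N then WG χ C Δ G n x else 0))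
      (∑ x : V → Mn F n, (if Lp (fun u => (x u).1.natDegree) then WG χ C Δ G n x else 0))
  rw [← add_sub_assoc] at b5
  nlinarith [b1, b2, b4, b5, b6]

end Pool.Agent.H94.PM
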