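import Pool.Agent.H94.PM.RC
import Pool.Agent.H94.PL.Bil

set_option autoImplicit false

/-!
# [H94 PM BL] The symmetric bilinear estimate for a general `ℓ`

This is `PL.Bil.bilin_sym` without `ℓ ≠ 2`: copy its proof (and the private lemma `bsym_aux`, which does not use `ℓ ≠ 2`).
In the second case `A ∈ Sq F m`, `B ∈ Sq F l` are monic, and `cs χ A B = cs χ B A * ps (m * l * lg (-1))` by `cs_recip'`, a
constant factor of absolute value one, which is put into the coefficients (`norm_ps`).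
-/

namespace Pool.Agent.H94.PM

open Polynomial
open Pool.Agent.H94.PL
open Pool.Agent.H94.PC (Mo Sq Pr pf om Mn mem_Mo mem_Sq mem_Pr mem_pf mem_pf')

variable {F : Type} [Field F] [Finite F] {ℓ : ℕ} [hl : Fact ℓ.Prime] (χ : LChar F ℓ)

private theorem bsym_aux' {m l : ℕ} (hml : l ≤ m) (α β : F[X] → ℂ)
    (hα : ∀ A, ‖α A‖ ≤ 1) (hβ : ∀ B, ‖β B‖ ≤ 1) :
    ‖∑ A ∈ Sq F m, ∑ B ∈ Sq F l, α A * β B * cs χ A B‖ ^ 4 ≤
      (m + 1) * (Nat.card F : ℝ) ^ (4 * m + 3 * l) := by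
  classical
  have h1 := bilin χ hml (fun A => if Squarefree A then α A else 0) β
    (fun A => by
      by_cases h : Squarefree A
      · simp only [if_pos h]
        exact hα A
      · simp only [if_neg h, norm_zero]
        exact zero_le_one) hβ
  have e1 : ∑ A ∈ Sq F m, ∑ B ∈ Sq F l, α A * β B * cs χ A B =
      ∑ A ∈ Mo F m, ∑ B ∈ Sq F l, (if Squarefree A then α A else 0) * β B * cs χ A B := by
    have hsub : Sq F m ⊆ Mo F m := by
      intro A hA
      rw [mem_Sq] at hA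
      exact mem_Mo.2 ⟨hA.1, hA.2.1⟩
    rw [← Finset.sum_subset hsub]
    · refine Finset.sum_congr rfl fun A hA => ?_
      rw [if_pos (mem_Sq.1 hA).2.2]
    · intro A hA hA2
      have h : ¬ Squarefree A := fun h => hA2 (mem_Sq.2 ⟨(mem_Mo.1 hA).1, (mem_Mo.1 hA).2, h⟩)
      refine Finset.sum_eq_zero fun B _ => ?_
      rw [if_neg h]
      ring
  rw [e1]
  exact h1

theorem bilin_sym' (m l : ℕ) (α β : F[X] → ℂ)
    (hα : ∀ A, ‖α A‖ ≤ 1) (hβ : ∀ B, ‖β B‖ ≤ 1) :
    ‖∑ A ∈ Sq F m, ∑ B ∈ Sq F l, α A * β B * cs χ A B‖ ^ 4 * (Nat.card F : ℝ) ^ (min m l) ≤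
      (m + l + 1) * (Nat.card F : ℝ) ^ (4 * (m + l)) := by
  set q : ℝ := (Nat.card F : ℝ) with hq
  have hq0 : 0 ≤ q := Nat.cast_nonneg _
  haveI : NeZero ℓ := ⟨hl.out.ne_zero⟩
  rcases le_total l m with h | h
  · rw [min_eq_right h]
    calc _ ≤ ((m + 1) * q ^ (4 * m + 3 * l)) * q ^ l :=
          mul_le_mul_of_nonneg_right (bsym_aux' χ h α β hα hβ) (by positivity)
      _ = (m + 1) * q ^ (4 * (m + l)) := by ring
      _ ≤ (m + l + 1) * q ^ (4 * (m + l)) := by
          refine mul_le_mul_of_nonneg_right ?_ (by positivity)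
          have : (0 : ℝ) ≤ l := Nat.cast_nonneg l
          linarith
  · rw [min_eq_left h]
    set ψ : ℂ := ps (((m : ZMod ℓ) * (l : ZMod ℓ)) * χ.lg (-1)) with hψ
    have hψ1 : ‖ψ‖ = 1 := norm_ps _
    have e1 : ∑ A ∈ Sq F m, ∑ B ∈ Sq F l, α A * β B * cs χ A B =
        ∑ B ∈ Sq F l, ∑ A ∈ Sq F m, (β B * ψ) * α A * cs χ B A := by
      rw [Finset.sum_comm]
      refine Finset.sum_congr rfl fun B hB => ?_
      refine Finset.sum_congr rfl fun A hA => ?_
      rw [cs_recip' χ (mem_Sq.1 hA).1 (mem_Sq.1 hB).1, (mem_Sq.1 hA).2.1, (mem_Sq.1 hB).2.1, ← hψ]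
      ring
    have h1 := bsym_aux' χ h (fun B => β B * ψ) α
      (fun B => by rw [norm_mul, hψ1, mul_one]; exact hβ B) hα
    rw [e1]
    calc _ ≤ ((l + 1) * q ^ (4 * l + 3 * m)) * q ^ m :=
          mul_le_mul_of_nonneg_right h1 (by positivity)
      _ = (l + 1) * q ^ (4 * (m + l)) := by ring
      _ ≤ (m + l + 1) * q ^ (4 * (m + l)) := by
          refine mul_le_mul_of_nonneg_right ?_ (by positivity)
          have : (0 : ℝ) ≤ m := Nat.cast_nonneg m
          linarith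

end Pool.Agent.H94.PM
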