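import Pool.Agent.H94.PM.RC
import Pool.Agent.H94.PL.Spl

set_option autoImplicit false

/-!
# [H94 PM TY] Types of polynomials and weights with a function of the types: definitions
-/

namespace Pool.Agent.H94.PM

open Polynomial
open Pool.Agent.H94.PL
open Pool.Agent.H94.PC (Mo Sq Pr pf om Mn mem_Mo mem_Sq mem_Pr mem_pf mem_pf')

/-- types: the degree and the classes modulo the primes in `S` -/
abbrev Tp (ℓ : ℕ) (S : Type) : Type := ZMod ℓ × (S → ZMod ℓ)

/-- a character of the types -/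
noncomputable def chi {ℓ : ℕ} [NeZero ℓ] {S : Type} [Fintype S] (a b : Tp ℓ S) : ℂ :=
  ps (a.1 * b.1 + ∑ v, a.2 v * b.2 v)

section
variable {F : Type} [Field F] [Finite F] {ℓ : ℕ}

/-- the type of a polynomial -/
noncomputable def ty (χ : LChar F ℓ) (Δ A : F[X]) : Tp ℓ (pf Δ) :=
  ((A.natDegree : ZMod ℓ), fun v => lm χ v.1 A)

variable [NeZero ℓ] {V : Type} [Fintype V] [DecidableEq V]

open Classical in
/-- the weight with a function `G` of the types -/
noncomputable def WG (χ : LChar F ℓ) (C : CD V ℓ) (Δ : F[X]) (G : (V → Tp ℓ (pf Δ)) → ℂ) (n : ℕ)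
    (x : V → Mn F n) : ℂ :=
  if (∏ u, (x u).1) ∈ Cls Δ n then
    (1 / (C.N : ℂ)) ^ om (∏ u, (x u).1) * G (fun u => ty χ Δ (x u).1) *
      ∏ u, ∏ w, ps (C.Phi u w * lm χ (x w).1 (x u).1)
  else 0

/-- the exponent which comes from reciprocity inside `U` -/
noncomputable def rS (C : CD V ℓ) (U : Finset V) (d : {u // u ∈ U} → ZMod ℓ) : ZMod ℓ :=
  ∑ u, ∑ w, if (Fintype.equivFin V u.1) < (Fintype.equivFin V w.1) then
    C.Phi u.1 w.1 * (d u * d w) else 0

open Classical in
/-- the average over the types of the components with given sum -/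
noncomputable def AU (χ : LChar F ℓ) (C : CD V ℓ) (Δ : F[X]) (G : (V → Tp ℓ (pf Δ)) → ℂ)
    (U : Finset V) (t : Tp ℓ (pf Δ)) : ℂ :=
  (1 / (Fintype.card (Tp ℓ (pf Δ)) : ℂ) ^ (U.card - 1)) *
    ∑ τ : {u // u ∈ U} → Tp ℓ (pf Δ), if ∑ u, τ u = t then
      G (mgU U τ fun _ => 0) * ps (χ.lg (-1) * rS C U fun u => (τ u).1) else 0

open Classical in
/-- the maximal unlinked sets -/
noncomputable def MaxU (C : CD V ℓ) : Finset (Finset V) :=
  (Finset.univ : Finset (Finset V)).filter fun U => C.Unl U ∧ U.card = C.N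

omit [NeZero ℓ] [DecidableEq V] in
theorem mem_MaxU {C : CD V ℓ} {U : Finset V} : U ∈ MaxU C ↔ C.Unl U ∧ U.card = C.N := by
  simp [MaxU]

end

end Pool.Agent.H94.PM
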