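import Pool.Agent.H94.PM.RC
import Pool.Agent.H94.PM.TY
import Pool.Agent.H94.PL.CardCls

set_option autoImplicit false

/-!
# [H94 PM CC2] Sums of a quadratic character over squarefree polynomials

`ℓ = 2`, `Δ ≠ 0` (replace by the monic multiple, `PL.cardl_Cls_normalize`, or treat `pf Δ` directly), `d = deg Δ`, `ρ D = ps (∑ v, c v * lm χ v D)` for `D` monic prime to `Δ`: multiplicative (`lm_mul_right`),
`ρ (R ^ 2) = 1`.
* `cc2_full` (`n ≥ d`): `b n = ∑ D ∈ Mo n, (D, Δ) = 1, ρ D = 0`.  By `lm_recip'` `lm χ v D = lm χ D v + n deg v lg (-1)`, so `ρ D = const * ps (∑ v, c v * lm χ D v)`, a function of `D` modulo `Δ`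
  (`lm_congr`), and the sum is `q ^ (n - d)` times the sum over the residues `r ∈ Lt F d` prime to `Δ` (`PL.sum_Mo_mod'`).  Let `c v₁ ≠ 0`, so `c v₁ = 1`; take `A₁` with
  `lm χ A₁ v₁ = 1` (`PL.exists_cs_prime`) and by the Chinese remainder theorem `M` with `M ≡ A₁` modulo `v₁`, `M ≡ 1` modulo the other `v ∈ pf Δ`; `M` is prime to `Δ` and `∑ v, c v * lm χ M v = 1`.
  Multiplication by `M` (`PL.sum_Lt_mul'`) gives `sum = ps 1 * sum`, so it is `0`.
* `cc2_rec`: every monic `D` prime to `Δ` of degree `n` is uniquely `R ^ 2 * E`, `R` monic of degree `j ≤ n / 2`, `E` monic squarefree, both prime to `Δ`: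
  `b n = ∑ j ≤ n / 2, r j * a (n - 2 j)`, `a k = ∑ D ∈ Cls Δ k, ρ D`, `r j` the number of monic `R` of degree `j` prime to `Δ`, `r 0 = 1`, `r j ≤ q ^ j`.
* `cc2`: `‖a n‖ ≤ q ^ d * x ^ n`, `x = √(2 q)`, by strong induction: `n < d`: `‖a n‖ ≤ #Cls ≤ q ^ n ≤ q ^ d`.  `n ≥ d`: `a n = - ∑ j ≥ 1, r j * a (n - 2 j)`, so `‖a n‖ ≤ ∑ j ≥ 1, q ^ j q ^ d x ^ (n - 2 j) = q ^ d x ^ n ∑ j ≥ 1, 2 ^ (-j)`.
  And `x < q` as `q ≥ 3`, so `q ^ d * x ^ n ≤ ε q ^ n` for `n` large.
-/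

namespace Pool.Agent.H94.PM

open Polynomial
open Pool.Agent.H94.PL
open Pool.Agent.H94.PC (Mo Sq Pr pf om Mn mem_Mo mem_Sq mem_Pr mem_pf mem_pf')

theorem cc2_cop {F : Type} [Field F] [Finite F] {Δ M : F[X]} (hΔ : Δ ≠ 0)
    (h : ∀ v ∈ pf Δ, IsCoprime M v) : IsCoprime M Δ := by
  classical
  by_contra hc
  have hu : ¬ IsUnit (EuclideanDomain.gcd M Δ) :=
    fun hu => hc (EuclideanDomain.gcd_isUnit_iff.1 hu)
  obtain ⟨P, hPm, hPi, hPd⟩ := exists_monic_irreducible_factor _ hu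
  have h1 : P ∣ M := hPd.trans (EuclideanDomain.gcd_dvd_left _ _)
  have h2 : P ∣ Δ := hPd.trans (EuclideanDomain.gcd_dvd_right _ _)
  have h3 := h P ((mem_pf hΔ).2 ⟨hPm, hPi, h2⟩)
  exact hPi.not_isUnit (h3.isUnit_of_dvd' h1 dvd_rfl)

theorem cc2_dvd {F : Type} [Field F] {x y e : F[X]} (hx : x ≠ 0) (he : Squarefree e)
    (h : x ^ 2 ∣ y ^ 2 * e) : x ∣ y := by
  classical
  set g := EuclideanDomain.gcd x y with hg
  obtain ⟨a, ha⟩ := EuclideanDomain.gcd_dvd_left x y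
  obtain ⟨b, hb⟩ := EuclideanDomain.gcd_dvd_right x y
  rw [← hg] at ha hb
  have hg0 : g ≠ 0 := by
    intro h0
    rw [h0, zero_mul] at ha
    exact hx ha
  have hbez := EuclideanDomain.gcd_eq_gcd_ab x y
  rw [← hg] at hbez
  have hab : IsCoprime a b := by
    refine ⟨EuclideanDomain.gcdA x y, EuclideanDomain.gcdB x y, ?_⟩
    apply mul_left_cancel₀ hg0
    rw [mul_one]
    conv_rhs => rw [hbez]
    conv_rhs => rw [ha, hb]
    rw [← ha, ← hb]
    conv_lhs => rw [mul_add]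
    have e1 : g * (EuclideanDomain.gcdA x y * a) = (g * a) * EuclideanDomain.gcdA x y := by ring
    have e2 : g * (EuclideanDomain.gcdB x y * b) = (g * b) * EuclideanDomain.gcdB x y := by ring
    rw [e1, e2, ← ha, ← hb]
  have h1 : a ^ 2 ∣ b ^ 2 * e := by
    have h2 : g ^ 2 * a ^ 2 ∣ g ^ 2 * (b ^ 2 * e) := by
      have e1 : g ^ 2 * a ^ 2 = x ^ 2 := by rw [← mul_pow, ← ha]
      have e2 : g ^ 2 * (b ^ 2 * e) = y ^ 2 * e := by rw [← mul_assoc, ← mul_pow, ← hb]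
      rw [e1, e2]
      exact h
    exact (mul_dvd_mul_iff_left (pow_ne_zero 2 hg0)).1 h2
  have h3 : a ^ 2 ∣ e := (hab.pow (m := 2) (n := 2)).dvd_of_dvd_mul_left h1
  have h4 : IsUnit a := he a (by rwa [← sq])
  have h5 : x ∣ g := by
    conv_lhs => rw [ha]
    exact (h4.mul_right_dvd).2 dvd_rfl
  exact h5.trans (EuclideanDomain.gcd_dvd_right x y)

theorem cc2_exists {F : Type} [Field F] : ∀ (n : ℕ) (D : F[X]), D.Monic → D.natDegree = n →
    ∃ R E : F[X], R.Monic ∧ E.Monic ∧ Squarefree E ∧ D = R ^ 2 * E := by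
  classical
  intro n
  induction n using Nat.strong_induction_on with
  | _ n ih =>
    intro D hD hn
    by_cases hs : Squarefree D
    · exact ⟨1, D, monic_one, hD, hs, by rw [one_pow, one_mul]⟩
    · unfold Squarefree at hs
      push Not at hs
      obtain ⟨x, hx, hxu⟩ := hs
      have hx0 : x ≠ 0 := by
        rintro rfl
        rw [mul_zero, zero_dvd_iff] at hx
        exact hD.ne_zero hx
      have hm : (normalize x).Monic := monic_normalize hx0
      have hdv : normalize x * normalize x ∣ D := by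
        refine dvd_trans ?_ hx
        exact mul_dvd_mul (normalize_dvd_iff.2 dvd_rfl) (normalize_dvd_iff.2 dvd_rfl)
      obtain ⟨D', hD'⟩ := hdv
      have hm2 : (normalize x * normalize x).Monic := hm.mul hm
      have hD'm : D'.Monic := by
        have h1 := hD
        rw [hD'] at h1
        exact hm2.of_mul_monic_left h1
      have hdeg : 0 < (normalize x).natDegree := by
        rw [Nat.pos_iff_ne_zero]
        intro h0
        apply hxu
        have h1 := hm.natDegree_eq_zero.1 h0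
        have h2 : Associated (normalize x) x := normalize_associated x
        rw [h1] at h2
        exact (associated_one_iff_isUnit.1 h2.symm)
      have hdeg2 : D.natDegree = (normalize x).natDegree + (normalize x).natDegree +
          D'.natDegree := by
        conv_lhs => rw [hD']
        rw [hm2.natDegree_mul hD'm, hm.natDegree_mul hm]
      obtain ⟨R, E, hR, hE, hE2, hRE⟩ := ih D'.natDegree (by omega) D' hD'm rfl
      refine ⟨normalize x * R, E, hm.mul hR, hE, hE2, ?_⟩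
      conv_lhs => rw [hD', hRE]
      ring

theorem cc2_unique {F : Type} [Field F] {R E R' E' : F[X]} (hR : R.Monic) (hR' : R'.Monic)
    (hE : Squarefree E) (hE' : Squarefree E') (h : R ^ 2 * E = R' ^ 2 * E') :
    R = R' ∧ E = E' := by
  have h1 : R ∣ R' := cc2_dvd hR.ne_zero hE' (h ▸ dvd_mul_right _ _)
  have h2 : R' ∣ R := cc2_dvd hR'.ne_zero hE (h ▸ dvd_mul_right _ _)
  have h3 : R = R' := eq_of_monic_of_associated hR hR' (associated_of_dvd_dvd h1 h2)
  refine ⟨h3, ?_⟩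
  rw [h3] at h
  exact mul_left_cancel₀ (pow_ne_zero 2 hR'.ne_zero) h

variable {F : Type} [Field F] [Finite F] (χ : LChar F 2) {Δ : F[X]}

theorem cc2_two (a : ZMod 2) : a + a = 0 := by
  revert a
  decide

theorem cc2_ps_one : ps (1 : ZMod 2) ≠ 1 := by
  rw [Ne, ps_eq_one_iff]
  decide

/-- an element with prescribed symbols -/
theorem cc2_elt (hΔ : Δ ≠ 0) (c : pf Δ → ZMod 2) (hc : c ≠ 0) :
    ∃ M : F[X], (∀ v ∈ pf Δ, IsCoprime M v) ∧ ∑ v : pf Δ, c v * lm χ M v.1 = 1 := by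
  classical
  obtain ⟨v₁, hv₁⟩ := Function.ne_iff.1 hc
  have hc1 : c v₁ = 1 := by
    have h : ∀ a : ZMod 2, a ≠ 0 → a = 1 := by decide
    exact h _ hv₁
  obtain ⟨hm1, hi1, hd1⟩ := mem_pf' v₁.2
  obtain ⟨A₁, hA₁⟩ := exists_cs_prime χ hm1 hi1
  have hcop1 : IsCoprime A₁ v₁.1 := by
    by_contra h
    rw [cs_eq_zero χ hm1 h] at hA₁
    exact ps_ne_zero _ hA₁.symm
  have hlm1 : lm χ A₁ v₁.1 = 1 := by
    rw [cs_of_coprime χ hm1 hcop1] at hA₁
    exact ps_inj hA₁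
  set W : F[X] := ∏ v ∈ (pf Δ).erase v₁.1, v with hW
  have hcopW : IsCoprime v₁.1 W := by
    rw [hW]
    refine IsCoprime.prod_right fun v hv => ?_
    obtain ⟨hne, hv⟩ := Finset.mem_erase.1 hv
    obtain ⟨hm, hi, hd⟩ := mem_pf' hv
    rw [hi1.coprime_iff_not_dvd]
    intro h
    exact hne (eq_of_monic_of_associated hm hm1 (hi1.associated_of_dvd hi h).symm)
  obtain ⟨a, b, hab⟩ := hcopW
  have hM1 : v₁.1 ∣ (A₁ * (b * W) + a * v₁.1) - A₁ := by
    refine ⟨(1 - A₁) * a, ?_⟩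
    have h1 : b * W = 1 - a * v₁.1 := by rw [← hab]; ring
    rw [h1]
    ring
  have hMW : ∀ v ∈ (pf Δ).erase v₁.1, v ∣ (A₁ * (b * W) + a * v₁.1) - 1 := by
    intro v hv
    refine (Finset.dvd_prod_of_mem (fun v => v) hv).trans ?_
    rw [← hW]
    refine ⟨(A₁ - 1) * b, ?_⟩
    have h1 : a * v₁.1 = 1 - b * W := by rw [← hab]; ring
    rw [h1]
    ring
  refine ⟨A₁ * (b * W) + a * v₁.1, ?_, ?_⟩
  · intro v hv
    by_cases hvv : v = v₁.1
    · rw [hvv]
      obtain ⟨k, hk⟩ := hM1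
      have h1 : A₁ * (b * W) + a * v₁.1 = A₁ + v₁.1 * k := by rw [← hk]; ring
      rw [h1]
      exact hcop1.add_mul_left_left k
    · obtain ⟨k, hk⟩ := hMW v (Finset.mem_erase.2 ⟨hvv, hv⟩)
      have h1 : A₁ * (b * W) + a * v₁.1 = 1 + v * k := by rw [← hk]; ring
      rw [h1]
      exact isCoprime_one_left.add_mul_left_left k
  · rw [Finset.sum_eq_single v₁]
    · rw [hc1, one_mul, lm_congr χ hm1 hM1, hlm1]
    · intro v _ hv
      have hvv : v.1 ≠ v₁.1 := fun h => hv (Subtype.ext h)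
      obtain ⟨hm, hi, hd⟩ := mem_pf' v.2
      rw [lm_congr χ hm (hMW v.1 (Finset.mem_erase.2 ⟨hvv, v.2⟩)), lm_one_left χ hm, mul_zero]
    · intro h
      exact absurd (Finset.mem_univ _) h

open Classical in
theorem cc2_full (hΔ : Δ ≠ 0) (c : pf Δ → ZMod 2) (hc : c ≠ 0) {n : ℕ} (hn : Δ.natDegree ≤ n) :
    ∑ D ∈ (Mo F n).filter (fun D => IsCoprime D Δ), ps (∑ v, c v * lm χ v.1 D) = 0 := by
  set N : F[X] := normalize Δ with hN
  have hNm : N.Monic := monic_normalize hΔ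
  have hNass : Associated N Δ := normalize_associated Δ
  have hNdeg : N.natDegree = Δ.natDegree := natDegree_eq_of_degree_eq (degree_eq_degree_of_associated hNass)
  have hNcop : ∀ D : F[X], IsCoprime D N ↔ IsCoprime D Δ := by
    intro D
    exact ⟨fun h => h.of_isCoprime_of_dvd_right hNass.symm.dvd,
      fun h => h.of_isCoprime_of_dvd_right hNass.dvd⟩
  have hvN : ∀ v ∈ pf Δ, v ∣ N := fun v hv => (mem_pf' hv).2.2.trans hNass.symm.dvd
  set Θ : F[X] → ℂ := fun A => if IsCoprime A N then ps (∑ v : pf Δ, c v * lm χ A v.1) else 0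
    with hΘ
  have hΘc : ∀ A B : F[X], N ∣ A - B → Θ A = Θ B := by
    intro A B hAB
    have h1 : IsCoprime A N ↔ IsCoprime B N := by
      obtain ⟨k, hk⟩ := hAB
      have h2 : A = B + N * k := by rw [← hk]; ring
      rw [h2]
      exact IsCoprime.add_mul_left_left_iff
    rw [hΘ]
    dsimp only
    by_cases hA : IsCoprime A N
    · rw [if_pos hA, if_pos (h1.1 hA)]
      congr 1
      refine Finset.sum_congr rfl fun v _ => ?_
      rw [lm_congr χ (mem_pf' v.2).1 ((hvN v.1 v.2).trans hAB)]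
    · rw [if_neg hA, if_neg (fun h => hA (h1.2 h))]
  obtain ⟨M, hM, hMs⟩ := cc2_elt χ hΔ c hc
  have hMN : IsCoprime M N := (hNcop M).2 (cc2_cop hΔ hM)
  have hmul : ∀ A, Θ (M * A) = ps (1 : ZMod 2) * Θ A := by
    intro A
    rw [hΘ]
    dsimp only
    by_cases hA : IsCoprime A N
    · rw [if_pos hA, if_pos (hMN.mul_left hA), ← ps_add, ← hMs, ← Finset.sum_add_distrib]
      congr 1
      refine Finset.sum_congr rfl fun v _ => ?_
      rw [lm_mul_left χ (mem_pf' v.2).1 (hM v.1 v.2)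
        (hA.of_isCoprime_of_dvd_right (hvN v.1 v.2)), mul_add]
    · rw [if_neg hA, if_neg, mul_zero]
      intro h
      exact hA (h.of_mul_left_right)
  have hsum0 : ∑ r ∈ PC.Lt F N.natDegree, Θ r = 0 := by
    have h1 := sum_Lt_mul' hNm hMN Θ hΘc
    simp only [hmul] at h1
    rw [← Finset.mul_sum] at h1
    have h2 : (ps (1 : ZMod 2) - 1) * ∑ r ∈ PC.Lt F N.natDegree, Θ r = 0 := by
      rw [sub_mul, h1, one_mul, sub_self]
    rcases mul_eq_zero.1 h2 with h3 | h3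
    · exact absurd (sub_eq_zero.1 h3) cc2_ps_one
    · exact h3
  set κ : ZMod 2 := ∑ v : pf Δ, c v * (((v.1.natDegree : ZMod 2) * (n : ZMod 2)) * χ.lg (-1))
    with hκ
  have hterm : ∀ D ∈ Mo F n, (if IsCoprime D Δ then ps (∑ v, c v * lm χ v.1 D) else 0) =
      ps κ * Θ D := by
    intro D hD
    rw [mem_Mo] at hD
    rw [hΘ]
    dsimp only
    by_cases hDc : IsCoprime D Δ
    · rw [if_pos hDc, if_pos ((hNcop D).2 hDc), ← ps_add, hκ, ← Finset.sum_add_distrib]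
      congr 1
      refine Finset.sum_congr rfl fun v _ => ?_
      obtain ⟨hm, hi, hd⟩ := mem_pf' v.2
      rw [lm_recip' χ hm hD.1 (hDc.of_isCoprime_of_dvd_right hd).symm, hD.2]
      ring
    · rw [if_neg hDc, if_neg (fun h => hDc ((hNcop D).1 h)), mul_zero]
  rw [Finset.sum_filter, Finset.sum_congr rfl hterm, ← Finset.mul_sum,
    sum_Mo_mod' hNm (by rw [hNdeg]; exact hn)]
  have h5 : ∀ h ∈ Mo F (n - N.natDegree), ∑ r ∈ PC.Lt F N.natDegree, Θ (N * h + r) = 0 := by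
    intro h _
    rw [← hsum0]
    refine Finset.sum_congr rfl fun r _ => hΘc _ _ ⟨h, by ring⟩
  rw [Finset.sum_congr rfl h5, Finset.sum_const_zero, mul_zero]

open Classical in
theorem cc2_rec (hΔ : Δ ≠ 0) (c : pf Δ → ZMod 2) (n : ℕ) :
    ∑ D ∈ (Mo F n).filter (fun D => IsCoprime D Δ), ps (∑ v, c v * lm χ v.1 D) =
      ∑ j ∈ Finset.range (n / 2 + 1), (((Mo F j).filter fun R => IsCoprime R Δ).card : ℂ) *
        ∑ D ∈ Cls Δ (n - 2 * j), ps (∑ v, c v * lm χ v.1 D) := by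
  set T : Finset (Σ _ : ℕ, F[X] × F[X]) := (Finset.range (n / 2 + 1)).sigma fun j =>
    ((Mo F j).filter fun R => IsCoprime R Δ) ×ˢ Cls Δ (n - 2 * j) with hT
  have hTm : ∀ x : (Σ _ : ℕ, F[X] × F[X]), x ∈ T ↔ (x.1 < n / 2 + 1 ∧
      ((x.2.1.Monic ∧ x.2.1.natDegree = x.1) ∧ IsCoprime x.2.1 Δ) ∧
      (x.2.2.Monic ∧ x.2.2.natDegree = n - 2 * x.1 ∧ Squarefree x.2.2 ∧
        IsCoprime x.2.2 Δ)) := by
    intro x
    rw [hT, Finset.mem_sigma, Finset.mem_range, Finset.mem_product, Finset.mem_filter, mem_Mo,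
      mem_Cls]
  have hR : ∑ j ∈ Finset.range (n / 2 + 1),
      (((Mo F j).filter fun R => IsCoprime R Δ).card : ℂ) *
        ∑ D ∈ Cls Δ (n - 2 * j), ps (∑ v, c v * lm χ v.1 D) =
      ∑ x ∈ T, ps (∑ v, c v * lm χ v.1 x.2.2) := by
    rw [hT, Finset.sum_sigma]
    refine Finset.sum_congr rfl fun j _ => ?_
    rw [Finset.sum_product]
    dsimp only
    rw [Finset.sum_const, nsmul_eq_mul]
  rw [hR]
  symm
  refine Finset.sum_bij (fun x _ => x.2.1 ^ 2 * x.2.2) ?_ ?_ ?_ ?_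
  · intro x hx
    rw [hTm] at hx
    obtain ⟨h1, ⟨⟨h2, h3⟩, h4⟩, h5, h6, h7, h8⟩ := hx
    rw [Finset.mem_filter, mem_Mo]
    refine ⟨⟨(h2.pow 2).mul h5, ?_⟩, h4.pow_left.mul_left h8⟩
    rw [(h2.pow 2).natDegree_mul h5, h2.natDegree_pow, h3, h6]
    omega
  · intro x hx y hy hxy
    rw [hTm] at hx hy
    obtain ⟨h1, ⟨⟨h2, h3⟩, h4⟩, h5, h6, h7, h8⟩ := hx
    obtain ⟨g1, ⟨⟨g2, g3⟩, g4⟩, g5, g6, g7, g8⟩ := hy
    obtain ⟨e1, e2⟩ := cc2_unique h2 g2 h7 g7 hxy
    obtain ⟨j, R, E⟩ := x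
    obtain ⟨j', R', E'⟩ := y
    dsimp only at *
    have e3 : j = j' := by rw [← h3, ← g3, e1]
    subst e3
    subst e1
    subst e2
    rfl
  · intro D hD
    rw [Finset.mem_filter, mem_Mo] at hD
    obtain ⟨⟨hDm, hDn⟩, hDc⟩ := hD
    obtain ⟨R, E, hR, hE, hE2, hRE⟩ := cc2_exists n D hDm hDn
    have hdeg : D.natDegree = 2 * R.natDegree + E.natDegree := by
      rw [hRE, (hR.pow 2).natDegree_mul hE, hR.natDegree_pow]
    refine ⟨⟨R.natDegree, R, E⟩, ?_, hRE.symm⟩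
    rw [hTm]
    dsimp only
    refine ⟨by omega, ⟨⟨hR, rfl⟩, ?_⟩, hE, by omega, hE2, ?_⟩
    · rw [hRE] at hDc
      exact (IsCoprime.pow_left_iff (by norm_num : 0 < 2)).1 hDc.of_mul_left_left
    · rw [hRE] at hDc
      exact hDc.of_mul_left_right
  · intro x hx
    rw [hTm] at hx
    obtain ⟨h1, ⟨⟨h2, h3⟩, h4⟩, h5, h6, h7, h8⟩ := hx
    congr 1
    refine Finset.sum_congr rfl fun v _ => ?_
    obtain ⟨hm, hi, hd⟩ := mem_pf' v.2
    have hv1 : IsCoprime v.1 x.2.1 := (h4.of_isCoprime_of_dvd_right hd).symm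
    have hv2 : IsCoprime v.1 x.2.2 := (h8.of_isCoprime_of_dvd_right hd).symm
    rw [lm_mul_right χ (h2.pow 2) h5 hv1.pow_right hv2, sq, lm_mul_right χ h2 h2 hv1 hv1,
      cc2_two, zero_add]

theorem cc2_ineq (q : ℝ) (hq : 3 ≤ q) (n : ℕ) :
    ∑ j ∈ Finset.Icc 1 (n / 2), q ^ j * (Real.sqrt (2 * q)) ^ (n - 2 * j) ≤
      (Real.sqrt (2 * q)) ^ n := by
  set x := Real.sqrt (2 * q) with hx
  have hx0 : 0 < x := Real.sqrt_pos.2 (by linarith)
  have hx2 : x ^ 2 = 2 * q := Real.sq_sqrt (by linarith)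
  have h1 : ∀ j ∈ Finset.Icc 1 (n / 2), q ^ j * x ^ (n - 2 * j) = x ^ n * (1 / 2) ^ j := by
    intro j hj
    rw [Finset.mem_Icc] at hj
    have h2 : n = 2 * j + (n - 2 * j) := by omega
    conv_rhs => rw [h2, pow_add, pow_mul, hx2, mul_pow]
    have h3 : (2 : ℝ) ^ j * (1 / 2) ^ j = 1 := by rw [← mul_pow]; norm_num
    calc q ^ j * x ^ (n - 2 * j) = (2 ^ j * (1 / 2) ^ j) * (q ^ j * x ^ (n - 2 * j)) := by
          rw [h3, one_mul]
      _ = _ := by ring
  rw [Finset.sum_congr rfl h1, ← Finset.mul_sum]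
  have h4 : ∀ m : ℕ, ∑ j ∈ Finset.Icc 1 m, (1 / 2 : ℝ) ^ j = 1 - (1 / 2) ^ m := by
    intro m
    induction m with
    | zero => simp
    | succ m ih =>
      rw [Finset.sum_Icc_succ_top (by omega), ih, pow_succ]
      ring
  rw [h4]
  have h5 : (0 : ℝ) ≤ (1 / 2) ^ (n / 2) := by positivity
  have h6 : 0 < x ^ n := pow_pos hx0 n
  nlinarith

theorem cc2_norm (hq : 3 ≤ Nat.card F) (hΔ : Δ ≠ 0) (c : pf Δ → ZMod 2) (hc : c ≠ 0) (n : ℕ) :
    ‖∑ D ∈ Cls Δ n, ps (∑ v, c v * lm χ v.1 D)‖ ≤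
      (Nat.card F : ℝ) ^ Δ.natDegree * (Real.sqrt (2 * Nat.card F)) ^ n := by
  classical
  have hq3 : (3 : ℝ) ≤ (Nat.card F : ℝ) := by exact_mod_cast hq
  set q : ℝ := (Nat.card F : ℝ) with hqd
  set x := Real.sqrt (2 * q) with hx
  have hx1 : 1 ≤ x := by
    rw [hx]
    apply Real.one_le_sqrt.2
    linarith
  induction n using Nat.strong_induction_on with
  | _ n ih =>
    rcases lt_or_ge n Δ.natDegree with hn | hn
    · have h1 : ‖∑ D ∈ Cls Δ n, ps (∑ v, c v * lm χ v.1 D)‖ ≤ ((Cls Δ n).card : ℝ) := by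
        refine (norm_sum_le _ _).trans ?_
        have h2 : ∀ D ∈ Cls Δ n, ‖ps (∑ v, c v * lm χ v.1 D)‖ ≤ (1 : ℝ) := by
          intro D _
          rw [norm_ps]
        refine (Finset.sum_le_sum h2).trans ?_
        rw [Finset.sum_const, nsmul_eq_mul, mul_one]
      have h3 : (Cls Δ n).card ≤ Nat.card F ^ n := by
        rw [← PC.card_Mo (F := F) n]
        refine Finset.card_le_card fun D hD => ?_
        rw [mem_Cls] at hD
        rw [mem_Mo]
        exact ⟨hD.1, hD.2.1⟩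
      have h4 : ((Cls Δ n).card : ℝ) ≤ q ^ n := by
        rw [hqd]
        exact_mod_cast h3
      have h5 : q ^ n ≤ q ^ Δ.natDegree := pow_le_pow_right₀ (by linarith) hn.le
      have h6 : 1 ≤ x ^ n := one_le_pow₀ hx1
      have h7 : 0 < q ^ Δ.natDegree := by positivity
      nlinarith
    · have hrec := cc2_rec χ hΔ c n
      rw [cc2_full χ hΔ c hc hn, Finset.range_eq_Ico,
        Finset.sum_eq_sum_Ico_succ_bot (by omega)] at hrec
      have h0 : ((Mo F 0).filter fun R => IsCoprime R Δ).card = 1 := by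
        rw [Finset.card_eq_one]
        refine ⟨1, ?_⟩
        ext R
        rw [Finset.mem_filter, mem_Mo, Finset.mem_singleton]
        constructor
        · rintro ⟨⟨h1, h2⟩, -⟩
          exact h1.natDegree_eq_zero.1 h2
        · rintro rfl
          exact ⟨⟨monic_one, natDegree_one⟩, isCoprime_one_left⟩
      rw [h0, Nat.cast_one, one_mul, mul_zero, Nat.sub_zero] at hrec
      have heq : ∑ D ∈ Cls Δ n, ps (∑ v, c v * lm χ v.1 D) =
          -∑ j ∈ Finset.Ico (0 + 1) (n / 2 + 1),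
            (((Mo F j).filter fun R => IsCoprime R Δ).card : ℂ) *
              ∑ D ∈ Cls Δ (n - 2 * j), ps (∑ v, c v * lm χ v.1 D) := by
        rw [eq_neg_iff_add_eq_zero]
        exact hrec.symm
      rw [heq, norm_neg]
      refine (norm_sum_le _ _).trans ?_
      have h8 : ∀ j ∈ Finset.Ico (0 + 1) (n / 2 + 1),
          ‖(((Mo F j).filter fun R => IsCoprime R Δ).card : ℂ) *
              ∑ D ∈ Cls Δ (n - 2 * j), ps (∑ v, c v * lm χ v.1 D)‖ ≤
            q ^ Δ.natDegree * (q ^ j * x ^ (n - 2 * j)) := by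
        intro j hj
        rw [Finset.mem_Ico] at hj
        rw [norm_mul, Complex.norm_natCast]
        have h9 : ((((Mo F j).filter fun R => IsCoprime R Δ).card : ℕ) : ℝ) ≤ q ^ j := by
          have h10 : ((Mo F j).filter fun R => IsCoprime R Δ).card ≤ Nat.card F ^ j := by
            rw [← PC.card_Mo (F := F) j]
            exact Finset.card_filter_le _ _
          rw [hqd]
          exact_mod_cast h10
        have h11 := ih (n - 2 * j) (by omega)
        calc ((((Mo F j).filter fun R => IsCoprime R Δ).card : ℕ) : ℝ) *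
              ‖∑ D ∈ Cls Δ (n - 2 * j), ps (∑ v, c v * lm χ v.1 D)‖ ≤
              q ^ j * (q ^ Δ.natDegree * x ^ (n - 2 * j)) :=
              mul_le_mul h9 h11 (norm_nonneg _) (by positivity)
          _ = _ := by ring
      refine (Finset.sum_le_sum h8).trans ?_
      rw [← Finset.mul_sum]
      refine mul_le_mul_of_nonneg_left ?_ (by positivity)
      have h12 := cc2_ineq q hq3 n
      have h13 : Finset.Ico (0 + 1) (n / 2 + 1) = Finset.Icc 1 (n / 2) := by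
        ext j
        rw [Finset.mem_Ico, Finset.mem_Icc]
        omega
      rw [h13]
      exact h12

theorem cc2 (hq : 3 ≤ Nat.card F) (hΔ : Δ ≠ 0) (c : pf Δ → ZMod 2) (hc : c ≠ 0) (ε : ℝ)
    (hε : 0 < ε) : ∃ n₀ : ℕ, ∀ n : ℕ, n₀ ≤ n →
      ‖∑ D ∈ Cls Δ n, ps (∑ v, c v * lm χ v.1 D)‖ ≤ ε * (Nat.card F : ℝ) ^ n := by
  have hq3 : (3 : ℝ) ≤ (Nat.card F : ℝ) := by exact_mod_cast hq
  have hnorm := cc2_norm χ hq hΔ c hc
  set q : ℝ := (Nat.card F : ℝ) with hqd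
  set x := Real.sqrt (2 * q) with hx
  have hq0 : 0 < q := by linarith
  have hx0 : 0 ≤ x := Real.sqrt_nonneg _
  have hxq : x < q := by
    rw [hx]
    apply (Real.sqrt_lt' hq0).2
    nlinarith
  have h1 : x / q < 1 := by rwa [div_lt_one hq0]
  have h2 : Filter.Tendsto (fun n : ℕ => q ^ Δ.natDegree * (x / q) ^ n) Filter.atTop
      (nhds (q ^ Δ.natDegree * 0)) :=
    (tendsto_pow_atTop_nhds_zero_of_lt_one (by positivity) h1).const_mul _
  rw [mul_zero] at h2
  obtain ⟨n₀, hn₀⟩ := Filter.eventually_atTop.1 (h2.eventually (gt_mem_nhds hε))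
  refine ⟨n₀, fun n hn => (hnorm n).trans ?_⟩
  have h3 := (hn₀ n hn).le
  have h4 : q ^ Δ.natDegree * x ^ n = q ^ Δ.natDegree * (x / q) ^ n * q ^ n := by
    rw [div_pow, mul_assoc, div_mul_cancel₀ _ (pow_ne_zero n hq0.ne')]
  rw [h4]
  exact mul_le_mul_of_nonneg_right h3 (by positivity)

end Pool.Agent.H94.PM
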