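import Pool.Agent.H94.PM.CLW

set_option autoImplicit false

/-!
# [H94 PM CLC] Classification and number of the maximal unlinked sets which matter

`U ∈ MaxU (CDX (BB m ℓ))`: `la_str'` gives `u₀ ∈ U` (as `0 ∈ W`), `W` with `u ∈ U ↔ u - u₀ ∈ W`, `laB = 0` on `W`, `Nat.card W = card X`
(`(CDX B).N = card X`).  If `¬ Non U` then for all `v` and `w, w' ∈ W`: `B w.2 (L v w'.1) + B w'.2 (L v w.1) = 0`
(the four points are in `U`).  `clw`:
(i) `w.1 = 0` on `W`: `W ⊆ {w | w.1 = 0}`, both of cardinality `card X`, so equal; `U = {u | u.1 = u₀.1}` (`Std1`).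
(ii) `w.2 = 0` on `W`: `W = {w | w.2 = 0}`, `U = {u | u.2 = u₀.2}` (`Std2`: the element with `u.1 = x` is `(x, u₀.2)`).
(iii) `ℓ = 2`, `w.1 = w.2` on `W`: `W = {w | w.1 = w.2}`, `U = {u | u.1 - u.2 = u₀.1 - u₀.2}` (`Std2`).
So `U` is one of the sets `{u | u.1 = a}`, `{u | u.2 = a}`, and for `ℓ = 2` `{u | u.1 - u.2 = a}`, `a ∈ X`: at most `2 card X`, for `ℓ = 2`
`3 card X` sets (`Finset.card_image_le` for the images of `univ` under `a ↦ univ.filter ..`, and `Finset.card_union_le`).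
-/

namespace Pool.Agent.H94.PM

open Pool.Agent.H94.PL

variable {ℓ : ℕ} [hl : Fact ℓ.Prime] {m : ℕ} {S : Type} [Fintype S] [Fintype (XX m ℓ)]

omit [Fintype S] in
private theorem clc_eq (W : Submodule (ZMod ℓ) (XX m ℓ × XX m ℓ))
    (hc : Nat.card W = Fintype.card (XX m ℓ)) (K : XX m ℓ × XX m ℓ → Prop)
    (f : XX m ℓ × XX m ℓ → XX m ℓ) (hWK : ∀ w ∈ W, K w)
    (hf : ∀ x y, K x → K y → f x = f y → x = y) (x : XX m ℓ × XX m ℓ) (hx : K x) : x ∈ W := by
  have hinj : Function.Injective fun w : W => f w.1 := by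
    intro w w' h
    exact Subtype.ext (hf _ _ (hWK _ w.2) (hWK _ w'.2) h)
  have hbij : Function.Bijective fun w : W => f w.1 :=
    (Nat.bijective_iff_injective_and_card _).2 ⟨hinj, by rw [hc, Nat.card_eq_fintype_card]⟩
  obtain ⟨w, hw⟩ := hbij.2 (f x)
  have h1 : w.1 = x := hf _ _ (hWK _ w.2) hx hw
  rw [← h1]
  exact w.2

theorem clc (hm : Nat.Coprime m ℓ) (dt : Dat ℓ (XX m ℓ) S)
    (hconn : ∀ i k, Relation.ReflTransGen (Det dt.L) i k) (U : Finset (XX m ℓ × XX m ℓ))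
    (hU : U ∈ MaxU (CDX (BB m ℓ))) (hn : ¬ Non (BB m ℓ) dt U) :
    (∃ a, ∀ u, u ∈ U ↔ u.1 = a) ∨ (∃ a, ∀ u, u ∈ U ↔ u.2 = a) ∨
      (ℓ = 2 ∧ ∃ a, ∀ u, u ∈ U ↔ u.1 - u.2 = a) := by
  obtain ⟨hU1, hU2⟩ := mem_MaxU.1 hU
  obtain ⟨u₀, W, h1, h2, -, h4⟩ := la_str' (BB m ℓ) (BB_good hm) U hU1 hU2
  have hu₀ : u₀ ∈ U := by
    rw [h1, sub_self]
    exact W.zero_mem
  have hmem : ∀ w ∈ W, u₀ + w ∈ U := by
    intro w hw
    rw [h1, add_sub_cancel_left]
    exact hw
  have hpol : ∀ v, ∀ w ∈ W, ∀ w' ∈ W,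
      BB m ℓ w.2 (dt.L v w'.1) + BB m ℓ w'.2 (dt.L v w.1) = 0 := by
    intro v w hw w' hw'
    by_contra hne
    refine hn ⟨v, u₀, w, w', hu₀, hmem w hw, hmem w' hw', ?_, hne⟩
    rw [add_assoc]
    exact hmem _ (W.add_mem hw hw')
  rcases clw hm dt.L hconn W h4 h2 hpol with h | h | ⟨h2', h⟩
  · left
    refine ⟨u₀.1, fun u => ?_⟩
    rw [h1]
    constructor
    · intro hu
      exact sub_eq_zero.1 (h _ hu)
    · intro hu
      refine clc_eq W h4 (fun x => x.1 = 0) Prod.snd h ?_ _ ?_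
      · intro x y hx hy hxy
        exact Prod.ext (hx.trans hy.symm) hxy
      · exact sub_eq_zero.2 hu
  · right
    left
    refine ⟨u₀.2, fun u => ?_⟩
    rw [h1]
    constructor
    · intro hu
      exact sub_eq_zero.1 (h _ hu)
    · intro hu
      refine clc_eq W h4 (fun x => x.2 = 0) Prod.fst h ?_ _ ?_
      · intro x y hx hy hxy
        exact Prod.ext hxy (hx.trans hy.symm)
      · exact sub_eq_zero.2 hu
  · right
    right
    refine ⟨h2', u₀.1 - u₀.2, fun u => ?_⟩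
    rw [h1]
    have hiff : (u - u₀).1 = (u - u₀).2 ↔ u.1 - u.2 = u₀.1 - u₀.2 := by
      rw [Prod.fst_sub, Prod.snd_sub, sub_eq_sub_iff_add_eq_add, sub_eq_sub_iff_add_eq_add,
        add_comm u₀.1 u.2]
    constructor
    · intro hu
      exact hiff.1 (h _ hu)
    · intro hu
      refine clc_eq W h4 (fun x => x.1 = x.2) Prod.fst h ?_ _ (hiff.2 hu)
      intro x y hx hy hxy
      exact Prod.ext hxy (hx.symm.trans (hxy.trans hy))

theorem clc_std (hm : Nat.Coprime m ℓ) (dt : Dat ℓ (XX m ℓ) S)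
    (hconn : ∀ i k, Relation.ReflTransGen (Det dt.L) i k) :
    ∀ U ∈ MaxU (CDX (BB m ℓ)), Std1 U ∨ Std2 U ∨ Non (BB m ℓ) dt U := by
  intro U hU
  by_cases hn : Non (BB m ℓ) dt U
  · exact Or.inr (Or.inr hn)
  · rcases clc hm dt hconn U hU hn with ⟨a, ha⟩ | ⟨a, ha⟩ | ⟨-, a, ha⟩
    · exact Or.inl ⟨a, ha⟩
    · refine Or.inr (Or.inl fun x => ⟨(x, a), (ha _).2 rfl, rfl, ?_⟩)
      intro u' hu' hx
      exact Prod.ext hx ((ha u').1 hu')
    · refine Or.inr (Or.inl fun x => ⟨(x, x - a), (ha _).2 (sub_sub_cancel x a), rfl, ?_⟩)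
      intro u' hu' hx
      refine Prod.ext hx ?_
      have h1 := (ha u').1 hu'
      show u'.2 = x - a
      rw [← h1, hx, sub_sub_cancel]

open Classical in
theorem clc_card (hm : Nat.Coprime m ℓ) (dt : Dat ℓ (XX m ℓ) S)
    (hconn : ∀ i k, Relation.ReflTransGen (Det dt.L) i k) :
    ((MaxU (CDX (BB m ℓ))).filter fun U => ¬ Non (BB m ℓ) dt U).card ≤
      (if ℓ = 2 then 3 else 2) * Fintype.card (XX m ℓ) := by
  set S1 : Finset (Finset (XX m ℓ × XX m ℓ)) := (Finset.univ : Finset (XX m ℓ)).image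
    fun a => Finset.univ.filter fun u : XX m ℓ × XX m ℓ => u.1 = a with hS1
  set S2 : Finset (Finset (XX m ℓ × XX m ℓ)) := (Finset.univ : Finset (XX m ℓ)).image
    fun a => Finset.univ.filter fun u : XX m ℓ × XX m ℓ => u.2 = a with hS2
  set S3 : Finset (Finset (XX m ℓ × XX m ℓ)) := (Finset.univ : Finset (XX m ℓ)).image
    fun a => Finset.univ.filter fun u : XX m ℓ × XX m ℓ => u.1 - u.2 = a with hS3
  have c1 : S1.card ≤ Fintype.card (XX m ℓ) := by
    rw [← Finset.card_univ]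
    exact Finset.card_image_le
  have c2 : S2.card ≤ Fintype.card (XX m ℓ) := by
    rw [← Finset.card_univ]
    exact Finset.card_image_le
  have c3 : S3.card ≤ Fintype.card (XX m ℓ) := by
    rw [← Finset.card_univ]
    exact Finset.card_image_le
  have hmem : ∀ U ∈ (MaxU (CDX (BB m ℓ))).filter fun U => ¬ Non (BB m ℓ) dt U,
      U ∈ S1 ∨ U ∈ S2 ∨ (ℓ = 2 ∧ U ∈ S3) := by
    intro U hU
    rw [Finset.mem_filter] at hU
    rcases clc hm dt hconn U hU.1 hU.2 with ⟨a, ha⟩ | ⟨a, ha⟩ | ⟨h2, a, ha⟩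
    · left
      rw [hS1, Finset.mem_image]
      exact ⟨a, Finset.mem_univ _, by ext u; rw [Finset.mem_filter, ha]; simp⟩
    · right; left
      rw [hS2, Finset.mem_image]
      exact ⟨a, Finset.mem_univ _, by ext u; rw [Finset.mem_filter, ha]; simp⟩
    · right; right
      refine ⟨h2, ?_⟩
      rw [hS3, Finset.mem_image]
      exact ⟨a, Finset.mem_univ _, by ext u; rw [Finset.mem_filter, ha]; simp⟩
  split_ifs with h2
  · have hsub : ((MaxU (CDX (BB m ℓ))).filter fun U => ¬ Non (BB m ℓ) dt U) ⊆ (S1 ∪ S2) ∪ S3 := by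
      intro U hU
      rw [Finset.mem_union, Finset.mem_union]
      rcases hmem U hU with h | h | h
      · exact Or.inl (Or.inl h)
      · exact Or.inl (Or.inr h)
      · exact Or.inr h.2
    have h3 := Finset.card_le_card hsub
    have h4 := Finset.card_union_le (S1 ∪ S2) S3
    have h5 := Finset.card_union_le S1 S2
    omega
  · have hsub : ((MaxU (CDX (BB m ℓ))).filter fun U => ¬ Non (BB m ℓ) dt U) ⊆ S1 ∪ S2 := by
      intro U hU
      rw [Finset.mem_union]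
      rcases hmem U hU with h | h | h
      · exact Or.inl h
      · exact Or.inr h
      · exact absurd h.1 h2
    have h3 := Finset.card_le_card hsub
    have h5 := Finset.card_union_le S1 S2
    omega

end Pool.Agent.H94.PM
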