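import Pool.Agent.H94.PM.TRF
import Pool.Agent.H94.PM.WL2
import Pool.Agent.H94.PM.CC3
import Pool.Agent.H94.PM.CC1
import Pool.Agent.H94.PM.AVM
import Pool.Agent.H94.PM.CLC
import Pool.Agent.H94.PL.Ech

set_option autoImplicit false

/-!
# [H94 PM FIN2] Main theorem for `ℓ = 2`

`q = card F ≥ 3` is odd, `N = card (XX m 2)`, `χ` from `PL.exists_LChar`, `dl A ≠ 0`, `κ` from `card_Cls_ge3`.  `m ≥ 3` and `hconn` give a detected pair (`ReflTransGen` from `0` to `1` starts with a step), so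
`Wl, Wi, v0` from `exists_L2`; `dt = DC χ c A Wl Wi`, `R t = Ev (WC χ c Wl Wi t)` (`dt.W = WC ..`); `Ev_flip`, `cc3` (with `ε₁ = κ ε / 4`): `E = #{D | R (ty D)} ≥ T / 2 - ε₁ q ^ n`, `T = #Cls`.
`avm` with `k = 3` (`clc_card`, `ℓ = 2`), this `R` and `ε₂ = κ ε N`: `∑ D with R, card KM ≤ 3 N E + ε₂ q ^ n`.
For `D` with `R (ty D)`: `card KM ≥ N` (`km_dich`); if `D` is not in the set of the statement then `card KM > N` (`km_dich`), so `card KM ≥ 4 N` (`ev_dich`).  With `b` the number of these `D`: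
`N E + 3 N b ≤ 3 N E + ε₂ q ^ n`, `b ≤ (2/3) E + ε₂ q ^ n / (3 N)`, so at least `E / 3 - ε₂ q ^ n / (3 N) ≥ T / 6 - ε₁ q ^ n / 3 - κ ε q ^ n / 3 ≥ (1/6 - ε) T` of the `D` are in the set (`κ q ^ n ≤ T`).
-/

namespace Pool.Agent.H94.PM

open Polynomial WithZero IsDedekindDomain
open Pool.Agent.H94.PL
open Pool.Agent.H94.PC (Mo Sq Pr pf om Mn mem_Mo mem_Sq mem_Pr mem_pf mem_pf')

open Classical in
theorem main2 {F : Type} [Field F] [Finite F] [DecidableEq (RatFunc F)] {m : ℕ}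
    (hq : 2 ∣ Nat.card F - 1) (hm : Nat.Coprime m 2) (hm3 : 3 ≤ m) {α : ℕ}
    (hα : 2 ∣ α * m + 1) {c : F} (hc : c ≠ 0) {A : Fin m → F[X]}
    (hA : ∀ i k, i ≠ k → A i ≠ A k) (hconn : ∀ i k, Relation.ReflTransGen (Dtc 2 A) i k)
    (ε : ℝ) (hε : 0 < ε) :
    ∃ κ : ℝ, 0 < κ ∧ ∃ n₀ : ℕ, ∀ n : ℕ, n₀ ≤ n →
      κ * (Nat.card F : ℝ) ^ n ≤ ((Cls (dl A) n).card : ℝ) ∧
      (1 / 6 - ε) * ((Cls (dl A) n).card : ℝ) ≤
        (((Cls (dl A) n).filter fun D => ∀ δ, IsSln 2 α c A D δ ↔ IsTcn 2 c A D δ).card : ℝ) := by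
  have hl : Fact (Nat.Prime 2) := ⟨Nat.prime_two⟩
  have hq3 : 3 ≤ Nat.card F := by
    have h1 : 1 < Nat.card F := Finite.one_lt_card
    have h3 := Nat.le_of_dvd (by omega) hq
    omega
  let _ : Fintype (XX m 2) := Fintype.ofFinite _
  have hΔ : dl A ≠ 0 := by
    unfold dl
    rw [Finset.prod_ne_zero_iff]
    intro p hp
    exact sub_ne_zero.2 (hA p.1 p.2 (mem_prs.1 hp).ne)
  obtain ⟨i, k, hik⟩ : ∃ i k, Dtc 2 A i k := by
    have h1 := hconn ⟨0, by omega⟩ ⟨1, by omega⟩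
    rcases Relation.ReflTransGen.cases_head h1 with h2 | ⟨x, h2, _⟩
    · have h3 := congrArg Fin.val h2
      simp at h3
    · exact ⟨_, x, h2⟩
  obtain ⟨χ⟩ := exists_LChar F Nat.prime_two hq
  obtain ⟨κ, hκ, n₁, h1⟩ := card_Cls_ge3 hq3 (dl A) hΔ
  obtain ⟨Wl, Wi, v0, hLOK, hWl, hWi, hinf⟩ := exists_L2 χ hq hm hm3 hα c hA hik
  have hcX : Nat.card (XX m 2) = Fintype.card (XX m 2) := Nat.card_eq_fintype_card
  have hW := card_WC χ c (A := A) (Wl := Wl) (Wi := Wi)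
    (fun v b => by rw [← hcX]; exact (hLOK.cl v b).le)
    (fun b => by rw [← hcX]; exact (hLOK.ci b).le)
  have hconn' : ∀ i k, Relation.ReflTransGen (Det (DC χ c A Wl Wi).L) i k := fun i k =>
    Relation.ReflTransGen.mono (fun a b hab => det_DC χ c hA Wl Wi hab) i k (hconn i k)
  have hN0 : 0 < Fintype.card (XX m 2) := Fintype.card_pos
  have hN0' : (0 : ℝ) < Fintype.card (XX m 2) := by exact_mod_cast hN0
  have hk : ((MaxU (CDX (BB m 2))).filter fun U => ¬ Non (BB m 2) (DC χ c A Wl Wi) U).card ≤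
      3 * Fintype.card (XX m 2) := by
    have h3 := clc_card hm (DC χ c A Wl Wi) hconn'
    rw [if_pos rfl] at h3
    exact h3
  obtain ⟨R, hRd⟩ : ∃ R : Tp 2 (pf (dl A)) → Prop, R = fun t => Ev (WC χ c Wl Wi t) := ⟨_, rfl⟩
  obtain ⟨n₂, h3⟩ := avm (BB m 2) χ (BB_good hm) hΔ (DC χ c A Wl Wi) hW 3
    (clc_std hm _ hconn') hk (κ * ε * Fintype.card (XX m 2)) (by positivity)
  obtain ⟨n₃, h4⟩ := cc3 χ hq3 hΔ v0 R (fun t => by
    rw [hRd]
    exact Ev_flip hm hA hLOK c v0 hinf t) (κ * ε / 4) (by positivity)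
  refine ⟨κ, hκ, max (max n₁ n₂) (max n₃ 1), fun n hn => ?_⟩
  have hn1 : n₁ ≤ n := (le_max_left _ _).trans ((le_max_left _ _).trans hn)
  have hn2 : n₂ ≤ n := (le_max_right _ _).trans ((le_max_left _ _).trans hn)
  have hn4 : n₃ ≤ n := (le_max_left _ _).trans ((le_max_right _ _).trans hn)
  have hn3 : 1 ≤ n := (le_max_right _ _).trans ((le_max_right _ _).trans hn)
  have hT := h1 n hn1
  refine ⟨hT, ?_⟩
  have h5 := h3 n hn2 R
  have h6 := h4 n hn4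
  obtain ⟨N, hNd⟩ : ∃ N : ℝ, N = (Fintype.card (XX m 2) : ℝ) := ⟨_, rfl⟩
  rw [← hNd] at h5 hN0'
  -- the lower bound
  have h7 : ∀ D ∈ Cls (dl A) n, (if R (ty χ (dl A) D) then N else 0) +
      (if R (ty χ (dl A) D) ∧ ¬ (∀ δ, IsSln 2 α c A D δ ↔ IsTcn 2 c A D δ) then 3 * N else 0) ≤
      (if R (ty χ (dl A) D) then (Nat.card (KM χ (DC χ c A Wl Wi) D) : ℝ) else 0) := by
    intro D hD
    by_cases hR : R (ty χ (dl A) D)
    · rw [if_pos hR, if_pos hR]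
      obtain ⟨h8, h9⟩ := km_dich χ hm hα hc hA hn3 hD hWl hWi
      have h8' : N ≤ (Nat.card (KM χ (DC χ c A Wl Wi) D) : ℝ) := by
        rw [hNd, ← hcX]
        exact_mod_cast h8
      by_cases hg : ∀ δ, IsSln 2 α c A D δ ↔ IsTcn 2 c A D δ
      · rw [if_neg (fun h => h.2 hg), add_zero]
        exact h8'
      · rw [if_pos ⟨hR, hg⟩]
        have h10 := h9.resolve_left hg
        have hev : Ev (WC χ c Wl Wi (ty χ (dl A) D)) := by
          have h11 := hR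
          rw [hRd] at h11
          exact h11
        rcases ev_dich hm hA hLOK c D hev h8 with h12 | h12
        · omega
        · have h13 : 4 * N ≤ (Nat.card (KM χ (DC χ c A Wl Wi) D) : ℝ) := by
            rw [hNd, ← hcX]
            exact_mod_cast h12
          linarith
    · rw [if_neg hR, if_neg hR, if_neg (fun h => hR h.1), add_zero]
  have h8 := (Finset.sum_le_sum h7).trans h5
  rw [Finset.sum_add_distrib, ← Finset.sum_filter, ← Finset.sum_filter, Finset.sum_const,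
    Finset.sum_const, nsmul_eq_mul, nsmul_eq_mul] at h8
  -- the numbers
  have h9 : (((Cls (dl A) n).filter fun D => R (ty χ (dl A) D)).card : ℝ) ≤
      (((Cls (dl A) n).filter fun D => ∀ δ, IsSln 2 α c A D δ ↔ IsTcn 2 c A D δ).card : ℝ) +
      (((Cls (dl A) n).filter fun D => R (ty χ (dl A) D) ∧
        ¬ (∀ δ, IsSln 2 α c A D δ ↔ IsTcn 2 c A D δ)).card : ℝ) := by
    have h10 : ((Cls (dl A) n).filter fun D => R (ty χ (dl A) D)) ⊆
        ((Cls (dl A) n).filter fun D => ∀ δ, IsSln 2 α c A D δ ↔ IsTcn 2 c A D δ) ∪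
        ((Cls (dl A) n).filter fun D => R (ty χ (dl A) D) ∧
          ¬ (∀ δ, IsSln 2 α c A D δ ↔ IsTcn 2 c A D δ)) := by
      intro D hD
      obtain ⟨hD1, hD2⟩ := Finset.mem_filter.1 hD
      by_cases hg : ∀ δ, IsSln 2 α c A D δ ↔ IsTcn 2 c A D δ
      · exact Finset.mem_union_left _ (Finset.mem_filter.2 ⟨hD1, hg⟩)
      · exact Finset.mem_union_right _ (Finset.mem_filter.2 ⟨hD1, hD2, hg⟩)
    have h11 := (Finset.card_le_card h10).trans (Finset.card_union_le _ _)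
    exact_mod_cast h11
  obtain ⟨g, hgd⟩ : ∃ g : ℝ, g = (((Cls (dl A) n).filter fun D =>
    ∀ δ, IsSln 2 α c A D δ ↔ IsTcn 2 c A D δ).card : ℝ) := ⟨_, rfl⟩
  obtain ⟨b, hbd⟩ : ∃ b : ℝ, b = (((Cls (dl A) n).filter fun D => R (ty χ (dl A) D) ∧
    ¬ (∀ δ, IsSln 2 α c A D δ ↔ IsTcn 2 c A D δ)).card : ℝ) := ⟨_, rfl⟩
  obtain ⟨E, hEd⟩ : ∃ E : ℝ, E = (((Cls (dl A) n).filter fun D =>
    R (ty χ (dl A) D)).card : ℝ) := ⟨_, rfl⟩
  obtain ⟨T, hTd⟩ : ∃ T : ℝ, T = ((Cls (dl A) n).card : ℝ) := ⟨_, rfl⟩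
  obtain ⟨Q, hQd⟩ : ∃ Q : ℝ, Q = (Nat.card F : ℝ) ^ n := ⟨_, rfl⟩
  rw [← hbd, ← hEd, ← hQd] at h8
  rw [← hgd, ← hbd, ← hEd] at h9
  rw [← hTd, ← hQd] at hT
  rw [← hTd, ← hEd, ← hQd] at h6
  rw [← hgd, ← hTd]
  have h10 : N * (3 * b) ≤ N * (2 * E + κ * ε * Q) := by
    push_cast at h8
    linarith
  have h11 := le_of_mul_le_mul_left h10 hN0'
  have h12 : κ * ε * Q ≤ ε * T := by
    have h13 := mul_le_mul_of_nonneg_left hT hε.le
    linarith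
  have hT0 : 0 ≤ ε * T := by
    rw [hTd]
    positivity
  linarith

end Pool.Agent.H94.PM
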