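import Pool.Agent.H94.PM.TRF
import Pool.Agent.H94.PM.WLO
import Pool.Agent.H94.PM.AVM
import Pool.Agent.H94.PM.CLC
import Pool.Agent.H94.PL.CardCls
import Pool.Agent.H94.PL.Ech

set_option autoImplicit false

/-!
# [H94 PM FINO] Main theorem for odd `ℓ`

`q = card F ≥ 4` (`ℓ ≥ 3` divides `q - 1 ≥ 1`), `N = card (XX m ℓ)`, `χ` from `PL.exists_LChar`, `dl A ≠ 0`, `κ, n₀` from `PL.card_Cls_ge`, `Wl`, `Wi` from `exists_OKl`, `exists_OKi`,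
`dt = DC χ c A Wl Wi`.  `hconn` and `det_DC` give `∀ i k, ReflTransGen (Det dt.L) i k` (`Relation.ReflTransGen.mono`).
`avm` with `k = 2` (`clc_std`, `clc_card`, `ℓ ≠ 2`; `hW` is `card_WC`), `R = fun _ => True` and `ε' = ε κ (ℓ - 1) N`: for large `n`, with `T = card (Cls (dl A) n)`,
`∑ D, card KM ≤ 2 N T + ε' q ^ n`.
For `D ∈ Cls (dl A) n`: `card KM ≥ N` (`km_dich`), and `≥ ℓ N` if `D` is not in the set of the statement (`sel_of_card`).  With `b` the number of the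
latter `D`: `N T + (ℓ - 1) N b ≤ 2 N T + ε' q ^ n`, so `b ≤ T / (ℓ - 1) + ε κ q ^ n ≤ (1 / (ℓ - 1) + ε) T`.
-/

namespace Pool.Agent.H94.PM

open Polynomial WithZero IsDedekindDomain
open Pool.Agent.H94.PL
open Pool.Agent.H94.PC (Mo Sq Pr pf om Mn mem_Mo mem_Sq mem_Pr mem_pf mem_pf')

open Classical in
theorem mainO {F : Type} [Field F] [Finite F] [DecidableEq (RatFunc F)] {ℓ m : ℕ}
    (hℓ : ℓ.Prime) (h2 : ℓ ≠ 2) (hq : ℓ ∣ Nat.card F - 1) (hm : Nat.Coprime m ℓ) {α : ℕ}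
    (hα : ℓ ∣ α * m + 1) {c : F} (hc : c ≠ 0) {A : Fin m → F[X]}
    (hA : ∀ i k, i ≠ k → A i ≠ A k) (hconn : ∀ i k, Relation.ReflTransGen (Dtc ℓ A) i k)
    (ε : ℝ) (hε : 0 < ε) :
    ∃ κ : ℝ, 0 < κ ∧ ∃ n₀ : ℕ, ∀ n : ℕ, n₀ ≤ n →
      κ * (Nat.card F : ℝ) ^ n ≤ ((Cls (dl A) n).card : ℝ) ∧
      (1 - 1 / ((ℓ : ℝ) - 1) - ε) * ((Cls (dl A) n).card : ℝ) ≤
        (((Cls (dl A) n).filter fun D => ∀ δ, IsSln ℓ α c A D δ ↔ IsTcn ℓ c A D δ).card : ℝ) := by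
  have hl : Fact ℓ.Prime := ⟨hℓ⟩
  have hNZ : NeZero ℓ := ⟨hℓ.ne_zero⟩
  have hl3 : 3 ≤ ℓ := by
    have := hℓ.two_le
    omega
  have hq4 : 4 ≤ Nat.card F := by
    have h1 : 1 < Nat.card F := Finite.one_lt_card
    have h3 := Nat.le_of_dvd (by omega) hq
    omega
  letI : Fintype (XX m ℓ) := Fintype.ofFinite _
  have hΔ : dl A ≠ 0 := by
    unfold dl
    rw [Finset.prod_ne_zero_iff]
    intro p hp
    exact sub_ne_zero.2 (hA p.1 p.2 (mem_prs.1 hp).ne)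
  obtain ⟨χ⟩ := exists_LChar F hℓ hq
  obtain ⟨κ, hκ, n₁, h1⟩ := card_Cls_ge hq4 (dl A) hΔ
  obtain ⟨Wl, hWlc, hWl⟩ := exists_OKl χ hq hm hα A
  obtain ⟨Wi, hWic, hWi⟩ := exists_OKi χ hq hm hα c A
  have hcX : Nat.card (XX m ℓ) = Fintype.card (XX m ℓ) := Nat.card_eq_fintype_card
  have hW := card_WC χ c (A := A) (Wl := Wl) (Wi := Wi) (fun v b => by rw [← hcX]; exact hWlc v b)
    (fun b => by rw [← hcX]; exact hWic b)
  have hconn' : ∀ i k, Relation.ReflTransGen (Det (DC χ c A Wl Wi).L) i k := fun i k =>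
    Relation.ReflTransGen.mono (fun a b hab => det_DC χ c hA Wl Wi hab) i k (hconn i k)
  have hN0 : 0 < Fintype.card (XX m ℓ) := Fintype.card_pos
  have hN0' : (0 : ℝ) < Fintype.card (XX m ℓ) := by exact_mod_cast hN0
  have hl1 : (0 : ℝ) < (ℓ : ℝ) - 1 := by
    have : (3 : ℝ) ≤ ℓ := by exact_mod_cast hl3
    linarith
  have hk : ((MaxU (CDX (BB m ℓ))).filter fun U => ¬ Non (BB m ℓ) (DC χ c A Wl Wi) U).card ≤
      2 * Fintype.card (XX m ℓ) := by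
    have h3 := clc_card hm (DC χ c A Wl Wi) hconn'
    rw [if_neg h2] at h3
    exact h3
  obtain ⟨n₂, h3⟩ := avm (BB m ℓ) χ (BB_good hm) hΔ (DC χ c A Wl Wi) hW 2
    (clc_std hm _ hconn') hk (ε * κ * ((ℓ : ℝ) - 1) * Fintype.card (XX m ℓ)) (by positivity)
  refine ⟨κ, hκ, max (max n₁ n₂) 1, fun n hn => ?_⟩
  have hn1 : n₁ ≤ n := (le_max_left _ _).trans ((le_max_left _ _).trans hn)
  have hn2 : n₂ ≤ n := (le_max_right _ _).trans ((le_max_left _ _).trans hn)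
  have hn3 : 1 ≤ n := (le_max_right _ _).trans hn
  have hT := h1 n hn1
  refine ⟨hT, ?_⟩
  have h4 := h3 n hn2 fun _ => True
  simp only [if_true, Finset.filter_true] at h4
  obtain ⟨N, hNd⟩ : ∃ N : ℝ, N = (Fintype.card (XX m ℓ) : ℝ) := ⟨_, rfl⟩
  rw [← hNd] at h4 hN0'
  -- the lower bound
  have h5 : ∀ D ∈ Cls (dl A) n, N + (if ¬ (∀ δ, IsSln ℓ α c A D δ ↔ IsTcn ℓ c A D δ) then
      ((ℓ : ℝ) - 1) * N else 0) ≤ (Nat.card (KM χ (DC χ c A Wl Wi) D) : ℝ) := by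
    intro D hD
    have h6 := (km_dich χ hm hα hc hA hn3 hD hWl hWi).1
    rw [hcX] at h6
    have h7 : N ≤ (Nat.card (KM χ (DC χ c A Wl Wi) D) : ℝ) := by
      rw [hNd]
      exact_mod_cast h6
    by_cases hg : ∀ δ, IsSln ℓ α c A D δ ↔ IsTcn ℓ c A D δ
    · rw [if_neg (not_not.2 hg), add_zero]
      exact h7
    · rw [if_pos hg]
      rcases sel_of_card χ hm hα hc hA hn3 hD hWl hWi with h8 | h8
      · exact absurd h8 hg
      · rw [hcX] at h8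
        have h9 : (ℓ : ℝ) * N ≤ (Nat.card (KM χ (DC χ c A Wl Wi) D) : ℝ) := by
          rw [hNd]
          exact_mod_cast h8
        linarith
  have h6 := Finset.sum_le_sum h5
  rw [Finset.sum_add_distrib, Finset.sum_const, nsmul_eq_mul, ← Finset.sum_filter,
    Finset.sum_const, nsmul_eq_mul] at h6
  have h7 := Finset.card_filter_add_card_filter_not (s := Cls (dl A) n)
    (fun D => ∀ δ, IsSln ℓ α c A D δ ↔ IsTcn ℓ c A D δ)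
  have h7' : (((Cls (dl A) n).filter fun D => ∀ δ, IsSln ℓ α c A D δ ↔ IsTcn ℓ c A D δ).card : ℝ) +
      (((Cls (dl A) n).filter fun D => ¬ ∀ δ, IsSln ℓ α c A D δ ↔ IsTcn ℓ c A D δ).card : ℝ) =
      ((Cls (dl A) n).card : ℝ) := by exact_mod_cast h7
  obtain ⟨g, hgd⟩ : ∃ g : ℝ, g = (((Cls (dl A) n).filter fun D =>
    ∀ δ, IsSln ℓ α c A D δ ↔ IsTcn ℓ c A D δ).card : ℝ) := ⟨_, rfl⟩
  obtain ⟨b, hbd⟩ : ∃ b : ℝ, b = (((Cls (dl A) n).filter fun D =>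
    ¬ ∀ δ, IsSln ℓ α c A D δ ↔ IsTcn ℓ c A D δ).card : ℝ) := ⟨_, rfl⟩
  obtain ⟨T, hTd⟩ : ∃ T : ℝ, T = ((Cls (dl A) n).card : ℝ) := ⟨_, rfl⟩
  rw [← hgd, ← hbd, ← hTd] at h7'
  rw [← hbd, ← hTd] at h6
  rw [← hTd] at h4 hT
  rw [← hgd, ← hTd]
  have h8 : T * N + b * (((ℓ : ℝ) - 1) * N) ≤ 2 * N * T +
      ε * κ * ((ℓ : ℝ) - 1) * N * (Nat.card F : ℝ) ^ n := by
    refine h6.trans (h4.trans (le_of_eq ?_))
    push_cast
    ring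
  have h9 : b * ((ℓ : ℝ) - 1) ≤ T + ε * κ * ((ℓ : ℝ) - 1) * (Nat.card F : ℝ) ^ n := by
    have h10 : N * (b * ((ℓ : ℝ) - 1)) ≤
        N * (T + ε * κ * ((ℓ : ℝ) - 1) * (Nat.card F : ℝ) ^ n) := by
      linarith
    exact le_of_mul_le_mul_left h10 hN0'
  have h10 : ε * κ * ((ℓ : ℝ) - 1) * (Nat.card F : ℝ) ^ n ≤ ε * ((ℓ : ℝ) - 1) * T := by
    have h11 := mul_le_mul_of_nonneg_left hT (show 0 ≤ ε * ((ℓ : ℝ) - 1) by positivity)
    linarith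
  have h11 : b ≤ (1 / ((ℓ : ℝ) - 1) + ε) * T := by
    have h12 : ((ℓ : ℝ) - 1) * b ≤ ((ℓ : ℝ) - 1) * ((1 / ((ℓ : ℝ) - 1) + ε) * T) := by
      have e1 : ((ℓ : ℝ) - 1) * ((1 / ((ℓ : ℝ) - 1) + ε) * T) = T + ε * ((ℓ : ℝ) - 1) * T := by
        field_simp
      rw [e1]
      linarith
    exact le_of_mul_le_mul_left h12 hl1
  linarith

end Pool.Agent.H94.PM
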