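import Pool.Agent.H94.PM.LS

set_option autoImplicit false

/-!
# [H94 PM HEN] `ℓ`-th roots of elements near `1` in a complete field

* `hen`: `O = {v ≤ 1}`, `ℓ` a unit.  `f y = y - (y ^ ℓ - x) / ℓ` maps the ball `{v (y - 1) < 1}` to itself and
  `f y - f z = (y - z) * (1 - (∑ i < ℓ, y ^ i * z ^ (ℓ - 1 - i)) / ℓ)`; for `y, z` in the ball `y ^ i * z ^ (ℓ - 1 - i)` is near `1`, so the last factor has
  valuation `< 1`, i.e. `≤ exp (-1)` (values are integers): `v (f y - f z) ≤ exp (-1) * v (y - z)`.  So `y₀ = 1`, `y (n + 1) = f (y n)` is a Cauchy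
  sequence (`v (y (n + 1) - y n) ≤ exp (- n)`), and the limit `y` is in the ball (closed and open) and satisfies `f y = y`, i.e. `y ^ ℓ = x`.
  (Possible ways: `ContractingWith` for the norm used in `PL.Irr`, or `cauchySeq` for the valued uniformity
  (`Valued.cauchy_iff`), or Newton iteration.)
* `pow_of_lu`: `vl x = ℓ j`, `x' = x * ϖ ^ (- ℓ j)`, `v x' = 1` (`vl ϖ = 1`), `un x' = un x - ℓ j un ϖ = 0`, so by `ker` `v (x' * y ^ ℓ - 1) < 1`,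
  by `hen` `x' * y ^ ℓ = z ^ ℓ`, and `x = (z * y⁻¹ * ϖ ^ j) ^ ℓ`.
-/

namespace Pool.Agent.H94.PM

open WithZero

private lemma le_exp_neg_one {a : ℤᵐ⁰} (h : a < 1) : a ≤ exp (-1 : ℤ) := by
  rcases eq_or_ne a 0 with rfl | ha
  · exact zero_le'
  · rw [← exp_log ha] at h ⊢
    rw [← exp_zero, exp_lt_exp] at h
    rw [exp_le_exp]
    omega

section
variable {M : Type} [Field M] [hv : Valued M ℤᵐ⁰]

private lemma nb (δ : M) (hδ : (Valued.v : Valuation M ℤᵐ⁰) δ ≠ 0) (L : M) :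
    {y : M | (Valued.v : Valuation M ℤᵐ⁰) (y - L) < (Valued.v : Valuation M ℤᵐ⁰) δ} ∈ nhds L := by
  rw [Valued.mem_nhds]
  have h' : (Valued.v : Valuation M ℤᵐ⁰).restrict δ ≠ 0 := by simpa using hδ
  refine ⟨Units.mk0 _ h', ?_⟩
  intro y hy
  rw [Units.val_mk0] at hy
  exact (Valued.v : Valuation M ℤᵐ⁰).restrict_lt_iff.mp hy

private lemma near_pow {y : M} (hy : (Valued.v : Valuation M ℤᵐ⁰) (y - 1) < 1) (n : ℕ) :
    (Valued.v : Valuation M ℤᵐ⁰) (y ^ n - 1) < 1 := by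
  induction n with
  | zero => rw [pow_zero, sub_self, map_zero]; exact zero_lt_one
  | succ n ih => rw [pow_succ]; exact Pool.Agent.H94.PL.near_mul ih hy

private lemma near_sum {y z : M} (hy : (Valued.v : Valuation M ℤᵐ⁰) (y - 1) < 1)
    (hz : (Valued.v : Valuation M ℤᵐ⁰) (z - 1) < 1) (ℓ : ℕ) :
    (Valued.v : Valuation M ℤᵐ⁰)
      ((∑ i ∈ Finset.range ℓ, y ^ i * z ^ (ℓ - 1 - i)) - (ℓ : M)) < 1 := by
  have h1 : (∑ i ∈ Finset.range ℓ, y ^ i * z ^ (ℓ - 1 - i)) - (ℓ : M)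
      = ∑ i ∈ Finset.range ℓ, (y ^ i * z ^ (ℓ - 1 - i) - 1) := by
    rw [Finset.sum_sub_distrib]
    simp
  rw [h1]
  refine Valuation.map_sum_lt _ one_ne_zero (fun i _ => ?_)
  exact Pool.Agent.H94.PL.near_mul (near_pow hy i) (near_pow hz _)

/-- the iteration -/
private noncomputable def it (ℓ : ℕ) (x : M) : ℕ → M
  | 0 => 1
  | n + 1 => it ℓ x n - (it ℓ x n ^ ℓ - x) / (ℓ : M)

private lemma it_near {ℓ : ℕ} (hℓ : (Valued.v : Valuation M ℤᵐ⁰) (ℓ : M) = 1) {x : M}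
    (hx : (Valued.v : Valuation M ℤᵐ⁰) (x - 1) < 1) (n : ℕ) :
    (Valued.v : Valuation M ℤᵐ⁰) (it ℓ x n - 1) < 1 := by
  induction n with
  | zero => rw [it, sub_self, map_zero]; exact zero_lt_one
  | succ n ih =>
    have h1 : (Valued.v : Valuation M ℤᵐ⁰) ((it ℓ x n ^ ℓ - x) / (ℓ : M)) < 1 := by
      rw [map_div₀, hℓ, div_one]
      have h2 : it ℓ x n ^ ℓ - x = (it ℓ x n ^ ℓ - 1) - (x - 1) := by ring
      rw [h2]
      exact (Valuation.map_sub _ _ _).trans_lt (max_lt (near_pow ih ℓ) hx)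
    have h3 : it ℓ x (n + 1) - 1 = (it ℓ x n - 1) - (it ℓ x n ^ ℓ - x) / (ℓ : M) := by
      rw [it]; ring
    rw [h3]
    exact (Valuation.map_sub _ _ _).trans_lt (max_lt ih h1)

private lemma contr {ℓ : ℕ} (hℓ : (Valued.v : Valuation M ℤᵐ⁰) (ℓ : M) = 1) {x y z : M}
    (hy : (Valued.v : Valuation M ℤᵐ⁰) (y - 1) < 1)
    (hz : (Valued.v : Valuation M ℤᵐ⁰) (z - 1) < 1) :
    (Valued.v : Valuation M ℤᵐ⁰) ((y - (y ^ ℓ - x) / (ℓ : M)) - (z - (z ^ ℓ - x) / (ℓ : M)))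
      ≤ exp (-1 : ℤ) * (Valued.v : Valuation M ℤᵐ⁰) (y - z) := by
  have hl0 : (ℓ : M) ≠ 0 := by
    intro h
    rw [h, map_zero] at hℓ
    exact zero_ne_one hℓ
  have hg : (∑ i ∈ Finset.range ℓ, y ^ i * z ^ (ℓ - 1 - i)) * (y - z) = y ^ ℓ - z ^ ℓ :=
    (Commute.all y z).geom_sum₂_mul ℓ
  have h1 : (y - (y ^ ℓ - x) / (ℓ : M)) - (z - (z ^ ℓ - x) / (ℓ : M))
      = -(((∑ i ∈ Finset.range ℓ, y ^ i * z ^ (ℓ - 1 - i)) - (ℓ : M)) / (ℓ : M)) * (y - z) := by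
    have h2 : (y - (y ^ ℓ - x) / (ℓ : M)) - (z - (z ^ ℓ - x) / (ℓ : M))
        = (y - z) - (y ^ ℓ - z ^ ℓ) / (ℓ : M) := by
      field_simp
      ring
    rw [h2, ← hg]
    field_simp
    ring
  rw [h1, map_mul, Valuation.map_neg, map_div₀, hℓ, div_one]
  exact mul_le_mul_left (le_exp_neg_one (near_sum hy hz ℓ)) _

private lemma it_step {ℓ : ℕ} (hℓ : (Valued.v : Valuation M ℤᵐ⁰) (ℓ : M) = 1) {x : M}
    (hx : (Valued.v : Valuation M ℤᵐ⁰) (x - 1) < 1) (n : ℕ) :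
    (Valued.v : Valuation M ℤᵐ⁰) (it ℓ x (n + 1) - it ℓ x n) ≤ exp (-(n : ℤ)) := by
  induction n with
  | zero =>
    have h1 := it_near hℓ hx 1
    have h2 : it ℓ x 0 = 1 := rfl
    rw [h2]
    refine h1.le.trans ?_
    simp
  | succ n ih =>
    have h1 := contr (x := x) hℓ (it_near hℓ hx (n + 1)) (it_near hℓ hx n)
    have h2 : it ℓ x (n + 1 + 1) = it ℓ x (n + 1) - (it ℓ x (n + 1) ^ ℓ - x) / (ℓ : M) := rfl
    have h3 : it ℓ x (n + 1) = it ℓ x n - (it ℓ x n ^ ℓ - x) / (ℓ : M) := rfl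
    rw [← h2, ← h3] at h1
    refine h1.trans ?_
    have h4 : exp (-1 : ℤ) * (Valued.v : Valuation M ℤᵐ⁰) (it ℓ x (n + 1) - it ℓ x n)
        ≤ exp (-1 : ℤ) * exp (-(n : ℤ)) := mul_le_mul_right ih _
    refine h4.trans (le_of_eq ?_)
    rw [← exp_add]
    congr 1
    push_cast
    ring

private lemma it_dist {ℓ : ℕ} (hℓ : (Valued.v : Valuation M ℤᵐ⁰) (ℓ : M) = 1) {x : M}
    (hx : (Valued.v : Valuation M ℤᵐ⁰) (x - 1) < 1) (n k : ℕ) :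
    (Valued.v : Valuation M ℤᵐ⁰) (it ℓ x (n + k) - it ℓ x n) ≤ exp (-(n : ℤ)) := by
  induction k with
  | zero => rw [add_zero, sub_self, map_zero]; exact zero_le'
  | succ k ih =>
    have h1 : it ℓ x (n + (k + 1)) - it ℓ x n
        = (it ℓ x (n + k + 1) - it ℓ x (n + k)) + (it ℓ x (n + k) - it ℓ x n) := by
      rw [← add_assoc]; ring
    rw [h1]
    refine (Valuation.map_add _ _ _).trans (max_le ?_ ih)
    refine (it_step hℓ hx (n + k)).trans ?_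
    rw [exp_le_exp]
    push_cast
    omega

private lemma it_dist' {ℓ : ℕ} (hℓ : (Valued.v : Valuation M ℤᵐ⁰) (ℓ : M) = 1) {x : M}
    (hx : (Valued.v : Valuation M ℤᵐ⁰) (x - 1) < 1) {N m n : ℕ} (hm : N ≤ m) (hn : N ≤ n) :
    (Valued.v : Valuation M ℤᵐ⁰) (it ℓ x m - it ℓ x n) ≤ exp (-(N : ℤ)) := by
  obtain ⟨a, rfl⟩ := Nat.exists_eq_add_of_le hm
  obtain ⟨b, rfl⟩ := Nat.exists_eq_add_of_le hn
  have h1 : it ℓ x (N + a) - it ℓ x (N + b)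
      = (it ℓ x (N + a) - it ℓ x N) - (it ℓ x (N + b) - it ℓ x N) := by ring
  rw [h1]
  exact (Valuation.map_sub _ _ _).trans (max_le (it_dist hℓ hx N a) (it_dist hℓ hx N b))

private lemma exists_exp_lt {c : ℤᵐ⁰} (hc : c ≠ 0) : ∃ N : ℕ, exp (-(N : ℤ)) < c := by
  refine ⟨(1 - log c).toNat, ?_⟩
  rw [← exp_log hc, exp_lt_exp, log_exp]
  have := Int.self_le_toNat (1 - log c)
  omega

private lemma it_cauchy {ℓ : ℕ} (hℓ : (Valued.v : Valuation M ℤᵐ⁰) (ℓ : M) = 1) {x : M}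
    (hx : (Valued.v : Valuation M ℤᵐ⁰) (x - 1) < 1) : CauchySeq (it ℓ x) := by
  unfold CauchySeq
  rw [Valued.cauchy_iff]
  refine ⟨inferInstance, fun γ => ?_⟩
  have hc : MonoidWithZeroHom.ValueGroup₀.embedding γ.1 ≠ (0 : ℤᵐ⁰) := by
    intro h
    exact γ.ne_zero ((map_eq_zero _).1 h)
  obtain ⟨N, hN⟩ := exists_exp_lt hc
  refine ⟨it ℓ x '' {n | N ≤ n}, ?_, ?_⟩
  · rw [Filter.mem_map]
    exact Filter.mem_of_superset (Filter.Ici_mem_atTop N) (fun n hn => ⟨n, hn, rfl⟩)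
  · rintro _ ⟨m, hm, rfl⟩ _ ⟨n, hn, rfl⟩
    rw [Valuation.restrict_lt_iff_lt_embedding]
    exact (it_dist' hℓ hx hn hm).trans_lt hN

end

variable {M : Type} [Field M] [hv : Valued M ℤᵐ⁰] [CompleteSpace M]

theorem hen {ℓ : ℕ} (hℓ : (Valued.v : Valuation M ℤᵐ⁰) (ℓ : M) = 1) {x : M}
    (hx : (Valued.v : Valuation M ℤᵐ⁰) (x - 1) < 1) :
    ∃ y : M, (Valued.v : Valuation M ℤᵐ⁰) (y - 1) < 1 ∧ y ^ ℓ = x := by
  obtain ⟨L, hL⟩ := cauchySeq_tendsto_of_complete (it_cauchy hℓ hx)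
  have hl0 : (ℓ : M) ≠ 0 := by
    intro h
    rw [h, map_zero] at hℓ
    exact zero_ne_one hℓ
  have hball : (Valued.v : Valuation M ℤᵐ⁰) (L - 1) < 1 := by
    have h1 := hL (nb (1 : M) (by rw [map_one]; exact one_ne_zero) L)
    rw [Filter.mem_map] at h1
    obtain ⟨n, hn⟩ := (Filter.nonempty_of_mem h1)
    have hn' : (Valued.v : Valuation M ℤᵐ⁰) (it ℓ x n - L) < 1 := by
      have h2 : (Valued.v : Valuation M ℤᵐ⁰) (it ℓ x n - L) < (Valued.v : Valuation M ℤᵐ⁰) 1 := hn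
      rwa [map_one] at h2
    have h2 : L - 1 = (it ℓ x n - 1) - (it ℓ x n - L) := by ring
    rw [h2]
    exact (Valuation.map_sub _ _ _).trans_lt (max_lt (it_near hℓ hx n) hn')
  refine ⟨L, hball, ?_⟩
  by_contra hne
  have hδ : L ^ ℓ - x ≠ 0 := sub_ne_zero.2 hne
  have hvδ : (Valued.v : Valuation M ℤᵐ⁰) (L ^ ℓ - x) ≠ 0 := (Valuation.ne_zero_iff _).2 hδ
  obtain ⟨N, hN⟩ := exists_exp_lt hvδ
  have h1 := hL (nb (L ^ ℓ - x) hvδ L)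
  rw [Filter.mem_map] at h1
  obtain ⟨n, hn, hnN⟩ := (Filter.nonempty_of_mem
    (Filter.inter_mem h1 (Filter.Ici_mem_atTop N)))
  have hn' : (Valued.v : Valuation M ℤᵐ⁰) (it ℓ x n - L)
      < (Valued.v : Valuation M ℤᵐ⁰) (L ^ ℓ - x) := hn
  have hnN' : N ≤ n := hnN
  have hg : (∑ i ∈ Finset.range ℓ, L ^ i * (it ℓ x n) ^ (ℓ - 1 - i)) * (L - it ℓ x n)
      = L ^ ℓ - (it ℓ x n) ^ ℓ := (Commute.all L (it ℓ x n)).geom_sum₂_mul ℓ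
  have hsum : (Valued.v : Valuation M ℤᵐ⁰)
      (∑ i ∈ Finset.range ℓ, L ^ i * (it ℓ x n) ^ (ℓ - 1 - i)) ≤ 1 := by
    have h3 := near_sum hball (it_near hℓ hx n) ℓ
    have h4 : (∑ i ∈ Finset.range ℓ, L ^ i * (it ℓ x n) ^ (ℓ - 1 - i))
        = ((∑ i ∈ Finset.range ℓ, L ^ i * (it ℓ x n) ^ (ℓ - 1 - i)) - (ℓ : M)) + (ℓ : M) := by ring
    rw [h4]
    exact (Valuation.map_add _ _ _).trans (max_le h3.le hℓ.le)
  have hA : (Valued.v : Valuation M ℤᵐ⁰) (L ^ ℓ - (it ℓ x n) ^ ℓ)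
      < (Valued.v : Valuation M ℤᵐ⁰) (L ^ ℓ - x) := by
    rw [← hg, map_mul]
    have h5 : (Valued.v : Valuation M ℤᵐ⁰) (L - it ℓ x n)
        = (Valued.v : Valuation M ℤᵐ⁰) (it ℓ x n - L) := Valuation.map_sub_swap _ _ _
    rw [h5]
    calc _ ≤ 1 * (Valued.v : Valuation M ℤᵐ⁰) (it ℓ x n - L) := mul_le_mul_left hsum _
      _ = (Valued.v : Valuation M ℤᵐ⁰) (it ℓ x n - L) := one_mul _
      _ < _ := hn'
  have hB : (Valued.v : Valuation M ℤᵐ⁰) ((it ℓ x n) ^ ℓ - x)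
      < (Valued.v : Valuation M ℤᵐ⁰) (L ^ ℓ - x) := by
    have h6 : (it ℓ x n) ^ ℓ - x = -((it ℓ x (n + 1) - it ℓ x n) * (ℓ : M)) := by
      rw [it]
      field_simp
      ring
    rw [h6, Valuation.map_neg, map_mul, hℓ, mul_one]
    refine (it_step hℓ hx n).trans_lt (lt_of_le_of_lt ?_ hN)
    rw [exp_le_exp]
    omega
  have hC : L ^ ℓ - x = (L ^ ℓ - (it ℓ x n) ^ ℓ) + ((it ℓ x n) ^ ℓ - x) := by ring
  have hD : (Valued.v : Valuation M ℤᵐ⁰) (L ^ ℓ - x)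
      ≤ max ((Valued.v : Valuation M ℤᵐ⁰) (L ^ ℓ - (it ℓ x n) ^ ℓ))
        ((Valued.v : Valuation M ℤᵐ⁰) ((it ℓ x n) ^ ℓ - x)) := by
    conv_lhs => rw [hC]
    exact Valuation.map_add _ _ _
  exact absurd (hD.trans_lt (max_lt hA hB)) (lt_irrefl _)

theorem pow_of_lu {ℓ : ℕ} (hℓ : (Valued.v : Valuation M ℤᵐ⁰) (ℓ : M) = 1)
    {ϖ : M} (hϖ : (Valued.v : Valuation M ℤᵐ⁰) ϖ = exp (-1 : ℤ))
    (U : LU (Valued.v : Valuation M ℤᵐ⁰) ℓ) {x : M} (hx : x ≠ 0)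
    (h1 : (ℓ : ℤ) ∣ vl (Valued.v : Valuation M ℤᵐ⁰) x) (h2 : U.un x = 0) :
    ∃ y : M, y ≠ 0 ∧ x = y ^ ℓ := by
  have hl0 : ℓ ≠ 0 := by
    rintro rfl
    rw [Nat.cast_zero, map_zero] at hℓ
    exact zero_ne_one hℓ
  have hϖ0 : ϖ ≠ 0 := by
    rintro rfl
    rw [map_zero] at hϖ
    exact exp_ne_zero hϖ.symm
  obtain ⟨j, hj⟩ := h1
  have hp : (ϖ ^ (-j)) ≠ 0 := zpow_ne_zero _ hϖ0
  set x' : M := x * (ϖ ^ (-j)) ^ ℓ with hx'
  have hx'0 : x' ≠ 0 := mul_ne_zero hx (pow_ne_zero _ hp)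
  have hvϖ : vl (Valued.v : Valuation M ℤᵐ⁰) ϖ = 1 := by
    rw [vl_eq_iff hϖ0]
    exact hϖ
  have hvx' : vl (Valued.v : Valuation M ℤᵐ⁰) x' = 0 := by
    rw [hx', vl_mul hx (pow_ne_zero _ hp), vl_pow, vl_zpow, hvϖ, hj]
    ring
  have hv1 : (Valued.v : Valuation M ℤᵐ⁰) x' = 1 := by
    rw [val_vl hx'0, hvx', neg_zero, exp_zero]
  have hun : U.un x' = 0 := by
    rw [hx', U.un_pow_l hx hp, h2]
  obtain ⟨y, hy, hy1⟩ := U.ker x' hv1 hun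
  obtain ⟨z, hz, hz1⟩ := hen hℓ hy1
  have hz0 : z ≠ 0 := ne_of_near hz
  refine ⟨z * y⁻¹ * (ϖ ^ (-j))⁻¹, mul_ne_zero (mul_ne_zero hz0 (inv_ne_zero hy))
    (inv_ne_zero hp), ?_⟩
  rw [mul_pow, mul_pow, hz1, inv_pow, inv_pow, hx']
  field_simp

end Pool.Agent.H94.PM
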