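import Pool.Agent.H94.PM.RED

set_option autoImplicit false

/-!
# [H94 PM ID2] The global quadratic form, `ℓ = 2`: second formula

`e0 = χ.lg (-1)`, `x P = z.2 P`, `κ = z.1.1`, `y v = z.1.2 v`, `d P = deg P`, values in `ZMod 2`; `· = dot = BB`.
* `x_bet`: `B x (bet x)`: `B x x = dot_self = 0`; `∑ k, x k ∑ i ≠ k, Hs k i (x k - x i) = ∑ k, x k psI k - ∑_{k ≠ i} Hs k i x k x i` (`x k * x k = x k`) and
  `∑_{k ≠ i} Hs k i x k x i = ∑_{i < k} (Hs k i + Hs i k) x i x k = e0 c2 x` (`Hs_symm`).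
* `x_L`: the same with `mlt`, `e = 0`: `x · phV v`.
* `id2`: `∑ P, B (x P) (EM P) = ∑ P, ∑ Q, lm Q P x P · (x Q - x P) + ∑ P, d P (x P · κ + B (x P) (bet (x P))) + ∑ P, ∑ v, lm v P (x P · y v + B (x P) (L v (x P)))`.
  First sum: `x P · x P = 0`, so `∑_{P ≠ Q} lm Q P x P · x Q`.  Write `g P Q = lm Q P x P · x Q`; `g P Q + g Q P = e0 d P d Q x P · x Q` for `P ≠ Q` (`lm_recip'`, distinct monic irreducible polynomials are
  coprime), so the sum is `e0 ∑_{unordered pairs} d P d Q x P · x Q`.  On the other side `c2 (∑ P, d P x P) = ∑ d P c2 (x P) + ∑_{unordered pairs} d P d Q x P · x Q`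
  (induction over the finset with `c2_add`, `c2_smul`; it is convenient to prove by `Finset.induction_on` over `s ⊆ univ` that `∑ P ∈ s, ∑ Q ∈ s.erase P, g P Q + e0 ∑ P ∈ s, d P c2 (x P) = e0 c2 (∑ P ∈ s, d P x P)`).
  Total: `e0 c2 (ξ.1) + ξ.1 · κ + ξ.1 · psI + ∑ v, (ξ.2 v · y v + ξ.2 v · phV v)`, `ξ = xi x`, which is `Qr`.
-/

namespace Pool.Agent.H94.PM

open Polynomial
open Pool.Agent.H94.PL
open Pool.Agent.H94.PC (Mo Sq Pr pf om Mn mem_Mo mem_Sq mem_Pr mem_pf mem_pf')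

private theorem z2sq : ∀ c : ZMod 2, c * c = c := by decide

private theorem lap_dot {m : ℕ} {e : ZMod 2} (he : e + e = 0) (H : Fin m → Fin m → ZMod 2)
    (hH : ∀ k i, k ≠ i → H k i = e + H i k) (x : XX m 2) :
    dot x.1 (lap he H hH x).1 =
      e * c2 x.1 + dot x.1 (fun k => ∑ i ∈ Finset.univ.erase k, H k i) := by
  have h1 : dot x.1 (lap he H hH x).1 =
      ∑ k, ∑ i ∈ Finset.univ.erase k, H k i * (x.1 k * x.1 i) +
        ∑ k, x.1 k * ∑ i ∈ Finset.univ.erase k, H k i := by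
    unfold dot
    rw [← Finset.sum_add_distrib]
    refine Finset.sum_congr rfl fun k _ => ?_
    rw [lap_apply, Finset.mul_sum, Finset.mul_sum, ← Finset.sum_add_distrib]
    refine Finset.sum_congr rfl fun i _ => ?_
    rw [CharTwo.sub_eq_add]
    calc x.1 k * (H k i * (x.1 k + x.1 i)) =
        H k i * (x.1 k * x.1 i) + (x.1 k * x.1 k) * H k i := by ring
      _ = H k i * (x.1 k * x.1 i) + x.1 k * H k i := by rw [z2sq]
  rw [h1, lap_pairs fun k i => H k i * (x.1 k * x.1 i)]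
  congr 1
  unfold c2
  rw [Finset.mul_sum]
  refine Finset.sum_congr rfl fun p hp => ?_
  rw [hH p.2 p.1 (mem_prs.1 hp).ne']
  have h2 : H p.1 p.2 + H p.1 p.2 = 0 := CharTwo.add_self_eq_zero _
  linear_combination (x.1 p.1 * x.1 p.2) * h2

variable {F : Type} [Field F] [Finite F] {m : ℕ} (χ : LChar F 2) (A : Fin m → F[X])
  (c : F) (Wl : pf (dl A) → ZMod 2 → Submodule (ZMod 2) (XX m 2 × XX m 2))
  (Wi : ZMod 2 → Submodule (ZMod 2) (XX m 2 × XX m 2))

private theorem BB_self (x : XX m 2) : BB m 2 x x = 0 := by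
  rw [BB_dot]
  exact dot_self x.2

theorem x_bet (x : XX m 2) : BB m 2 x ((DC χ c A Wl Wi).bet x) =
    χ.lg (-1) * c2 x.1 + dot x.1 (psI χ A) := by
  have h1 : (DC χ c A Wl Wi).bet x =
      lap (lg2 χ) (Hs χ A) (Hs_symm χ A) x - (χ.lg (-1) + χ.lg c) • x := rfl
  rw [h1, map_sub, map_smul, BB_self, smul_zero, sub_zero, BB_dot, lap_dot]
  rfl

theorem x_L (v : pf (dl A)) (x : XX m 2) :
    BB m 2 x ((DC χ c A Wl Wi).L v x) = dot x.1 (phV A v) := by
  have h1 : (DC χ c A Wl Wi).L v x =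
      lap (add_zero 0) (mlt 2 A v.1) (fun _ _ _ => mlt_symm A v.1 _ _) x := rfl
  rw [h1, BB_dot, lap_dot, zero_mul, zero_add]
  rfl

private theorem pair_sum {D : F[X]} (x : pf D → XX m 2) (s : Finset (pf D)) :
    ∑ P ∈ s, ∑ Q ∈ s, lm χ Q.1 P.1 * BB m 2 (x P) (x Q) +
      χ.lg (-1) * ∑ P ∈ s, (P.1.natDegree : ZMod 2) * c2 (x P).1 =
      χ.lg (-1) * c2 (∑ P ∈ s, (P.1.natDegree : ZMod 2) • x P : XX m 2).1 := by
  classical
  induction s using Finset.induction_on with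
  | empty =>
    simp [c2]
  | insert a s ha ih =>
    have hr : ∀ Q ∈ s, lm χ Q.1 a.1 = lm χ a.1 Q.1 +
        ((Q.1.natDegree : ZMod 2) * (a.1.natDegree : ZMod 2)) * χ.lg (-1) := by
      intro Q hQ
      have h1 := mem_pf' Q.2
      have h2 := mem_pf' a.2
      refine lm_recip' χ h1.1 h2.1 ?_
      refine (h1.2.1.coprime_iff_not_dvd).2 fun h3 => ?_
      have h4 : Q.1 = a.1 := eq_of_monic_of_associated h1.1 h2.1
        (h1.2.1.associated_of_dvd h2.2.1 h3)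
      have h5 : Q = a := Subtype.ext h4
      exact ha (h5 ▸ hQ)
    have hc : c2 (∑ P ∈ insert a s, (P.1.natDegree : ZMod 2) • x P : XX m 2).1 =
        (a.1.natDegree : ZMod 2) * c2 (x a).1 +
          c2 (∑ P ∈ s, (P.1.natDegree : ZMod 2) • x P : XX m 2).1 +
          (a.1.natDegree : ZMod 2) * ∑ Q ∈ s, (Q.1.natDegree : ZMod 2) * BB m 2 (x a) (x Q) := by
      rw [Finset.sum_insert ha]
      have h1 : ((a.1.natDegree : ZMod 2) • x a +
          ∑ P ∈ s, (P.1.natDegree : ZMod 2) • x P : XX m 2).1 =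
          (a.1.natDegree : ZMod 2) • (x a).1 +
            (∑ P ∈ s, (P.1.natDegree : ZMod 2) • x P : XX m 2).1 := rfl
      have h2 : ((a.1.natDegree : ZMod 2) • (x a).1) = ((a.1.natDegree : ZMod 2) • x a : XX m 2).1 :=
        rfl
      rw [h1, c2_add (by rw [h2]; exact ((a.1.natDegree : ZMod 2) • x a : XX m 2).2)
        (∑ P ∈ s, (P.1.natDegree : ZMod 2) • x P : XX m 2).2, c2_smul, h2, ← BB_dot, map_smul,
        LinearMap.smul_apply, map_sum, smul_eq_mul]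
      congr 2
      refine Finset.sum_congr rfl fun Q _ => ?_
      rw [map_smul, smul_eq_mul]
    rw [hc, Finset.sum_insert ha, Finset.sum_insert ha, Finset.sum_insert ha, BB_self, mul_zero,
      zero_add]
    have h3 : ∑ P ∈ s, ∑ Q ∈ insert a s, lm χ Q.1 P.1 * BB m 2 (x P) (x Q) =
        ∑ P ∈ s, lm χ a.1 P.1 * BB m 2 (x P) (x a) +
          ∑ P ∈ s, ∑ Q ∈ s, lm χ Q.1 P.1 * BB m 2 (x P) (x Q) := by
      rw [← Finset.sum_add_distrib]
      refine Finset.sum_congr rfl fun P _ => ?_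
      rw [Finset.sum_insert ha]
    have h4 : ∑ Q ∈ s, lm χ Q.1 a.1 * BB m 2 (x a) (x Q) +
        ∑ P ∈ s, lm χ a.1 P.1 * BB m 2 (x P) (x a) =
        χ.lg (-1) * ((a.1.natDegree : ZMod 2) *
          ∑ Q ∈ s, (Q.1.natDegree : ZMod 2) * BB m 2 (x a) (x Q)) := by
      rw [← Finset.sum_add_distrib, Finset.mul_sum, Finset.mul_sum]
      refine Finset.sum_congr rfl fun Q hQ => ?_
      rw [hr Q hQ, BB_symm (x Q) (x a)]
      have h5 : lm χ a.1 Q.1 + lm χ a.1 Q.1 = 0 := CharTwo.add_self_eq_zero _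
      linear_combination (BB m 2 (x a) (x Q)) * h5
    rw [h3]
    linear_combination ih + h4

private theorem dot_sum {ι : Type*} (s : Finset ι) (a : ι → ZMod 2) (x : ι → XX m 2)
    (y : Fin m → ZMod 2) :
    dot (∑ i ∈ s, a i • x i : XX m 2).1 y = ∑ i ∈ s, a i * dot (x i).1 y := by
  classical
  induction s using Finset.induction_on with
  | empty => simp [dot]
  | insert b s hb ih =>
    rw [Finset.sum_insert hb, Finset.sum_insert hb, ← ih]
    have h1 : (a b • x b + ∑ i ∈ s, a i • x i : XX m 2).1 =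
        a b • (x b).1 + (∑ i ∈ s, a i • x i : XX m 2).1 := rfl
    rw [h1, dot_add_left]
    congr 1
    unfold dot
    rw [Finset.mul_sum]
    refine Finset.sum_congr rfl fun k _ => ?_
    rw [Pi.smul_apply, smul_eq_mul, mul_assoc]

private theorem BB_EM {D : F[X]} (z : EE (XX m 2) (pf (dl A)) × (pf D → XX m 2)) (P : pf D) :
    BB m 2 (z.2 P) (EM χ (DC χ c A Wl Wi) D z P) =
      ∑ Q, lm χ Q.1 P.1 * BB m 2 (z.2 P) (z.2 Q) +
      ((P.1.natDegree : ZMod 2) * BB m 2 z.1.1 (z.2 P) +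
        (χ.lg (-1) * ((P.1.natDegree : ZMod 2) * c2 (z.2 P).1) +
          (P.1.natDegree : ZMod 2) * dot (z.2 P).1 (psI χ A))) +
      (∑ v, lm χ v.1 P.1 * BB m 2 (z.1.2 v) (z.2 P) +
        ∑ v : pf (dl A), lm χ v.1 P.1 * dot (z.2 P).1 (phV A v)) := by
  rw [EM, map_add, map_add, map_sum, map_sum, map_smul, map_add, x_bet, smul_eq_mul]
  congr 1
  · congr 1
    · refine Finset.sum_congr rfl fun Q _ => ?_
      rw [map_smul, map_sub, BB_self, sub_zero, smul_eq_mul]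
    · rw [BB_symm z.1.1 (z.2 P)]
      ring
  · rw [← Finset.sum_add_distrib]
    refine Finset.sum_congr rfl fun v _ => ?_
    rw [map_smul, map_add, x_L, smul_eq_mul, BB_symm (z.1.2 v) (z.2 P)]
    ring

theorem id2 {D : F[X]} (z : EE (XX m 2) (pf (dl A)) × (pf D → XX m 2)) :
    ∑ P, BB m 2 (z.2 P) (EM χ (DC χ c A Wl Wi) D z P) =
      Qr χ A (z.1, xi χ (dl A) D z.2) := by
  have hp := pair_sum χ z.2 Finset.univ
  have h1 : BB m 2 z.1.1 (xi χ (dl A) D z.2).1 =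
      ∑ P : pf D, (P.1.natDegree : ZMod 2) * BB m 2 z.1.1 (z.2 P) := by
    change BB m 2 z.1.1 (∑ P : pf D, (P.1.natDegree : ZMod 2) • z.2 P) = _
    rw [map_sum]
    exact Finset.sum_congr rfl fun P _ => by rw [map_smul, smul_eq_mul]
  have h2 : ∑ v, BB m 2 (z.1.2 v) ((xi χ (dl A) D z.2).2 v) =
      ∑ P : pf D, ∑ v : pf (dl A), lm χ v.1 P.1 * BB m 2 (z.1.2 v) (z.2 P) := by
    rw [Finset.sum_comm]
    refine Finset.sum_congr rfl fun v _ => ?_
    change BB m 2 (z.1.2 v) (∑ P : pf D, lm χ v.1 P.1 • z.2 P) = _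
    rw [map_sum]
    exact Finset.sum_congr rfl fun P _ => by rw [map_smul, smul_eq_mul]
  have h3 : ∑ v, dot ((xi χ (dl A) D z.2).2 v).1 (phV A v) =
      ∑ P : pf D, ∑ v : pf (dl A), lm χ v.1 P.1 * dot (z.2 P).1 (phV A v) := by
    rw [Finset.sum_comm]
    refine Finset.sum_congr rfl fun v _ => ?_
    change dot (∑ P : pf D, lm χ v.1 P.1 • z.2 P : XX m 2).1 (phV A v) = _
    rw [dot_sum]
  have h4 : dot (xi χ (dl A) D z.2).1.1 (psI χ A) =
      ∑ P : pf D, (P.1.natDegree : ZMod 2) * dot (z.2 P).1 (psI χ A) := by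
    change dot (∑ P : pf D, (P.1.natDegree : ZMod 2) • z.2 P : XX m 2).1 (psI χ A) = _
    rw [dot_sum]
  have h5 : (xi χ (dl A) D z.2).1 = ∑ P : pf D, (P.1.natDegree : ZMod 2) • z.2 P := rfl
  rw [Finset.sum_congr rfl fun P _ => BB_EM χ A c Wl Wi z P]
  unfold Qr
  simp only
  rw [h1, h2, h3, h4, h5, ← hp, Finset.mul_sum]
  simp only [Finset.sum_add_distrib]
  ring

end Pool.Agent.H94.PM
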