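import Pool.Agent.H94.PM.RC
import Pool.Agent.H94.PL.Inn

set_option autoImplicit false

/-!
# [H94 PM IN] The inner sums, general `ℓ`

`PL.NotPow.sum_cs_left`, `PL.Thc.thc_partial`, `PL.Inn.inn_two` without `ℓ ≠ 2`.
* `sum_cs_left'`: by `cs_recip'` the terms are `cs χ A N` times the constant `ps (deg N * m * lg (-1))` (`A ∈ Mo F m`, `N` monic);
  `sum_cs_right`.
* `thc_partial'`: copy the proof of `thc_partial` with `sum_cs_left'`.
* `inn_two'`: copy the proof of `inn_two` (and of the private lemmas `inn_quot`, `inn_main`, which do not use `ℓ ≠ 2`).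
-/

namespace Pool.Agent.H94.PM

open Polynomial
open Pool.Agent.H94.PL
open Pool.Agent.H94.PC (Mo Sq Pr pf om Mn mem_Mo mem_Sq mem_Pr mem_pf mem_pf')

variable {F : Type} [Field F] [Finite F] {ℓ : ℕ} [hl : Fact ℓ.Prime]
  {κ ι : Type} [Fintype κ] [DecidableEq κ] [Fintype ι]

private theorem inn_quot (χ : LChar F ℓ) (b₀ b₁ : ZMod ℓ) (G : ι → F[X]) (e₀ e₁ : ι → ZMod ℓ)
    {P : F[X]} (hP : P.Monic) (h : ∀ i, IsCoprime (G i) P) :
    thc χ b₀ G e₀ P * (starRingEnd ℂ) (thc χ b₁ G e₁ P) =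
      ps ((b₀ - b₁) * (P.natDegree : ZMod ℓ) + ∑ i, (e₀ i - e₁ i) * lm χ (G i) P) := by
  rw [thc_val χ b₀ G e₀ hP h, thc_val χ b₁ G e₁ hP h, ← ps_neg, ← ps_add]
  congr 1
  simp only [sub_mul, Finset.sum_sub_distrib]
  ring

open Classical in
private theorem inn_main (χ : LChar F ℓ) (n m : ℕ) (hmn : m ≤ n) (hm : 1 ≤ m)
    (S : Finset F[X]) (hS : ∀ D ∈ S, D ∈ Sq F m) (b : κ → ZMod ℓ) (G : ι → F[X])
    (e : κ → ι → ZMod ℓ) (u₀ u₁ : κ) (hne : u₀ ≠ u₁) (θ : F[X] → ℂ) (hθ : CMc θ)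
    (K : ℝ) (hK1 : 1 ≤ K)
    (hK : ∀ j : ℕ, ‖∑ i ∈ Finset.range (j + 1), Bs θ i / (Nat.card F : ℂ) ^ i‖ ≤ K)
    (hθv : ∀ P : F[X], P.Monic → (∀ i, IsCoprime (G i) P) →
      ps ((b u₀ - b u₁) * (P.natDegree : ZMod ℓ) + ∑ i, (e u₀ i - e u₁ i) * lm χ (G i) P) =
        θ P) :
    ‖∑ x : κ → Mn F n, (if (∏ i, (x i).1) ∈ S then
      (1 / (Fintype.card κ : ℂ)) ^ om (∏ i, (x i).1) * ∏ u, thc χ (b u) G (e u) (x u).1
      else 0)‖ ≤
      60 * (Nat.card F : ℝ) ^ m * (m : ℝ) ^ (-(1 / (2 * Fintype.card κ)) : ℝ) *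
        K ^ (1 / (2 * Fintype.card κ) : ℝ) := by
  have hη : ∀ u, CMc (thc χ (b u) G (e u)) := fun u => thc_CMc χ (b u) G (e u)
  have hS' : ∀ D ∈ S, D.Monic ∧ Squarefree D ∧ D.natDegree ≤ n := by
    intro D hD
    have h1 := mem_Sq.1 (hS D hD)
    exact ⟨h1.1, h1.2.2, h1.2.1.le.trans hmn⟩
  have h0 := sum_multc n S hS' (fun u => thc χ (b u) G (e u)) hη (1 / (Fintype.card κ : ℂ))
  rw [h0]
  have hN : (1 : ℝ) ≤ (Fintype.card κ : ℝ) := by
    have : 0 < Fintype.card κ := Fintype.card_pos_iff.2 ⟨u₀⟩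
    exact_mod_cast this
  refine le_trans ?_ (mv_re hθ K hK1 hK (Fintype.card κ : ℝ) hN
    (fun P => ‖(1 / (Fintype.card κ : ℂ)) * ∑ u, thc χ (b u) G (e u) P‖)
    (fun P _ _ => norm_nonneg _) ?_ m hm)
  · refine (norm_sum_le _ _).trans ?_
    unfold PC.SS
    calc ∑ D ∈ S, ‖∏ P ∈ pf D, (1 / (Fintype.card κ : ℂ) * ∑ u, thc χ (b u) G (e u) P)‖
        = ∑ D ∈ S, ∏ P ∈ pf D, ‖(1 / (Fintype.card κ : ℂ)) * ∑ u, thc χ (b u) G (e u) P‖ :=
          Finset.sum_congr rfl fun D _ => norm_prod _ _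
      _ ≤ _ := Finset.sum_le_sum_of_subset_of_nonneg hS fun D _ _ =>
          Finset.prod_nonneg fun P _ => norm_nonneg _
  · intro P hPm hPi
    have hθn : -1 ≤ (θ P).re := by
      have h1 := Complex.abs_re_le_norm (θ P)
      have h2 := hθ.le P hPm
      have h3 := neg_abs_le (θ P).re
      linarith
    by_cases hc : ∀ i, IsCoprime (G i) P
    · have h1 : ∀ u, ‖thc χ (b u) G (e u) P‖ = 1 := fun u => by
        rw [thc_val χ (b u) G (e u) hPm hc, norm_ps]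
      have h2 := ul (fun u => thc χ (b u) G (e u) P) h1 u₀ u₁ hne
      rw [inn_quot χ (b u₀) (b u₁) G (e u₀) (e u₁) hPm hc, hθv P hPm hc] at h2
      exact h2
    · push Not at hc
      obtain ⟨i, hi⟩ := hc
      have h1 : ∀ u, thc χ (b u) G (e u) P = 0 := fun u => thc_zero χ (b u) G (e u) hPm i hi
      have h2 : ‖(1 / (Fintype.card κ : ℂ)) * ∑ u, thc χ (b u) G (e u) P‖ = 0 := by
        rw [Finset.sum_eq_zero fun u _ => h1 u, mul_zero, norm_zero]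
      have h3 : 1 / (2 * (Fintype.card κ : ℝ)) ≤ 1 / 2 := by
        apply one_div_le_one_div_of_le (by norm_num)
        linarith
      have h4 : -(1 / (2 * (Fintype.card κ : ℝ))) ≤ (θ P).re / (2 * (Fintype.card κ : ℝ)) := by
        rw [neg_div']
        exact div_le_div_of_nonneg_right hθn (by linarith)
      rw [h2]
      linarith

theorem sum_cs_left' (χ : LChar F ℓ) {N : F[X]} (hN : N.Monic) (hs : ¬ ∃ R : F[X], N = R ^ ℓ)
    {m : ℕ} (hm : N.natDegree ≤ m) : ∑ A ∈ Mo F m, cs χ N A = 0 := by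
  have h : ∀ A ∈ Mo F m, cs χ N A =
      cs χ A N * ps (((N.natDegree : ZMod ℓ) * (m : ZMod ℓ)) * χ.lg (-1)) := by
    intro A hA
    have hA' := mem_Mo.1 hA
    rw [cs_recip' χ hN hA'.1, hA'.2]
  rw [Finset.sum_congr rfl h, ← Finset.sum_mul, sum_cs_right χ hN hs hm, zero_mul]

theorem thc_partial' (χ : LChar F ℓ) (b : ZMod ℓ) (G : ι → F[X]) (e : ι → ZMod ℓ)
    (hG : ∀ i, (G i).Monic ∧ Squarefree (G i)) (hc : ∀ i j, i ≠ j → IsCoprime (G i) (G j))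
    (i₀ : ι) (he : e i₀ ≠ 0) (hG1 : G i₀ ≠ 1) (j : ℕ) :
    ‖∑ i ∈ Finset.range (j + 1), Bs (thc χ b G e) i / (Nat.card F : ℂ) ^ i‖ ≤
      2 * ℓ * ∑ i, ((G i).natDegree : ℝ) := by
  have hm : (∏ i, G i ^ ((e i).val + ℓ)).Monic :=
    monic_prod_of_monic _ _ fun i _ => (hG i).1.pow _
  have hs := thc_notpow G e hG hc i₀ he hG1
  have hdeg : ((∏ i, G i ^ ((e i).val + ℓ)).natDegree : ℝ) ≤
      2 * ℓ * ∑ i, ((G i).natDegree : ℝ) := by
    rw [natDegree_prod_of_monic _ _ fun i _ => (hG i).1.pow _, Finset.mul_sum]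
    push_cast
    refine Finset.sum_le_sum fun i _ => ?_
    rw [(hG i).1.natDegree_pow, Nat.cast_mul]
    have h3 : (((e i).val + ℓ : ℕ) : ℝ) ≤ 2 * ℓ := by
      have h4 : (e i).val ≤ ℓ := (ZMod.val_lt (e i)).le
      have h5 : (e i).val + ℓ ≤ 2 * ℓ := by omega
      exact_mod_cast h5
    exact mul_le_mul_of_nonneg_right h3 (Nat.cast_nonneg _)
  refine le_trans ?_ hdeg
  set n := (∏ i, G i ^ ((e i).val + ℓ)).natDegree with hn
  have hterm : ∀ i, ‖Bs (thc χ b G e) i / (Nat.card F : ℂ) ^ i‖ ≤ if i < n then (1 : ℝ) else 0 := by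
    intro i
    split_ifs with hi
    · exact thc_norm_Bs (thc_CMc χ b G e) i
    · rw [thc_Bs, sum_cs_left' χ hm hs (not_lt.1 hi), mul_zero, zero_div, norm_zero]
  calc ‖∑ i ∈ Finset.range (j + 1), Bs (thc χ b G e) i / (Nat.card F : ℂ) ^ i‖
      ≤ ∑ i ∈ Finset.range (j + 1), ‖Bs (thc χ b G e) i / (Nat.card F : ℂ) ^ i‖ :=
        norm_sum_le _ _
    _ ≤ ∑ i ∈ Finset.range (j + 1), if i < n then (1 : ℝ) else 0 :=
        Finset.sum_le_sum fun i _ => hterm i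
    _ = (((Finset.range (j + 1)).filter (fun i => i < n)).card : ℝ) := by
        rw [Finset.sum_ite, Finset.sum_const_zero, add_zero, Finset.sum_const, nsmul_eq_mul,
          mul_one]
    _ ≤ n := by
        have h3 : ((Finset.range (j + 1)).filter (fun i => i < n)) ⊆ Finset.range n := by
          intro i hi
          exact Finset.mem_range.2 (Finset.mem_filter.1 hi).2
        have h4 := Finset.card_le_card h3
        rw [Finset.card_range] at h4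
        exact_mod_cast h4

open Classical in
theorem inn_two' (χ : LChar F ℓ) (n m : ℕ) (hmn : m ≤ n) (hm : 1 ≤ m)
    (S : Finset F[X]) (hS : ∀ D ∈ S, D ∈ Sq F m) (b : κ → ZMod ℓ) (G : ι → F[X])
    (e : κ → ι → ZMod ℓ) (hG : ∀ i, (G i).Monic ∧ Squarefree (G i))
    (hc : ∀ i j, i ≠ j → IsCoprime (G i) (G j)) (u₀ u₁ : κ)
    (hu : b u₀ ≠ b u₁ ∨ ∃ j, e u₀ j ≠ e u₁ j ∧ G j ≠ 1) :
    ‖∑ x : κ → Mn F n, (if (∏ i, (x i).1) ∈ S then
      (1 / (Fintype.card κ : ℂ)) ^ om (∏ i, (x i).1) * ∏ u, thc χ (b u) G (e u) (x u).1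
      else 0)‖ ≤
      60 * (Nat.card F : ℝ) ^ m * (m : ℝ) ^ (-(1 / (2 * Fintype.card κ)) : ℝ) *
        (2 * ℓ * ∑ i, ((G i).natDegree : ℝ) + Kc ℓ) ^ (1 / (2 * Fintype.card κ) : ℝ) := by
  have hne : u₀ ≠ u₁ := by
    rintro rfl
    rcases hu with h | ⟨j, h, _⟩
    · exact h rfl
    · exact h rfl
  have hKc : 1 ≤ Kc ℓ := one_le_Kc
  have hdeg : (0 : ℝ) ≤ 2 * ℓ * ∑ i, ((G i).natDegree : ℝ) := by positivity
  by_cases hj : ∃ j, e u₀ j ≠ e u₁ j ∧ G j ≠ 1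
  · obtain ⟨j, hj1, hj2⟩ := hj
    refine inn_main χ n m hmn hm S hS b G e u₀ u₁ hne
      (thc χ (b u₀ - b u₁) G (fun i => e u₀ i - e u₁ i)) (thc_CMc χ _ _ _) _ (by linarith)
      (fun i => ?_) (fun P hP hcop => ?_)
    · have h1 := thc_partial' χ (b u₀ - b u₁) G (fun i => e u₀ i - e u₁ i) hG hc j
        (sub_ne_zero.2 hj1) hj2 i
      linarith
    · exact (thc_val χ (b u₀ - b u₁) G (fun i => e u₀ i - e u₁ i) hP hcop).symm
  · have hb : b u₀ ≠ b u₁ := by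
      rcases hu with h | h
      · exact h
      · exact absurd h hj
    push Not at hj
    refine inn_main χ n m hmn hm S hS b G e u₀ u₁ hne (thd (b u₀ - b u₁)) (thd_CMc _) _
      (by linarith) (fun i => ?_) (fun P hP hcop => ?_)
    · have h1 := thd_partial (F := F) (sub_ne_zero.2 hb) i
      linarith
    · have h1 : ∑ i, (e u₀ i - e u₁ i) * lm χ (G i) P = 0 := by
        refine Finset.sum_eq_zero fun i _ => ?_
        by_cases he : e u₀ i = e u₁ i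
        · rw [he, sub_self, zero_mul]
        · rw [hj i he, lm_one_left χ hP, mul_zero]
      rw [h1, add_zero]
      rfl

end Pool.Agent.H94.PM
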