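import Pool.Agent.H94.PM.MBT
import Pool.Agent.H94.PL.Nrm

set_option autoImplicit false

/-!
# [H94 PM ISO1] The product of two Mumford polynomials, `K`-theoretic form

`P ≠ R` monic irreducible over `k`, `P ∣ D Q ^ ℓ - f`, `R ∣ D Q' ^ ℓ - f`, `f = ∏ (x - A_k)`, `P (A_k), R (A_k) ≠ 0`, `A` killed by `ℓ`.

Proof.  `mbt s d` with `d > deg P, deg R, 1`: `T`.  `S = {P, R} ∪ {X - C (A k)}` (all monic irreducible, of degree `< d`;
`P`, `R` are not in the second set since `P (A_k) ≠ 0`).
(1) `tot s T S P R f = 0`, `f = fA A` (`Rec`; the monic irreducible divisors of `P R f` are in `S`).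
(2) `tot s T S P R (C D) = 0`.
Compute both.  `rp (T q) q a b c` for `q = P`: `wp P P = 1`, `up P P = 1`, the others are prime to `P`: only the term
`wp a • σ b c` and terms with `w b = w c = 0` remain: `rp = T P R c`.  (`P ∤ f`: otherwise `P ∣ X - C (A k)` for some `k` (`Prime`), so
`P = X - C (A k)`, `P (A k) = 0`.)  For `q = R`: `rp = - T R P c`.
For `q = X - C a`, `a` one of the `A k`: `wp q P = wp q R = 0`, so in (2) `rp = 0` (`rp_zero`), and in (1)
`rp = wp q f • T q P R = (number of k with A k = a) • s.s (P.eval a) (R.eval a)`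
(alternatively use `tot_mul3` to write `tot P R f = ∑ k, tot P R (X - C (A k))`, each of which has only the residues at `P`, `R`,
`X - C (A k)` and infinity, and `T P R f = ∑ k, T P R (X - C (A k))` by `IsT.mul`, `skew`).  So the sum over these `q` is
`∑ k, s.s (P.eval (A k)) (R.eval (A k))`.
At infinity (`P, R, f` monic of degrees `n, n', m`): `ri P R f = - (n n' m) • s.s (-1) (-1)` (all leading coefficients are `1`,
`Sy.one_left`, `one_right`) and `ri P R (C D) = (n n') • s.s (-1) D`.
`T P R f = T P R (C D * Q ^ ℓ)` (`congr`, `skew`: `P ∣ f - C D * Q ^ ℓ`) `= T P R (C D) + ℓ • T P R Q = T P R (C D)` (`P ∤ Q`, as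
`P ∤ f`; `hA`); the same for `T R P f`.  Subtract (2) from (1).
-/

namespace Pool.Agent.H94.PM

open Polynomial
open Pool.Agent.H94.PL (fA)

variable {k A' : Type*} [Field k] [AddCommGroup A'] {m : ℕ}

section
variable {p : k[X]} {T : k[X] → k[X] → A'}

private theorem iso1_mul_right (hp : Irreducible p) (hT : IsT p T) {x y z : k[X]}
    (hx : ¬ p ∣ x) (hy : ¬ p ∣ y) (hz : ¬ p ∣ z) : T x (y * z) = T x y + T x z := by
  have hyz : ¬ p ∣ y * z := fun h => (hp.prime.dvd_or_dvd h).elim hy hz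
  rw [hT.skew x (y * z) hx hyz, hT.mul y z x hy hz hx, hT.skew x y hx hy, hT.skew x z hx hz]
  abel

private theorem iso1_one_right (hp : Irreducible p) (hT : IsT p T) {x : k[X]}
    (hx : ¬ p ∣ x) : T x 1 = 0 := by
  have h1 : ¬ p ∣ (1 : k[X]) := fun h => hp.not_isUnit (isUnit_of_dvd_one h)
  have h := iso1_mul_right hp hT hx h1 h1
  rw [one_mul] at h
  exact left_eq_add.1 h

private theorem iso1_prod_right {ι : Type*} (hp : Irreducible p) (hT : IsT p T) {x : k[X]}
    (hx : ¬ p ∣ x) (t : Finset ι) (f : ι → k[X]) (hf : ∀ i ∈ t, ¬ p ∣ f i) :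
    T x (∏ i ∈ t, f i) = ∑ i ∈ t, T x (f i) := by
  classical
  induction t using Finset.induction_on with
  | empty =>
    rw [Finset.prod_empty, Finset.sum_empty]
    exact iso1_one_right hp hT hx
  | insert a t ha ih =>
    have h1 : ¬ p ∣ ∏ i ∈ t, f i := by
      intro h
      obtain ⟨i, hi, h2⟩ := (hp.prime.dvd_finsetProd_iff f).1 h
      exact hf i (Finset.mem_insert_of_mem hi) h2
    rw [Finset.prod_insert ha, Finset.sum_insert ha,
      iso1_mul_right hp hT hx (hf a (Finset.mem_insert_self a t)) h1,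
      ih fun i hi => hf i (Finset.mem_insert_of_mem hi)]

private theorem iso1_pow_right (hp : Irreducible p) (hT : IsT p T) {x y : k[X]}
    (hx : ¬ p ∣ x) (hy : ¬ p ∣ y) (n : ℕ) : T x (y ^ n) = n • T x y := by
  induction n with
  | zero =>
    rw [pow_zero, zero_smul]
    exact iso1_one_right hp hT hx
  | succ n ih =>
    rw [pow_succ, iso1_mul_right hp hT hx (fun h => hy (hp.prime.dvd_of_dvd_pow h)) hy, ih,
      succ_nsmul]

private theorem iso1_congr_right (hT : IsT p T) {x y y' : k[X]} (hx : ¬ p ∣ x) (hy : ¬ p ∣ y)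
    (hy' : ¬ p ∣ y') (h : p ∣ y - y') : T x y = T x y' := by
  rw [hT.skew x y hx hy, hT.congr y y' x hy hx h, hT.skew x y' hx hy']

private theorem iso1_fA (hp : Irreducible p) (hT : IsT p T) {ℓ : ℕ} (hℓ : 0 < ℓ)
    (hA' : ∀ a : A', ℓ • a = 0) {D : k} (hD : D ≠ 0) (A : Fin m → k) {Q x : k[X]}
    (hx : ¬ p ∣ x) (hL : ∀ i, ¬ p ∣ X - C (A i)) (hpQ : p ∣ C D * Q ^ ℓ - fA A) :
    ∑ i, T x (X - C (A i)) = T x (C D) := by
  have hpC : ¬ p ∣ C D := fun h =>
    hp.not_isUnit (isUnit_of_dvd_unit h (isUnit_C.2 (IsUnit.mk0 _ hD)))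
  have hpf : ¬ p ∣ fA A := by
    intro h
    unfold fA at h
    obtain ⟨i, _, h2⟩ := (hp.prime.dvd_finsetProd_iff _).1 h
    exact hL i h2
  have hpQ' : ¬ p ∣ Q := by
    intro h
    apply hpf
    have h1 : p ∣ C D * Q ^ ℓ := Dvd.dvd.mul_left (h.trans (dvd_pow_self Q hℓ.ne')) _
    have h2 : fA A = C D * Q ^ ℓ - (C D * Q ^ ℓ - fA A) := by ring
    rw [h2]
    exact dvd_sub h1 hpQ
  have hpQl : ¬ p ∣ Q ^ ℓ := fun h => hpQ' (hp.prime.dvd_of_dvd_pow h)
  have hpCQ : ¬ p ∣ C D * Q ^ ℓ := fun h => (hp.prime.dvd_or_dvd h).elim hpC hpQl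
  have h1 : ∑ i, T x (X - C (A i)) = T x (fA A) := by
    unfold fA
    rw [iso1_prod_right hp hT hx Finset.univ _ (fun i _ => hL i)]
  rw [h1, ← iso1_congr_right hT hx hpCQ hpf hpQ, iso1_mul_right hp hT hx hpC hpQl,
    iso1_pow_right hp hT hx hpQ', hA', add_zero]

end

private theorem iso1_up {p x : k[X]} (hp : Irreducible p) (h : ¬ p ∣ x) :
    wp p x = 0 ∧ up p x = x := by
  obtain ⟨h1, h2⟩ := up_eq (i := 0) hp (by rw [pow_zero, one_mul] : x = p ^ 0 * x) h
  refine ⟨?_, h2⟩
  unfold wp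
  rw [h1]
  rfl

private theorem iso1_up_self {p : k[X]} (hp : Irreducible p) :
    wp p p = 1 ∧ up p p = 1 := by
  obtain ⟨h1, h2⟩ := up_eq (i := 1) hp (by rw [pow_one, mul_one] : p = p ^ 1 * 1)
    (fun h => hp.not_isUnit (isUnit_of_dvd_one h))
  refine ⟨?_, h2⟩
  unfold wp
  rw [h1]
  rfl

private theorem iso1_rp1 {T : k[X] → k[X] → A'} {p b c : k[X]} (hp : Irreducible p)
    (hb : ¬ p ∣ b) (hc : ¬ p ∣ c) : rp T p p b c = T b c := by
  unfold rp res
  simp only [(iso1_up_self hp).1, (iso1_up hp hb).1, (iso1_up hp hc).1, (iso1_up hp hb).2,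
    (iso1_up hp hc).2]
  simp

private theorem iso1_rp2 {T : k[X] → k[X] → A'} {p a c : k[X]} (hp : Irreducible p)
    (ha : ¬ p ∣ a) (hc : ¬ p ∣ c) : rp T p a p c = -T a c := by
  unfold rp res
  simp only [(iso1_up_self hp).1, (iso1_up hp ha).1, (iso1_up hp hc).1, (iso1_up hp ha).2,
    (iso1_up hp hc).2]
  simp

private theorem iso1_rp3 {T : k[X] → k[X] → A'} {p a b : k[X]} (hp : Irreducible p)
    (ha : ¬ p ∣ a) (hb : ¬ p ∣ b) : rp T p a b p = T a b := by
  unfold rp res
  simp only [(iso1_up_self hp).1, (iso1_up hp ha).1, (iso1_up hp hb).1, (iso1_up hp ha).2,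
    (iso1_up hp hb).2]
  simp

private theorem iso1_not_dvd {p q : k[X]} (hp : p.Monic) (hpi : Irreducible p) (hq : q.Monic)
    (hqi : Irreducible q) (hne : p ≠ q) : ¬ p ∣ q := by
  intro h
  exact hne (eq_of_monic_of_associated hp hq (hpi.associated_of_dvd hqi h))

theorem iso_irr (s : Sy k A') {ℓ : ℕ} (hℓ : 0 < ℓ) (hA' : ∀ a : A', ℓ • a = 0) {D : k} (hD : D ≠ 0)
    (A : Fin m → k) {P Q R Q' : k[X]} (hP : P.Monic) (hPi : Irreducible P)
    (hPA : ∀ i, P.eval (A i) ≠ 0) (hPQ : P ∣ C D * Q ^ ℓ - fA A) (hR : R.Monic)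
    (hRi : Irreducible R) (hRA : ∀ i, R.eval (A i) ≠ 0) (hRQ : R ∣ C D * Q' ^ ℓ - fA A)
    (hne : P ≠ R) :
    ∑ i, s.s (P.eval (A i)) (R.eval (A i)) =
      (P.natDegree * R.natDegree * m) • s.s (-1) (-1) + (P.natDegree * R.natDegree) • s.s (-1) D := by
  classical
  set n := P.natDegree with hn
  set n' := R.natDegree with hn'
  obtain ⟨T, hT, hRec, hF⟩ := mbt s (max (max n n') 1 + 1)
  have hd1 : 1 < max (max n n') 1 + 1 := by
    have := le_max_right (max n n') 1
    omega
  have hdn : n < max (max n n') 1 + 1 := by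
    have h1 := le_max_left (max n n') 1
    have h2 := le_max_left n n'
    omega
  have hdn' : n' < max (max n n') 1 + 1 := by
    have h1 := le_max_left (max n n') 1
    have h2 := le_max_right n n'
    omega
  have hTP : IsT P (T P) := hT P hP hPi hdn
  have hTR : IsT R (T R) := hT R hR hRi hdn'
  have hPR : ¬ P ∣ R := iso1_not_dvd hP hPi hR hRi hne
  have hRP : ¬ R ∣ P := iso1_not_dvd hR hRi hP hPi hne.symm
  have hPL : ∀ i, P ≠ X - C (A i) := by
    intro i h
    apply hPA i
    rw [h]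
    simp
  have hRL : ∀ i, R ≠ X - C (A i) := by
    intro i h
    apply hRA i
    rw [h]
    simp
  have hLi : ∀ i, Irreducible (X - C (A i)) := fun i => irreducible_X_sub_C _
  have hLm : ∀ i, (X - C (A i)).Monic := fun i => monic_X_sub_C _
  have hPdL : ∀ i, ¬ P ∣ X - C (A i) := fun i => iso1_not_dvd hP hPi (hLm i) (hLi i) (hPL i)
  have hRdL : ∀ i, ¬ R ∣ X - C (A i) := fun i => iso1_not_dvd hR hRi (hLm i) (hLi i) (hRL i)
  have hLdP : ∀ i, ¬ (X - C (A i)) ∣ P := fun i =>
    iso1_not_dvd (hLm i) (hLi i) hP hPi (hPL i).symm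
  have hLdR : ∀ i, ¬ (X - C (A i)) ∣ R := fun i =>
    iso1_not_dvd (hLm i) (hLi i) hR hRi (hRL i).symm
  have hUnC : IsUnit (C D : k[X]) := isUnit_C.2 (IsUnit.mk0 _ hD)
  have hPC : ¬ P ∣ C D := fun h => hPi.not_isUnit (isUnit_of_dvd_unit h hUnC)
  have hRC : ¬ R ∣ C D := fun h => hRi.not_isUnit (isUnit_of_dvd_unit h hUnC)
  have hm1 : (-1 : k) ≠ 0 := neg_ne_zero.2 one_ne_zero
  have hlm1 : (-1 : k[X]).leadingCoeff = -1 := by
    rw [leadingCoeff_neg, leadingCoeff_one]
  -- (1)
  have key1 : ∀ i, T P R (X - C (A i)) - T R P (X - C (A i)) +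
      s.s (P.eval (A i)) (R.eval (A i)) - (n * n') • s.s (-1) (-1) = 0 := by
    intro i
    have h1 := hRec {P, R, X - C (A i)} P R (X - C (A i)) hP.ne_zero hR.ne_zero
      (hLm i).ne_zero (by
        intro q hq
        rw [Finset.mem_insert, Finset.mem_insert, Finset.mem_singleton] at hq
        rcases hq with rfl | rfl | rfl
        · exact ⟨hP, hPi, hdn⟩
        · exact ⟨hR, hRi, hdn'⟩
        · refine ⟨hLm i, hLi i, ?_⟩
          rw [natDegree_X_sub_C]
          exact hd1) (by
        intro q hq hqi hdvd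
        rw [Finset.mem_insert, Finset.mem_insert, Finset.mem_singleton]
        rcases hqi.prime.dvd_or_dvd hdvd with h2 | h2
        · rcases hqi.prime.dvd_or_dvd h2 with h3 | h3
          · left
            by_contra hcon
            exact iso1_not_dvd hq hqi hP hPi hcon h3
          · right
            left
            by_contra hcon
            exact iso1_not_dvd hq hqi hR hRi hcon h3
        · right
          right
          by_contra hcon
          exact iso1_not_dvd hq hqi (hLm i) (hLi i) hcon h2)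
    unfold tot at h1
    rw [Finset.sum_insert (by
        rw [Finset.mem_insert, Finset.mem_singleton]
        rintro (h | h)
        · exact hne h
        · exact hPL i h),
      Finset.sum_insert (by
        rw [Finset.mem_singleton]
        exact hRL i), Finset.sum_singleton, iso1_rp1 hPi hPR (hPdL i),
      iso1_rp2 hRi hRP (hRdL i), iso1_rp3 (hLi i) (hLdP i) (hLdR i),
      hF hd1 (A i) P R (hPA i) (hRA i)] at h1
    have h2 : ri s P R (X - C (A i)) = -((n * n') • s.s (-1) (-1)) := by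
      unfold ri res
      simp only [hP.leadingCoeff, hR.leadingCoeff, (hLm i).leadingCoeff, hlm1,
        natDegree_X_sub_C]
      rw [s.one_right hm1, s.one_left hm1, s.one_left one_ne_zero, ← hn, ← hn']
      simp only [smul_zero, add_zero, sub_zero]
      have e : -(n : ℤ) * -(n' : ℤ) * -((1 : ℕ) : ℤ) = -((n * n' : ℕ) : ℤ) := by
        push_cast
        ring
      rw [e, neg_smul, natCast_zsmul]
    rw [h2] at h1
    rw [← h1]
    abel
  -- (2)
  have key2 : T P R (C D) - T R P (C D) + (n * n') • s.s (-1) D = 0 := by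
    have h1 := hRec {P, R} P R (C D) hP.ne_zero hR.ne_zero hUnC.ne_zero (by
        intro q hq
        rw [Finset.mem_insert, Finset.mem_singleton] at hq
        rcases hq with rfl | rfl
        · exact ⟨hP, hPi, hdn⟩
        · exact ⟨hR, hRi, hdn'⟩) (by
        intro q hq hqi hdvd
        rw [Finset.mem_insert, Finset.mem_singleton]
        rcases hqi.prime.dvd_or_dvd hdvd with h2 | h2
        · rcases hqi.prime.dvd_or_dvd h2 with h3 | h3
          · left
            by_contra hcon
            exact iso1_not_dvd hq hqi hP hPi hcon h3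
          · right
            by_contra hcon
            exact iso1_not_dvd hq hqi hR hRi hcon h3
        · exact absurd (isUnit_of_dvd_unit h2 hUnC) hqi.not_isUnit)
    unfold tot at h1
    rw [Finset.sum_insert (by
        rw [Finset.mem_singleton]
        exact hne), Finset.sum_singleton, iso1_rp1 hPi hPR hPC,
      iso1_rp2 hRi hRP hRC] at h1
    have h2 : ri s P R (C D) = (n * n') • s.s (-1) D := by
      unfold ri res
      simp only [hP.leadingCoeff, hR.leadingCoeff, leadingCoeff_C, hlm1, natDegree_C]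
      rw [s.one_right hm1, s.one_left hm1, s.one_left hD, s.one_left one_ne_zero, ← hn, ← hn']
      have e : -(n : ℤ) * -(n' : ℤ) = ((n * n' : ℕ) : ℤ) := by
        push_cast
        ring
      simp only [smul_zero, add_zero, sub_zero, Nat.cast_zero, neg_zero, mul_zero, zero_smul,
        zero_add]
      rw [e, natCast_zsmul]
    rw [h2] at h1
    rw [← h1]
    abel
  have key3 := iso1_fA hPi hTP hℓ hA' hD A hPR hPdL hPQ
  have key4 := iso1_fA hRi hTR hℓ hA' hD A hRP hRdL hRQ
  have hsum := Finset.sum_congr (rfl : (Finset.univ : Finset (Fin m)) = Finset.univ)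
    (fun i (_ : i ∈ Finset.univ) => key1 i)
  rw [Finset.sum_const_zero, Finset.sum_sub_distrib, Finset.sum_add_distrib,
    Finset.sum_sub_distrib, key3, key4, Finset.sum_const, Finset.card_univ, Fintype.card_fin,
    smul_smul] at hsum
  have e1 : m * (n * n') = n * n' * m := by ring
  rw [e1] at hsum
  have h5 : ∑ i, s.s (P.eval (A i)) (R.eval (A i)) - (n * n' * m) • s.s (-1) (-1) -
      (n * n') • s.s (-1) D = 0 := by
    calc ∑ i, s.s (P.eval (A i)) (R.eval (A i)) - (n * n' * m) • s.s (-1) (-1) -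
      (n * n') • s.s (-1) D =
        (T P R (C D) - T R P (C D) + ∑ i, s.s (P.eval (A i)) (R.eval (A i)) -
          (n * n' * m) • s.s (-1) (-1)) -
        (T P R (C D) - T R P (C D) + (n * n') • s.s (-1) D) := by abel
      _ = 0 := by rw [hsum, key2, sub_zero]
  rw [sub_sub] at h5
  exact sub_eq_zero.1 h5

end Pool.Agent.H94.PM
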