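import Pool.Agent.H94.PM.LA

set_option autoImplicit false

/-!
# [H94 PM KD] The groups of global classes with given local conditions: definitions

`X` with the form `B`, `S = pf Δ`.  Unknowns: `ε = (κ, y)`, `κ : X`, `y : S → X` (constants and exponents at the primes of `Δ`) and
`x : pf D → X` (exponents at the primes dividing `D`).
-/

namespace Pool.Agent.H94.PM

open Polynomial
open Pool.Agent.H94.PL
open Pool.Agent.H94.PC (Mo Sq Pr pf om Mn mem_Mo mem_Sq mem_Pr mem_pf mem_pf')

/-- the constants and the exponents at `S`; also the type of the vectors of local data -/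
abbrev EE (X S : Type) : Type := X × (S → X)

/-- the data of the equations -/
structure Dat (ℓ : ℕ) (X S : Type) [AddCommGroup X] [Module (ZMod ℓ) X] where
  /-- the map at the primes of `D` which comes from the leading coefficients -/
  bet : X →ₗ[ZMod ℓ] X
  /-- the map at the primes of `D` which comes from the primes in `S` -/
  L : S → X →ₗ[ZMod ℓ] X
  /-- the local conditions at `S` and infinity, they depend on the type of `D` -/
  W : Tp ℓ S → Submodule (ZMod ℓ) (EE X S × EE X S)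

section
variable {F : Type} [Field F] [Finite F] {ℓ : ℕ} {X : Type} [AddCommGroup X]
  [Module (ZMod ℓ) X] (χ : LChar F ℓ) {Δ : F[X]} (dt : Dat ℓ X (pf Δ)) (D : F[X])

/-- the equation at a prime `P` dividing `D` -/
noncomputable def EM (z : EE X (pf Δ) × (pf D → X)) (P : pf D) : X :=
  ∑ Q : pf D, lm χ Q.1 P.1 • (z.2 Q - z.2 P) +
    (P.1.natDegree : ZMod ℓ) • (z.1.1 + dt.bet (z.2 P)) +
    ∑ v : pf Δ, lm χ v.1 P.1 • (z.1.2 v + dt.L v (z.2 P))

/-- the sums of the exponents with the degrees and the symbols as coefficients -/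
noncomputable def xi (Δ : F[X]) (D : F[X]) (x : pf D → X) : EE X (pf Δ) :=
  (∑ P : pf D, (P.1.natDegree : ZMod ℓ) • x P, fun v => ∑ P : pf D, lm χ v.1 P.1 • x P)

/-- the group of classes -/
noncomputable def KM : Submodule (ZMod ℓ) (EE X (pf Δ) × (pf D → X)) where
  carrier := {z | (z.1, xi χ Δ D z.2) ∈ dt.W (ty χ Δ D) ∧ ∀ P, EM χ dt D z P = 0}
  zero_mem' := by
    refine ⟨?_, fun P => ?_⟩
    · have h : ((0 : EE X (pf Δ) × (pf D → X)).1, xi χ Δ D (0 : EE X (pf Δ) × (pf D → X)).2) = 0 := by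
        refine Prod.ext rfl (Prod.ext ?_ ?_)
        · simp [xi]
        · funext v
          simp [xi]
      rw [h]
      exact Submodule.zero_mem _
    · simp [EM]
  add_mem' := by
    rintro z w ⟨h1, h2⟩ ⟨h1', h2'⟩
    refine ⟨?_, fun P => ?_⟩
    · have h : ((z + w).1, xi χ Δ D (z + w).2) =
          (z.1, xi χ Δ D z.2) + (w.1, xi χ Δ D w.2) := by
        refine Prod.ext rfl (Prod.ext ?_ ?_)
        · simp [xi, Finset.sum_add_distrib]
        · funext v
          simp [xi, Finset.sum_add_distrib]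
      rw [h]
      exact Submodule.add_mem _ h1 h1'
    · have e : EM χ dt D (z + w) P = EM χ dt D z P + EM χ dt D w P := by
        simp only [EM, Prod.fst_add, Prod.snd_add, Pi.add_apply, map_add, smul_add,
          add_sub_add_comm, Finset.sum_add_distrib]
        abel
      rw [e, h2, h2', add_zero]
  smul_mem' := by
    rintro c z ⟨h1, h2⟩
    refine ⟨?_, fun P => ?_⟩
    · have h : ((c • z).1, xi χ Δ D (c • z).2) = c • (z.1, xi χ Δ D z.2) := by
        refine Prod.ext rfl (Prod.ext ?_ ?_)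
        · simp [xi, Finset.smul_sum, smul_comm c]
        · funext v
          simp [xi, Finset.smul_sum, smul_comm c]
      rw [h]
      exact Submodule.smul_mem _ c h1
    · have e : EM χ dt D (c • z) P = c • EM χ dt D z P := by
        simp only [EM, Prod.smul_fst, Prod.smul_snd, Pi.smul_apply, map_smul, smul_add,
          ← smul_sub, Finset.smul_sum]
        simp only [smul_comm c, smul_add]
      rw [e, h2, smul_zero]

theorem mem_KM {z : EE X (pf Δ) × (pf D → X)} : z ∈ KM χ dt D ↔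
    (z.1, xi χ Δ D z.2) ∈ dt.W (ty χ Δ D) ∧ ∀ P, EM χ dt D z P = 0 := Iff.rfl

end

section
variable {ℓ : ℕ} [NeZero ℓ] {X S : Type} [AddCommGroup X] [Module (ZMod ℓ) X] [Fintype X]
  [Fintype S] (B : X →ₗ[ZMod ℓ] X →ₗ[ZMod ℓ] ZMod ℓ) (dt : Dat ℓ X S)

/-- `∑ x_u ⊗ τ_u` -/
def tens (τ : X × X → Tp ℓ S) : EE X S :=
  (∑ u, (τ u).1 • u.1, fun v => ∑ u, (τ u).2 v • u.1)

/-- the exponent in the expansion of the number of classes -/
def phs (ε : EE X S) (τ : X × X → Tp ℓ S) : ZMod ℓ :=
  ∑ u, ((τ u).1 * B u.2 (ε.1 + dt.bet u.1) + ∑ v, (τ u).2 v * B u.2 (ε.2 v + dt.L v u.1))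

open Classical in
/-- the function of the types in the expansion of the number of classes -/
noncomputable def GK (R : Tp ℓ S → Prop) (τ : X × X → Tp ℓ S) : ℂ :=
  if R (∑ u, τ u) then
    ∑ ε : EE X S, if (ε, tens τ) ∈ dt.W (∑ u, τ u) then ps (phs B dt ε τ) else 0
  else 0

/-- `x` is constant on `U` -/
def Std1 (U : Finset (X × X)) : Prop := ∃ x₀ : X, ∀ u, u ∈ U ↔ u.1 = x₀

/-- `u ↦ x_u` is a bijection from `U` to `X` -/
def Std2 (U : Finset (X × X)) : Prop := ∀ x : X, ∃ u ∈ U, u.1 = x ∧ ∀ u' ∈ U, u'.1 = x → u' = u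

/-- the second difference of the phase does not vanish -/
def Non (U : Finset (X × X)) : Prop :=
  ∃ (v : S) (u₀ w w' : X × X), u₀ ∈ U ∧ u₀ + w ∈ U ∧ u₀ + w' ∈ U ∧ u₀ + w + w' ∈ U ∧
    B w.2 (dt.L v w'.1) + B w'.2 (dt.L v w.1) ≠ 0

end

end Pool.Agent.H94.PM
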