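import Pool.Agent.H94.PL.La
import Pool.Agent.H94.PM.TY

set_option autoImplicit false
set_option linter.unusedSectionVars false

/-!
# [H94 PM LA] Unlinked sets, general `ℓ`

`PL.La` without `ℓ ≠ 2`.  Only the last statement of `la_span` (`B w.2 w.1 = 0` on `W`) uses it there.  General proof: with the
`W = span G` of that proof, `Q w = B w.2 w.1` satisfies `Q (x + y) = Q x + Q y + laB B x y` (`laB_add`), `laB = 0` on `W`, `Q (c x) = c² Q x`,
`Q = 0` on `G` (the case `w = u₀` of `hQ`), so `Q = 0` on `W` by `Submodule.span_induction` (prove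
`Q x = 0` together with `x ∈ span G`, or use the dependent form of the induction).  Then copy `la_all`, `la_str`, `cdx_good`.
-/

namespace Pool.Agent.H94.PM

open Pool.Agent.H94.PL

variable {ℓ : ℕ} [hl : Fact ℓ.Prime] {X : Type} [AddCommGroup X] [Module (ZMod ℓ) X] [Fintype X]
  (B : X →ₗ[ZMod ℓ] X →ₗ[ZMod ℓ] ZMod ℓ)

private theorem la_span' (U : Finset (X × X)) (hU : (CDX B).Unl U) (u₀ : X × X)
    (hu₀ : u₀ ∈ U) : ∃ W : Submodule (ZMod ℓ) (X × X), (∀ u ∈ U, u - u₀ ∈ W) ∧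
      (∀ x ∈ W, ∀ y ∈ W, laB B x y = 0) ∧ ∀ w ∈ W, B w.2 w.1 = 0 := by
  have hQ : ∀ u ∈ U, ∀ w ∈ U, B (u - w).2 (u - w).1 = 0 := by
    intro u hu w hw
    have h := hU u hu w hw
    rw [lk_eq, neg_eq_zero] at h
    exact h
  have hgen : ∀ u ∈ U, ∀ w ∈ U, laB B (u - u₀) (w - u₀) = 0 := by
    intro u hu w hw
    have h := laB_sub B (u - u₀) (w - u₀)
    rw [sub_sub_sub_cancel_right, hQ u hu w hw, hQ u hu u₀ hu₀, hQ w hw u₀ hu₀, add_zero,
      zero_sub] at h
    exact neg_eq_zero.1 h.symm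
  let G : Set (X × X) := {x | ∃ u ∈ U, x = u - u₀}
  have h1 : ∀ y ∈ G, ∀ x ∈ Submodule.span (ZMod ℓ) G, laB B x y = 0 := by
    rintro _ ⟨w, hw, rfl⟩ x hx
    induction hx using Submodule.span_induction with
    | mem x hx =>
      obtain ⟨u, hu, rfl⟩ := hx
      exact hgen u hu w hw
    | zero => simp
    | add x y _ _ hx hy => rw [map_add, LinearMap.add_apply, hx, hy, add_zero]
    | smul c x _ hx => rw [map_smul, LinearMap.smul_apply, hx, smul_zero]
  have h3 : ∀ x ∈ Submodule.span (ZMod ℓ) G, ∀ y ∈ Submodule.span (ZMod ℓ) G, laB B x y = 0 := by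
    intro x hx y hy
    induction hy using Submodule.span_induction with
    | mem y hy => exact h1 y hy x hx
    | zero => simp
    | add y z _ _ hy hz => rw [map_add, hy, hz, add_zero]
    | smul c y _ hy => rw [map_smul, hy, smul_zero]
  refine ⟨Submodule.span (ZMod ℓ) G, fun u hu => Submodule.subset_span ⟨u, hu, rfl⟩, h3, ?_⟩
  intro w hw
  induction hw using Submodule.span_induction with
  | mem x hx =>
    obtain ⟨u, hu, rfl⟩ := hx
    exact hQ u hu u₀ hu₀
  | zero => simp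
  | add x y hx hy hx' hy' => rw [laB_add, hx', hy', h3 x hx y hy, add_zero, add_zero]
  | smul c x _ hx' =>
    simp only [Prod.smul_snd, Prod.smul_fst, map_smul, LinearMap.smul_apply, smul_eq_mul]
    rw [hx', mul_zero, mul_zero]

private theorem la_all' (hB : BGood B) (U : Finset (X × X)) (hU : (CDX B).Unl U)
    (u₀ : X × X) (hu₀ : u₀ ∈ U) : ∃ W : Submodule (ZMod ℓ) (X × X), (∀ u ∈ U, u - u₀ ∈ W) ∧
      (∀ x ∈ W, ∀ y ∈ W, laB B x y = 0) ∧ (∀ w ∈ W, B w.2 w.1 = 0) ∧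
      U.card ≤ Nat.card W ∧ Nat.card W ≤ Fintype.card X ∧
      (U.card = Fintype.card X → Nat.card W = Fintype.card X ∧ ∀ u, u ∈ U ↔ u - u₀ ∈ W) := by
  classical
  obtain ⟨W, hW1, hW2, hW3⟩ := la_span' B U hU u₀ hu₀
  have hfin : Finite W := inferInstance
  have hinj : Function.Injective (fun u : U => (⟨u.1 - u₀, hW1 u.1 u.2⟩ : W)) := by
    intro u u' h
    have h3 : u.1 - u₀ = u'.1 - u₀ := congrArg Subtype.val h
    exact Subtype.ext (sub_left_injective h3)
  have hle : U.card ≤ Nat.card W := by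
    have h3 := Nat.card_le_card_of_injective _ hinj
    rwa [Nat.card_eq_fintype_card, Fintype.card_coe] at h3
  have hle2 := la_card B hB W hW2
  refine ⟨W, hW1, hW2, hW3, hle, hle2, fun hc => ?_⟩
  have hWc : Nat.card W = Fintype.card X := le_antisymm hle2 (hc ▸ hle)
  refine ⟨hWc, fun u => ⟨hW1 u, fun hu => ?_⟩⟩
  have hsurj : Function.Surjective (fun u : U => (⟨u.1 - u₀, hW1 u.1 u.2⟩ : W)) := by
    have : Fintype W := Fintype.ofFinite W
    refine ((Fintype.bijective_iff_injective_and_card _).2 ⟨hinj, ?_⟩).2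
    rw [Fintype.card_coe, hc, ← hWc, Nat.card_eq_fintype_card]
  obtain ⟨u', hu'⟩ := hsurj ⟨u - u₀, hu⟩
  have h3 : u'.1 - u₀ = u - u₀ := congrArg Subtype.val hu'
  rw [← sub_left_injective h3]
  exact u'.2

theorem la_str' (hB : BGood B) (U : Finset (X × X)) (hU : (CDX B).Unl U)
    (hcard : U.card = Fintype.card X) :
    ∃ (u₀ : X × X) (W : Submodule (ZMod ℓ) (X × X)), (∀ u, u ∈ U ↔ u - u₀ ∈ W) ∧
      (∀ x ∈ W, ∀ y ∈ W, laB B x y = 0) ∧ (∀ w ∈ W, B w.2 w.1 = 0) ∧
      Nat.card W = Fintype.card X := by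
  have hpos : 0 < U.card := by
    rw [hcard]
    exact Fintype.card_pos_iff.2 ⟨0⟩
  obtain ⟨u₀, hu₀⟩ := Finset.card_pos.1 hpos
  obtain ⟨W, -, hW2, hW3, -, -, hW6⟩ := la_all' B hB U hU u₀ hu₀
  obtain ⟨h3, h4⟩ := hW6 hcard
  exact ⟨u₀, W, h4, hW2, hW3, h3⟩

theorem cdx_good' (hB : BGood B) : (CDX B).Good where
  pos := Fintype.card_pos_iff.2 ⟨0⟩
  self u := by
    show B u.2 (u.1 - u.1) = 0
    rw [sub_self, map_zero]
  card_le U hU := by
    rcases U.eq_empty_or_nonempty with rfl | ⟨u₀, hu₀⟩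
    · rw [Finset.card_empty]
      exact Nat.zero_le _
    · obtain ⟨W, -, -, -, h4, h5, -⟩ := la_all' B hB U hU u₀ hu₀
      exact h4.trans h5
  nonconst U hU hc w hw := by
    by_contra hcon
    push Not at hcon
    have hpos : 0 < U.card := by
      rw [hc]
      exact Fintype.card_pos_iff.2 ⟨0⟩
    obtain ⟨u₀, hu₀⟩ := Finset.card_pos.1 hpos
    obtain ⟨W, -, hW2, hW3, -, -, hW6⟩ := la_all' B hB U hU u₀ hu₀
    obtain ⟨h3, h4⟩ := hW6 hc
    apply hw
    rw [h4]
    have h5 : u₀ - w ∈ W := by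
      refine la_perp B hB W hW2 h3 _ fun h hh => ?_
      have h6 : u₀ + h ∈ U := by
        rw [h4, add_sub_cancel_left]
        exact hh
      have h7 := hcon u₀ hu₀ (u₀ + h) h6
      rw [lk_eq, lk_eq, neg_inj] at h7
      have h8 := laB_add B (u₀ - w) h
      have h9 : u₀ - w + h = u₀ + h - w := by abel
      rw [h9, hW3 h hh, add_zero] at h8
      have h10 : B (u₀ - w).2 (u₀ - w).1 = B (u₀ + h - w).2 (u₀ + h - w).1 := h7
      rw [h8] at h10
      exact (left_eq_add.1 h10)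
    have h6 := W.neg_mem h5
    rwa [neg_sub] at h6

end Pool.Agent.H94.PM
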