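import Pool.Agent.H94.PL.Cs

set_option autoImplicit false

/-!
# [H94 PM RC] Reciprocity for a general `ℓ` (`ℓ = 2` included)

Proofs.  `lg_neg_add`: `lg 1 = 0` and `(-1) * (-1) = 1`.
`resultant_comm A B : resultant A B = (-1) ^ (deg A * deg B) * resultant B A`; `lm χ A B = lg (resultant B A)`.
For `A`, `B` monic and coprime both resultants are nonzero (`res_ne_zero`), and
`lg ((-1) ^ k) = k * lg (-1)` (`lg_pow`).  For `cs_recip'`: if `A`, `B` are not coprime both sides are zero (`cs_eq_zero`).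
-/

namespace Pool.Agent.H94.PM

open Polynomial
open Pool.Agent.H94.PL

variable {F : Type} [Field F] {ℓ : ℕ} (χ : LChar F ℓ)

theorem lg_neg_add : χ.lg (-1) + χ.lg (-1) = 0 := by
  have h := χ.mul (neg_ne_zero.2 (one_ne_zero (α := F))) (neg_ne_zero.2 one_ne_zero)
  rw [neg_one_mul, neg_neg, lg_one] at h
  exact h.symm

theorem lg_neg' {x : F} (hx : x ≠ 0) : χ.lg (-x) = χ.lg (-1) + χ.lg x := by
  rw [← neg_one_mul, χ.mul (neg_ne_zero.2 one_ne_zero) hx]

theorem lm_recip' {A B : F[X]} (hA : A.Monic) (hB : B.Monic) (h : IsCoprime A B) :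
    lm χ A B = lm χ B A + ((A.natDegree : ZMod ℓ) * (B.natDegree : ZMod ℓ)) * χ.lg (-1) := by
  have h1 : resultant A B ≠ 0 := res_ne_zero hA h.symm
  unfold lm
  rw [resultant_comm B A, χ.mul (pow_ne_zero _ (neg_ne_zero.2 one_ne_zero)) h1,
    lg_pow χ (neg_ne_zero.2 one_ne_zero), add_comm]
  push_cast
  ring

theorem cs_recip' [NeZero ℓ] {A B : F[X]} (hA : A.Monic) (hB : B.Monic) :
    cs χ A B = cs χ B A * ps (((A.natDegree : ZMod ℓ) * (B.natDegree : ZMod ℓ)) * χ.lg (-1)) := by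
  unfold cs
  by_cases h : IsCoprime A B
  · rw [chc_ne χ (res_ne_zero hB h), chc_ne χ (res_ne_zero hA h.symm), ← ps_add]
    exact congrArg ps (lm_recip' χ hA hB h)
  · rw [res_eq_zero hB h, res_eq_zero hA (fun h' => h h'.symm), chc_zero, zero_mul]

end Pool.Agent.H94.PM
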