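import Pool.Agent.H94.PL.Syg
import Pool.Agent.H94.PM.RC

set_option autoImplicit false

/-!
# [H94 PM LAP] Laplace operators on `XX m ℓ`

`(lap e H x) k = ∑ i ≠ k, H k i * (x k - x i)`, where `H k i = e + H i k` for `k ≠ i` and `e + e = 0`.
* `lap_sum`: pair the terms `(k, i)` and `(i, k)` (`Finset.sum_comm` on `∑ k, ∑ i ∈ erase k`): the sum is
  `(1/2)`-free: `∑_{i < k} (H k i - H i k) (x k - x i) = ∑_{i < k} e (x k - x i) = e ∑_{i < k} (x k + x i) = e (m - 1) ∑ x = 0` (`- e = e`).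
  (Write `∑ k, ∑ i ∈ erase k` as `∑` over `prs m` of the two terms: `Finset.sum_sigma`, or split `erase k` in `i < k`, `k < i`
  and swap.)
* `lap_single`: if `H a b = 0` unless `{a, b} = {i, k}` and `e = 0`: only these two terms.
* `lap_BB`: `B y (lap x) = ∑_{i < k} (y k * H k i * (x k - x i) + y i * H i k * (x i - x k))` `= ∑_{i < k} (H i k * (y i - y k) * (x i - x k) + e * y k * (x k - x i))`.
-/

namespace Pool.Agent.H94.PM

open Pool.Agent.H94.PL

section
variable {m ℓ : ℕ}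

theorem lap_pairs {Y : Type} [AddCommGroup Y] (g : Fin m → Fin m → Y) :
    ∑ k, ∑ i ∈ Finset.univ.erase k, g k i = ∑ p ∈ prs m, (g p.1 p.2 + g p.2 p.1) := by
  have h1 : ∀ k, ∑ i ∈ Finset.univ.erase k, g k i =
      ∑ i, (if k < i then g k i else 0) + ∑ i, (if i < k then g k i else 0) := by
    intro k
    rw [← Finset.sum_add_distrib, ← Finset.add_sum_erase Finset.univ _ (Finset.mem_univ k)]
    rw [if_neg (lt_irrefl k), zero_add, zero_add]
    refine Finset.sum_congr rfl fun i hi => ?_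
    have hne : i ≠ k := Finset.ne_of_mem_erase hi
    rcases lt_or_gt_of_ne hne with h | h
    · rw [if_neg (not_lt.2 h.le), if_pos h, zero_add]
    · rw [if_pos h, if_neg (not_lt.2 h.le), add_zero]
  have h2 : ∑ p ∈ prs m, (g p.1 p.2 + g p.2 p.1) =
      ∑ k, ∑ i, (if k < i then g k i + g i k else 0) := by
    rw [prs, Finset.sum_filter, ← Fintype.sum_prod_type']
  rw [Finset.sum_congr rfl fun k _ => h1 k, Finset.sum_add_distrib, h2]
  rw [Finset.sum_comm (f := fun k i => if i < k then g k i else 0), ← Finset.sum_add_distrib]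
  refine Finset.sum_congr rfl fun k _ => ?_
  rw [← Finset.sum_add_distrib]
  refine Finset.sum_congr rfl fun i _ => ?_
  split_ifs
  · rfl
  · rw [add_zero]

theorem lap_sum {e : ZMod ℓ} (he : e + e = 0) {H : Fin m → Fin m → ZMod ℓ}
    (hH : ∀ k i, k ≠ i → H k i = e + H i k) {x : Fin m → ZMod ℓ} (hx : ∑ k, x k = 0) :
    ∑ k, ∑ i ∈ Finset.univ.erase k, H k i * (x k - x i) = 0 := by
  rw [lap_pairs fun k i => H k i * (x k - x i)]
  have h1 : ∀ p ∈ prs m, H p.1 p.2 * (x p.1 - x p.2) + H p.2 p.1 * (x p.2 - x p.1) =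
      e * x p.1 + e * x p.2 := by
    intro p hp
    rw [hH p.2 p.1 (mem_prs.1 hp).ne']
    linear_combination (-(x p.1)) * he
  rw [Finset.sum_congr rfl h1, ← lap_pairs fun k _ => e * x k]
  have h2 : ∀ k : Fin m, ∑ i ∈ Finset.univ.erase k, e * x k = ((m - 1 : ℕ) : ZMod ℓ) * e * x k := by
    intro k
    rw [Finset.sum_const, Finset.card_erase_of_mem (Finset.mem_univ k), Finset.card_univ,
      Fintype.card_fin, nsmul_eq_mul, mul_assoc]
  rw [Finset.sum_congr rfl fun k _ => h2 k, ← Finset.mul_sum, hx, mul_zero]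

/-- the Laplace operator of `H` -/
noncomputable def lap {e : ZMod ℓ} (he : e + e = 0) (H : Fin m → Fin m → ZMod ℓ)
    (hH : ∀ k i, k ≠ i → H k i = e + H i k) : XX m ℓ →ₗ[ZMod ℓ] XX m ℓ where
  toFun x := ⟨fun k => ∑ i ∈ Finset.univ.erase k, H k i * (x.1 k - x.1 i),
    lap_sum he hH x.2⟩
  map_add' x y := by
    apply Subtype.ext
    funext k
    change ∑ i ∈ Finset.univ.erase k, H k i * ((x.1 k + y.1 k) - (x.1 i + y.1 i)) =
      ∑ i ∈ Finset.univ.erase k, H k i * (x.1 k - x.1 i) +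
        ∑ i ∈ Finset.univ.erase k, H k i * (y.1 k - y.1 i)
    rw [← Finset.sum_add_distrib]
    exact Finset.sum_congr rfl fun i _ => by ring
  map_smul' c x := by
    apply Subtype.ext
    funext k
    change ∑ i ∈ Finset.univ.erase k, H k i * (c * x.1 k - c * x.1 i) =
      c * ∑ i ∈ Finset.univ.erase k, H k i * (x.1 k - x.1 i)
    rw [Finset.mul_sum]
    exact Finset.sum_congr rfl fun i _ => by ring

theorem lap_apply {e : ZMod ℓ} (he : e + e = 0) (H : Fin m → Fin m → ZMod ℓ)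
    (hH : ∀ k i, k ≠ i → H k i = e + H i k) (x : XX m ℓ) (k : Fin m) :
    (lap he H hH x).1 k = ∑ i ∈ Finset.univ.erase k, H k i * (x.1 k - x.1 i) := rfl

theorem lap_single {e : ZMod ℓ} (he : e + e = 0) (he0 : e = 0) (H : Fin m → Fin m → ZMod ℓ)
    (hH : ∀ k i, k ≠ i → H k i = e + H i k) {i k : Fin m} (hik : i ≠ k)
    (h0 : ∀ a b, a ≠ b → ¬ (a = i ∧ b = k) → ¬ (a = k ∧ b = i) → H a b = 0) (x : XX m ℓ) :
    lap he H hH x = (H i k * (x.1 i - x.1 k)) • ep ℓ i k := by
  apply Subtype.ext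
  funext a
  rw [lap_apply]
  show _ = (H i k * (x.1 i - x.1 k)) * ((if a = i then 1 else 0) - (if a = k then 1 else 0))
  by_cases ha : a = i
  · subst ha
    rw [Finset.sum_eq_single k]
    · rw [if_pos rfl, if_neg hik]
      ring
    · intro b hb hbk
      rw [h0 a b (Finset.ne_of_mem_erase hb).symm (fun h => hbk h.2) (fun h => hik h.1), zero_mul]
    · intro h
      exact absurd (Finset.mem_erase.2 ⟨hik.symm, Finset.mem_univ k⟩) h
  · by_cases hk : a = k
    · subst hk
      rw [Finset.sum_eq_single i]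
      · rw [if_neg ha, if_pos rfl, hH a i ha, he0]
        ring
      · intro b hb hbi
        rw [h0 a b (Finset.ne_of_mem_erase hb).symm (fun h => ha h.1) (fun h => hbi h.2), zero_mul]
      · intro h
        exact absurd (Finset.mem_erase.2 ⟨fun h' => ha h'.symm, Finset.mem_univ i⟩) h
    · rw [if_neg ha, if_neg hk, sub_self, mul_zero]
      refine Finset.sum_eq_zero fun b hb => ?_
      rw [h0 a b (Finset.ne_of_mem_erase hb).symm (fun h => ha h.1) (fun h => hk h.1), zero_mul]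

theorem lap_BB {e : ZMod ℓ} (he : e + e = 0) (H : Fin m → Fin m → ZMod ℓ)
    (hH : ∀ k i, k ≠ i → H k i = e + H i k) (x y : XX m ℓ) :
    BB m ℓ y (lap he H hH x) = ∑ p ∈ prs m,
      (H p.1 p.2 * (y.1 p.1 - y.1 p.2) * (x.1 p.1 - x.1 p.2) +
        e * y.1 p.2 * (x.1 p.2 - x.1 p.1)) := by
  rw [BB_apply]
  have h1 : ∀ k, y.1 k * (lap he H hH x).1 k =
      ∑ i ∈ Finset.univ.erase k, y.1 k * (H k i * (x.1 k - x.1 i)) := by
    intro k
    rw [lap_apply, Finset.mul_sum]
  rw [Finset.sum_congr rfl fun k _ => h1 k, lap_pairs fun k i => y.1 k * (H k i * (x.1 k - x.1 i))]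
  refine Finset.sum_congr rfl fun p hp => ?_
  rw [hH p.2 p.1 (mem_prs.1 hp).ne']
  ring

end

end Pool.Agent.H94.PM
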