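import Pool.Agent.H94.PM.BL
import Pool.Agent.H94.PL.Lks

set_option autoImplicit false

/-!
# [H94 PM LK] Configurations with two large linked variables, general `ℓ`

`PL.Lkc.lk_deg` and `PL.Lks.lk_sum` without `ℓ ≠ 2`.  Only `PL.Lkc.lkc_bil` uses `ℓ ≠ 2` (all the other lemmas of `PL.Lkc` may be
used as they are).  In `lkc_bil` the product `lkcG i j a c * lkcG j i c a` is, for `a`, `c` coprime,
`ps (Phi i j * lm c a + Phi j i * lm a c)`, and by `lm_recip'` `lm a c = lm c a + deg a deg c * lg (-1)`, so it is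
`ps (lk i j * lm c a) * ps (Phi j i * deg a * deg c * lg (-1))`.  By `lkcH_deg` only `a`, `c` with `deg a = d i`, `deg c = d j` matter,
so the second factor is a constant of absolute value one, which can be put into `α`.  Use `bilin_sym'` for the character `χ.smul`.
Then copy the proofs of `lk_deg` and `lk_sum`.
-/

namespace Pool.Agent.H94.PM

open Polynomial
open Pool.Agent.H94.PL
open Pool.Agent.H94.PC (Mo Sq Pr pf om Mn mem_Mo mem_Sq mem_Pr mem_pf mem_pf')

variable {F : Type} [Field F] [Finite F] {ℓ : ℕ} [hl : Fact ℓ.Prime]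
  {V : Type} [Fintype V] [DecidableEq V]

theorem lkc_bil' (χ : LChar F ℓ) (C : CD V ℓ) (hC : C.Good) (Δ : F[X])
    (b : V → ZMod ℓ) (g : V → pf Δ → ZMod ℓ) (n : ℕ) (d : V → ℕ) (i j : V)
    (hij : C.lk i j ≠ 0) (α β : Mn F n → ℂ) (hα : ∀ a, ‖α a‖ ≤ 1) (hβ : ∀ b, ‖β b‖ ≤ 1) :
    ‖∑ a, ∑ c, α a * β c * (lkcH χ C Δ b g n d i a * lkcH χ C Δ b g n d j c *
      (lkcG χ C n i j a c * lkcG χ C n j i c a))‖ ^ 4 * (Nat.card F : ℝ) ^ (min (d i) (d j)) ≤
      (d i + d j + 1) * (Nat.card F : ℝ) ^ (4 * (d i + d j)) := by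
  classical
  obtain ⟨κ, hκ⟩ : ∃ κ : ℂ, κ = ps (C.Phi i j * ((((d j : ℕ) : ZMod ℓ) * ((d i : ℕ) : ZMod ℓ)) *
    χ.lg (-1))) := ⟨_, rfl⟩
  have hκ1 : ‖κ‖ = 1 := by rw [hκ, norm_ps]
  have hα' : ∀ a, ‖κ * (α a * lkcH χ C Δ b g n d i a)‖ ≤ 1 := fun a => by
    rw [norm_mul, hκ1, one_mul, norm_mul]
    exact mul_le_one₀ (hα a) (norm_nonneg _) (lkcH_le χ C hC Δ b g n d i a)
  have hβ' : ∀ c, ‖β c * lkcH χ C Δ b g n d j c‖ ≤ 1 := fun c => by
    rw [norm_mul]
    exact mul_le_one₀ (hβ c) (norm_nonneg _) (lkcH_le χ C hC Δ b g n d j c)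
  have hJ : ∀ a c : Mn F n, a.1.natDegree = d i → c.1.natDegree = d j →
      lkcG χ C n i j a c * lkcG χ C n j i c a =
      κ * cs (χ.smul (C.lk i j) hij) a.1 c.1 := by
    intro a c ha hc'
    unfold lkcG
    by_cases hc : IsCoprime a.1 c.1
    · rw [if_pos hc, if_pos hc.symm, cs_of_coprime _ c.2.1 hc, lm_smul, ← ps_add, hκ, ← ps_add,
        lm_recip' χ c.2.1 a.2.1 hc.symm, ha, hc']
      congr 1
      unfold CD.lk
      ring
    · rw [if_neg hc, zero_mul, cs_eq_zero _ c.2.1 hc, mul_zero]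
  have hT : ∀ a c : Mn F n, lkcH χ C Δ b g n d i a * lkcH χ C Δ b g n d j c *
      (lkcG χ C n i j a c * lkcG χ C n j i c a) =
      κ * (lkcH χ C Δ b g n d i a * lkcH χ C Δ b g n d j c *
        cs (χ.smul (C.lk i j) hij) a.1 c.1) := by
    intro a c
    by_cases ha : a.1.natDegree = d i
    · by_cases hc : c.1.natDegree = d j
      · rw [hJ a c ha hc]
        ring
      · rw [lkcH_deg hc]
        ring
    · rw [lkcH_deg ha]
      ring
  have key : ∑ a, ∑ c, α a * β c * (lkcH χ C Δ b g n d i a * lkcH χ C Δ b g n d j c *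
      (lkcG χ C n i j a c * lkcG χ C n j i c a)) =
      ∑ A ∈ Sq F (d i), ∑ B ∈ Sq F (d j),
        lkcE (fun a : Mn F n => κ * (α a * lkcH χ C Δ b g n d i a)) A *
          lkcE (fun c : Mn F n => β c * lkcH χ C Δ b g n d j c) B *
            cs (χ.smul (C.lk i j) hij) A B := by
    have e1 : ∀ a : Mn F n, ∑ c, α a * β c * (lkcH χ C Δ b g n d i a *
        lkcH χ C Δ b g n d j c * (lkcG χ C n i j a c * lkcG χ C n j i c a)) =
        (κ * (α a * lkcH χ C Δ b g n d i a)) *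
        (fun A => ∑ B ∈ Sq F (d j), lkcE (fun c : Mn F n => β c * lkcH χ C Δ b g n d j c) B *
          cs (χ.smul (C.lk i j) hij) A B) a.1 := by
      intro a
      have e2 := lkc_sum (m := d j) (fun c : Mn F n => β c * lkcH χ C Δ b g n d j c)
        (fun c hc => by rw [lkcH_deg hc, mul_zero])
        (fun B => cs (χ.smul (C.lk i j) hij) a.1 B)
      simp only at e2 ⊢
      rw [← e2, Finset.mul_sum]
      refine Finset.sum_congr rfl fun c _ => ?_
      rw [hT]
      ring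
    refine (Finset.sum_congr rfl fun a _ => e1 a).trans ?_
    refine (lkc_sum (m := d i) (fun a : Mn F n => κ * (α a * lkcH χ C Δ b g n d i a))
        (fun a ha => by rw [lkcH_deg ha, mul_zero, mul_zero])
        (fun A => ∑ B ∈ Sq F (d j),
          lkcE (fun c : Mn F n => β c * lkcH χ C Δ b g n d j c) B *
            cs (χ.smul (C.lk i j) hij) A B)).trans ?_
    refine Finset.sum_congr rfl fun A _ => ?_
    rw [Finset.mul_sum]
    refine Finset.sum_congr rfl fun B _ => ?_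
    ring
  rw [key]
  exact bilin_sym' (χ.smul (C.lk i j) hij) (d i) (d j) _ _ (lkcE_le hα') (lkcE_le hβ')

open Classical in
theorem lk_deg' (χ : LChar F ℓ) (C : CD V ℓ) (hC : C.Good) (Δ : F[X])
    (b : V → ZMod ℓ) (g : V → pf Δ → ZMod ℓ) (n z : ℕ) (d : V → ℕ) (i j : V)
    (hij : C.lk i j ≠ 0) (hi : z ≤ d i) (hj : z ≤ d j) :
    ‖∑ x : V → Mn F n, (if ∀ u, (x u).1.natDegree = d u then WL χ C Δ b g n x else 0)‖ ≤
      (n + 1) * (Nat.card F : ℝ) ^ n * (Nat.card F : ℝ) ^ (-(z : ℝ) / 4) := by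
  have hq : (1 : ℝ) ≤ (Nat.card F : ℝ) := PC.lkc_one_le_q
  by_cases hd : ∑ u, d u = n
  · have hne : i ≠ j := by
      rintro rfl
      apply hij
      unfold CD.lk
      rw [hC.self, add_zero]
    obtain ⟨B, hB⟩ : ∃ B : ℝ, B = ((d i : ℝ) + d j + 1) *
      (Nat.card F : ℝ) ^ (d i + d j) * (Nat.card F : ℝ) ^ (-(z : ℝ) / 4) := ⟨_, rfl⟩
    have hB0 : 0 ≤ B := by
      rw [hB, ← Nat.cast_add]
      exact PC.lkc_nonneg hq _ _ _
    have hbil : ∀ α β : Mn F n → ℂ, (∀ a, ‖α a‖ ≤ 1) → (∀ c, ‖β c‖ ≤ 1) →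
        ‖∑ a, ∑ c, α a * β c * (lkcH χ C Δ b g n d i a * lkcH χ C Δ b g n d j c *
          (lkcG χ C n i j a c * lkcG χ C n j i c a))‖ ≤ B := by
      intro α β hα hβ
      rw [hB]
      have h3 := PC.lkc_root hq hi hj (lkc_bil' χ C hC Δ b g n d i j hij α β hα hβ)
      rwa [abs_norm] at h3
    rw [Finset.sum_congr rfl fun x _ => lkc_formula χ C hC Δ b g n d hd x]
    refine (lkcP_main i j hne (lkcH χ C Δ b g n d) (lkcG χ C n) (lkcH_le χ C hC Δ b g n d)
      (fun u w a b => lkcG_le χ C n u w a b) B hB0 hbil).trans ?_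
    have h5 : ∏ u ∈ (Finset.univ.erase i).erase j, ∑ a : Mn F n, ‖lkcH χ C Δ b g n d u a‖ ≤
        ∏ u ∈ (Finset.univ.erase i).erase j, (Nat.card F : ℝ) ^ d u :=
      Finset.prod_le_prod (fun u _ => Finset.sum_nonneg fun a _ => norm_nonneg _)
        fun u _ => lkcH_sum χ C hC Δ b g n d u
    refine (mul_le_mul_of_nonneg_right h5 hB0).trans ?_
    rw [hB]
    exact lkc_final hq d hd hne
  · rw [Finset.sum_congr rfl fun x _ => lkc_zero χ C Δ b g n d hd x, Finset.sum_const_zero,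
      norm_zero]
    exact PC.lkc_nonneg hq _ _ _

open Classical in
theorem lk_sum' (χ : LChar F ℓ) (C : CD V ℓ) (hC : C.Good) (Δ : F[X])
    (b : V → ZMod ℓ) (g : V → pf Δ → ZMod ℓ) (n z : ℕ) (R : (V → ℕ) → Prop)
    (hR : ∀ d, R d → ∃ i j, C.lk i j ≠ 0 ∧ z ≤ d i ∧ z ≤ d j) :
    ‖∑ x : V → Mn F n, (if R fun u => (x u).1.natDegree then WL χ C Δ b g n x else 0)‖ ≤
      ((n : ℝ) + 1) ^ (Fintype.card V + 1) * (Nat.card F : ℝ) ^ n *
        (Nat.card F : ℝ) ^ (-(z : ℝ) / 4) := by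
  obtain ⟨G, hG⟩ : ∃ G : (V → Mn F n) → ℂ, G = fun x =>
      (if R fun u => (x u).1.natDegree then WL χ C Δ b g n x else 0) := ⟨_, rfl⟩
  obtain ⟨T, hT⟩ : ∃ T : Finset (V → ℕ), T = Fintype.piFinset
      (fun _ : V => Finset.range (n + 1)) := ⟨_, rfl⟩
  obtain ⟨Bd, hBd⟩ : ∃ Bd : ℝ, Bd = (n + 1) * (Nat.card F : ℝ) ^ n *
      (Nat.card F : ℝ) ^ (-(z : ℝ) / 4) := ⟨_, rfl⟩
  have hBd0 : 0 ≤ Bd := by
    rw [hBd]
    positivity
  have hcls : ∀ x : V → Mn F n, (fun u => (x u).1.natDegree) ∈ T := by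
    intro x
    rw [hT, Fintype.mem_piFinset]
    intro u
    rw [Finset.mem_range]
    have := (x u).2.2.2
    omega
  have hsplit : ∑ x : V → Mn F n, G x =
      ∑ d ∈ T, ∑ x : V → Mn F n, (if ∀ u, (x u).1.natDegree = d u then G x else 0) := by
    rw [Finset.sum_comm]
    refine Finset.sum_congr rfl fun x _ => ?_
    rw [Finset.sum_eq_single (fun u => (x u).1.natDegree)]
    · rw [if_pos (fun u => rfl)]
    · intro d _ hd
      rw [if_neg]
      intro h
      apply hd
      funext u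
      exact (h u).symm
    · intro h
      exact absurd (hcls x) h
  have hone : ∀ d ∈ T, ‖∑ x : V → Mn F n,
      (if ∀ u, (x u).1.natDegree = d u then G x else 0)‖ ≤ Bd := by
    intro d _
    by_cases hQ : R d
    · obtain ⟨i, j, hij, hi, hj⟩ := hR d hQ
      have e : ∑ x : V → Mn F n, (if ∀ u, (x u).1.natDegree = d u then G x else 0) =
          ∑ x : V → Mn F n,
          (if ∀ u, (x u).1.natDegree = d u then WL χ C Δ b g n x else 0) := by
        refine Finset.sum_congr rfl fun x _ => ?_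
        by_cases hx : ∀ u, (x u).1.natDegree = d u
        · rw [if_pos hx, if_pos hx, hG]
          have hx' : (fun u => (x u).1.natDegree) = d := funext hx
          show (if _ then _ else _) = _
          rw [if_pos]
          rw [hx']
          exact hQ
        · rw [if_neg hx, if_neg hx]
      rw [e, hBd]
      exact lk_deg' χ C hC Δ b g n z d i j hij hi hj
    · have e : ∑ x : V → Mn F n, (if ∀ u, (x u).1.natDegree = d u then G x else 0) = 0 := by
        refine Finset.sum_eq_zero fun x _ => ?_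
        by_cases hx : ∀ u, (x u).1.natDegree = d u
        · rw [if_pos hx, hG]
          have hx' : (fun u => (x u).1.natDegree) = d := funext hx
          show (if _ then _ else _) = _
          rw [if_neg]
          rw [hx']
          exact hQ
        · rw [if_neg hx]
      rw [e, norm_zero]
      exact hBd0
  have hcard : (T.card : ℝ) = ((n : ℝ) + 1) ^ Fintype.card V := by
    have h : T.card = (n + 1) ^ Fintype.card V := by
      rw [hT, Fintype.card_piFinset, Finset.prod_const, Finset.card_range]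
      rfl
    rw [h]
    push_cast
    ring
  calc ‖∑ x : V → Mn F n, (if R fun u => (x u).1.natDegree then WL χ C Δ b g n x else 0)‖ =
        ‖∑ x : V → Mn F n, G x‖ := by rw [hG]
    _ ≤ ∑ d ∈ T, ‖∑ x : V → Mn F n, (if ∀ u, (x u).1.natDegree = d u then G x else 0)‖ := by
        rw [hsplit]
        exact norm_sum_le _ _
    _ ≤ ∑ d ∈ T, Bd := Finset.sum_le_sum hone
    _ = (T.card : ℝ) * Bd := by rw [Finset.sum_const, nsmul_eq_mul]
    _ = _ := by
        rw [hcard, hBd]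
        ring

end Pool.Agent.H94.PM
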