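import Pool.Agent.H94.PM.LS

set_option autoImplicit false

/-!
# [H94 PM LMK] Construction of a unit logarithm from representatives of the residues (helper90)

`T` has valuation `exp (-1)`, `V` is a set of labels, `e : R → M` with `v (e r) = 1`, every unit is near some `e r`, `L` depends only on the class of `e r`,
products of representatives are representatives.  Then there is a unit logarithm `U` with `U.un T = 0` and `U.un (e r) = L r`.
-/

namespace Pool.Agent.H94.PM

open WithZero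
open Pool.Agent.H94.PL

section
variable {M R : Type} [Field M] {v : Valuation M ℤᵐ⁰} {ℓ : ℕ} {T : M} {e : R → M} {V : Set R}
  {L : R → ZMod ℓ}

private theorem lmk_T (hT : v T = exp (-1 : ℤ)) : T ≠ 0 := by
  rintro rfl
  rw [map_zero] at hT
  exact exp_ne_zero hT.symm

private theorem lmk_vT (hT : v T = exp (-1 : ℤ)) (n : ℤ) : v (T ^ n) = exp (-n) := by
  rw [map_zpow₀, hT, ← exp_zsmul]
  congr 1
  simp

private theorem lmk_ex (hT : v T = exp (-1 : ℤ))
    (h2 : ∀ s : M, v s = 1 → ∃ r ∈ V, v (s - e r) < 1) (x : M) (hx : x ≠ 0) :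
    ∃ r ∈ V, v (x / T ^ vl v x - e r) < 1 := by
  refine h2 _ ?_
  rw [map_div₀, lmk_vT hT, val_vl hx, div_self exp_ne_zero]

private theorem lmk_uniq (hT : v T = exp (-1 : ℤ)) (h1 : ∀ r ∈ V, v (e r) = 1)
    (h4 : ∀ r ∈ V, ∀ r' ∈ V, v (e r - e r') < 1 → L r = L r') {x : M} (hx : x ≠ 0) {n : ℤ}
    {r r' : R} (hr : r ∈ V) (hr' : r' ∈ V) (h : v (x / T ^ n - e r) < 1)
    (h' : v (x / T ^ vl v x - e r') < 1) : L r' = L r := by
  have e1 : v (x / T ^ n) = 1 := unit_of_close (h1 r hr) h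
  have hn : n = vl v x := by
    rw [map_div₀, lmk_vT hT, val_vl hx, ← exp_sub, ← exp_zero, exp_inj] at e1
    omega
  rw [hn] at h
  refine h4 r' hr' r hr ?_
  have e2 : e r' - e r = (x / T ^ vl v x - e r) - (x / T ^ vl v x - e r') := by ring
  rw [e2]
  exact lt_of_le_of_lt (Valuation.map_sub _ _ _) (max_lt h h')

theorem lu_mk (hT : v T = exp (-1 : ℤ)) (h1 : ∀ r ∈ V, v (e r) = 1)
    (h2 : ∀ s : M, v s = 1 → ∃ r ∈ V, v (s - e r) < 1)
    (h3 : ∀ r ∈ V, ∀ r' ∈ V, ∃ r'' ∈ V, e r'' = e r * e r' ∧ L r'' = L r + L r')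
    (h4 : ∀ r ∈ V, ∀ r' ∈ V, v (e r - e r') < 1 → L r = L r')
    (h5 : ∃ r ∈ V, e r = 1 ∧ L r = 0)
    (h6 : ∀ r ∈ V, L r = 0 → ∃ y : M, y ≠ 0 ∧ v (e r * y ^ ℓ - 1) < 1) :
    ∃ U : LU v ℓ, U.un T = 0 ∧ ∀ r ∈ V, U.un (e r) = L r := by
  classical
  have hT0 : T ≠ 0 := lmk_T hT
  obtain ⟨r1, hr1, he1, hL1⟩ := h5
  have hRne : Nonempty R := ⟨r1⟩
  choose! c hc1 hc2 using lmk_ex (e := e) (V := V) hT h2
  obtain ⟨un, hun⟩ : ∃ un : M → ZMod ℓ, ∀ x, un x = if x = 0 then 0 else L (c x) :=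
    ⟨_, fun _ => rfl⟩
  have key : ∀ {x : M}, x ≠ 0 → ∀ {n : ℤ} {r : R}, r ∈ V → v (x / T ^ n - e r) < 1 →
      un x = L r := by
    intro x hx n r hr h
    rw [hun, if_neg hx]
    exact lmk_uniq hT h1 h4 hx hr (hc1 x hx) h (hc2 x hx)
  have hmul : ∀ x y : M, x ≠ 0 → y ≠ 0 → un (x * y) = un x + un y := by
    intro x y hx hy
    obtain ⟨r'', hr'', he'', hL''⟩ := h3 _ (hc1 x hx) _ (hc1 y hy)
    have e1 : un (x * y) = L r'' := by
      refine key (mul_ne_zero hx hy) (n := vl v x + vl v y) hr'' ?_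
      have e2 : x * y / T ^ (vl v x + vl v y) - e r'' =
          x / T ^ vl v x * (y / T ^ vl v y - e (c y)) +
            (x / T ^ vl v x - e (c x)) * e (c y) := by
        rw [he'', zpow_add₀ hT0]
        have h7 : T ^ vl v x ≠ 0 := zpow_ne_zero _ hT0
        have h8 : T ^ vl v y ≠ 0 := zpow_ne_zero _ hT0
        field_simp
        ring
      rw [e2]
      refine lt_of_le_of_lt (v.map_add _ _) (max_lt ?_ ?_)
      · rw [map_mul, unit_of_close (h1 _ (hc1 x hx)) (hc2 x hx), one_mul]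
        exact hc2 y hy
      · rw [map_mul, h1 _ (hc1 y hy), mul_one]
        exact hc2 x hx
    rw [e1, hL'', hun x, if_neg hx, hun y, if_neg hy]
  have hnear : ∀ x : M, v (x - 1) < 1 → un x = 0 := by
    intro x hx
    rw [← hL1]
    refine key (ne_of_near hx) (n := 0) hr1 ?_
    rw [zpow_zero, div_one, he1]
    exact hx
  have hker : ∀ x : M, v x = 1 → un x = 0 → ∃ y : M, y ≠ 0 ∧ v (x * y ^ ℓ - 1) < 1 := by
    intro x hx hu
    have hx0 : x ≠ 0 := by
      rintro rfl
      rw [map_zero] at hx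
      exact zero_ne_one hx
    have hv0 : vl v x = 0 := by
      rw [vl_eq_iff hx0, hx, neg_zero, exp_zero]
    have h7 := hc2 x hx0
    rw [hv0, zpow_zero, div_one] at h7
    rw [hun, if_neg hx0] at hu
    obtain ⟨y, hy, h8⟩ := h6 _ (hc1 x hx0) hu
    refine ⟨y, hy, ?_⟩
    have her : e (c x) ≠ 0 := by
      intro h9
      have h10 := h1 _ (hc1 x hx0)
      rw [h9, map_zero] at h10
      exact zero_ne_one h10
    have h9 : v (x / e (c x) - 1) < 1 := by
      have h10 : x / e (c x) - 1 = (x - e (c x)) / e (c x) := by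
        field_simp
      rw [h10, map_div₀, h1 _ (hc1 x hx0), div_one]
      exact h7
    have h11 := near_mul h9 h8
    have h12 : x / e (c x) * (e (c x) * y ^ ℓ) = x * y ^ ℓ := by
      field_simp
    rwa [h12] at h11
  refine ⟨⟨un, hmul, hnear, hker⟩, ?_, fun r hr => ?_⟩
  · show un T = 0
    rw [← hL1]
    refine key hT0 (n := 1) hr1 ?_
    rw [zpow_one, div_self hT0, he1, sub_self, map_zero]
    exact zero_lt_one
  · show un (e r) = L r
    have her : e r ≠ 0 := by
      intro h9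
      have h10 := h1 _ hr
      rw [h9, map_zero] at h10
      exact zero_ne_one h10
    refine key her (n := 0) hr ?_
    rw [zpow_zero, div_one, sub_self, map_zero]
    exact zero_lt_one

end

end Pool.Agent.H94.PM
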