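import Pool.Agent.H94.PM.SY
import Pool.Agent.H94.PL.Loc

set_option autoImplicit false

/-!
# [H94 PM LS] Additive valuation, unit logarithm and tame symbol of a valued field

`vl v x = - log (v x)` (so `v x = exp (- vl v x)` for `x ≠ 0`; `vl v 0 = 0`).
* `vl_mul`: `WithZero.log_mul`; `vl_pow`, `vl_inv`, `vl_neg`, `vl_prod`: from it or from `map_pow`, `map_inv₀`, `Valuation.map_neg`.
* `vl_near`: `PL.val_eq_one_of_near`.
* `hs_st` (`x ≠ 0, 1`), cases: `v x < 1`: `1 - x` is near `1`, `un (1 - x) = 0`, `vl (1 - x) = 0`, so `hs = 0`.  `v x = 1` and `v (1 - x) < 1`: `x` is near `1`,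
  `un x = 0`, `vl x = 0`, so `hs = 0`.  `v x = 1`, `v (1 - x) = 1`: `vl x = vl (1 - x) = 0`, so `hs = 0`.  `1 < v x`:
  `1 - x = (-1) * x * (1 - x⁻¹)` and the last factor is near `1`: `un (1 - x) = un (-1) + un x`, `vl (1 - x) = vl x = a`;
  `hs = un x * a - a * (un (-1) + un x) + un (-1) * a * a = un (-1) * (a * (a - 1))`, `a * (a - 1)` is even and
  `2 * un (-1) = un ((-1) * (-1)) = un 1 = 0`.
  (`v (1 - x) ≤ 1` if `v x ≤ 1`; `v (1 - x)` cannot be `> 1` then.)
* `hs_pow`: `hs (x * y ^ ℓ) z = hs x z + ℓ * .. = hs x z` in `ZMod ℓ`.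
-/

namespace Pool.Agent.H94.PM

open WithZero

section
variable {M : Type} [Field M] {v : Valuation M ℤᵐ⁰}

/-- the additive valuation, `0` at `0` -/
noncomputable def vl (v : Valuation M ℤᵐ⁰) (x : M) : ℤ := -log (v x)

theorem vl_mul {x y : M} (hx : x ≠ 0) (hy : y ≠ 0) : vl v (x * y) = vl v x + vl v y := by
  unfold vl
  rw [map_mul, log_mul ((v.ne_zero_iff).2 hx) ((v.ne_zero_iff).2 hy)]
  ring

theorem vl_one : vl v 1 = 0 := by
  unfold vl
  rw [map_one, log_one, neg_zero]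

theorem vl_pow (x : M) (n : ℕ) : vl v (x ^ n) = n * vl v x := by
  unfold vl
  rw [map_pow, log_pow, nsmul_eq_mul]
  ring

theorem vl_inv (x : M) : vl v x⁻¹ = -vl v x := by
  unfold vl
  rw [map_inv₀, log_inv]

theorem vl_zpow (x : M) (n : ℤ) : vl v (x ^ n) = n * vl v x := by
  unfold vl
  rw [map_zpow₀, log_zpow, zsmul_eq_mul]
  simp

theorem vl_div {x y : M} (hx : x ≠ 0) (hy : y ≠ 0) : vl v (x / y) = vl v x - vl v y := by
  rw [div_eq_mul_inv, vl_mul hx (inv_ne_zero hy), vl_inv]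
  ring

theorem vl_neg (x : M) : vl v (-x) = vl v x := by
  unfold vl
  rw [Valuation.map_neg]

theorem vl_prod {ι : Type*} (t : Finset ι) (f : ι → M) (hf : ∀ i ∈ t, f i ≠ 0) :
    vl v (∏ i ∈ t, f i) = ∑ i ∈ t, vl v (f i) := by
  classical
  induction t using Finset.induction_on with
  | empty => rw [Finset.prod_empty, Finset.sum_empty, vl_one]
  | insert a t ha ih =>
    rw [Finset.prod_insert ha, Finset.sum_insert ha, vl_mul (hf a (Finset.mem_insert_self a t))
      (Finset.prod_ne_zero_iff.2 fun i hi => hf i (Finset.mem_insert_of_mem hi)),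
      ih fun i hi => hf i (Finset.mem_insert_of_mem hi)]

theorem val_vl {x : M} (hx : x ≠ 0) : v x = exp (-vl v x) := by
  unfold vl
  rw [neg_neg, exp_log ((v.ne_zero_iff).2 hx)]

theorem vl_eq_iff {x : M} (hx : x ≠ 0) (n : ℤ) : vl v x = n ↔ v x = exp (-n) := by
  constructor
  · intro h
    rw [val_vl hx, h]
  · intro h
    unfold vl
    rw [h, log_exp, neg_neg]

theorem vl_near {x : M} (h : v (x - 1) < 1) : vl v x = 0 := by
  unfold vl
  rw [Pool.Agent.H94.PL.val_eq_one_of_near h, log_one, neg_zero]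

theorem ne_of_near {x : M} (h : v (x - 1) < 1) : x ≠ 0 := by
  rintro rfl
  rw [zero_sub, Valuation.map_neg, map_one] at h
  exact lt_irrefl _ h

end

/-- a logarithm modulo `ℓ` which on the units depends only on the residue, with kernel
the `ℓ`-th powers there -/
structure LU {M : Type} [Field M] (v : Valuation M ℤᵐ⁰) (ℓ : ℕ) where
  /-- the logarithm -/
  un : M → ZMod ℓ
  mul : ∀ x y : M, x ≠ 0 → y ≠ 0 → un (x * y) = un x + un y
  near : ∀ x : M, v (x - 1) < 1 → un x = 0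
  ker : ∀ x : M, v x = 1 → un x = 0 → ∃ y : M, y ≠ 0 ∧ v (x * y ^ ℓ - 1) < 1

namespace LU

variable {M : Type} [Field M] {v : Valuation M ℤᵐ⁰} {ℓ : ℕ} (U : LU v ℓ)

theorem un_one : U.un 1 = 0 := by
  have h := U.mul 1 1 one_ne_zero one_ne_zero
  rw [mul_one] at h
  exact left_eq_add.1 h

theorem un_inv {x : M} (hx : x ≠ 0) : U.un x⁻¹ = -U.un x := by
  have h := U.mul x⁻¹ x (inv_ne_zero hx) hx
  rw [inv_mul_cancel₀ hx, U.un_one] at h
  exact eq_neg_of_add_eq_zero_left h.symm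

theorem un_div {x y : M} (hx : x ≠ 0) (hy : y ≠ 0) : U.un (x / y) = U.un x - U.un y := by
  rw [div_eq_mul_inv, U.mul x y⁻¹ hx (inv_ne_zero hy), U.un_inv hy, sub_eq_add_neg]

theorem un_pow {x : M} (hx : x ≠ 0) (n : ℕ) : U.un (x ^ n) = n * U.un x := by
  induction n with
  | zero => rw [pow_zero, U.un_one, Nat.cast_zero, zero_mul]
  | succ n ih =>
    rw [pow_succ, U.mul _ _ (pow_ne_zero n hx) hx, ih]
    push_cast
    ring

theorem un_zpow {x : M} (hx : x ≠ 0) (n : ℤ) : U.un (x ^ n) = n * U.un x := by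
  obtain ⟨k, rfl | rfl⟩ := n.eq_nat_or_neg
  · rw [zpow_natCast, U.un_pow hx]
    push_cast
    ring
  · rw [zpow_neg, zpow_natCast, U.un_inv (pow_ne_zero k hx), U.un_pow hx]
    push_cast
    ring

theorem un_neg {x : M} (hx : x ≠ 0) : U.un (-x) = U.un (-1) + U.un x := by
  have h := U.mul (-1) x (neg_ne_zero.2 one_ne_zero) hx
  rw [neg_one_mul] at h
  exact h

theorem un_prod {ι : Type*} (t : Finset ι) (f : ι → M) (hf : ∀ i ∈ t, f i ≠ 0) :
    U.un (∏ i ∈ t, f i) = ∑ i ∈ t, U.un (f i) := by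
  classical
  induction t using Finset.induction_on with
  | empty => rw [Finset.prod_empty, Finset.sum_empty, U.un_one]
  | insert a t ha ih =>
    rw [Finset.prod_insert ha, Finset.sum_insert ha, U.mul _ _ (hf a (Finset.mem_insert_self a t))
      (Finset.prod_ne_zero_iff.2 fun i hi => hf i (Finset.mem_insert_of_mem hi)),
      ih fun i hi => hf i (Finset.mem_insert_of_mem hi)]

theorem un_neg_one_add : U.un (-1) + U.un (-1) = 0 := by
  have h := U.mul (-1) (-1) (neg_ne_zero.2 one_ne_zero) (neg_ne_zero.2 one_ne_zero)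
  rw [neg_mul_neg, one_mul, U.un_one] at h
  exact h.symm

/-- the logarithm of the tame symbol -/
noncomputable def hs (x y : M) : ZMod ℓ :=
  U.un x * (vl v y : ZMod ℓ) - (vl v x : ZMod ℓ) * U.un y +
    U.un (-1) * ((vl v x : ZMod ℓ) * (vl v y : ZMod ℓ))

theorem hs_mul_left (x y z : M) (hx : x ≠ 0) (hy : y ≠ 0) (hz : z ≠ 0) :
    U.hs (x * y) z = U.hs x z + U.hs y z := by
  unfold hs
  rw [U.mul x y hx hy, vl_mul hx hy]
  push_cast
  ring

theorem hs_mul_right (x y z : M) (hx : x ≠ 0) (hy : y ≠ 0) (hz : z ≠ 0) :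
    U.hs x (y * z) = U.hs x y + U.hs x z := by
  unfold hs
  rw [U.mul y z hy hz, vl_mul hy hz]
  push_cast
  ring

theorem hs_st (x : M) (hx : x ≠ 0) (h1 : x ≠ 1) : U.hs x (1 - x) = 0 := by
  have hs1 : 1 - x ≠ 0 := sub_ne_zero.2 (Ne.symm h1)
  rcases lt_trichotomy (v x) 1 with hv | hv | hv
  · have hn : v ((1 - x) - 1) < 1 := by
      rw [show (1 - x) - 1 = -x by ring, Valuation.map_neg]
      exact hv
    unfold hs
    rw [U.near _ hn, vl_near hn]
    simp
  · have hx0 : vl v x = 0 := by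
      unfold vl
      rw [hv, log_one, neg_zero]
    have hle : v (1 - x) ≤ 1 := by
      refine (v.map_sub 1 x).trans ?_
      rw [map_one, hv, max_self]
    rcases lt_or_eq_of_le hle with hlt | heq
    · have hn : v (x - 1) < 1 := by
        rw [show x - 1 = -(1 - x) by ring, Valuation.map_neg]
        exact hlt
      unfold hs
      rw [U.near _ hn, hx0]
      simp
    · have h10 : vl v (1 - x) = 0 := by
        unfold vl
        rw [heq, log_one, neg_zero]
      unfold hs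
      rw [hx0, h10]
      simp
  · have hi : v x⁻¹ < 1 := by
      rw [map_inv₀]
      exact inv_lt_one_of_one_lt₀ hv
    have hn : v ((1 - x⁻¹) - 1) < 1 := by
      rw [show (1 - x⁻¹) - 1 = -x⁻¹ by ring, Valuation.map_neg]
      exact hi
    have hfac : 1 - x = (-x) * (1 - x⁻¹) := by
      rw [mul_sub, mul_one, neg_mul, mul_inv_cancel₀ hx]
      ring
    have hne : 1 - x⁻¹ ≠ 0 := ne_of_near hn
    have hun : U.un (1 - x) = U.un (-1) + U.un x := by
      rw [hfac, U.mul _ _ (neg_ne_zero.2 hx) hne, U.near _ hn, add_zero, U.un_neg hx]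
    have hvl : vl v (1 - x) = vl v x := by
      rw [hfac, vl_mul (neg_ne_zero.2 hx) hne, vl_near hn, add_zero, vl_neg]
    unfold hs
    rw [hun, hvl]
    obtain ⟨k, hk⟩ : ∃ k : ℤ, vl v x * (vl v x - 1) = k + k := by
      obtain ⟨k, hk⟩ := Int.even_mul_pred_self (vl v x)
      exact ⟨k, hk⟩
    have hk' : ((vl v x : ℤ) : ZMod ℓ) * ((vl v x : ZMod ℓ) - 1) = (k : ZMod ℓ) + (k : ZMod ℓ) := by
      exact_mod_cast congrArg (Int.cast : ℤ → ZMod ℓ) hk
    have h2 := U.un_neg_one_add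
    have h3 : U.un x * (vl v x : ZMod ℓ) - (vl v x : ZMod ℓ) * (U.un (-1) + U.un x) +
        U.un (-1) * ((vl v x : ZMod ℓ) * (vl v x : ZMod ℓ))
        = U.un (-1) * ((vl v x : ZMod ℓ) * ((vl v x : ZMod ℓ) - 1)) := by ring
    rw [h3, hk', mul_add, ← add_mul, h2, zero_mul]

/-- the tame symbol -/
noncomputable def sy : Sy M (ZMod ℓ) where
  s := U.hs
  mul_left := U.hs_mul_left
  mul_right := U.hs_mul_right
  st := U.hs_st

theorem sy_apply (x y : M) : U.sy.s x y = U.hs x y := rfl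

theorem hs_pow {x y x' y' : M} (hx : x ≠ 0) (hy : y ≠ 0) (hx' : x' ≠ 0) (hy' : y' ≠ 0) :
    U.hs (x * y ^ ℓ) (x' * y' ^ ℓ) = U.hs x x' := by
  have hvl : ((vl v (x * y ^ ℓ) : ℤ) : ZMod ℓ) = (vl v x : ZMod ℓ) := by
    rw [vl_mul hx (pow_ne_zero ℓ hy), vl_pow]
    push_cast
    rw [ZMod.natCast_self, zero_mul, add_zero]
  have hvl' : ((vl v (x' * y' ^ ℓ) : ℤ) : ZMod ℓ) = (vl v x' : ZMod ℓ) := by
    rw [vl_mul hx' (pow_ne_zero ℓ hy'), vl_pow]
    push_cast
    rw [ZMod.natCast_self, zero_mul, add_zero]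
  have hun : U.un (x * y ^ ℓ) = U.un x := by
    rw [U.mul _ _ hx (pow_ne_zero ℓ hy), U.un_pow hy, ZMod.natCast_self, zero_mul, add_zero]
  have hun' : U.un (x' * y' ^ ℓ) = U.un x' := by
    rw [U.mul _ _ hx' (pow_ne_zero ℓ hy'), U.un_pow hy', ZMod.natCast_self, zero_mul, add_zero]
  unfold hs
  rw [hvl, hvl', hun, hun']

theorem un_pow_l {x y : M} (hx : x ≠ 0) (hy : y ≠ 0) : U.un (x * y ^ ℓ) = U.un x := by
  rw [U.mul _ _ hx (pow_ne_zero ℓ hy), U.un_pow hy, ZMod.natCast_self, zero_mul, add_zero]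

theorem un_congr {x y : M} (hx : x ≠ 0) (h : v (y / x - 1) < 1) : U.un y = U.un x := by
  have hne : y / x ≠ 0 := ne_of_near h
  have hy : y = x * (y / x) := by field_simp
  rw [hy, U.mul x (y / x) hx hne, U.near _ h, add_zero]

end LU

end Pool.Agent.H94.PM
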