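import Pool.Agent.H94.PM.LMK
import Pool.Agent.H94.PL.Tr

set_option autoImplicit false

/-!
# [H94 PM LUI] The unit logarithm of the completion at infinity

`M = RatFunc.CompletionAtInfty F`, `ι` the map from `RatFunc F`, `v = Valued.v`.  `v (ι X⁻¹) = exp (-1)` (`LT.val_inf_poly` with `p = X`).
(a) For `x ≠ 0` there is `c : F`, `c ≠ 0`, with `v (x / (ι X ^ (- vl x) * ι (C c)) - 1) < 1`: `s = x / ι X ^ (- vl x)` has `v s = 1` and `LT.exists_const`
gives `c` with `v (s - ι (C c)) < 1`; `LT.val_const`.  `un x = χ.lg c` for a chosen `c`, `un 0 = 0`.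
(b) Independence: if also `v (x / (ι X ^ n * ι (C c')) - 1) < 1` then `n = - vl x` and `v (ι (C (c / c')) - 1) < 1`, `c = c'` (otherwise
`c / c' - 1 ≠ 0` is a constant of valuation `1`).
(c) `mul`, `near` from (b).  `g ≠ 0`: `v (ι g / (ι X ^ deg g * ι (C lc g)) - 1) < 1` by `LT.val_sub_lead`, so `un (ι g) = χ.lg (lc g)`.
(d) `ker`: `v x = 1`, `χ.lg c = 0`: `c = y ^ ℓ` (`LChar.ker`), take `(ι (C y))⁻¹`.
-/

namespace Pool.Agent.H94.PM

open Polynomial WithZero
open Pool.Agent.H94.PL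
open Pool.Agent.H94 (LT.val_inf_poly LT.val_const LT.val_sub_lead LT.exists_const)

theorem exists_LUI {F : Type} [Field F] [DecidableEq (RatFunc F)] {ℓ : ℕ} [hl : Fact ℓ.Prime]
    (χ : LChar F ℓ) :
    ∃ U : LU (Valued.v : Valuation (RatFunc.CompletionAtInfty F) ℤᵐ⁰) ℓ,
      ∀ g : F[X], g ≠ 0 → U.un (algebraMap (RatFunc F) (RatFunc.CompletionAtInfty F)
        (algebraMap F[X] (RatFunc F) g)) = χ.lg g.leadingCoeff := by
  obtain ⟨ι, hι⟩ : ∃ ι : F[X] →+* RatFunc.CompletionAtInfty F,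
      ι = (algebraMap (RatFunc F) (RatFunc.CompletionAtInfty F)).comp
        (algebraMap F[X] (RatFunc F)) := ⟨_, rfl⟩
  have hιa : ∀ g : F[X], algebraMap (RatFunc F) (RatFunc.CompletionAtInfty F)
      (algebraMap F[X] (RatFunc F) g) = ι g := fun g => by rw [hι]; rfl
  have hvC : ∀ c : F, c ≠ 0 → (Valued.v (ι (C c)) : ℤᵐ⁰) = 1 := by
    intro c hc
    rw [← hιa]
    exact LT.val_const hc
  have hvX : (Valued.v (ι X) : ℤᵐ⁰) = exp (1 : ℤ) := by
    rw [← hιa, LT.val_inf_poly X_ne_zero, natDegree_X]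
    rfl
  have hX0 : ι X ≠ 0 := by
    intro h
    rw [h, map_zero] at hvX
    exact exp_ne_zero hvX.symm
  have hT : (Valued.v (ι X)⁻¹ : ℤᵐ⁰) = exp (-1 : ℤ) := by
    rw [map_inv₀, hvX, ← exp_neg]
  obtain ⟨U, hUT, hU⟩ := lu_mk (v := (Valued.v : Valuation (RatFunc.CompletionAtInfty F) ℤᵐ⁰))
    (ℓ := ℓ) (T := (ι X)⁻¹) (e := fun c : F => ι (C c)) (V := {c : F | c ≠ 0}) (L := χ.lg) hT
    (fun c hc => hvC c hc)
    (fun s hs => by
      obtain ⟨c, hc, h⟩ := LT.exists_const s hs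
      refine ⟨c, hc, ?_⟩
      rw [← hιa]
      exact h)
    (fun r hr r' hr' => ⟨r * r', mul_ne_zero hr hr', by rw [C_mul, map_mul], χ.mul hr hr'⟩)
    (fun r hr r' hr' h => by
      by_contra hne
      have h1 : r - r' ≠ 0 := by
        intro h2
        exact hne (by rw [sub_eq_zero.1 h2])
      have h2 := hvC _ h1
      rw [C_sub, map_sub] at h2
      exact absurd h2 h.ne)
    ⟨1, one_ne_zero, by rw [C_1, map_one], lg_one χ⟩
    (fun r hr h => by
      obtain ⟨y, hy, hry⟩ := χ.ker hr h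
      have hy0 : ι (C y) ≠ 0 := by
        intro h2
        have h3 := hvC y hy
        rw [h2, map_zero] at h3
        exact zero_ne_one h3
      refine ⟨(ι (C y))⁻¹, inv_ne_zero hy0, ?_⟩
      rw [hry, C_pow, map_pow, inv_pow, mul_inv_cancel₀ (pow_ne_zero _ hy0), sub_self, map_zero]
      exact zero_lt_one)
  refine ⟨U, fun g hg => ?_⟩
  have hlc : g.leadingCoeff ≠ 0 := leadingCoeff_ne_zero.2 hg
  have hC0 : ι (C g.leadingCoeff) ≠ 0 := by
    intro h2
    have h3 := hvC _ hlc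
    rw [h2, map_zero] at h3
    exact zero_ne_one h3
  rw [hιa]
  have hXn : ι X ^ g.natDegree ≠ 0 := pow_ne_zero _ hX0
  have h1 := LT.val_sub_lead g hg
  rw [hιa, hιa, map_sub, map_mul, map_pow] at h1
  have hvg : (Valued.v (ι g) : ℤᵐ⁰) = exp (g.natDegree : ℤ) := by
    rw [← hιa]
    exact LT.val_inf_poly hg
  have hvd : (Valued.v (ι (C g.leadingCoeff) * ι X ^ g.natDegree) : ℤᵐ⁰) =
      exp (g.natDegree : ℤ) := by
    rw [map_mul, map_pow, hvC _ hlc, hvX, one_mul, ← exp_nsmul]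
    congr 1
    simp
  have h2 : (Valued.v (ι g / (ι (C g.leadingCoeff) * ι X ^ g.natDegree) - 1) : ℤᵐ⁰) < 1 := by
    have h3 : ι g / (ι (C g.leadingCoeff) * ι X ^ g.natDegree) - 1 =
        (ι g - ι (C g.leadingCoeff) * ι X ^ g.natDegree) /
          (ι (C g.leadingCoeff) * ι X ^ g.natDegree) := by
      rw [sub_div, div_self (mul_ne_zero hC0 hXn)]
    rw [h3, map_div₀, hvd]
    rw [hvg] at h1
    rw [div_lt_one₀ exp_pos]
    exact h1
  rw [U.un_congr (mul_ne_zero hC0 hXn) h2, U.mul _ _ hC0 hXn, U.un_pow hX0]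
  have h4 : U.un (ι X) = 0 := by
    have h5 := U.un_inv hX0
    rw [hUT] at h5
    exact neg_eq_zero.1 h5.symm
  rw [h4, mul_zero, add_zero]
  exact hU g.leadingCoeff hlc

end Pool.Agent.H94.PM
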