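import Pool.Agent.H94.PM.LMK
import Pool.Agent.H94.PL.Tr
import Pool.Agent.H94.PL.NotPow

set_option autoImplicit false

/-!
# [H94 PM LUP] The unit logarithm of the completion at a monic irreducible polynomial

`P` monic irreducible in `F[X]`, `M` the completion of `RatFunc F` at `P`, `w = wP P hP`, `ι g = toP P hP (algebraMap g)`.
* `ker_lm`: `E = F[X]/(P)` is a finite field (`AdjoinRoot P`).  For `g` prime to `P`, `λ g = lm χ g P` depends only on `g` modulo `P` (`lm_congr`), is additive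
  (`lm_mul_left`) and takes the value `1` (`PL.exists_cs_prime`: `cs χ A P = ps 1` gives `A` prime to `P`, `lm χ A P = 1` by `cs_of_coprime`, `ps_inj`).  So `λ`
  is a surjective homomorphism from the cyclic group `E^*` to `ZMod ℓ`; with a generator `γ` of `E^*`, `λ γ ≠ 0`, and
  `λ (γ ^ j) = j λ γ = 0` gives `ℓ ∣ j`.
* `exists_LUP`.  (a) For `x : M`, `x ≠ 0` there is `g : F[X]`, `¬ P ∣ g`, with `w (x / (ι P ^ vl x * ι g) - 1) < 1`: `s = x / ι P ^ vl x` has `w s = 1`
  (`wP_self`), and there is a polynomial `g` with `w (s - ι g) < 1` (`TC.exists_approx` with exponent `1`, see the proof of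
  `PL.exists_of_Cl_l`), `w (ι g) = 1`, so `¬ P ∣ g`.  Define `un x = lm χ g P` for a chosen `g`, `un 0 = 0`.
  (b) Independence: if `w (x / (ι P ^ n * ι g) - 1) < 1`, `¬ P ∣ g`, then `n = vl x` and `un x = lm χ g P`: for the chosen `g'`, `w (ι g' / ι g - 1) < 1`
  (`near_mul`, `near_inv`), so `w (ι (g' - g)) < 1`, `P ∣ g' - g` (`wP_eq_one`), `lm_congr`.
  (c) `mul`: product of the approximations, `lm_mul_left`; `near`: `g = 1`, `n = 0`; the two formulas: `g = 1, n = 1` and `n = 0`.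
  (d) `ker`: `w x = 1`, `lm χ g P = 0`; `ker_lm` gives `h` with `P ∣ g - h ^ ℓ`, `¬ P ∣ h`; `y = (ι h)⁻¹`: `x * y ^ ℓ = (x / ι g) * (ι g / ι (h ^ ℓ))`, both near `1`.
-/

namespace Pool.Agent.H94.PM

open Polynomial WithZero IsDedekindDomain
open Pool.Agent.H94.PL
open Pool.Agent.H94 (LT.place LT.lt_one_iff_le)

variable {F : Type} [Field F] [Finite F] {ℓ : ℕ} [hl : Fact ℓ.Prime] (χ : LChar F ℓ)

theorem ker_lm {P g : F[X]} (hPm : P.Monic) (hP : Irreducible P) (hg : ¬ P ∣ g)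
    (h : lm χ g P = 0) : ∃ u : F[X], ¬ P ∣ u ∧ P ∣ g - u ^ ℓ := by
  have hfact : Fact (Irreducible P) := ⟨hP⟩
  have : FiniteDimensional F (AdjoinRoot P) := (AdjoinRoot.powerBasis hPm.ne_zero).finite
  have : Finite (AdjoinRoot P) := Module.finite_of_finite F
  obtain ⟨γ, hγ⟩ := IsCyclic.exists_generator (α := (AdjoinRoot P)ˣ)
  obtain ⟨c, hc⟩ := AdjoinRoot.mk_surjective (γ : AdjoinRoot P)
  have hcop : ∀ a : F[X], ¬ P ∣ a → IsCoprime a P := fun a ha =>
    ((hP.coprime_iff_not_dvd).2 ha).symm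
  have hcP : ¬ P ∣ c := by
    intro hd
    have h1 : AdjoinRoot.mk P c = 0 := AdjoinRoot.mk_eq_zero.2 hd
    rw [hc] at h1
    exact γ.ne_zero h1
  have hrep : ∀ a : F[X], ¬ P ∣ a → ∃ j : ℕ, P ∣ a - c ^ j := by
    intro a ha
    have h1 : AdjoinRoot.mk P a ≠ 0 := fun h2 => ha (AdjoinRoot.mk_eq_zero.1 h2)
    obtain ⟨j, hj⟩ := (mem_powers_iff_mem_zpowers).2 (hγ (Units.mk0 _ h1))
    refine ⟨j, ?_⟩
    rw [← AdjoinRoot.mk_eq_mk, map_pow, hc]
    have h2 := congrArg (Units.val) hj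
    simp only [Units.val_pow_eq_pow_val, Units.val_mk0] at h2
    exact h2.symm
  have hlm : ∀ (a : F[X]) (j : ℕ), P ∣ a - c ^ j → lm χ a P = j * lm χ c P := by
    intro a j hj
    rw [lm_congr χ hPm hj, lm_pow_left χ hPm (hcop c hcP)]
  have hc1 : lm χ c P ≠ 0 := by
    intro h0
    obtain ⟨A, hA⟩ := exists_cs_prime χ hPm hP
    have hAc : IsCoprime A P := by
      by_contra hn
      have h1 : cs χ A P = 0 := by
        rw [cs, res_eq_zero hPm hn, chc_zero]
      rw [h1] at hA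
      exact ps_ne_zero _ hA.symm
    have hAP : ¬ P ∣ A := fun hd => by
      obtain ⟨a, b, hab⟩ := hAc
      exact hP.not_isUnit (isUnit_of_dvd_one (by
        rw [← hab]
        exact dvd_add (Dvd.dvd.mul_left hd a) (Dvd.intro_left b rfl)))
    rw [cs_of_coprime χ hPm hAc] at hA
    have h2 := ps_inj hA
    obtain ⟨j, hj⟩ := hrep A hAP
    rw [hlm A j hj, h0, mul_zero] at h2
    exact zero_ne_one h2
  obtain ⟨j, hj⟩ := hrep g hg
  rw [hlm g j hj] at h
  rcases mul_eq_zero.1 h with h1 | h1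
  · rw [ZMod.natCast_eq_zero_iff] at h1
    obtain ⟨k, rfl⟩ := h1
    refine ⟨c ^ k, fun hd => hcP (hP.prime.dvd_of_dvd_pow hd), ?_⟩
    rw [← pow_mul, mul_comm k ℓ]
    exact hj
  · exact absurd h1 hc1

private theorem lup_approx {P : F[X]} (hP : Irreducible P)
    (s : (LT.place P hP).adicCompletion (RatFunc F)) (hs : wP P hP s = 1) :
    ∃ g : F[X], ¬ P ∣ g ∧ wP P hP (s - toP P hP (algebraMap F[X] (RatFunc F) g)) < 1 := by
  have hs1 : (Valued.v s : ℤᵐ⁰) = 1 := hs
  obtain ⟨y, hy⟩ := TC.exists_approx (K := RatFunc F) (LT.place P hP) P hP.ne_zero rfl 1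
    ⟨s, hs1.le⟩
  rw [TC.pow_dvd_iff (K := RatFunc F) (LT.place P hP) P hP.ne_zero rfl] at hy
  have hy1 : (Valued.v (s - algebraMap (RatFunc F) ((LT.place P hP).adicCompletion (RatFunc F))
      (algebraMap F[X] (RatFunc F) y)) : ℤᵐ⁰) < 1 := by
    rw [LT.lt_one_iff_le]
    have h3 : (((⟨s, hs1.le⟩ : (LT.place P hP).adicCompletionIntegers (RatFunc F)) -
      algebraMap F[X] ((LT.place P hP).adicCompletionIntegers (RatFunc F)) y :
        (LT.place P hP).adicCompletionIntegers (RatFunc F)) :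
      (LT.place P hP).adicCompletion (RatFunc F)) =
        s - algebraMap (RatFunc F) ((LT.place P hP).adicCompletion (RatFunc F))
          (algebraMap F[X] (RatFunc F) y) := by
      rw [HeightOneSpectrum.algebraMap_adicCompletion]
      push_cast
      rw [HeightOneSpectrum.algebraMap_adicCompletionIntegers_apply]
      rfl
    rw [h3] at hy
    exact_mod_cast hy
  refine ⟨y, ?_, hy1⟩
  intro hd
  have h4 : wP P hP (toP P hP (algebraMap F[X] (RatFunc F) y)) < 1 := by
    obtain ⟨b, rfl⟩ := hd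
    rw [map_mul, map_mul, map_mul, wP_self]
    refine lt_of_le_of_lt (mul_le_of_le_one_right' (wP_le_one P hP b)) ?_
    rw [← exp_zero, exp_lt_exp]
    norm_num
  have h5 : s = (s - toP P hP (algebraMap F[X] (RatFunc F) y)) +
      toP P hP (algebraMap F[X] (RatFunc F) y) := by ring
  have h6 : wP P hP s < 1 := by
    rw [h5]
    exact lt_of_le_of_lt ((wP P hP).map_add _ _) (max_lt hy1 h4)
  exact absurd hs h6.ne

theorem exists_LUP {P : F[X]} (hPm : P.Monic) (hP : Irreducible P) :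
    ∃ U : LU (wP P hP) ℓ, U.un (toP P hP (algebraMap F[X] (RatFunc F) P)) = 0 ∧
      ∀ g : F[X], ¬ P ∣ g → U.un (toP P hP (algebraMap F[X] (RatFunc F) g)) = lm χ g P := by
  have hcop : ∀ a : F[X], ¬ P ∣ a → IsCoprime a P := fun a ha =>
    ((hP.coprime_iff_not_dvd).2 ha).symm
  have hlt : ∀ a : F[X], wP P hP (toP P hP (algebraMap F[X] (RatFunc F) a)) < 1 → P ∣ a := by
    intro a ha
    by_contra hn
    exact absurd (wP_eq_one hP hn) ha.ne
  refine lu_mk (v := wP P hP) (ℓ := ℓ) (T := toP P hP (algebraMap F[X] (RatFunc F) P))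
    (e := fun g : F[X] => toP P hP (algebraMap F[X] (RatFunc F) g)) (V := {g : F[X] | ¬ P ∣ g})
    (L := fun g => lm χ g P) (wP_self P hP) (fun g hg => wP_eq_one hP hg)
    (fun s hs => lup_approx hP s hs) ?_ ?_ ?_ ?_
  · intro r hr r' hr'
    refine ⟨r * r', fun hd => ?_, by simp only [map_mul], ?_⟩
    · rcases hP.prime.dvd_or_dvd hd with h | h
      · exact hr h
      · exact hr' h
    · exact lm_mul_left χ hPm (hcop r hr) (hcop r' hr')
  · intro r hr r' hr' h
    refine lm_congr χ hPm (hlt _ ?_)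
    rw [map_sub, map_sub]
    exact h
  · refine ⟨1, fun hd => hP.not_isUnit (isUnit_of_dvd_one hd), by simp only [map_one], ?_⟩
    exact lm_one_left χ hPm
  · intro g hg h
    obtain ⟨u, hu, hgu⟩ := ker_lm χ hPm hP hg h
    have hwu := wP_eq_one hP hu
    have hu0 : toP P hP (algebraMap F[X] (RatFunc F) u) ≠ 0 := by
      intro h2
      rw [h2, map_zero] at hwu
      exact zero_ne_one hwu
    refine ⟨(toP P hP (algebraMap F[X] (RatFunc F) u))⁻¹, inv_ne_zero hu0, ?_⟩
    have h3 : toP P hP (algebraMap F[X] (RatFunc F) g) *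
        (toP P hP (algebraMap F[X] (RatFunc F) u))⁻¹ ^ ℓ - 1 =
        toP P hP (algebraMap F[X] (RatFunc F) (g - u ^ ℓ)) /
          toP P hP (algebraMap F[X] (RatFunc F) u) ^ ℓ := by
      rw [map_sub, map_sub, map_pow, map_pow, sub_div, div_self (pow_ne_zero _ hu0), inv_pow,
        div_eq_mul_inv]
    show wP P hP (toP P hP (algebraMap F[X] (RatFunc F) g) *
      (toP P hP (algebraMap F[X] (RatFunc F) u))⁻¹ ^ ℓ - 1) < 1
    rw [h3, map_div₀, map_pow, hwu, one_pow, div_one]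
    obtain ⟨b, hb⟩ := hgu
    rw [hb, map_mul, map_mul, map_mul, wP_self]
    refine lt_of_le_of_lt (mul_le_of_le_one_right' (wP_le_one P hP b)) ?_
    rw [← exp_zero, exp_lt_exp]
    norm_num

end Pool.Agent.H94.PM
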