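import Pool.Agent.H94.PM.TS2

set_option autoImplicit false

/-!
# [H94 PM MBT] Symbols at all irreducible polynomials with a reciprocity law (Milnor, Bass, Tate)

Induction on `d`.
* `d = 0`: `T = 0`; `FamD` is empty; `Rec`: `S` is empty (`Sm S 0`), so `a b c` has no monic irreducible factor and `a, b, c` are
  constants (`Polynomial.exists_monic_irreducible_factor` for a non unit), all degrees are `0`, `res = 0`.
* `d → d + 1`: `T' = newT s T d`: `FamD T' (d + 1)` by `newT_isT` (degree `d`) and `T' q = T q` in degree `< d`; `Rec` by `rec_succ`.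
* the formula for `p = X - C a`: if `d > 1` it is inherited (`newT p = T p`).  For `d = 1`, `T' = newT s T 1`, `p = X - C a` of
  degree `1`: `x %ₘ p = C (x.eval a)` (`modByMonic_X_sub_C_eq_C_eval`), `PFs (constant) = ∅`, so
  `T' p x y = - ri s (C u) (C v) (X - C a) = - (-1) • s.s u v = s.s u v` (`u = x.eval a`, `v = y.eval a`; in `res` only the last
  term remains: `w (C u) = w (C v) = 0`, `w (X - C a) = -1`).
-/

namespace Pool.Agent.H94.PM

open Polynomial

variable {k A : Type*} [Field k] [AddCommGroup A]

private theorem mbt_ri_const (s : Sy k A) {a b : k[X]} (ha : a.natDegree = 0)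
    (hb : b.natDegree = 0) (c : k[X]) :
    ri s a b c = (-(c.natDegree : ℤ)) • s.s a.leadingCoeff b.leadingCoeff := by
  unfold ri res
  simp only [ha, hb, Nat.cast_zero, neg_zero, zero_mul, zero_smul, zero_add, sub_zero]

private theorem mbt_PFs_unit {f : k[X]} (hf : IsUnit f) : PFs f = ∅ := by
  rw [Finset.eq_empty_iff_forall_notMem]
  intro q hq
  rw [mem_PFs hf.ne_zero] at hq
  exact hq.2.1.not_isUnit (isUnit_of_dvd_unit hq.2.2 hf)

theorem mbt (s : Sy k A) (d : ℕ) : ∃ T : k[X] → k[X] → k[X] → A, FamD T d ∧ Rec s T d ∧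
    (1 < d → ∀ (a : k) (x y : k[X]), x.eval a ≠ 0 → y.eval a ≠ 0 →
      T (X - C a) x y = s.s (x.eval a) (y.eval a)) := by
  induction d with
  | zero =>
    refine ⟨fun _ _ _ => 0, fun q _ _ h => absurd h (Nat.not_lt_zero _), ?_,
      fun h => absurd h (by norm_num)⟩
    intro S a b c ha hb hc hS hcov
    have hS0 : S = ∅ := by
      rw [Finset.eq_empty_iff_forall_notMem]
      intro q hq
      exact absurd (hS q hq).2.2 (Nat.not_lt_zero _)
    subst hS0
    have hu : IsUnit (a * b * c) := by
      by_contra hn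
      obtain ⟨g, hg1, hg2, hg3⟩ := exists_monic_irreducible_factor _ hn
      exact absurd (hcov g hg1 hg2 hg3) (Finset.notMem_empty _)
    have h1 := isUnit_of_mul_isUnit_left hu
    have ha1 := natDegree_eq_zero_of_isUnit (isUnit_of_mul_isUnit_left h1)
    have hb1 := natDegree_eq_zero_of_isUnit (isUnit_of_mul_isUnit_right h1)
    have hc1 := natDegree_eq_zero_of_isUnit (isUnit_of_mul_isUnit_right hu)
    unfold tot
    rw [Finset.sum_empty, zero_add, mbt_ri_const s ha1 hb1, hc1]
    simp
  | succ d ih =>
    obtain ⟨T, hT, hR, hF⟩ := ih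
    have hlt : ∀ q : k[X], q.natDegree < d → newT s T d q = T q := by
      intro q hq
      funext x y
      unfold newT
      rw [if_pos hq]
    refine ⟨newT s T d, ?_, rec_succ hT hR, ?_⟩
    · intro q hm hi hq
      rcases Nat.lt_succ_iff_lt_or_eq.1 hq with h | h
      · rw [hlt q h]
        exact hT q hm hi h
      · exact newT_isT hT hR hm hi h
    · intro hd a x y hx hy
      rcases Nat.lt_succ_iff_lt_or_eq.1 hd with h | h
      · rw [hlt _ (by rw [natDegree_X_sub_C]; exact h)]
        exact hF h a x y hx hy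
      · unfold newT
        rw [if_neg (by rw [natDegree_X_sub_C, h]; exact lt_irrefl _), modByMonic_X_sub_C_eq_C_eval,
          modByMonic_X_sub_C_eq_C_eval]
        have hu : IsUnit (C (x.eval a) * C (y.eval a) : k[X]) :=
          (isUnit_C.2 (IsUnit.mk0 _ hx)).mul (isUnit_C.2 (IsUnit.mk0 _ hy))
        unfold tot
        rw [mbt_PFs_unit hu, Finset.sum_empty, zero_add,
          mbt_ri_const s (natDegree_C _) (natDegree_C _), natDegree_X_sub_C, leadingCoeff_C,
          leadingCoeff_C]
        simp

end Pool.Agent.H94.PM
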