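import Pool.Agent.H94.PM.T1

set_option autoImplicit false

/-!
# [H94 PM P1A] The symbols of two values of an irreducible polynomial, `ℓ = 2`

`M` complete, `P` monic irreducible of degree `n`, `a ≠ b`, `P a, P b ≠ 0`, `h = a - b`; values in `ZMod 2` (signs do not matter), `e = U.un (-1)`.
`bb x y h = hs x y + hs x h + hs y (-h)`.  Facts: `hs` is bimultiplicative, symmetric (`ℓ = 2`), `hs x (-x) = 0`, `hs x x = hs x (-1)`, `hs x 1 = 0` (`Sy.neg_right`,
`Sy.self`, `Sy.skew` for `U.sy`), depends only on the classes of `x, y` modulo elements near `1` (`hs_congr`).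
* `hs_congr`: `un_congr` and `vl` of the quotient is `0` (`vl_near`).
* `p1a_lt`: `vl (P b) < vl (P a)`, `n` even.  By `t1_gt_vl` and `t1_eq` (point `a`), `n vl (b - a) > vl (P a)` would give `vl (P b) = vl (P a)` and equality would give `vl (P b) ≥ vl (P a)`,
  so `n vl (b - a) < vl (P a)` and `P b` is near `(b - a) ^ n` (`t1_lt`): `vl (P b) = n vl h` is even, `un (P b) = n un (b - a) = 0`, and
  `bb = hs (P a) (h ^ n) + hs (P a) h + hs (h ^ n) (-h) = hs (P a) h` (`n` even).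
* `p1a_gt`: `vl (P a) = vl (P b) ≠ n vl h`: if `n vl h < vl (P a)` then `t1_lt_vl` gives `vl (P b) = n vl h`, excluded.  So `n vl h > vl (P a)`, `P b` near `P a` (`t1_gt`);
  `bb = hs (P a) (P a) + hs (P a) h + hs (P a) (-h) = hs (P a) (-1) + hs (P a) (-1) + 2 hs (P a) h = 0`.
* `p1a_eq`: `vl (P a) = vl (P b) = n s`, `s = vl h`, `n` even: with `u = un (P a)`, `u' = un (P b)`:
  `hs (P a) (P b) = u n s + n s u' + e (n s)² = 0`, `hs (P a) h = u s + n s un h + e n s s = u s`, `hs (P b) (-h) = u' s`.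
* `p1a_odd`: `n` odd, `p = (-1)^n P = - P`.  Put `x = - P a`, `y = - P b`.
  (i) `n vl h < vl (P a)`: `P b` near `(b - a) ^ n = (-h) ^ n`, `y` near `h ^ n`: `bb = hs x (h ^ n) + hs x h + hs (h ^ n) (-h) = (n + 1) hs x h + n hs h (-h) = 0`.
  (ii) `n vl h > vl (P a)`: `y` near `x`: `bb = hs x x + hs x h + hs x (-h) = 0` as above.
  (iii) `n vl h = vl (P a)`: then `vl (P b) ≥ n vl h` (`t1_eq`).  If `vl (P b) > n vl h`: `t1_lt` with the point `b`: `P a` near `(a - b) ^ n = h ^ n`, `x` near `(-h) ^ n` (`n` odd):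
  `bb = hs ((-h) ^ n) y + hs ((-h) ^ n) h + hs y (-h) = (n + 1) hs y (-h) + n hs (-h) h = 0`.
  If `vl (P b) = n vl h`, `s = vl h`, `u = un x`, `u' = un y`: `hs x y = n s (u + u') + e n² s²`, `hs x h = u s + n s un h + e n s²`,
  `hs y (-h) = u' s + n s (un h + e) + e n s²`; sum `= (n + 1) s (u + u') + e (n² s² + n s) = 0` (`n` odd, `n s (n s + 1)` even).
-/

namespace Pool.Agent.H94.PM

open Polynomial WithZero
open Pool.Agent.H94.PL

theorem hs_congr {M : Type} [Field M] {v : Valuation M ℤᵐ⁰} {ℓ : ℕ} (U : LU v ℓ) {x x' y y' : M}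
    (hx : x ≠ 0) (hy : y ≠ 0) (h : v (x' / x - 1) < 1) (h' : v (y' / y - 1) < 1) :
    U.hs x' y' = U.hs x y := by
  have hx' : x' ≠ 0 := (div_ne_zero_iff.1 (ne_of_near h)).1
  have hy' : y' ≠ 0 := (div_ne_zero_iff.1 (ne_of_near h')).1
  have h1 := vl_near h
  have h2 := vl_near h'
  rw [vl_div hx' hx, sub_eq_zero] at h1
  rw [vl_div hy' hy, sub_eq_zero] at h2
  unfold LU.hs
  rw [U.un_congr hx h, U.un_congr hy h', h1, h2]

/-- the sum of three symbols -/
noncomputable def bb {M : Type} [Field M] {v : Valuation M ℤᵐ⁰} (U : LU v 2) (x y h : M) : ZMod 2 :=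
  U.hs x y + U.hs x h + U.hs y (-h)

private theorem p1a_cast {n : ℕ} {w s : ℤ} (h : w = n * s) :
    (w : ZMod 2) = (n : ZMod 2) * (s : ZMod 2) := by
  rw [h]
  push_cast
  rfl

private theorem bb_form {M : Type} [Field M] {v : Valuation M ℤᵐ⁰} (U : LU v 2) {x y h : M}
    (hh : h ≠ 0) :
    bb U x y h = U.un x * (vl v y : ZMod 2) - (vl v x : ZMod 2) * U.un y +
      U.un (-1) * ((vl v x : ZMod 2) * (vl v y : ZMod 2)) +
      (U.un x * (vl v h : ZMod 2) - (vl v x : ZMod 2) * U.un h +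
      U.un (-1) * ((vl v x : ZMod 2) * (vl v h : ZMod 2))) +
      (U.un y * (vl v h : ZMod 2) - (vl v y : ZMod 2) * (U.un (-1) + U.un h) +
      U.un (-1) * ((vl v y : ZMod 2) * (vl v h : ZMod 2))) := by
  unfold bb LU.hs
  rw [U.un_neg hh, vl_neg]

variable {M : Type} [Field M] [hv : Valued M ℤᵐ⁰] [CompleteSpace M]
  (U : LU (Valued.v : Valuation M ℤᵐ⁰) 2)

theorem p1a_lt {ϖ : M} (hϖ : (Valued.v : Valuation M ℤᵐ⁰) ϖ = exp (-1 : ℤ)) {P : M[X]}
    (hP : P.Monic) (hirr : Irreducible P) (hn : Even P.natDegree) {a b : M} (hab : a ≠ b)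
    (ha : P.eval a ≠ 0) (hb : P.eval b ≠ 0)
    (h : vl (Valued.v : Valuation M ℤᵐ⁰) (P.eval b) < vl Valued.v (P.eval a)) :
    vl (Valued.v : Valuation M ℤᵐ⁰) (P.eval b) = P.natDegree * vl Valued.v (a - b) ∧
      U.un (P.eval b) = 0 ∧ bb U (P.eval a) (P.eval b) (a - b) = U.hs (P.eval a) (a - b) := by
  have hs : vl (Valued.v : Valuation M ℤᵐ⁰) (b - a) = vl Valued.v (a - b) := by
    rw [← neg_sub a b, vl_neg]
  have hba : b ≠ a := Ne.symm hab
  have he : b - a ≠ 0 := sub_ne_zero.2 hba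
  have hlt : (P.natDegree : ℤ) * vl Valued.v (b - a) <
      vl (Valued.v : Valuation M ℤᵐ⁰) (P.eval a) := by
    rcases lt_trichotomy ((P.natDegree : ℤ) * vl (Valued.v : Valuation M ℤᵐ⁰) (b - a))
      (vl (Valued.v : Valuation M ℤᵐ⁰) (P.eval a)) with h1 | h1 | h1
    · exact h1
    · exact absurd h (not_lt.2 (t1_eq hϖ hP hirr ha hb hba h1.symm))
    · exact absurd (t1_gt_vl hϖ hP hirr ha hb fun _ => h1) h.ne
  have hvl := t1_lt_vl hϖ hP hirr ha hb hba hlt
  have hun : U.un (P.eval b) = 0 := by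
    rw [U.un_congr (pow_ne_zero _ he) (t1_lt hϖ hP hirr ha hba hlt), U.un_pow he,
      hn.natCast_zmod_two, zero_mul]
  rw [hs] at hvl
  refine ⟨hvl, hun, ?_⟩
  have hc := p1a_cast hvl
  rw [hn.natCast_zmod_two, zero_mul] at hc
  rw [bb_form U (sub_ne_zero.2 hab), hun, hc]
  unfold LU.hs
  ring

theorem p1a_gt {ϖ : M} (hϖ : (Valued.v : Valuation M ℤᵐ⁰) ϖ = exp (-1 : ℤ)) {P : M[X]}
    (hP : P.Monic) (hirr : Irreducible P) {a b : M} (hab : a ≠ b)
    (ha : P.eval a ≠ 0) (hb : P.eval b ≠ 0)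
    (h : vl (Valued.v : Valuation M ℤᵐ⁰) (P.eval b) = vl Valued.v (P.eval a))
    (h' : vl (Valued.v : Valuation M ℤᵐ⁰) (P.eval a) ≠ P.natDegree * vl Valued.v (a - b)) :
    vl (Valued.v : Valuation M ℤᵐ⁰) (P.eval a) < P.natDegree * vl Valued.v (a - b) ∧
      U.un (P.eval b) = U.un (P.eval a) ∧ bb U (P.eval a) (P.eval b) (a - b) = 0 := by
  have hs : vl (Valued.v : Valuation M ℤᵐ⁰) (b - a) = vl Valued.v (a - b) := by
    rw [← neg_sub a b, vl_neg]
  have hba : b ≠ a := Ne.symm hab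
  have hgt : vl (Valued.v : Valuation M ℤᵐ⁰) (P.eval a) <
      (P.natDegree : ℤ) * vl Valued.v (a - b) := by
    rcases lt_trichotomy ((P.natDegree : ℤ) * vl (Valued.v : Valuation M ℤᵐ⁰) (a - b))
      (vl (Valued.v : Valuation M ℤᵐ⁰) (P.eval a)) with h1 | h1 | h1
    · have h2 := t1_lt_vl hϖ hP hirr ha hb hba (by rw [hs]; exact h1)
      rw [hs, h] at h2
      exact absurd h2 h'
    · exact absurd h1.symm h'
    · exact h1
  have hun : U.un (P.eval b) = U.un (P.eval a) :=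
    U.un_congr ha (t1_gt hϖ hP hirr ha fun _ => by rw [hs]; exact hgt)
  refine ⟨hgt, hun, ?_⟩
  rw [bb_form U (sub_ne_zero.2 hab), hun, h]
  generalize U.un (P.eval a) = u
  generalize U.un (a - b) = t
  generalize U.un (-1) = e
  generalize ((vl (Valued.v : Valuation M ℤᵐ⁰) (P.eval a) : ℤ) : ZMod 2) = w
  generalize ((vl (Valued.v : Valuation M ℤᵐ⁰) (a - b) : ℤ) : ZMod 2) = s
  clear * -
  revert u t e w s
  decide

theorem p1a_eq {P : M[X]} (hn : Even P.natDegree) {a b : M} (hab : a ≠ b)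
    (ha : P.eval a ≠ 0) (hb : P.eval b ≠ 0)
    (h : vl (Valued.v : Valuation M ℤᵐ⁰) (P.eval b) = vl Valued.v (P.eval a))
    (h' : vl (Valued.v : Valuation M ℤᵐ⁰) (P.eval a) = P.natDegree * vl Valued.v (a - b)) :
    bb U (P.eval a) (P.eval b) (a - b) =
      (vl (Valued.v : Valuation M ℤᵐ⁰) (a - b) : ZMod 2) *
        (U.un (P.eval a) + U.un (P.eval b)) := by
  have hc := p1a_cast h'
  rw [hn.natCast_zmod_two, zero_mul] at hc
  rw [bb_form U (sub_ne_zero.2 hab), h, hc]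
  ring

theorem p1a_odd {ϖ : M} (hϖ : (Valued.v : Valuation M ℤᵐ⁰) ϖ = exp (-1 : ℤ)) {P : M[X]}
    (hP : P.Monic) (hirr : Irreducible P) (hn : Odd P.natDegree) {a b : M} (hab : a ≠ b)
    (ha : P.eval a ≠ 0) (hb : P.eval b ≠ 0) :
    bb U (-P.eval a) (-P.eval b) (a - b) = 0 := by
  have hs : vl (Valued.v : Valuation M ℤᵐ⁰) (b - a) = vl Valued.v (a - b) := by
    rw [← neg_sub a b, vl_neg]
  have hba : b ≠ a := Ne.symm hab
  have he : b - a ≠ 0 := sub_ne_zero.2 hba
  have he' : a - b ≠ 0 := sub_ne_zero.2 hab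
  have hune : U.un (b - a) = U.un (-1) + U.un (a - b) := by
    rw [← neg_sub a b, U.un_neg he']
  have hn1 : (P.natDegree : ZMod 2) = 1 := by
    have := ((Nat.odd_iff.1 hn) : P.natDegree % 2 = 1)
    rw [← ZMod.natCast_mod, this, Nat.cast_one]
  rw [bb_form U he', U.un_neg ha, U.un_neg hb, vl_neg, vl_neg]
  rcases lt_trichotomy ((P.natDegree : ℤ) * vl (Valued.v : Valuation M ℤᵐ⁰) (b - a))
      (vl (Valued.v : Valuation M ℤᵐ⁰) (P.eval a)) with h1 | h1 | h1
  · have hvl := t1_lt_vl hϖ hP hirr ha hb hba h1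
    have hun : U.un (P.eval b) = U.un (-1) + U.un (a - b) := by
      rw [U.un_congr (pow_ne_zero _ he) (t1_lt hϖ hP hirr ha hba h1), U.un_pow he,
        hn1, one_mul, hune]
    rw [hs] at hvl
    have hc := p1a_cast hvl
    rw [hn1, one_mul] at hc
    rw [hun, hc]
    generalize U.un (P.eval a) = u
    generalize U.un (a - b) = t
    generalize U.un (-1) = e
    generalize ((vl (Valued.v : Valuation M ℤᵐ⁰) (P.eval a) : ℤ) : ZMod 2) = w
    generalize ((vl (Valued.v : Valuation M ℤᵐ⁰) (a - b) : ℤ) : ZMod 2) = s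
    clear * -
    revert u t e w s
    decide
  · have hle := t1_eq hϖ hP hirr ha hb hba h1.symm
    rw [hs] at h1
    rcases lt_or_eq_of_le hle with h2 | h2
    · rw [← h1] at h2
      have hvl := t1_lt_vl hϖ hP hirr hb ha hab h2
      have hun : U.un (P.eval a) = U.un (a - b) := by
        rw [U.un_congr (pow_ne_zero _ he') (t1_lt hϖ hP hirr hb hab h2), U.un_pow he',
          hn1, one_mul]
      have hc := p1a_cast hvl
      rw [hn1, one_mul] at hc
      rw [hun, hc]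
      generalize U.un (P.eval b) = u
      generalize U.un (a - b) = t
      generalize U.un (-1) = e
      generalize ((vl (Valued.v : Valuation M ℤᵐ⁰) (P.eval b) : ℤ) : ZMod 2) = w
      generalize ((vl (Valued.v : Valuation M ℤᵐ⁰) (a - b) : ℤ) : ZMod 2) = s
      clear * -
      revert u t e w s
      decide
    · rw [← h2, ← h1]
      have hc : (((P.natDegree : ℤ) * vl (Valued.v : Valuation M ℤᵐ⁰) (a - b) : ℤ) : ZMod 2) =
          (vl (Valued.v : Valuation M ℤᵐ⁰) (a - b) : ZMod 2) := by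
        push_cast
        rw [hn1, one_mul]
      rw [hc]
      generalize U.un (P.eval b) = u
      generalize U.un (P.eval a) = w
      generalize U.un (a - b) = t
      generalize U.un (-1) = e
      generalize ((vl (Valued.v : Valuation M ℤᵐ⁰) (a - b) : ℤ) : ZMod 2) = s
      clear * -
      revert u t e w s
      decide
  · have hvl := t1_gt_vl hϖ hP hirr ha hb fun _ => h1
    have hun : U.un (P.eval b) = U.un (P.eval a) :=
      U.un_congr ha (t1_gt hϖ hP hirr ha fun _ => h1)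
    rw [hun, hvl]
    generalize U.un (P.eval a) = u
    generalize U.un (a - b) = t
    generalize U.un (-1) = e
    generalize ((vl (Valued.v : Valuation M ℤᵐ⁰) (P.eval a) : ℤ) : ZMod 2) = w
    generalize ((vl (Valued.v : Valuation M ℤᵐ⁰) (a - b) : ℤ) : ZMod 2) = s
    clear * -
    revert u t e w s
    decide

theorem bb_symm {x y h : M} (hx : x ≠ 0) (hy : y ≠ 0) (hh : h ≠ 0) :
    bb U x y h = bb U y x (-h) := by
  rw [bb_form U hh, bb_form U (neg_ne_zero.2 hh), U.un_neg hh, vl_neg]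
  generalize U.un x = u
  generalize U.un y = w
  generalize U.un h = t
  generalize U.un (-1) = e
  generalize ((vl (Valued.v : Valuation M ℤᵐ⁰) x : ℤ) : ZMod 2) = a
  generalize ((vl (Valued.v : Valuation M ℤᵐ⁰) y : ℤ) : ZMod 2) = b
  generalize ((vl (Valued.v : Valuation M ℤᵐ⁰) h : ℤ) : ZMod 2) = s
  clear * -
  revert u w t e a b s
  decide

end Pool.Agent.H94.PM
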