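import Pool.Agent.H94.PM.P1A
import Pool.Agent.H94.PM.TVN
import Pool.Agent.H94.PM.QF

set_option autoImplicit false

/-!
# [H94 PM P1B] Sum of the symbols, even degree

`ℓ = 2`, `P` monic irreducible, Mumford, of even degree `n`; `p k = P (A k)`, `h i k = A i - A k`.
* `p1b_norm`: `norm_dvn`: `∏ dvn α D P (A k) = y ^ 2`, and `dvn = ((-D) ^ α) ^ n * p k` with `n` even: `∑ un (p k) = 0`, `∑ vl (p k) = 0` in `ZMod 2`.
* `p1b`: `m ≥ 1` (`m = 0` trivial).  Let `j₀` maximize `vl (p j₀) = s`, `T = {i | vl (p i) = s}`.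
  (1) `k ∉ T`: `p1a_lt` (`a = A j₀`, `b = A k`): `un (p k) = 0`, `vl (p k) = n vl (h j₀ k)` is even.  With `p1b_norm`: `∑ i ∈ T, un (p i) = 0` and `∑ i ∈ T, vl (p i) = 0`.
  The summand `bb (p i) (p k) (h i k)` is symmetric (`bb_symm`).
  (2) `i, k ∉ T`: it is `0`: if `vl (p k) < vl (p i)` (or conversely): `hs (p i) (h i k) = 0` as `un (p i) = 0`, `vl (p i)` even; if `vl` are equal: `p1a_gt` or `p1a_eq`.
  (3) `i ∈ T`, `k ∉ T`: `p1a_lt`: it is `hs (p i) (h i k) = hs (p i) (h j₀ k)` since `h i k / h j₀ k - 1 = (A i - A j₀) / (A j₀ - A k)` and, for `i ≠ j₀`,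
  `n vl (A i - A j₀) ≥ s > vl (p k) = n vl (A j₀ - A k)` (if `n vl (A i - A j₀) < s = vl (p j₀)` then `t1_lt_vl` gives `vl (p i) = n vl (A i - A j₀) < s`).  Sum over `i ∈ T`:
  `(∑ un (p i)) vl h + (∑ vl (p i)) un h + e (∑ vl (p i)) vl h = 0` (`h = h j₀ k`).
  (4) `i, k ∈ T`: if `vl (p i) = n vl (h i k)`: it is `σ (un (p i) + un (p k))` with `n σ = s`, `σ = vl (h i k)` (the same `σ` for all such pairs as `n ≠ 0`); otherwise it is
  `0` and `un (p i) = un (p k)` (`p1a_gt`).  If there is a pair of the first kind all the summands are `σ (un (p i) + un (p k))`, the sum over the pairs is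
  `σ (card T - 1) ∑ i ∈ T, un (p i) = 0`; otherwise all are `0`.
-/

namespace Pool.Agent.H94.PM

open Polynomial WithZero
open Pool.Agent.H94.PL

variable {M : Type} [Field M] [hv : Valued M ℤᵐ⁰] [CompleteSpace M] {m : ℕ}
  (U : LU (Valued.v : Valuation M ℤᵐ⁰) 2)

private theorem p1b_pairs {m : ℕ} (g : Fin m → Fin m → ZMod 2) :
    ∑ p ∈ prs m, (g p.1 p.2 + g p.2 p.1) = ∑ i, ∑ k ∈ Finset.univ.erase i, g i k := by
  classical
  rw [Finset.sum_add_distrib]
  have h1 : ∑ i, ∑ k ∈ Finset.univ.erase i, g i k =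
      ∑ p ∈ (Finset.univ : Finset (Fin m × Fin m)).filter (fun p => p.1 ≠ p.2), g p.1 p.2 := by
    rw [Finset.sum_filter, ← Finset.univ_product_univ, Finset.sum_product]
    refine Finset.sum_congr rfl fun i _ => ?_
    rw [← Finset.sum_filter]
    refine Finset.sum_congr ?_ fun _ _ => rfl
    ext k
    rw [Finset.mem_erase, Finset.mem_filter]
    constructor
    · rintro ⟨h, h'⟩
      exact ⟨h', fun h'' => h h''.symm⟩
    · rintro ⟨h, h'⟩
      exact ⟨fun h'' => h' h''.symm, h⟩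
  have h2 : ∑ p ∈ prs m, g p.2 p.1 =
      ∑ p ∈ (Finset.univ : Finset (Fin m × Fin m)).filter (fun p => p.2 < p.1), g p.1 p.2 := by
    refine Finset.sum_bij' (fun p _ => p.swap) (fun p _ => p.swap) ?_ ?_ ?_ ?_ ?_
    · intro p hp
      rw [Finset.mem_filter]
      exact ⟨Finset.mem_univ _, mem_prs.1 hp⟩
    · intro p hp
      exact mem_prs.2 (Finset.mem_filter.1 hp).2
    · intro p _
      exact Prod.swap_swap p
    · intro p _
      exact Prod.swap_swap p
    · intro p _
      rfl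
  rw [h1, h2, ← Finset.sum_filter_add_sum_filter_not
    ((Finset.univ : Finset (Fin m × Fin m)).filter (fun p => p.1 ≠ p.2)) (fun p => p.1 < p.2)]
  congr 1
  · refine Finset.sum_congr ?_ fun _ _ => rfl
    ext p
    rw [mem_prs, Finset.mem_filter, Finset.mem_filter]
    constructor
    · intro h
      exact ⟨⟨Finset.mem_univ _, h.ne⟩, h⟩
    · intro h
      exact h.2
  · refine Finset.sum_congr ?_ fun _ _ => rfl
    ext p
    rw [Finset.mem_filter, Finset.mem_filter, Finset.mem_filter]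
    constructor
    · rintro ⟨h, h'⟩
      exact ⟨⟨h, h'.ne'⟩, h'.not_gt⟩
    · rintro ⟨⟨h, h'⟩, h''⟩
      exact ⟨h, lt_of_le_of_ne (not_lt.1 h'') (Ne.symm h')⟩

omit [CompleteSpace M] in
private theorem p1b_two : ((2 : ℕ) : ZMod 2) = 0 := rfl

omit [CompleteSpace M] in
private theorem p1b_even {n : ℕ} (hn : Even n) (z : ℤ) : (((n : ℤ) * z : ℤ) : ZMod 2) = 0 := by
  have h : ((n : ℕ) : ZMod 2) = 0 := (ZMod.natCast_eq_zero_iff_even).2 hn
  push_cast
  rw [h, zero_mul]

theorem p1b_norm {α : ℕ} (hα : 2 ∣ α * m + 1) {D : M} (hD : D ≠ 0) {A : Fin m → M} {P Q : M[X]}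
    (hP : P.Monic) (hn : Even P.natDegree) (hev : ∀ k, P.eval (A k) ≠ 0)
    (hd : P ∣ C D * Q ^ 2 - fA A) :
    ∑ k, U.un (P.eval (A k)) = 0 ∧
      ∑ k, (vl (Valued.v : Valuation M ℤᵐ⁰) (P.eval (A k)) : ZMod 2) = 0 := by
  obtain ⟨y, hy⟩ := norm_dvn Nat.prime_two hα D A hP hd
  have hE : (-D) ^ α ≠ 0 := pow_ne_zero _ (neg_ne_zero.2 hD)
  have hd0 : ∀ k, dvn α D P (A k) ≠ 0 := fun k => mul_ne_zero (pow_ne_zero _ hE) (hev k)
  have hy0 : y ≠ 0 := by
    intro h0
    rw [h0, zero_pow two_ne_zero] at hy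
    exact Finset.prod_ne_zero_iff.2 (fun k _ => hd0 k) hy
  have hn2 : ((P.natDegree : ℕ) : ZMod 2) = 0 := (ZMod.natCast_eq_zero_iff_even).2 hn
  constructor
  · have h1 := U.un_prod Finset.univ (fun k => dvn α D P (A k)) (fun k _ => hd0 k)
    rw [hy, U.un_pow hy0, p1b_two, zero_mul] at h1
    have h2 : ∀ k, U.un (dvn α D P (A k)) = U.un (P.eval (A k)) := by
      intro k
      rw [dvn, U.mul _ _ (pow_ne_zero _ hE) (hev k), U.un_pow hE, hn2, zero_mul, zero_add]
    rw [Finset.sum_congr rfl fun k _ => h2 k] at h1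
    exact h1.symm
  · have h1 := vl_prod (v := (Valued.v : Valuation M ℤᵐ⁰)) Finset.univ
      (fun k => dvn α D P (A k)) (fun k _ => hd0 k)
    rw [hy, vl_pow] at h1
    have h2 : ∀ k, ((vl (Valued.v : Valuation M ℤᵐ⁰) (dvn α D P (A k)) : ℤ) : ZMod 2) =
        (vl (Valued.v : Valuation M ℤᵐ⁰) (P.eval (A k)) : ZMod 2) := by
      intro k
      rw [dvn, vl_mul (pow_ne_zero _ hE) (hev k), vl_pow, Int.cast_add, p1b_even hn, zero_add]
    have h3 := congrArg (Int.cast : ℤ → ZMod 2) h1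
    rw [Int.cast_sum, Finset.sum_congr rfl fun k _ => h2 k, p1b_even even_two] at h3
    exact h3.symm

theorem p1b {ϖ : M} (hϖ : (Valued.v : Valuation M ℤᵐ⁰) ϖ = exp (-1 : ℤ)) {α : ℕ}
    (hα : 2 ∣ α * m + 1) {D : M} (hD : D ≠ 0) {A : Fin m → M} (hA : ∀ i k, i ≠ k → A i ≠ A k)
    {P Q : M[X]} (hP : P.Monic) (hirr : Irreducible P) (hn : Even P.natDegree)
    (hev : ∀ k, P.eval (A k) ≠ 0) (hd : P ∣ C D * Q ^ 2 - fA A) :
    ∑ p ∈ prs m, bb U (P.eval (A p.1)) (P.eval (A p.2)) (A p.1 - A p.2) = 0 := by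
  classical
  rcases Nat.eq_zero_or_pos m with hm0 | hm0
  · subst hm0
    exact Finset.sum_eq_zero fun p _ => p.1.elim0
  have hne : Nonempty (Fin m) := ⟨⟨0, hm0⟩⟩
  obtain ⟨hsu, hsw⟩ := p1b_norm U hα hD hP hn hev hd
  obtain ⟨w, hw⟩ : ∃ w : Fin m → ℤ,
      w = fun k => vl (Valued.v : Valuation M ℤᵐ⁰) (P.eval (A k)) := ⟨_, rfl⟩
  obtain ⟨u, hu⟩ : ∃ u : Fin m → ZMod 2, u = fun k => U.un (P.eval (A k)) := ⟨_, rfl⟩
  obtain ⟨f, hf⟩ : ∃ f : Fin m → Fin m → ZMod 2,
      f = fun i k => bb U (P.eval (A i)) (P.eval (A k)) (A i - A k) := ⟨_, rfl⟩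
  have hwk : ∀ k, vl (Valued.v : Valuation M ℤᵐ⁰) (P.eval (A k)) = w k := fun k => by rw [hw]
  have huk : ∀ k, U.un (P.eval (A k)) = u k := fun k => by rw [hu]
  have hfk : ∀ i k, bb U (P.eval (A i)) (P.eval (A k)) (A i - A k) = f i k := fun i k => by
    rw [hf]
  simp only [huk] at hsu
  simp only [hwk] at hsw
  have hnpos : 0 < P.natDegree := hirr.natDegree_pos
  have hnz : (0 : ℤ) < P.natDegree := by exact_mod_cast hnpos
  have hsub : ∀ i k, i ≠ k → A i - A k ≠ 0 := fun i k hik => sub_ne_zero.2 (hA i k hik)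
  have hsymm : ∀ i k, i ≠ k → f i k = f k i := by
    intro i k hik
    rw [← hfk, ← hfk, bb_symm U (hev i) (hev k) (hsub i k hik), neg_sub]
  have hlt : ∀ i k, w k < w i → w k = P.natDegree * vl (Valued.v : Valuation M ℤᵐ⁰) (A i - A k) ∧
      u k = 0 ∧ f i k = U.hs (P.eval (A i)) (A i - A k) := by
    intro i k h
    have hik : A i ≠ A k := by
      intro h0
      rw [hw] at h
      simp only [h0] at h
      exact lt_irrefl _ h
    have h1 := p1a_lt U hϖ hP hirr hn hik (hev i) (hev k) (by rw [hwk, hwk]; exact h)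
    rw [hwk, huk, hfk] at h1
    exact h1
  obtain ⟨j₀, -, hj₀⟩ := Finset.exists_max_image (Finset.univ : Finset (Fin m)) w
    ⟨⟨0, hm0⟩, Finset.mem_univ _⟩
  obtain ⟨T, hT⟩ : ∃ T : Finset (Fin m), T = Finset.univ.filter fun i => w i = w j₀ := ⟨_, rfl⟩
  have hmT : ∀ i, i ∈ T ↔ w i = w j₀ := fun i => by
    rw [hT, Finset.mem_filter]
    exact ⟨fun h => h.2, fun h => ⟨Finset.mem_univ _, h⟩⟩
  have hltT : ∀ k, k ∉ T → w k < w j₀ := fun k hk =>
    lt_of_le_of_ne (hj₀ k (Finset.mem_univ _)) (fun h => hk ((hmT k).2 h))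
  have hu0 : ∀ k, k ∉ T → u k = 0 := fun k hk => (hlt j₀ k (hltT k hk)).2.1
  have hw0 : ∀ k, k ∉ T → ((w k : ℤ) : ZMod 2) = 0 := fun k hk => by
    rw [(hlt j₀ k (hltT k hk)).1, p1b_even hn]
  have hsuT : ∑ i ∈ T, u i = 0 := by
    rw [← hsu]
    exact Finset.sum_subset (Finset.subset_univ _) fun k _ hk => hu0 k hk
  have hswT : ∑ i ∈ T, ((w i : ℤ) : ZMod 2) = 0 := by
    rw [← hsw]
    exact Finset.sum_subset (Finset.subset_univ _) fun k _ hk => hw0 k hk
  -- outside `T`
  have hout : ∀ i k, i ∉ T → k ∉ T → i ≠ k → f i k = 0 := by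
    have hhalf : ∀ i k, i ∉ T → k ∉ T → w k < w i → f i k = 0 := by
      intro i k hi hk h
      rw [(hlt i k h).2.2, LU.hs, huk, hwk, hu0 i hi, hw0 i hi]
      ring
    intro i k hi hk hik
    rcases lt_trichotomy (w k) (w i) with h | h | h
    · exact hhalf i k hi hk h
    · by_cases h' : w i = P.natDegree * vl (Valued.v : Valuation M ℤᵐ⁰) (A i - A k)
      · have h1 := p1a_eq U hn (hA i k hik) (hev i) (hev k) (by rw [hwk, hwk]; exact h)
          (by rw [hwk]; exact h')
        rw [hfk, huk, huk, hu0 i hi, hu0 k hk, add_zero, mul_zero] at h1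
        exact h1
      · have h1 := p1a_gt U hϖ hP hirr (hA i k hik) (hev i) (hev k) (by rw [hwk, hwk]; exact h)
          (by rw [hwk]; exact h')
        rw [hfk] at h1
        exact h1.2.2
    · rw [hsymm i k hik]
      exact hhalf k i hk hi h
  -- mixed pairs
  have hmix : ∀ k, k ∉ T → ∑ i ∈ T, f i k = 0 := by
    intro k hk
    have hkj : j₀ ≠ k := by
      rintro rfl
      exact hk ((hmT _).2 rfl)
    have h1 : ∀ i ∈ T, f i k = u i * (vl (Valued.v : Valuation M ℤᵐ⁰) (A j₀ - A k) : ZMod 2) -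
        ((w i : ℤ) : ZMod 2) * U.un (A j₀ - A k) +
          U.un (-1) * (((w i : ℤ) : ZMod 2) *
            (vl (Valued.v : Valuation M ℤᵐ⁰) (A j₀ - A k) : ZMod 2)) := by
      intro i hi
      have hwi := (hmT i).1 hi
      have hki : w k < w i := by
        rw [hwi]
        exact hltT k hk
      rw [(hlt i k hki).2.2]
      have h2 : U.hs (P.eval (A i)) (A i - A k) = U.hs (P.eval (A i)) (A j₀ - A k) := by
        by_cases hij : i = j₀
        · rw [hij]
        · refine hs_congr U (hev i) (hsub j₀ k hkj) ?_ ?_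
          · rw [div_self (hev i), sub_self, map_zero]
            exact zero_lt_one
          · have e1 : (A i - A k) / (A j₀ - A k) - 1 = (A i - A j₀) / (A j₀ - A k) := by
              have h3 := hsub j₀ k hkj
              field_simp
              ring
            rw [e1]
            have h3 : w j₀ ≤ P.natDegree * vl (Valued.v : Valuation M ℤᵐ⁰) (A i - A j₀) := by
              by_contra hcon
              push Not at hcon
              have h4 := t1_lt_vl hϖ hP hirr (hev j₀) (hev i) (hA i j₀ hij)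
                (by rw [hwk]; exact hcon)
              rw [hwk, hwi] at h4
              exact absurd h4.symm hcon.ne
            have h4 := (hlt j₀ k (hltT k hk)).1
            have h5 : P.natDegree * vl (Valued.v : Valuation M ℤᵐ⁰) (A j₀ - A k) <
                P.natDegree * vl (Valued.v : Valuation M ℤᵐ⁰) (A i - A j₀) := by
              rw [← h4]
              exact (hltT k hk).trans_le h3
            have h6 := lt_of_mul_lt_mul_left h5 hnz.le
            have hy0 : (A i - A j₀) / (A j₀ - A k) ≠ 0 :=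
              div_ne_zero (hsub i j₀ hij) (hsub j₀ k hkj)
            rw [val_vl hy0, vl_div (hsub i j₀ hij) (hsub j₀ k hkj), ← exp_zero, exp_lt_exp]
            linarith
      rw [h2, LU.hs, huk, hwk]
    rw [Finset.sum_congr rfl h1, Finset.sum_add_distrib, Finset.sum_sub_distrib,
      ← Finset.sum_mul, ← Finset.sum_mul, ← Finset.mul_sum, ← Finset.sum_mul, hsuT, hswT]
    ring
  -- pairs in `T`
  have hin : ∃ σ : ZMod 2, ∀ i ∈ T, ∀ k ∈ T, i ≠ k → f i k = σ * (u i + u k) := by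
    have hgt : ∀ i ∈ T, ∀ k ∈ T, i ≠ k →
        w j₀ ≠ P.natDegree * vl (Valued.v : Valuation M ℤᵐ⁰) (A i - A k) →
        u k = u i ∧ f i k = 0 := by
      intro i hi k hk hik h'
      have h1 := p1a_gt U hϖ hP hirr (hA i k hik) (hev i) (hev k)
        (by rw [hwk, hwk, (hmT i).1 hi, (hmT k).1 hk]) (by rw [hwk, (hmT i).1 hi]; exact h')
      rw [hfk, huk, huk] at h1
      exact h1.2
    by_cases hex : ∃ i ∈ T, ∃ k ∈ T, i ≠ k ∧
        w j₀ = P.natDegree * vl (Valued.v : Valuation M ℤᵐ⁰) (A i - A k)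
    · obtain ⟨i₁, hi₁, k₁, hk₁, hik₁, h₁⟩ := hex
      refine ⟨(vl (Valued.v : Valuation M ℤᵐ⁰) (A i₁ - A k₁) : ZMod 2), ?_⟩
      intro i hi k hk hik
      by_cases h' : w j₀ = P.natDegree * vl (Valued.v : Valuation M ℤᵐ⁰) (A i - A k)
      · have h2 : vl (Valued.v : Valuation M ℤᵐ⁰) (A i - A k) =
            vl (Valued.v : Valuation M ℤᵐ⁰) (A i₁ - A k₁) := by
          have h3 := h'.symm.trans h₁
          exact mul_left_cancel₀ hnz.ne' h3
        have h1 := p1a_eq U hn (hA i k hik) (hev i) (hev k)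
          (by rw [hwk, hwk, (hmT i).1 hi, (hmT k).1 hk]) (by rw [hwk, (hmT i).1 hi]; exact h')
        rw [hfk, huk, huk, h2] at h1
        exact h1
      · obtain ⟨h3, h4⟩ := hgt i hi k hk hik h'
        rw [h4, h3, CharTwo.add_self_eq_zero, mul_zero]
    · refine ⟨0, fun i hi k hk hik => ?_⟩
      rw [zero_mul]
      exact (hgt i hi k hk hik fun h => hex ⟨i, hi, k, hk, hik, h⟩).2
  obtain ⟨σ, hσ⟩ := hin
  obtain ⟨g, hg⟩ : ∃ g : Fin m → Fin m → ZMod 2, g = fun i k =>
      if i ∈ T then (if k ∈ T then σ * u i else f i k) else 0 := ⟨_, rfl⟩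
  have hfg : ∀ p ∈ prs m, bb U (P.eval (A p.1)) (P.eval (A p.2)) (A p.1 - A p.2) =
      g p.1 p.2 + g p.2 p.1 := by
    intro p hp
    have hne : p.1 ≠ p.2 := (mem_prs.1 hp).ne
    rw [hfk, hg]
    by_cases h1 : p.1 ∈ T <;> by_cases h2 : p.2 ∈ T
    · simp only [h1, h2, if_true]
      rw [hσ _ h1 _ h2 hne, mul_add]
    · simp only [h1, h2, if_true, if_false, add_zero]
    · simp only [h1, h2, if_true, if_false, zero_add]
      exact hsymm _ _ hne
    · simp only [h1, h2, if_false, add_zero]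
      exact hout _ _ h1 h2 hne
  rw [Finset.sum_congr rfl hfg, p1b_pairs]
  have h1 : ∀ i, ∑ k ∈ Finset.univ.erase i, g i k =
      if i ∈ T then (((T.card : ℤ) - 1 : ℤ) : ZMod 2) * (σ * u i) +
        ∑ k ∈ Finset.univ.filter (fun k => k ∉ T), f i k else 0 := by
    intro i
    by_cases hi : i ∈ T
    · rw [if_pos hi, ← Finset.sum_filter_add_sum_filter_not (Finset.univ.erase i) (fun k => k ∈ T)]
      congr 1
      · have e1 : (Finset.univ.erase i).filter (fun k => k ∈ T) = T.erase i := by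
          ext k
          rw [Finset.mem_filter, Finset.mem_erase, Finset.mem_erase]
          exact ⟨fun h => ⟨h.1.1, h.2⟩, fun h => ⟨⟨h.1, Finset.mem_univ _⟩, h.2⟩⟩
        rw [e1]
        have e2 : ∀ k ∈ T.erase i, g i k = σ * u i := by
          intro k hk
          rw [hg]
          simp only [hi, Finset.mem_of_mem_erase hk, if_true]
        rw [Finset.sum_congr rfl e2, Finset.sum_const, Finset.card_erase_of_mem hi, nsmul_eq_mul]
        congr 1
        have hc : 1 ≤ T.card := Finset.card_pos.2 ⟨i, hi⟩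
        push_cast [Nat.cast_sub hc]
        ring
      · have e1 : (Finset.univ.erase i).filter (fun k => k ∉ T) =
            Finset.univ.filter (fun k => k ∉ T) := by
          ext k
          rw [Finset.mem_filter, Finset.mem_erase, Finset.mem_filter]
          refine ⟨fun h => ⟨Finset.mem_univ _, h.2⟩, fun h => ⟨⟨?_, Finset.mem_univ _⟩, h.2⟩⟩
          rintro rfl
          exact h.2 hi
        rw [e1]
        refine Finset.sum_congr rfl fun k hk => ?_
        rw [hg]
        simp only [hi, (Finset.mem_filter.1 hk).2, if_true, if_false]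
    · rw [if_neg hi]
      refine Finset.sum_eq_zero fun k _ => ?_
      rw [hg]
      simp only [hi, if_false]
  rw [Finset.sum_congr rfl fun i _ => h1 i, ← Finset.sum_filter, Finset.sum_add_distrib]
  have e1 : Finset.univ.filter (fun i => i ∈ T) = T := by
    ext i
    simp
  rw [e1, ← Finset.mul_sum, ← Finset.mul_sum, hsuT, Finset.sum_comm,
    Finset.sum_eq_zero fun k hk => hmix k (Finset.mem_filter.1 hk).2]
  ring

end Pool.Agent.H94.PM
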