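import Pool.Agent.H94.PM.P1B
import Pool.Agent.H94.PL.LGood

set_option autoImplicit false

/-!
# [H94 PM P1C] The quadratic form vanishes on the values

`ℓ = 2`, `m` odd, `α` odd (`2 ∣ α m + 1`); `φ i = ∑ k ≠ i, vl (A i - A k)`, `ψ i = ∑ k ≠ i, un (A i - A k)`, `e = un (-1)`.
* `qf_lgs`: with `a i = vl (δ i)`, `u i = un (δ i)`, `∑ a = ∑ u = 0` in `ZMod 2`: `∑_{i < k} hs (δ i) (δ k) = ∑_{i ≠ k} u i a k + e c2 a = dot u a + e c2 a` and
  `∑_{i < k} (hs (δ i) (h i k) + hs (δ k) (- h i k)) = ∑ i, ∑ k ≠ i, hs (δ i) (A i - A k) = dot u φ + dot a ψ + e dot a φ`.  (`h i k = A i - A k`.)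
* `p1c_irr`: `δ i = dvn α D P (A i) = ((-D) ^ α) ^ n * P (A i)`, `p i = (-1) ^ n * P (A i)`.  Modulo `2`: `vl (δ i) = n vl D + vl (p i)`, `un (δ i) = n un D + un (p i)` (`α` odd:
  `n α (e + un D) + un (P (A i)) = n un D + (n e + un (P (A i)))`).  So `hs (δ i) x = n hs D x + hs (p i) x`.  Summing over the pairs `i < k`:
  `∑ bb (δ i) (δ k) (h i k) = ∑ bb (p i) (p k) (h i k) + n² C hs D D + n (m - 1) ∑ i, hs D (p i) + n C hs D (-1)`, `C = m (m - 1) / 2` (`hs D h + hs D (-h) = hs D (-1)`), and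
  `hs D D = hs D (-1)`, `n² + n` and `m - 1` are even.  The first sum is zero: `n` odd: `p1a_odd` (`p i = - P (A i)`); `n` even: `p1b` (`p i = P (A i)`).
* `p1`: `δ * γ ^ 2 = ∏ dvn (P j) (A k)`; by `qf_lgs` it is enough that `qf (lgs δ) = 0`.  By `PL.LGood.mum_induct` (property: values nonzero, product of the values a square, `qf (lgs (dvn P)) = 0`;
  multiplicativity by `qf_add`, `gam_iso`) `qf (lgs (dvn α D P ∘ A)) = 0` for each Mumford pair: for `P P'`: `lgs` is the sum, and `ee` of the two is `0` as both are in `Gam` (Mumford pairs with the same `Q`).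
  Then the same for the product over `j`.  (Factors of Mumford polynomials are Mumford with the same `Q`.)
* `p1_gam`: span induction with `qf_add`, `gam_iso`.
-/

namespace Pool.Agent.H94.PM

open Polynomial WithZero
open Pool.Agent.H94.PL

section
variable {M : Type} [Field M] {v : Valuation M ℤᵐ⁰} {m : ℕ} (U : LU v 2)

/-- the sum over the ordered pairs -/
theorem sum_prs2 {m : ℕ} {Y : Type*} [AddCommMonoid Y] (F : Fin m → Fin m → Y) :
    ∑ p ∈ prs m, (F p.1 p.2 + F p.2 p.1) = ∑ i, ∑ k ∈ Finset.univ.erase i, F i k := by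
  classical
  have h1 : ∀ i : Fin m, ∑ k ∈ Finset.univ.erase i, F i k =
      ∑ k, ((if i < k then F i k else 0) + (if k < i then F i k else 0)) := by
    intro a
    have e : (Finset.univ : Finset (Fin m)).erase a = Finset.univ.filter fun b => a ≠ b := by
      ext b
      simp [eq_comm]
    rw [e, Finset.sum_filter]
    refine Finset.sum_congr rfl fun b _ => ?_
    rcases lt_trichotomy a b with h | h | h
    · rw [if_pos h.ne, if_pos h, if_neg h.not_gt, add_zero]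
    · subst h
      simp
    · rw [if_pos h.ne', if_neg h.not_gt, if_pos h, zero_add]
  have h2 : ∑ i : Fin m, ∑ k : Fin m, (if k < i then F i k else 0) =
      ∑ i : Fin m, ∑ k : Fin m, (if i < k then F k i else 0) := Finset.sum_comm
  rw [prs, Finset.sum_filter, Fintype.sum_prod_type, Finset.sum_congr rfl fun i _ => h1 i]
  simp only [Finset.sum_add_distrib]
  rw [h2, ← Finset.sum_add_distrib]
  refine Finset.sum_congr rfl fun i _ => ?_
  rw [← Finset.sum_add_distrib]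
  refine Finset.sum_congr rfl fun k _ => ?_
  by_cases h : i < k
  · rw [if_pos h, if_pos h, if_pos h]
  · rw [if_neg h, if_neg h, if_neg h, add_zero]

/-- the valuations of the derivatives -/
noncomputable def phL (v : Valuation M ℤᵐ⁰) (A : Fin m → M) (i : Fin m) : ZMod 2 :=
  ∑ k ∈ Finset.univ.erase i, (vl v (A i - A k) : ZMod 2)

/-- the unit logarithms of the derivatives -/
noncomputable def psL (A : Fin m → M) (i : Fin m) : ZMod 2 :=
  ∑ k ∈ Finset.univ.erase i, U.un (A i - A k)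

theorem lgs_mul' {δ δ' : Fin m → M} (hne : ∀ k, δ k ≠ 0) (h : ∃ y : M, ∏ k, δ k = y ^ 2)
    (hne' : ∀ k, δ' k ≠ 0) (h' : ∃ y : M, ∏ k, δ' k = y ^ 2) :
    lgs U (δ * δ') = lgs U δ + lgs U δ' := by
  have hnn : ∀ k, (δ * δ') k ≠ 0 := fun k => mul_ne_zero (hne k) (hne' k)
  have hh : ∃ y : M, ∏ k, (δ * δ') k = y ^ 2 := by
    obtain ⟨y, hy⟩ := h
    obtain ⟨y', hy'⟩ := h'
    refine ⟨y * y', ?_⟩
    rw [mul_pow, ← hy, ← hy', ← Finset.prod_mul_distrib]
    rfl
  refine Prod.ext (Subtype.ext (funext fun k => ?_)) (Subtype.ext (funext fun k => ?_))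
  · have h1 : (lgs U δ + lgs U δ').1.1 k = (lgs U δ).1.1 k + (lgs U δ').1.1 k := rfl
    rw [h1, lgs_fst U hnn hh, lgs_fst U hne h, lgs_fst U hne' h', Pi.mul_apply,
      vl_mul (hne k) (hne' k)]
    push_cast
    rfl
  · have h1 : (lgs U δ + lgs U δ').2.1 k = (lgs U δ).2.1 k + (lgs U δ').2.1 k := rfl
    rw [h1, lgs_snd U hnn hh, lgs_snd U hne h, lgs_snd U hne' h', Pi.mul_apply,
      U.mul _ _ (hne k) (hne' k)]

theorem qf_lgs {A δ : Fin m → M} (hA : ∀ i k, i ≠ k → A i ≠ A k) (hne : ∀ k, δ k ≠ 0)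
    (h : ∃ y : M, ∏ k, δ k = y ^ 2) :
    qf (U.un (-1)) (phL v A) (psL U A) (lgs U δ) =
      ∑ p ∈ prs m, bb U (δ p.1) (δ p.2) (A p.1 - A p.2) := by
  classical
  have h1 : (lgs U δ).1.1 = fun k => (vl v (δ k) : ZMod 2) := funext (lgs_fst U hne h)
  have h2 : (lgs U δ).2.1 = fun k => U.un (δ k) := funext (lgs_snd U hne h)
  have ha : ∑ k, (vl v (δ k) : ZMod 2) = 0 := by
    rw [← (lgs U δ).1.2, h1]
  rw [qf, h1, h2]
  have h3 : ∀ p ∈ prs m, bb U (δ p.1) (δ p.2) (A p.1 - A p.2) =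
      ((U.un (δ p.1) * (vl v (δ p.2) : ZMod 2) + U.hs (δ p.1) (A p.1 - A p.2)) +
        (U.un (δ p.2) * (vl v (δ p.1) : ZMod 2) + U.hs (δ p.2) (A p.2 - A p.1))) +
      U.un (-1) * ((vl v (δ p.1) : ZMod 2) * (vl v (δ p.2) : ZMod 2)) := by
    intro p _
    rw [bb, neg_sub]
    nth_rewrite 1 [LU.hs]
    rw [CharTwo.sub_eq_add]
    ring
  rw [Finset.sum_congr rfl h3, Finset.sum_add_distrib, sum_prs2 fun i k =>
    U.un (δ i) * (vl v (δ k) : ZMod 2) + U.hs (δ i) (A i - A k), ← Finset.mul_sum]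
  have h4 : ∀ i : Fin m, ∑ k ∈ Finset.univ.erase i,
      (U.un (δ i) * (vl v (δ k) : ZMod 2) + U.hs (δ i) (A i - A k)) =
      U.un (δ i) * (vl v (δ i) : ZMod 2) + (U.un (δ i) * phL v A i +
        (vl v (δ i) : ZMod 2) * psL U A i + U.un (-1) * ((vl v (δ i) : ZMod 2) * phL v A i)) := by
    intro i
    rw [Finset.sum_add_distrib, ← Finset.mul_sum]
    have h5 : ∑ k ∈ Finset.univ.erase i, (vl v (δ k) : ZMod 2) = (vl v (δ i) : ZMod 2) := by
      have h6 := Finset.add_sum_erase Finset.univ (fun k => (vl v (δ k) : ZMod 2))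
        (Finset.mem_univ i)
      rw [ha] at h6
      have h7 := eq_neg_of_add_eq_zero_right h6
      rw [CharTwo.neg_eq] at h7
      exact h7
    rw [h5]
    congr 1
    rw [phL, psL, Finset.mul_sum, Finset.mul_sum, Finset.mul_sum, Finset.mul_sum,
      ← Finset.sum_add_distrib, ← Finset.sum_add_distrib]
    refine Finset.sum_congr rfl fun k _ => ?_
    rw [LU.hs, CharTwo.sub_eq_add]
  rw [Finset.sum_congr rfl fun i _ => h4 i]
  simp only [Finset.sum_add_distrib, dot, c2, ← Finset.mul_sum]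
  have h8 : ∑ i, U.un (δ i) * (vl v (δ i) : ZMod 2) = ∑ i, (vl v (δ i) : ZMod 2) * U.un (δ i) :=
    Finset.sum_congr rfl fun i _ => mul_comm _ _
  rw [h8]
  ring

end

variable {M : Type} [Field M] [hv : Valued M ℤᵐ⁰] [CompleteSpace M] {m : ℕ}
  (U : LU (Valued.v : Valuation M ℤᵐ⁰) 2)

theorem p1c_irr {ϖ : M} (hϖ : (Valued.v : Valuation M ℤᵐ⁰) ϖ = exp (-1 : ℤ)) {α : ℕ}
    (hm : Nat.Coprime m 2) (hα : 2 ∣ α * m + 1) {D : M} (hD : D ≠ 0) {A : Fin m → M}
    (hA : ∀ i k, i ≠ k → A i ≠ A k)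
    {P Q : M[X]} (hP : P.Monic) (hirr : Irreducible P)
    (hev : ∀ k, P.eval (A k) ≠ 0) (hd : P ∣ C D * Q ^ 2 - fA A) :
    ∑ p ∈ prs m, bb U (dvn α D P (A p.1)) (dvn α D P (A p.2)) (A p.1 - A p.2) = 0 := by
  have hnD : -D ≠ 0 := neg_ne_zero.2 hD
  have hαo : Odd α := by
    rcases Nat.even_or_odd α with h | h
    · exfalso
      obtain ⟨c, hc⟩ := h.mul_right m
      omega
    · exact h
  have hsym : ∀ x y : M, x ≠ 0 → y ≠ 0 → U.hs x y = U.hs y x := by
    intro x y hx hy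
    have h := U.sy.skew hx hy
    rw [CharTwo.neg_eq] at h
    exact h
  have hc : ∀ x : M, x ≠ 0 → U.hs (((-D) ^ α) ^ P.natDegree) x =
      (P.natDegree : ZMod 2) * U.hs (-D) x := by
    intro x hx
    rw [← pow_mul, ← U.sy_apply, U.sy.pow_left hnD hx, U.sy_apply, nsmul_eq_mul]
    push_cast
    rw [ZMod.natCast_eq_one_iff_odd.2 hαo, one_mul]
  have hdn : ∀ i, dvn α D P (A i) ≠ 0 := fun i =>
    mul_ne_zero (pow_ne_zero _ (pow_ne_zero _ hnD)) (hev i)
  have hl : ∀ i (x : M), x ≠ 0 → U.hs (dvn α D P (A i)) x =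
      (P.natDegree : ZMod 2) * U.hs (-D) x + U.hs (P.eval (A i)) x := by
    intro i x hx
    rw [dvn, U.hs_mul_left _ _ _ (pow_ne_zero _ (pow_ne_zero _ hnD)) (hev i) hx, hc x hx]
  have hAne : ∀ p ∈ prs m, A p.1 - A p.2 ≠ 0 := fun p hp =>
    sub_ne_zero.2 (hA _ _ (mem_prs.1 hp).ne)
  rcases Nat.even_or_odd P.natDegree with hn | hn
  · have hl' : ∀ i (x : M), x ≠ 0 → U.hs (dvn α D P (A i)) x = U.hs (P.eval (A i)) x := by
      intro i x hx
      rw [hl i x hx, ZMod.natCast_eq_zero_iff_even.2 hn, zero_mul, zero_add]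
    have hr' : ∀ i (x : M), x ≠ 0 → U.hs x (dvn α D P (A i)) = U.hs x (P.eval (A i)) := by
      intro i x hx
      rw [hsym _ _ hx (hdn i), hl' i x hx, hsym _ _ (hev i) hx]
    rw [← p1b U hϖ hα hD hA hP hirr hn hev hd]
    refine Finset.sum_congr rfl fun p hp => ?_
    rw [bb, bb, hl' _ _ (hdn p.2), hr' _ _ (hev p.1), hl' _ _ (hAne p hp),
      hl' _ _ (neg_ne_zero.2 (hAne p hp))]
  · have hpn : ∀ i, -P.eval (A i) ≠ 0 := fun i => neg_ne_zero.2 (hev i)
    have hl' : ∀ i (x : M), x ≠ 0 → U.hs (dvn α D P (A i)) x =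
        U.hs D x + U.hs (-P.eval (A i)) x := by
      intro i x hx
      rw [hl i x hx, ZMod.natCast_eq_one_iff_odd.2 hn, one_mul,
        ← U.hs_mul_left _ _ _ hnD (hev i) hx, ← U.hs_mul_left _ _ _ hD (hpn i) hx]
      congr 1
      ring
    have hr' : ∀ i (x : M), x ≠ 0 → U.hs x (dvn α D P (A i)) =
        U.hs D x + U.hs x (-P.eval (A i)) := by
      intro i x hx
      rw [hsym _ _ hx (hdn i), hl' i x hx, hsym _ _ (hpn i) hx]
    have hself : U.hs D D = U.hs D (-1) := U.sy.self hD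
    have h1 : ∀ p ∈ prs m, bb U (dvn α D P (A p.1)) (dvn α D P (A p.2)) (A p.1 - A p.2) =
        U.hs D (-P.eval (A p.1)) + U.hs D (-P.eval (A p.2)) := by
      intro p hp
      have hh := hAne p hp
      have h2 := p1a_odd U hϖ hP hirr hn (hA _ _ (mem_prs.1 hp).ne) (hev p.1) (hev p.2)
      have h3 : U.hs D (-(A p.1 - A p.2)) = U.hs D (-1) + U.hs D (A p.1 - A p.2) := by
        rw [← U.hs_mul_right _ _ _ hD (neg_ne_zero.2 one_ne_zero) hh, neg_one_mul]
      rw [bb] at h2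
      rw [bb, hl' _ _ (hdn p.2), hl' _ _ hh, hl' _ _ (neg_ne_zero.2 hh), hr' _ _ hD,
        hr' _ _ (hpn p.1), h3, hself]
      have h4 := CharTwo.add_self_eq_zero (U.hs D (-1))
      have h5 := CharTwo.add_self_eq_zero (U.hs D (A p.1 - A p.2))
      linear_combination h2 + h4 + h5
    rw [Finset.sum_congr rfl h1, sum_prs2 fun i _ => U.hs D (-P.eval (A i))]
    have hme : Even (m - 1) := by
      have : Odd m := (Nat.coprime_two_right).1 hm
      obtain ⟨c, hc⟩ := this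
      exact ⟨c, by omega⟩
    refine Finset.sum_eq_zero fun i _ => ?_
    rw [Finset.sum_const, Finset.card_erase_of_mem (Finset.mem_univ i), Finset.card_univ,
      Fintype.card_fin, nsmul_eq_mul, ZMod.natCast_eq_zero_iff_even.2 hme, zero_mul]

theorem p1 {ϖ : M} (hϖ : (Valued.v : Valuation M ℤᵐ⁰) ϖ = exp (-1 : ℤ)) {α : ℕ}
    (hm : Nat.Coprime m 2) (hα : 2 ∣ α * m + 1) {D : M} (hD : D ≠ 0) {A : Fin m → M}
    (hA : ∀ i k, i ≠ k → A i ≠ A k) {δ : Fin m → M} (h : IsVln 2 α D A δ) :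
    qf (U.un (-1)) (phL Valued.v A) (psL U A) (lgs U δ) = 0 := by
  have hprod : ∀ {δ : Fin m → M}, IsVln 2 α D A δ → ∃ y : M, ∏ k, δ k = y ^ 2 := fun h =>
    prod_of_isVln Nat.prime_two hα h
  have hmul : ∀ {δ δ' : Fin m → M}, IsVln 2 α D A δ → IsVln 2 α D A δ' →
      qf (U.un (-1)) (phL Valued.v A) (psL U A) (lgs U δ) = 0 →
      qf (U.un (-1)) (phL Valued.v A) (psL U A) (lgs U δ') = 0 →
      qf (U.un (-1)) (phL Valued.v A) (psL U A) (lgs U (δ * δ')) = 0 := by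
    intro δ δ' h1 h2 h3 h4
    have h5 : lgs U (δ * δ') = lgs U δ + lgs U δ' :=
      lgs_mul' U (fun k => isVln_ne hD h1 k) (hprod h1) (fun k => isVln_ne hD h2 k) (hprod h2)
    rw [h5, qf_add, h3, h4, gam_iso U hα hD A _ (lgs_mem_Gam U h1) _ (lgs_mem_Gam U h2), add_zero,
      add_zero]
  have hone : qf (U.un (-1)) (phL Valued.v A) (psL U A) (lgs U (1 : Fin m → M)) = 0 := by
    have h1 : lgs U (1 : Fin m → M) = 0 := by
      have h2 := lgs_mul' U (δ := (1 : Fin m → M)) (δ' := 1) (fun k => one_ne_zero)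
        (hprod (isVln_one D A)) (fun k => one_ne_zero) (hprod (isVln_one D A))
      rw [mul_one] at h2
      exact left_eq_add.1 h2
    rw [h1, qf_zero]
  have hvl1 : ∀ {P Q : M[X]}, IsMum 2 D A P Q → IsVln 2 α D A (fun k => dvn α D P (A k)) := by
    intro P Q hPQ
    refine ⟨1, fun _ => P, fun _ => Q, fun _ => 1, fun _ => hPQ, fun _ => one_ne_zero,
      fun k => ?_⟩
    rw [one_pow, mul_one, Fin.prod_univ_one]
  have hmum : ∀ {P Q : M[X]}, IsMum 2 D A P Q → IsVln 2 α D A (fun k => dvn α D P (A k)) ∧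
      qf (U.un (-1)) (phL Valued.v A) (psL U A) (lgs U (fun k => dvn α D P (A k))) = 0 := by
    intro P Q hPQ
    refine mum_induct 2 D A Q (fun P => IsVln 2 α D A (fun k => dvn α D P (A k)) ∧
      qf (U.un (-1)) (phL Valued.v A) (psL U A) (lgs U (fun k => dvn α D P (A k))) = 0)
      ?_ ?_ ?_ hPQ
    · have h1 : (fun k => dvn α D 1 (A k)) = (1 : Fin m → M) := by
        funext k
        rw [dvn_one, Pi.one_apply]
      rw [h1]
      exact ⟨isVln_one D A, hone⟩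
    · intro P P' hP hP' h1 h2
      have h3 : (fun k => dvn α D (P * P') (A k)) =
          (fun k => dvn α D P (A k)) * (fun k => dvn α D P' (A k)) := by
        funext k
        rw [dvn_mul α D hP hP', Pi.mul_apply]
      rw [h3]
      exact ⟨isVln_mul h1.1 h2.1, hmul h1.1 h2.1 h1.2 h2.2⟩
    · intro P hP hirr hev hd
      have h1 := hvl1 (P := P) (Q := Q) ⟨hP, hev, hd⟩
      refine ⟨h1, ?_⟩
      rw [qf_lgs U hA (fun k => isVln_ne hD h1 k) (hprod h1)]
      exact p1c_irr U hϖ hm hα hD hA hP hirr hev hd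
  obtain ⟨r, P, Q, γ, hPQ, hγ, hδγ⟩ := id h
  have hfin : ∀ t : Finset (Fin r), IsVln 2 α D A (fun k => ∏ i ∈ t, dvn α D (P i) (A k)) ∧
      qf (U.un (-1)) (phL Valued.v A) (psL U A)
        (lgs U (fun k => ∏ i ∈ t, dvn α D (P i) (A k))) = 0 := by
    intro t
    induction t using Finset.induction_on with
    | empty =>
      have h1 : (fun k => ∏ i ∈ (∅ : Finset (Fin r)), dvn α D (P i) (A k)) = (1 : Fin m → M) := by
        funext k
        rw [Finset.prod_empty, Pi.one_apply]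
      rw [h1]
      exact ⟨isVln_one D A, hone⟩
    | insert a t ha ih =>
      have h1 : (fun k => ∏ i ∈ insert a t, dvn α D (P i) (A k)) =
          (fun k => dvn α D (P a) (A k)) * (fun k => ∏ i ∈ t, dvn α D (P i) (A k)) := by
        funext k
        rw [Finset.prod_insert ha, Pi.mul_apply]
      rw [h1]
      have h2 := hmum (hPQ a)
      exact ⟨isVln_mul h2.1 ih.1, hmul h2.1 ih.1 h2.2 ih.2⟩
  have h1 : lgs U δ = lgs U (fun k => ∏ i, dvn α D (P i) (A k)) := by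
    have h2 : ∀ k, (vl Valued.v (δ k) : ZMod 2) =
        (vl (Valued.v : Valuation M ℤᵐ⁰) (∏ i, dvn α D (P i) (A k)) : ZMod 2) := by
      intro k
      rw [← hδγ k, vl_mul (isVln_ne hD h k) (pow_ne_zero 2 (hγ k)), vl_pow]
      push_cast
      rw [show (2 : ZMod 2) = 0 from rfl, zero_mul, add_zero]
    have h3 : ∀ k, U.un (δ k) = U.un (∏ i, dvn α D (P i) (A k)) := by
      intro k
      rw [← hδγ k, U.un_pow_l (isVln_ne hD h k) (hγ k)]
    unfold lgs
    rw [funext h2, funext h3]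
  rw [h1]
  exact (hfin Finset.univ).2

theorem p1_gam {ϖ : M} (hϖ : (Valued.v : Valuation M ℤᵐ⁰) ϖ = exp (-1 : ℤ)) {α : ℕ}
    (hm : Nat.Coprime m 2) (hα : 2 ∣ α * m + 1) {D : M} (hD : D ≠ 0) {A : Fin m → M}
    (hA : ∀ i k, i ≠ k → A i ≠ A k) {g : XX m 2 × XX m 2} (h : g ∈ Gam U α D A) :
    qf (U.un (-1)) (phL Valued.v A) (psL U A) g = 0 := by
  unfold Gam at h
  have h0 : qf (U.un (-1)) (phL Valued.v A) (psL U A) g = 0 ∧ g ∈ Gam U α D A := by
    refine Submodule.span_induction (p := fun g _ =>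
      qf (U.un (-1)) (phL Valued.v A) (psL U A) g = 0 ∧ g ∈ Gam U α D A) ?_ ?_ ?_ ?_ h
    · rintro g ⟨δ, hδ, rfl⟩
      exact ⟨p1 U hϖ hm hα hD hA hδ, lgs_mem_Gam U hδ⟩
    · exact ⟨qf_zero _ _ _, Submodule.zero_mem _⟩
    · intro x y _ _ hx hy
      refine ⟨?_, Submodule.add_mem _ hx.2 hy.2⟩
      rw [qf_add, hx.1, hy.1, gam_iso U hα hD A _ hx.2 _ hy.2, add_zero, add_zero]
    · intro a x _ hx
      refine ⟨?_, Submodule.smul_mem _ _ hx.2⟩
      have ha : a = 0 ∨ a = 1 := by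
        revert a
        decide
      rcases ha with rfl | rfl
      · rw [zero_smul, qf_zero]
      · rw [one_smul, hx.1]
  exact h0.1

end Pool.Agent.H94.PM
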