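import Pool.Agent.H94.PM.P1C
import Pool.Agent.H94.PM.QS

set_option autoImplicit false

/-!
# [H94 PM P2] The derivatives; maximal totally singular subspaces containing the values

`ℓ = 2`.  All symbols in `ZMod 2`, `⟨x, y⟩ = U.hs x y`: bimultiplicative, symmetric, `⟨x, -x⟩ = 0`, `⟨x, x⟩ = ⟨x, -1⟩`, `⟨-1, -1⟩ = 0` (`vl (-1) = 0`), and for `x + y = z` (all nonzero):
`⟨x, y⟩ + ⟨x, z⟩ + ⟨z, y⟩ + ⟨z, -1⟩ = 0` (`Sy.hom`, `Sy.self`).
* `p2_id`: induction on `s` (`Finset.induction_on_max`), `I(s) = ∑_{i < k in s} ⟨f i, f k⟩`, `f i = ∏ k ∈ s \ i, (A i - A k)`.  Insert `x` (larger than all elements of `s`), `t = card s`, `g i = A i - A x`,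
  `h i k = A i - A k = g i - g k`.  The new values are `f i * g i` (`i ∈ s`) and `f x = ∏ k ∈ s, (- g k)`.  So
  `I(s ∪ x) = ∑_{i < k} ⟨f i g i, f k g k⟩ + ∑ i, ⟨f i g i, ∏ k, (- g k)⟩`
  `= I(s) + ∑_{i ≠ k} ⟨f i, g k⟩ + ∑_{i < k} ⟨g i, g k⟩ + ∑_{i, k} ⟨f i, - g k⟩ + ∑_{i, k} ⟨g i, - g k⟩`,
  `∑_{i, k} ⟨g i, - g k⟩ = ∑_{i < k} (⟨g i, - g k⟩ + ⟨g k, - g i⟩) = (t - 1) ∑ i, ⟨g i, -1⟩`, `∑_{i, k} ⟨f i, - g k⟩ = ∑_{i, k} ⟨f i, g k⟩ + t ∑ i, ⟨f i, -1⟩`, so
  `I(s ∪ x) = I(s) + ∑ i, ⟨f i, g i⟩ + t ∑ i, ⟨f i, -1⟩ + ∑_{i < k} ⟨g i, g k⟩ + (t - 1) ∑ i, ⟨g i, -1⟩`.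
  `∑ i, ⟨f i, g i⟩ = ∑_{i < k} (⟨h i k, g i⟩ + ⟨- h i k, g k⟩)` and `g k + h i k = g i` gives `⟨g k, h⟩ + ⟨g k, g i⟩ + ⟨g i, h⟩ + ⟨g i, -1⟩ = 0`, so
  `⟨h, g i⟩ + ⟨-h, g k⟩ = ⟨g i, g k⟩ + ⟨g i, -1⟩ + ⟨g k, -1⟩`, and the sum is `∑_{i < k} ⟨g i, g k⟩ + (t - 1) ∑ i, ⟨g i, -1⟩`.  It remains
  `t ∑ i, ⟨f i, -1⟩ = t ⟨∏ f i, -1⟩`, `∏ i ∈ s, f i = ∏_{i < k} (- h i k ^ 2)`, so this is `t * (t (t-1) / 2) * ⟨-1, -1⟩ = 0`.
* `p2`: `p2_id` for `univ`: `vl (f i) = phL i`, `un (f i) = psL i`, `∑_{i < k} ⟨f i, f k⟩ = ∑_{i ≠ k} ψ i φ k + e c2 φ = (∑ ψ) (∑ φ) - dot φ ψ + e c2 φ` and `∑ φ = 0` (`sum_ph`).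
* `exists_W2`: `W a b`: if there is `D ≠ 0` with `(vl D : ZMod 2) = a`, `un D = b`, then `qs_ext` with `Γ = Gam U α D A` for a chosen such `D` (`p1_gam`) and `U` from `exists_U` (`p2`; `card V = card X ^ 2`),
  otherwise the `U` of `exists_U`.  `gam_congr`.  `E = ee m 2 e`, `qf_add`, `ee_nondeg`.
-/

namespace Pool.Agent.H94.PM

open Polynomial WithZero
open Pool.Agent.H94.PL

/-- the increasing pairs of a set -/
def prf {m : ℕ} (s : Finset (Fin m)) : Finset (Fin m × Fin m) :=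
  (s ×ˢ s).filter (fun p => p.1 < p.2)

theorem mem_prf {m : ℕ} {s : Finset (Fin m)} {p : Fin m × Fin m} :
    p ∈ prf s ↔ (p.1 ∈ s ∧ p.2 ∈ s) ∧ p.1 < p.2 := by
  rw [prf, Finset.mem_filter, Finset.mem_product]

theorem sum_prf {m : ℕ} {Y : Type*} [AddCommMonoid Y] (s : Finset (Fin m))
    (F : Fin m → Fin m → Y) :
    ∑ p ∈ prf s, (F p.1 p.2 + F p.2 p.1) = ∑ i ∈ s, ∑ k ∈ s.erase i, F i k := by
  classical
  have h1 : ∀ i ∈ s, ∑ k ∈ s.erase i, F i k =
      ∑ k ∈ s, ((if i < k then F i k else 0) + (if k < i then F i k else 0)) := by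
    intro a _
    have e : s.erase a = s.filter fun b => a ≠ b := by
      ext b
      rw [Finset.mem_erase, Finset.mem_filter, and_comm, ne_comm]
    rw [e, Finset.sum_filter]
    refine Finset.sum_congr rfl fun b _ => ?_
    rcases lt_trichotomy a b with h | h | h
    · rw [if_pos h.ne, if_pos h, if_neg h.not_gt, add_zero]
    · subst h
      simp
    · rw [if_pos h.ne', if_neg h.not_gt, if_pos h, zero_add]
  have h2 : ∑ i ∈ s, ∑ k ∈ s, (if k < i then F i k else 0) =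
      ∑ i ∈ s, ∑ k ∈ s, (if i < k then F k i else 0) := Finset.sum_comm
  rw [prf, Finset.sum_filter, Finset.sum_product, Finset.sum_congr rfl h1]
  simp only [Finset.sum_add_distrib]
  rw [h2, ← Finset.sum_add_distrib]
  refine Finset.sum_congr rfl fun i _ => ?_
  rw [← Finset.sum_add_distrib]
  refine Finset.sum_congr rfl fun k _ => ?_
  by_cases h : i < k
  · rw [if_pos h, if_pos h, if_pos h]
  · rw [if_neg h, if_neg h, if_neg h, add_zero]

theorem prf_insert {m : ℕ} {Y : Type*} [AddCommMonoid Y] {s : Finset (Fin m)} {x : Fin m}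
    (hx : ∀ i ∈ s, i < x) (F : Fin m → Fin m → Y) :
    ∑ p ∈ prf (insert x s), F p.1 p.2 = ∑ p ∈ prf s, F p.1 p.2 + ∑ i ∈ s, F i x := by
  classical
  have hxs : x ∉ s := fun h => lt_irrefl x (hx x h)
  rw [prf, prf, Finset.sum_filter, Finset.sum_filter, Finset.sum_product, Finset.sum_product,
    Finset.sum_insert hxs, Finset.sum_insert hxs]
  have h1 : ∑ k ∈ s, (if x < k then F x k else 0) = 0 := by
    refine Finset.sum_eq_zero fun k hk => ?_
    rw [if_neg (hx k hk).not_gt]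
  simp only
  rw [if_neg (lt_irrefl x), h1, zero_add, zero_add]
  have h2 : ∀ i ∈ s, ∑ k ∈ insert x s, (if i < k then F i k else 0) =
      ∑ k ∈ s, (if i < k then F i k else 0) + F i x := by
    intro i hi
    rw [Finset.sum_insert hxs, if_pos (hx i hi), add_comm]
  rw [Finset.sum_congr rfl h2, Finset.sum_add_distrib]

section
variable {M : Type} [Field M] {v : Valuation M ℤᵐ⁰} {m : ℕ} (U : LU v 2)

theorem LU.sy_neg_right' {ℓ : ℕ} (U : LU v ℓ) {x : M} (hx : x ≠ 0) :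
    U.hs x (-x) = 0 := U.sy.neg_right hx

theorem p2_id {A : Fin m → M} (hA : ∀ i k, i ≠ k → A i ≠ A k) (s : Finset (Fin m)) :
    ∑ p ∈ (s ×ˢ s).filter (fun p => p.1 < p.2),
      U.hs (∏ k ∈ s.erase p.1, (A p.1 - A k)) (∏ k ∈ s.erase p.2, (A p.2 - A k)) = 0 := by
  classical
  have hone : (-1 : M) ≠ 0 := neg_ne_zero.2 one_ne_zero
  have hsym : ∀ x y : M, x ≠ 0 → y ≠ 0 → U.hs x y = U.hs y x := by
    intro x y hx hy
    have h := U.sy.skew hx hy
    rw [CharTwo.neg_eq] at h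
    exact h
  have h11 : U.hs (-1) (-1) = 0 := by
    have h1 : vl v (-1 : M) = 0 := by
      rw [vl_neg, vl_one]
    rw [LU.hs, h1, Int.cast_zero, mul_zero, zero_mul, sub_zero, zero_mul, mul_zero, add_zero]
  have hneg : ∀ x y : M, x ≠ 0 → y ≠ 0 → U.hs x (-y) = U.hs x y + U.hs x (-1) := by
    intro x y hx hy
    rw [← U.hs_mul_right _ _ _ hx hy hone, mul_neg_one]
  have hdiff : ∀ i k, i ≠ k → A i - A k ≠ 0 := fun i k h => sub_ne_zero.2 (hA i k h)
  have key : ∀ s : Finset (Fin m), ∑ p ∈ prf s,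
      U.hs (∏ k ∈ s.erase p.1, (A p.1 - A k)) (∏ k ∈ s.erase p.2, (A p.2 - A k)) = 0 := by
    intro s
    induction s using Finset.induction_on_max with
    | empty => rfl
    | insert x s hx ih =>
      have hxs : x ∉ s := fun h => lt_irrefl x (hx x h)
      obtain ⟨f, hf⟩ : ∃ f : Fin m → M, ∀ i, f i = ∏ k ∈ s.erase i, (A i - A k) :=
        ⟨fun i => ∏ k ∈ s.erase i, (A i - A k), fun i => rfl⟩
      obtain ⟨g, hg⟩ : ∃ g : Fin m → M, ∀ i, g i = A i - A x := ⟨fun i => A i - A x, fun i => rfl⟩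
      have hf0 : ∀ i, f i ≠ 0 := by
        intro i
        rw [hf]
        exact Finset.prod_ne_zero_iff.2 fun k hk => hdiff _ _ (Finset.ne_of_mem_erase hk).symm
      have hg0 : ∀ i ∈ s, g i ≠ 0 := by
        intro i hi
        rw [hg]
        exact hdiff _ _ (hx i hi).ne
      have hng0 : ∀ i ∈ s, -g i ≠ 0 := fun i hi => neg_ne_zero.2 (hg0 i hi)
      have h1 : ∀ i ∈ s, ∏ k ∈ (insert x s).erase i, (A i - A k) = f i * g i := by
        intro i hi
        rw [Finset.erase_insert_of_ne (hx i hi).ne', Finset.prod_insert, hf, hg, mul_comm]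
        intro h
        exact hxs (Finset.mem_of_mem_erase h)
      have h2 : ∏ k ∈ (insert x s).erase x, (A x - A k) = ∏ k ∈ s, (-g k) := by
        rw [Finset.erase_insert hxs]
        refine Finset.prod_congr rfl fun k _ => ?_
        rw [hg, neg_sub]
      have h3 : ∑ p ∈ prf (insert x s), U.hs (∏ k ∈ (insert x s).erase p.1, (A p.1 - A k))
          (∏ k ∈ (insert x s).erase p.2, (A p.2 - A k)) =
          ∑ p ∈ prf s, U.hs (f p.1 * g p.1) (f p.2 * g p.2) +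
            ∑ i ∈ s, U.hs (f i * g i) (∏ k ∈ s, (-g k)) := by
        rw [prf_insert hx fun i j => U.hs (∏ k ∈ (insert x s).erase i, (A i - A k))
          (∏ k ∈ (insert x s).erase j, (A j - A k))]
        congr 1
        · refine Finset.sum_congr rfl fun p hp => ?_
          rw [h1 _ (mem_prf.1 hp).1.1, h1 _ (mem_prf.1 hp).1.2]
        · refine Finset.sum_congr rfl fun i hi => ?_
          rw [h1 i hi, h2]
      have h4 : ∑ p ∈ prf s, U.hs (f p.1 * g p.1) (f p.2 * g p.2) =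
          ∑ i ∈ s, ∑ k ∈ s.erase i, U.hs (f i) (g k) + ∑ p ∈ prf s, U.hs (g p.1) (g p.2) := by
        have h40 : ∀ p ∈ prf s, U.hs (f p.1 * g p.1) (f p.2 * g p.2) = U.hs (f p.1) (f p.2) +
            ((U.hs (f p.1) (g p.2) + U.hs (f p.2) (g p.1)) + U.hs (g p.1) (g p.2)) := by
          intro p hp
          have ha := hg0 _ (mem_prf.1 hp).1.1
          have hb := hg0 _ (mem_prf.1 hp).1.2
          rw [U.hs_mul_left _ _ _ (hf0 _) ha (mul_ne_zero (hf0 _) hb),
            U.hs_mul_right _ _ _ (hf0 _) (hf0 _) hb, U.hs_mul_right _ _ _ ha (hf0 _) hb,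
            hsym (g p.1) (f p.2) ha (hf0 _)]
          ring
        have h41 : ∑ p ∈ prf s, U.hs (f p.1) (f p.2) = 0 := by
          rw [← ih]
          refine Finset.sum_congr rfl fun p _ => ?_
          rw [hf, hf]
        rw [Finset.sum_congr rfl h40, Finset.sum_add_distrib, Finset.sum_add_distrib, h41,
          zero_add, sum_prf s fun i k => U.hs (f i) (g k)]
      have h5 : ∀ y : M, y ≠ 0 → U.hs y (∏ k ∈ s, (-g k)) = ∑ k ∈ s, U.hs y (-g k) := fun y hy =>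
        U.sy.prod_right s (fun k => -g k) hng0 hy
      have h6 : ∑ i ∈ s, U.hs (f i * g i) (∏ k ∈ s, (-g k)) =
          (∑ i ∈ s, ∑ k ∈ s, U.hs (f i) (g k) + ∑ i ∈ s, ∑ k ∈ s, U.hs (f i) (-1)) +
            ∑ i ∈ s, ∑ k ∈ s, U.hs (g i) (-g k) := by
        have h60 : ∀ i ∈ s, U.hs (f i * g i) (∏ k ∈ s, (-g k)) =
            (∑ k ∈ s, U.hs (f i) (g k) + ∑ k ∈ s, U.hs (f i) (-1)) +
              ∑ k ∈ s, U.hs (g i) (-g k) := by
          intro i hi
          rw [U.hs_mul_left _ _ _ (hf0 i) (hg0 i hi) (Finset.prod_ne_zero_iff.2 hng0),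
            h5 _ (hf0 i), h5 _ (hg0 i hi)]
          congr 1
          rw [← Finset.sum_add_distrib]
          exact Finset.sum_congr rfl fun k hk => hneg _ _ (hf0 i) (hg0 k hk)
        rw [Finset.sum_congr rfl h60, Finset.sum_add_distrib, Finset.sum_add_distrib]
      have h7 : ∑ i ∈ s, ∑ k ∈ s, U.hs (g i) (-g k) =
          ∑ i ∈ s, ∑ k ∈ s.erase i, U.hs (g i) (-1) := by
        have h8 : ∀ i ∈ s, ∑ k ∈ s, U.hs (g i) (-g k) =
            ∑ k ∈ s.erase i, U.hs (g i) (g k) + ∑ k ∈ s.erase i, U.hs (g i) (-1) := by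
          intro i hi
          rw [← Finset.add_sum_erase s _ hi, U.sy_neg_right' (hg0 i hi), zero_add,
            ← Finset.sum_add_distrib]
          exact Finset.sum_congr rfl fun k hk =>
            hneg _ _ (hg0 i hi) (hg0 k (Finset.mem_of_mem_erase hk))
        rw [Finset.sum_congr rfl h8, Finset.sum_add_distrib, ← sum_prf s fun i k => U.hs (g i) (g k)]
        have h9 : ∑ p ∈ prf s, (U.hs (g p.1) (g p.2) + U.hs (g p.2) (g p.1)) = 0 := by
          refine Finset.sum_eq_zero fun p hp => ?_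
          rw [hsym (g p.2) (g p.1) (hg0 _ (mem_prf.1 hp).1.2) (hg0 _ (mem_prf.1 hp).1.1)]
          exact CharTwo.add_self_eq_zero _
        rw [h9, zero_add]
      have h10 : ∀ i ∈ s, ∑ k ∈ s, U.hs (f i) (g k) =
          ∑ k ∈ s.erase i, U.hs (A i - A k) (g i) + ∑ k ∈ s.erase i, U.hs (f i) (g k) := by
        intro i hi
        rw [← Finset.add_sum_erase s _ hi]
        congr 1
        rw [hf]
        exact U.sy.prod_left (s.erase i) (fun k => A i - A k)
          (fun k hk => hdiff _ _ (Finset.ne_of_mem_erase hk).symm) (hg0 i hi)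
      have h11' : ∑ i ∈ s, ∑ k ∈ s.erase i, U.hs (A i - A k) (g i) =
          ∑ p ∈ prf s, U.hs (g p.1) (g p.2) + ∑ i ∈ s, ∑ k ∈ s.erase i, U.hs (g i) (-1) := by
        rw [← sum_prf s fun i k => U.hs (A i - A k) (g i), ← sum_prf s fun i k => U.hs (g i) (-1),
          ← Finset.sum_add_distrib]
        refine Finset.sum_congr rfl fun p hp => ?_
        have ha := hg0 _ (mem_prf.1 hp).1.1
        have hb := hg0 _ (mem_prf.1 hp).1.2
        have hh := hdiff _ _ (mem_prf.1 hp).2.ne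
        have hst := U.sy.hom (x := g p.2) (y := A p.1 - A p.2) (z := g p.1) hb hh ha (by
          rw [hg, hg]
          ring)
        simp only [U.sy_apply] at hst
        have hself : U.hs (g p.1) (g p.1) = U.hs (g p.1) (-1) := U.sy.self ha
        have hn : U.hs (A p.2 - A p.1) (g p.2) = U.hs (A p.1 - A p.2) (g p.2) + U.hs (g p.2) (-1) := by
          rw [← neg_sub, hsym _ _ (neg_ne_zero.2 hh) hb, hneg _ _ hb hh,
            hsym _ _ hb hh]
        rw [hn, hsym _ _ hh ha, hsym _ _ hh hb]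
        rw [hself, hsym (g p.2) (g p.1) hb ha] at hst
        have c1 := CharTwo.add_self_eq_zero (U.hs (g p.1) (g p.2))
        have c2 := CharTwo.add_self_eq_zero (U.hs (g p.1) (A p.1 - A p.2))
        have c3 := CharTwo.add_self_eq_zero (U.hs (g p.1) (-1))
        linear_combination hst - c1 + c2 - c3 + c1
      have h12 : ∑ i ∈ s, ∑ k ∈ s, U.hs (f i) (-1) = 0 := by
        rw [Finset.sum_comm]
        refine Finset.sum_eq_zero fun _ _ => ?_
        have h13 : ∀ i ∈ s, U.hs (f i) (-1) = ∑ k ∈ s.erase i, U.hs (A i - A k) (-1) := by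
          intro i _
          rw [hf]
          exact U.sy.prod_left (s.erase i) (fun k => A i - A k)
            (fun k hk => hdiff _ _ (Finset.ne_of_mem_erase hk).symm) hone
        rw [Finset.sum_congr rfl h13, ← sum_prf s fun i k => U.hs (A i - A k) (-1)]
        refine Finset.sum_eq_zero fun p hp => ?_
        have hh := hdiff _ _ (mem_prf.1 hp).2.ne
        have hn : U.hs (A p.2 - A p.1) (-1) = U.hs (A p.1 - A p.2) (-1) := by
          rw [← neg_sub, hsym _ _ (neg_ne_zero.2 hh) hone, hneg _ _ hone hh,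
            hsym _ _ hone hh, h11, add_zero]
        rw [hn]
        exact CharTwo.add_self_eq_zero _
      rw [h3, h4, h6, h7, h12, Finset.sum_congr rfl h10, Finset.sum_add_distrib, h11']
      have c1 := CharTwo.add_self_eq_zero (∑ i ∈ s, ∑ k ∈ s.erase i, U.hs (f i) (g k))
      have c2 := CharTwo.add_self_eq_zero (∑ p ∈ prf s, U.hs (g p.1) (g p.2))
      have c3 := CharTwo.add_self_eq_zero (∑ i ∈ s, ∑ k ∈ s.erase i, U.hs (g i) (-1))
      linear_combination c1 + c2 + c3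
  exact key s

theorem sum_phL {A : Fin m → M} : ∑ i, phL v A i = 0 := by
  unfold phL
  refine sum_ph (H := fun i k => (vl v (A i - A k) : ZMod 2)) fun i k => ?_
  rw [← neg_sub, vl_neg]

theorem p2 {A : Fin m → M} (hA : ∀ i k, i ≠ k → A i ≠ A k) :
    dot (phL v A) (psL U A) + U.un (-1) * c2 (phL v A) = 0 := by
  have hdiff : ∀ i k, i ≠ k → A i - A k ≠ 0 := fun i k h => sub_ne_zero.2 (hA i k h)
  have hvl : ∀ i, (vl v (∏ k ∈ Finset.univ.erase i, (A i - A k)) : ZMod 2) = phL v A i := by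
    intro i
    rw [vl_prod _ _ fun k hk => hdiff _ _ (Finset.ne_of_mem_erase hk).symm, phL]
    push_cast
    rfl
  have hun : ∀ i, U.un (∏ k ∈ Finset.univ.erase i, (A i - A k)) = psL U A i := by
    intro i
    rw [U.un_prod _ _ fun k hk => hdiff _ _ (Finset.ne_of_mem_erase hk).symm, psL]
  have h1 := p2_id U hA Finset.univ
  have h2 : (Finset.univ ×ˢ Finset.univ : Finset (Fin m × Fin m)).filter (fun p => p.1 < p.2) =
      prs m := by
    rw [prs, Finset.univ_product_univ]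
  rw [h2] at h1
  have h3 : ∀ p ∈ prs m, U.hs (∏ k ∈ Finset.univ.erase p.1, (A p.1 - A k))
      (∏ k ∈ Finset.univ.erase p.2, (A p.2 - A k)) =
      (psL U A p.1 * phL v A p.2 + psL U A p.2 * phL v A p.1) +
        U.un (-1) * (phL v A p.1 * phL v A p.2) := by
    intro p _
    rw [LU.hs, hvl, hvl, hun, hun, CharTwo.sub_eq_add]
    ring
  rw [Finset.sum_congr rfl h3, Finset.sum_add_distrib,
    sum_prs2 fun i k => psL U A i * phL v A k, ← Finset.mul_sum] at h1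
  have h4 : ∀ i : Fin m, ∑ k ∈ Finset.univ.erase i, psL U A i * phL v A k =
      phL v A i * psL U A i := by
    intro i
    rw [← Finset.mul_sum]
    have h6 := Finset.add_sum_erase Finset.univ (phL v A) (Finset.mem_univ i)
    rw [sum_phL] at h6
    have h7 := eq_neg_of_add_eq_zero_right h6
    rw [CharTwo.neg_eq] at h7
    rw [h7, mul_comm]
  rw [Finset.sum_congr rfl fun i _ => h4 i] at h1
  exact h1

end

theorem exists_W2 {M : Type} [Field M] [hv : Valued M ℤᵐ⁰] [CompleteSpace M] {m : ℕ}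
    (U : LU (Valued.v : Valuation M ℤᵐ⁰) 2)
    (h2 : (Valued.v : Valuation M ℤᵐ⁰) ((2 : ℕ) : M) = 1) {ϖ : M}
    (hϖ : (Valued.v : Valuation M ℤᵐ⁰) ϖ = exp (-1 : ℤ)) (hm : Nat.Coprime m 2) {α : ℕ}
    (hα : 2 ∣ α * m + 1) {A : Fin m → M} (hA : ∀ i k, i ≠ k → A i ≠ A k) :
    ∃ W : ZMod 2 → ZMod 2 → Submodule (ZMod 2) (XX m 2 × XX m 2),
      (∀ a b, Nat.card (W a b) = Nat.card (XX m 2) ∧
        ∀ g ∈ W a b, qf (U.un (-1)) (phL Valued.v A) (psL U A) g = 0) ∧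
      ∀ D : M, D ≠ 0 → Gam U α D A ≤ W (vl Valued.v D : ZMod 2) (U.un D) := by
  classical
  have hV : Nat.card (XX m 2 × XX m 2) = Nat.card (XX m 2) ^ 2 := by
    rw [Nat.card_prod, pow_two]
  obtain ⟨U0, hU0, hU0c⟩ := exists_U hm (U.un (-1)) (φ := phL Valued.v A) (ψ := psL U A)
    sum_phL (p2 U hA)
  have key : ∀ a b : ZMod 2, ∃ W : Submodule (ZMod 2) (XX m 2 × XX m 2),
      (Nat.card W = Nat.card (XX m 2) ∧
        ∀ g ∈ W, qf (U.un (-1)) (phL Valued.v A) (psL U A) g = 0) ∧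
      ∀ D : M, D ≠ 0 → (vl (Valued.v : Valuation M ℤᵐ⁰) D : ZMod 2) = a → U.un D = b →
        Gam U α D A ≤ W := by
    intro a b
    by_cases h : ∃ D : M, D ≠ 0 ∧ (vl (Valued.v : Valuation M ℤᵐ⁰) D : ZMod 2) = a ∧ U.un D = b
    · obtain ⟨D, hD, ha, hb⟩ := h
      obtain ⟨W, hΓ, hW, hWc⟩ := qs_ext (ee m 2 (U.un (-1)))
        (qf (U.un (-1)) (phL Valued.v A) (psL U A)) (qf_add _ _ _)
        (fun x hx => ee_nondeg hm _ x hx) (Gam U α D A) U0
        (fun w hw => p1_gam U hϖ hm hα hD hA hw) hU0 (by rw [hU0c, hV])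
      rw [hV] at hWc
      refine ⟨W, ⟨?_, hW⟩, fun D' hD' ha' hb' => ?_⟩
      · exact (Nat.pow_left_injective two_ne_zero) hWc
      · exact (gam_le U h2 hϖ hD' hD (by rw [ha', ha]) (by rw [hb', hb]) A).trans hΓ
    · exact ⟨U0, ⟨hU0c, hU0⟩, fun D hD ha hb => absurd ⟨D, hD, ha, hb⟩ h⟩
  choose W hW using key
  exact ⟨W, fun a b => (hW a b).1, fun D hD => (hW _ _).2 D hD rfl rfl⟩

end Pool.Agent.H94.PM
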