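import Pool.Agent.H94.PM.DC
import Pool.Agent.H94.PM.QF

set_option autoImplicit false

/-!
# [H94 PM RED] The global quadratic form, `ℓ = 2`: definitions, first formula

`S = pf (dl A)`, `e0 = χ.lg (-1)`, `d v = deg v`, `X = XX m 2`; all values in `ZMod 2`, signs do not matter.
* `Qr_add`: `c2_add`, bilinearity, `BB_dot`.
* `Er_nondeg`: take `z'` with one nonzero component (`BB_good`).
* `sum_phV`: `∑ v, d v * mlt v i k = deg (A i - A k)`: `A i - A k` divides `dl A`, so `A i - A k` is a constant times the product of the `v ^ mult`, `v ∈ S`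
  (for a general nonzero polynomial `G`: `natDegree = ∑ over the monic irreducible factors of degree * multiplicity`, e.g. `UniqueFactorizationMonoid.normalizedFactors` or
  induction; if `v ∤ G` the multiplicity is `0`).
* `psV_eq`: `psV v = d v * psI + ∑ v' ≠ v, lm v' v * phV v'` (interchange the sums).
* `id1`: `z = (ε, ξ)`, `κ = ε.1`, `y v = ε.2 v`, `x = ξ.1`, `ζ v = ξ.2 v`, `u v = (locv v z).2 = d v κ + ∑ v' ≠ v, lm v' v y v' + ζ v + e0 d v x`, `a = (loci z).1 = ∑ d v y v + x`.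
  RHS `= ∑ v, [y v · u v + e0 d v c2 (y v) + u v · φ v + y v · ψ v + e0 d v y v · φ v] + [a · κ + e0 c2 a + κ · φ∞ + a · ψ∞ + e0 a · φ∞]`.
  (1) `∑ y v · u v = ∑ d v y v · κ + ∑_{v ≠ v'} lm v' v y v · y v' + ∑ y v · ζ v + e0 ∑ d v y v · x`; the second sum is `e0 ∑_{v < v'} d v d v' y v · y v'` (`lm_recip'`; with some order, or use
  `∑_{v ≠ v'} lm v' v y v · y v'` and `c2 (∑ v, d v y v) = ∑ d v c2 (y v) + (pairs)`).  `c2 a = ∑ d v c2 (y v) + ∑_{v < v'} d v d v' y v · y v' + ∑ d v y v · x + c2 x`.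
  So (1) `+ e0 ∑ d v c2 (y v) + a · κ + e0 c2 a = ∑ y v · ζ v + x · κ + e0 c2 x`.
  (2) `∑ u v · φ v + κ · φ∞ = ∑_{v ≠ v'} lm v' v y v' · φ v + ∑ ζ v · φ v + e0 x · φ∞` (`sum_phV`).
  (3) `∑ y v · ψ v + a · ψ∞ = ∑_{v ≠ v'} lm v' v y v · φ v' + x · ψ∞` (`psV_eq`).
  (4) (2) + (3) + `e0 ∑ d v y v · φ v + e0 a · φ∞`: the two double sums give `e0 ∑_{v ≠ v'} d v d v' y v' · φ v`, with the next term `e0 ∑_{v, v'} d v d v' y v' · φ v = e0 ∑ d v' y v' · φ∞`
  (`d v * d v = d v`), and `e0 a · φ∞ = e0 ∑ d v y v · φ∞ + e0 x · φ∞`.  The total is `∑ ζ v · φ v + x · ψ∞`.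
-/

namespace Pool.Agent.H94.PM

open Polynomial
open Pool.Agent.H94.PL
open Pool.Agent.H94.PC (Mo Sq Pr pf om Mn mem_Mo mem_Sq mem_Pr mem_pf mem_pf')

variable {F : Type} [Field F] [Finite F] {m : ℕ} (χ : LChar F 2) (A : Fin m → F[X])

/-- valuations of the derivatives at `v` -/
noncomputable def phV (v : pf (dl A)) (i : Fin m) : ZMod 2 :=
  ∑ k ∈ Finset.univ.erase i, mlt 2 A v.1 i k

open Classical in
/-- unit logarithms of the derivatives at `v` -/
noncomputable def psV (v : pf (dl A)) (i : Fin m) : ZMod 2 :=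
  ∑ k ∈ Finset.univ.erase i, ((v.1.natDegree : ZMod 2) * Hs χ A i k +
    ∑ v' ∈ Finset.univ.erase v, mlt 2 A v'.1 i k * lm χ v'.1 v.1)

/-- valuations of the derivatives at infinity -/
noncomputable def phI (i : Fin m) : ZMod 2 :=
  ∑ k ∈ Finset.univ.erase i, ((A i - A k).natDegree : ZMod 2)

/-- unit logarithms of the derivatives at infinity -/
noncomputable def psI (i : Fin m) : ZMod 2 := ∑ k ∈ Finset.univ.erase i, Hs χ A i k

/-- the quadratic form -/
noncomputable def Qr (z : EE (XX m 2) (pf (dl A)) × EE (XX m 2) (pf (dl A))) : ZMod 2 :=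
  BB m 2 z.1.1 z.2.1 + ∑ v, BB m 2 (z.1.2 v) (z.2.2 v) + χ.lg (-1) * c2 z.2.1.1 +
    ∑ v, dot (z.2.2 v).1 (phV A v) + dot z.2.1.1 (psI χ A)

/-- its polar form -/
noncomputable def Er :
    (EE (XX m 2) (pf (dl A)) × EE (XX m 2) (pf (dl A))) →ₗ[ZMod 2]
      (EE (XX m 2) (pf (dl A)) × EE (XX m 2) (pf (dl A))) →ₗ[ZMod 2] ZMod 2 :=
  LinearMap.mk₂ (ZMod 2)
    (fun z z' => BB m 2 z.1.1 z'.2.1 + ∑ v, BB m 2 (z.1.2 v) (z'.2.2 v) +
      (BB m 2 z.2.1 z'.1.1 + ∑ v, BB m 2 (z.2.2 v) (z'.1.2 v)) +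
      χ.lg (-1) * BB m 2 z.2.1 z'.2.1)
    (fun u u' w => by
      simp only [Prod.snd_add, Prod.fst_add, Pi.add_apply, map_add, LinearMap.add_apply,
        Finset.sum_add_distrib]
      ring)
    (fun c u w => by
      simp only [Prod.smul_snd, Prod.smul_fst, Pi.smul_apply, map_smul, LinearMap.smul_apply,
        smul_eq_mul, Finset.mul_sum, mul_add]
      ring)
    (fun u w w' => by
      simp only [Prod.snd_add, Prod.fst_add, Pi.add_apply, map_add, LinearMap.add_apply,
        Finset.sum_add_distrib]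
      ring)
    (fun c u w => by
      simp only [Prod.smul_snd, Prod.smul_fst, Pi.smul_apply, map_smul, LinearMap.smul_apply,
        smul_eq_mul, Finset.mul_sum, mul_add]
      ring)

private theorem red_two : (2 : ZMod 2) = 0 := rfl

theorem Qr_add (z z' : EE (XX m 2) (pf (dl A)) × EE (XX m 2) (pf (dl A))) :
    Qr χ A (z + z') = Qr χ A z + Qr χ A z' + Er χ A z z' := by
  have h1 : Er χ A z z' = BB m 2 z.1.1 z'.2.1 + ∑ v, BB m 2 (z.1.2 v) (z'.2.2 v) +
      (BB m 2 z.2.1 z'.1.1 + ∑ v, BB m 2 (z.2.2 v) (z'.1.2 v)) +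
      χ.lg (-1) * BB m 2 z.2.1 z'.2.1 := rfl
  have h2 : (z + z').2.1.1 = z.2.1.1 + z'.2.1.1 := rfl
  rw [h1, Qr, Qr, Qr, h2, c2_add z.2.1.2 z'.2.1.2, ← BB_dot z.2.1 z'.2.1]
  simp only [Submodule.coe_add, dot_add_left, Prod.fst_add, Prod.snd_add, Pi.add_apply, map_add,
    LinearMap.add_apply, Finset.sum_add_distrib]
  have h4 : ∑ v, BB m 2 (z'.1.2 v) (z.2.2 v) = ∑ v, BB m 2 (z.2.2 v) (z'.1.2 v) :=
    Finset.sum_congr rfl fun v _ => BB_symm _ _
  rw [h4, BB_symm z'.1.1 z.2.1]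
  ring

theorem Er_nondeg (hm : Nat.Coprime m 2)
    (z : EE (XX m 2) (pf (dl A)) × EE (XX m 2) (pf (dl A)))
    (h : ∀ z', Er χ A z z' = 0) : z = 0 := by
  classical
  have hB := BB_good (ℓ := 2) hm
  have hE : ∀ z' : EE (XX m 2) (pf (dl A)) × EE (XX m 2) (pf (dl A)), BB m 2 z.1.1 z'.2.1 + ∑ v, BB m 2 (z.1.2 v) (z'.2.2 v) +
      (BB m 2 z.2.1 z'.1.1 + ∑ v, BB m 2 (z.2.2 v) (z'.1.2 v)) +
      χ.lg (-1) * BB m 2 z.2.1 z'.2.1 = 0 := h
  have hs : ∀ (f : pf (dl A) → XX m 2) (v : pf (dl A)) (w : XX m 2),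
      ∑ v', BB m 2 (f v') ((Pi.single v w : pf (dl A) → XX m 2) v') = BB m 2 (f v) w := by
    intro f v w
    rw [Finset.sum_eq_single v]
    · rw [Pi.single_eq_same]
    · intro v' _ hv
      rw [Pi.single_eq_of_ne hv, map_zero]
    · intro h'
      exact absurd (Finset.mem_univ _) h'
  have hx : z.2.1 = 0 := hB.nondeg _ fun w => by
    have h1 := hE ((w, 0), (0, 0))
    simpa using h1
  have hk : z.1.1 = 0 := hB.nondeg _ fun w => by
    have h1 := hE ((0, 0), (w, 0))
    rw [hx] at h1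
    simpa using h1
  have hy : ∀ v, z.1.2 v = 0 := fun v => hB.nondeg _ fun w => by
    have h1 := hE ((0, 0), (0, Pi.single v w))
    have h2 := hs z.1.2 v w
    simp only [map_zero, zero_add, add_zero, Pi.zero_apply, Finset.sum_const_zero,
      mul_zero] at h1
    rw [← h2]
    exact h1
  have hz : ∀ v, z.2.2 v = 0 := fun v => hB.nondeg _ fun w => by
    have h1 := hE ((0, Pi.single v w), (0, 0))
    have h2 := hs z.2.2 v w
    simp only [map_zero, zero_add, add_zero, Pi.zero_apply, Finset.sum_const_zero,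
      mul_zero] at h1
    rw [← h2]
    exact h1
  exact Prod.ext (Prod.ext hk (funext hy)) (Prod.ext hx (funext hz))

private theorem red_deg (n : ℕ) : ∀ G : F[X], G ≠ 0 → G.natDegree = n → ∀ S : Finset F[X],
    (∀ v ∈ S, v.Monic ∧ Irreducible v) →
    (∀ v : F[X], v.Monic → Irreducible v → v ∣ G → v ∈ S) →
    G.natDegree = ∑ v ∈ S, v.natDegree * multiplicity v G := by
  classical
  induction n using Nat.strong_induction_on with
  | _ n ih =>
    intro G hG hn S hS hdiv
    by_cases hu : IsUnit G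
    · rw [natDegree_eq_zero_of_isUnit hu]
      symm
      refine Finset.sum_eq_zero fun v hv => ?_
      have h1 : ¬ v ∣ G := fun h => (hS v hv).2.not_isUnit (isUnit_of_dvd_unit h hu)
      rw [multiplicity_eq_zero.2 h1, mul_zero]
    · obtain ⟨P, hPm, hP, hPG⟩ := exists_monic_irreducible_factor G hu
      obtain ⟨G', hG'⟩ := hPG
      have hG'0 : G' ≠ 0 := by
        rintro rfl
        rw [mul_zero] at hG'
        exact hG hG'
      have hdeg : G.natDegree = P.natDegree + G'.natDegree := by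
        rw [hG', natDegree_mul hP.ne_zero hG'0]
      have hPd : 0 < P.natDegree := hP.natDegree_pos
      have h1 := ih G'.natDegree (by omega) G' hG'0 rfl S hS fun v hv hv' hvG =>
        hdiv v hv hv' (hG' ▸ hvG.mul_left P)
      have hPS : P ∈ S := hdiv P hPm hP (hG' ▸ dvd_mul_right P G')
      have h2 : ∀ v ∈ S, v.natDegree * multiplicity v G =
          (if v = P then P.natDegree else 0) + v.natDegree * multiplicity v G' := by
        intro v hv
        have h3 : multiplicity v G = multiplicity v P + multiplicity v G' := by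
          rw [hG']
          exact multiplicity_mul (hS v hv).2.prime
            (FiniteMultiplicity.of_not_isUnit (hS v hv).2.not_isUnit
              (mul_ne_zero hP.ne_zero hG'0))
        rw [h3, mul_add]
        congr 1
        by_cases hvP : v = P
        · rw [if_pos hvP, hvP]
          rw [multiplicity_self, mul_one]
        · rw [if_neg hvP]
          have h4 : ¬ v ∣ P := fun h5 => hvP (eq_of_monic_of_associated (hS v hv).1 hPm
            ((hS v hv).2.associated_of_dvd hP h5))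
          rw [multiplicity_eq_zero.2 h4, mul_zero]
      rw [Finset.sum_congr rfl h2, Finset.sum_add_distrib, Finset.sum_ite_eq' S P, if_pos hPS,
        ← h1, hdeg]

theorem sum_phV (hA : ∀ i k, i ≠ k → A i ≠ A k) (i : Fin m) :
    ∑ v : pf (dl A), (v.1.natDegree : ZMod 2) * phV A v i = phI A i := by
  unfold phV phI
  simp only [Finset.mul_sum]
  rw [Finset.sum_comm]
  refine Finset.sum_congr rfl fun k hk => ?_
  have hik : i ≠ k := (Finset.ne_of_mem_erase hk).symm
  have hdl : dl A ≠ 0 := by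
    unfold dl
    rw [Finset.prod_ne_zero_iff]
    intro p hp
    exact sub_ne_zero.2 (hA _ _ (mem_prs.1 hp).ne)
  have hgen : ∀ p ∈ prs m, A p.1 - A p.2 ∣ dl A := by
    intro p hp
    unfold dl
    exact Finset.dvd_prod_of_mem _ hp
  have h1 := red_deg (F := F) _ (A i - A k) (sub_ne_zero.2 (hA i k hik)) rfl (pf (dl A))
    (fun v hv => ⟨(mem_pf' hv).1, (mem_pf' hv).2.1⟩) (fun v hv hv' hvd => by
      rw [mem_pf hdl]
      refine ⟨hv, hv', ?_⟩
      rcases lt_or_gt_of_ne hik with h1 | h1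
      · exact dvd_trans hvd (hgen (i, k) (mem_prs.2 h1))
      · have h2 : v ∣ A k - A i := by
          rw [← neg_sub]
          exact (dvd_neg).2 hvd
        exact dvd_trans h2 (hgen (k, i) (mem_prs.2 h1)))
  rw [h1, ← Finset.sum_coe_sort (pf (dl A)) (fun v => v.natDegree * multiplicity v (A i - A k))]
  push_cast
  rfl

open Classical in
theorem psV_eq (v : pf (dl A)) (i : Fin m) : psV χ A v i =
    (v.1.natDegree : ZMod 2) * psI χ A i +
      ∑ v' ∈ Finset.univ.erase v, lm χ v'.1 v.1 * phV A v' i := by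
  unfold psV psI phV
  rw [Finset.sum_add_distrib, Finset.mul_sum, Finset.sum_comm]
  congr 1
  refine Finset.sum_congr rfl fun v' _ => ?_
  rw [Finset.mul_sum]
  exact Finset.sum_congr rfl fun k _ => mul_comm _ _

section abs
variable {S : Type} [Fintype S] [DecidableEq S]

private theorem red_dot_sl (s : Finset S) (f : S → Fin m → ZMod 2) (y : Fin m → ZMod 2) :
    dot (∑ v ∈ s, f v) y = ∑ v ∈ s, dot (f v) y := by
  unfold dot
  rw [Finset.sum_comm]
  refine Finset.sum_congr rfl fun i _ => ?_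
  rw [Finset.sum_apply, Finset.sum_mul]

private theorem red_dot_sr (s : Finset S) (f : S → Fin m → ZMod 2) (y : Fin m → ZMod 2) :
    dot y (∑ v ∈ s, f v) = ∑ v ∈ s, dot y (f v) := by
  rw [dot_comm, red_dot_sl]
  exact Finset.sum_congr rfl fun v _ => dot_comm _ _

private theorem red_dot_ml (c : ZMod 2) (x y : Fin m → ZMod 2) : dot (c • x) y = c * dot x y := by
  unfold dot
  rw [Finset.mul_sum]
  refine Finset.sum_congr rfl fun i _ => ?_
  rw [Pi.smul_apply, smul_eq_mul, mul_assoc]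

private theorem red_dot_mr (c : ZMod 2) (x y : Fin m → ZMod 2) : dot x (c • y) = c * dot x y := by
  rw [dot_comm, red_dot_ml, dot_comm]

private theorem red_c2 (e : ZMod 2) (d : S → ZMod 2) (L : S → S → ZMod 2)
    (hL : ∀ v v', L v v' + L v' v = if v = v' then 0 else e * (d v * d v'))
    (hL0 : ∀ v, L v v = 0) (Y : S → Fin m → ZMod 2) (hY : ∀ v, ∑ i, Y v i = 0) (s : Finset S) :
    ∑ i, (∑ v ∈ s, d v • Y v) i = 0 ∧
    e * c2 (∑ v ∈ s, d v • Y v) = ∑ v ∈ s, (e * d v) * c2 (Y v) +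
      ∑ v ∈ s, ∑ v' ∈ s, L v' v * dot (Y v) (Y v') := by
  induction s using Finset.induction_on with
  | empty =>
    refine ⟨by simp, ?_⟩
    have h0 : c2 (0 : Fin m → ZMod 2) = 0 := by simp [c2]
    simp only [Finset.sum_empty, h0, mul_zero, add_zero]
  | insert w s hw ih =>
    obtain ⟨ih1, ih2⟩ := ih
    have h1 : ∑ i, (d w • Y w) i = 0 := by
      simp only [Pi.smul_apply, smul_eq_mul, ← Finset.mul_sum, hY, mul_zero]
    rw [Finset.sum_insert hw]
    refine ⟨?_, ?_⟩
    · simp only [Pi.add_apply, Finset.sum_add_distrib, h1, zero_add]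
      exact ih1
    · rw [c2_add h1 ih1, c2_smul, mul_add, mul_add, ih2, Finset.sum_insert hw,
        Finset.sum_insert hw, Finset.sum_insert hw, hL0, zero_mul, zero_add]
      have h2 : ∑ v ∈ s, ∑ v' ∈ insert w s, L v' v * dot (Y v) (Y v') =
          ∑ v ∈ s, L w v * dot (Y v) (Y w) +
            ∑ v ∈ s, ∑ v' ∈ s, L v' v * dot (Y v) (Y v') := by
        rw [← Finset.sum_add_distrib]
        exact Finset.sum_congr rfl fun v _ => Finset.sum_insert hw
      have h3 : e * dot (d w • Y w) (∑ v ∈ s, d v • Y v) =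
          ∑ v' ∈ s, L v' w * dot (Y w) (Y v') + ∑ v ∈ s, L w v * dot (Y v) (Y w) := by
        rw [red_dot_ml, red_dot_sr, Finset.mul_sum, Finset.mul_sum, ← Finset.sum_add_distrib]
        refine Finset.sum_congr rfl fun v hv => ?_
        have hne : w ≠ v := by
          rintro rfl
          exact hw hv
        have h4 := hL w v
        rw [if_neg hne] at h4
        rw [red_dot_mr, dot_comm (Y v) (Y w)]
        linear_combination (-dot (Y w) (Y v)) * h4
      rw [h2, h3]
      ring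

private theorem red_abs (e : ZMod 2) (d : S → ZMod 2) (L : S → S → ZMod 2)
    (hL : ∀ v v', L v v' + L v' v = if v = v' then 0 else e * (d v * d v'))
    (hL0 : ∀ v, L v v = 0) (Y Z φ ψ u : S → Fin m → ZMod 2) (hY : ∀ v, ∑ i, Y v i = 0)
    (K X φI ψI a : Fin m → ZMod 2) (hX : ∑ i, X i = 0)
    (hφ : φI = ∑ v, d v • φ v) (hψ : ∀ v, ψ v = d v • ψI + ∑ v', L v' v • φ v')
    (hu : ∀ v, u v = d v • K + ∑ v', L v' v • Y v' + Z v + (e * d v) • X)
    (ha : a = ∑ v, d v • Y v + X) :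
    dot K X + ∑ v, dot (Y v) (Z v) + e * c2 X + ∑ v, dot (Z v) (φ v) + dot X ψI =
      ∑ v, (dot (Y v) (u v) + (e * d v) * c2 (Y v) + dot (u v) (φ v) + dot (Y v) (ψ v) +
        (e * d v) * dot (Y v) (φ v)) +
      (dot a K + e * c2 a + dot K φI + dot a ψI + e * dot a φI) := by
  have hd : ∀ v, d v * d v = d v := fun v => by
    have h : ∀ c : ZMod 2, c * c = c := by decide
    exact h _
  obtain ⟨hs0, hs⟩ := red_c2 e d L hL hL0 Y hY Finset.univ
  have hu1 : ∀ v, dot (Y v) (u v) = d v * dot (Y v) K + ∑ v', L v' v * dot (Y v) (Y v') +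
      dot (Y v) (Z v) + (e * d v) * dot (Y v) X := by
    intro v
    rw [hu]
    simp only [dot_add_right, red_dot_mr, red_dot_sr]
  have hu2 : ∀ v, dot (u v) (φ v) = d v * dot K (φ v) + ∑ v', L v' v * dot (Y v') (φ v) +
      dot (Z v) (φ v) + (e * d v) * dot X (φ v) := by
    intro v
    rw [hu]
    simp only [dot_add_left, red_dot_ml, red_dot_sl]
  have hp : ∀ v, dot (Y v) (ψ v) = d v * dot (Y v) ψI + ∑ v', L v' v * dot (Y v) (φ v') := by
    intro v
    rw [hψ]
    simp only [dot_add_right, red_dot_mr, red_dot_sr]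
  have hc : e * c2 a = ∑ v, (e * d v) * c2 (Y v) +
      ∑ v, ∑ v', L v' v * dot (Y v) (Y v') + e * c2 X + ∑ v, (e * d v) * dot (Y v) X := by
    rw [ha, c2_add hs0 hX, mul_add, mul_add, hs, red_dot_sl, Finset.mul_sum]
    congr 1
    refine Finset.sum_congr rfl fun v _ => ?_
    rw [red_dot_ml, mul_assoc]
  have haK : dot a K = ∑ v, d v * dot (Y v) K + dot K X := by
    rw [ha, dot_add_left, red_dot_sl, dot_comm X K]
    simp only [red_dot_ml]
  have hKφ : dot K φI = ∑ v, d v * dot K (φ v) := by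
    rw [hφ, red_dot_sr]
    simp only [red_dot_mr]
  have haψ : dot a ψI = ∑ v, d v * dot (Y v) ψI + dot X ψI := by
    rw [ha, dot_add_left, red_dot_sl]
    simp only [red_dot_ml]
  have haφ : e * dot a φI = (∑ v, ∑ v', L v' v * dot (Y v') (φ v) +
      ∑ v, ∑ v', L v' v * dot (Y v) (φ v') + ∑ v, (e * d v) * dot (Y v) (φ v)) +
      ∑ v, (e * d v) * dot X (φ v) := by
    have h1 : dot a φI = ∑ v, ∑ v', (d v * d v') * dot (Y v) (φ v') +
        ∑ v, d v * dot X (φ v) := by
      rw [ha, hφ, dot_add_left, red_dot_sl, red_dot_sr]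
      congr 1
      · refine Finset.sum_congr rfl fun v _ => ?_
        rw [red_dot_ml, red_dot_sr, Finset.mul_sum]
        refine Finset.sum_congr rfl fun v' _ => ?_
        rw [red_dot_mr, mul_assoc]
      · exact Finset.sum_congr rfl fun v _ => red_dot_mr _ _ _
    have h2 : ∑ v, ∑ v', L v' v * dot (Y v') (φ v) = ∑ v, ∑ v', L v v' * dot (Y v) (φ v') :=
      Finset.sum_comm
    have h3 : ∑ v, (e * d v) * dot (Y v) (φ v) =
        ∑ v, ∑ v', (if v = v' then e * (d v * d v') else 0) * dot (Y v) (φ v') := by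
      refine Finset.sum_congr rfl fun v _ => ?_
      rw [Finset.sum_eq_single v]
      · rw [if_pos rfl, hd]
      · intro v' _ hv
        rw [if_neg (Ne.symm hv), zero_mul]
      · intro h
        exact absurd (Finset.mem_univ _) h
    have h5 : e * ∑ v, ∑ v', (d v * d v') * dot (Y v) (φ v') =
        ∑ v, ∑ v', L v v' * dot (Y v) (φ v') + ∑ v, ∑ v', L v' v * dot (Y v) (φ v') +
          ∑ v, ∑ v', (if v = v' then e * (d v * d v') else 0) * dot (Y v) (φ v') := by
      rw [Finset.mul_sum, ← Finset.sum_add_distrib, ← Finset.sum_add_distrib]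
      refine Finset.sum_congr rfl fun v _ => ?_
      rw [Finset.mul_sum, ← Finset.sum_add_distrib, ← Finset.sum_add_distrib]
      refine Finset.sum_congr rfl fun v' _ => ?_
      have h4 := hL v v'
      by_cases hv : v = v'
      · rw [if_pos hv] at h4 ⊢
        linear_combination (-dot (Y v) (φ v')) * h4
      · rw [if_neg hv] at h4 ⊢
        linear_combination (-dot (Y v) (φ v')) * h4
    have h6 : e * ∑ v, d v * dot X (φ v) = ∑ v, (e * d v) * dot X (φ v) := by
      rw [Finset.mul_sum]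
      exact Finset.sum_congr rfl fun v _ => (mul_assoc _ _ _).symm
    rw [h1, h2, h3, mul_add, h5, h6]
  rw [hc, haK, hKφ, haψ, haφ]
  simp only [hu1, hu2, hp, Finset.sum_add_distrib]
  obtain ⟨s1, h1⟩ : ∃ s, s = ∑ v, d v * dot (Y v) K := ⟨_, rfl⟩
  obtain ⟨s2, h2⟩ : ∃ s, s = ∑ v, ∑ v', L v' v * dot (Y v) (Y v') := ⟨_, rfl⟩
  obtain ⟨s4, h4⟩ : ∃ s, s = ∑ v, (e * d v) * dot (Y v) X := ⟨_, rfl⟩
  obtain ⟨s5, h5⟩ : ∃ s, s = ∑ v, (e * d v) * c2 (Y v) := ⟨_, rfl⟩
  obtain ⟨s6, h6⟩ : ∃ s, s = ∑ v, d v * dot K (φ v) := ⟨_, rfl⟩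
  obtain ⟨s7, h7⟩ : ∃ s, s = ∑ v, ∑ v', L v' v * dot (Y v') (φ v) := ⟨_, rfl⟩
  obtain ⟨s9, h9⟩ : ∃ s, s = ∑ v, (e * d v) * dot X (φ v) := ⟨_, rfl⟩
  obtain ⟨s10, h10⟩ : ∃ s, s = ∑ v, d v * dot (Y v) ψI := ⟨_, rfl⟩
  obtain ⟨s11, h11⟩ : ∃ s, s = ∑ v, ∑ v', L v' v * dot (Y v) (φ v') := ⟨_, rfl⟩
  obtain ⟨s12, h12⟩ : ∃ s, s = ∑ v, (e * d v) * dot (Y v) (φ v) := ⟨_, rfl⟩
  rw [← h1, ← h2, ← h4, ← h5, ← h6, ← h7, ← h9, ← h10, ← h11, ← h12]
  linear_combination (-(s1 + s2 + s4 + s5 + s6 + s7 + s9 + s10 + s11 + s12)) * red_two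

end abs

theorem id1 (hA : ∀ i k, i ≠ k → A i ≠ A k)
    (z : EE (XX m 2) (pf (dl A)) × EE (XX m 2) (pf (dl A))) :
    Qr χ A z = ∑ v, qf (χ.lg (-1) * (v.1.natDegree : ZMod 2)) (phV A v) (psV χ A v)
      (locv χ v z) + qf (χ.lg (-1)) (phI A) (psI χ A) (loci z) := by
  classical
  obtain ⟨L, hLd⟩ : ∃ L : pf (dl A) → pf (dl A) → ZMod 2,
      L = fun v' v => if v' = v then 0 else lm χ v'.1 v.1 := ⟨_, rfl⟩
  have hL0 : ∀ v, L v v = 0 := fun v => by rw [hLd]; exact if_pos rfl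
  have hLne : ∀ v' v, v' ≠ v → L v' v = lm χ v'.1 v.1 := fun v' v h => by
    rw [hLd]
    exact if_neg h
  have herase : ∀ (M : Type) [AddCommGroup M] [Module (ZMod 2) M] (v : pf (dl A))
      (f : pf (dl A) → M), ∑ v' ∈ Finset.univ.erase v, lm χ v'.1 v.1 • f v' =
        ∑ v', L v' v • f v' := by
    intro M _ _ v f
    rw [← Finset.add_sum_erase Finset.univ _ (Finset.mem_univ v), hL0, zero_smul, zero_add]
    exact Finset.sum_congr rfl fun v' hv' => by rw [hLne _ _ (Finset.ne_of_mem_erase hv')]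
  have key := red_abs (χ.lg (-1)) (fun v : pf (dl A) => (v.1.natDegree : ZMod 2)) L (by
      intro v v'
      by_cases hv : v = v'
      · rw [if_pos hv, hv, hL0, add_zero]
      · rw [if_neg hv, hLne _ _ hv, hLne _ _ (Ne.symm hv)]
        have h1 := mem_pf' v.2
        have h2 := mem_pf' v'.2
        have hcop : IsCoprime v.1 v'.1 := by
          rw [h1.2.1.coprime_iff_not_dvd]
          intro h3
          exact hv (Subtype.ext (eq_of_monic_of_associated h1.1 h2.1
            (h1.2.1.associated_of_dvd h2.2.1 h3)))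
        rw [lm_recip' χ h1.1 h2.1 hcop]
        linear_combination (lm χ v'.1 v.1) * red_two) hL0
    (fun v => (z.1.2 v).1) (fun v => (z.2.2 v).1) (phV A) (psV χ A)
    (fun v => (locv χ v z).2.1) (fun v => (z.1.2 v).2) z.1.1.1 z.2.1.1 (phI A) (psI χ A)
    (loci z).1.1 z.2.1.2 (by
      funext i
      rw [← sum_phV A hA i, Finset.sum_apply]
      rfl) (by
      intro v
      funext i
      have h1 := herase (ZMod 2) v (fun v' => phV A v' i)
      simp only [smul_eq_mul] at h1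
      rw [psV_eq, h1, Pi.add_apply, Finset.sum_apply]
      rfl) (by
      intro v
      have h1 : (locv χ v z).2 = (v.1.natDegree : ZMod 2) • z.1.1 +
        ∑ v' ∈ Finset.univ.erase v, lm χ v'.1 v.1 • z.1.2 v' + z.2.2 v +
          (χ.lg (-1) * (v.1.natDegree : ZMod 2)) • z.2.1 := rfl
      have h2 := herase (XX m 2) v z.1.2
      rw [h1, h2]
      have h3 : (∑ v', L v' v • z.1.2 v' : XX m 2).1 = ∑ v', L v' v • (z.1.2 v').1 := by
        rw [Submodule.coe_sum]
        rfl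
      rw [← h3]
      rfl) (by
      have h1 : (loci z).1 = -(∑ v : pf (dl A), (v.1.natDegree : ZMod 2) • z.1.2 v + z.2.1) := rfl
      rw [h1]
      have h3 : (∑ v : pf (dl A), (v.1.natDegree : ZMod 2) • z.1.2 v : XX m 2).1 =
          ∑ v : pf (dl A), (v.1.natDegree : ZMod 2) • (z.1.2 v).1 := by
        rw [Submodule.coe_sum]
        rfl
      rw [← h3]
      funext i
      exact CharTwo.neg_eq _)
  exact key

end Pool.Agent.H94.PM
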