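import Mathlib

set_option autoImplicit false

/-!
# [H94 PM SY] Bimultiplicative symbols with the Steinberg property

Proofs.
* `one_left`, `one_right`: `s (1 * 1) z = s 1 z + s 1 z`.
* `inv_left`: `s (x * x⁻¹) z = s 1 z = 0`; the same for `inv_right`.
* `neg_right`: `s x (-x) = 0`. If `x = 1` this is `s 1 (-1) = 0`. If `x ≠ 1` then `x⁻¹ ≠ 1`, `1 - x⁻¹ ≠ 0`,
  `1 - x = (-x) * (1 - x⁻¹)`, so `0 = s x (1 - x) = s x (-x) + s x (1 - x⁻¹)` and
  `s x (1 - x⁻¹) = - s x⁻¹ (1 - x⁻¹) = 0`.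
* `skew`: `0 = s (x y) (-(x y)) = s x (-x) + s x y + s y x + s y (-y)` (write `-(x y) = (-x) y` in the first and
  `x (-y)` in the second term), so `s x y + s y x = 0`.
* `self`: `0 = s x (-x) = s x (x * (-1)) = s x x + s x (-1)` and `s x (-1) = - s x (-1)` as
  `s x (-1) + s x (-1) = s x ((-1) * (-1)) = s x 1 = 0`; so `s x x = - s x (-1) = s x (-1)`.
* `neg_one`: `s (-1) x + s (-1) x = s 1 x = 0`.
* `hom`: `x + y = z`, all nonzero: `a = x / z`, `1 - a = y / z`, `a ≠ 0, 1`; `0 = s a (1 - a)`, expand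
  (`x / z = x * z⁻¹`): `s x y - s x z - s z y + s z z = 0`.
-/

namespace Pool.Agent.H94.PM

/-- a bimultiplicative symbol with the Steinberg property -/
structure Sy (E A : Type*) [Field E] [AddCommGroup A] where
  /-- the symbol -/
  s : E → E → A
  mul_left : ∀ x y z : E, x ≠ 0 → y ≠ 0 → z ≠ 0 → s (x * y) z = s x z + s y z
  mul_right : ∀ x y z : E, x ≠ 0 → y ≠ 0 → z ≠ 0 → s x (y * z) = s x y + s x z
  st : ∀ x : E, x ≠ 0 → x ≠ 1 → s x (1 - x) = 0

namespace Sy

variable {E A : Type*} [Field E] [AddCommGroup A] (s : Sy E A)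

theorem one_left {z : E} (hz : z ≠ 0) : s.s 1 z = 0 := by
  have h := s.mul_left 1 1 z one_ne_zero one_ne_zero hz
  rw [one_mul] at h
  exact left_eq_add.1 h

theorem one_right {z : E} (hz : z ≠ 0) : s.s z 1 = 0 := by
  have h := s.mul_right z 1 1 hz one_ne_zero one_ne_zero
  rw [one_mul] at h
  exact left_eq_add.1 h

theorem inv_left {x z : E} (hx : x ≠ 0) (hz : z ≠ 0) : s.s x⁻¹ z = -s.s x z := by
  have h := s.mul_left x⁻¹ x z (inv_ne_zero hx) hx hz
  rw [inv_mul_cancel₀ hx, s.one_left hz] at h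
  exact eq_neg_of_add_eq_zero_left h.symm

theorem inv_right {x z : E} (hx : x ≠ 0) (hz : z ≠ 0) : s.s z x⁻¹ = -s.s z x := by
  have h := s.mul_right z x⁻¹ x hz (inv_ne_zero hx) hx
  rw [inv_mul_cancel₀ hx, s.one_right hz] at h
  exact eq_neg_of_add_eq_zero_left h.symm

theorem neg_right {x : E} (hx : x ≠ 0) : s.s x (-x) = 0 := by
  by_cases h1 : x = 1
  · rw [h1]
    exact s.one_left (neg_ne_zero.2 one_ne_zero)
  · have hi : x⁻¹ ≠ 1 := fun h => h1 (inv_eq_one.1 h)
    have hs : 1 - x⁻¹ ≠ 0 := sub_ne_zero.2 (Ne.symm hi)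
    have h2 : 1 - x = (-x) * (1 - x⁻¹) := by
      rw [mul_sub, mul_one, neg_mul, mul_inv_cancel₀ hx]
      ring
    have h3 := s.st x hx h1
    rw [h2, s.mul_right x (-x) (1 - x⁻¹) hx (neg_ne_zero.2 hx) hs] at h3
    have h4 := s.st x⁻¹ (inv_ne_zero hx) hi
    rw [s.inv_left hx hs, neg_eq_zero] at h4
    rwa [h4, add_zero] at h3

theorem skew {x y : E} (hx : x ≠ 0) (hy : y ≠ 0) : s.s x y = -s.s y x := by
  have h1 := s.neg_right (mul_ne_zero hx hy)
  rw [s.mul_left x y _ hx hy (neg_ne_zero.2 (mul_ne_zero hx hy))] at h1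
  have h2 : s.s x (-(x * y)) = s.s x y := by
    rw [← neg_mul, s.mul_right x (-x) y hx (neg_ne_zero.2 hx) hy, s.neg_right hx, zero_add]
  have h3 : s.s y (-(x * y)) = s.s y x := by
    rw [← mul_neg, s.mul_right y x (-y) hy hx (neg_ne_zero.2 hy), s.neg_right hy, add_zero]
  rw [h2, h3] at h1
  exact eq_neg_of_add_eq_zero_left h1

theorem self {x : E} (hx : x ≠ 0) : s.s x x = s.s x (-1) := by
  have hm : (-1 : E) ≠ 0 := neg_ne_zero.2 one_ne_zero
  have h1 := s.neg_right hx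
  have h2 : -x = x * (-1) := by ring
  rw [h2, s.mul_right x x (-1) hx hx hm] at h1
  have h3 := s.mul_right x (-1) (-1) hx hm hm
  have h4 : (-1 : E) * (-1) = 1 := by ring
  rw [h4, s.one_right hx] at h3
  rw [eq_neg_of_add_eq_zero_left h1]
  exact (eq_neg_of_add_eq_zero_left h3.symm).symm

theorem neg_one {x : E} (hx : x ≠ 0) : s.s (-1) x + s.s (-1) x = 0 := by
  have hm : (-1 : E) ≠ 0 := neg_ne_zero.2 one_ne_zero
  have h4 : (-1 : E) * (-1) = 1 := by ring
  rw [← s.mul_left (-1) (-1) x hm hm hx, h4, s.one_left hx]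

theorem hom {x y z : E} (hx : x ≠ 0) (hy : y ≠ 0) (hz : z ≠ 0) (h : x + y = z) :
    s.s x y - s.s x z - s.s z y + s.s z z = 0 := by
  have hzi : z⁻¹ ≠ 0 := inv_ne_zero hz
  have ha : x * z⁻¹ ≠ 0 := mul_ne_zero hx hzi
  have ha1 : x * z⁻¹ ≠ 1 := by
    intro h1
    apply hy
    have h2 : x = z := by
      have := congrArg (fun t => t * z) h1
      simpa [mul_assoc, inv_mul_cancel₀ hz] using this
    rw [h2] at h
    exact left_eq_add.1 h.symm
  have h1 : 1 - x * z⁻¹ = y * z⁻¹ := by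
    rw [← h]
    have : x + y ≠ 0 := by rwa [h]
    field_simp
    ring
  have h2 := s.st (x * z⁻¹) ha ha1
  rw [h1, s.mul_left x z⁻¹ _ hx hzi (mul_ne_zero hy hzi), s.mul_right x y z⁻¹ hx hy hzi,
    s.mul_right z⁻¹ y z⁻¹ hzi hy hzi, s.inv_right hz hx, s.inv_left hz hy, s.inv_left hz hzi,
    s.inv_right hz hz, neg_neg] at h2
  rw [← h2]
  abel

theorem pow_left {x z : E} (hx : x ≠ 0) (hz : z ≠ 0) (n : ℕ) : s.s (x ^ n) z = n • s.s x z := by
  induction n with
  | zero => rw [pow_zero, zero_smul, s.one_left hz]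
  | succ n ih => rw [pow_succ, s.mul_left _ _ _ (pow_ne_zero n hx) hx hz, ih, succ_nsmul]

theorem pow_right {x z : E} (hx : x ≠ 0) (hz : z ≠ 0) (n : ℕ) : s.s z (x ^ n) = n • s.s z x := by
  induction n with
  | zero => rw [pow_zero, zero_smul, s.one_right hz]
  | succ n ih => rw [pow_succ, s.mul_right _ _ _ hz (pow_ne_zero n hx) hx, ih, succ_nsmul]

theorem prod_left {ι : Type*} (t : Finset ι) (f : ι → E) {z : E} (hf : ∀ i ∈ t, f i ≠ 0)
    (hz : z ≠ 0) : s.s (∏ i ∈ t, f i) z = ∑ i ∈ t, s.s (f i) z := by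
  classical
  induction t using Finset.induction_on with
  | empty => rw [Finset.prod_empty, Finset.sum_empty, s.one_left hz]
  | insert a t ha ih =>
    rw [Finset.prod_insert ha, Finset.sum_insert ha, s.mul_left _ _ _
      (hf a (Finset.mem_insert_self a t))
      (Finset.prod_ne_zero_iff.2 fun i hi => hf i (Finset.mem_insert_of_mem hi)) hz,
      ih fun i hi => hf i (Finset.mem_insert_of_mem hi)]

theorem prod_right {ι : Type*} (t : Finset ι) (f : ι → E) {z : E} (hf : ∀ i ∈ t, f i ≠ 0)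
    (hz : z ≠ 0) : s.s z (∏ i ∈ t, f i) = ∑ i ∈ t, s.s z (f i) := by
  classical
  induction t using Finset.induction_on with
  | empty => rw [Finset.prod_empty, Finset.sum_empty, s.one_right hz]
  | insert a t ha ih =>
    rw [Finset.prod_insert ha, Finset.sum_insert ha, s.mul_right _ _ _ hz
      (hf a (Finset.mem_insert_self a t))
      (Finset.prod_ne_zero_iff.2 fun i hi => hf i (Finset.mem_insert_of_mem hi)),
      ih fun i hi => hf i (Finset.mem_insert_of_mem hi)]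

end Sy

end Pool.Agent.H94.PM
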