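import Mathlib

set_option autoImplicit false

/-!
# [H94 PM TD] Trilinear residues

`w` is a discrete valuation on the nonzero elements of a domain `R`, `σ a b` is the symbol of the unit parts of `a`, `b`
in the residue field.  `res w σ a b c` is the residue of the symbol `{a, b, c}`.

Proofs (write `i, j, k` for `w a, w b, w c`; `w (-1) = 0` since `2 w (-1) = w 1 = 0`; `σ 1 t = 0`, `σ t 1 = 0`,
`σ (-1) t + σ (-1) t = σ 1 t = 0`, `σ t (-1) + σ t (-1) = 0`, `σ x (y z) = σ x y + σ x z` by `skew`).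
* `res_mul`: each term of `res` is additive in `(w a, σ a ·)`.
* `res_swap12`: `res a b c + res b a c = 2 i j k σ(-1,-1) + 2 i j σ(-1,c) - i k (σ(-1,b) + σ(b,-1)) - j k (σ(a,-1) + σ(-1,a))
  + k (σ(a,b) + σ(b,a)) = 0`.
* `res_swap23`: `res a b c + res a c b = 2 i j k σ(-1,-1) - 2 j k σ(a,-1) + i (σ(b,c) + σ(c,b)) = 0`.
* `res_self`: `res a a c - res a (-1) c = (i² + i) k σ(-1,-1) + (i² - i) σ(-1,c)`
  `(- i k σ(-1,a) - i k σ(a,-1) = 0)`, and `i² + i`, `i² - i` are even, `2 σ(-1,·) = 0`.
* `res_neg`: `res a (-a) c = 0`: `res a (-a) c = res a a c + res a (-1) c = 2 res a (-1) c = res a 1 c = 0`.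
* `res_hom`: `x + y = z`.
  - `w x = w y = w z`: all terms of the sum cancel except `w t • (σ x y - σ x z - σ z y + σ z z) = 0` (`eq`).
  - `w x < w y`: by `lt`, `w z = w x` and `σ z t = σ x t` for all `t ≠ 0` (also `σ t z = σ t x` by `skew`), so
    `res z · · = res x · ·`, `res · z · = res · x ·`, and the sum is `0`.
  - `w y < w x`: the same with `y + x = z`: `res z = res y` in each slot; the sum is `0`.
  - `w x = w y ≠ w z`: if `w z < w y` then `w z < w (-y)` and `z + (-y) = x` give `w x = w z`, contradiction.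
    So `w x < w z`; `(-x) + z = y` and `lt` give `w y = w (-x)`, `σ y t = σ (-x) t`; so
    `res y = res (-x)` in each slot, and the sum is `res x (-x) t - res x z t - res z (-x) t + res z z t`, where
    `res x (-x) t = 0`, `res z (-x) t = - res (-x) z t = - res x z t - res (-1) z t`,
    `res z z t = res z (-1) t = - res (-1) z t`, and `2 res (-1) z t = 0`.
-/

namespace Pool.Agent.H94.PM

variable {R A : Type*} [CommRing R] [AddCommGroup A]

/-- `w` is a valuation and `σ a b` the symbol of the unit parts -/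
structure IsRD (w : R → ℤ) (σ : R → R → A) : Prop where
  w_mul : ∀ x y : R, x ≠ 0 → y ≠ 0 → w (x * y) = w x + w y
  mul : ∀ x y z : R, x ≠ 0 → y ≠ 0 → z ≠ 0 → σ (x * y) z = σ x z + σ y z
  skew : ∀ x y : R, x ≠ 0 → y ≠ 0 → σ x y = -σ y x
  self : ∀ x : R, x ≠ 0 → σ x x = σ x (-1)
  lt : ∀ x y z : R, x ≠ 0 → y ≠ 0 → z ≠ 0 → x + y = z → w x < w y →
    w z = w x ∧ ∀ t, t ≠ 0 → σ z t = σ x t
  eq : ∀ x y z : R, x ≠ 0 → y ≠ 0 → z ≠ 0 → x + y = z → w x = w y → w z = w x →
    σ x y - σ x z - σ z y + σ z z = 0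

/-- the residue of `{a, b, c}` -/
def res (w : R → ℤ) (σ : R → R → A) (a b c : R) : A :=
  (w a * w b * w c) • σ (-1) (-1) + (w a * w b) • σ (-1) c - (w a * w c) • σ (-1) b -
    (w b * w c) • σ a (-1) + w a • σ b c - w b • σ a c + w c • σ a b

variable [IsDomain R] {w : R → ℤ} {σ : R → R → A}

private theorem td_m1 : (-1 : R) ≠ 0 := neg_ne_zero.2 one_ne_zero

private theorem td_one (h : IsRD w σ) {t : R} (ht : t ≠ 0) : σ 1 t = 0 := by
  have h1 := h.mul 1 1 t one_ne_zero one_ne_zero ht
  rw [mul_one] at h1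
  exact left_eq_add.1 h1

private theorem td_neg (h : IsRD w σ) {t : R} (ht : t ≠ 0) : σ (-1) t + σ (-1) t = 0 := by
  rw [← h.mul (-1) (-1) t td_m1 td_m1 ht, neg_one_mul, neg_neg]
  exact td_one h ht

private theorem td_neg' (h : IsRD w σ) {t : R} (ht : t ≠ 0) : σ t (-1) + σ t (-1) = 0 := by
  have h1 := td_neg h ht
  rw [h.skew _ _ td_m1 ht] at h1
  have h2 : -(σ t (-1) + σ t (-1)) = 0 := by rw [neg_add]; exact h1
  exact neg_eq_zero.1 h2

private theorem td_w1 (h : IsRD w σ) : w 1 = 0 := by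
  have h1 := h.w_mul 1 1 one_ne_zero one_ne_zero
  rw [mul_one] at h1
  omega

private theorem td_wneg (h : IsRD w σ) : w (-1) = 0 := by
  have h1 := h.w_mul (-1) (-1) td_m1 td_m1
  rw [neg_one_mul, neg_neg, td_w1 h] at h1
  omega

theorem res_mul (h : IsRD w σ) {a a' b c : R} (ha : a ≠ 0) (ha' : a' ≠ 0) (hb : b ≠ 0)
    (hc : c ≠ 0) : res w σ (a * a') b c = res w σ a b c + res w σ a' b c := by
  unfold res
  rw [h.w_mul a a' ha ha', h.mul a a' _ ha ha' td_m1, h.mul a a' _ ha ha' hb,
    h.mul a a' _ ha ha' hc]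
  module

theorem res_swap12 (h : IsRD w σ) {a b c : R} (ha : a ≠ 0) (hb : b ≠ 0) (hc : c ≠ 0) :
    res w σ a b c = -res w σ b a c := by
  have h1 := td_neg h (t := -1) td_m1
  have h2 := td_neg h hc
  have h3 := h.skew (-1) b td_m1 hb
  have h4 := h.skew a (-1) ha td_m1
  have h5 := h.skew a b ha hb
  unfold res
  linear_combination (norm := module) (w a * w b * w c) • h1 + (w a * w b) • h2
    - (w a * w c) • h3 - (w b * w c) • h4 + w c • h5

theorem res_swap23 (h : IsRD w σ) {a b c : R} (ha : a ≠ 0) (hb : b ≠ 0) (hc : c ≠ 0) :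
    res w σ a b c = -res w σ a c b := by
  have h1 := td_neg h (t := -1) td_m1
  have h2 := td_neg' h ha
  have h3 := h.skew b c hb hc
  unfold res
  linear_combination (norm := module) (w a * w b * w c) • h1 - (w b * w c) • h2 + w a • h3

theorem res_self (h : IsRD w σ) {a c : R} (ha : a ≠ 0) (hc : c ≠ 0) :
    res w σ a a c = res w σ a (-1) c := by
  have h1 := td_neg h (t := -1) td_m1
  have h2 := td_neg h hc
  have h3 := h.skew (-1) a td_m1 ha
  have h4 := h.self a ha
  obtain ⟨m, hm⟩ := Int.even_mul_succ_self (w a)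
  obtain ⟨m', hm'⟩ := Int.even_mul_pred_self (w a)
  have h5 : w a * w a + w a = m + m := by rw [← hm]; ring
  have h6 : w a * w a - w a = m' + m' := by rw [← hm']; ring
  unfold res
  rw [td_wneg h]
  have e1 : ((w a * w a + w a) * w c) • σ (-1) (-1) = 0 := by
    rw [h5]
    linear_combination (norm := module) (m * w c) • h1
  have e2 : (w a * w a - w a) • σ (-1) c = 0 := by
    rw [h6]
    linear_combination (norm := module) m' • h2
  linear_combination (norm := module) e1 + e2 - (w a * w c) • h3 + w c • h4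

private theorem td_congr (_h : IsRD w σ) {x x' b c : R} (hb : b ≠ 0) (hc : c ≠ 0)
    (hw : w x = w x') (hσ : ∀ t, t ≠ 0 → σ x t = σ x' t) :
    res w σ x b c = res w σ x' b c := by
  unfold res
  rw [hw, hσ _ td_m1, hσ _ hb, hσ _ hc]

theorem res_neg (h : IsRD w σ) {a c : R} (ha : a ≠ 0) (hc : c ≠ 0) :
    res w σ a (-a) c = 0 := by
  have hna : (-a) ≠ 0 := neg_ne_zero.2 ha
  rw [res_swap12 h ha hna hc, show -a = (-1) * a by ring, res_mul h td_m1 ha ha hc,
    res_self h ha hc, res_swap12 h td_m1 ha hc]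
  module

theorem res_hom (h : IsRD w σ) {x y z t : R} (hx : x ≠ 0) (hy : y ≠ 0) (hz : z ≠ 0)
    (ht : t ≠ 0) (hxy : x + y = z) :
    res w σ x y t - res w σ x z t - res w σ z y t + res w σ z z t = 0 := by
  have hwn : ∀ u : R, u ≠ 0 → w (-u) = w u := by
    intro u hu
    rw [show -u = (-1) * u by ring, h.w_mul _ _ td_m1 hu, td_wneg h, zero_add]
  have hnx : (-x) ≠ 0 := neg_ne_zero.2 hx
  have hny : (-y) ≠ 0 := neg_ne_zero.2 hy
  rcases lt_trichotomy (w x) (w y) with hlt | heq | hgt
  · obtain ⟨h1, h2⟩ := h.lt x y z hx hy hz hxy hlt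
    rw [td_congr h hy ht h1 h2, td_congr h hz ht h1 h2]
    module
  · by_cases hzx : w z = w x
    · have h1 := h.eq x y z hx hy hz hxy heq hzx
      unfold res
      rw [hzx, ← heq]
      linear_combination (norm := module) w t • h1
    · have hlt : w x < w z := by
        by_contra hcon
        have h2 : w z < w (-y) := by
          rw [hwn y hy]
          omega
        have h3 := (h.lt z (-y) x hz hny hx (by rw [← hxy]; ring) h2).1
        exact hzx h3.symm
      obtain ⟨h1, h2⟩ := h.lt (-x) z y hnx hz hy (by rw [← hxy]; ring)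
        (by rw [hwn x hx]; exact hlt)
      have e1 : res w σ x y t = 0 := by
        rw [res_swap12 h hx hy ht, td_congr h hx ht h1 h2, ← res_swap12 h hx hnx ht]
        exact res_neg h hx ht
      have e2 : res w σ z y t = -(res w σ (-1) z t + res w σ x z t) := by
        rw [res_swap12 h hz hy ht, td_congr h hz ht h1 h2, show -x = (-1) * x by ring,
          res_mul h td_m1 hx hz ht]
      have e3 : res w σ z z t = -res w σ (-1) z t := by
        rw [res_self h hz ht, res_swap12 h hz td_m1 ht]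
      rw [e1, e2, e3]
      module
  · obtain ⟨h1, h2⟩ := h.lt y x z hy hx hz (by rw [← hxy]; ring) hgt
    have e1 : res w σ x z t = res w σ x y t := by
      rw [res_swap12 h hx hz ht, td_congr h hx ht h1 h2, ← res_swap12 h hx hy ht]
    have e2 : res w σ z z t = res w σ z y t := by
      rw [res_swap12 h hz hz ht, td_congr h hz ht h1 h2, ← res_swap12 h hz hy ht]
    rw [e1, e2]
    module

end Pool.Agent.H94.PM
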