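import Pool.Agent.H94.PM.SY
import Pool.Agent.H94.PM.TD

set_option autoImplicit false

/-!
# [H94 PM TI] The residue data at infinity of `k[X]`

`w a = - deg a`, `σ a b = s (lc a) (lc b)`.
Proof: `leadingCoeff_mul`, `natDegree_mul`, `leadingCoeff_ne_zero`, `Sy.mul_left`, `Sy.skew`, `Sy.self`.
`lt`: `deg y < deg x`: `natDegree_add_eq_left_of_natDegree_lt`, `leadingCoeff_add_of_degree_lt'`.
`eq`: all degrees equal: `lc x + lc y = lc z` (coefficient of `x + y` at the common degree), `Sy.hom`.
-/

namespace Pool.Agent.H94.PM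

open Polynomial

variable {k A : Type*} [Field k] [AddCommGroup A]

theorem isRD_inf (s : Sy k A) : IsRD (fun x : k[X] => -(x.natDegree : ℤ))
    (fun x y : k[X] => s.s x.leadingCoeff y.leadingCoeff) := by
  refine ⟨?_, ?_, ?_, ?_, ?_, ?_⟩
  · intro x y hx hy
    rw [natDegree_mul hx hy]
    push_cast
    ring
  · intro x y z hx hy hz
    rw [leadingCoeff_mul]
    exact s.mul_left _ _ _ (leadingCoeff_ne_zero.2 hx) (leadingCoeff_ne_zero.2 hy)
      (leadingCoeff_ne_zero.2 hz)
  · intro x y hx hy
    exact s.skew (leadingCoeff_ne_zero.2 hx) (leadingCoeff_ne_zero.2 hy)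
  · intro x hx
    rw [leadingCoeff_neg, leadingCoeff_one]
    exact s.self (leadingCoeff_ne_zero.2 hx)
  · intro x y z hx hy hz hxy hlt
    have h1 : y.natDegree < x.natDegree := by omega
    have h2 : z.natDegree = x.natDegree := by
      rw [← hxy]
      exact natDegree_add_eq_left_of_natDegree_lt h1
    have h3 : z.leadingCoeff = x.leadingCoeff := by
      rw [← hxy]
      exact leadingCoeff_add_of_degree_lt' (degree_lt_degree h1)
    exact ⟨by rw [h2], fun t _ => by rw [h3]⟩
  · intro x y z hx hy hz hxy h1 h2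
    have h3 : y.natDegree = x.natDegree := by omega
    have h4 : z.natDegree = x.natDegree := by omega
    refine s.hom (leadingCoeff_ne_zero.2 hx) (leadingCoeff_ne_zero.2 hy)
      (leadingCoeff_ne_zero.2 hz) ?_
    unfold leadingCoeff
    rw [h3, h4, ← hxy, coeff_add]

end Pool.Agent.H94.PM
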