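import Pool.Agent.H94.PM.TD

set_option autoImplicit false

/-!
# [H94 PM TP] The residue data at an irreducible polynomial `p`

`IsT p T`: `T` is a symbol on the field `k[X] / p`, written with polynomials prime to `p`.
`wp p x` is the multiplicity of `p` in `x`, `up p x = x / p ^ (wp p x)` the unit part.

Proofs.  `x ≠ 0`: `x = p ^ (multiplicity) * up p x` and `¬ p ∣ up p x` (`FiniteMultiplicity.of_not_isUnit`,
`FiniteMultiplicity.exists_eq_pow_mul_and_not_dvd`, `EuclideanDomain.mul_div_cancel_left`) : `up_spec`; uniqueness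
`up_eq`: `x = p ^ i * u`, `¬ p ∣ u` gives `multiplicity p x = i`, `up p x = u`.
`isRD_p`: `up p (x y) = up p x * up p y`.
`lt`: `x = p^i u`, `y = p^j v`, `i < j`: `z = p^i (u + p^(j-i) v)`, and `u + p^(j-i) v` is congruent to `u`, so not divisible by `p`:
`IsT.congr`.  `eq`: `i = j` = multiplicity of `z`: `up z = up x + up y`: `IsT.hom`.
-/

namespace Pool.Agent.H94.PM

open Polynomial

variable {k A : Type*} [Field k] [AddCommGroup A]

/-- `T` is a symbol with the Steinberg property on the residue field of `p` -/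
structure IsT (p : k[X]) (T : k[X] → k[X] → A) : Prop where
  congr : ∀ x x' y : k[X], ¬ p ∣ x → ¬ p ∣ y → p ∣ x - x' → T x y = T x' y
  mul : ∀ x y z : k[X], ¬ p ∣ x → ¬ p ∣ y → ¬ p ∣ z → T (x * y) z = T x z + T y z
  skew : ∀ x y : k[X], ¬ p ∣ x → ¬ p ∣ y → T x y = -T y x
  self : ∀ x : k[X], ¬ p ∣ x → T x x = T x (-1)
  hom : ∀ x y z : k[X], ¬ p ∣ x → ¬ p ∣ y → ¬ p ∣ z → x + y = z →
    T x y - T x z - T z y + T z z = 0

/-- the multiplicity -/
noncomputable def wp (p x : k[X]) : ℤ := ((multiplicity p x : ℕ) : ℤ)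

/-- the unit part -/
noncomputable def up (p x : k[X]) : k[X] := x / p ^ (multiplicity p x)

theorem up_spec {p x : k[X]} (hp : Irreducible p) (hx : x ≠ 0) :
    x = p ^ (multiplicity p x) * up p x ∧ ¬ p ∣ up p x := by
  obtain ⟨c, hc, hnc⟩ :=
    (FiniteMultiplicity.of_not_isUnit hp.not_isUnit hx).exists_eq_pow_mul_and_not_dvd
  have h1 : up p x = c := by
    unfold up
    generalize multiplicity p x = m at hc
    rw [hc]
    exact mul_div_cancel_left₀ c (pow_ne_zero _ hp.ne_zero)
  rw [h1]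
  exact ⟨hc, hnc⟩

theorem up_eq {p x u : k[X]} (hp : Irreducible p) {i : ℕ} (h : x = p ^ i * u) (hu : ¬ p ∣ u) :
    multiplicity p x = i ∧ up p x = u := by
  have h1 : multiplicity p x = i := by
    refine multiplicity_eq_of_dvd_of_not_dvd ⟨u, h⟩ fun hd => hu ?_
    rw [h, pow_succ] at hd
    exact (mul_dvd_mul_iff_left (pow_ne_zero _ hp.ne_zero)).1 hd
  refine ⟨h1, ?_⟩
  unfold up
  rw [h1, h]
  exact mul_div_cancel_left₀ u (pow_ne_zero _ hp.ne_zero)

private theorem up_mul {p x y : k[X]} (hp : Irreducible p) (hx : x ≠ 0) (hy : y ≠ 0) :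
    multiplicity p (x * y) = multiplicity p x + multiplicity p y ∧
      up p (x * y) = up p x * up p y := by
  obtain ⟨h1, h2⟩ := up_spec hp hx
  obtain ⟨h3, h4⟩ := up_spec hp hy
  refine up_eq hp ?_ fun h => ?_
  · conv_lhs => rw [h1, h3]
    rw [pow_add]
    ring
  · rcases hp.prime.dvd_or_dvd h with h | h
    · exact h2 h
    · exact h4 h

private theorem up_neg_one {p : k[X]} (hp : Irreducible p) : up p (-1) = -1 := by
  refine (up_eq hp (i := 0) (by rw [pow_zero, one_mul]) fun h => ?_).2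
  exact hp.not_isUnit (isUnit_of_dvd_unit h isUnit_one.neg)

theorem isRD_p {p : k[X]} (hp : Irreducible p) {T : k[X] → k[X] → A} (hT : IsT p T) :
    IsRD (wp p) (fun x y => T (up p x) (up p y)) where
  w_mul x y hx hy := by
    unfold wp
    rw [(up_mul hp hx hy).1]
    push_cast
    rfl
  mul x y z hx hy hz := by
    show T (up p (x * y)) (up p z) = T (up p x) (up p z) + T (up p y) (up p z)
    rw [(up_mul hp hx hy).2]
    exact hT.mul _ _ _ (up_spec hp hx).2 (up_spec hp hy).2 (up_spec hp hz).2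
  skew x y hx hy := hT.skew _ _ (up_spec hp hx).2 (up_spec hp hy).2
  self x hx := by
    show T (up p x) (up p x) = T (up p x) (up p (-1))
    rw [up_neg_one hp]
    exact hT.self _ (up_spec hp hx).2
  lt x y z hx hy hz hxy hlt := by
    obtain ⟨h1, h2⟩ := up_spec hp hx
    obtain ⟨h3, h4⟩ := up_spec hp hy
    unfold wp at hlt ⊢
    have hij : multiplicity p x < multiplicity p y := by exact_mod_cast hlt
    obtain ⟨m, hm⟩ : ∃ m, multiplicity p y = multiplicity p x + (m + 1) :=
      ⟨multiplicity p y - multiplicity p x - 1, by omega⟩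
    have hd : p ∣ p ^ (m + 1) * up p y := (dvd_pow_self p (Nat.succ_ne_zero m)).mul_right _
    have hz' : z = p ^ (multiplicity p x) * (up p x + p ^ (m + 1) * up p y) := by
      rw [← hxy]
      conv_lhs => rw [h1, h3, hm]
      rw [pow_add]
      ring
    have hnd : ¬ p ∣ up p x + p ^ (m + 1) * up p y := fun h => h2 ((dvd_add_left hd).1 h)
    obtain ⟨e1, e2⟩ := up_eq hp hz' hnd
    refine ⟨by rw [e1], fun t ht => ?_⟩
    show T (up p z) (up p t) = T (up p x) (up p t)
    refine hT.congr _ _ _ (by rw [e2]; exact hnd) (up_spec hp ht).2 ?_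
    rw [e2, add_sub_cancel_left]
    exact hd
  eq x y z hx hy hz hxy hwxy hwzx := by
    obtain ⟨h1, h2⟩ := up_spec hp hx
    obtain ⟨h3, h4⟩ := up_spec hp hy
    obtain ⟨h5, h6⟩ := up_spec hp hz
    unfold wp at hwxy hwzx
    have e1 : multiplicity p x = multiplicity p y := by exact_mod_cast hwxy
    have e2 : multiplicity p z = multiplicity p x := by exact_mod_cast hwzx
    refine hT.hom _ _ _ h2 h4 h6 ?_
    apply mul_left_cancel₀ (pow_ne_zero (multiplicity p x) hp.ne_zero)
    rw [mul_add, ← h1]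
    rw [e2] at h5
    rw [← h5]
    rw [e1, ← h3]
    exact hxy

end Pool.Agent.H94.PM
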