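import Pool.Agent.H94.PM.TRV

set_option autoImplicit false

/-!
# [H94 PM TRF] Selmer classes and torsion classes

* `sln_of_tcn`: `δ k = tv (-DK c D) (AK A) s k * y k ^ ℓ`; over each completion `isVln_tv` and `isVln_congr` (`PL.map_tv`); the product is an `ℓ`-th power:
  `∏ k, tv (-D) A s k`: `prod_of_isVln` over the field `RatFunc F` itself.
* `zM_tv`: for `P : pf D`: `ex P (tv ..) = vl (toP (tv ..))` (`vl_toP`) `= s k` by `vl_tv` (`vl (toP (DK c D)) = 1`, differences units).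
* `zM_inj`: `x = δ k / δ' k`: all `ex` vanish (for the primes of `D`, of `dl A`, and the others by `sln_good`; use
  `PL.toX_apply` with `sln_ex`) and `kap x = 0`, so `pow_of_ex_kap`.
* `km_dich`: let `n ≥ 1`.  For `s : XX m ℓ` let `t s` be the class `tv (-DK c D) (AK A) s'` with `s' k = (s k).val`; `zM (t s) ∈ KM` (`sln_of_tcn`, `zM_mem`) and its component
  at any `P ∣ D` is `s` (`zM_tv`), so `s ↦ zM (t s)` is injective and `card (XX m ℓ) ≤ card KM`.  If all Selmer classes are torsion classes we are in the first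
  case.  Otherwise let `δ` be a Selmer class which is not a torsion class; `zM δ ≠ zM (t s)` for all `s` by `zM_inj`, so `card KM > card (XX m ℓ)`.
* `km_pow`: both are powers of `ℓ` (`ZMod ℓ`-modules), and the first is at most the second.
* `sel_of_card`: combine.
-/

namespace Pool.Agent.H94.PM

open Polynomial WithZero IsDedekindDomain
open Pool.Agent.H94.PL
open Pool.Agent.H94.PC (Mo Sq Pr pf om Mn mem_Mo mem_Sq mem_Pr mem_pf mem_pf')

/-- torsion classes -/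
def IsTcn {F : Type} [Field F] {m : ℕ} (ℓ : ℕ) (c : F) (A : Fin m → F[X]) (D : F[X])
    (δ : Fin m → RatFunc F) : Prop :=
  ∃ s : Fin m → ℤ, (ℓ : ℤ) ∣ ∑ k, s k ∧ ∀ k, ∃ y : RatFunc F, y ≠ 0 ∧
    δ k = tv (-DK c D) (AK A) s k * y ^ ℓ

variable {F : Type} [Field F] [Finite F] {ℓ m : ℕ} [hl : Fact ℓ.Prime] (χ : LChar F ℓ)
variable [DecidableEq (RatFunc F)] {α : ℕ} {c : F} {A : Fin m → F[X]} {D : F[X]}

omit [DecidableEq (RatFunc F)] hl in
private theorem trf_dl0 {A : Fin m → F[X]} (hA : ∀ i k, i ≠ k → A i ≠ A k) : dl A ≠ 0 := by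
  rw [dl]
  refine Finset.prod_ne_zero_iff.2 fun p hp => sub_ne_zero.2 (hA _ _ ?_)
  exact (mem_prs.1 hp).ne

omit hl [Finite F] in
theorem sln_of_tcn (hℓ : ℓ.Prime) (hm : Nat.Coprime m ℓ) (hα : ℓ ∣ α * m + 1) (hc : c ≠ 0)
    (hA : ∀ i k, i ≠ k → A i ≠ A k) (hD : D ≠ 0) {δ : Fin m → RatFunc F}
    (h : IsTcn ℓ c A D δ) : IsSln ℓ α c A D δ := by
  obtain ⟨s, hs, h3⟩ := h
  choose y hy hδ using h3
  have hDK : DK c D ≠ 0 := by
    rw [DK]
    exact RatFunc.algebraMap_ne_zero (mul_ne_zero (C_ne_zero.2 hc) hD)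
  have hAK : ∀ i k, i ≠ k → AK A i ≠ AK A k := by
    intro i k hik he
    exact hA i k hik (RatFunc.algebraMap_injective F he)
  have key : ∀ (M : Type) (_ : Field M) (φ : RatFunc F →+* M),
      IsVln ℓ α (φ (DK c D)) (fun k => φ (AK A k)) (fun k => φ (δ k)) := by
    intro M _ φ
    have h4 := isVln_congr (isVln_tv hℓ hm hα ((map_ne_zero φ).2 hDK)
      (A := fun k => φ (AK A k)) (fun i k hik he => hAK i k hik (φ.injective he)) s hs)
      (γ := fun k => φ (y k)) fun k => (map_ne_zero φ).2 (hy k)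
    have h5 : (fun k => φ (δ k)) =
        fun k => tv (-φ (DK c D)) (fun i => φ (AK A i)) s k * φ (y k) ^ ℓ := by
      funext k
      rw [hδ k, map_mul, map_pow, map_tv, map_neg]
    rw [h5]
    exact h4
  refine ⟨fun k => ?_, ?_, fun v => key _ _ _, key _ _ _⟩
  · exact isVln_ne hDK (key _ _ (RingHom.id (RatFunc F))) k
  · exact prod_of_isVln hℓ hα (key _ _ (RingHom.id (RatFunc F)))

theorem zM_tv (hm : Nat.Coprime m ℓ) (hα : ℓ ∣ α * m + 1) (hc : c ≠ 0)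
    (hA : ∀ i k, i ≠ k → A i ≠ A k) (hD : D.Monic) (hDs : Squarefree D)
    (hDA : IsCoprime D (dl A)) (s : Fin m → ℤ) (hs : (ℓ : ℤ) ∣ ∑ k, s k) (P : pf D)
    (k : Fin m) : ((zM χ A D (fun k => tv (-DK c D) (AK A) s k)).2 P).1 k = (s k : ZMod ℓ) := by
  have hPp := mem_pf' P.2
  have hP : Irreducible P.1 := hPp.2.1
  have hPD : P.1 ∣ D := hPp.2.2
  have hPdl : ¬ P.1 ∣ dl A := fun h => hP.not_isUnit (hDA.isUnit_of_dvd' hPD h)
  have h : IsSln ℓ α c A D (fun k => tv (-DK c D) (AK A) s k) :=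
    sln_of_tcn hl.out hm hα hc hA hD.ne_zero
      ⟨s, hs, fun k => ⟨1, one_ne_zero, by rw [one_pow, mul_one]⟩⟩
  have e1 : ((zM χ A D (fun k => tv (-DK c D) (AK A) s k)).2 P).1 k =
      ex ℓ P.1 (tv (-DK c D) (AK A) s k) := toX_apply (sln_ex h hP) k
  rw [e1, ← vl_toP hP (h.ne k), map_tv, map_neg,
    vl_tv ((map_ne_zero (toP P.1 hP)).2 (DK_ne hc hD.ne_zero))
      (A := fun i => toP P.1 hP (AK A i)) (fun i k hik he => hA i k hik (RatFunc.algebraMap_injective F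
        ((toP P.1 hP).injective he))), vl_DK_D hc hDs hP hPD, mul_one]
  have e2 : ∑ i ∈ Finset.univ.erase k, (s i - s k) *
      vl (wP P.1 hP) (toP P.1 hP (AK A k) - toP P.1 hP (AK A i)) = 0 := by
    refine Finset.sum_eq_zero fun i hi => ?_
    have e3 : vl (wP P.1 hP) (toP P.1 hP (AK A k) - toP P.1 hP (AK A i)) = 0 := by
      unfold vl
      rw [sd_diff hP hPdl (Finset.ne_of_mem_erase hi).symm, log_one, neg_zero]
    rw [e3, mul_zero]
  rw [e2, add_zero]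

theorem zM_inj (hm : Nat.Coprime m ℓ) (hα : ℓ ∣ α * m + 1) (hc : c ≠ 0)
    (hA : ∀ i k, i ≠ k → A i ≠ A k) (hD : D.Monic) {δ δ' : Fin m → RatFunc F}
    (h : IsSln ℓ α c A D δ) (h' : IsSln ℓ α c A D δ') (he : zM χ A D δ = zM χ A D δ')
    (k : Fin m) : ∃ y : RatFunc F, y ≠ 0 ∧ δ k = δ' k * y ^ ℓ := by
  have hdl0 := trf_dl0 hA
  have hx : δ k / δ' k ≠ 0 := div_ne_zero (h.ne k) (h'.ne k)
  have he1 : ∀ v : pf (dl A), ex ℓ v.1 (δ k) = ex ℓ v.1 (δ' k) := by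
    intro v
    have e1 : ((zM χ A D δ).1.2 v).1 k = ((zM χ A D δ').1.2 v).1 k := by rw [he]
    have e2 : ((zM χ A D δ).1.2 v).1 k = ex ℓ v.1 (δ k) :=
      toX_apply (sln_ex h (mem_pf' v.2).2.1) k
    have e3 : ((zM χ A D δ').1.2 v).1 k = ex ℓ v.1 (δ' k) :=
      toX_apply (sln_ex h' (mem_pf' v.2).2.1) k
    rw [← e2, ← e3, e1]
  have he2 : ∀ P : pf D, ex ℓ P.1 (δ k) = ex ℓ P.1 (δ' k) := by
    intro v
    have e1 : ((zM χ A D δ).2 v).1 k = ((zM χ A D δ').2 v).1 k := by rw [he]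
    have e2 : ((zM χ A D δ).2 v).1 k = ex ℓ v.1 (δ k) :=
      toX_apply (sln_ex h (mem_pf' v.2).2.1) k
    have e3 : ((zM χ A D δ').2 v).1 k = ex ℓ v.1 (δ' k) :=
      toX_apply (sln_ex h' (mem_pf' v.2).2.1) k
    rw [← e2, ← e3, e1]
  have he3 : kap χ (δ k) = kap χ (δ' k) := by
    have e1 : ((zM χ A D δ).1.1).1 k = ((zM χ A D δ').1.1).1 k := by rw [he]
    have e2 : ((zM χ A D δ).1.1).1 k = kap χ (δ k) := toX_apply (sln_kap χ h) k
    have e3 : ((zM χ A D δ').1.1).1 k = kap χ (δ' k) := toX_apply (sln_kap χ h') k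
    rw [← e2, ← e3, e1]
  obtain ⟨y, hy, hxy⟩ := pow_of_ex_kap χ hx (by
    intro Q hQm hQ
    rw [ex_div hQ (h.ne k) (h'.ne k)]
    by_cases hQD : Q ∣ D
    · rw [he2 ⟨Q, (mem_pf hD.ne_zero).2 ⟨hQm, hQ, hQD⟩⟩, sub_self]
    · by_cases hQA : Q ∣ dl A
      · rw [he1 ⟨Q, (mem_pf hdl0).2 ⟨hQm, hQ, hQA⟩⟩, sub_self]
      · rw [sln_good hm hα hc hD h hQm hQ hQD hQA k, sln_good hm hα hc hD h' hQm hQ hQD hQA k,
          sub_self])
    (by rw [kap_div χ (h.ne k) (h'.ne k), he3, sub_self])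
  refine ⟨y, hy, ?_⟩
  rw [← hxy, mul_div_cancel₀ _ (h'.ne k)]

variable {Wl : pf (dl A) → ZMod ℓ → Submodule (ZMod ℓ) (XX m ℓ × XX m ℓ)}
  {Wi : ZMod ℓ → Submodule (ZMod ℓ) (XX m ℓ × XX m ℓ)}

theorem km_dich (hm : Nat.Coprime m ℓ) (hα : ℓ ∣ α * m + 1) (hc : c ≠ 0)
    (hA : ∀ i k, i ≠ k → A i ≠ A k) {n : ℕ} (hn : 1 ≤ n) (hD : D ∈ Cls (dl A) n)
    (hWl : OKl χ α A Wl) (hWi : OKi χ α c A Wi) :
    Nat.card (XX m ℓ) ≤ Nat.card (KM χ (DC χ c A Wl Wi) D) ∧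
      ((∀ δ : Fin m → RatFunc F, IsSln ℓ α c A D δ ↔ IsTcn ℓ c A D δ) ∨
        Nat.card (XX m ℓ) < Nat.card (KM χ (DC χ c A Wl Wi) D)) := by
  classical
  obtain ⟨hDm, hDn, hDs, hDA⟩ := mem_Cls.1 hD
  have : NeZero ℓ := ⟨hl.out.ne_zero⟩
  -- a prime divisor of `D`
  obtain ⟨P, hPm, hPi, hPD⟩ : ∃ P : F[X], P.Monic ∧ Irreducible P ∧ P ∣ D := by
    have hnu : ¬ IsUnit D := by
      intro hu
      have := natDegree_eq_zero_of_isUnit hu
      omega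
    obtain ⟨P, hP1, hP2, hP3⟩ := Polynomial.exists_monic_irreducible_factor D hnu
    exact ⟨P, hP1, hP2, hP3⟩
  have hPf : P ∈ pf D := (mem_pf hDm.ne_zero).2 ⟨hPm, hPi, hPD⟩
  let sv : XX m ℓ → Fin m → ℤ := fun s k => ((s.1 k).val : ℤ)
  have hsv : ∀ (s : XX m ℓ) (k : Fin m), ((sv s k : ℤ) : ZMod ℓ) = s.1 k := by
    intro s k
    simp [sv]
  have hsd : ∀ s : XX m ℓ, (ℓ : ℤ) ∣ ∑ k, sv s k := by
    intro s
    rw [← ZMod.intCast_zmod_eq_zero_iff_dvd, Int.cast_sum]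
    simp only [hsv]
    exact XX_sum s
  have htc : ∀ s : XX m ℓ, IsTcn ℓ c A D (fun k => tv (-DK c D) (AK A) (sv s) k) := fun s =>
    ⟨sv s, hsd s, fun k => ⟨1, one_ne_zero, by rw [one_pow, mul_one]⟩⟩
  have hsl : ∀ s : XX m ℓ, IsSln ℓ α c A D (fun k => tv (-DK c D) (AK A) (sv s) k) := fun s =>
    sln_of_tcn hl.out hm hα hc hA hDm.ne_zero (htc s)
  let t : XX m ℓ → KM χ (DC χ c A Wl Wi) D := fun s =>
    ⟨zM χ A D (fun k => tv (-DK c D) (AK A) (sv s) k),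
      zM_mem χ hm hα hc hA hDm hDs hDA (hsl s) hWl hWi⟩
  have hinj : Function.Injective t := by
    intro s s' hss
    apply Subtype.ext
    funext k
    have e0 : zM χ A D (fun k => tv (-DK c D) (AK A) (sv s) k) =
        zM χ A D (fun k => tv (-DK c D) (AK A) (sv s') k) := congrArg Subtype.val hss
    have e1 := zM_tv χ hm hα hc hA hDm hDs hDA (sv s) (hsd s) ⟨P, hPf⟩ k
    have e2 := zM_tv χ hm hα hc hA hDm hDs hDA (sv s') (hsd s') ⟨P, hPf⟩ k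
    rw [hsv] at e1 e2
    rw [← e1, ← e2, e0]
  have : Finite (XX m ℓ) := inferInstance
  have : Finite (KM χ (DC χ c A Wl Wi) D) := inferInstance
  refine ⟨Nat.card_le_card_of_injective t hinj, ?_⟩
  by_cases hall : ∀ δ : Fin m → RatFunc F, IsSln ℓ α c A D δ → IsTcn ℓ c A D δ
  · left
    exact fun δ => ⟨hall δ, fun h => sln_of_tcn hl.out hm hα hc hA hDm.ne_zero h⟩
  · right
    push Not at hall
    obtain ⟨δ, hδ, hnt⟩ := hall
    haveI := Fintype.ofFinite (XX m ℓ)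
    haveI := Fintype.ofFinite (KM χ (DC χ c A Wl Wi) D)
    rw [Nat.card_eq_fintype_card, Nat.card_eq_fintype_card]
    refine Fintype.card_lt_of_injective_of_notMem t hinj
      (b := ⟨zM χ A D δ, zM_mem χ hm hα hc hA hDm hDs hDA hδ hWl hWi⟩) ?_
    rintro ⟨s, hs⟩
    have e0 : zM χ A D (fun k => tv (-DK c D) (AK A) (sv s) k) = zM χ A D δ :=
      congrArg Subtype.val hs
    exact hnt ⟨sv s, hsd s, fun k => zM_inj χ hm hα hc hA hDm hδ (hsl s) e0.symm k⟩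

omit [DecidableEq (RatFunc F)] in
theorem km_pow (h : Nat.card (XX m ℓ) ≤ Nat.card (KM χ (DC χ c A Wl Wi) D)) :
    ∃ j : ℕ, Nat.card (KM χ (DC χ c A Wl Wi) D) = ℓ ^ j * Nat.card (XX m ℓ) := by
  have : NeZero ℓ := ⟨hl.out.ne_zero⟩
  have : Finite (XX m ℓ) := inferInstance
  have : Finite (KM χ (DC χ c A Wl Wi) D) := inferInstance
  haveI := Fintype.ofFinite (XX m ℓ)
  haveI := Fintype.ofFinite (KM χ (DC χ c A Wl Wi) D)
  have h1 : Nat.card (XX m ℓ) = ℓ ^ Module.finrank (ZMod ℓ) (XX m ℓ) := by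
    rw [Nat.card_eq_fintype_card, Module.card_eq_pow_finrank (K := ZMod ℓ) (V := XX m ℓ),
      ZMod.card]
  have h2 : Nat.card (KM χ (DC χ c A Wl Wi) D) =
      ℓ ^ Module.finrank (ZMod ℓ) (KM χ (DC χ c A Wl Wi) D) := by
    rw [Nat.card_eq_fintype_card, Module.card_eq_pow_finrank (K := ZMod ℓ)
      (V := KM χ (DC χ c A Wl Wi) D), ZMod.card]
  rw [h1, h2] at h
  have h3 := (Nat.pow_le_pow_iff_right hl.out.one_lt).1 h
  refine ⟨Module.finrank (ZMod ℓ) (KM χ (DC χ c A Wl Wi) D) -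
    Module.finrank (ZMod ℓ) (XX m ℓ), ?_⟩
  rw [h1, h2, ← pow_add, Nat.sub_add_cancel h3]

theorem sel_of_card (hm : Nat.Coprime m ℓ) (hα : ℓ ∣ α * m + 1) (hc : c ≠ 0)
    (hA : ∀ i k, i ≠ k → A i ≠ A k) {n : ℕ} (hn : 1 ≤ n) (hD : D ∈ Cls (dl A) n)
    (hWl : OKl χ α A Wl) (hWi : OKi χ α c A Wi) :
    (∀ δ : Fin m → RatFunc F, IsSln ℓ α c A D δ ↔ IsTcn ℓ c A D δ) ∨
      ℓ * Nat.card (XX m ℓ) ≤ Nat.card (KM χ (DC χ c A Wl Wi) D) := by
  obtain ⟨h1, h2⟩ := km_dich χ hm hα hc hA hn hD hWl hWi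
  rcases h2 with h2 | h2
  · left
    exact h2
  · right
    obtain ⟨j, hj⟩ := km_pow χ h1
    rw [hj] at h2 ⊢
    have hj1 : 1 ≤ j := by
      rcases Nat.eq_zero_or_pos j with h0 | h0
      · rw [h0, pow_zero, one_mul] at h2
        exact absurd h2 (lt_irrefl _)
      · exact h0
    exact Nat.mul_le_mul_right _ (by
      calc ℓ = ℓ ^ 1 := (pow_one ℓ).symm
        _ ≤ ℓ ^ j := Nat.pow_le_pow_right hl.out.pos hj1)

end Pool.Agent.H94.PM
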