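import Pool.Agent.H94.PM.TT

set_option autoImplicit false

/-!
# [H94 PM TS1] The symbol at an irreducible polynomial of degree `d`

Suppose that `T` is a family of symbols in degrees `< d` which satisfies the reciprocity law in degrees `< d`.
For `p` monic irreducible of degree `d` and polynomials `x`, `y` prime to `p` let `X = x %ₘ p`, `Y = y %ₘ p`
(nonzero, of degree `< d`) and `newT p x y = - tot (X, Y, p)`, the sum over the prime divisors of `X Y` and infinity.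
Then `newT p` is a symbol at `p`.

Proof.  `PFs f` (`f ≠ 0`) is the set of monic irreducible divisors of `f` (`mem_PFs`).
For `S` with `Sm S d` containing `PFs (X Y)`: `newT p x y = - tot s T S X Y p` (`newT_eq`, by `tot_subset`: the elements of
`S` have degree `< d`, so they do not divide `p`; those outside `PFs (X Y)` do not divide `X`, `Y`).
In each statement below take for `S` the union of the sets `PFs` of the finitely many nonzero polynomials of
degree `< d` which occur; `Fam T S` by `FamD.fam`.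
* `congr`: `x %ₘ p = x' %ₘ p`. (`Polynomial.modByMonic` is unchanged: `sub_modByMonic`, `modByMonic_eq_zero_iff_dvd`.)
* `mul`: let `X, X'` be the remainders of `x, x'`, `Z` that of `x x'`, so `X X' = g p + Z`, `Z ≠ 0` (`p` is prime), `g = X X' / p`,
  of degree `< d` (`deg (X X') ≤ 2 d - 2`).  Have to show `tot (X X') Y p = tot Z Y p`
  (then `tot_mul`).  If `g = 0` clear.  Otherwise `tot_hom` for `g p + Z = X X'`, `t = Y`:
  `tot (g p) Z Y - tot (g p) (X X') Y - tot (X X') Z Y + tot (X X') (X X') Y = 0`.  The last two terms are zero by `Rec`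
  (enlarge `S` so that it covers `X X' Z Y g`, all of degree `< d`), and `tot (g p) Z Y = tot g Z Y + tot p Z Y`,
  `tot g Z Y = 0` by `Rec`, the same for `X X'`.  So `tot p Z Y = tot p (X X') Y`.  Finally
  `tot p Z Y = - tot Z p Y = tot Z Y p`.
* `skew`: `tot_swap12`.
* `self`: `newT p x x = - tot X X p = - tot X (-1) p = newT p x (-1)` (`-1 %ₘ p = -1`: `modByMonic_eq_self_iff`,
  `d ≥ 1` as `p` is irreducible).
* `hom`: `(x + y) %ₘ p = X + Y` (`add_modByMonic`), and `tot_hom` with `t = p`.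
-/

namespace Pool.Agent.H94.PM

open Polynomial

variable {k A : Type*} [Field k] [AddCommGroup A]

/-- the monic irreducible factors -/
noncomputable def PFs (f : k[X]) : Finset k[X] := by
  classical exact (UniqueFactorizationMonoid.normalizedFactors f).toFinset

theorem mem_PFs {f : k[X]} (hf : f ≠ 0) {q : k[X]} :
    q ∈ PFs f ↔ q.Monic ∧ Irreducible q ∧ q ∣ f := by
  classical
  have h1 : PFs f = (UniqueFactorizationMonoid.normalizedFactors f).toFinset := by
    unfold PFs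
    congr
  rw [h1, Multiset.mem_toFinset, Polynomial.mem_normalizedFactors_iff hf]
  tauto

private theorem ts_cov {F g : k[X]} (hF : F ≠ 0) (h : g ∣ F) : Covers (PFs F) g :=
  fun _ hq hi hd => (mem_PFs hF).2 ⟨hq, hi, hd.trans h⟩

private theorem ts_cmul {S : Finset k[X]} {a b : k[X]} (ha : Covers S a) (hb : Covers S b) :
    Covers S (a * b) := fun q hq hi hd => by
  rcases hi.prime.dvd_or_dvd hd with h | h
  · exact ha q hq hi h
  · exact hb q hq hi h

/-- all irreducible factors have degree less than `d` -/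
private def Sml (d : ℕ) (f : k[X]) : Prop :=
  f ≠ 0 ∧ ∀ q : k[X], Irreducible q → q ∣ f → q.natDegree < d

private theorem sml_mul {d : ℕ} {f g : k[X]} (hf : Sml d f) (hg : Sml d g) : Sml d (f * g) :=
  ⟨mul_ne_zero hf.1 hg.1, fun q hi hd => by
    rcases hi.prime.dvd_or_dvd hd with h | h
    · exact hf.2 q hi h
    · exact hg.2 q hi h⟩

private theorem sml_deg {d : ℕ} {f : k[X]} (hf : f ≠ 0) (hd : f.natDegree < d) : Sml d f :=
  ⟨hf, fun _ _ h => (natDegree_le_of_dvd h hf).trans_lt hd⟩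

private theorem sml_sm {d : ℕ} {f : k[X]} (hf : Sml d f) : Sm (PFs f) d := fun q hq => by
  obtain ⟨h1, h2, h3⟩ := (mem_PFs hf.1).1 hq
  exact ⟨h1, h2, hf.2 q h2 h3⟩

/-- the new symbols -/
noncomputable def newT (s : Sy k A) (T : k[X] → k[X] → k[X] → A) (d : ℕ) (p x y : k[X]) : A :=
  if p.natDegree < d then T p x y
  else -tot s T (PFs ((x %ₘ p) * (y %ₘ p))) (x %ₘ p) (y %ₘ p) p

theorem newT_eq {s : Sy k A} {T : k[X] → k[X] → k[X] → A} {d : ℕ} {p : k[X]} (hpm : p.Monic)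
    (hp : Irreducible p) (hd : p.natDegree = d) {S : Finset k[X]} (hS : Sm S d) {x y : k[X]}
    (hx : ¬ p ∣ x) (hy : ¬ p ∣ y) (hc : Covers S ((x %ₘ p) * (y %ₘ p))) :
    newT s T d p x y = -tot s T S (x %ₘ p) (y %ₘ p) p := by
  have hX : x %ₘ p ≠ 0 := fun h => hx ((modByMonic_eq_zero_iff_dvd hpm).1 h)
  have hY : y %ₘ p ≠ 0 := fun h => hy ((modByMonic_eq_zero_iff_dvd hpm).1 h)
  have hXY : (x %ₘ p) * (y %ₘ p) ≠ 0 := mul_ne_zero hX hY
  unfold newT
  rw [if_neg (by omega)]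
  congr 1
  symm
  apply tot_subset
  · intro q hq
    obtain ⟨h1, h2, h3⟩ := (mem_PFs hXY).1 hq
    exact hc q h1 h2 h3
  · intro q hq hq'
    obtain ⟨h1, h2, h3⟩ := hS q hq
    refine ⟨fun h => hq' ?_, fun h => hq' ?_, fun h => ?_⟩
    · exact (mem_PFs hXY).2 ⟨h1, h2, h.mul_right _⟩
    · exact (mem_PFs hXY).2 ⟨h1, h2, h.mul_left _⟩
    · have h4 := natDegree_eq_of_degree_eq
        (degree_eq_degree_of_associated ((h2.dvd_irreducible_iff_associated hp).1 h))
      omega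

private theorem ts_key1 {s : Sy k A} {T : k[X] → k[X] → k[X] → A} {d : ℕ}
    (hR : Rec s T d) {p : k[X]} (hp0 : p ≠ 0) {W Y Z g : k[X]} {S : Finset k[X]} (hF : Fam T S)
    (hSm : Sm S d) (nW : W ≠ 0) (nY : Y ≠ 0) (nZ : Z ≠ 0) (hg0 : g ≠ 0)
    (cW : Covers S W) (cY : Covers S Y) (cZ : Covers S Z) (cg : Covers S g)
    (hgZ : g * p + Z = W) : tot s T S Z Y p = tot s T S W Y p := by
  have h1 := tot_hom (s := s) hF (mul_ne_zero hg0 hp0) nZ nW nY hgZ
  have h2 := hR S W Z Y nW nZ nY hSm (ts_cmul (ts_cmul cW cZ) cY)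
  have h3 := hR S W W Y nW nW nY hSm (ts_cmul (ts_cmul cW cW) cY)
  have h4 := hR S g Z Y hg0 nZ nY hSm (ts_cmul (ts_cmul cg cZ) cY)
  have h5 := hR S g W Y hg0 nW nY hSm (ts_cmul (ts_cmul cg cW) cY)
  have h6 := tot_mul (s := s) hF hg0 hp0 nZ nY
  have h7 := tot_mul (s := s) hF hg0 hp0 nW nY
  have h8 : tot s T S p Z Y = tot s T S Z Y p := by
    rw [tot_swap12 hF hp0 nZ nY, tot_swap23 hF nZ hp0 nY, neg_neg]
  have h9 : tot s T S p W Y = tot s T S W Y p := by
    rw [tot_swap12 hF hp0 nW nY, tot_swap23 hF nW hp0 nY, neg_neg]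
  rw [h6, h7, h2, h3, h4, h5, zero_add, zero_add, sub_zero, add_zero, sub_eq_zero] at h1
  rw [← h8, ← h9, h1]

private theorem ts_key {s : Sy k A} {T : k[X] → k[X] → k[X] → A} {d : ℕ} (hT : FamD T d)
    (hR : Rec s T d) {p : k[X]} (hp0 : p ≠ 0) {X X' Y Z g : k[X]} (sX : Sml d X)
    (sX' : Sml d X') (sY : Sml d Y) (sZ : Sml d Z) (hgZ : g * p + Z = X * X')
    (sg : g ≠ 0 → Sml d g) :
    ∃ S : Finset k[X], Sm S d ∧ Covers S X ∧ Covers S X' ∧ Covers S Y ∧ Covers S Z ∧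
        tot s T S Z Y p = tot s T S X Y p + tot s T S X' Y p := by
  by_cases hg0 : g = 0
  · have sF := sml_mul (sml_mul sX sX') (sml_mul sY sZ)
    obtain ⟨S, hSd⟩ : ∃ S, S = PFs (X * X' * (Y * Z)) := ⟨_, rfl⟩
    have hSm : Sm S d := by rw [hSd]; exact sml_sm sF
    refine ⟨S, hSm, by rw [hSd]; exact ts_cov sF.1 ⟨X' * (Y * Z), by ring⟩,
      by rw [hSd]; exact ts_cov sF.1 ⟨X * (Y * Z), by ring⟩,
      by rw [hSd]; exact ts_cov sF.1 ⟨X * X' * Z, by ring⟩,
      by rw [hSd]; exact ts_cov sF.1 ⟨X * X' * Y, by ring⟩, ?_⟩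
    rw [hg0, zero_mul, zero_add] at hgZ
    rw [hgZ]
    exact tot_mul (hT.fam hSm) sX.1 sX'.1 sY.1 hp0
  · have sF := sml_mul (sml_mul sX sX') (sml_mul (sml_mul sY sZ) (sg hg0))
    obtain ⟨S, hSd⟩ : ∃ S, S = PFs (X * X' * (Y * Z * g)) := ⟨_, rfl⟩
    have hSm : Sm S d := by rw [hSd]; exact sml_sm sF
    have cX : Covers S X := by rw [hSd]; exact ts_cov sF.1 ⟨X' * (Y * Z * g), by ring⟩
    have cX' : Covers S X' := by rw [hSd]; exact ts_cov sF.1 ⟨X * (Y * Z * g), by ring⟩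
    have cY : Covers S Y := by rw [hSd]; exact ts_cov sF.1 ⟨X * X' * (Z * g), by ring⟩
    have cZ : Covers S Z := by rw [hSd]; exact ts_cov sF.1 ⟨X * X' * (Y * g), by ring⟩
    have cg : Covers S g := by rw [hSd]; exact ts_cov sF.1 ⟨X * X' * (Y * Z), by ring⟩
    have hF := hT.fam hSm
    refine ⟨S, hSm, cX, cX', cY, cZ, ?_⟩
    rw [ts_key1 hR hp0 hF hSm (mul_ne_zero sX.1 sX'.1) sY.1 sZ.1 hg0 (ts_cmul cX cX') cY cZ cg
      hgZ]
    exact tot_mul hF sX.1 sX'.1 sY.1 hp0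

theorem newT_isT {s : Sy k A} {T : k[X] → k[X] → k[X] → A} {d : ℕ} (hT : FamD T d)
    (hR : Rec s T d) {p : k[X]} (hpm : p.Monic) (hp : Irreducible p) (hd : p.natDegree = d) :
    IsT p (newT s T d p) := by
  have hp1 : p ≠ 1 := hp.ne_one
  have hp0 : p ≠ 0 := hp.ne_zero
  have hdp : 0 < d := by
    rw [← hd]
    exact hp.natDegree_pos
  have hne : ∀ x : k[X], ¬ p ∣ x → x %ₘ p ≠ 0 := fun x hx h =>
    hx ((modByMonic_eq_zero_iff_dvd hpm).1 h)
  have hsm : ∀ x : k[X], ¬ p ∣ x → Sml d (x %ₘ p) := fun x hx =>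
    sml_deg (hne x hx) (by rw [← hd]; exact natDegree_modByMonic_lt x hpm hp1)
  have hmod : ∀ x x' : k[X], p ∣ x - x' → x %ₘ p = x' %ₘ p := by
    intro x x' h
    have h1 : (x - x') %ₘ p = 0 := (modByMonic_eq_zero_iff_dvd hpm).2 h
    rw [sub_modByMonic] at h1
    exact sub_eq_zero.1 h1
  refine ⟨?_, ?_, ?_, ?_, ?_⟩
  · -- congr
    intro x x' y _ _ hxx
    unfold newT
    rw [if_neg (by omega), if_neg (by omega), hmod x x' hxx]
  · -- mul
    intro x x' y hx hx' hy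
    have hxx : ¬ p ∣ x * x' := fun h => (hp.prime.dvd_or_dvd h).elim hx hx'
    obtain ⟨X, hX⟩ : ∃ X, X = x %ₘ p := ⟨_, rfl⟩
    obtain ⟨X', hX'⟩ : ∃ X, X = x' %ₘ p := ⟨_, rfl⟩
    obtain ⟨Y, hY⟩ : ∃ X, X = y %ₘ p := ⟨_, rfl⟩
    obtain ⟨Z, hZ⟩ : ∃ X, X = (x * x') %ₘ p := ⟨_, rfl⟩
    have sX := hsm x hx
    have sX' := hsm x' hx'
    have sY := hsm y hy
    have sZ := hsm _ hxx
    have dX : X.natDegree < d := by rw [hX, ← hd]; exact natDegree_modByMonic_lt x hpm hp1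
    have dX' : X'.natDegree < d := by rw [hX', ← hd]; exact natDegree_modByMonic_lt x' hpm hp1
    rw [← hX] at sX
    rw [← hX'] at sX'
    rw [← hY] at sY
    rw [← hZ] at sZ
    have hZ' : Z = (X * X') %ₘ p := by
      rw [hZ]
      apply hmod
      have h1 : p ∣ x - X := by
        rw [hX]
        exact (dvd_sub_comm).1 (dvd_modByMonic_sub x p)
      have h2 : p ∣ x' - X' := by
        rw [hX']
        exact (dvd_sub_comm).1 (dvd_modByMonic_sub x' p)
      have h3 : x * x' - X * X' = (x - X) * x' + X * (x' - X') := by ring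
      rw [h3]
      exact dvd_add (h1.mul_right _) (h2.mul_left _)
    obtain ⟨g, hg⟩ : ∃ g, g = (X * X') /ₘ p := ⟨_, rfl⟩
    have hgZ : g * p + Z = X * X' := by
      have h1 := modByMonic_add_div (X * X') p
      rw [← hZ', ← hg] at h1
      rw [← h1]
      ring
    have key := ts_key hT hR hp0 sX sX' sY sZ hgZ (fun hg0 => by
      refine sml_deg hg0 ?_
      rw [hg, natDegree_divByMonic _ hpm, hd, natDegree_mul sX.1 sX'.1]
      omega)
    obtain ⟨S, hSm, cX, cX', cY, cZ, hk⟩ := key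
    rw [newT_eq hpm hp hd hSm hxx hy (by rw [← hZ, ← hY]; exact ts_cmul cZ cY),
      newT_eq hpm hp hd hSm hx hy (by rw [← hX, ← hY]; exact ts_cmul cX cY),
      newT_eq hpm hp hd hSm hx' hy (by rw [← hX', ← hY]; exact ts_cmul cX' cY),
      ← hX, ← hX', ← hY, ← hZ, hk, neg_add]
  · -- skew
    intro x y hx hy
    have sF := sml_mul (hsm x hx) (hsm y hy)
    have hSm := sml_sm sF
    have hF := hT.fam hSm
    rw [newT_eq hpm hp hd hSm hx hy (ts_cov sF.1 (dvd_refl _)),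
      newT_eq hpm hp hd hSm hy hx (ts_cov sF.1 (by rw [mul_comm])),
      tot_swap12 hF (hsm x hx).1 (hsm y hy).1 hp0]
  · -- self
    intro x hx
    have h1 : ¬ p ∣ (-1 : k[X]) := fun h => hp.not_isUnit
      (isUnit_of_dvd_unit h isUnit_one.neg)
    have h2 : (-1 : k[X]) %ₘ p = -1 := by
      rw [modByMonic_eq_self_iff hpm, degree_neg, degree_one]
      exact natDegree_pos_iff_degree_pos.1 hp.natDegree_pos
    have sF := sml_mul (hsm x hx) (hsm x hx)
    have hSm := sml_sm sF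
    have hF := hT.fam hSm
    rw [newT_eq hpm hp hd hSm hx hx (ts_cov sF.1 (dvd_refl _)),
      newT_eq hpm hp hd hSm hx h1 (ts_cov sF.1 (by
        rw [h2, mul_neg, mul_one, neg_dvd]
        exact dvd_mul_right _ _)), h2,
      tot_self hF (hsm x hx).1 hp0]
  · -- hom
    intro x y z hx hy hz hxyz
    have hZ : x %ₘ p + y %ₘ p = z %ₘ p := by rw [← hxyz, add_modByMonic]
    have sF := sml_mul (hsm x hx) (sml_mul (hsm y hy) (hsm z hz))
    have hSm := sml_sm sF
    have hF := hT.fam hSm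
    have cX : Covers (PFs (x %ₘ p * (y %ₘ p * (z %ₘ p)))) (x %ₘ p) :=
      ts_cov sF.1 ⟨y %ₘ p * (z %ₘ p), by ring⟩
    have cY : Covers (PFs (x %ₘ p * (y %ₘ p * (z %ₘ p)))) (y %ₘ p) :=
      ts_cov sF.1 ⟨x %ₘ p * (z %ₘ p), by ring⟩
    have cZ : Covers (PFs (x %ₘ p * (y %ₘ p * (z %ₘ p)))) (z %ₘ p) :=
      ts_cov sF.1 ⟨x %ₘ p * (y %ₘ p), by ring⟩
    rw [newT_eq hpm hp hd hSm hx hy (ts_cmul cX cY), newT_eq hpm hp hd hSm hx hz (ts_cmul cX cZ),
      newT_eq hpm hp hd hSm hz hy (ts_cmul cZ cY), newT_eq hpm hp hd hSm hz hz (ts_cmul cZ cZ)]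
    have h1 := tot_hom (s := s) hF (hsm x hx).1 (hsm y hy).1 (hsm z hz).1 hp0 hZ
    linear_combination (norm := module) (-1 : ℤ) • h1

end Pool.Agent.H94.PM
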