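import Pool.Agent.H94.PM.TS1

set_option autoImplicit false

/-!
# [H94 PM TS2] The reciprocity law in degrees `≤ d`

Notation of TS1, `T' = newT s T d`; `T' q = T q` for `q` of degree `< d`.  Let `Good a b c` say that `a, b, c ≠ 0` and
`tot s T' S a b c = 0` for every `S` with `Sm S (d + 1)` and `Covers S (a * b * c)`; by `tot_subset` it is
enough to know it for one such `S`.

Step 1 (generators).  Call `e ≠ 0` elementary if it is a constant or monic irreducible of degree `≤ d`. Every
`a ≠ 0` all of whose irreducible factors have degree `≤ d` is a product of elementary polynomials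
(`C lc * ∏ normalizedFactors`, or `Polynomial` induction on factors: `WfDvdMonoid.induction_on_irreducible`, `UniqueFactorizationMonoid.induction_on_prime`).
By `tot_mul`, `tot_mul2`, `tot_mul3` (`Fam T' S` holds by `newT_isT` and `hT`) it is enough to prove `tot = 0` for elementary
`a, b, c` (with the fixed large set `S`).

Step 2 (elementary `a, b, c`).  Let `r` be the number of the entries of degree `d` which are irreducible
('large'); if `d = 0` there are none.
* `r = 0`: all irreducible factors of `a b c` have degree `< d`; `tot s T' S = tot s T S₀` with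
  `S₀ = S.filter (natDegree < d)` (`tot_subset`, `tot_congr`), which is `0` by `hR`.
* `r = 1`: by the swaps (a cyclic permutation does not change `tot`) the large one is `c = p`; `p ∈ S`;
  `tot s T' S a b p = rp (T' p) p a b p + (sum over the rest)`, the rest is `tot s T S₀ a b p = - T' p a b` by `newT_eq`
  (`a %ₘ p = a`, `b %ₘ p = b`), the other large elements of `S` do not divide `a, b, p` (`rp_zero`; two monic irreducible
  polynomials which divide each other are equal), and `rp (T' p) p a b p = T' p a b`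
  (`wp p a = wp p b = 0`, `wp p p = 1`, `up p a = a`, `up p b = b`: only the last term of `res` remains).
* `r = 2`: by swaps `a = p`, `b = p'` large, `c` small.  If `p = p'`: `tot_self` and `r = 1` (`-1` is a constant).
  Otherwise `x = p - p' ≠ 0` has degree `< d`, `x + p' = p`, `tot_hom`:
  `tot x p' c - tot x p c - tot p p' c + tot p p c = 0`.  The first two terms vanish: `x` is a product of elementary
  polynomials of degree `< d`, so by Step 1 they are sums of terms with `r = 1`; the last one is `tot p (-1) c = 0`.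
* `r = 3`: `a = p, b = p', c = p''`. If `p = p'`: `tot p p p'' = tot p (-1) p''`, `r = 2`.  Otherwise, as before,
  `tot p p' p'' = tot x p' p'' - tot x p p'' + tot p (-1) p''`, all terms with `r ≤ 2`.
It is convenient to first prove the statement '`tot s T' S a b c = 0` if all irreducible factors of `a`, `b` have degree `< d`
and those of `c` degree `≤ d`', then '... if those of `a` have degree `< d`', then the full statement, each time with
`S` a fixed set which covers everything.
-/

namespace Pool.Agent.H94.PM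

open Polynomial

variable {k A : Type*} [Field k] [AddCommGroup A]

/-- nonzero, all monic irreducible factors of degree less than `n` -/
private def Sx (n : ℕ) (f : k[X]) : Prop :=
  f ≠ 0 ∧ ∀ q : k[X], q.Monic → Irreducible q → q ∣ f → q.natDegree < n

private theorem Sx.mono {m n : ℕ} {f : k[X]} (h : Sx m f) (hmn : m ≤ n) : Sx n f :=
  ⟨h.1, fun q hq hi hd => (h.2 q hq hi hd).trans_le hmn⟩

private theorem Sx.mul {n : ℕ} {f g : k[X]} (h : Sx n f) (h' : Sx n g) : Sx n (f * g) :=
  ⟨mul_ne_zero h.1 h'.1, fun q hq hi hd =>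
    (hi.prime.dvd_or_dvd hd).elim (h.2 q hq hi) (h'.2 q hq hi)⟩

private theorem Sx.of_mul {n : ℕ} {f g : k[X]} (h : Sx n (f * g)) : Sx n f ∧ Sx n g :=
  ⟨⟨left_ne_zero_of_mul h.1, fun q hq hi hd => h.2 q hq hi (hd.mul_right g)⟩,
    ⟨right_ne_zero_of_mul h.1, fun q hq hi hd => h.2 q hq hi (hd.mul_left f)⟩⟩

private theorem Sx_C {n : ℕ} {a : k} (ha : a ≠ 0) : Sx n (C a) := by
  refine ⟨C_ne_zero.2 ha, fun q _ hi hd => ?_⟩
  exact absurd (isUnit_of_dvd_unit hd (isUnit_C.2 (isUnit_iff_ne_zero.2 ha))) hi.not_isUnit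

private theorem Sx_neg_one {n : ℕ} : Sx n (-1 : k[X]) := by
  have h : (-1 : k[X]) = C (-1) := by rw [C_neg, C_1]
  rw [h]
  exact Sx_C (neg_ne_zero.2 one_ne_zero)

private theorem Sx_deg {n : ℕ} {f : k[X]} (h0 : f ≠ 0) (hf : f.natDegree < n) : Sx n f :=
  ⟨h0, fun _ _ _ hd => (natDegree_le_of_dvd hd h0).trans_lt hf⟩

private theorem Sx_irr {n : ℕ} {p : k[X]} (hpi : Irreducible p) (hf : p.natDegree < n) :
    Sx n p := Sx_deg hpi.ne_zero hf

private theorem Sx_ind {n : ℕ} {P : k[X] → Prop} (hc : ∀ a : k, a ≠ 0 → P (C a))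
    (hp : ∀ p : k[X], p.Monic → Irreducible p → p.natDegree < n → P p)
    (hm : ∀ x y : k[X], Sx n x → Sx n y → P x → P y → P (x * y)) :
    ∀ (N : ℕ) (f : k[X]), f.natDegree ≤ N → Sx n f → P f := by
  intro N
  induction N with
  | zero =>
    intro f hf hs
    have h1 : f = C (f.coeff 0) := eq_C_of_natDegree_le_zero hf
    rw [h1]
    apply hc
    intro h2
    apply hs.1
    rw [h1, h2, C_0]
  | succ N ih =>
    intro f hf hs
    by_cases hu : IsUnit f
    · obtain ⟨a, ha, rfl⟩ := Polynomial.isUnit_iff.1 hu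
      exact hc a ha.ne_zero
    · obtain ⟨q, hq, hqi, g, rfl⟩ := exists_monic_irreducible_factor f hu
      obtain ⟨h1, h2⟩ := hs.of_mul
      have h3 : 0 < q.natDegree := hqi.natDegree_pos
      rw [natDegree_mul h1.1 h2.1] at hf
      exact hm q g h1 h2 (hp q hq hqi (h1.2 q hq hqi dvd_rfl)) (ih g (by omega) h2)

/-- the properties of the total residue which are used -/
private structure TV (d : ℕ) (tv : k[X] → k[X] → k[X] → A) : Prop where
  mul : ∀ a a' b c : k[X], Sx (d + 1) a → Sx (d + 1) a' → Sx (d + 1) b → Sx (d + 1) c →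
    tv (a * a') b c = tv a b c + tv a' b c
  sw12 : ∀ a b c : k[X], Sx (d + 1) a → Sx (d + 1) b → Sx (d + 1) c → tv a b c = -tv b a c
  sw23 : ∀ a b c : k[X], Sx (d + 1) a → Sx (d + 1) b → Sx (d + 1) c → tv a b c = -tv a c b
  self : ∀ a c : k[X], Sx (d + 1) a → Sx (d + 1) c → tv a a c = tv a (-1) c
  hom : ∀ x y z t : k[X], Sx (d + 1) x → Sx (d + 1) y → Sx (d + 1) z → Sx (d + 1) t → x + y = z →
    tv x y t - tv x z t - tv z y t + tv z z t = 0
  b0 : ∀ a b c : k[X], Sx d a → Sx d b → Sx d c → tv a b c = 0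
  b1 : ∀ a b p : k[X], a ≠ 0 → b ≠ 0 → p.Monic → Irreducible p → p.natDegree = d →
    a.natDegree < d → b.natDegree < d → tv a b p = 0

section
variable {d : ℕ} {tv : k[X] → k[X] → k[X] → A}

private theorem TV.cyc (h : TV d tv) {a b c : k[X]} (ha : Sx (d + 1) a) (hb : Sx (d + 1) b)
    (hc : Sx (d + 1) c) : tv a b c = tv b c a := by
  rw [h.sw12 a b c ha hb hc, h.sw23 b a c hb ha hc, neg_neg]

private theorem TV.mul2 (h : TV d tv) {a b b' c : k[X]} (ha : Sx (d + 1) a) (hb : Sx (d + 1) b)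
    (hb' : Sx (d + 1) b') (hc : Sx (d + 1) c) :
    tv a (b * b') c = tv a b c + tv a b' c := by
  rw [h.cyc ha (hb.mul hb') hc, h.mul b b' c a hb hb' hc ha, h.cyc ha hb hc, h.cyc ha hb' hc]

private theorem TV.mul3 (h : TV d tv) {a b c c' : k[X]} (ha : Sx (d + 1) a) (hb : Sx (d + 1) b)
    (hc : Sx (d + 1) c) (hc' : Sx (d + 1) c') :
    tv a b (c * c') = tv a b c + tv a b c' := by
  rw [← h.cyc (hc.mul hc') ha hb, h.mul c c' a b hc hc' ha hb, h.cyc hc ha hb, h.cyc hc' ha hb]

private theorem TV.b1' (h : TV d tv) {p : k[X]} (hp : p.Monic) (hpi : Irreducible p)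
    (hd : p.natDegree = d) {a b : k[X]} (ha : Sx d a) (hb : Sx d b) : tv a b p = 0 := by
  have hd0 : 0 < d := hd ▸ hpi.natDegree_pos
  have hpS : Sx (d + 1) p := Sx_irr hpi (by omega)
  have key : ∀ a0 : k[X], a0 ≠ 0 → a0.natDegree < d → tv a0 b p = 0 := by
    intro a0 h0 hd1
    have ha0 : Sx (d + 1) a0 := Sx_deg h0 (by omega)
    refine Sx_ind (n := d) (P := fun b => tv a0 b p = 0) ?_ ?_ ?_ b.natDegree b le_rfl hb
    · intro x hx
      exact h.b1 a0 (C x) p h0 (C_ne_zero.2 hx) hp hpi hd hd1 (by rw [natDegree_C]; exact hd0)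
    · intro q _ hqi hqd
      exact h.b1 a0 q p h0 hqi.ne_zero hp hpi hd hd1 hqd
    · intro x y hx hy h1 h2
      rw [h.mul2 ha0 (hx.mono (by omega)) (hy.mono (by omega)) hpS, h1, h2, add_zero]
  refine Sx_ind (n := d) (P := fun a => tv a b p = 0) ?_ ?_ ?_ a.natDegree a le_rfl ha
  · intro x hx
    exact key (C x) (C_ne_zero.2 hx) (by rw [natDegree_C]; exact hd0)
  · intro q _ hqi hqd
    exact key q hqi.ne_zero hqd
  · intro x y hx hy h1 h2
    rw [h.mul x y b p (hx.mono (by omega)) (hy.mono (by omega)) (hb.mono (by omega)) hpS, h1, h2,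
      add_zero]

private theorem TV.b1'' (h : TV d tv) {a b c : k[X]} (ha : Sx d a) (hb : Sx d b)
    (hc : Sx (d + 1) c) : tv a b c = 0 := by
  refine Sx_ind (n := d + 1) (P := fun c => tv a b c = 0) ?_ ?_ ?_ c.natDegree c le_rfl hc
  · intro x hx
    exact h.b0 a b (C x) ha hb (Sx_C hx)
  · intro q hq hqi hqd
    by_cases hqd' : q.natDegree = d
    · exact h.b1' hq hqi hqd' ha hb
    · exact h.b0 a b q ha hb (Sx_irr hqi (by omega))
  · intro x y hx hy h1 h2
    rw [h.mul3 (ha.mono (by omega)) (hb.mono (by omega)) hx hy, h1, h2, add_zero]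

/-- two large entries -/
private theorem TV.two (h : TV d tv) {a p q : k[X]} (ha : Sx d a) (hp : p.Monic)
    (hpi : Irreducible p) (hpd : p.natDegree = d) (hq : q.Monic) (hqi : Irreducible q)
    (hqd : q.natDegree = d) : tv p q a = 0 := by
  have ha' : Sx (d + 1) a := ha.mono (by omega)
  have hpS : Sx (d + 1) p := Sx_irr hpi (by omega)
  have hqS : Sx (d + 1) q := Sx_irr hqi (by omega)
  have h1 : tv p p a = 0 := by
    rw [h.self p a hpS ha', h.cyc hpS Sx_neg_one ha']
    exact h.b1' hp hpi hpd Sx_neg_one ha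
  by_cases hpq : p = q
  · rw [← hpq]
    exact h1
  · have hx0 : p - q ≠ 0 := sub_ne_zero.2 hpq
    have hd0 : 0 < d := hpd ▸ hpi.natDegree_pos
    have hxd : (p - q).natDegree < d := by
      have h2 : (p - q).degree < p.degree := by
        apply degree_sub_lt_left
        · rw [degree_eq_natDegree hpi.ne_zero, degree_eq_natDegree hqi.ne_zero, hpd, hqd]
        · exact hpi.ne_zero
        · rw [hp.leadingCoeff, hq.leadingCoeff]
      have h3 := natDegree_lt_natDegree hx0 h2
      omega
    have hx : Sx d (p - q) := Sx_deg hx0 hxd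
    have hx' : Sx (d + 1) (p - q) := hx.mono (by omega)
    have h4 := h.hom (p - q) q p a hx' hqS hpS ha' (sub_add_cancel p q)
    have h5 : tv (p - q) q a = 0 := by
      rw [h.sw23 _ _ _ hx' hqS ha', h.b1' hq hqi hqd hx ha, neg_zero]
    have h6 : tv (p - q) p a = 0 := by
      rw [h.sw23 _ _ _ hx' hpS ha', h.b1' hp hpi hpd hx ha, neg_zero]
    rw [h5, h6, h1, sub_zero, add_zero, zero_sub, neg_eq_zero] at h4
    exact h4

private theorem TV.b2 (h : TV d tv) {a b c : k[X]} (ha : Sx d a) (hb : Sx (d + 1) b)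
    (hc : Sx (d + 1) c) : tv a b c = 0 := by
  have ha' : Sx (d + 1) a := ha.mono (by omega)
  refine Sx_ind (n := d + 1) (P := fun b => tv a b c = 0) ?_ ?_ ?_ b.natDegree b le_rfl hb
  · intro x hx
    exact h.b1'' ha (Sx_C hx) hc
  · intro p hp hpi hpd
    by_cases hpd' : p.natDegree = d
    · have hpS : Sx (d + 1) p := Sx_irr hpi hpd
      refine Sx_ind (n := d + 1) (P := fun c => tv a p c = 0) ?_ ?_ ?_ c.natDegree c le_rfl hc
      · intro x hx
        rw [h.sw23 _ _ _ ha' hpS (Sx_C hx), h.b1'' ha (Sx_C hx) hpS, neg_zero]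
      · intro q hq hqi hqd
        have hqS : Sx (d + 1) q := Sx_irr hqi hqd
        by_cases hqd' : q.natDegree = d
        · rw [h.cyc ha' hpS hqS]
          exact h.two ha hp hpi hpd' hq hqi hqd'
        · rw [h.sw23 _ _ _ ha' hpS hqS, h.b1'' ha (Sx_irr hqi (by omega)) hpS, neg_zero]
      · intro x y hx hy h1 h2
        rw [h.mul3 ha' hpS hx hy, h1, h2, add_zero]
    · exact h.b1'' ha (Sx_irr hpi (by omega)) hc
  · intro x y hx hy h1 h2
    rw [h.mul2 ha' hx hy hc, h1, h2, add_zero]

/-- three large entries -/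
private theorem TV.three (h : TV d tv) {a p q : k[X]} (ha : Sx (d + 1) a) (hp : p.Monic)
    (hpi : Irreducible p) (hpd : p.natDegree = d) (hq : q.Monic) (hqi : Irreducible q)
    (hqd : q.natDegree = d) : tv p q a = 0 := by
  have hpS : Sx (d + 1) p := Sx_irr hpi (by omega)
  have hqS : Sx (d + 1) q := Sx_irr hqi (by omega)
  have h1 : tv p p a = 0 := by
    rw [h.self p a hpS ha, h.cyc hpS Sx_neg_one ha]
    exact h.b2 Sx_neg_one ha hpS
  by_cases hpq : p = q
  · rw [← hpq]
    exact h1
  · have hx0 : p - q ≠ 0 := sub_ne_zero.2 hpq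
    have hd0 : 0 < d := hpd ▸ hpi.natDegree_pos
    have hxd : (p - q).natDegree < d := by
      have h2 : (p - q).degree < p.degree := by
        apply degree_sub_lt_left
        · rw [degree_eq_natDegree hpi.ne_zero, degree_eq_natDegree hqi.ne_zero, hpd, hqd]
        · exact hpi.ne_zero
        · rw [hp.leadingCoeff, hq.leadingCoeff]
      have h3 := natDegree_lt_natDegree hx0 h2
      omega
    have hx : Sx d (p - q) := Sx_deg hx0 hxd
    have hx' : Sx (d + 1) (p - q) := hx.mono (by omega)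
    have h4 := h.hom (p - q) q p a hx' hqS hpS ha (sub_add_cancel p q)
    rw [h.b2 hx hqS ha, h.b2 hx hpS ha, h1, sub_zero, add_zero, zero_sub, neg_eq_zero] at h4
    exact h4

private theorem TV.all (h : TV d tv) {a b c : k[X]} (ha : Sx (d + 1) a) (hb : Sx (d + 1) b)
    (hc : Sx (d + 1) c) : tv a b c = 0 := by
  refine Sx_ind (n := d + 1) (P := fun a => tv a b c = 0) ?_ ?_ ?_ a.natDegree a le_rfl ha
  · intro x hx
    exact h.b2 (Sx_C hx) hb hc
  · intro p hp hpi hpd
    have hpS : Sx (d + 1) p := Sx_irr hpi hpd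
    by_cases hpd' : p.natDegree = d
    · refine Sx_ind (n := d + 1) (P := fun b => tv p b c = 0) ?_ ?_ ?_ b.natDegree b le_rfl hb
      · intro x hx
        rw [h.sw12 _ _ _ hpS (Sx_C hx) hc, h.b2 (Sx_C hx) hpS hc, neg_zero]
      · intro q hq hqi hqd
        have hqS : Sx (d + 1) q := Sx_irr hqi hqd
        by_cases hqd' : q.natDegree = d
        · exact h.three hc hp hpi hpd' hq hqi hqd'
        · rw [h.sw12 _ _ _ hpS hqS hc, h.b2 (Sx_irr hqi (by omega)) hpS hc, neg_zero]
      · intro x y hx hy h1 h2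
        rw [h.mul2 hpS hx hy hc, h1, h2, add_zero]
    · exact h.b2 (Sx_irr hpi (by omega)) hb hc
  · intro x y hx hy h1 h2
    rw [h.mul x y b c hx hy hb hc, h1, h2, add_zero]

end

private theorem TS2_new {s : Sy k A} {T : k[X] → k[X] → k[X] → A} {d : ℕ} {q : k[X]}
    (hq : q.natDegree < d) : newT s T d q = T q := by
  funext x y
  unfold newT
  rw [if_pos hq]

private theorem TS2_fam {s : Sy k A} {T : k[X] → k[X] → k[X] → A} {d : ℕ} (hT : FamD T d)
    (hR : Rec s T d) : FamD (newT s T d) (d + 1) := by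
  intro q hq hqi hqd
  by_cases h : q.natDegree < d
  · rw [TS2_new h]
    exact hT q hq hqi h
  · exact newT_isT hT hR hq hqi (by omega)

/-- the total residue does not depend on the set -/
private theorem TS2_tot {s : Sy k A} {T : k[X] → k[X] → k[X] → A} {S : Finset k[X]}
    (hS : ∀ q ∈ S, q.Monic ∧ Irreducible q) {a b c : k[X]} (ha : a ≠ 0) (hb : b ≠ 0) (hc : c ≠ 0)
    (hcov : Covers S (a * b * c)) : tot s T S a b c = tot s T (PFs (a * b * c)) a b c := by
  have h0 : a * b * c ≠ 0 := mul_ne_zero (mul_ne_zero ha hb) hc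
  apply tot_subset
  · intro q hq
    rw [mem_PFs h0] at hq
    exact hcov q hq.1 hq.2.1 hq.2.2
  · intro q hq hq'
    obtain ⟨h1, h2⟩ := hS q hq
    have h3 : ¬ q ∣ a * b * c := fun h => hq' ((mem_PFs h0).2 ⟨h1, h2, h⟩)
    refine ⟨fun h => h3 ?_, fun h => h3 ?_, fun h => h3 ?_⟩
    · exact (h.mul_right b).mul_right c
    · exact (h.mul_left a).mul_right c
    · exact h.mul_left (a * b)

private theorem TS2_cov {f g : k[X]} (hg : g ≠ 0) (h : f ∣ g) : Covers (PFs g) f := fun _ hq hqi hd =>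
  (mem_PFs hg).2 ⟨hq, hqi, hd.trans h⟩

private theorem TS2_mon {g : k[X]} (hg : g ≠ 0) : ∀ q ∈ PFs g, q.Monic ∧ Irreducible q :=
  fun _ hq => ⟨((mem_PFs hg).1 hq).1, ((mem_PFs hg).1 hq).2.1⟩

private theorem TS2_sm {n : ℕ} {g : k[X]} (hg : Sx n g) : Sm (PFs g) n := fun q hq => by
  obtain ⟨h1, h2, h3⟩ := (mem_PFs hg.1).1 hq
  exact ⟨h1, h2, hg.2 q h1 h2 h3⟩

private theorem TS2_big {s : Sy k A} {T : k[X] → k[X] → k[X] → A} {g : k[X]} (hg : g ≠ 0)
    {a b c : k[X]} (h : a * b * c ∣ g) : tot s T (PFs (a * b * c)) a b c = tot s T (PFs g) a b c := by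
  have h0 : a * b * c ≠ 0 := ne_zero_of_dvd_ne_zero hg h
  symm
  exact TS2_tot (TS2_mon hg) (left_ne_zero_of_mul (left_ne_zero_of_mul h0))
    (right_ne_zero_of_mul (left_ne_zero_of_mul h0)) (right_ne_zero_of_mul h0) (TS2_cov hg h)

private theorem TS2_TV {s : Sy k A} {T : k[X] → k[X] → k[X] → A} {d : ℕ} (hT : FamD T d)
    (hR : Rec s T d) :
    TV d (fun a b c : k[X] => tot s (newT s T d) (PFs (a * b * c)) a b c) where
  mul := by
    intro a a' b c ha ha' hb hc
    have hg : Sx (d + 1) (a * a' * b * c) := ((ha.mul ha').mul hb).mul hc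
    have hF : Fam (newT s T d) (PFs (a * a' * b * c)) := (TS2_fam hT hR).fam (TS2_sm hg)
    show tot s (newT s T d) (PFs (a * a' * b * c)) (a * a') b c =
      tot s (newT s T d) (PFs (a * b * c)) a b c + tot s (newT s T d) (PFs (a' * b * c)) a' b c
    rw [TS2_big hg.1 (a := a) (b := b) (c := c) ⟨a', by ring⟩,
      TS2_big hg.1 (a := a') (b := b) (c := c) ⟨a, by ring⟩]
    exact tot_mul hF ha.1 ha'.1 hb.1 hc.1
  sw12 := by
    intro a b c ha hb hc
    have hg : Sx (d + 1) (a * b * c) := (ha.mul hb).mul hc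
    have hF : Fam (newT s T d) (PFs (a * b * c)) := (TS2_fam hT hR).fam (TS2_sm hg)
    show tot s (newT s T d) (PFs (a * b * c)) a b c = -tot s (newT s T d) (PFs (b * a * c)) b a c
    rw [TS2_big hg.1 (a := b) (b := a) (c := c) ⟨1, by ring⟩]
    exact tot_swap12 hF ha.1 hb.1 hc.1
  sw23 := by
    intro a b c ha hb hc
    have hg : Sx (d + 1) (a * b * c) := (ha.mul hb).mul hc
    have hF : Fam (newT s T d) (PFs (a * b * c)) := (TS2_fam hT hR).fam (TS2_sm hg)
    show tot s (newT s T d) (PFs (a * b * c)) a b c = -tot s (newT s T d) (PFs (a * c * b)) a c b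
    rw [TS2_big hg.1 (a := a) (b := c) (c := b) ⟨1, by ring⟩]
    exact tot_swap23 hF ha.1 hb.1 hc.1
  self := by
    intro a c ha hc
    have hg : Sx (d + 1) (a * a * c) := (ha.mul ha).mul hc
    have hF : Fam (newT s T d) (PFs (a * a * c)) := (TS2_fam hT hR).fam (TS2_sm hg)
    show tot s (newT s T d) (PFs (a * a * c)) a a c =
      tot s (newT s T d) (PFs (a * (-1) * c)) a (-1) c
    rw [TS2_big hg.1 (a := a) (b := -1) (c := c) ⟨-a, by ring⟩]
    exact tot_self hF ha.1 hc.1
  hom := by
    intro x y z t hx hy hz ht hxy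
    have hg : Sx (d + 1) (x * y * z * z * t) := (((hx.mul hy).mul hz).mul hz).mul ht
    have hF : Fam (newT s T d) (PFs (x * y * z * z * t)) := (TS2_fam hT hR).fam (TS2_sm hg)
    show tot s (newT s T d) (PFs (x * y * t)) x y t - tot s (newT s T d) (PFs (x * z * t)) x z t -
      tot s (newT s T d) (PFs (z * y * t)) z y t + tot s (newT s T d) (PFs (z * z * t)) z z t = 0
    rw [TS2_big hg.1 (a := x) (b := y) (c := t) ⟨z * z, by ring⟩,
      TS2_big hg.1 (a := x) (b := z) (c := t) ⟨y * z, by ring⟩,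
      TS2_big hg.1 (a := z) (b := y) (c := t) ⟨x * z, by ring⟩,
      TS2_big hg.1 (a := z) (b := z) (c := t) ⟨x * y, by ring⟩]
    exact tot_hom hF hx.1 hy.1 hz.1 ht.1 hxy
  b0 := by
    intro a b c ha hb hc
    have hg : Sx d (a * b * c) := (ha.mul hb).mul hc
    have hS := TS2_sm hg
    show tot s (newT s T d) (PFs (a * b * c)) a b c = 0
    rw [← tot_congr (T := T) (fun q hq => (TS2_new (hS q hq).2.2).symm) a b c]
    exact hR _ a b c ha.1 hb.1 hc.1 hS (TS2_cov hg.1 dvd_rfl)
  b1 := by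
    intro a b p ha hb hp hpi hpd had hbd
    have hg0 : a * b * p ≠ 0 := mul_ne_zero (mul_ne_zero ha hb) hpi.ne_zero
    have hpa : ¬ p ∣ a := fun h => by
      have := natDegree_le_of_dvd h ha
      omega
    have hpb : ¬ p ∣ b := fun h => by
      have := natDegree_le_of_dvd h hb
      omega
    have hp1 : ¬ p ∣ 1 := fun h => hpi.not_isUnit (isUnit_of_dvd_one h)
    have hpS : p ∈ PFs (a * b * p) := (mem_PFs hg0).2 ⟨hp, hpi, Dvd.intro_left _ rfl⟩
    classical
    set S0 := (PFs (a * b * p)).erase p with hS0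
    have hmem : ∀ q ∈ S0, q.Monic ∧ Irreducible q ∧ (q ∣ a ∨ q ∣ b) := by
      intro q hq
      rw [hS0, Finset.mem_erase, mem_PFs hg0] at hq
      obtain ⟨h1, h2, h3, h4⟩ := hq
      refine ⟨h2, h3, ?_⟩
      rcases h3.prime.dvd_or_dvd h4 with h5 | h5
      · exact h3.prime.dvd_or_dvd h5
      · exfalso
        apply h1
        exact eq_of_monic_of_associated h2 hp (h3.associated_of_dvd hpi h5)
    have hSm : Sm S0 d := by
      intro q hq
      obtain ⟨h1, h2, h3⟩ := hmem q hq
      refine ⟨h1, h2, ?_⟩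
      rcases h3 with h3 | h3
      · exact (natDegree_le_of_dvd h3 ha).trans_lt had
      · exact (natDegree_le_of_dvd h3 hb).trans_lt hbd
    have hdeg : ∀ f : k[X], f ≠ 0 → f.natDegree < d → f %ₘ p = f := by
      intro f hf hfd
      rw [modByMonic_eq_self_iff hp, degree_eq_natDegree hf, degree_eq_natDegree hpi.ne_zero, hpd]
      exact_mod_cast hfd
    have hea := hdeg a ha had
    have heb := hdeg b hb hbd
    have hnew := newT_eq (s := s) (T := T) hp hpi hpd hSm hpa hpb (by
      rw [hea, heb]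
      intro q hq hqi hqd
      rw [hS0, Finset.mem_erase, mem_PFs hg0]
      refine ⟨?_, hq, hqi, hqd.mul_right p⟩
      rintro rfl
      rcases hqi.prime.dvd_or_dvd hqd with h | h
      · exact hpa h
      · exact hpb h)
    rw [hea, heb] at hnew
    have hea2 := up_eq hpi (x := a) (i := 0) (u := a) (by rw [pow_zero, one_mul]) hpa
    have heb2 := up_eq hpi (x := b) (i := 0) (u := b) (by rw [pow_zero, one_mul]) hpb
    have hep2 := up_eq hpi (x := p) (i := 1) (u := 1) (by rw [pow_one, mul_one]) hp1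
    have hrp : rp (newT s T d p) p a b p = newT s T d p a b := by
      have wa : wp p a = 0 := by unfold wp; rw [hea2.1]; rfl
      have wb : wp p b = 0 := by unfold wp; rw [heb2.1]; rfl
      have wp1 : wp p p = 1 := by unfold wp; rw [hep2.1]; rfl
      unfold rp res
      rw [wa, wb, wp1]
      beta_reduce
      rw [hea2.2, heb2.2]
      simp
    show tot s (newT s T d) (PFs (a * b * p)) a b p = 0
    have h1 : tot s (newT s T d) (PFs (a * b * p)) a b p =
        rp (newT s T d p) p a b p + tot s (newT s T d) S0 a b p := by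
      unfold tot
      rw [← Finset.add_sum_erase _ _ hpS, add_assoc]
    rw [h1, hrp, hnew, tot_congr (T := newT s T d) (T' := T)
      (fun q hq => TS2_new (hSm q hq).2.2) a b p, neg_add_cancel]

theorem rec_succ {s : Sy k A} {T : k[X] → k[X] → k[X] → A} {d : ℕ} (hT : FamD T d)
    (hR : Rec s T d) : Rec s (newT s T d) (d + 1) := by
  intro S a b c ha hb hc hS hcov
  rw [TS2_tot (fun q hq => ⟨(hS q hq).1, (hS q hq).2.1⟩) ha hb hc hcov]
  have hsx : ∀ f : k[X], f ≠ 0 → f ∣ a * b * c → Sx (d + 1) f := fun f hf hd =>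
    ⟨hf, fun q hq hqi hqd => (hS q (hcov q hq hqi (hqd.trans hd))).2.2⟩
  exact (TS2_TV hT hR).all (hsx a ha ⟨b * c, by ring⟩) (hsx b hb ⟨a * c, by ring⟩)
    (hsx c hc ⟨a * b, by ring⟩)

end Pool.Agent.H94.PM
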