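import Pool.Agent.H94.PM.TI
import Pool.Agent.H94.PM.TP

set_option autoImplicit false

/-!
# [H94 PM TT] The total residue of `{a, b, c}`

`T q` is a symbol at each monic irreducible `q` of a finite set `S`. All statements follow from the corresponding
statements of TD applied to `isRD_p` (for `q ∈ S`) and `isRD_inf`, by summation (`Finset.sum_add_distrib`,
`Finset.sum_neg_distrib`, ...).
* `rp_zero`: if `q` divides none of `a`, `b`, `c` then all multiplicities are zero (`multiplicity_eq_zero`), so `rp = 0`.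
* `tot_subset`: `S ⊆ S'` and the elements of `S'` outside `S` are coprime to `a b c`: `Finset.sum_subset`, `rp_zero`.
* `tot_prod3`, `tot_mul2`, `tot_mul3`: multiplicativity in the other slots by the swaps.
-/

namespace Pool.Agent.H94.PM

open Polynomial

variable {k A : Type*} [Field k] [AddCommGroup A]

/-- the residue at infinity -/
noncomputable def ri (s : Sy k A) (a b c : k[X]) : A :=
  res (fun x : k[X] => -(x.natDegree : ℤ)) (fun x y : k[X] => s.s x.leadingCoeff y.leadingCoeff)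
    a b c

/-- the residue at `p` -/
noncomputable def rp (T : k[X] → k[X] → A) (p a b c : k[X]) : A :=
  res (wp p) (fun x y => T (up p x) (up p y)) a b c

/-- the sum of the residues at the elements of `S` and at infinity -/
noncomputable def tot (s : Sy k A) (T : k[X] → k[X] → k[X] → A) (S : Finset k[X])
    (a b c : k[X]) : A :=
  ∑ q ∈ S, rp (T q) q a b c + ri s a b c

/-- `T` is a family of symbols on the set `S` of irreducible polynomials -/
def Fam (T : k[X] → k[X] → k[X] → A) (S : Finset k[X]) : Prop :=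
  ∀ q ∈ S, Irreducible q ∧ IsT q (T q)

theorem rp_zero {T : k[X] → k[X] → A} {p a b c : k[X]} (ha : ¬ p ∣ a) (hb : ¬ p ∣ b)
    (hc : ¬ p ∣ c) : rp T p a b c = 0 := by
  have h1 : ∀ x : k[X], ¬ p ∣ x → wp p x = 0 := by
    intro x hx
    unfold wp
    rw [multiplicity_eq_zero.2 hx]
    rfl
  unfold rp res
  rw [h1 a ha, h1 b hb, h1 c hc]
  simp

variable {s : Sy k A} {T : k[X] → k[X] → k[X] → A} {S : Finset k[X]}

theorem tot_mul (hS : Fam T S) {a a' b c : k[X]} (ha : a ≠ 0) (ha' : a' ≠ 0) (hb : b ≠ 0)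
    (hc : c ≠ 0) : tot s T S (a * a') b c = tot s T S a b c + tot s T S a' b c := by
  unfold tot
  have h1 : ∀ q ∈ S, rp (T q) q (a * a') b c = rp (T q) q a b c + rp (T q) q a' b c :=
    fun q hq => res_mul (isRD_p (hS q hq).1 (hS q hq).2) ha ha' hb hc
  have h2 : ri s (a * a') b c = ri s a b c + ri s a' b c := res_mul (isRD_inf s) ha ha' hb hc
  rw [Finset.sum_congr rfl h1, Finset.sum_add_distrib, h2]
  abel

theorem tot_swap12 (hS : Fam T S) {a b c : k[X]} (ha : a ≠ 0) (hb : b ≠ 0) (hc : c ≠ 0) :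
    tot s T S a b c = -tot s T S b a c := by
  unfold tot
  have h1 : ∀ q ∈ S, rp (T q) q a b c = -rp (T q) q b a c :=
    fun q hq => res_swap12 (isRD_p (hS q hq).1 (hS q hq).2) ha hb hc
  have h2 : ri s a b c = -ri s b a c := res_swap12 (isRD_inf s) ha hb hc
  rw [Finset.sum_congr rfl h1, Finset.sum_neg_distrib, h2]
  abel

theorem tot_swap23 (hS : Fam T S) {a b c : k[X]} (ha : a ≠ 0) (hb : b ≠ 0) (hc : c ≠ 0) :
    tot s T S a b c = -tot s T S a c b := by
  unfold tot
  have h1 : ∀ q ∈ S, rp (T q) q a b c = -rp (T q) q a c b :=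
    fun q hq => res_swap23 (isRD_p (hS q hq).1 (hS q hq).2) ha hb hc
  have h2 : ri s a b c = -ri s a c b := res_swap23 (isRD_inf s) ha hb hc
  rw [Finset.sum_congr rfl h1, Finset.sum_neg_distrib, h2]
  abel

theorem tot_mul2 (hS : Fam T S) {a b b' c : k[X]} (ha : a ≠ 0) (hb : b ≠ 0) (hb' : b' ≠ 0)
    (hc : c ≠ 0) : tot s T S a (b * b') c = tot s T S a b c + tot s T S a b' c := by
  rw [tot_swap12 hS ha (mul_ne_zero hb hb') hc, tot_mul hS hb hb' ha hc, tot_swap12 hS hb ha hc,
    tot_swap12 hS hb' ha hc]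
  abel

theorem tot_mul3 (hS : Fam T S) {a b c c' : k[X]} (ha : a ≠ 0) (hb : b ≠ 0) (hc : c ≠ 0)
    (hc' : c' ≠ 0) : tot s T S a b (c * c') = tot s T S a b c + tot s T S a b c' := by
  rw [tot_swap23 hS ha hb (mul_ne_zero hc hc'), tot_mul2 hS ha hc hc' hb, tot_swap23 hS ha hc hb,
    tot_swap23 hS ha hc' hb]
  abel

theorem tot_self (hS : Fam T S) {a c : k[X]} (ha : a ≠ 0) (hc : c ≠ 0) :
    tot s T S a a c = tot s T S a (-1) c := by
  unfold tot
  have h1 : ∀ q ∈ S, rp (T q) q a a c = rp (T q) q a (-1) c :=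
    fun q hq => res_self (isRD_p (hS q hq).1 (hS q hq).2) ha hc
  have h2 : ri s a a c = ri s a (-1) c := res_self (isRD_inf s) ha hc
  rw [Finset.sum_congr rfl h1, h2]

theorem tot_hom (hS : Fam T S) {x y z t : k[X]} (hx : x ≠ 0) (hy : y ≠ 0) (hz : z ≠ 0)
    (ht : t ≠ 0) (hxy : x + y = z) :
    tot s T S x y t - tot s T S x z t - tot s T S z y t + tot s T S z z t = 0 := by
  unfold tot
  have h1 : ∀ q ∈ S, rp (T q) q x y t - rp (T q) q x z t - rp (T q) q z y t + rp (T q) q z z t = 0 :=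
    fun q hq => res_hom (isRD_p (hS q hq).1 (hS q hq).2) hx hy hz ht hxy
  have h2 : ri s x y t - ri s x z t - ri s z y t + ri s z z t = 0 :=
    res_hom (isRD_inf s) hx hy hz ht hxy
  have h3 := Finset.sum_congr (rfl : S = S) h1
  rw [Finset.sum_add_distrib, Finset.sum_sub_distrib, Finset.sum_sub_distrib,
    Finset.sum_const_zero] at h3
  calc ∑ q ∈ S, rp (T q) q x y t + ri s x y t - (∑ q ∈ S, rp (T q) q x z t + ri s x z t) -
      (∑ q ∈ S, rp (T q) q z y t + ri s z y t) + (∑ q ∈ S, rp (T q) q z z t + ri s z z t)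
      = (∑ q ∈ S, rp (T q) q x y t - ∑ q ∈ S, rp (T q) q x z t - ∑ q ∈ S, rp (T q) q z y t +
        ∑ q ∈ S, rp (T q) q z z t) +
        (ri s x y t - ri s x z t - ri s z y t + ri s z z t) := by abel
    _ = 0 := by rw [h3, h2, add_zero]

theorem tot_subset {S' : Finset k[X]} (hSS : S ⊆ S') {a b c : k[X]}
    (h : ∀ q ∈ S', q ∉ S → ¬ q ∣ a ∧ ¬ q ∣ b ∧ ¬ q ∣ c) :
    tot s T S' a b c = tot s T S a b c := by
  unfold tot
  congr 1
  symm
  refine Finset.sum_subset hSS fun q hq hq' => ?_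
  obtain ⟨h1, h2, h3⟩ := h q hq hq'
  exact rp_zero h1 h2 h3

theorem tot_congr {T' : k[X] → k[X] → k[X] → A} (h : ∀ q ∈ S, T q = T' q) (a b c : k[X]) :
    tot s T S a b c = tot s T' S a b c := by
  unfold tot
  congr 1
  refine Finset.sum_congr rfl fun q hq => ?_
  rw [h q hq]

/-- `S` contains only monic irreducible polynomials of degree less than `d` -/
def Sm (S : Finset k[X]) (d : ℕ) : Prop := ∀ q ∈ S, q.Monic ∧ Irreducible q ∧ q.natDegree < d

/-- `T` is a family of symbols in degrees less than `d` -/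
def FamD (T : k[X] → k[X] → k[X] → A) (d : ℕ) : Prop :=
  ∀ q : k[X], q.Monic → Irreducible q → q.natDegree < d → IsT q (T q)

/-- the monic irreducible factors of `f` are in `S` -/
def Covers (S : Finset k[X]) (f : k[X]) : Prop := ∀ q : k[X], q.Monic → Irreducible q → q ∣ f → q ∈ S

/-- the reciprocity law in degrees less than `d` -/
def Rec (s : Sy k A) (T : k[X] → k[X] → k[X] → A) (d : ℕ) : Prop :=
  ∀ (S : Finset k[X]) (a b c : k[X]), a ≠ 0 → b ≠ 0 → c ≠ 0 → Sm S d → Covers S (a * b * c) →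
    tot s T S a b c = 0

theorem FamD.fam {d : ℕ} (hT : FamD T d) (hS : Sm S d) : Fam T S :=
  fun q hq => ⟨(hS q hq).2.1, hT q (hS q hq).1 (hS q hq).2.1 (hS q hq).2.2⟩

end Pool.Agent.H94.PM
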