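import Pool.Agent.H94.PM.UB
import Pool.Agent.H94.PL.Tu

set_option autoImplicit false

/-!
# [H94 PM TUG] The contribution of the configurations with small variables outside `U`

As `PL.Tu.tu_cst`: `PL.Spl.sum_mgU` splits the sum (copy `tu_eqL`), the term with all `y_w = 1` is `ub_two`, the others `ub_one`,
and `PL.Few.sum_prod_wl` (see `tu_sumL`).
-/

namespace Pool.Agent.H94.PM

open Polynomial
open Pool.Agent.H94.PL
open Pool.Agent.H94.PC (Mo Sq Pr pf om Mn mem_Mo mem_Sq mem_Pr mem_pf mem_pf')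

variable {F : Type} [Field F] [Finite F] {ℓ : ℕ} [hl : Fact ℓ.Prime]
  {V : Type} [Fintype V] [DecidableEq V]

open Classical in
theorem tug_eq (χ : LChar F ℓ) (C : CD V ℓ) (Δ : F[X])
    (G : (V → Tp ℓ (pf Δ)) → ℂ) (U : Finset V) (n z : ℕ) :
    ∑ x : V → Mn F n, (if ∀ w, w ∉ U → (x w).1.natDegree < z then WG χ C Δ G n x
      else 0) = ∑ y : {w // w ∉ U} → Mn F n,
      if ∀ w, (y w).1.natDegree < z then ∑ x : {u // u ∈ U} → Mn F n,
        WG χ C Δ G n (mgU U x y) else 0 := by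
  rw [sum_mgU U]
  apply Finset.sum_congr rfl
  intro y _
  by_cases h : ∀ w, (y w).1.natDegree < z
  · rw [if_pos h]
    apply Finset.sum_congr rfl
    intro x _
    rw [if_pos]
    intro w hw
    rw [mgU_out U x y ⟨w, hw⟩]
    exact h _
  · rw [if_neg h]
    apply Finset.sum_eq_zero
    intro x _
    rw [if_neg]
    intro h'
    apply h
    intro w
    have := h' w.1 w.2
    rwa [mgU_out U x y w] at this

open Classical in
theorem tug (χ : LChar F ℓ) (C : CD V ℓ) (hC : C.Good) (Δ : F[X]) (hΔ : Δ ≠ 0)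
    (G : (V → Tp ℓ (pf Δ)) → ℂ) (hG : ∀ τ, ‖G τ‖ ≤ 1) (U : Finset V) (hU : C.Unl U)
    (hcard : U.card = C.N) (n z : ℕ) (hz : 1 ≤ z) (hn : 2 * (Fintype.card V + 1) * z ≤ n) :
    ‖∑ x : V → Mn F n, (if ∀ w, w ∉ U → (x w).1.natDegree < z then WG χ C Δ G n x else 0) -
        ∑ D ∈ Cls Δ n, AU χ C Δ G U (ty χ Δ D)‖ ≤
      2 * ((Fintype.card (Tp ℓ (pf Δ)) : ℝ) ^ Fintype.card V *
      (Cb ℓ V Δ * (z : ℝ) ^ (Fintype.card V + 1) * (Nat.card F : ℝ) ^ n *
        (n : ℝ) ^ (-(1 / (2 * C.N)) : ℝ))) := by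
  rw [tug_eq]
  set T : ℝ := (Fintype.card (Tp ℓ (pf Δ)) : ℝ) ^ Fintype.card V with hT
  have hT0 : 0 ≤ T := by positivity
  set f : ({w // w ∉ U} → Mn F n) → ℂ := fun y => if ∀ w, (y w).1.natDegree < z then
    ∑ x : {u // u ∈ U} → Mn F n, WG χ C Δ G n (mgU U x y) else 0 with hf
  set y0 : {w // w ∉ U} → Mn F n := fun _ => PC.Mn.one n with hy0
  set B : ℝ := Cb ℓ V Δ * (z : ℝ) ^ (Fintype.card V + 1) * (Nat.card F : ℝ) ^ n *
        (n : ℝ) ^ (-(1 / (2 * C.N)) : ℝ) with hB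
  have hone : ∀ w, (y0 w).1 = 1 := fun w => rfl
  have hsm : ∀ w, (y0 w).1.natDegree < z := by
    intro w
    rw [hone w, natDegree_one]
    omega
  have hCb : 0 ≤ Cb ℓ V Δ := by
    have := one_le_Kc (ℓ := ℓ)
    unfold Cb
    positivity
  have hccB : tu_cc F ℓ V Δ C.N n z ≤ B := by
    unfold tu_cc
    rw [hB]
    have h1 : (z : ℝ) ≤ (z : ℝ) ^ (Fintype.card V + 1) := by
      have h2 : (1 : ℝ) ≤ z := by exact_mod_cast hz
      calc (z : ℝ) = (z : ℝ) ^ 1 := (pow_one _).symm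
        _ ≤ _ := pow_le_pow_right₀ h2 (by omega)
    gcongr
  change ‖∑ y, f y - _‖ ≤ _
  rw [← Finset.add_sum_erase Finset.univ f (Finset.mem_univ y0)]
  have e1 : f y0 + ∑ y ∈ Finset.univ.erase y0, f y - ∑ D ∈ Cls Δ n, AU χ C Δ G U (ty χ Δ D) =
      (f y0 - ∑ D ∈ Cls Δ n, AU χ C Δ G U (ty χ Δ D)) + ∑ y ∈ Finset.univ.erase y0, f y := by ring
  rw [e1]
  refine (norm_add_le _ _).trans ?_
  have h1 : ‖f y0 - ∑ D ∈ Cls Δ n, AU χ C Δ G U (ty χ Δ D)‖ ≤ T * B := by
    rw [hf]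
    simp only
    rw [if_pos hsm]
    refine (ub_two χ C hC Δ hΔ G hG U hU hcard n z hz hn y0 hone).trans ?_
    exact mul_le_mul_of_nonneg_left hccB hT0
  have h2 : ‖∑ y ∈ Finset.univ.erase y0, f y‖ ≤ T * B := by
    refine (norm_sum_le _ _).trans ?_
    have h3 : ∀ y ∈ Finset.univ.erase y0, ‖f y‖ ≤ T * (tu_cc F ℓ V Δ C.N n z *
        (if ∀ w, (y w).1.natDegree < z then ∏ w, wl C.N (y w).1 else 0)) := by
      intro y hy
      rw [hf]
      simp only
      by_cases h : ∀ w, (y w).1.natDegree < z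
      · rw [if_pos h, if_pos h]
        have h4 : ∃ w, (y w).1 ≠ 1 := by
          by_contra hcon
          push Not at hcon
          refine Finset.ne_of_mem_erase hy ?_
          funext w
          exact Subtype.ext (hcon w)
        refine (ub_one χ C hC Δ hΔ G hG U hU hcard n z hz hn y h h4).trans (le_of_eq ?_)
        unfold tu_cc
        rw [hT]
        ring
      · rw [if_neg h, if_neg h, norm_zero, mul_zero, mul_zero]
    refine (Finset.sum_le_sum h3).trans ?_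
    rw [← Finset.mul_sum, ← Finset.mul_sum]
    refine mul_le_mul_of_nonneg_left ?_ hT0
    refine le_trans ?_ (tu_sumL (F := F) (ℓ := ℓ) Δ C.N n z hC.pos hz U)
    refine mul_le_mul_of_nonneg_left ?_ (tu_cc_nonneg Δ C.N n z)
    refine Finset.sum_le_sum_of_subset_of_nonneg (Finset.subset_univ _) fun y _ _ => ?_
    split_ifs
    · exact Finset.prod_nonneg fun w _ => wl_nonneg _ _
    · exact le_rfl
  linarith

end Pool.Agent.H94.PM
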