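import Pool.Agent.H94.PM.TY
import Pool.Agent.H94.PM.IN
import Pool.Agent.H94.PL.Rb

set_option autoImplicit false

/-!
# [H94 PM UBL] Sums over the variables in `U`, one nontrivial character

This is the computation in the proof of `PL.Rb.rb_two`, with `b u = (ψ u).1`, `g u = (ψ u).2` and `inn_two` replaced by `inn_two'`:
copy that proof, starting after the use of `rb_sum` (the hypothesis `hcond` gives `hEc`; `deg Y ≤ |V| z ≤ n` from `hy`, `hn`).
-/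

namespace Pool.Agent.H94.PM

open Polynomial
open Pool.Agent.H94.PL
open Pool.Agent.H94.PC (Mo Sq Pr pf om Mn mem_Mo mem_Sq mem_Pr mem_pf mem_pf')

variable {F : Type} [Field F] [Finite F] {ℓ : ℕ} [hl : Fact ℓ.Prime]
  {V : Type} [Fintype V] [DecidableEq V]

open Classical in
private theorem ubl_core (χ : LChar F ℓ) (C : CD V ℓ) (hC : C.Good) (Δ : F[X]) (hΔ : Δ ≠ 0)
    (b : V → ZMod ℓ) (g : V → pf Δ → ZMod ℓ) (U : Finset V) (hU : C.Unl U) (hcard : U.card = C.N)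
    (n z : ℕ) (hz : 1 ≤ z) (hn : 2 * (Fintype.card V + 1) * z ≤ n)
    (y : {w // w ∉ U} → Mn F n) (hy : ∀ w, (y w).1.natDegree < z)
    (hcond : (∏ w, (y w).1) ∈ Cls Δ (∏ w, (y w).1).natDegree)
    (hne : (∃ w, (y w).1 ≠ 1) ∨ ¬ Cst b g U) :
    (1 / (C.N : ℝ)) ^ om (∏ w, (y w).1) *
      ‖∑ x : {u // u ∈ U} → Mn F n, (if (∏ u, (x u).1) ∈
            Cls (Δ * ∏ w, (y w).1) (n - (∏ w, (y w).1).natDegree) then
          (1 / (Fintype.card {u // u ∈ U} : ℂ)) ^ om (∏ u, (x u).1) *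
            ∏ u : {u // u ∈ U}, thc χ (b u.1) (Gy Δ y) (ey C g U u.1) (x u).1
          else 0)‖ ≤
      Cb ℓ V Δ * z * (Nat.card F : ℝ) ^ n * (n : ℝ) ^ (-(1 / (2 * C.N)) : ℝ) *
        ∏ w, wl C.N (y w).1 := by
  have hKc : 1 ≤ Kc ℓ := one_le_Kc
  have hEc := hcond
  obtain ⟨hEm, _, hEs, hEΔ⟩ := mem_Cls.1 hEc
  have hdegE : (∏ w, (y w).1).natDegree = ∑ w, ((y w).1).natDegree :=
    natDegree_prod_of_monic _ _ fun w _ => (y w).2.1
  have heV : (∏ w, (y w).1).natDegree ≤ Fintype.card V * z := by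
    rw [hdegE]
    calc ∑ w, ((y w).1).natDegree ≤ ∑ _w : {w // w ∉ U}, z :=
          Finset.sum_le_sum fun w _ => (hy w).le
      _ = Fintype.card {w // w ∉ U} * z := by
          rw [Finset.sum_const, Finset.card_univ, smul_eq_mul]
      _ ≤ Fintype.card V * z := Nat.mul_le_mul_right _ (Fintype.card_subtype_le _)
  have hom : om (∏ w, (y w).1) = ∑ w, om (y w).1 :=
    PC.om_prod (fun w => (y w).1) (fun w => (y w).2.1) hEs
  have hEn : (∏ w, (y w).1).natDegree ≤ n := by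
    have h3 : 2 * (Fintype.card V + 1) * z = 2 * (Fintype.card V * z) + 2 * z := by ring
    omega
  obtain ⟨E, hE⟩ : ∃ E, E = ∏ w, (y w).1 := ⟨_, rfl⟩
  clear hcond
  rw [← hE] at hEc hEn hEm hEs hEΔ hdegE heV hom ⊢
  obtain ⟨e, he⟩ : ∃ e, e = E.natDegree := ⟨_, rfl⟩
  rw [← he] at hEn hdegE heV ⊢
  have hm2 : n ≤ 2 * (n - e) ∧ 1 ≤ n - e := by
    have h3 : 2 * (Fintype.card V + 1) * z = 2 * (Fintype.card V * z) + 2 * z := by ring
    omega
  -- the two indices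
  have hdist : ∃ u₀ u₁ : {u // u ∈ U}, b u₀.1 ≠ b u₁.1 ∨
      ∃ j, ey C g U u₀.1 j ≠ ey C g U u₁.1 j ∧ Gy Δ y j ≠ 1 := by
    by_cases hw : ∃ w, (y w).1 ≠ 1
    · obtain ⟨w, hw⟩ := hw
      obtain ⟨u, hu, u', hu', hlk⟩ := hC.nonconst U hU hcard w.1 w.2
      exact ⟨⟨u, hu⟩, ⟨u', hu'⟩, Or.inr ⟨Sum.inr w, hlk, hw⟩⟩
    · have hcst : ¬ Cst b g U := by
        rcases hne with h | h
        · exact absurd h hw
        · exact h
      unfold Cst at hcst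
      push Not at hcst
      obtain ⟨u, hu, u', hu', h3⟩ := hcst
      refine ⟨⟨u, hu⟩, ⟨u', hu'⟩, ?_⟩
      by_cases hb : b u = b u'
      · right
        have h4 := h3 hb
        have h5 : ∃ v, g u v ≠ g u' v := by
          by_contra hcon
          push Not at hcon
          exact h4 (funext hcon)
        obtain ⟨v, hv⟩ := h5
        refine ⟨Sum.inl v, hv, ?_⟩
        intro h6
        have h7 := (mem_pf' v.2).2.1
        have h8 : (v.1 : F[X]) = 1 := h6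
        rw [h8] at h7
        exact h7.not_isUnit isUnit_one
      · exact Or.inl hb
  obtain ⟨u₀, u₁, hu⟩ := hdist
  have hG : ∀ i, (Gy Δ y i).Monic ∧ Squarefree (Gy Δ y i) := by
    rintro (v | w)
    · exact ⟨(mem_pf' v.2).1, (mem_pf' v.2).2.1.squarefree⟩
    · exact ⟨(y w).2.1, (y w).2.2.1⟩
  have hyE : ∀ w, (y w).1 ∣ E := fun w => by
    rw [hE]
    exact Finset.dvd_prod_of_mem (fun w => (y w).1) (Finset.mem_univ w)
  have hcop : ∀ i j, i ≠ j → IsCoprime (Gy Δ y i) (Gy Δ y j) := by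
    rintro (v | w) (v' | w') hne'
    · have hv := mem_pf' v.2
      have hv' := mem_pf' v'.2
      refine PC.isCoprime_irr hv.1 hv.2.1 hv'.1 hv'.2.1 fun h3 => hne' ?_
      rw [Subtype.ext h3]
    · exact ((hEΔ.of_isCoprime_of_dvd_left (hyE w')).of_isCoprime_of_dvd_right
        (mem_pf' v.2).2.2).symm
    · exact (hEΔ.of_isCoprime_of_dvd_left (hyE w)).of_isCoprime_of_dvd_right
        (mem_pf' v'.2).2.2
    · refine wsp_cop (fun w => (y w).1) ?_ fun h3 => hne' ?_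
      · rw [← hE]
        exact hEs
      · rw [h3]
  have hinn := inn_two' χ n (n - e) (Nat.sub_le _ _) hm2.2 (Cls (Δ * E) (n - e))
    (fun D hD => by
      obtain ⟨h4, h5, h6, _⟩ := mem_Cls.1 hD
      exact mem_Sq.2 ⟨h4, h5, h6⟩)
    (fun u : {u // u ∈ U} => b u.1) (Gy Δ y) (fun u : {u // u ∈ U} => ey C g U u.1) hG hcop u₀ u₁ hu
  have hN : (Fintype.card {u // u ∈ U} : ℝ) = (C.N : ℝ) := by
    rw [Fintype.card_coe, hcard]
  rw [hN] at hinn
  have hsumG : ∑ i, ((Gy Δ y i).natDegree : ℝ) ≤ Δ.natDegree + Fintype.card V * z := by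
    rw [Fintype.sum_sum_type]
    apply add_le_add
    · exact rb_pfdeg hΔ
    · have h3 : ∑ w : {w // w ∉ U}, ((Gy Δ y (Sum.inr w)).natDegree : ℝ) = (e : ℝ) := by
        rw [hdegE]
        push_cast
        rfl
      rw [h3]
      exact_mod_cast heV
  have hsumG0 : 0 ≤ ∑ i, ((Gy Δ y i).natDegree : ℝ) := by positivity
  have hana := rb_ana C.N hC.pos n z (n - e) (Fintype.card V) hz hm2.1 (by omega)
    (2 * ℓ * ∑ i, ((Gy Δ y i).natDegree : ℝ) + Kc ℓ) ℓ Δ.natDegree (Kc ℓ) (by positivity)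
    (by positivity) hKc
    (by
      have h3 : 2 * (ℓ : ℝ) * ∑ i, ((Gy Δ y i).natDegree : ℝ) ≤
          2 * ℓ * (Δ.natDegree + Fintype.card V * z) :=
        mul_le_mul_of_nonneg_left hsumG (by positivity)
      linarith)
    (by
      have h3 : 0 ≤ 2 * (ℓ : ℝ) * ∑ i, ((Gy Δ y i).natDegree : ℝ) := by positivity
      linarith)
  have hq0 : (0 : ℝ) < (Nat.card F : ℝ) := by
    have : 0 < Nat.card F := Nat.card_pos
    exact_mod_cast this
  have hfin : (1 / (C.N : ℝ)) ^ om E * (Nat.card F : ℝ) ^ (n - e) =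
      (Nat.card F : ℝ) ^ n * ∏ w, wl C.N (y w).1 := by
    have h3 : ∏ w, wl C.N (y w).1 = (1 / (C.N : ℝ)) ^ om E / (Nat.card F : ℝ) ^ e := by
      unfold wl
      rw [Finset.prod_div_distrib, Finset.prod_pow_eq_pow_sum, Finset.prod_pow_eq_pow_sum, ← hom,
        hdegE]
    rw [h3]
    have h4 : (Nat.card F : ℝ) ^ n = (Nat.card F : ℝ) ^ (n - e) * (Nat.card F : ℝ) ^ e := by
      rw [← pow_add, Nat.sub_add_cancel hEn]
    rw [h4]
    field_simp
  have hNp : (0 : ℝ) ≤ (1 / (C.N : ℝ)) ^ om E := by positivity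
  have hqp : (0 : ℝ) ≤ 60 * (Nat.card F : ℝ) ^ (n - e) := by positivity
  calc (1 / (C.N : ℝ)) ^ om E * _ ≤ (1 / (C.N : ℝ)) ^ om E *
        (60 * (Nat.card F : ℝ) ^ (n - e) * (((n - e : ℕ) : ℝ) ^ (-(1 / (2 * C.N)) : ℝ) *
          (2 * ℓ * ∑ i, ((Gy Δ y i).natDegree : ℝ) + Kc ℓ) ^ (1 / (2 * C.N) : ℝ))) := by
        refine mul_le_mul_of_nonneg_left (hinn.trans (le_of_eq ?_)) hNp
        ring
    _ ≤ (1 / (C.N : ℝ)) ^ om E * (60 * (Nat.card F : ℝ) ^ (n - e) *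
        (2 * (n : ℝ) ^ (-(1 / (2 * C.N)) : ℝ) *
          (z * (2 * ℓ * (Δ.natDegree + Fintype.card V) + Kc ℓ)))) :=
        mul_le_mul_of_nonneg_left (mul_le_mul_of_nonneg_left hana hqp) hNp
    _ = Cb ℓ V Δ * z * ((1 / (C.N : ℝ)) ^ om E * (Nat.card F : ℝ) ^ (n - e)) *
        (n : ℝ) ^ (-(1 / (2 * C.N)) : ℝ) := by
        rw [Cb]
        ring
    _ = Cb ℓ V Δ * z * (Nat.card F : ℝ) ^ n * (n : ℝ) ^ (-(1 / (2 * C.N)) : ℝ) *
        ∏ w, wl C.N (y w).1 := by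
        rw [hfin]
        ring

open Classical in
/-- the estimate for one character `ψ` of the types of the variables in `U` -/
theorem ub_lk (χ : LChar F ℓ) (C : CD V ℓ) (hC : C.Good) (Δ : F[X]) (hΔ : Δ ≠ 0)
    (ψ : V → Tp ℓ (pf Δ)) (U : Finset V) (hU : C.Unl U) (hcard : U.card = C.N) (n z : ℕ)
    (hz : 1 ≤ z) (hn : 2 * (Fintype.card V + 1) * z ≤ n)
    (y : {w // w ∉ U} → Mn F n) (hy : ∀ w, (y w).1.natDegree < z)
    (hcond : (∏ w, (y w).1) ∈ Cls Δ (∏ w, (y w).1).natDegree)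
    (hne : (∃ w, (y w).1 ≠ 1) ∨ ¬ ∀ u ∈ U, ∀ u' ∈ U, ψ u = ψ u') :
    (1 / (C.N : ℝ)) ^ om (∏ w, (y w).1) *
      ‖∑ x : {u // u ∈ U} → Mn F n, (if (∏ u, (x u).1) ∈
            Cls (Δ * ∏ w, (y w).1) (n - (∏ w, (y w).1).natDegree) then
          (1 / (Fintype.card {u // u ∈ U} : ℂ)) ^ om (∏ u, (x u).1) *
            ∏ u : {u // u ∈ U}, thc χ (ψ u.1).1 (Gy Δ y) (ey C (fun v => (ψ v).2) U u.1) (x u).1
          else 0)‖ ≤
      Cb ℓ V Δ * z * (Nat.card F : ℝ) ^ n * (n : ℝ) ^ (-(1 / (2 * C.N)) : ℝ) *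
        ∏ w, wl C.N (y w).1 := by
  refine ubl_core χ C hC Δ hΔ (fun u => (ψ u).1) (fun v => (ψ v).2) U hU hcard n z hz hn y hy
    hcond (hne.imp_right fun h hc => h fun u hu u' hu' => ?_)
  exact Prod.ext (hc u hu u' hu').1 (hc u hu u' hu').2

end Pool.Agent.H94.PM
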