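import Pool.Agent.H94.PM.WS
import Pool.Agent.H94.PM.FT
import Pool.Agent.H94.PM.UBL

set_option autoImplicit false

/-!
# [H94 PM UB] Sums over the variables in `U`

`U` unlinked of cardinality `N = C.N ≥ 1`, `y` small outside `U`.  Take `H` from `wg_split` and expand it: `H = ∑ ψ, c ψ ∏ chi (ψ u) (τ u)`
(`four`, at most `card (Tp) ^ N ≤ card (Tp) ^ |V|` terms, `‖c ψ‖ ≤ 1`).  If `∏ x_u ∈ Cls (Δ Y) (n - deg Y)` then, by `thc_val`
(all coprimality conditions hold as in the proof of `PL.Wsp.wl_split`),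
`chi (ψ u) (ty (x u)) * ps (∑ w, lk u w * lm (y w) (x u)) = thc χ (ψ u).1 (Gy Δ y) (Sum.elim (ψ u).2 fun w => lk u w) (x u)`.
So `∑ x, WG (mgU U x y) = [conditions on Y] (1/N)^om Y * ∑ ψ, c ψ * S(ψ)`, where
`S(ψ) = ∑ x, if ∏ x ∈ Cls (Δ Y) (n - deg Y) then (1/N)^om * ∏ thc ..` are the sums of `PL.Rb`.
* `ub_lk` (`S(ψ)` with `y ≠ 1` or `ψ` not constant): the computation in the proof of `PL.Rb.rb_two`, with `b u`, `g u` replaced by
  `(ψ u).1`, `(ψ u).2` and `inn_two` by `inn_two'` (copy that proof): for each `ψ` the contribution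
  `(1/N)^om Y * ‖S(ψ)‖` is at most `Cb ℓ V Δ * z * q^n * n^(-1/(2N)) * ∏ wl`.
* `ub_one`: `y` with some `y w ≠ 1`: sum over `ψ`.
* `ub_two`: all `y w = 1` (`Y = 1`, `wl N 1 = 1`): the nonconstant `ψ` give at most `card ^ |V| * ...`; for `ψ = const a`,
  `∏ u, chi a (ty (x u)) = chi a (ty D)` for `D = ∏ x_u` (types are additive on coprime monic products: `lm_mul_right`), and
  `∑ x with ∏ x = D, (1/N)^om D = 1` for `D ∈ Cls Δ n`
  (this is the case of the trivial character in `PL.Inn`: `sum_multc` with `η = 1`, `∏_{P ∣ D} (1/N * N) = 1`; see the proof of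
  `inn_one`), so the sum is `∑ D ∈ Cls Δ n, ∑ a, c (const a) * chi a (ty D)`, which is `∑ D, AU (ty D)` by `four_avg` and the
  formula for `H`.
-/

namespace Pool.Agent.H94.PM

open Polynomial
open Pool.Agent.H94.PL
open Pool.Agent.H94.PC (Mo Sq Pr pf om Mn mem_Mo mem_Sq mem_Pr mem_pf mem_pf')

variable {F : Type} [Field F] [Finite F] {ℓ : ℕ} [hl : Fact ℓ.Prime]
  {V : Type} [Fintype V] [DecidableEq V]

open Classical in
/-- the inner sum for one character of the types -/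
noncomputable def ubT (χ : LChar F ℓ) (C : CD V ℓ) (Δ : F[X]) (U : Finset V) (n : ℕ)
    (y : {w // w ∉ U} → Mn F n) (ψ : V → Tp ℓ (pf Δ)) : ℂ :=
  ∑ x : {u // u ∈ U} → Mn F n, (if (∏ u, (x u).1) ∈
            Cls (Δ * ∏ w, (y w).1) (n - (∏ w, (y w).1).natDegree) then
          (1 / (Fintype.card {u // u ∈ U} : ℂ)) ^ om (∏ u, (x u).1) *
            ∏ u : {u // u ∈ U}, thc χ (ψ u.1).1 (Gy Δ y) (ey C (fun v => (ψ v).2) U u.1) (x u).1
          else 0)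

theorem ub_pt (χ : LChar F ℓ) (C : CD V ℓ) (Δ : F[X]) (U : Finset V) (n m : ℕ)
    (y : {w // w ∉ U} → Mn F n) (ψ : {u // u ∈ U} → Tp ℓ (pf Δ)) (x : {u // u ∈ U} → Mn F n)
    (hx : (∏ u, (x u).1) ∈ Cls (Δ * ∏ w, (y w).1) m) :
    ∏ u : {u // u ∈ U}, thc χ (mgU U ψ (fun _ => 0) u.1).1 (Gy Δ y)
      (ey C (fun v => (mgU U ψ (fun _ => 0) v).2) U u.1) (x u).1 =
      (∏ u, chi (ψ u) (ty χ Δ (x u).1)) *
        ps (∑ u : {u // u ∈ U}, ∑ w : {w // w ∉ U}, C.lk u.1 w.1 * lm χ (y w).1 (x u).1) := by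
  obtain ⟨_, _, _, hD⟩ := mem_Cls.1 hx
  rw [ps_sum, ← Finset.prod_mul_distrib]
  refine Finset.prod_congr rfl fun u _ => ?_
  have hux : (x u).1 ∣ ∏ u, (x u).1 :=
    Finset.dvd_prod_of_mem (fun u => (x u).1) (Finset.mem_univ u)
  have hD1 : IsCoprime (x u).1 Δ := hD.of_mul_right_left.of_isCoprime_of_dvd_left hux
  have hD2 : IsCoprime (x u).1 (∏ w, (y w).1) :=
    hD.of_mul_right_right.of_isCoprime_of_dvd_left hux
  have hcop : ∀ i, IsCoprime (Gy Δ y i) (x u).1 := by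
    rintro (v | w)
    · have h3 : (v.1 : F[X]) ∣ Δ := (mem_pf' v.2).2.2
      exact (hD1.of_isCoprime_of_dvd_right h3).symm
    · have h3 : (y w).1 ∣ ∏ w, (y w).1 :=
        Finset.dvd_prod_of_mem (fun w => (y w).1) (Finset.mem_univ w)
      exact (hD2.of_isCoprime_of_dvd_right h3).symm
  rw [thc_val χ _ (Gy Δ y) _ (x u).2.1 hcop, chi, ← ps_add, Fintype.sum_sum_type, ← add_assoc]
  have e1 : mgU U ψ (fun _ => 0) u.1 = ψ u := mgU_in U ψ _ u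
  have e2 : ∀ v : pf Δ, ey C (fun v => (mgU U ψ (fun _ => 0) v).2) U u.1 (Sum.inl v) =
      (ψ u).2 v := by
    intro v
    show (mgU U ψ (fun _ => 0) u.1).2 v = (ψ u).2 v
    rw [e1]
  rw [e1]
  simp only [e2]
  rfl

open Classical in
theorem ub_exp (χ : LChar F ℓ) (C : CD V ℓ) (hC : C.Good) (Δ : F[X])
    (G : (V → Tp ℓ (pf Δ)) → ℂ) (hG : ∀ τ, ‖G τ‖ ≤ 1) (U : Finset V) (hU : C.Unl U)
    (hcard : U.card = C.N) (n : ℕ) (y : {w // w ∉ U} → Mn F n) :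
    ∃ c : ({u // u ∈ U} → Tp ℓ (pf Δ)) → ℂ, (∀ ψ, ‖c ψ‖ ≤ 1) ∧
      ((∀ w, (y w).1 = 1) → ∀ τ, G (mgU U τ fun _ => 0) *
        ps (χ.lg (-1) * rS C U fun u => (τ u).1) = ∑ ψ, c ψ * ∏ u, chi (ψ u) (τ u)) ∧
      ∑ x : {u // u ∈ U} → Mn F n, WG χ C Δ G n (mgU U x y) =
        if (∏ w, (y w).1) ∈ Cls Δ (∏ w, (y w).1).natDegree ∧ (∏ w, (y w).1).natDegree ≤ n then
          (1 / (C.N : ℂ)) ^ om (∏ w, (y w).1) *
            ∑ ψ, c ψ * ubT χ C Δ U n y (mgU U ψ fun _ => 0)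
        else 0 := by
  obtain ⟨H, hH1, hH2, hH3⟩ := wg_split χ C hC Δ G hG U hU n y
  obtain ⟨c, hc1, hc2⟩ := four H hH1
  refine ⟨c, hc1, fun hy τ => by rw [← hH2 hy τ, hc2 τ], ?_⟩
  have hN : (Fintype.card {u // u ∈ U} : ℂ) = (C.N : ℂ) := by
    rw [Fintype.card_coe, hcard]
  by_cases hcond : (∏ w, (y w).1) ∈ Cls Δ (∏ w, (y w).1).natDegree ∧
      (∏ w, (y w).1).natDegree ≤ n
  · rw [if_pos hcond]
    have h1 : ∀ x : {u // u ∈ U} → Mn F n, WG χ C Δ G n (mgU U x y) =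
        (1 / (C.N : ℂ)) ^ om (∏ w, (y w).1) * ∑ ψ, c ψ *
          (if (∏ u, (x u).1) ∈ Cls (Δ * ∏ w, (y w).1) (n - (∏ w, (y w).1).natDegree) then
          (1 / (Fintype.card {u // u ∈ U} : ℂ)) ^ om (∏ u, (x u).1) *
            ∏ u : {u // u ∈ U}, thc χ (mgU U ψ (fun _ => 0) u.1).1 (Gy Δ y)
              (ey C (fun v => (mgU U ψ (fun _ => 0) v).2) U u.1) (x u).1
          else 0) := by
      intro x
      rw [hH3 x]
      by_cases hx : (∏ u, (x u).1) ∈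
            Cls (Δ * ∏ w, (y w).1) (n - (∏ w, (y w).1).natDegree)
      · rw [if_pos ⟨hcond, hx⟩]
        congr 1
        have e1 : ∀ ψ : {u // u ∈ U} → Tp ℓ (pf Δ), c ψ *
            (if (∏ u, (x u).1) ∈ Cls (Δ * ∏ w, (y w).1) (n - (∏ w, (y w).1).natDegree) then
            (1 / (Fintype.card {u // u ∈ U} : ℂ)) ^ om (∏ u, (x u).1) *
              ∏ u : {u // u ∈ U}, thc χ (mgU U ψ (fun _ => 0) u.1).1 (Gy Δ y)
                (ey C (fun v => (mgU U ψ (fun _ => 0) v).2) U u.1) (x u).1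
            else 0) = (1 / (C.N : ℂ)) ^ om (∏ u, (x u).1) *
              (c ψ * (∏ u, chi (ψ u) (ty χ Δ (x u).1)) *
              ps (∑ u : {u // u ∈ U}, ∑ w : {w // w ∉ U}, C.lk u.1 w.1 *
                lm χ (y w).1 (x u).1)) := by
          intro ψ
          rw [if_pos hx, ub_pt χ C Δ U n _ y ψ x hx, hN]
          ring
        rw [Finset.sum_congr rfl fun ψ _ => e1 ψ, ← Finset.mul_sum, ← Finset.sum_mul, hc2]
      · rw [if_neg fun h => hx h.2]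
        have e1 : ∀ ψ : {u // u ∈ U} → Tp ℓ (pf Δ), c ψ *
            (if (∏ u, (x u).1) ∈ Cls (Δ * ∏ w, (y w).1) (n - (∏ w, (y w).1).natDegree) then
            (1 / (Fintype.card {u // u ∈ U} : ℂ)) ^ om (∏ u, (x u).1) *
              ∏ u : {u // u ∈ U}, thc χ (mgU U ψ (fun _ => 0) u.1).1 (Gy Δ y)
                (ey C (fun v => (mgU U ψ (fun _ => 0) v).2) U u.1) (x u).1
            else 0) = 0 := by
          intro ψ
          rw [if_neg hx, mul_zero]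
        rw [Finset.sum_congr rfl fun ψ _ => e1 ψ, Finset.sum_const_zero, mul_zero]
    rw [Finset.sum_congr rfl fun x _ => h1 x, ← Finset.mul_sum, Finset.sum_comm]
    congr 1
    refine Finset.sum_congr rfl fun ψ _ => ?_
    rw [← Finset.mul_sum]
    rfl
  · rw [if_neg hcond]
    refine Finset.sum_eq_zero fun x _ => ?_
    rw [hH3 x, if_neg fun h => hcond h.1]

open Classical in
theorem ub_card (Δ : F[X]) (U : Finset V) (s : Finset ({u // u ∈ U} → Tp ℓ (pf Δ))) :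
    (s.card : ℝ) ≤ (Fintype.card (Tp ℓ (pf Δ)) : ℝ) ^ Fintype.card V := by
  have h1 : s.card ≤ Fintype.card (Tp ℓ (pf Δ)) ^ U.card := by
    calc s.card ≤ Fintype.card ({u // u ∈ U} → Tp ℓ (pf Δ)) := Finset.card_le_univ s
      _ = Fintype.card (Tp ℓ (pf Δ)) ^ U.card := by
        rw [Fintype.card_fun, Fintype.card_coe]
  have h2 : 1 ≤ Fintype.card (Tp ℓ (pf Δ)) := Fintype.card_pos_iff.2 ⟨0⟩
  have h3 : Fintype.card (Tp ℓ (pf Δ)) ^ U.card ≤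
      Fintype.card (Tp ℓ (pf Δ)) ^ Fintype.card V :=
    Nat.pow_le_pow_right h2 (Finset.card_le_univ U)
  exact_mod_cast h1.trans h3

open Classical in
theorem ub_bound (χ : LChar F ℓ) (C : CD V ℓ) (hC : C.Good) (Δ : F[X]) (hΔ : Δ ≠ 0)
    (U : Finset V) (hU : C.Unl U) (hcard : U.card = C.N) (n z : ℕ)
    (hz : 1 ≤ z) (hn : 2 * (Fintype.card V + 1) * z ≤ n)
    (y : {w // w ∉ U} → Mn F n) (hy : ∀ w, (y w).1.natDegree < z)
    (hcond : (∏ w, (y w).1) ∈ Cls Δ (∏ w, (y w).1).natDegree)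
    (c : ({u // u ∈ U} → Tp ℓ (pf Δ)) → ℂ) (hc : ∀ ψ, ‖c ψ‖ ≤ 1)
    (s : Finset ({u // u ∈ U} → Tp ℓ (pf Δ)))
    (hne : ∀ ψ ∈ s, (∃ w, (y w).1 ≠ 1) ∨ ¬ ∀ u ∈ U, ∀ u' ∈ U,
      mgU U ψ (fun _ => (0 : Tp ℓ (pf Δ))) u = mgU U ψ (fun _ => 0) u') :
    ‖(1 / (C.N : ℂ)) ^ om (∏ w, (y w).1) *
      ∑ ψ ∈ s, c ψ * ubT χ C Δ U n y (mgU U ψ fun _ => 0)‖ ≤
      (Fintype.card (Tp ℓ (pf Δ)) : ℝ) ^ Fintype.card V *
      (Cb ℓ V Δ * z * (Nat.card F : ℝ) ^ n * (n : ℝ) ^ (-(1 / (2 * C.N)) : ℝ) *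
        ∏ w, wl C.N (y w).1) := by
  have hKc : 1 ≤ Kc ℓ := one_le_Kc
  have hB : 0 ≤ Cb ℓ V Δ * z * (Nat.card F : ℝ) ^ n * (n : ℝ) ^ (-(1 / (2 * C.N)) : ℝ) *
        ∏ w, wl C.N (y w).1 := by
    have h1 : 0 ≤ Cb ℓ V Δ := by
      rw [Cb]
      positivity
    have h3 : 0 ≤ ∏ w, wl C.N (y w).1 := Finset.prod_nonneg fun w _ => wl_nonneg _ _
    positivity
  rw [Finset.mul_sum]
  refine (norm_sum_le _ _).trans ?_
  have h1 : ∀ ψ ∈ s, ‖(1 / (C.N : ℂ)) ^ om (∏ w, (y w).1) *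
      (c ψ * ubT χ C Δ U n y (mgU U ψ fun _ => 0))‖ ≤
      Cb ℓ V Δ * z * (Nat.card F : ℝ) ^ n * (n : ℝ) ^ (-(1 / (2 * C.N)) : ℝ) *
        ∏ w, wl C.N (y w).1 := by
    intro ψ hψ
    have h2 := ub_lk χ C hC Δ hΔ (mgU U ψ fun _ => 0) U hU hcard n z hz hn y hy hcond (hne ψ hψ)
    refine le_trans ?_ h2
    rw [norm_mul, norm_mul, norm_pow, norm_div, norm_one, Complex.norm_natCast]
    refine mul_le_mul_of_nonneg_left ?_ (by positivity)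
    exact mul_le_of_le_one_left (norm_nonneg _) (hc ψ)
  calc _ ≤ ∑ _ψ ∈ s, Cb ℓ V Δ * z * (Nat.card F : ℝ) ^ n * (n : ℝ) ^ (-(1 / (2 * C.N)) : ℝ) *
        ∏ w, wl C.N (y w).1 := Finset.sum_le_sum h1
    _ = (s.card : ℝ) * (Cb ℓ V Δ * z * (Nat.card F : ℝ) ^ n *
        (n : ℝ) ^ (-(1 / (2 * C.N)) : ℝ) * ∏ w, wl C.N (y w).1) := by
        rw [Finset.sum_const, nsmul_eq_mul]
    _ ≤ _ := mul_le_mul_of_nonneg_right (ub_card Δ U s) hB

open Classical in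
theorem ub_one (χ : LChar F ℓ) (C : CD V ℓ) (hC : C.Good) (Δ : F[X]) (hΔ : Δ ≠ 0)
    (G : (V → Tp ℓ (pf Δ)) → ℂ) (hG : ∀ τ, ‖G τ‖ ≤ 1) (U : Finset V) (hU : C.Unl U)
    (hcard : U.card = C.N) (n z : ℕ) (hz : 1 ≤ z) (hn : 2 * (Fintype.card V + 1) * z ≤ n)
    (y : {w // w ∉ U} → Mn F n) (hy : ∀ w, (y w).1.natDegree < z) (hne : ∃ w, (y w).1 ≠ 1) :
    ‖∑ x : {u // u ∈ U} → Mn F n, WG χ C Δ G n (mgU U x y)‖ ≤
      (Fintype.card (Tp ℓ (pf Δ)) : ℝ) ^ Fintype.card V *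
      (Cb ℓ V Δ * z * (Nat.card F : ℝ) ^ n * (n : ℝ) ^ (-(1 / (2 * C.N)) : ℝ)) *
        ∏ w, wl C.N (y w).1 := by
  obtain ⟨c, hc1, _, hc3⟩ := ub_exp χ C hC Δ G hG U hU hcard n y
  rw [hc3, mul_assoc]
  by_cases hcond : (∏ w, (y w).1) ∈ Cls Δ (∏ w, (y w).1).natDegree ∧
      (∏ w, (y w).1).natDegree ≤ n
  · rw [if_pos hcond]
    exact ub_bound χ C hC Δ hΔ U hU hcard n z hz hn y hy hcond.1 c hc1 Finset.univ
      (fun _ _ => Or.inl hne)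
  · rw [if_neg hcond, norm_zero]
    have hKc : 1 ≤ Kc ℓ := one_le_Kc
    have h1 : 0 ≤ Cb ℓ V Δ := by
      rw [Cb]
      positivity
    have h3 : 0 ≤ ∏ w, wl C.N (y w).1 := Finset.prod_nonneg fun w _ => wl_nonneg _ _
    positivity

theorem ub_chi_prod (χ : LChar F ℓ) (Δ : F[X]) (a : Tp ℓ (pf Δ)) {κ : Type} [Fintype κ]
    (x : κ → F[X]) (hx : ∀ u, (x u).Monic) (hD : IsCoprime (∏ u, x u) Δ) :
    ∏ u, chi a (ty χ Δ (x u)) = chi a (ty χ Δ (∏ u, x u)) := by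
  unfold chi
  rw [← ps_sum]
  congr 1
  rw [Finset.sum_add_distrib, Finset.sum_comm]
  have h1 : ∑ u, a.1 * (ty χ Δ (x u)).1 = a.1 * (ty χ Δ (∏ u, x u)).1 := by
    rw [← Finset.mul_sum]
    congr 1
    show ∑ u, ((x u).natDegree : ZMod ℓ) = ((∏ u, x u).natDegree : ZMod ℓ)
    rw [natDegree_prod_of_monic _ _ fun u _ => hx u]
    push_cast
    rfl
  have h2 : ∑ v, ∑ u, a.2 v * (ty χ Δ (x u)).2 v = ∑ v, a.2 v * (ty χ Δ (∏ u, x u)).2 v := by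
    refine Finset.sum_congr rfl fun v _ => ?_
    rw [← Finset.mul_sum]
    congr 1
    show ∑ u, lm χ v.1 (x u) = lm χ v.1 (∏ u, x u)
    rw [lm_prod_right χ Finset.univ v.1 x (fun u _ => hx u)]
    intro u _
    have hux : x u ∣ ∏ u, x u := Finset.dvd_prod_of_mem x (Finset.mem_univ u)
    exact ((hD.of_isCoprime_of_dvd_left hux).of_isCoprime_of_dvd_right
      (mem_pf' v.2).2.2).symm
  rw [h1, h2]

open Classical in
theorem ub_const (χ : LChar F ℓ) (C : CD V ℓ) (hC : C.Good) (Δ : F[X]) (U : Finset V)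
    (hcard : U.card = C.N) (n : ℕ) (y : {w // w ∉ U} → Mn F n) (hy : ∀ w, (y w).1 = 1)
    (a : Tp ℓ (pf Δ)) :
    ubT χ C Δ U n y (mgU U (fun _ => a) fun _ => 0) = ∑ D ∈ Cls Δ n, chi a (ty χ Δ D) := by
  have hE : ∏ w, (y w).1 = 1 := Finset.prod_eq_one fun w _ => hy w
  have hN : (Fintype.card {u // u ∈ U} : ℂ) ≠ 0 := by
    rw [Fintype.card_coe, hcard]
    have := hC.pos
    exact_mod_cast (by omega : C.N ≠ 0)
  have hS : ∀ D ∈ Cls Δ n, D.Monic ∧ Squarefree D ∧ D.natDegree ≤ n := by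
    intro D hD
    obtain ⟨h1, h2, h3, _⟩ := mem_Cls.1 hD
    exact ⟨h1, h3, h2.le⟩
  have h1 := tupc (κ := {u // u ∈ U}) n (Cls Δ n) hS
    (fun D _ => (1 / (Fintype.card {u // u ∈ U} : ℂ)) ^ om D * chi a (ty χ Δ D))
  have h2 : ∀ D ∈ Cls Δ n, ∑ _v : pf D → {u // u ∈ U},
      (1 / (Fintype.card {u // u ∈ U} : ℂ)) ^ om D * chi a (ty χ Δ D) = chi a (ty χ Δ D) := by
    intro D _
    rw [Finset.sum_const, Finset.card_univ, nsmul_eq_mul]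
    have e : ((Fintype.card (pf D → {u // u ∈ U}) : ℕ) : ℂ) =
        (Fintype.card {u // u ∈ U} : ℂ) ^ om D := by
      simp only [Fintype.card_fun, Fintype.card_coe, Nat.cast_pow]
      rfl
    rw [e, ← mul_assoc, ← mul_pow, mul_one_div_cancel hN, one_pow, one_mul]
  rw [Finset.sum_congr rfl h2] at h1
  rw [h1]
  unfold ubT
  refine Finset.sum_congr rfl fun x _ => ?_
  by_cases hx : (∏ u, (x u).1) ∈ Cls (Δ * ∏ w, (y w).1) (n - (∏ w, (y w).1).natDegree)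
  · have hx' : (∏ u, (x u).1) ∈ Cls Δ n := by
      rw [hE, mul_one, natDegree_one, Nat.sub_zero] at hx
      exact hx
    rw [if_pos hx, if_pos hx', ub_pt χ C Δ U n _ y (fun _ => a) x hx,
      ub_chi_prod χ Δ a (fun u => (x u).1) (fun u => (x u).2.1) (mem_Cls.1 hx').2.2.2]
    have h3 : ∑ u : {u // u ∈ U}, ∑ w : {w // w ∉ U}, C.lk u.1 w.1 * lm χ (y w).1 (x u).1 = 0 := by
      refine Finset.sum_eq_zero fun u _ => Finset.sum_eq_zero fun w _ => ?_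
      rw [hy w, lm_one_left χ (x u).2.1, mul_zero]
    rw [h3, ps_zero, mul_one]
  · have hx' : (∏ u, (x u).1) ∉ Cls Δ n := by
      rw [hE, mul_one, natDegree_one, Nat.sub_zero] at hx
      exact hx
    rw [if_neg hx, if_neg hx']

open Classical in
theorem ub_two (χ : LChar F ℓ) (C : CD V ℓ) (hC : C.Good) (Δ : F[X]) (hΔ : Δ ≠ 0)
    (G : (V → Tp ℓ (pf Δ)) → ℂ) (hG : ∀ τ, ‖G τ‖ ≤ 1) (U : Finset V) (hU : C.Unl U)
    (hcard : U.card = C.N) (n z : ℕ) (hz : 1 ≤ z) (hn : 2 * (Fintype.card V + 1) * z ≤ n)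
    (y : {w // w ∉ U} → Mn F n) (hy : ∀ w, (y w).1 = 1) :
    ‖∑ x : {u // u ∈ U} → Mn F n, WG χ C Δ G n (mgU U x y) -
        ∑ D ∈ Cls Δ n, AU χ C Δ G U (ty χ Δ D)‖ ≤
      (Fintype.card (Tp ℓ (pf Δ)) : ℝ) ^ Fintype.card V *
      (Cb ℓ V Δ * z * (Nat.card F : ℝ) ^ n * (n : ℝ) ^ (-(1 / (2 * C.N)) : ℝ)) := by
  obtain ⟨c, hc1, hc2, hc3⟩ := ub_exp χ C hC Δ G hG U hU hcard n y
  have hE : ∏ w, (y w).1 = 1 := Finset.prod_eq_one fun w _ => hy w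
  have hcond : (∏ w, (y w).1) ∈ Cls Δ (∏ w, (y w).1).natDegree ∧
      (∏ w, (y w).1).natDegree ≤ n := by
    rw [hE]
    refine ⟨mem_Cls.2 ⟨monic_one, rfl, squarefree_one, isCoprime_one_left⟩, ?_⟩
    rw [natDegree_one]
    exact Nat.zero_le n
  have hκ : 0 < Fintype.card {u // u ∈ U} := by
    rw [Fintype.card_coe, hcard]
    exact hC.pos
  obtain ⟨⟨u₀, hu₀⟩⟩ : Nonempty {u // u ∈ U} := Fintype.card_pos_iff.1 hκ
  -- the main term
  have hAU : ∀ D ∈ Cls Δ n, AU χ C Δ G U (ty χ Δ D) =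
      ∑ a : Tp ℓ (pf Δ), c (fun _ => a) * chi a (ty χ Δ D) := by
    intro D _
    rw [← four_avg c hκ (ty χ Δ D), AU, Fintype.card_coe]
    congr 1
    refine Finset.sum_congr rfl fun τ _ => ?_
    rw [hc2 hy τ]
  -- splitting of the sum over `ψ`
  let s1 : Finset ({u // u ∈ U} → Tp ℓ (pf Δ)) := Finset.univ.image (fun a => fun _ => a)
  have hs1 : ∑ ψ ∈ s1, c ψ * ubT χ C Δ U n y (mgU U ψ fun _ => 0) =
      ∑ D ∈ Cls Δ n, AU χ C Δ G U (ty χ Δ D) := by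
    rw [Finset.sum_congr rfl hAU, Finset.sum_comm, Finset.sum_image]
    · refine Finset.sum_congr rfl fun a _ => ?_
      rw [ub_const χ C hC Δ U hcard n y hy a, Finset.mul_sum]
    · intro a _ b _ hab
      exact congrFun hab ⟨u₀, hu₀⟩
  have hom : (1 / (C.N : ℂ)) ^ om (∏ w, (y w).1) = 1 := by
    rw [hE, PC.om_one, pow_zero]
  have hsplit : ∑ x : {u // u ∈ U} → Mn F n, WG χ C Δ G n (mgU U x y) -
        ∑ D ∈ Cls Δ n, AU χ C Δ G U (ty χ Δ D) =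
      (1 / (C.N : ℂ)) ^ om (∏ w, (y w).1) *
        ∑ ψ ∈ s1ᶜ, c ψ * ubT χ C Δ U n y (mgU U ψ fun _ => 0) := by
    rw [hc3, if_pos hcond, hom, one_mul, one_mul, ← hs1, ← Finset.sum_add_sum_compl s1,
      add_sub_cancel_left]
  have hwl : ∏ w, wl C.N (y w).1 = 1 := by
    refine Finset.prod_eq_one fun w _ => ?_
    rw [hy w, wl, PC.om_one, natDegree_one, pow_zero, pow_zero, div_one]
  rw [hsplit]
  have hfin := ub_bound χ C hC Δ hΔ U hU hcard n z hz hn y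
    (fun w => by rw [hy w, natDegree_one]; omega) hcond.1 c hc1 s1ᶜ
    (by
      intro ψ hψ
      right
      intro hcon
      rw [Finset.mem_compl] at hψ
      apply hψ
      refine Finset.mem_image.2 ⟨ψ ⟨u₀, hu₀⟩, Finset.mem_univ _, ?_⟩
      funext u
      have h1 := hcon u.1 u.2 u₀ hu₀
      have h2 : mgU U ψ (fun _ => (0 : Tp ℓ (pf Δ))) u.1 = ψ u := mgU_in U ψ _ u
      have h3 : mgU U ψ (fun _ => (0 : Tp ℓ (pf Δ))) u₀ = ψ ⟨u₀, hu₀⟩ :=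
        mgU_in U ψ _ ⟨u₀, hu₀⟩
      rw [h2, h3] at h1
      exact h1.symm)
  rw [hwl, mul_one] at hfin
  exact hfin

end Pool.Agent.H94.PM
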