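import Pool.Agent.H94.PM.LUP
import Pool.Agent.H94.PM.LUI
import Pool.Agent.H94.PL.Nf

set_option autoImplicit false

/-!
# [H94 PM UN] Valuations and unit logarithms of rational functions

* `vl_toP`: `wP (toP x) = exp (- mult num + mult denom)` (see the proof of `PL.tr_val`).
* `un_toP`: `normal_form` with `insert P T`: `x = C c * ∏ Q ∈ insert P T, Q ^ (ex Q x).val * y ^ ℓ`, `χ.lg c = kap x`.  `un` of `toP` of it (`un_prod`, `un_pow`):
  `un (C c) = lm χ (C c) P = deg P * χ.lg c` (`lm_C`), `un P = 0`, `un Q = lm χ Q P` for `Q ∈ T` (`¬ P ∣ Q`, both monic irreducible and different), `un (y ^ ℓ) = 0`,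
  and `((ex Q x).val : ZMod ℓ) = ex Q x`.
* `vl_inf`: `normal_form` with `T`, `LT.val_inf_poly` (see the proof of `PL.tr_inf`): `vl (ι x) = - deg` modulo `ℓ`.
* `un_inf`: `x = num / denom`, `denom` monic, `kap x = χ.lg (lc num)`.
* `val_l`: `ℓ ∣ q - 1`, so `(ℓ : F) ≠ 0`: if `ℓ = 0` in `F` then `F` has characteristic `ℓ` and `q` is a power of `ℓ`; the valuation of a nonzero constant is `1`.
-/

namespace Pool.Agent.H94.PM

open Polynomial WithZero
open Pool.Agent.H94.PL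

section
variable {F : Type} [Field F] [Finite F] {ℓ : ℕ} [hl : Fact ℓ.Prime] (χ : LChar F ℓ)

/-- the unit logarithm at `P` -/
noncomputable def UP {P : F[X]} (hPm : P.Monic) (hP : Irreducible P) : LU (wP P hP) ℓ :=
  (exists_LUP χ hPm hP).choose

theorem UP_self {P : F[X]} (hPm : P.Monic) (hP : Irreducible P) :
    (UP χ hPm hP).un (toP P hP (algebraMap F[X] (RatFunc F) P)) = 0 :=
  (exists_LUP χ hPm hP).choose_spec.1

theorem UP_poly {P : F[X]} (hPm : P.Monic) (hP : Irreducible P) {g : F[X]} (hg : ¬ P ∣ g) :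
    (UP χ hPm hP).un (toP P hP (algebraMap F[X] (RatFunc F) g)) = lm χ g P :=
  (exists_LUP χ hPm hP).choose_spec.2 g hg

theorem vl_toP {P : F[X]} (hP : Irreducible P) {x : RatFunc F} (hx : x ≠ 0) :
    (vl (wP P hP) (toP P hP x) : ZMod ℓ) = ex ℓ P x := by
  have hn : x.num ≠ 0 := RatFunc.num_ne_zero hx
  have hd : x.denom ≠ 0 := RatFunc.denom_ne_zero x
  have hx' : toP P hP x ≠ 0 := by
    rw [Ne, map_eq_zero]
    exact hx
  have h1 : wP P hP (toP P hP x) =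
      exp (-(((multiplicity P x.num : ℕ) : ℤ) - ((multiplicity P x.denom : ℕ) : ℤ))) := by
    conv_lhs => rw [← RatFunc.num_div_denom x]
    rw [map_div₀, map_div₀, tr_pow hP hn, tr_pow hP hd, ← exp_sub]
    congr 1
    ring
  rw [(vl_eq_iff hx' _).2 h1, ex]
  push_cast
  rfl

theorem un_toP {P : F[X]} (hPm : P.Monic) (hP : Irreducible P) {x : RatFunc F} (hx : x ≠ 0)
    (T : Finset F[X]) (hT : ∀ Q ∈ T, Q.Monic ∧ Irreducible Q) (hPT : P ∉ T)
    (h : ∀ Q : F[X], Q.Monic → Irreducible Q → Q ∉ T → Q ≠ P → ex ℓ Q x = 0) :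
    (UP χ hPm hP).un (toP P hP x) =
      (P.natDegree : ZMod ℓ) * kap χ x + ∑ Q ∈ T, ex ℓ Q x * lm χ Q P := by
  classical
  have hNZ : NeZero ℓ := ⟨hl.out.ne_zero⟩
  obtain ⟨c, hc0, y, hy0, hck, hxe⟩ := normal_form χ hx (insert P T) (by
    intro Q hQ
    rcases Finset.mem_insert.1 hQ with h1 | h1
    · rw [h1]
      exact ⟨hPm, hP⟩
    · exact hT Q h1) (by
    intro Q h1 h2 h3
    exact h Q h1 h2 (fun h4 => h3 (Finset.mem_insert_of_mem h4))
      (fun h4 => h3 (h4 ▸ Finset.mem_insert_self P T)))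
  have hnz : ∀ g : F[X], g ≠ 0 → toP P hP (algebraMap F[X] (RatFunc F) g) ≠ 0 := by
    intro g hg
    rw [Ne, map_eq_zero]
    exact RatFunc.algebraMap_ne_zero hg
  have hQ0 : ∀ Q ∈ T, Q ^ (ex ℓ Q x).val ≠ 0 := fun Q hQ => pow_ne_zero _ (hT Q hQ).2.ne_zero
  have hC0 : (C c : F[X]) ≠ 0 := by rwa [Ne, C_eq_zero]
  have hP0 : P ^ (ex ℓ P x).val ≠ 0 := pow_ne_zero _ hP.ne_zero
  have hprod : ∏ Q ∈ T, Q ^ (ex ℓ Q x).val ≠ 0 := Finset.prod_ne_zero_iff.2 hQ0
  have hg0 : C c * ∏ Q ∈ insert P T, Q ^ (ex ℓ Q x).val ≠ 0 := by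
    rw [Finset.prod_insert hPT]
    exact mul_ne_zero hC0 (mul_ne_zero hP0 hprod)
  have hyM : toP P hP y ≠ 0 := by
    rw [Ne, map_eq_zero]
    exact hy0
  have hPC : ¬ P ∣ C c := by
    intro hd
    exact hP.not_isUnit (isUnit_of_dvd_unit hd (isUnit_C.2 (isUnit_iff_ne_zero.2 hc0)))
  have e1 : (UP χ hPm hP).un (toP P hP x) =
      (UP χ hPm hP).un (toP P hP (algebraMap F[X] (RatFunc F)
        (C c * ∏ Q ∈ insert P T, Q ^ (ex ℓ Q x).val))) := by
    conv_lhs => rw [hxe]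
    rw [map_mul, map_pow]
    exact (UP χ hPm hP).un_pow_l (hnz _ hg0) hyM
  rw [e1, Finset.prod_insert hPT, map_mul, map_mul, (UP χ hPm hP).mul _ _ (hnz _ hC0) (by
    rw [Ne, map_eq_zero]
    exact RatFunc.algebraMap_ne_zero (mul_ne_zero hP0 hprod)), map_mul, map_mul,
    (UP χ hPm hP).mul _ _ (hnz _ hP0) (hnz _ hprod), UP_poly χ hPm hP hPC, lm_C χ hPm hc0, hck,
    map_pow, map_pow, (UP χ hPm hP).un_pow (hnz _ hP.ne_zero), UP_self, mul_zero, zero_add]
  congr 1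
  rw [map_prod, map_prod, (UP χ hPm hP).un_prod _ _ (fun Q hQ => hnz _ (hQ0 Q hQ))]
  refine Finset.sum_congr rfl fun Q hQ => ?_
  have hPQ : ¬ P ∣ Q := by
    intro hd
    have := eq_of_monic_of_associated hPm (hT Q hQ).1 (hP.associated_of_dvd (hT Q hQ).2 hd)
    exact hPT (this ▸ hQ)
  rw [map_pow, map_pow, (UP χ hPm hP).un_pow (hnz _ (hT Q hQ).2.ne_zero), UP_poly χ hPm hP hPQ,
    ZMod.natCast_zmod_val]

end

section
variable {F : Type} [Field F] [DecidableEq (RatFunc F)] {ℓ : ℕ} [hl : Fact ℓ.Prime]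
  (χ : LChar F ℓ)

/-- the map to the completion at infinity -/
noncomputable def toI (F : Type) [Field F] [DecidableEq (RatFunc F)] :
    RatFunc F →+* RatFunc.CompletionAtInfty F :=
  algebraMap (RatFunc F) (RatFunc.CompletionAtInfty F)

/-- the valuation at infinity -/
noncomputable def wI (F : Type) [Field F] [DecidableEq (RatFunc F)] :
    Valuation (RatFunc.CompletionAtInfty F) ℤᵐ⁰ := Valued.v

/-- the unit logarithm at infinity -/
noncomputable def UI : LU (wI F) ℓ := (exists_LUI χ).choose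

theorem UI_poly {g : F[X]} (hg : g ≠ 0) :
    (UI χ).un (toI F (algebraMap F[X] (RatFunc F) g)) = χ.lg g.leadingCoeff :=
  (exists_LUI χ).choose_spec g hg

theorem un_inf {x : RatFunc F} (hx : x ≠ 0) : (UI χ).un (toI F x) = kap χ x := by
  have hn : x.num ≠ 0 := RatFunc.num_ne_zero hx
  have hd : x.denom ≠ 0 := RatFunc.denom_ne_zero x
  have hnz : ∀ g : F[X], g ≠ 0 → toI F (algebraMap F[X] (RatFunc F) g) ≠ 0 := by
    intro g hg
    rw [Ne, map_eq_zero]
    exact RatFunc.algebraMap_ne_zero hg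
  have h1 : χ.lg 1 = 0 := by
    have h2 := χ.mul (one_ne_zero (α := F)) one_ne_zero
    rw [mul_one] at h2
    exact left_eq_add.1 h2
  conv_lhs => rw [← RatFunc.num_div_denom x]
  rw [map_div₀, (UI χ).un_div (hnz _ hn) (hnz _ hd), UI_poly χ hn, UI_poly χ hd,
    (RatFunc.monic_denom x).leadingCoeff, h1, sub_zero]
  rfl

include χ in
theorem vl_inf {x : RatFunc F} (hx : x ≠ 0) (T : Finset F[X])
    (hT : ∀ Q ∈ T, Q.Monic ∧ Irreducible Q)
    (h : ∀ Q : F[X], Q.Monic → Irreducible Q → Q ∉ T → ex ℓ Q x = 0) :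
    (vl (wI F) (toI F x) : ZMod ℓ) = -∑ Q ∈ T, ex ℓ Q x * (Q.natDegree : ZMod ℓ) := by
  have hNZ : NeZero ℓ := ⟨hl.out.ne_zero⟩
  obtain ⟨c, hc0, y, hy0, hck, hxe⟩ := normal_form χ hx T hT h
  obtain ⟨g, hg⟩ : ∃ g : F[X], g = C c * ∏ Q ∈ T, Q ^ (ex ℓ Q x).val := ⟨_, rfl⟩
  rw [← hg] at hxe
  have hmon : ∀ Q ∈ T, (Q ^ (ex ℓ Q x).val).Monic := fun Q hQ => (hT Q hQ).1.pow _
  have hg0 : g ≠ 0 := by
    rw [hg]
    exact mul_ne_zero (by rwa [Ne, C_eq_zero]) (monic_prod_of_monic _ _ hmon).ne_zero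
  have hyM : toI F y ≠ 0 := by
    rw [Ne, map_eq_zero]
    exact hy0
  have hgM : toI F (algebraMap F[X] (RatFunc F) g) ≠ 0 := by
    rw [Ne, map_eq_zero]
    exact RatFunc.algebraMap_ne_zero hg0
  have hv : vl (wI F) (toI F (algebraMap F[X] (RatFunc F) g)) = -(g.natDegree : ℤ) := by
    rw [vl_eq_iff hgM, neg_neg]
    exact LT.val_inf_poly hg0
  have h4 : g.natDegree = ∑ Q ∈ T, (ex ℓ Q x).val * Q.natDegree := by
    rw [hg, natDegree_C_mul hc0, natDegree_prod_of_monic _ _ hmon]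
    exact Finset.sum_congr rfl fun Q _ => natDegree_pow _ _
  have e1 : vl (wI F) (toI F x) = -(g.natDegree : ℤ) + ℓ * vl (wI F) (toI F y) := by
    conv_lhs => rw [hxe]
    rw [map_mul, map_pow, vl_mul hgM (pow_ne_zero _ hyM), vl_pow, hv]
  rw [e1, h4]
  push_cast
  rw [ZMod.natCast_self, zero_mul, add_zero]
  congr 1
  refine Finset.sum_congr rfl fun Q _ => ?_
  rw [ZMod.natCast_zmod_val]

theorem vl_inf_poly {g : F[X]} (hg : g ≠ 0) :
    vl (wI F) (toI F (algebraMap F[X] (RatFunc F) g)) = -(g.natDegree : ℤ) := by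
  have hgM : toI F (algebraMap F[X] (RatFunc F) g) ≠ 0 := by
    rw [Ne, map_eq_zero]
    exact RatFunc.algebraMap_ne_zero hg
  rw [vl_eq_iff hgM, neg_neg]
  exact LT.val_inf_poly hg

theorem unif_inf : wI F (toI F (RatFunc.X)⁻¹) = exp (-1 : ℤ) := by
  have h1 : wI F (toI F (algebraMap F[X] (RatFunc F) X)) = exp ((X : F[X]).natDegree : ℤ) :=
    LT.val_inf_poly X_ne_zero
  rw [natDegree_X, RatFunc.algebraMap_X] at h1
  rw [map_inv₀, map_inv₀, h1, ← exp_neg]
  rfl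

end

section
variable {F : Type} [Field F] [Finite F] {ℓ : ℕ} [hl : Fact ℓ.Prime]

theorem l_ne_zero (h : ℓ ∣ Nat.card F - 1) : (ℓ : F) ≠ 0 := by
  intro h0
  obtain ⟨k, hk⟩ := h
  have h1 : 0 < Nat.card F := Nat.card_pos
  have h2 : Nat.card F = ℓ * k + 1 := by omega
  have h3 : ((Nat.card F : ℕ) : F) = 0 := by
    haveI := Fintype.ofFinite F
    rw [Nat.card_eq_fintype_card]
    exact FiniteField.cast_card_eq_zero F
  rw [h2, Nat.cast_add, Nat.cast_mul, h0, zero_mul, zero_add, Nat.cast_one] at h3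
  exact one_ne_zero h3

theorem val_l_P (h : ℓ ∣ Nat.card F - 1) {P : F[X]} (hP : Irreducible P) :
    wP P hP (ℓ : (LT.place P hP).adicCompletion (RatFunc F)) = 1 := by
  have h1 : (ℓ : (LT.place P hP).adicCompletion (RatFunc F)) =
      toP P hP (algebraMap F[X] (RatFunc F) (C (ℓ : F))) := by
    rw [map_natCast, map_natCast, map_natCast]
  rw [h1]
  refine wP_eq_one hP fun hd => ?_
  exact hP.not_isUnit (isUnit_of_dvd_unit hd (isUnit_C.2 (isUnit_iff_ne_zero.2 (l_ne_zero h))))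

theorem val_l_inf [DecidableEq (RatFunc F)] (h : ℓ ∣ Nat.card F - 1) :
    wI F (ℓ : RatFunc.CompletionAtInfty F) = 1 := by
  have h1 : (ℓ : RatFunc.CompletionAtInfty F) =
      toI F (algebraMap F[X] (RatFunc F) (C (ℓ : F))) := by
    rw [map_natCast, map_natCast, map_natCast]
  rw [h1]
  exact LT.val_const (l_ne_zero h)

end

end Pool.Agent.H94.PM
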