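import Pool.Agent.H94.PM.TY
import Pool.Agent.H94.PL.Wsp

set_option autoImplicit false

/-!
# [H94 PM WS] The weight `WG` when the variables outside an unlinked set `U` are fixed

`U` unlinked, `y : {w // w ∉ U} → Mn F n` fixed, `Y = ∏ y_w`, `X = ∏ x_u`.  As in `PL.Wsp.wl_split` (same conditions on the product, same
splitting of `(1/N)^om`), with the following exponents (`e₀ = lg (-1)`, `z = mgU U x y`, all `z u` monic and pairwise coprime):
* `∑_{u,w ∉ U} Phi u w * lm (y w) (y u)`: a constant.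
* inside `U` (`ws_in`): `∑_{u,w ∈ U} Phi u w * lm (x w) (x u) = e₀ * rS C U (deg x)`.  The terms `u = w` vanish (`hC.self`).
  For `u ≠ w` exactly one of `equivFin u < equivFin w`, `equivFin w < equivFin u` holds; the two terms of a pair with
  `equivFin u < equivFin w` are `Phi u w * lm (x w) (x u) + Phi w u * lm (x u) (x w)`, `Phi w u = - Phi u w` (unlinked),
  `lm (x u) (x w) = lm (x w) (x u) + deg deg e₀` (`lm_recip'`), so they add to `- Phi u w deg deg e₀ = Phi u w deg deg e₀` (`lg_neg_add`).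
* `u ∈ U, w ∉ U`: `Phi u w * lm (y w) (x u) + Phi w u * lm (x u) (y w) = lk u w * lm (y w) (x u) + Phi w u * deg (x u) * deg (y w) * e₀`.
So with `H τ = (the constant) * G (mgU U τ (ty y)) * ps (e₀ * rS C U τ.1) * ps (∑_{u ∈ U, w ∉ U} Phi w u * (τ u).1 * deg (y w) * e₀)`
the formula holds.  If all `y w = 1` then `ty y = 0` (`lm_one_right`, `natDegree_one`), the constant is `1` and the last factor
is `1`, so `H τ = G (mgU U τ 0) * ps (e₀ * rS ..)`, and the product with `lk` is `1` (this is the second statement, with `Y = 1`).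
-/

namespace Pool.Agent.H94.PM

open Polynomial
open Pool.Agent.H94.PL
open Pool.Agent.H94.PC (Mo Sq Pr pf om Mn mem_Mo mem_Sq mem_Pr mem_pf mem_pf')

variable {F : Type} [Field F] [Finite F] {ℓ : ℕ} [hl : Fact ℓ.Prime]
  {V : Type} [Fintype V] [DecidableEq V]

omit [Finite F] in
private theorem ws_neg (χ : LChar F ℓ) : -χ.lg (-1) = χ.lg (-1) := neg_eq_of_add_eq_zero_left (lg_neg_add χ)

theorem ws_in (χ : LChar F ℓ) (C : CD V ℓ) (hself : ∀ u, C.Phi u u = 0) (U : Finset V)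
    (hU : C.Unl U) (x : {u // u ∈ U} → F[X]) (hx : ∀ u, (x u).Monic)
    (hc : ∀ u w, u ≠ w → IsCoprime (x u) (x w)) :
    ∑ u : {u // u ∈ U}, ∑ w : {u // u ∈ U}, C.Phi u.1 w.1 * lm χ (x w) (x u) =
      χ.lg (-1) * rS C U fun u => ((x u).natDegree : ZMod ℓ) := by
  set a : {u // u ∈ U} → {u // u ∈ U} → ZMod ℓ := fun u w => C.Phi u.1 w.1 * lm χ (x w) (x u) with ha
  have h1 : ∀ u w : {u // u ∈ U}, a u w =
      (if (Fintype.equivFin V u.1) < (Fintype.equivFin V w.1) then a u w else 0) +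
        (if (Fintype.equivFin V w.1) < (Fintype.equivFin V u.1) then a u w else 0) := by
    intro u w
    rcases lt_trichotomy (Fintype.equivFin V u.1) (Fintype.equivFin V w.1) with h | h | h
    · rw [if_pos h, if_neg (not_lt.2 h.le), add_zero]
    · have h2 : u = w := Subtype.ext ((Fintype.equivFin V).injective h)
      subst h2
      rw [if_neg (lt_irrefl _), add_zero, ha]
      simp only
      rw [hself, zero_mul]
    · rw [if_pos h, if_neg (not_lt.2 h.le), zero_add]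
  have h2 : ∑ u, ∑ w, a u w = (∑ u, ∑ w, if (Fintype.equivFin V u.1) < (Fintype.equivFin V w.1) then a u w else 0) +
      ∑ u, ∑ w, if (Fintype.equivFin V w.1) < (Fintype.equivFin V u.1) then a u w else 0 := by
    rw [← Finset.sum_add_distrib]
    refine Finset.sum_congr rfl fun u _ => ?_
    rw [← Finset.sum_add_distrib]
    exact Finset.sum_congr rfl fun w _ => h1 u w
  have h3 : (∑ u, ∑ w, if (Fintype.equivFin V w.1) < (Fintype.equivFin V u.1) then a u w else 0) =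
      ∑ u : {u // u ∈ U}, ∑ w : {u // u ∈ U},
        if (Fintype.equivFin V u.1) < (Fintype.equivFin V w.1) then a w u else 0 := Finset.sum_comm
  change ∑ u, ∑ w, a u w = _
  rw [h2, h3, rS, Finset.mul_sum, ← Finset.sum_add_distrib]
  refine Finset.sum_congr rfl fun u _ => ?_
  rw [Finset.mul_sum, ← Finset.sum_add_distrib]
  refine Finset.sum_congr rfl fun w _ => ?_
  by_cases h : (Fintype.equivFin V u.1) < (Fintype.equivFin V w.1)
  · rw [if_pos h, if_pos h, if_pos h, ha]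
    simp only
    have hne : u ≠ w := by
      rintro rfl
      exact lt_irrefl _ h
    have h4 : C.Phi u.1 w.1 + C.Phi w.1 u.1 = 0 := hU u.1 u.2 w.1 w.2
    have h5 : C.Phi w.1 u.1 = -C.Phi u.1 w.1 := (neg_eq_of_add_eq_zero_right h4).symm
    rw [h5, lm_recip' χ (hx u) (hx w) (hc u w hne)]
    have h6 := ws_neg χ
    calc C.Phi u.1 w.1 * lm χ (x w) (x u) + -C.Phi u.1 w.1 * (lm χ (x w) (x u) +
          ((x u).natDegree : ZMod ℓ) * ((x w).natDegree : ZMod ℓ) * χ.lg (-1))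
        = C.Phi u.1 w.1 * (((x u).natDegree : ZMod ℓ) * ((x w).natDegree : ZMod ℓ)) * -χ.lg (-1) := by ring
      _ = _ := by
        rw [h6]
        ring
  · rw [if_neg h, if_neg h, if_neg h, add_zero, mul_zero]

/-- the exponent of the double product -/
private theorem ws_dbl (χ : LChar F ℓ) (C : CD V ℓ) (hself : ∀ u, C.Phi u u = 0) (U : Finset V) (hU : C.Unl U)
    (x : {u // u ∈ U} → F[X]) (y : {w // w ∉ U} → F[X]) (z : V → F[X])
    (hx : ∀ u : {u // u ∈ U}, z u.1 = x u) (hy : ∀ w : {w // w ∉ U}, z w.1 = y w)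
    (hm : ∀ u, (z u).Monic) (hc : ∀ u w, u ≠ w → IsCoprime (z u) (z w)) :
    ∑ u, ∑ w, C.Phi u w * lm χ (z w) (z u) =
      (∑ u : {w // w ∉ U}, ∑ w : {w // w ∉ U}, C.Phi u.1 w.1 * lm χ (y w) (y u)) +
        χ.lg (-1) * (rS C U fun u => ((x u).natDegree : ZMod ℓ)) +
        (∑ u : {u // u ∈ U}, ∑ w : {w // w ∉ U},
          C.Phi w.1 u.1 * (((x u).natDegree : ZMod ℓ) * ((y w).natDegree : ZMod ℓ)) * χ.lg (-1)) +
        ∑ u : {u // u ∈ U}, ∑ w : {w // w ∉ U}, C.lk u.1 w.1 * lm χ (y w) (x u) := by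
  have e1 : ∀ u : V, ∑ w, C.Phi u w * lm χ (z w) (z u) =
      (∑ w : {u // u ∈ U}, C.Phi u w.1 * lm χ (x w) (z u)) +
        ∑ w : {w // w ∉ U}, C.Phi u w.1 * lm χ (y w) (z u) := by
    intro u
    rw [add_mgU U]
    congr 1
    · exact Finset.sum_congr rfl fun w _ => by rw [hx]
    · exact Finset.sum_congr rfl fun w _ => by rw [hy]
  rw [Finset.sum_congr rfl fun u _ => e1 u, add_mgU U]
  have e3 : ∑ u : {u // u ∈ U}, ∑ w : {u // u ∈ U}, C.Phi u.1 w.1 * lm χ (x w) (z u.1) =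
      χ.lg (-1) * rS C U fun u => ((x u).natDegree : ZMod ℓ) := by
    rw [← ws_in χ C hself U hU x (fun u => by rw [← hx]; exact hm _)
      (fun u w h => by
        rw [← hx, ← hx]
        exact hc _ _ fun h' => h (Subtype.ext h'))]
    exact Finset.sum_congr rfl fun u _ => Finset.sum_congr rfl fun w _ => by rw [hx u]
  have e2 : ∑ u : {u // u ∈ U}, ((∑ w : {u // u ∈ U}, C.Phi u.1 w.1 * lm χ (x w) (z u.1)) +
        ∑ w : {w // w ∉ U}, C.Phi u.1 w.1 * lm χ (y w) (z u.1)) =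
      (χ.lg (-1) * rS C U fun u => ((x u).natDegree : ZMod ℓ)) +
      ∑ u : {u // u ∈ U}, ∑ w : {w // w ∉ U}, C.Phi u.1 w.1 * lm χ (y w) (x u) := by
    rw [Finset.sum_add_distrib, e3]
    congr 1
    exact Finset.sum_congr rfl fun u _ => Finset.sum_congr rfl fun w _ => by rw [hx u]
  have e4 : ∑ u : {w // w ∉ U}, ((∑ w : {u // u ∈ U}, C.Phi u.1 w.1 * lm χ (x w) (z u.1)) +
        ∑ w : {w // w ∉ U}, C.Phi u.1 w.1 * lm χ (y w) (z u.1)) =
      (∑ u : {u // u ∈ U}, ∑ w : {w // w ∉ U}, C.Phi w.1 u.1 * (lm χ (y w) (x u) +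
        (((x u).natDegree : ZMod ℓ) * ((y w).natDegree : ZMod ℓ)) * χ.lg (-1))) +
      ∑ u : {w // w ∉ U}, ∑ w : {w // w ∉ U}, C.Phi u.1 w.1 * lm χ (y w) (y u) := by
    rw [Finset.sum_add_distrib]
    congr 1
    · rw [Finset.sum_comm]
      refine Finset.sum_congr rfl fun u _ => Finset.sum_congr rfl fun w _ => ?_
      have hne : u.1 ≠ w.1 := by
        intro h
        exact w.2 (h ▸ u.2)
      have h5 : IsCoprime (x u) (y w) := by
        rw [← hx, ← hy]
        exact hc _ _ hne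
      rw [hy w, lm_recip' χ (by rw [← hx]; exact hm _) (by rw [← hy]; exact hm _) h5]
    · exact Finset.sum_congr rfl fun u _ => Finset.sum_congr rfl fun w _ => by rw [hy u]
  rw [e2, e4]
  have e5 : (∑ u : {u // u ∈ U}, ∑ w : {w // w ∉ U}, C.Phi w.1 u.1 * (lm χ (y w) (x u) +
        (((x u).natDegree : ZMod ℓ) * ((y w).natDegree : ZMod ℓ)) * χ.lg (-1))) =
      (∑ u : {u // u ∈ U}, ∑ w : {w // w ∉ U}, C.Phi w.1 u.1 * lm χ (y w) (x u)) +
      ∑ u : {u // u ∈ U}, ∑ w : {w // w ∉ U},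
          C.Phi w.1 u.1 * (((x u).natDegree : ZMod ℓ) * ((y w).natDegree : ZMod ℓ)) * χ.lg (-1) := by
    rw [← Finset.sum_add_distrib]
    refine Finset.sum_congr rfl fun u _ => ?_
    rw [← Finset.sum_add_distrib]
    exact Finset.sum_congr rfl fun w _ => by ring
  have e6 : (∑ u : {u // u ∈ U}, ∑ w : {w // w ∉ U}, C.lk u.1 w.1 * lm χ (y w) (x u)) =
      (∑ u : {u // u ∈ U}, ∑ w : {w // w ∉ U}, C.Phi u.1 w.1 * lm χ (y w) (x u)) +
      ∑ u : {u // u ∈ U}, ∑ w : {w // w ∉ U}, C.Phi w.1 u.1 * lm χ (y w) (x u) := by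
    rw [← Finset.sum_add_distrib]
    refine Finset.sum_congr rfl fun u _ => ?_
    rw [← Finset.sum_add_distrib]
    refine Finset.sum_congr rfl fun w _ => ?_
    rw [← add_mul]
    rfl
  rw [e5, e6]
  ring

open Classical in
theorem wg_split (χ : LChar F ℓ) (C : CD V ℓ) (hC : C.Good) (Δ : F[X])
    (G : (V → Tp ℓ (pf Δ)) → ℂ) (hG : ∀ τ, ‖G τ‖ ≤ 1) (U : Finset V) (hU : C.Unl U) (n : ℕ)
    (y : {w // w ∉ U} → Mn F n) :
    ∃ H : ({u // u ∈ U} → Tp ℓ (pf Δ)) → ℂ, (∀ τ, ‖H τ‖ ≤ 1) ∧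
      ((∀ w, (y w).1 = 1) → ∀ τ, H τ =
        G (mgU U τ fun _ => 0) * ps (χ.lg (-1) * rS C U fun u => (τ u).1)) ∧
      ∀ x : {u // u ∈ U} → Mn F n,
      WG χ C Δ G n (mgU U x y) =
        if ((∏ w, (y w).1) ∈ Cls Δ (∏ w, (y w).1).natDegree ∧ (∏ w, (y w).1).natDegree ≤ n) ∧
          (∏ u, (x u).1) ∈ Cls (Δ * ∏ w, (y w).1) (n - (∏ w, (y w).1).natDegree) then
          (1 / (C.N : ℂ)) ^ om (∏ w, (y w).1) * ((1 / (C.N : ℂ)) ^ om (∏ u, (x u).1) *
            (H (fun u => ty χ Δ (x u).1) *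
              ps (∑ u : {u // u ∈ U}, ∑ w : {w // w ∉ U}, C.lk u.1 w.1 * lm χ (y w).1 (x u).1)))
        else 0 := by
  refine ⟨fun τ => ps (∑ u : {w // w ∉ U}, ∑ w : {w // w ∉ U}, C.Phi u.1 w.1 * lm χ (y w).1 (y u).1) *
    G (mgU U τ fun w => ty χ Δ (y w).1) * ps (χ.lg (-1) * rS C U fun u => (τ u).1) *
    ps (∑ u : {u // u ∈ U}, ∑ w : {w // w ∉ U},
          C.Phi w.1 u.1 * ((τ u).1 * ((y w).1.natDegree : ZMod ℓ)) * χ.lg (-1)), ?_, ?_, ?_⟩
  · intro τ
    rw [norm_mul, norm_mul, norm_mul, norm_ps, norm_ps, norm_ps, one_mul, mul_one, mul_one]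
    exact hG _
  · intro h1 τ
    have h2 : (fun w : {w // w ∉ U} => ty χ Δ (y w).1) = fun _ => 0 := by
      funext w
      rw [h1 w]
      refine Prod.ext ?_ ?_
      · simp [ty]
      · funext v
        exact lm_one_right χ _
    have h3 : ∑ u : {w // w ∉ U}, ∑ w : {w // w ∉ U}, C.Phi u.1 w.1 * lm χ (y w).1 (y u).1 = 0 := by
      refine Finset.sum_eq_zero fun u _ => Finset.sum_eq_zero fun w _ => ?_
      rw [h1 u, lm_one_right, mul_zero]
    have h4 : (∑ u : {u // u ∈ U}, ∑ w : {w // w ∉ U},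
          C.Phi w.1 u.1 * ((τ u).1 * ((y w).1.natDegree : ZMod ℓ)) * χ.lg (-1)) = 0 := by
      refine Finset.sum_eq_zero fun u _ => Finset.sum_eq_zero fun w _ => ?_
      rw [h1 w, natDegree_one, Nat.cast_zero, mul_zero, mul_zero, zero_mul]
    simp only
    rw [h2, h3, h4, ps_zero, one_mul, mul_one]
  intro x
  obtain ⟨E, hE⟩ : ∃ E : F[X], E = ∏ w, (y w).1 := ⟨_, rfl⟩
  obtain ⟨D, hD⟩ : ∃ D : F[X], D = ∏ u, (x u).1 := ⟨_, rfl⟩
  rw [← hE, ← hD]
  have hprod : ∏ u, (mgU U x y u).1 = D * E := by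
    rw [prod_mgU U, hD, hE]
    congr 1
    · exact Finset.prod_congr rfl fun u _ => by rw [mgU_in]
    · exact Finset.prod_congr rfl fun w _ => by rw [mgU_out]
  have hDm : D.Monic := by
    rw [hD]
    exact monic_prod_of_monic _ _ fun i _ => (x i).2.1
  have hEm : E.Monic := by
    rw [hE]
    exact monic_prod_of_monic _ _ fun i _ => (y i).2.1
  rw [WG, hprod]
  by_cases hcond : (E ∈ Cls Δ E.natDegree ∧ E.natDegree ≤ n) ∧ D ∈ Cls (Δ * E) (n - E.natDegree)
  · rw [if_pos hcond]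
    obtain ⟨⟨hE1, hEn⟩, hD1⟩ := hcond
    obtain ⟨_, _, hEs, hEΔ⟩ := mem_Cls.1 hE1
    obtain ⟨_, hDd, hDs, hDΔ⟩ := mem_Cls.1 hD1
    have hDΔ' : IsCoprime D Δ := hDΔ.of_mul_right_left
    have hDE : IsCoprime D E := hDΔ.of_mul_right_right
    have hsq : Squarefree (D * E) :=
      squarefree_mul_iff.2 ⟨isRelPrime_iff_isCoprime.2 hDE, hDs, hEs⟩
    have hmem : D * E ∈ Cls Δ n := by
      rw [mem_Cls]
      refine ⟨hDm.mul hEm, ?_, hsq, IsCoprime.mul_left hDΔ' hEΔ⟩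
      rw [hDm.natDegree_mul hEm, hDd]
      omega
    rw [if_pos hmem, PC.om_mul hDm hEm hDE, pow_add]
    have e3 : ∏ u, ∏ w, ps (C.Phi u w * lm χ (mgU U x y w).1 (mgU U x y u).1) =
        ps (∑ u, ∑ w, C.Phi u w * lm χ (mgU U x y w).1 (mgU U x y u).1) := by
      rw [ps_sum]
      exact Finset.prod_congr rfl fun u _ => (ps_sum _ _).symm
    have hcop : ∀ u w, u ≠ w → IsCoprime (mgU U x y u).1 (mgU U x y w).1 := fun u w h =>
      wsp_cop (fun u => (mgU U x y u).1) (by rw [hprod]; exact hsq) h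
    have e4 := ws_dbl χ C hC.self U hU (fun u => (x u).1) (fun w => (y w).1)
      (fun u => (mgU U x y u).1) (fun u => by rw [mgU_in]) (fun w => by rw [mgU_out])
      (fun u => (mgU U x y u).2.1) hcop
    have e5 : (fun u => ty χ Δ (mgU U x y u).1) = mgU U (fun u => ty χ Δ (x u).1) fun w => ty χ Δ (y w).1 := by
      funext u
      by_cases h : u ∈ U
      · have h1 := mgU_in U x y ⟨u, h⟩
        have h2 := mgU_in U (fun u => ty χ Δ (x u).1) (fun w => ty χ Δ (y w).1) ⟨u, h⟩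
        simp only at h1 h2
        rw [h1, h2]
      · have h1 := mgU_out U x y ⟨u, h⟩
        have h2 := mgU_out U (fun u => ty χ Δ (x u).1) (fun w => ty χ Δ (y w).1) ⟨u, h⟩
        simp only at h1 h2
        rw [h1, h2]
    rw [e3, e4, e5, ps_add, ps_add, ps_add]
    have e6 : ∀ u : {u // u ∈ U}, (ty χ Δ (x u).1).1 = ((x u).1.natDegree : ZMod ℓ) := fun u => rfl
    simp only [e6]
    ring
  · rw [if_neg hcond, if_neg]
    intro h1
    apply hcond
    obtain ⟨_, h4, h5, h6⟩ := mem_Cls.1 h1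
    obtain ⟨h7, h8, h9⟩ := squarefree_mul_iff.1 h5
    rw [hDm.natDegree_mul hEm] at h4
    refine ⟨⟨mem_Cls.2 ⟨hEm, rfl, h9, h6.of_mul_left_right⟩, by omega⟩,
      mem_Cls.2 ⟨hDm, by omega, h8, ?_⟩⟩
    exact IsCoprime.mul_right h6.of_mul_left_left (isRelPrime_iff_isCoprime.1 h7)

end Pool.Agent.H94.PM
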